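import Pool.Agent.QTx.Targets
import Pool.Agent.QTw.FIB
import Pool.Agent.QTw.FIBG
import Pool.Agent.QTw.HALL

set_option autoImplicit false

open Finset
open Pool.Agent.QTw (primesTo cfgs)

namespace Pool.Agent.QTx

namespace BAL2_

variable {m n : ℕ} (M : Model m n)

theorem abs_prod_le_one {α : Type} (s : Finset α) (f : α → ℝ) (h : ∀ x ∈ s, |f x| ≤ 1) :
    |∏ x ∈ s, f x| ≤ 1 := by
  rw [abs_prod]
  exact prod_le_one (fun x _ => abs_nonneg _) h

theorem om_le (hM : M.Bounded) (x y : ℕ × Ty n) : |M.om x y| ≤ 1 :=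
  abs_prod_le_one _ _ fun _ _ => hM.sgn_le _ _ _ _ _

theorem hh_nonneg (κ z : ℕ) (I : Finset (Fin m)) (b : Fin m → ℕ) (p : ℕ) (t : Ty n) :
    0 ≤ M.hh κ z I b p t := by
  unfold Model.hh
  split_ifs <;> positivity

theorem hh_le (κ z : ℕ) (I : Finset (Fin m)) (b : Fin m → ℕ) (p : ℕ) (t : Ty n) :
    M.hh κ z I b p t ≤ 2 := by
  have h1 : (1 : ℝ) / 2 ^ (M.rn p - 1) ≤ 1 := by
    rw [div_le_one (by positivity)]
    exact one_le_pow₀ (by norm_num)
  unfold Model.hh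
  split_ifs <;> linarith

end BAL2_

open BAL2_

open Classical in
theorem p_BAL2 (h1 : T_COV2) (h2 : T_EXPO2) : T_BAL2 := by
  intro m n κ M N hκ hM hS
  obtain ⟨c, B, hc0, hc1, hB⟩ := h2 m n κ M N hκ hM hS
  obtain ⟨G, hG⟩ : ∃ G : ℝ, G = 2 * Fintype.card (Ty n) := ⟨_, rfl⟩
  have hG0 : 0 ≤ G := by rw [hG]; positivity
  have hlog4 : 0 ≤ Real.log 4 := Real.log_nonneg (by norm_num)
  refine ⟨c, 2 ^ m * ((G * Real.log 4 + 1) * Real.exp B), hc0, hc1, by positivity, ?_⟩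
  intro a z X hX ha
  obtain ⟨Dt, hDt⟩ : ∃ Dt : Finset (Finset (Fin m) × (Fin m → ℕ)), Dt =
    (univ : Finset (Finset (Fin m))) ×ˢ
      (Fintype.piFinset (fun _ : Fin m => range (Model.bk κ X + 1))) := ⟨_, rfl⟩
  have hlog : 0 < Real.log X := Real.log_pos (by exact_mod_cast (by omega : 1 < X))
  -- step 1
  have st1 : ∀ c ∈ (cfgs (Ty n) N X).filter (fun c => ¬ M.Unb κ z c),
      |M.W a z c| ≤ ∑ D ∈ Dt, ∏ x ∈ c, M.hh κ z D.1 D.2 x.1 x.2 := by
    intro c hc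
    rw [mem_filter] at hc
    obtain ⟨I, b, hb, hF⟩ := h1 m n M a κ N z X hκ hM ha c hc.1 hc.2
    have hmem : (I, b) ∈ Dt := by
      rw [hDt]
      simp only [mem_product, mem_univ, true_and, Fintype.mem_piFinset, mem_range]
      intro t
      exact Nat.lt_succ_of_le (hb t)
    have e1 : |M.W a z c| ≤ ∏ x ∈ c, |M.cf a z c x| := by
      unfold Model.W
      rw [abs_mul, ← abs_prod]
      have e2 : |∏ w ∈ c.offDiag, M.om w.1 w.2| ≤ 1 :=
        abs_prod_le_one _ _ fun w _ => om_le M hM _ _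
      calc _ ≤ |∏ x ∈ c, M.cf a z c x| * 1 := mul_le_mul_of_nonneg_left e2 (abs_nonneg _)
        _ = _ := mul_one _
    refine e1.trans ((prod_le_prod (fun x _ => abs_nonneg _) hF).trans ?_)
    exact single_le_sum (f := fun D : Finset (Fin m) × (Fin m → ℕ) =>
      ∏ x ∈ c, M.hh κ z D.1 D.2 x.1 x.2)
      (fun D _ => prod_nonneg (fun x _ => hh_nonneg _ _ _ _ _ _ _)) hmem
  -- step 2
  have st2 : ∀ D ∈ Dt, ∑ c ∈ cfgs (Ty n) N X, ∏ x ∈ c, M.hh κ z D.1 D.2 x.1 x.2 ≤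
      (G * Real.log 4 + 1) * (X / (Real.log X) ^ c) * (Real.exp B *
        Real.exp (n * (∑ p ∈ (Finset.range (z + 1)).filter Nat.Prime, 1 / (p : ℝ)))) := by
    intro D _
    rw [QTw.p_FIB QTw.p_FIBG (Ty n) (M.hh κ z D.1 D.2) N X]
    refine (QTw.p_HALL G (fun p => if p ∣ N then 0 else ∑ t, M.hh κ z D.1 D.2 p t) hG0 ?_ X
      (by omega)).trans ?_
    · intro p
      split_ifs with hpN
      · exact ⟨le_rfl, hG0⟩
      · refine ⟨sum_nonneg (fun t _ => hh_nonneg _ _ _ _ _ _ _), ?_⟩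
        calc ∑ t, M.hh κ z D.1 D.2 p t ≤ ∑ _t : Ty n, (2 : ℝ) :=
              sum_le_sum (fun t _ => hh_le M κ z D.1 D.2 p t)
          _ = G := by rw [sum_const, card_univ, nsmul_eq_mul, hG, mul_comm]
    · have h5 := Real.exp_le_exp.2 (hB z X D.1 D.2 hX)
      have h6 : Real.exp (n * (∑ p ∈ (Finset.range (z + 1)).filter Nat.Prime, 1 / (p : ℝ)) +
          (1 - c) * Real.log (Real.log X) + B) =
          Real.exp (n * (∑ p ∈ (Finset.range (z + 1)).filter Nat.Prime, 1 / (p : ℝ))) *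
            (Real.log X / (Real.log X) ^ c) * Real.exp B := by
        rw [Real.exp_add, Real.exp_add]
        congr 2
        rw [← Real.rpow_one (Real.log X), Real.rpow_one (Real.log X)]
        rw [show Real.log X / Real.log X ^ c = Real.log X ^ (1 - c) by
          rw [Real.rpow_sub hlog, Real.rpow_one], Real.rpow_def_of_pos hlog]
        congr 1
        ring
      rw [h6] at h5
      refine (mul_le_mul_of_nonneg_left h5 (by positivity)).trans (le_of_eq ?_)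
      field_simp
  calc _ ≤ ∑ c ∈ (cfgs (Ty n) N X).filter (fun c => ¬ M.Unb κ z c),
        ∑ D ∈ Dt, ∏ x ∈ c, M.hh κ z D.1 D.2 x.1 x.2 := sum_le_sum st1
    _ ≤ ∑ c ∈ cfgs (Ty n) N X, ∑ D ∈ Dt, ∏ x ∈ c, M.hh κ z D.1 D.2 x.1 x.2 :=
        sum_le_sum_of_subset_of_nonneg (filter_subset _ _)
          (fun c _ _ => sum_nonneg (fun D _ => prod_nonneg (fun x _ => hh_nonneg _ _ _ _ _ _ _)))
    _ = ∑ D ∈ Dt, ∑ c ∈ cfgs (Ty n) N X, ∏ x ∈ c, M.hh κ z D.1 D.2 x.1 x.2 := sum_comm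
    _ ≤ ∑ _D ∈ Dt, (G * Real.log 4 + 1) * (X / (Real.log X) ^ c) * (Real.exp B *
        Real.exp (n * (∑ p ∈ (Finset.range (z + 1)).filter Nat.Prime, 1 / (p : ℝ)))) :=
        sum_le_sum st2
    _ = _ := by
        rw [sum_const, nsmul_eq_mul, hDt, card_product, Fintype.card_piFinset, prod_const,
          card_range, card_univ, card_univ, Fintype.card_finset, Fintype.card_fin]
        push_cast
        ring

end Pool.Agent.QTx
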