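import Pool.Agent.QTx.Targets
import Pool.Agent.QTw.COUNT

/-! # COUNT2: assembly of part C -/

open Polynomial
open Pool.Agent.QTw (cfgs primesTo T_SMALL)

namespace Pool.Agent.QTx

namespace COUNT2_

/-- the number of blocks -/
theorem bk_le (κ X : ℕ) (hκ : 1 ≤ κ) (hX : 2 ≤ X) (h1 : 1 ≤ Real.log X) :
    (Model.bk κ X : ℝ) + 1 ≤ 2 * (Real.log (Real.log X) + 2) := by
  have hX0 : (0 : ℝ) < X := by exact_mod_cast (by omega : 0 < X)
  unfold Model.bk
  have hl2 : 1 ≤ Nat.log 2 X := by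
    rw [Nat.one_le_iff_ne_zero]
    intro h
    rw [Nat.log_eq_zero_iff] at h
    omega
  have h2 : (2 : ℝ) ^ (Nat.log 2 X) ≤ X := by
    exact_mod_cast Nat.pow_log_le_self 2 (by omega)
  have h3 : (2 : ℝ) ^ (Nat.log (2 * κ) (Nat.log 2 X)) ≤ (Nat.log 2 X : ℝ) := by
    have h4 : 2 ^ (Nat.log (2 * κ) (Nat.log 2 X)) ≤ (2 * κ) ^ (Nat.log (2 * κ) (Nat.log 2 X)) :=
      Nat.pow_le_pow_left (by omega) _
    exact_mod_cast h4.trans (Nat.pow_log_le_self (2 * κ) (by omega))
  have h4 : (Nat.log 2 X : ℝ) * Real.log 2 ≤ Real.log X := by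
    rw [← Real.log_pow]
    exact Real.log_le_log (by positivity) h2
  have hlog2 : (0.69 : ℝ) < Real.log 2 := by
    have := Real.log_two_gt_d9
    linarith
  have h5 : (Nat.log 2 X : ℝ) ≤ 2 * Real.log X := by
    have : (0 : ℝ) ≤ (Nat.log 2 X : ℝ) := Nat.cast_nonneg _
    nlinarith
  have h6 : (Nat.log (2 * κ) (Nat.log 2 X) : ℝ) * Real.log 2 ≤ Real.log (2 * Real.log X) := by
    rw [← Real.log_pow]
    exact Real.log_le_log (by positivity) (h3.trans h5)
  have h7 : Real.log (2 * Real.log X) = Real.log 2 + Real.log (Real.log X) :=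
    Real.log_mul (by norm_num) (by linarith)
  have hlog2' : Real.log 2 < 0.7 := by
    have := Real.log_two_lt_d9
    linarith
  have h9 : (0 : ℝ) ≤ (Nat.log (2 * κ) (Nat.log 2 X) : ℝ) := Nat.cast_nonneg _
  have h10 : 0 ≤ Real.log (Real.log X) := Real.log_nonneg h1
  rw [h7] at h6
  nlinarith

open Classical in
/-- the bound for one sign function -/
theorem per (h3 : T_UNB2) (h4 : T_BAL2) (h5 : T_SMALL) (m n κ : ℕ) (M : Model m n) (N : ℕ)
    (B₀ : ℝ) (hκ : 1 ≤ κ) (hB₀ : 0 ≤ B₀) (hM : M.Bounded) (hBil : M.Bil κ N B₀)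
    (hW : M.SmallW N) :
    ∃ c : ℝ, 0 < c ∧ ∃ B : ℝ, 0 ≤ B ∧ ∀ X : ℕ, 16 ≤ X →
      Real.exp 1 ≤ Real.log X → ∀ a : ℕ → Fin n → Fin n → ℝ, (∀ p j j', |a p j j'| ≤ 1) →
      ∑ c ∈ cfgs (Ty n) N X,
        M.W a (⌈(Real.log X) ^ (3 * (Fintype.card (Ty n) + 1))⌉₊ + 3) c ≤
        B * X * (Real.log X) ^ (-c) := by
  obtain ⟨BU, hBU0, hBU⟩ := h3 m n κ B₀ hκ hB₀
  obtain ⟨c, BB, hc0, hc1, hBB0, hBB⟩ := h4 m n κ M N hκ hM hW
  obtain ⟨BS, hBS0, hBS⟩ := h5
  set K : ℕ := Fintype.card (Ty n) with hK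
  obtain ⟨L, hL⟩ := exists_nat_ge ((n : ℝ) * BS)
  obtain ⟨Cε, hCε0, hCε⟩ := QTw.COUNT_.log_pow_le (c / 2) (by linarith) (m + L)
  set C1 : ℝ := (Real.exp 1 * (3 * K + 5)) ^ L with hC1
  have hC10 : 0 ≤ C1 := by positivity
  refine ⟨c / 2, by linarith, BU * 2 ^ K + BB * 2 ^ m * C1 * Cε, by positivity,
    fun X hX hlX a ha => ?_⟩
  set t : ℝ := Real.log X with ht
  have he1 : (2.7 : ℝ) < Real.exp 1 := by
    have := Real.exp_one_gt_d9
    linarith
  have ht1 : 1 ≤ t := by linarith
  have ht0 : 0 < t := by linarith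
  have hlt : 1 ≤ Real.log t := by
    rw [Real.le_log_iff_exp_le ht0]
    exact hlX
  set z : ℕ := ⌈t ^ (3 * (K + 1))⌉₊ + 3 with hz
  have hzr : t ^ (3 * (K + 1)) ≤ (z : ℝ) := by
    rw [hz]
    push_cast
    have := Nat.le_ceil (t ^ (3 * (K + 1)))
    linarith
  have hzr2 : (z : ℝ) ≤ 5 * t ^ (3 * (K + 1)) := by
    rw [hz]
    push_cast
    have h1 := Nat.ceil_lt_add_one (a := t ^ (3 * (K + 1))) (by positivity)
    have h2 : 1 ≤ t ^ (3 * (K + 1)) := one_le_pow₀ ht1
    linarith
  have hz3 : 3 ≤ z := by omega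
  have hX0 : (0 : ℝ) < X := by exact_mod_cast (by omega : 0 < X)
  rw [← Finset.sum_filter_add_sum_filter_not _ (fun c => M.Unb κ z c)]
  -- the unbalanced part
  have hU : ∑ c ∈ (cfgs (Ty n) N X).filter (fun c => M.Unb κ z c), M.W a z c ≤
      BU * 2 ^ K * X * t ^ (-(c / 2)) := by
    have h1 := hBU M a N z X (by omega) (by omega) hM ha hBil
    refine le_trans (b := BU * X * (1 + t) ^ K / (z : ℝ) ^ ((1 : ℝ) / 3)) ?_ ?_
    · convert le_trans (le_abs_self _) h1
    have h2 : t ^ (K + 1) ≤ (z : ℝ) ^ ((1 : ℝ) / 3) := by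
      have h6 : t ^ (K + 1) = (t ^ (3 * (K + 1))) ^ ((1 : ℝ) / 3) := by
        rw [← Real.rpow_natCast, ← Real.rpow_natCast, ← Real.rpow_mul ht0.le]
        congr 1
        push_cast
        ring
      rw [h6]
      exact Real.rpow_le_rpow (by positivity) hzr (by norm_num)
    have h3 : (1 + t) ^ K ≤ 2 ^ K * t ^ K := by
      rw [← mul_pow]
      exact pow_le_pow_left₀ (by linarith) (by linarith) K
    have h4 : t ^ (-(1 : ℝ)) ≤ t ^ (-(c / 2)) :=
      Real.rpow_le_rpow_of_exponent_le ht1 (by linarith)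
    calc BU * X * (1 + t) ^ K / (z : ℝ) ^ ((1 : ℝ) / 3)
        ≤ BU * X * (2 ^ K * t ^ K) / t ^ (K + 1) := by
          apply div_le_div₀ (by positivity) _ (by positivity) h2
          exact mul_le_mul_of_nonneg_left h3 (by positivity)
      _ = BU * 2 ^ K * X * t ^ (-(1 : ℝ)) := by
          rw [Real.rpow_neg ht0.le, Real.rpow_one, pow_add]
          field_simp
      _ ≤ BU * 2 ^ K * X * t ^ (-(c / 2)) := mul_le_mul_of_nonneg_left h4 (by positivity)
  -- the balanced part
  have hB : ∑ c ∈ (cfgs (Ty n) N X).filter (fun c => ¬ M.Unb κ z c), M.W a z c ≤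
      BB * 2 ^ m * C1 * Cε * X * t ^ (-(c / 2)) := by
    have h1 := hBB a z X (by omega) ha
    refine le_trans (Finset.sum_le_sum fun c _ => le_abs_self _) (le_trans h1 ?_)
    have h3 := hBS z hz3
    have h4 : (Model.bk κ X : ℝ) + 1 ≤ 2 * (Real.log t + 2) := bk_le κ X hκ (by omega) ht1
    have h5 : Real.log z ≤ (3 * K + 5) * Real.log t := by
      have hz0 : (0 : ℝ) < z := by exact_mod_cast (by omega : 0 < z)
      calc Real.log z ≤ Real.log (5 * t ^ (3 * (K + 1))) := Real.log_le_log hz0 hzr2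
        _ = Real.log 5 + (3 * (K + 1)) * Real.log t := by
            rw [Real.log_mul (by norm_num) (by positivity), Real.log_pow]
            push_cast
            ring
        _ ≤ (3 * K + 5) * Real.log t := by
            have h6 : Real.log 5 ≤ 2 := by
              rw [Real.log_le_iff_le_exp (by norm_num)]
              have h7 : Real.exp 2 = Real.exp 1 * Real.exp 1 := by
                rw [← Real.exp_add]
                norm_num
              rw [h7]
              nlinarith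
            nlinarith
    have hlz1 : 1 ≤ Real.log z := by
      rw [Real.le_log_iff_exp_le (by exact_mod_cast (by omega : 0 < z))]
      have h6 : (3 : ℝ) ≤ z := by exact_mod_cast hz3
      have := Real.exp_one_lt_d9
      linarith
    have h6 : Real.exp (n *
        (∑ p ∈ (Finset.range (z + 1)).filter Nat.Prime, 1 / (p : ℝ))) ≤
        C1 * (Real.log t) ^ L := by
      have h7 : (n : ℝ) *
          (∑ p ∈ (Finset.range (z + 1)).filter Nat.Prime, 1 / (p : ℝ)) ≤
          L * (Real.log (Real.log z) + 1) := by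
        have h8 : 0 ≤ Real.log (Real.log z) + 1 := by
          have := Real.log_nonneg hlz1
          linarith
        calc (n : ℝ) *
              (∑ p ∈ (Finset.range (z + 1)).filter Nat.Prime, 1 / (p : ℝ)) ≤
              n * (BS * (Real.log (Real.log z) + 1)) :=
              mul_le_mul_of_nonneg_left h3 (Nat.cast_nonneg _)
          _ = (n * BS) * (Real.log (Real.log z) + 1) := by ring
          _ ≤ L * (Real.log (Real.log z) + 1) := mul_le_mul_of_nonneg_right hL h8
      refine le_trans (Real.exp_le_exp.mpr h7) ?_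
      have h9 : Real.exp (L * (Real.log (Real.log z) + 1)) = (Real.exp 1 * Real.log z) ^ L := by
        rw [mul_add, mul_one, Real.exp_add, mul_comm, mul_comm (L : ℝ) (Real.log _),
          mul_pow, ← Real.exp_nat_mul, mul_one, Real.exp_mul,
          Real.exp_log (by linarith), Real.rpow_natCast]
      rw [h9, hC1, ← mul_pow]
      refine pow_le_pow_left₀ (by positivity) ?_ L
      calc Real.exp 1 * Real.log z ≤ Real.exp 1 * ((3 * K + 5) * Real.log t) :=
            mul_le_mul_of_nonneg_left h5 (Real.exp_pos 1).le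
        _ = Real.exp 1 * (3 * K + 5) * Real.log t := by ring
    have hlogt0 : 0 ≤ Real.log t := by linarith
    calc BB * (X / t ^ c) * ((Model.bk κ X : ℝ) + 1) ^ m *
          Real.exp (n * (∑ p ∈ (Finset.range (z + 1)).filter Nat.Prime, 1 / (p : ℝ)))
        ≤ BB * (X / t ^ c) * (2 * (Real.log t + 2)) ^ m * (C1 * (Real.log t) ^ L) := by
          refine mul_le_mul ?_ h6 (Real.exp_pos _).le (by positivity)
          refine mul_le_mul_of_nonneg_left ?_ (by positivity)
          exact pow_le_pow_left₀ (by positivity) h4 m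
      _ ≤ BB * (X / t ^ c) * (2 * (Real.log t + 2)) ^ m * (C1 * (Real.log t + 2) ^ L) := by
          have : (Real.log t) ^ L ≤ (Real.log t + 2) ^ L :=
            pow_le_pow_left₀ hlogt0 (by linarith) L
          gcongr
      _ = BB * 2 ^ m * C1 * X * ((Real.log t + 2) ^ (m + L) * t ^ (-c)) := by
          rw [pow_add, mul_pow, Real.rpow_neg ht0.le]
          field_simp
      _ ≤ BB * 2 ^ m * C1 * X * ((Cε * t ^ (c / 2)) * t ^ (-c)) := by
          refine mul_le_mul_of_nonneg_left ?_ (by positivity)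
          exact mul_le_mul_of_nonneg_right (hCε t ht1) (by positivity)
      _ = BB * 2 ^ m * C1 * Cε * X * t ^ (-(c / 2)) := by
          rw [mul_assoc Cε, ← Real.rpow_add ht0, show c / 2 + -c = -(c / 2) by ring]
          ring
  calc _ ≤ BU * 2 ^ K * X * t ^ (-(c / 2)) +
        BB * 2 ^ m * C1 * Cε * X * t ^ (-(c / 2)) := add_le_add hU hB
    _ = _ := by ring

end COUNT2_

open COUNT2_

open Classical in
theorem p_COUNT2 (h1 : T_RED2) (h2 : T_EXP2) (h3 : T_UNB2) (h4 : T_BAL2) (h5 : T_SMALL) :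
    T_COUNT2 := by
  intro m n κ M N h B₀ a hκ hN0 hB₀ hM ha hBil hW
  obtain ⟨c, hc0, B, hB0, hB⟩ := per h3 h4 h5 m n κ M N B₀ hκ hB₀ hM hBil hW
  obtain ⟨X0, hX0⟩ : ∃ X0 : ℕ, 16 ≤ X0 ∧ ∀ X : ℕ, X0 ≤ X → Real.exp 1 ≤ Real.log X := by
    have h := (Real.tendsto_log_atTop.comp tendsto_natCast_atTop_atTop).eventually_ge_atTop
      (Real.exp 1)
    obtain ⟨a, ha⟩ := Filter.eventually_atTop.mp h
    exact ⟨max a 16, le_max_right _ _, fun X hX => ha X ((le_max_left _ _).trans hX)⟩
  set B1 : ℝ := N * (h * B) with hB1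
  have hB10 : 0 ≤ B1 := by positivity
  refine ⟨c, hc0, B1 + 2 * (Real.log X0) ^ c, fun X hX => ?_⟩
  have hXr : (0 : ℝ) < X := by exact_mod_cast (by omega : 0 < X)
  have hlog : 0 < Real.log X := Real.log_pos (by exact_mod_cast (by omega : 1 < X))
  rcases lt_or_ge X X0 with hlt | hge
  · -- small X
    have h6 : (((Finset.range (X + 1)).filter
        (fun k => Squarefree k ∧ ∃ η, M.Bad N (a η) k)).card : ℝ) ≤ 2 * X := by
      have : ((Finset.range (X + 1)).filter
          (fun k => Squarefree k ∧ ∃ η, M.Bad N (a η) k)).card ≤ 2 * X := by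
        refine le_trans (Finset.card_filter_le _ _) ?_
        rw [Finset.card_range]
        omega
      exact_mod_cast this
    refine le_trans h6 ?_
    rw [le_div_iff₀ (by positivity)]
    have h7 : (Real.log X) ^ c ≤ (Real.log X0) ^ c :=
      Real.rpow_le_rpow hlog.le (Real.log_le_log hXr (by exact_mod_cast hlt.le)) hc0.le
    nlinarith [mul_nonneg hB10 hXr.le, mul_le_mul_of_nonneg_left h7 hXr.le]
  · -- large X
    have hlX := hX0.2 X hge
    have h16 : 16 ≤ X := hX0.1.trans hge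
    have h7 : ∀ η : Fin h, (((Finset.range (X + 1)).filter
        (fun k => Squarefree k ∧ (∀ p ∈ k.primeFactors, ¬ p ∣ N) ∧ M.Bad N (a η) k)).card : ℝ) ≤
        B * X * (Real.log X) ^ (-c) := by
      intro η
      have h6 := h2 m n M (a η) N (⌈(Real.log X) ^ (3 * (Fintype.card (Ty n) + 1))⌉₊ + 3) X hM
        (ha η)
      exact h6.trans (hB X h16 hlX (a η) (ha η))
    have h8 := h1 m n M h a N X hN0
    have h9 : (((Finset.range (X + 1)).filter
        (fun k => Squarefree k ∧ ∃ η, M.Bad N (a η) k)).card : ℝ) ≤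
        N * ∑ η, (((Finset.range (X + 1)).filter
          (fun k => Squarefree k ∧ (∀ p ∈ k.primeFactors, ¬ p ∣ N) ∧
            M.Bad N (a η) k)).card : ℝ) := by
      exact_mod_cast h8
    have h10 : ∑ η : Fin h, (((Finset.range (X + 1)).filter
          (fun k => Squarefree k ∧ (∀ p ∈ k.primeFactors, ¬ p ∣ N) ∧
            M.Bad N (a η) k)).card : ℝ) ≤ h * (B * X * (Real.log X) ^ (-c)) := by
      refine (Finset.sum_le_card_nsmul _ _ _ fun η _ => h7 η).trans ?_
      rw [nsmul_eq_mul, Finset.card_univ, Fintype.card_fin]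
    calc (((Finset.range (X + 1)).filter
          (fun k => Squarefree k ∧ ∃ η, M.Bad N (a η) k)).card : ℝ)
        ≤ N * (h * (B * X * (Real.log X) ^ (-c))) :=
          h9.trans (mul_le_mul_of_nonneg_left h10 (Nat.cast_nonneg _))
      _ = B1 * X / (Real.log X) ^ c := by
          rw [Real.rpow_neg hlog.le, hB1]
          field_simp
      _ ≤ (B1 + 2 * (Real.log X0) ^ c) * X / (Real.log X) ^ c := by
          have : 0 ≤ (Real.log X0) ^ c := by
            refine Real.rpow_nonneg (Real.log_nonneg ?_) _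
            exact_mod_cast (by omega : 1 ≤ X0)
          gcongr
          linarith

end Pool.Agent.QTx
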