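import Pool.Agent.QTx.Targets

/-! # ALG2: the combinatorial condition (assembly of parts A and B) -/

open Polynomial NumberField
open Pool.Agent.QTw (TwistSelNonempty)

namespace Pool.Agent.QTx

namespace ALG2_

theorem natDegree_eq {n : ℕ} {g : Fin (n + 1) → ℤ[X]} {c : ℚ} {f : ℤ[X]} (hc : c ≠ 0)
    (hg : GoodFactors2 g)
    (hf : f.map (Int.castRingHom ℚ) = C c * ∏ i, (g i).map (Int.castRingHom ℚ)) :
    f.natDegree = ∑ i, (g i).natDegree := by
  have hinj : Function.Injective (Int.castRingHom ℚ) := Int.cast_injective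
  have h1 : (f.map (Int.castRingHom ℚ)).natDegree = f.natDegree :=
    natDegree_map_eq_of_injective hinj f
  rw [← h1, hf, natDegree_C_mul hc, natDegree_prod]
  · exact Finset.sum_congr rfl fun i _ => natDegree_map_eq_of_injective hinj _
  · intro i _
    exact (hg.irr i).ne_zero

theorem sqf {n : ℕ} {g : Fin (n + 1) → ℤ[X]} {c : ℚ} {f : ℤ[X]} (hc : c ≠ 0)
    (hg : GoodFactors2 g)
    (hf : f.map (Int.castRingHom ℚ) = C c * ∏ i, (g i).map (Int.castRingHom ℚ)) :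
    Squarefree (f.map (Int.castRingHom ℚ)) := by
  have h1 : Squarefree (∏ i, (g i).map (Int.castRingHom ℚ)) := by
    apply Finset.squarefree_prod_of_pairwise_isCoprime
    · intro i _ j _ hij
      exact (hg.coprime i j hij).isRelPrime
    · intro i _
      exact (hg.irr i).squarefree
  rw [hf]
  refine h1.squarefree_of_dvd ⟨C c⁻¹, ?_⟩
  have h3 : (C c : ℚ[X]) * C c⁻¹ = 1 := by
    rw [← C_mul, mul_inv_cancel₀ hc, C_1]
  calc ∏ i, (g i).map (Int.castRingHom ℚ) = (C c * C c⁻¹) * ∏ i, (g i).map (Int.castRingHom ℚ) := by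
        rw [h3, one_mul]
    _ = _ := by ring

/-- the embedding -/
noncomputable def JJ (M : Type) [Field M] [NumberField M] (p : ℕ) [Fact p.Prime] :
    M →+* PadicAlgCl p :=
  (IsAlgClosed.lift : M →ₐ[ℚ] PadicAlgCl p).toRingHom

open Classical in
/-- the root of `f` belonging to the root `ρ` modulo `p` -/
noncomputable def rt {ι : Type} (g : ι → ℤ[X]) (f : ℤ[X]) (M : Type) [Field M] [NumberField M]
    (p : ℕ) [Fact p.Prime] (ρ : ι × ℕ) : M :=
  if h : ∃ a : M, aeval a f = 0 ∧ aeval (JJ M p a) (g ρ.1) = 0 ∧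
    ‖JJ M p a - (ρ.2 : PadicAlgCl p)‖ < 1 then h.choose else 0

theorem rt_spec {n : ℕ} {g : Fin (n + 1) → ℤ[X]} {f : ℤ[X]} {M : Type} [Field M] [NumberField M]
    {N p : ℕ} [Fact p.Prime] (hf : f ≠ 0) (hs : (f.map (algebraMap ℤ M)).Splits)
    (hG : GoodAt g f M p) {ρ : Fin (n + 1) × ℕ} (hρ : ρ ∈ Rts g N p) :
    aeval (rt g f M p ρ) f = 0 ∧ aeval (JJ M p (rt g f M p ρ)) (g ρ.1) = 0 ∧
      ‖JJ M p (rt g f M p ρ) - (ρ.2 : PadicAlgCl p)‖ < 1 := by
  have h : ∃ a : M, aeval a f = 0 ∧ aeval (JJ M p a) (g ρ.1) = 0 ∧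
      ‖JJ M p a - (ρ.2 : PadicAlgCl p)‖ < 1 := by
    unfold Rts at hρ
    split_ifs at hρ with h0
    · rw [Finset.mem_filter] at hρ
      obtain ⟨t, ht1, ht2⟩ := hG.hens ρ.1 (ρ.2 : ℤ) hρ.2
      have h1 : aeval (algebraMap ℚ_[p] (PadicAlgCl p) t) (g ρ.1) = 0 := by
        rw [aeval_algebraMap_apply, ht1, map_zero]
      have h2 : aeval (algebraMap ℚ_[p] (PadicAlgCl p) t) f = 0 := (hG.fac _).2 ⟨_, h1⟩
      have h3 : ((f.map (algebraMap ℤ M)).map (JJ M p)).IsRoot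
          (algebraMap ℚ_[p] (PadicAlgCl p) t) := by
        rw [IsRoot, Polynomial.map_map, eval_map, ← h2, aeval_def]
        congr 1
        exact RingHom.ext_int _ _
      have h4 : f.map (algebraMap ℤ M) ≠ 0 := by
        rw [Ne, Polynomial.map_eq_zero_iff]
        · exact hf
        · exact (algebraMap ℤ M).injective_int
      obtain ⟨a, ha⟩ := hs.mem_range_of_isRoot h4 h3
      refine ⟨a, ?_, ?_, ?_⟩
      · apply (JJ M p).injective
        rw [map_zero, ← h2, ← ha]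
        simp only [aeval_def, hom_eval₂]
        congr 1
        exact RingHom.ext_int _ _
      · rw [ha, h1]
      · rw [ha]
        have h5 : algebraMap ℚ_[p] (PadicAlgCl p) t - (ρ.2 : PadicAlgCl p) =
            algebraMap ℚ_[p] (PadicAlgCl p) (t - ((ρ.2 : ℤ) : ℚ_[p])) := by
          rw [map_sub]; simp
        rw [h5, norm_algebraMap']
        exact ht2
    · simp at hρ
  unfold rt
  rw [dif_pos h]
  exact h.choose_spec

/-- the condition defining the sign -/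
def Sq {ι : Type} (g : ι → ℤ[X]) (f : ℤ[X]) (M : Type) [Field M] [NumberField M]
    (P : ι → ℕ → ℕ → ℤ[X]) (hv : M → M → M) (e : ℤ) (p : ℕ) (ρ ρ' : ι × ℕ) : Prop :=
  ∃ _ : Fact p.Prime, ∃ r : ℚ_[p], algebraMap ℚ_[p] (PadicAlgCl p) (r ^ 2) =
    JJ M p (hv (rt g f M p ρ) (rt g f M p ρ') * pv g P p ρ (rt g f M p ρ) *
      pv g P p ρ (rt g f M p ρ') *
      ((e * p * (derivative f).eval (ρ.2 : ℤ) * (ρ.2 - ρ'.2) : ℤ) : M))

/-- the part of `d` made of the primes dividing `N` -/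
theorem cofactor (N : ℕ) (hN : 0 < N) (d : ℤ) (hd : Squarefree d) :
    ∃ e ∈ Finset.Icc (-(N : ℤ)) N,
      d = e * ∏ q ∈ d.natAbs.primeFactors.filter (fun q => ¬ q ∣ N), (q : ℤ) := by
  have h1 : Squarefree d.natAbs := Int.squarefree_natAbs.mpr hd
  have h2 := Nat.prod_primeFactors_of_squarefree h1
  set E : ℕ := ∏ q ∈ d.natAbs.primeFactors.filter (fun q => q ∣ N), q with hE
  have h3 : E ∣ N := by
    apply Finset.prod_primes_dvd
    · intro q hq
      rw [Finset.mem_filter] at hq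
      exact (Nat.prime_of_mem_primeFactors hq.1).prime
    · intro q hq
      rw [Finset.mem_filter] at hq
      exact hq.2
  have h4 : E ≤ N := Nat.le_of_dvd hN h3
  have h5 : (E : ℤ) * ∏ q ∈ d.natAbs.primeFactors.filter (fun q => ¬ q ∣ N), (q : ℤ) =
      (d.natAbs : ℤ) := by
    conv_rhs => rw [← h2]
    rw [← Finset.prod_filter_mul_prod_filter_not d.natAbs.primeFactors (fun q => q ∣ N)]
    push_cast
    rw [hE]
    push_cast
    rfl
  refine ⟨d.sign * E, ?_, ?_⟩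
  · rw [Finset.mem_Icc]
    have h6 : |d.sign * E| ≤ N := by
      rw [abs_mul]
      have h7 : |d.sign| ≤ 1 := by
        rcases Int.sign_trichotomy d with h | h | h <;> rw [h] <;> norm_num
      have h8 : |(E : ℤ)| ≤ N := by
        rw [Nat.abs_cast]; exact_mod_cast h4
      calc |d.sign| * |(E : ℤ)| ≤ 1 * N := mul_le_mul h7 h8 (abs_nonneg _) zero_le_one
        _ = N := one_mul _
    exact abs_le.mp h6
  · rw [mul_assoc, h5]
    exact (Int.sign_mul_natAbs d).symm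

end ALG2_

open ALG2_ in
open Classical in
theorem p_ALG2 (h1 : T_GEOM2) (h2 : T_GOODQ) (h3 : T_LOCV1) (h4 : T_LOCV2) (h5 : T_GLOB)
    (h6 : T_LOCJ) : T_ALG2 := by
  intro n g c f hg hc hfg heven
  have hinj : Function.Injective (Int.castRingHom ℚ) := Int.cast_injective
  have hdeg : 0 < f.natDegree := by
    rw [natDegree_eq hc hg hfg]
    have := Finset.single_le_sum (f := fun i => (g i).natDegree) (fun i _ => Nat.zero_le _)
      (Finset.mem_univ 0)
    have h7 := hg.deg 0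
    change (g 0).natDegree ≤ ∑ i, (g i).natDegree at this
    omega
  have hf0 : f ≠ 0 := by
    rintro rfl
    simp at hdeg
  have hsf := sqf hc hg hfg
  set fQ : ℚ[X] := f.map (Int.castRingHom ℚ) with hfQ
  let M : Type := fQ.SplittingField
  have hM : NumberField M :=
    { to_charZero := inferInstance, to_finiteDimensional := inferInstance }
  have hsp : (f.map (algebraMap ℤ M)).Splits := by
    have h7 : (fQ.map (algebraMap ℚ M)).Splits := SplittingField.splits fQ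
    have h8 : fQ.map (algebraMap ℚ M) = f.map (algebraMap ℤ M) := by
      have h9 : (f.map (Int.castRingHom ℚ)).map (algebraMap ℚ M) = f.map (algebraMap ℤ M) := by
        rw [Polynomial.map_map]
        congr 1
      exact h9
    rw [← h8]
    exact h7
  obtain ⟨N₀, hN₀, hgood⟩ := h2 n g c f hg hc hfg M
  refine ⟨N₀, hN₀, fun N P hN hdvd hPi => ?_⟩
  have hG : ∀ (q : ℕ) [Fact q.Prime], ¬ q ∣ N → GoodAt g f M q :=
    fun q _ hq => hgood q fun h => hq (h.trans hdvd)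
  obtain ⟨h, hv, hhv, hglob⟩ := h5 n g f M N P hdeg hN hPi hG
  let IX : Type := Fin h × {e : ℤ // e ∈ Finset.Icc (-(N : ℤ)) N}
  let en : Fin (Fintype.card IX) ≃ IX := (Fintype.equivFin IX).symm
  refine ⟨Fintype.card IX, fun η p ρ ρ' =>
    if Sq g f M P (hv (en η).1) (en η).2 p ρ ρ' then 1 else -1, ?_, ?_⟩
  · intro η p ρ ρ'
    dsimp only
    split_ifs
    · exact Or.inl rfl
    · exact Or.inr rfl
  intro d hd hsel
  have hd0 : d ≠ 0 := hd.ne_zero
  obtain ⟨δ, hδ, hloc⟩ := h1 f d hdeg heven hsf hd0 hsel M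
  -- the roots
  have hroot : ∀ q : ℕ, ∃ r : Fin (n + 1) × ℕ, ∀ [Fact q.Prime], ¬ q ∣ N → (q : ℤ) ∣ d →
      r ∈ Rts g N q ∧
      (∀ (j : M →+* PadicAlgCl q) (a b : M), aeval a f = 0 → aeval b f = 0 → a ≠ b →
        ∃ k : ℤ, ‖j (δ a b)‖ * wq q r.2 (j a) * wq q r.2 (j b) = (q : ℝ) ^ (2 * k)) ∧
      ∀ r' ∈ Rts g N q, r' ≠ r →
        ∀ (j : M →+* PadicAlgCl q) (a b : M), aeval a f = 0 → aeval b f = 0 →
        ‖j a - (r.2 : PadicAlgCl q)‖ < 1 → ‖j b - (r'.2 : PadicAlgCl q)‖ < 1 →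
        ∃ D : ℚ_[q], algebraMap ℚ_[q] (PadicAlgCl q) D = j (δ a b) ∧
          IsSquare (D * ((d * (derivative f).eval (r.2 : ℤ) * (r.2 - r'.2) : ℤ) : ℚ_[q])) := by
    intro q
    by_cases hq : ∃ _ : Fact q.Prime, ¬ q ∣ N ∧ (q : ℤ) ∣ d
    · obtain ⟨hq1, hq2, hq3⟩ := hq
      obtain ⟨i, s, hs1, hs2, hs3, hs4⟩ := h4 n g f M d δ q hdeg heven hsp (hG q hq2) hδ
        (hloc q) hd hq3
      refine ⟨(i, s), fun {_} _ _ => ⟨?_, hs3, ?_⟩⟩
      · unfold Rts
        rw [if_pos ⟨hq1.out, hq2⟩]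
        simp only [Finset.mem_filter, Finset.mem_product, Finset.mem_univ, Finset.mem_range,
          true_and]
        exact ⟨hs1, hs2⟩
      · rintro ⟨i', s'⟩ hr' hne j a b ha hb hja hjb
        unfold Rts at hr'
        rw [if_pos ⟨hq1.out, hq2⟩] at hr'
        simp only [Finset.mem_filter, Finset.mem_product, Finset.mem_univ, Finset.mem_range,
          true_and] at hr'
        exact hs4 i' s' hr'.1 hr'.2 hne j a b ha hb hja hjb
    · refine ⟨(0, 0), fun {hq1} hq2 hq3 => absurd ⟨hq1, hq2, hq3⟩ hq⟩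
  choose ρ hρ using hroot
  obtain ⟨η, hη⟩ := hglob d δ ρ hd hδ
    (fun q _ hq hqd j a b ha hb hab => h3 n g f M d δ q hdeg heven hsp (hG q hq) hδ (hloc q) hd
      hqd j a b ha hb hab)
    (fun q _ hq hqd => ⟨(hρ q hq hqd).1, (hρ q hq hqd).2.1⟩)
  obtain ⟨e, he, hde⟩ := cofactor N hN d hd
  refine ⟨en.symm (η, ⟨e, he⟩), ρ, ?_⟩
  intro p hp hpN
  have hpp : Fact p.Prime := ⟨Nat.prime_of_mem_primeFactors hp⟩
  have hpd : (p : ℤ) ∣ d := Int.natCast_dvd.mpr (Nat.dvd_of_mem_primeFactors hp)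
  have hgp := hG p hpN
  refine ⟨(hρ p hpN hpd).1, fun ρ' hρ' hne => ?_⟩
  obtain ⟨ha1, ha2, ha3⟩ := rt_spec hf0 hsp hgp (hρ p hpN hpd).1
  obtain ⟨hb1, hb2, hb3⟩ := rt_spec hf0 hsp hgp hρ'
  set a := rt g f M p (ρ p) with ha
  set b := rt g f M p ρ' with hb
  have hab : a ≠ b := by
    intro hab
    rw [← hab] at hb2 hb3
    have hi : (ρ p).1 = ρ'.1 := hgp.coprime _ _ _ ha2 hb2
    apply hne
    have h7 : ‖(((ρ p).2 : PadicAlgCl p) - (ρ'.2 : PadicAlgCl p))‖ < 1 := by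
      have h8 : ((ρ p).2 : PadicAlgCl p) - (ρ'.2 : PadicAlgCl p) =
          (JJ M p a - (ρ'.2 : PadicAlgCl p)) + -(JJ M p a - ((ρ p).2 : PadicAlgCl p)) := by ring
      rw [h8]
      refine lt_of_le_of_lt (IsUltrametricDist.norm_add_le_max _ _) (max_lt hb3 ?_)
      rw [norm_neg]
      exact ha3
    have h9 : ‖(((((ρ p).2 : ℤ) - (ρ'.2 : ℤ) : ℤ)) : ℚ_[p])‖ < 1 := by
      rw [← PadicAlgCl.norm_extends p]
      have h8 : algebraMap ℚ_[p] (PadicAlgCl p) (((((ρ p).2 : ℤ) - (ρ'.2 : ℤ) : ℤ)) : ℚ_[p]) =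
          ((ρ p).2 : PadicAlgCl p) - (ρ'.2 : PadicAlgCl p) := by
        push_cast
        simp
      rw [h8]
      exact h7
    rw [Padic.norm_intCast_lt_one_iff] at h9
    have hlt : (ρ p).2 < p := by
      have h10 := (hρ p hpN hpd).1
      unfold Rts at h10
      rw [if_pos ⟨hpp.out, hpN⟩] at h10
      simp only [Finset.mem_filter, Finset.mem_product, Finset.mem_univ, Finset.mem_range,
        true_and] at h10
      exact h10.1
    have hlt' : ρ'.2 < p := by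
      have h10 := hρ'
      unfold Rts at h10
      rw [if_pos ⟨hpp.out, hpN⟩] at h10
      simp only [Finset.mem_filter, Finset.mem_product, Finset.mem_univ, Finset.mem_range,
        true_and] at h10
      exact h10.1
    have h11 : (((ρ p).2 : ℤ) - (ρ'.2 : ℤ)) = 0 := by
      apply Int.eq_zero_of_abs_lt_dvd h9
      rw [abs_lt]
      constructor <;> omega
    exact Prod.ext hi.symm (by omega)
  obtain ⟨D, hD1, hD2⟩ := (hρ p hpN hpd).2.2 ρ' hρ' hne (JJ M p) a b ha1 hb1 ha3 hb3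
  obtain ⟨κ, hκ1, hκ2, hκ3⟩ := hη a b ha1 hb1 hab
  have hJ := h6 n g f M N P p d e ρ ρ' (JJ M p) a b (δ a b) (hv η a b) κ D hdeg hN hPi hgp hpN
    hd hpd hde (fun q hq hqN => (@hρ q ⟨Nat.prime_of_mem_primeFactors hq⟩ hqN
      (Int.natCast_dvd.mpr (Nat.dvd_of_mem_primeFactors hq))).1) hρ' hne ha1 hb1 ha3 hb3
    (hδ a b ha1 hb1 hab).1 (hhv η a b).1 hκ2 (hhv η a b).2 hκ1 hκ3 hD1 hD2
  have hkey : Sq g f M P (hv η) e p (ρ p) ρ' ↔
      ∏ q ∈ d.natAbs.primeFactors.filter (fun q => ¬ q ∣ N ∧ q ≠ p),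
        sg P p (ρ p) ρ' q (ρ q) = 1 := by
    rw [hJ.2]
    constructor
    · rintro ⟨_, r, hr⟩
      exact ⟨r, hr⟩
    · rintro ⟨r, hr⟩
      exact ⟨hpp, r, hr⟩
  have hen : en (en.symm (η, ⟨e, he⟩)) = (η, ⟨e, he⟩) := en.apply_symm_apply _
  beta_reduce
  rw [hen]
  rcases hJ.1 with hw | hw
  · rw [if_pos (hkey.2 hw), hw, one_mul]
  · rw [if_neg (fun h => by rw [hkey, hw] at h; norm_num at h), hw]
    norm_num

end Pool.Agent.QTx
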