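import Pool.Agent.QTx.Targets

set_option autoImplicit false

/-!
# T_DENS: `K` is dense in its completion
-/

open NumberField

namespace Pool.Agent.QTx

namespace DENS_

theorem mem_span (K : Type) [Field K] [NumberField K] (l : ℕ) [Fact l.Prime]
    (j : K →+* PadicAlgCl l) (c : PadicAlgCl l)
    (hc : c ∈ IntermediateField.adjoin ℚ_[l] (Set.range j)) :
    c ∈ Submodule.span ℚ_[l] (Set.range j) := by
  have h1 : (IntermediateField.adjoin ℚ_[l] (Set.range j)).toSubalgebra =
      Algebra.adjoin ℚ_[l] (Set.range j) :=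
    IntermediateField.adjoin_toSubalgebra_of_isAlgebraic
      fun x _ => Algebra.IsAlgebraic.isAlgebraic x
  have h2 : c ∈ Algebra.adjoin ℚ_[l] (Set.range j) := by
    rw [← h1]
    exact hc
  have h3 : (Submonoid.closure (Set.range j) : Set (PadicAlgCl l)) = Set.range j := by
    have h4 : (Set.range j : Set (PadicAlgCl l)) = (MonoidHom.mrange (j : K →* PadicAlgCl l) : Set (PadicAlgCl l)) := by
      ext x
      simp
    rw [h4, Submonoid.closure_eq]
  have h5 := Algebra.adjoin_eq_span ℚ_[l] (Set.range j)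
  rw [h3] at h5
  rw [← h5]
  exact h2

theorem approx (K : Type) [Field K] [NumberField K] (l : ℕ) [Fact l.Prime]
    (j : K →+* PadicAlgCl l) (c : PadicAlgCl l)
    (hc : c ∈ Submodule.span ℚ_[l] (Set.range j)) :
    ∀ ε : ℝ, 0 < ε → ∃ z : K, ‖c - j z‖ < ε := by
  induction hc using Submodule.span_induction with
  | mem x hx =>
    intro ε hε
    obtain ⟨z, rfl⟩ := hx
    exact ⟨z, by simpa using hε⟩
  | zero =>
    intro ε hε
    exact ⟨0, by simpa using hε⟩
  | add x y _ _ hx hy =>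
    intro ε hε
    obtain ⟨z, hz⟩ := hx (ε / 2) (by positivity)
    obtain ⟨w, hw⟩ := hy (ε / 2) (by positivity)
    refine ⟨z + w, ?_⟩
    have h1 : x + y - j (z + w) = (x - j z) + (y - j w) := by
      rw [map_add]; ring
    rw [h1]
    calc ‖(x - j z) + (y - j w)‖ ≤ ‖x - j z‖ + ‖y - j w‖ := norm_add_le _ _
      _ < ε := by linarith
  | smul a x _ hx =>
    intro ε hε
    obtain ⟨z, hz⟩ := hx (ε / (2 * (‖a‖ + 1))) (by positivity)
    obtain ⟨r, hr⟩ := Padic.rat_dense l a (ε := ε / (2 * (‖j z‖ + 1))) (by positivity)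
    refine ⟨(r : K) * z, ?_⟩
    have h1 : a • x - j ((r : K) * z) = a • (x - j z) + (a - (r : ℚ_[l])) • j z := by
      rw [map_mul, map_ratCast, smul_sub, sub_smul]
      have h2 : ((r : ℚ_[l])) • j z = (r : PadicAlgCl l) * j z := by
        rw [Algebra.smul_def, map_ratCast]
      rw [h2]
      ring
    rw [h1]
    have h3 : ‖a • (x - j z)‖ < ε / 2 := by
      rw [norm_smul]
      have h4 : ‖a‖ * ‖x - j z‖ ≤ (‖a‖ + 1) * ‖x - j z‖ := by
        have := norm_nonneg (x - j z)
        nlinarith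
      have h5 : (‖a‖ + 1) * ‖x - j z‖ < ε / 2 := by
        rw [lt_div_iff₀ (by positivity)] at hz
        rw [lt_div_iff₀ (by norm_num)]
        linarith
      linarith
    have h6 : ‖(a - (r : ℚ_[l])) • j z‖ ≤ ε / 2 := by
      rw [norm_smul]
      have h7 : ‖a - (r : ℚ_[l])‖ * ‖j z‖ ≤ ‖a - (r : ℚ_[l])‖ * (‖j z‖ + 1) := by
        have := norm_nonneg (a - (r : ℚ_[l]))
        nlinarith
      have h8 : ‖a - (r : ℚ_[l])‖ * (‖j z‖ + 1) < ε / 2 := by
        rw [lt_div_iff₀ (by positivity)] at hr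
        rw [lt_div_iff₀ (by norm_num)]
        linarith
      linarith
    calc ‖a • (x - j z) + (a - (r : ℚ_[l])) • j z‖ ≤ _ := norm_add_le _ _
      _ < ε := by linarith

end DENS_

theorem p_DENS : T_DENS := by
  intro K _ _ l _ j c hc hc0
  obtain ⟨z, hz⟩ := DENS_.approx K l j c (DENS_.mem_span K l j c hc) ‖c‖ (norm_pos_iff.2 hc0)
  refine ⟨z, ?_⟩
  have h1 : ‖c - (c - j z)‖ = ‖c‖ := by
    have h2 := IsUltrametricDist.norm_add_eq_max_of_norm_ne_norm (x := c) (y := -(c - j z))
      (by rw [norm_neg]; exact hz.ne')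
    rw [norm_neg, max_eq_left hz.le] at h2
    rw [sub_eq_add_neg]
    exact h2
  rw [sub_sub_cancel] at h1
  exact h1

end Pool.Agent.QTx
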