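import Pool.Agent.QTx.Targets

set_option autoImplicit false
set_option linter.unusedSectionVars false

/-!
# EMBQ: the prime ideal of an embedding into `PadicAlgCl l`
-/

open Polynomial NumberField

namespace Pool.Agent.QTx

namespace EMBQ_

variable {K : Type} [Field K] [NumberField K] {l : ℕ} [Fact l.Prime]

theorem norm_le_one (j : K →+* PadicAlgCl l) (z : 𝓞 K) : ‖j (z : K)‖ ≤ 1 := by
  have h1 : IsIntegral ℤ (j (z : K)) := (RingOfIntegers.isIntegral_coe z).map j.toIntAlgHom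
  have h2 : IsIntegral (Valued.v (R := PadicAlgCl l)).integer (j (z : K)) := h1.tower_top
  have h3 := (Valuation.integer.integers (Valued.v (R := PadicAlgCl l))).mem_of_integral h2
  have h4 : Valued.v (j (z : K)) ≤ 1 := h3
  rw [← PadicAlgCl.valuation_coe]
  exact_mod_cast h4

/-- the restriction to the integers -/
noncomputable def jj (j : K →+* PadicAlgCl l) : 𝓞 K →+* PadicAlgCl l :=
  j.comp (algebraMap (𝓞 K) K)

theorem jj_apply (j : K →+* PadicAlgCl l) (z : 𝓞 K) : j (z : K) = jj j z := rfl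

theorem norm_l (j : K →+* PadicAlgCl l) : ‖j (((l : 𝓞 K)) : K)‖ < 1 := by
  rw [jj_apply, map_natCast, ← PadicAlgCl.valuation_coe, PadicAlgCl.valuation_p]
  have h1 : (1 : ℝ) < l := by exact_mod_cast (Fact.out : l.Prime).one_lt
  push_cast
  rw [div_lt_one (by linarith)]
  exact h1

/-- the prime ideal of the embedding -/
noncomputable def PJ (j : K →+* PadicAlgCl l) : Ideal (𝓞 K) where
  carrier := {z | ‖jj j z‖ < 1}
  add_mem' := by
    intro a b ha hb
    have ha' : ‖jj j a‖ < 1 := ha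
    have hb' : ‖jj j b‖ < 1 := hb
    show ‖jj j (a + b)‖ < 1
    rw [map_add]
    exact lt_of_le_of_lt (PadicAlgCl.isNonarchimedean l _ _) (max_lt ha' hb')
  zero_mem' := by
    show ‖jj j 0‖ < 1
    rw [map_zero, norm_zero]
    exact one_pos
  smul_mem' := by
    intro a b hb
    have hb' : ‖jj j b‖ < 1 := hb
    show ‖jj j (a * b)‖ < 1
    rw [map_mul, norm_mul]
    exact mul_lt_one_of_nonneg_of_lt_one_right (norm_le_one j a) (norm_nonneg _) hb'

theorem mem_PJ (j : K →+* PadicAlgCl l) (z : 𝓞 K) : z ∈ PJ j ↔ ‖jj j z‖ < 1 := Iff.rfl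

theorem prime_PJ (j : K →+* PadicAlgCl l) : (PJ j).IsPrime := by
  refine ⟨?_, ?_⟩
  · rw [Ideal.ne_top_iff_one, mem_PJ, map_one, norm_one]
    exact lt_irrefl 1
  · intro a b hab
    rw [mem_PJ, map_mul, norm_mul] at hab
    by_contra hcon
    rw [not_or, mem_PJ, mem_PJ, not_lt, not_lt] at hcon
    have h1 : (1 : ℝ) * 1 ≤ ‖jj j a‖ * ‖jj j b‖ :=
      mul_le_mul hcon.1 hcon.2 zero_le_one (norm_nonneg _)
    linarith

end EMBQ_

open EMBQ_ in
/-- EMBQ -/
theorem p_EMBQ : T_EMBQ := by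
  intro K _ _ l _ j
  refine ⟨norm_le_one j, PJ j, ?_, norm_l j, fun z => mem_PJ j z⟩
  have hp := prime_PJ j
  refine hp.isMaximal ?_
  intro h
  have h1 : (l : 𝓞 K) ∈ PJ j := norm_l j
  rw [h, Ideal.mem_bot] at h1
  exact (Fact.out : l.Prime).ne_zero (by exact_mod_cast h1)

end Pool.Agent.QTx
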