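import Pool.Agent.QTx.Targets

/-!
EMBV: the absolute value of an embedding in terms of its prime ideal.
-/

open Polynomial NumberField

namespace Pool.Agent.QTx

namespace EMBV_

/-- algebraic integers have norm at most one -/
theorem norm_le_one_of_isIntegral {l : ℕ} [Fact l.Prime] (x : PadicAlgCl l)
    (hx : IsIntegral ℤ x) : ‖x‖ ≤ 1 := by
  obtain ⟨p, hp, hpx⟩ := hx
  by_contra hc
  push Not at hc
  have h1 : x ^ p.natDegree = -∑ i ∈ Finset.range p.natDegree,
      ((p.coeff i : ℤ) : PadicAlgCl l) * x ^ i := by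
    have h2 : eval₂ (algebraMap ℤ (PadicAlgCl l)) x p = 0 := hpx
    rw [eval₂_eq_sum_range, Finset.sum_range_succ, hp.coeff_natDegree, map_one, one_mul] at h2
    exact eq_neg_of_add_eq_zero_right h2
  have hn : 0 < p.natDegree := by
    rw [Nat.pos_iff_ne_zero]
    intro h0
    rw [h0] at h1
    simp at h1
  have h2 : ‖x ^ p.natDegree‖ ≤ ‖x‖ ^ (p.natDegree - 1) := by
    rw [h1, norm_neg]
    refine IsUltrametricDist.norm_sum_le_of_forall_le_of_nonneg (by positivity) fun i hi => ?_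
    rw [norm_mul, norm_pow]
    calc ‖((p.coeff i : ℤ) : PadicAlgCl l)‖ * ‖x‖ ^ i ≤ 1 * ‖x‖ ^ i :=
          mul_le_mul_of_nonneg_right (IsUltrametricDist.norm_intCast_le_one _ _) (by positivity)
      _ ≤ ‖x‖ ^ (p.natDegree - 1) := by
          rw [one_mul]
          exact pow_le_pow_right₀ hc.le (by have := Finset.mem_range.1 hi; omega)
  rw [norm_pow] at h2
  have h3 : ‖x‖ ^ (p.natDegree - 1) < ‖x‖ ^ p.natDegree := pow_lt_pow_right₀ hc (by omega)
  linarith

end EMBV_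

theorem p_EMBV : T_EMBV := by
  intro K _ _ l _ P j hl hP
  have hle : ∀ z : 𝓞 K, ‖j (z : K)‖ ≤ 1 := fun z =>
    EMBV_.norm_le_one_of_isIntegral _ ((RingOfIntegers.isIntegral_coe z).map j.toIntAlgHom)
  have h1 : ∀ z : 𝓞 K, z ∉ P → ‖j (z : K)‖ = 1 := fun z hz =>
    le_antisymm (hle z) (not_lt.1 fun h => hz ((hP z).2 h))
  have hprime : P.IsPrime := by
    refine ⟨?_, ?_⟩
    · intro h
      have h2 : (1 : 𝓞 K) ∈ P := by
        rw [h]
        trivial
      have h3 := (hP 1).1 h2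
      simp at h3
    · intro x y hxy
      by_contra hc
      push Not at hc
      have h2 := (hP (x * y)).1 hxy
      have h3 : ‖j ((x * y : 𝓞 K) : K)‖ = 1 := by
        push_cast
        rw [map_mul, norm_mul, h1 x hc.1, h1 y hc.2, one_mul]
      linarith
  have hl0 : (l : 𝓞 K) ≠ 0 := by
    exact_mod_cast (Fact.out : l.Prime).ne_zero
  have hbot : P ≠ ⊥ := by
    intro h
    rw [h, Ideal.mem_bot] at hl
    exact hl0 hl
  have hmax : P.IsMaximal := hprime.isMaximal hbot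
  obtain ⟨π, hπ, hπ2⟩ := Ideal.exists_mem_pow_notMem_pow_succ P hbot hprime.ne_top 1
  rw [pow_one] at hπ
  have hπ0 : π ≠ 0 := by
    rintro rfl
    exact hπ2 (Ideal.zero_mem _)
  have hjπ0 : j (π : K) ≠ 0 := by
    rw [_root_.map_ne_zero]
    exact_mod_cast hπ0
  -- the complement
  obtain ⟨B, hB⟩ : P ∣ Ideal.span {π} := Ideal.dvd_iff_le.2
    ((Ideal.span_singleton_le_iff_mem _).2 hπ)
  obtain ⟨a1, ha1B, ha1P⟩ : ∃ a ∈ B, a ∉ P := by
    by_contra hc
    push Not at hc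
    apply hπ2
    have h2 : Ideal.span {π} ≤ P ^ (1 + 1) := by
      rw [hB, pow_succ, pow_one]
      exact Ideal.mul_mono_right hc
    exact h2 (Ideal.mem_span_singleton_self π)
  refine ⟨‖j (π : K)‖, norm_pos_iff.2 hjπ0, (hP π).1 hπ, ?_⟩
  intro z k hz hz'
  have hmem : z * a1 ^ k ∈ Ideal.span {π ^ k} := by
    rw [← Ideal.span_singleton_pow, hB, mul_pow]
    exact Ideal.mul_mem_mul hz (Ideal.pow_mem_pow ha1B k)
  obtain ⟨b, hb⟩ := Ideal.mem_span_singleton'.1 hmem
  have ha : a1 ^ k ∉ P := fun h => ha1P (hprime.mem_of_pow_mem k h)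
  have hbP : b ∉ P := by
    intro hbP
    have h2 : a1 ^ k * z ∈ P ^ (k + 1) := by
      rw [mul_comm, ← hb, pow_succ, mul_comm b]
      exact Ideal.mul_mem_mul (Ideal.pow_mem_pow hπ k) hbP
    rcases hmax.mul_mem_pow P h2 with h3 | h3
    · exact ha h3
    · exact hz' h3
  have h2 : ‖j ((b * π ^ k : 𝓞 K) : K)‖ = ‖j ((z * a1 ^ k : 𝓞 K) : K)‖ := by rw [hb]
  push_cast at h2
  rw [map_mul, map_mul, norm_mul, norm_mul, map_pow, map_pow, norm_pow, norm_pow, h1 b hbP,
    h1 a1 ha1P, one_pow, one_mul, mul_one] at h2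
  exact h2.symm

end Pool.Agent.QTx
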