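import Pool.Agent.QTx.Targets

/-!
# QTx, job GEOM2: result of part A
-/

open Polynomial NumberField
open Pool.Agent.QTw (IsFunctionField IsCovering HasPoint TwistSelNonempty geomField primesTo cfgs
  idealCount rootCount)

namespace Pool.Agent.QTx

namespace GEOM2_

theorem aeval_hom {A B : Type} [CommRing A] [CommRing B] [Algebra ℤ A] [Algebra ℤ B]
    (σ : A →+* B) (a : A) (f : ℤ[X]) : aeval (σ a) f = σ (aeval a f) := by
  rw [Polynomial.aeval_def, Polynomial.aeval_def, Polynomial.hom_eval₂,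
    RingHom.ext_int (σ.comp (algebraMap ℤ A)) (algebraMap ℤ B)]

theorem lam_map {K L : Type} [Field K] [Field L] (σ : K →+* L) (x₀ l₀ t : K) :
    σ (lam x₀ l₀ t) = lam (σ x₀) (σ l₀) (σ t) := by
  unfold lam
  by_cases h : t = x₀
  · rw [if_pos h, if_pos (by rw [h])]
  · rw [if_neg h, if_neg (fun h' => h (σ.injective h')), map_sub]

end GEOM2_

open GEOM2_ in
/-- GEOM2 -/
theorem p_GEOM2 (h1 : T_PAIR) (h2 : T_LOCE) (h3 : T_LEAD) : T_GEOM2 := by
  rintro f d hpos heven hsq hd ⟨F, _, _, x, y, hF, E, _, _, _, hcov, hloc⟩ M _ _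
  have hinj : Function.Injective (algebraMap F E) := (algebraMap F E).injective
  have hxE : Transcendental ℚ (algebraMap F E x) :=
    (transcendental_algebraMap_iff hinj).2 hF.transcendental
  let i₀ : M →ₐ[ℚ] AlgebraicClosure E := IsAlgClosed.lift
  have hi₀ : Function.Injective i₀ := i₀.toRingHom.injective
  have halg : ∀ a : M, IsAlgebraic ℚ (i₀ a) := fun a =>
    (isAlgebraic_algHom_iff i₀ hi₀).2 (Algebra.IsAlgebraic.isAlgebraic a)
  have hex : ∀ a b : M, ∃ δ0 : M, (aeval a f = 0 → aeval b f = 0 → a ≠ b →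
      (δ0 ≠ 0 ∧ δ0 ∈ IntermediateField.adjoin ℚ ({a, b} : Set M) ∧
        ∃ β ∈ IntermediateField.adjoin E ({i₀ a, i₀ b} : Set (AlgebraicClosure E)),
        (algebraMap E (AlgebraicClosure E) (algebraMap F E x) - i₀ a) *
          (algebraMap E (AlgebraicClosure E) (algebraMap F E x) - i₀ b) = i₀ δ0 * β ^ 2)) := by
    intro a b
    by_cases hab : aeval a f = 0 ∧ aeval b f = 0 ∧ a ≠ b
    · obtain ⟨ha, hb, hne⟩ := hab
      have ha' : aeval (i₀ a) f = 0 := by
        have := aeval_hom i₀.toRingHom a f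
        rw [ha, map_zero] at this
        exact this
      have hb' : aeval (i₀ b) f = 0 := by
        have := aeval_hom i₀.toRingHom b f
        rw [hb, map_zero] at this
        exact this
      obtain ⟨δ', hδ', hδ0, β, hβ, heq⟩ := h1 F E x y f d (i₀ a) (i₀ b) hF hcov hd hsq heven
        ha' hb' (fun h => hne (hi₀ h))
      have himg : ({i₀ a, i₀ b} : Set (AlgebraicClosure E)) = i₀ '' {a, b} := by
        rw [Set.image_pair]
      rw [himg, ← IntermediateField.adjoin_map, IntermediateField.mem_map] at hδ'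
      obtain ⟨δ0, hδ0m, rfl⟩ := hδ'
      refine ⟨δ0, fun _ _ _ => ⟨?_, hδ0m, β, hβ, heq⟩⟩
      rintro rfl
      exact hδ0 (map_zero _)
    · refine ⟨0, fun ha hb hne => absurd ⟨ha, hb, hne⟩ hab⟩
  choose δ hδ using hex
  refine ⟨δ, fun a b ha hb hne => ⟨(hδ a b ha hb hne).1, (hδ a b ha hb hne).2.1⟩, ?_⟩
  intro q _
  obtain ⟨φ⟩ := hloc.2 q
  have hξ : Transcendental ℚ (φ (algebraMap F E x)) := by
    intro h
    apply hxE
    exact (isAlgebraic_algHom_iff φ.toRatAlgHom φ.injective).1 h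
  have heq : (d : LaurentSeries ℚ_[q]) * (φ (algebraMap F E y)) ^ 2 =
      aeval (φ (algebraMap F E x)) f := by
    rw [aeval_hom, aeval_hom, ← hF.equation]
    simp only [map_mul, map_pow, map_intCast]
  -- the local data
  have hlocal : ∀ (j : M →+* PadicAlgCl q) (a b : M), aeval a f = 0 → aeval b f = 0 → a ≠ b →
      ∃ (t t' e : IntermediateField.adjoin ℚ_[q] ({j a, j b} : Set (PadicAlgCl q)))
        (β' : LaurentSeries (IntermediateField.adjoin ℚ_[q] ({j a, j b} : Set (PadicAlgCl q)))),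
        (t : PadicAlgCl q) = j a ∧ (t' : PadicAlgCl q) = j b ∧
        (e : PadicAlgCl q) = j (δ a b) ∧ aeval t f = 0 ∧ aeval t' f = 0 ∧ t ≠ t' ∧ e ≠ 0 ∧
        ((φ (algebraMap F E x)).map (algebraMap ℚ_[q]
            (IntermediateField.adjoin ℚ_[q] ({j a, j b} : Set (PadicAlgCl q)))) -
            HahnSeries.C t) *
          ((φ (algebraMap F E x)).map (algebraMap ℚ_[q]
            (IntermediateField.adjoin ℚ_[q] ({j a, j b} : Set (PadicAlgCl q)))) -
            HahnSeries.C t') = HahnSeries.C e * β' ^ 2 := by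
    intro j a b ha hb hne
    obtain ⟨hδ0, hδm, β, hβ, hid⟩ := hδ a b ha hb hne
    have hδ' : i₀ (δ a b) ∈ IntermediateField.adjoin ℚ
        ({i₀ a, i₀ b} : Set (AlgebraicClosure E)) := by
      have himg : ({i₀ a, i₀ b} : Set (AlgebraicClosure E)) = i₀ '' {a, b} := by
        rw [Set.image_pair]
      rw [himg, ← IntermediateField.adjoin_map, IntermediateField.mem_map]
      exact ⟨δ a b, hδm, rfl⟩
    obtain ⟨t, t', e, β', ht, ht', he, hid'⟩ := h2 E hcov.constants (algebraMap F E x) (i₀ a)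
      (i₀ b) (i₀ (δ a b)) β (halg a) (halg b) hδ' hβ hid q φ M i₀.toRingHom j a b (δ a b)
      rfl rfl rfl
    have hroot : ∀ (s : IntermediateField.adjoin ℚ_[q] ({j a, j b} : Set (PadicAlgCl q))) (c : M),
        (s : PadicAlgCl q) = j c → aeval c f = 0 → aeval s f = 0 := by
      intro s c hs hc
      have e1 := aeval_hom (algebraMap (IntermediateField.adjoin ℚ_[q]
        ({j a, j b} : Set (PadicAlgCl q))) (PadicAlgCl q)) s f
      have e2 : algebraMap (IntermediateField.adjoin ℚ_[q]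
        ({j a, j b} : Set (PadicAlgCl q))) (PadicAlgCl q) s = j c := hs
      rw [e2, aeval_hom j c f, hc, map_zero] at e1
      exact (map_eq_zero _).1 e1.symm
    refine ⟨t, t', e, β', ht, ht', he, hroot t a ht ha, hroot t' b ht' hb, ?_, ?_, hid'⟩
    · intro htt
      apply hne
      apply j.injective
      exact ht.symm.trans ((congrArg Subtype.val htt).trans ht')
    · intro he0
      rw [he0] at he
      apply hδ0
      apply j.injective
      rw [← he, map_zero]
      rfl
  rcases h3 ℚ_[q] (φ (algebraMap F E x)) (φ (algebraMap F E y)) f d hd hpos heven hsq hξ heq with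
    ⟨x₀, l₀, y₀, hPt, hall⟩ | ⟨hdl, hall⟩
  · left
    refine ⟨x₀, l₀, y₀, hPt, ?_⟩
    intro j a b ha hb hne
    obtain ⟨t, t', e, β', ht, ht', he, hft, hft', htt, he0, hid⟩ := hlocal j a b ha hb hne
    obtain ⟨c, hc⟩ := hall _ t t' e β' hft hft' htt he0 hid
    refine ⟨(c : PadicAlgCl q), c.2, ?_⟩
    have hc' := congrArg (algebraMap (IntermediateField.adjoin ℚ_[q]
        ({j a, j b} : Set (PadicAlgCl q))) (PadicAlgCl q)) hc
    rw [map_mul, map_mul, lam_map, lam_map, map_mul] at hc'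
    have e1 : algebraMap (IntermediateField.adjoin ℚ_[q]
        ({j a, j b} : Set (PadicAlgCl q))) (PadicAlgCl q) t = j a := ht
    have e2 : algebraMap (IntermediateField.adjoin ℚ_[q]
        ({j a, j b} : Set (PadicAlgCl q))) (PadicAlgCl q) t' = j b := ht'
    have e3 : algebraMap (IntermediateField.adjoin ℚ_[q]
        ({j a, j b} : Set (PadicAlgCl q))) (PadicAlgCl q) e = j (δ a b) := he
    rw [e1, e2, e3] at hc'
    have e4 : algebraMap (IntermediateField.adjoin ℚ_[q]
        ({j a, j b} : Set (PadicAlgCl q))) (PadicAlgCl q) c = (c : PadicAlgCl q) := rfl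
    rw [e4] at hc'
    rw [pow_two, ← hc']
    rfl
  · right
    refine ⟨hdl, ?_⟩
    intro j a b ha hb hne
    obtain ⟨t, t', e, β', ht, ht', he, hft, hft', htt, he0, hid⟩ := hlocal j a b ha hb hne
    obtain ⟨c, hc⟩ := hall _ t t' e β' hft hft' htt he0 hid
    refine ⟨(c : PadicAlgCl q), c.2, ?_⟩
    rw [← he, hc, pow_two]
    rfl

end Pool.Agent.QTx
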