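import Pool.Agent.QTx.Targets
import Pool.Agent.QTw.LOCP

open Polynomial NumberField
open Pool.Agent.QTw (IsFunctionField IsCovering HasPoint TwistSelNonempty geomField primesTo cfgs
  idealCount rootCount)

namespace Pool.Agent.QTx

namespace GOODQ_

open Pool.Agent.QTw.LOCP_ (bez)

section padic

variable {q : ℕ} [hq : Fact q.Prime]

theorem norm_algMap (x : ℚ_[q]) : ‖algebraMap ℚ_[q] (PadicAlgCl q) x‖ = ‖x‖ :=
  PadicAlgCl.norm_extends q x

theorem norm_int_le (m : ℤ) : ‖(m : PadicAlgCl q)‖ ≤ 1 := by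
  have h : (m : PadicAlgCl q) = algebraMap ℚ_[q] (PadicAlgCl q) (m : ℚ_[q]) := by
    rw [map_intCast]
  rw [h, norm_algMap]
  exact Padic.norm_int_le_one m

theorem norm_int_padic {m : ℤ} (hm : ¬ (q : ℤ) ∣ m) : ‖(m : ℚ_[q])‖ = 1 := by
  refine le_antisymm (Padic.norm_int_le_one m) ?_
  rw [← not_lt, Padic.norm_intCast_lt_one_iff]
  exact hm

theorem norm_int_eq {m : ℤ} (hm : ¬ (q : ℤ) ∣ m) : ‖(m : PadicAlgCl q)‖ = 1 := by
  have h : (m : PadicAlgCl q) = algebraMap ℚ_[q] (PadicAlgCl q) (m : ℚ_[q]) := by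
    rw [map_intCast]
  rw [h, norm_algMap]
  exact norm_int_padic hm

theorem norm_sub_le_one {t t' : PadicAlgCl q} (ht : ‖t‖ ≤ 1) (ht' : ‖t'‖ ≤ 1) :
    ‖t - t'‖ ≤ 1 := by
  rw [sub_eq_add_neg]
  refine (IsUltrametricDist.norm_add_le_max t (-t')).trans (max_le ht ?_)
  rw [norm_neg]
  exact ht'

/-- values of integral polynomials at integral elements are integral -/
theorem norm_aeval_le (P : ℤ[X]) {t : PadicAlgCl q} (ht : ‖t‖ ≤ 1) : ‖aeval t P‖ ≤ 1 := by
  rw [aeval_eq_sum_range]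
  refine IsUltrametricDist.norm_sum_le_of_forall_le_of_nonneg zero_le_one fun i _ => ?_
  rw [zsmul_eq_mul, norm_mul, norm_pow]
  exact mul_le_one₀ (norm_int_le _) (by positivity) (pow_le_one₀ (norm_nonneg _) ht)

/-- roots are integral -/
theorem root_int {f : ℤ[X]} (hlc : ¬ (q : ℤ) ∣ f.leadingCoeff) {t : PadicAlgCl q}
    (ht : aeval t f = 0) : ‖t‖ ≤ 1 := by
  by_contra hcon
  rw [not_le] at hcon
  set n := f.natDegree with hn
  have hsum : aeval t f = (∑ i ∈ Finset.range n, (f.coeff i : PadicAlgCl q) * t ^ i) +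
      (f.leadingCoeff : PadicAlgCl q) * t ^ n := by
    rw [aeval_eq_sum_range, Finset.sum_range_succ]
    simp only [zsmul_eq_mul]
    rfl
  rw [hsum] at ht
  have htop : ‖(f.leadingCoeff : PadicAlgCl q) * t ^ n‖ = ‖t‖ ^ n := by
    rw [norm_mul, norm_pow, norm_int_eq hlc, one_mul]
  have h2 : ‖∑ i ∈ Finset.range n, (f.coeff i : PadicAlgCl q) * t ^ i‖ = ‖t‖ ^ n := by
    rw [← htop, eq_neg_of_add_eq_zero_left ht, norm_neg]
  rcases Nat.eq_zero_or_pos n with h0 | h0
  · rw [h0] at h2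
    simp at h2
  have hb : ‖∑ i ∈ Finset.range n, (f.coeff i : PadicAlgCl q) * t ^ i‖ ≤ ‖t‖ ^ (n - 1) := by
    refine IsUltrametricDist.norm_sum_le_of_forall_le_of_nonneg (by positivity) ?_
    intro i hi
    rw [Finset.mem_range] at hi
    rw [norm_mul, norm_pow]
    calc ‖(f.coeff i : PadicAlgCl q)‖ * ‖t‖ ^ i ≤ 1 * ‖t‖ ^ (n - 1) :=
          mul_le_mul (norm_int_le _) (pow_le_pow_right₀ hcon.le (by omega)) (by positivity)
            zero_le_one
      _ = ‖t‖ ^ (n - 1) := one_mul _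
  have hlt : ‖t‖ ^ (n - 1) < ‖t‖ ^ n := pow_lt_pow_right₀ hcon (by omega)
  linarith

/-- Bezout at integral elements -/
theorem bez_norm {A B u v : ℤ[X]} {R : ℤ} (h : A * u + B * v = C R) (hR : ¬ (q : ℤ) ∣ R)
    {t : PadicAlgCl q} (ht : ‖t‖ ≤ 1) (hu : aeval t u = 0) : ‖aeval t v‖ = 1 := by
  have h1 := congrArg (aeval t) h
  rw [map_add, map_mul, map_mul, hu, mul_zero, zero_add, aeval_C] at h1
  have h2 := congrArg norm h1
  rw [norm_mul, eq_intCast, norm_int_eq hR] at h2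
  have h3 := norm_aeval_le B ht
  have h4 := norm_aeval_le v ht
  have h5 := norm_nonneg (aeval t B)
  have h6 := norm_nonneg (aeval t v)
  nlinarith

/-- the ring of integral elements -/
def OO (q : ℕ) [Fact q.Prime] : Subring (PadicAlgCl q) where
  carrier := {x | ‖x‖ ≤ 1}
  mul_mem' := by
    intro a b ha hb
    show ‖a * b‖ ≤ 1
    rw [norm_mul]
    exact mul_le_one₀ ha (norm_nonneg _) hb
  one_mem' := by
    show ‖(1 : PadicAlgCl q)‖ ≤ 1
    rw [norm_one]
  add_mem' := by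
    intro a b ha hb
    show ‖a + b‖ ≤ 1
    exact (IsUltrametricDist.norm_add_le_max a b).trans (max_le ha hb)
  zero_mem' := by
    show ‖(0 : PadicAlgCl q)‖ ≤ 1
    rw [norm_zero]
    exact zero_le_one
  neg_mem' := by
    intro a ha
    show ‖-a‖ ≤ 1
    rw [norm_neg]
    exact ha

/-- two different roots of a polynomial whose derivative does not vanish modulo the maximal ideal
are not congruent -/
theorem sep_of_der {f : ℤ[X]} {t t' : PadicAlgCl q} (ht : ‖t‖ ≤ 1) (ht' : ‖t'‖ ≤ 1)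
    (h0 : aeval t f = 0) (h0' : aeval t' f = 0) (hd : ‖aeval t (derivative f)‖ = 1)
    (hne : t ≠ t') : ‖t - t'‖ = 1 := by
  have hle : ‖t - t'‖ ≤ 1 :=
    norm_sub_le_one ht ht'
  refine le_antisymm hle ?_
  by_contra hlt
  rw [not_le] at hlt
  set F : (OO q)[X] := f.map (Int.castRingHom (OO q)) with hF
  have hev : ∀ (P : ℤ[X]) (z : OO q),
      (((P.map (Int.castRingHom (OO q))).eval z : OO q) : PadicAlgCl q) =
      aeval (z : PadicAlgCl q) P := by
    intro P z
    rw [eval_map, aeval_def]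
    have := Polynomial.hom_eval₂ P (Int.castRingHom (OO q)) (OO q).subtype z
    have e : (OO q).subtype.comp (Int.castRingHom (OO q)) = algebraMap ℤ (PadicAlgCl q) :=
      RingHom.ext_int _ _
    rw [e] at this
    exact this
  set x : OO q := ⟨t, ht⟩ with hx
  set y : OO q := ⟨t' - t, by
    show ‖t' - t‖ ≤ 1
    rw [norm_sub_rev]
    exact hle⟩ with hy
  obtain ⟨k, hk⟩ := Polynomial.binomExpansion F x y
  have h1 := congrArg (fun z : OO q => (z : PadicAlgCl q)) hk
  simp only [Subring.coe_add, Subring.coe_mul, Subring.coe_pow] at h1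
  have hxy : ((x + y : OO q) : PadicAlgCl q) = t' := by
    rw [Subring.coe_add]
    show t + (t' - t) = t'
    ring
  rw [hF, hev, hxy, h0', hev, derivative_map, hev] at h1
  change 0 = aeval t f + aeval t (derivative f) * (t' - t) + (k : PadicAlgCl q) * (t' - t) ^ 2 at h1
  rw [h0, zero_add] at h1
  have h2 : (t' - t) * (aeval t (derivative f) + k * (t' - t)) = 0 := by
    rw [h1]; ring
  rcases mul_eq_zero.mp h2 with h3 | h3
  · exact hne (sub_eq_zero.mp h3).symm
  · have h4 : ‖aeval t (derivative f)‖ = ‖(k : PadicAlgCl q) * (t' - t)‖ := by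
      rw [eq_neg_of_add_eq_zero_left h3, norm_neg]
    rw [hd, norm_mul, norm_sub_rev] at h4
    have h5 : ‖(k : PadicAlgCl q)‖ ≤ 1 := k.2
    have h6 := norm_nonneg (k : PadicAlgCl q)
    have h7 := norm_nonneg (t - t')
    nlinarith

/-- Hensel's lemma for integral polynomials -/
theorem hens {g A B : ℤ[X]} {R : ℤ} (h : A * g + B * derivative g = C R) (hR : ¬ (q : ℤ) ∣ R)
    (s : ℤ) (hs : (q : ℤ) ∣ g.eval s) : ∃ t : ℚ_[q], aeval t g = 0 ∧ ‖t - (s : ℚ_[q])‖ < 1 := by
  have hev : ∀ P : ℤ[X], aeval (s : ℤ_[q]) P = ((P.eval s : ℤ) : ℤ_[q]) := by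
    intro P
    rw [aeval_def]
    have := Polynomial.eval₂_at_apply (p := P) (Int.castRingHom ℤ_[q]) s
    simpa using this
  have h1 : ‖aeval (s : ℤ_[q]) g‖ < 1 := by
    rw [hev, PadicInt.norm_int_lt_one_iff_dvd]
    exact hs
  have h2 : ‖aeval (s : ℤ_[q]) (derivative g)‖ = 1 := by
    rw [hev]
    refine le_antisymm (PadicInt.norm_le_one _) ?_
    rw [← not_lt, PadicInt.norm_int_lt_one_iff_dvd]
    exact Pool.Agent.QTw.LOCP_.not_both h hR hs
  obtain ⟨z, hz0, hz1, -, -⟩ := hensels_lemma (p := q) (F := g) (a := (s : ℤ_[q])) (by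
    rw [h2]; simpa using h1)
  refine ⟨z, ?_, ?_⟩
  · rw [Pool.Agent.QTw.LOCP_.aeval_coe, hz0]
    rfl
  · rw [h2, PadicInt.norm_def] at hz1
    simpa using hz1

end padic

end GOODQ_

open GOODQ_ Pool.Agent.QTw.LOCP_ in
theorem p_GOODQ : T_UNR → T_DENS → T_GOODQ := by
  intro hUNR hDENS n g c f hg hc hfac M _ _
  have hinj : Function.Injective (Int.castRingHom ℚ) := Int.cast_injective
  obtain ⟨NU, hNU0, hNU⟩ := hUNR M
  have hsepf : (f.map (Int.castRingHom ℚ)).Separable := by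
    rw [hfac]
    have h1 : (∏ i, (g i).map (Int.castRingHom ℚ)).Separable :=
      separable_prod' (fun i _ j _ hij => hg.coprime i j hij)
        (fun i _ => (hg.irr i).separable)
    exact Separable.unit_mul (isUnit_C.mpr (isUnit_iff_ne_zero.mpr hc)) h1
  have hf0 : f ≠ 0 := by
    rintro rfl
    rw [Polynomial.map_zero] at hsepf
    exact hsepf.ne_zero rfl
  obtain ⟨A, B, R, hR0, hR⟩ : ∃ (A B : ℤ[X]) (R : ℤ), R ≠ 0 ∧ A * f + B * derivative f = C R := by
    refine bez ?_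
    rw [← derivative_map]
    exact hsepf
  have hgi : ∀ i, ∃ (A B : ℤ[X]) (R : ℤ), R ≠ 0 ∧ A * g i + B * derivative (g i) = C R := by
    intro i
    refine bez ?_
    rw [← derivative_map]
    exact (hg.irr i).separable
  choose Ai Bi Ri hRi0 hRi using hgi
  refine ⟨2 * f.leadingCoeff.natAbs * R.natAbs * (∏ i, (Ri i).natAbs) * NU, ?_, ?_⟩
  · have h1 : 0 < f.leadingCoeff.natAbs := Int.natAbs_pos.mpr (leadingCoeff_ne_zero.mpr hf0)
    have h2 : 0 < R.natAbs := Int.natAbs_pos.mpr hR0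
    have h3 : 0 < ∏ i, (Ri i).natAbs := Finset.prod_pos fun i _ => Int.natAbs_pos.mpr (hRi0 i)
    positivity
  intro q hq hqN
  have q2 : ¬ q ∣ 2 := fun h => hqN (by
    rw [mul_assoc, mul_assoc, mul_assoc]
    exact Dvd.dvd.mul_right h _)
  have qlc : ¬ (q : ℤ) ∣ f.leadingCoeff := fun h => hqN (by
    have := Int.natCast_dvd.mp h
    exact (((this.mul_left 2).mul_right _).mul_right _).mul_right _)
  have qR : ¬ (q : ℤ) ∣ R := fun h => hqN (by
    have := Int.natCast_dvd.mp h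
    exact ((this.mul_left _).mul_right _).mul_right _)
  have qRi : ∀ i, ¬ (q : ℤ) ∣ Ri i := fun i h => hqN (by
    have := Int.natCast_dvd.mp h
    have h2 : q ∣ ∏ i, (Ri i).natAbs := this.trans (Finset.dvd_prod_of_mem _ (Finset.mem_univ i))
    exact (h2.mul_left _).mul_right _)
  have qNU : ¬ q ∣ NU := fun h => hqN (h.mul_left _)
  have hint : ∀ t : PadicAlgCl q, aeval t f = 0 → ‖t‖ ≤ 1 := fun t ht => root_int qlc ht
  have hder : ∀ t : PadicAlgCl q, aeval t f = 0 → ‖aeval t (derivative f)‖ = 1 := fun t ht =>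
    bez_norm hR qR (hint t ht) ht
  refine ⟨?_, norm_int_padic qlc, hint, ?_, ?_, ?_, ?_, hder, ?_⟩
  · rintro rfl
    exact q2 dvd_rfl
  · intro t t' ht ht' hne
    exact sep_of_der (hint t ht) (hint t' ht') ht ht' (hder t ht) hne
  · intro j c hc0 hcm
    obtain ⟨z, hz⟩ := hDENS M q j c hcm hc0
    have hz0 : z ≠ 0 := by
      rintro rfl
      rw [map_zero, norm_zero] at hz
      exact hc0 (norm_eq_zero.mp hz.symm)
    obtain ⟨k, hk⟩ := hNU q qNU j z hz0
    exact ⟨k, by rw [← hz, hk]⟩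
  · intro i s hs
    exact hens (hRi i) (qRi i) s hs
  · intro t
    have h1 : aeval t f = algebraMap ℚ (PadicAlgCl q) c * ∏ i, aeval t (g i) := by
      have h2 := congrArg (aeval t) hfac
      rw [map_mul, map_prod, aeval_C] at h2
      have h3 : ∀ P : ℤ[X], aeval t (P.map (Int.castRingHom ℚ)) = aeval t P := by
        intro P
        exact Polynomial.aeval_map_algebraMap ℚ t P
      simpa [h3] using h2
    rw [h1]
    have hc' : algebraMap ℚ (PadicAlgCl q) c ≠ 0 :=
      (map_ne_zero_iff _ (algebraMap ℚ (PadicAlgCl q)).injective).mpr hc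
    constructor
    · intro h
      rcases mul_eq_zero.mp h with h | h
      · exact absurd h hc'
      · obtain ⟨i, -, hi⟩ := Finset.prod_eq_zero_iff.mp h
        exact ⟨i, hi⟩
    · rintro ⟨i, hi⟩
      rw [Finset.prod_eq_zero (Finset.mem_univ i) hi, mul_zero]
  · intro i i' t h h'
    by_contra hne
    obtain ⟨A', B', R', hR'0, hR'⟩ := bez (hg.coprime i i' hne)
    have h1 := congrArg (aeval t) hR'
    rw [map_add, map_mul, map_mul, h, h', mul_zero, mul_zero, add_zero, aeval_C, eq_intCast] at h1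
    exact hR'0 (by exact_mod_cast h1.symm)

end Pool.Agent.QTx
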