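import Pool.Agent.QTx.Targets

set_option autoImplicit false

/-! LEAD: leading coefficients of Laurent series. -/

open Polynomial

namespace Pool.Agent.QTx

namespace LEAD_

open HahnSeries

/-- evaluation of an integral polynomial -/
def ev (R : Type) [CommRing R] (x : R) (g : ℤ[X]) : R := eval₂ (Int.castRingHom R) x g

lemma aeval_eq (R : Type) [CommRing R] [Algebra ℤ R] (x : R) (g : ℤ[X]) :
    aeval x g = ev R x g := by
  unfold ev
  rw [aeval_def, Subsingleton.elim (algebraMap ℤ R) (Int.castRingHom R)]

lemma map_ev {R S : Type} [CommRing R] [CommRing S] (φ : R →+* S) (x : R) (g : ℤ[X]) :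
    φ (ev R x g) = ev S (φ x) g := by
  unfold ev
  rw [hom_eval₂, Subsingleton.elim (φ.comp (Int.castRingHom R)) (Int.castRingHom S)]

lemma ev_eq_eval (R : Type) [CommRing R] (x : R) (g : ℤ[X]) :
    ev R x g = eval x (g.map (Int.castRingHom R)) := by
  unfold ev
  rw [eval_map]

variable {K : Type} [Field K]

lemma coeff_zero_of (P : PowerSeries K) :
    (ofPowerSeries ℤ K P).coeff 0 = PowerSeries.constantCoeff P := by
  have := PowerSeries.coeff_coe P 0
  simpa using this

lemma lc_of (P : PowerSeries K) (h : PowerSeries.constantCoeff P ≠ 0) :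
    (ofPowerSeries ℤ K P).leadingCoeff = PowerSeries.constantCoeff P := by
  have h0 := coeff_zero_of P
  have hne : ofPowerSeries ℤ K P ≠ 0 := by
    intro h1
    rw [h1] at h0
    exact h h0.symm
  have h1 : (ofPowerSeries ℤ K P).order ≤ 0 := by
    apply HahnSeries.order_le_of_coeff_ne_zero
    rw [h0]; exact h
  have h2 : ¬ (ofPowerSeries ℤ K P).order < 0 := by
    intro h3
    have h4 := PowerSeries.coeff_coe P (ofPowerSeries ℤ K P).order
    rw [if_pos h3, ← HahnSeries.leadingCoeff_eq] at h4
    exact hne (HahnSeries.leadingCoeff_eq_zero.mp h4)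
  have h3 : (ofPowerSeries ℤ K P).order = 0 := by omega
  rw [HahnSeries.leadingCoeff_eq, h3, h0]

lemma coe_of_nonneg (η : LaurentSeries K) (h : 0 ≤ η.order) :
    ∃ P : PowerSeries K, ofPowerSeries ℤ K P = η := by
  obtain ⟨n, hn⟩ := Int.eq_ofNat_of_zero_le h
  refine ⟨PowerSeries.X ^ n * η.powerSeriesPart, ?_⟩
  have h1 := LaurentSeries.single_order_mul_powerSeriesPart η
  rw [map_mul, HahnSeries.ofPowerSeries_X_pow]
  rw [hn] at h1
  exact h1

lemma coe_of_coeff (η : LaurentSeries K) (h : ∀ n < 0, η.coeff n = 0) :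
    ∃ P : PowerSeries K, ofPowerSeries ℤ K P = η := by
  apply coe_of_nonneg
  by_contra hlt
  rw [not_le] at hlt
  have h1 := h _ hlt
  rw [← HahnSeries.leadingCoeff_eq, HahnSeries.leadingCoeff_eq_zero] at h1
  rw [h1] at hlt
  simp at hlt

lemma lc_C (δ : K) : (HahnSeries.C δ : LaurentSeries K).leadingCoeff = δ :=
  leadingCoeff_of_single

lemma sq_of (δ : K) (γ : LaurentSeries K) (P : PowerSeries K)
    (h : HahnSeries.C δ * γ ^ 2 = ofPowerSeries ℤ K P) (h0 : PowerSeries.constantCoeff P ≠ 0) :
    IsSquare (δ * PowerSeries.constantCoeff P) := by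
  have h1 := congrArg HahnSeries.leadingCoeff h
  rw [lc_of P h0, HahnSeries.leadingCoeff_mul, sq, HahnSeries.leadingCoeff_mul] at h1
  rw [lc_C δ] at h1
  rw [← h1]
  exact ⟨δ * γ.leadingCoeff, by ring⟩

lemma coeff_C_ne {n : ℤ} (hn : n ≠ 0) (x : K) : (HahnSeries.C x : LaurentSeries K).coeff n = 0 := by
  rw [HahnSeries.C_apply, HahnSeries.coeff_single_of_ne hn]

lemma coeff_C_zero' (x : K) : (HahnSeries.C x : LaurentSeries K).coeff 0 = x := by
  rw [HahnSeries.C_apply, HahnSeries.coeff_single_same]

/-- leading coefficient of a series minus a constant different from the constant coefficient -/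
lemma lc_sub (P : PowerSeries K) (t : K) (h : t ≠ PowerSeries.constantCoeff P) :
    (ofPowerSeries ℤ K P - HahnSeries.C t).leadingCoeff = PowerSeries.constantCoeff P - t := by
  have e1 : ofPowerSeries ℤ K P - HahnSeries.C t =
      ofPowerSeries ℤ K (P - PowerSeries.C t) := by
    rw [map_sub, HahnSeries.ofPowerSeries_C]
  have e2 : PowerSeries.constantCoeff (P - PowerSeries.C t) =
      PowerSeries.constantCoeff P - t := by
    rw [map_sub, PowerSeries.constantCoeff_C]
  rw [e1, lc_of _ (by rw [e2]; exact sub_ne_zero.mpr (Ne.symm h)), e2]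

/-- evaluation of a polynomial at a power series -/
lemma lc_eval (P : PowerSeries K) (g : K[X]) (h : eval (PowerSeries.constantCoeff P) g ≠ 0) :
    (eval₂ (HahnSeries.C : K →+* LaurentSeries K) (ofPowerSeries ℤ K P) g).leadingCoeff =
      eval (PowerSeries.constantCoeff P) g := by
  have e1 : eval₂ (HahnSeries.C : K →+* LaurentSeries K) (ofPowerSeries ℤ K P) g =
      ofPowerSeries ℤ K (eval₂ PowerSeries.C P g) := by
    rw [hom_eval₂]
    congr 1
    ext a
    · simp [HahnSeries.ofPowerSeries_C]
  have e2 : PowerSeries.constantCoeff (eval₂ PowerSeries.C P g) =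
      eval (PowerSeries.constantCoeff P) g := by
    rw [hom_eval₂]
    have : (PowerSeries.constantCoeff : PowerSeries K →+* K).comp PowerSeries.C =
        RingHom.id K := by
      ext a
      simp
    rw [this]
    rfl
  rw [e1, lc_of _ (by rw [e2]; exact h), e2]

variable {L : Type} [Field L] [Algebra L K]

lemma order_map (g : LaurentSeries L) : (g.map (algebraMap L K)).order = g.order := by
  by_cases hg : g = 0
  · subst hg
    have : (HahnSeries.map (0 : LaurentSeries L) (algebraMap L K)) = 0 := by
      ext n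
      simp
    rw [this]
    simp
  · have h1 : (g.map (algebraMap L K)).coeff g.order ≠ 0 := by
      rw [HahnSeries.map_coeff, ← HahnSeries.leadingCoeff_eq]
      intro h
      rw [map_eq_zero] at h
      exact hg (HahnSeries.leadingCoeff_eq_zero.mp h)
    have h2 : (g.map (algebraMap L K)).order ≤ g.order :=
      HahnSeries.order_le_of_coeff_ne_zero h1
    have h3 : ¬ (g.map (algebraMap L K)).order < g.order := by
      intro h3
      have h4 : g.coeff (g.map (algebraMap L K)).order = 0 :=
        HahnSeries.coeff_eq_zero_of_lt_order h3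
      have h5 : (g.map (algebraMap L K)).leadingCoeff = 0 := by
        rw [HahnSeries.leadingCoeff_eq, HahnSeries.map_coeff, h4, map_zero]
      rw [HahnSeries.leadingCoeff_eq_zero] at h5
      rw [h5] at h1
      exact h1 (by simp)
    omega

lemma lc_map (g : LaurentSeries L) :
    (g.map (algebraMap L K)).leadingCoeff = algebraMap L K g.leadingCoeff := by
  rw [HahnSeries.leadingCoeff_eq, order_map, HahnSeries.map_coeff, ← HahnSeries.leadingCoeff_eq]

lemma map_sub_C (g : LaurentSeries L) (x : L) :
    g.map (algebraMap L K) - HahnSeries.C (algebraMap L K x) =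
      (g - HahnSeries.C x).map (algebraMap L K) := by
  ext n
  rw [HahnSeries.coeff_sub, HahnSeries.map_coeff, HahnSeries.map_coeff, HahnSeries.coeff_sub,
    map_sub]
  by_cases hn : n = 0
  · subst hn
    rw [coeff_C_zero', coeff_C_zero']
  · rw [coeff_C_ne hn, coeff_C_ne hn, map_zero]

end LEAD_

open LEAD_ in
theorem p_LEAD : T_LEAD := by
  intro L _ _ ξ η f d hd hdeg heven hsq htr hη
  have hf0 : f ≠ 0 := by
    rintro rfl
    simp at hdeg
  have hfm0 : f.map (Int.castRingHom ℚ) ≠ 0 := by
    rw [Ne, Polynomial.map_eq_zero_iff (RingHom.injective_int _)]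
    exact hf0
  have hξne : ∀ x : L, ev L x f = 0 → ξ ≠ HahnSeries.C x := by
    intro x hx h
    apply htr
    refine ⟨f.map (Int.castRingHom ℚ), hfm0, ?_⟩
    rw [aeval_def, eval₂_map, Subsingleton.elim ((algebraMap ℚ (LaurentSeries L)).comp
      (Int.castRingHom ℚ)) (Int.castRingHom (LaurentSeries L))]
    have h1 : ev _ ξ f = 0 := by
      rw [h, ← map_ev, hx, map_zero]
    exact h1
  have hder : ∀ x : L, ev L x f = 0 → ev L x (derivative f) ≠ 0 := by
    intro x hx h
    obtain ⟨a, b, hab⟩ := PerfectField.separable_iff_squarefree.mpr hsq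
    have h1 := congrArg (eval₂ (algebraMap ℚ L) x) hab
    rw [eval₂_add, eval₂_mul, eval₂_mul, derivative_map, eval₂_map, eval₂_map,
      Subsingleton.elim ((algebraMap ℚ L).comp (Int.castRingHom ℚ)) (Int.castRingHom L)] at h1
    unfold ev at hx h
    rw [hx, h, eval₂_one, mul_zero, mul_zero, add_zero] at h1
    exact zero_ne_one h1
  have hη' : HahnSeries.C (d : L) * η ^ 2 = ev _ ξ f := by
    rw [← aeval_eq, ← hη, map_intCast]
  have hdL : (d : L) ≠ 0 := by exact_mod_cast hd
  by_cases hord : 0 ≤ ξ.order
  · left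
    obtain ⟨P, hP⟩ := coe_of_nonneg ξ hord
    set x₀ := PowerSeries.constantCoeff P with hx₀
    -- the images in `K`
    have himg : ∀ (K : Type) [Field K] [Algebra L K], ∃ P' : PowerSeries K,
        HahnSeries.ofPowerSeries ℤ K P' = ξ.map (algebraMap L K) ∧
          PowerSeries.constantCoeff P' = algebraMap L K x₀ := by
      intro K _ _
      have h1 : ∀ n < 0, (ξ.map (algebraMap L K)).coeff n = 0 := by
        intro n hn
        rw [HahnSeries.map_coeff, HahnSeries.coeff_eq_zero_of_lt_order (lt_of_lt_of_le hn hord),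
          map_zero]
      obtain ⟨P', hP'⟩ := coe_of_coeff _ h1
      refine ⟨P', hP', ?_⟩
      rw [← coeff_zero_of, hP', HahnSeries.map_coeff, hx₀, ← coeff_zero_of, hP]
    by_cases hfx : ev L x₀ f = 0
    · -- a Weierstrass point
      set l₀ := (ξ - HahnSeries.C x₀).leadingCoeff with hl₀
      have hl0 : l₀ ≠ 0 := by
        rw [hl₀, Ne, HahnSeries.leadingCoeff_eq_zero, sub_eq_zero]
        exact hξne x₀ hfx
      obtain ⟨g, hg⟩ : X - C x₀ ∣ f.map (Int.castRingHom L) := by
        rw [dvd_iff_isRoot, IsRoot.def, ← ev_eq_eval]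
        exact hfx
      have hgx : eval x₀ g = ev L x₀ (derivative f) := by
        rw [ev_eq_eval, ← derivative_map, hg, derivative_mul]
        simp
      have hlc : (ev _ ξ f).leadingCoeff = l₀ * ev L x₀ (derivative f) := by
        have e1 : ev _ ξ f = eval₂ (HahnSeries.C : L →+* LaurentSeries L) ξ
            (f.map (Int.castRingHom L)) := by
          unfold ev
          rw [eval₂_map, Subsingleton.elim ((HahnSeries.C : L →+* LaurentSeries L).comp
            (Int.castRingHom L)) (Int.castRingHom (LaurentSeries L))]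
        rw [e1, hg, eval₂_mul, eval₂_sub, eval₂_X, eval₂_C, HahnSeries.leadingCoeff_mul, ← hgx]
        congr 1
        rw [← hP]
        apply lc_eval
        rw [← hx₀, hgx]
        exact hder x₀ hfx
      refine ⟨x₀, l₀, η.leadingCoeff, ⟨hl0, ?_, ?_, ?_⟩, ?_⟩
      · intro h
        have h1 := congrArg HahnSeries.leadingCoeff hη'
        rw [hlc, HahnSeries.leadingCoeff_mul, sq, HahnSeries.leadingCoeff_mul, h, mul_zero,
          mul_zero] at h1
        exact mul_ne_zero hl0 (hder x₀ hfx) h1.symm
      · intro h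
        rw [aeval_eq] at h
        exact absurd hfx h
      · intro _
        have h1 := congrArg HahnSeries.leadingCoeff hη'
        rw [hlc, HahnSeries.leadingCoeff_mul, sq, HahnSeries.leadingCoeff_mul, lc_C] at h1
        rw [aeval_eq, mul_comm, ← h1]
        ring
      · intro K _ _ t t' e β ht ht' htt he hβ
        obtain ⟨P', hP', hP0⟩ := himg K
        have key : ∀ s : K, (ξ.map (algebraMap L K) - HahnSeries.C s).leadingCoeff =
            lam (algebraMap L K x₀) (algebraMap L K l₀) s := by
          intro s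
          unfold lam
          split_ifs with hs
          · rw [hs, map_sub_C, lc_map]
          · rw [← hP', lc_sub P' s (by rw [hP0]; exact hs), hP0]
        have h1 := congrArg HahnSeries.leadingCoeff hβ
        rw [HahnSeries.leadingCoeff_mul, HahnSeries.leadingCoeff_mul, sq,
          HahnSeries.leadingCoeff_mul, lc_C, key, key] at h1
        rw [h1]
        exact ⟨e * β.leadingCoeff, by ring⟩
    · -- a general point
      have hlc : (ev _ ξ f).leadingCoeff = ev L x₀ f := by
        rw [← hP, ← map_ev]
        have e1 : PowerSeries.constantCoeff (ev _ P f) = ev L x₀ f := by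
          rw [map_ev]
        rw [lc_of _ (by rw [e1]; exact hfx), e1]
      refine ⟨x₀, 1, η.leadingCoeff, ⟨one_ne_zero, ?_, ?_, ?_⟩, ?_⟩
      · intro h
        have h1 := congrArg HahnSeries.leadingCoeff hη'
        rw [hlc, HahnSeries.leadingCoeff_mul, sq, HahnSeries.leadingCoeff_mul, h, mul_zero,
          mul_zero] at h1
        exact hfx h1.symm
      · intro _
        have h1 := congrArg HahnSeries.leadingCoeff hη'
        rw [hlc, HahnSeries.leadingCoeff_mul, sq, HahnSeries.leadingCoeff_mul, lc_C] at h1
        rw [aeval_eq, ← h1]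
        ring
      · intro h
        rw [aeval_eq] at h
        exact absurd h hfx
      · intro K _ _ t t' e β ht ht' htt he hβ
        obtain ⟨P', hP', hP0⟩ := himg K
        have hne : ∀ s : K, aeval s f = 0 → s ≠ algebraMap L K x₀ := by
          intro s hs h
          rw [aeval_eq, h, ← map_ev, map_eq_zero] at hs
          exact hfx hs
        have key : ∀ s : K, aeval s f = 0 →
            (ξ.map (algebraMap L K) - HahnSeries.C s).leadingCoeff =
            lam (algebraMap L K x₀) (algebraMap L K 1) s := by
          intro s hs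
          unfold lam
          rw [if_neg (hne s hs), ← hP', lc_sub P' s (by rw [hP0]; exact hne s hs), hP0]
        have h1 := congrArg HahnSeries.leadingCoeff hβ
        rw [HahnSeries.leadingCoeff_mul, HahnSeries.leadingCoeff_mul, sq,
          HahnSeries.leadingCoeff_mul, lc_C, key t ht, key t' ht'] at h1
        rw [h1]
        exact ⟨e * β.leadingCoeff, by ring⟩
  · right
    rw [not_le] at hord
    -- inverse of a series of negative order
    have inv_of : ∀ (K : Type) [Field K] (ζ : LaurentSeries K), ζ.order < 0 → ζ ≠ 0 ∧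
        ∃ P : PowerSeries K, HahnSeries.ofPowerSeries ℤ K P = ζ⁻¹ ∧ PowerSeries.constantCoeff P = 0 := by
      intro K _ ζ hζ
      have hζ0 : ζ ≠ 0 := by
        rintro h
        rw [h] at hζ
        simp at hζ
      have hη0 : ζ⁻¹ ≠ 0 := inv_ne_zero hζ0
      have hη : 0 < (ζ⁻¹).order := by
        have h1 := HahnSeries.order_mul hζ0 hη0
        rw [mul_inv_cancel₀ hζ0, HahnSeries.order_one] at h1
        omega
      obtain ⟨P, hP⟩ := coe_of_nonneg ζ⁻¹ hη.le
      refine ⟨hζ0, P, hP, ?_⟩
      rw [← coeff_zero_of, hP]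
      exact HahnSeries.coeff_eq_zero_of_lt_order hη
    constructor
    · obtain ⟨hξ0, P, hP, hP0⟩ := inv_of L ξ hord
      obtain ⟨k, hk⟩ := heven
      have h1 : ev _ ξ f = ev _ ξ⁻¹ f.reverse * ξ ^ f.natDegree := by
        let _ : Invertible ξ := invertibleOfNonzero hξ0
        have h3 := Polynomial.eval₂_reverse_mul_pow (Int.castRingHom (LaurentSeries L)) ξ f
        rw [invOf_eq_inv] at h3
        exact h3.symm
      have h2 : HahnSeries.C (d : L) * (η * (ξ⁻¹) ^ k) ^ 2 =
          HahnSeries.ofPowerSeries ℤ L (ev _ P f.reverse) := by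
        rw [map_ev, hP]
        have h3 : ev _ ξ⁻¹ f.reverse = ev _ ξ f * (ξ⁻¹) ^ f.natDegree := by
          rw [h1, mul_assoc, ← mul_pow, mul_inv_cancel₀ hξ0, one_pow, mul_one]
        rw [h3, ← hη', hk]
        ring
      have h3 : PowerSeries.constantCoeff (ev _ P f.reverse) = (f.leadingCoeff : L) := by
        rw [map_ev, hP0]
        unfold ev
        rw [eval₂_at_zero, Polynomial.coeff_zero_reverse]
        simp
      have h4 : PowerSeries.constantCoeff (ev _ P f.reverse) ≠ 0 := by
        rw [h3]
        exact_mod_cast leadingCoeff_ne_zero.mpr hf0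
      have h5 := sq_of _ _ _ h2 h4
      rwa [h3] at h5
    · intro K _ _ t t' e β ht ht' htt he hβ
      have hord' : (ξ.map (algebraMap L K)).order < 0 := by rw [order_map]; exact hord
      obtain ⟨hζ0, P, hP, hP0⟩ := inv_of K _ hord'
      set ζ : LaurentSeries K := ξ.map (algebraMap L K) with hζ
      have h2 : HahnSeries.C e * (β * ζ⁻¹) ^ 2 =
          HahnSeries.ofPowerSeries ℤ K ((1 - PowerSeries.C t * P) * (1 - PowerSeries.C t' * P)) := by
        rw [map_mul, map_sub, map_sub, map_mul, map_mul, map_one, HahnSeries.ofPowerSeries_C,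
          HahnSeries.ofPowerSeries_C, hP, mul_pow, ← mul_assoc, ← hβ]
        field_simp
      have h3 : PowerSeries.constantCoeff ((1 - PowerSeries.C t * P) *
          (1 - PowerSeries.C t' * P)) = 1 := by
        rw [map_mul, map_sub, map_sub, map_mul, map_mul, hP0]
        simp
      have h5 := sq_of _ _ _ h2 (by rw [h3]; exact one_ne_zero)
      rwa [h3, mul_one] at h5

end Pool.Agent.QTx
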