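import Pool.Agent.QTx.Targets

/-!
# LOCV2: the local condition at a good prime dividing `d`
-/

open Polynomial NumberField
open Pool.Agent.QTw (IsFunctionField IsCovering HasPoint TwistSelNonempty geomField primesTo cfgs
  idealCount rootCount)

namespace Pool.Agent.QTx

namespace LOCV2_

section na

variable {K : Type*} [NormedField K] [IsUltrametricDist K]

theorem sub_max (x y : K) : ‖x - y‖ ≤ max ‖x‖ ‖y‖ := by
  have := IsUltrametricDist.norm_add_le_max x (-y)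
  rwa [norm_neg, ← sub_eq_add_neg] at this

theorem sub_lt {x y : K} {r : ℝ} (hx : ‖x‖ < r) (hy : ‖y‖ < r) : ‖x - y‖ < r :=
  (sub_max x y).trans_lt (max_lt hx hy)

theorem add_lt {x y : K} {r : ℝ} (hx : ‖x‖ < r) (hy : ‖y‖ < r) : ‖x + y‖ < r :=
  (IsUltrametricDist.norm_add_le_max x y).trans_lt (max_lt hx hy)

theorem norm_eq {x y : K} (h : ‖x - y‖ < ‖y‖) : ‖x‖ = ‖y‖ := by
  refine le_antisymm ?_ ?_
  · have h1 := IsUltrametricDist.norm_add_le_max (x - y) y
    rw [sub_add_cancel] at h1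
    exact h1.trans (max_le h.le le_rfl)
  · by_contra h2
    rw [not_le] at h2
    have h1 := sub_max x (x - y)
    rw [sub_sub_cancel] at h1
    rcases le_max_iff.1 h1 with h3 | h3
    · exact absurd h3 (not_le.2 h2)
    · exact absurd h3 (not_le.2 h)

theorem norm_one_of {x : K} (h : ‖x - 1‖ < 1) : ‖x‖ = 1 := by
  have := norm_eq (x := x) (y := 1) (by rwa [norm_one])
  rwa [norm_one] at this

theorem unit_mul {x y : K} (hx : ‖x - 1‖ < 1) (hy : ‖y - 1‖ < 1) : ‖x * y - 1‖ < 1 := by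
  have e : x * y - 1 = x * (y - 1) + (x - 1) := by ring
  rw [e]
  refine add_lt ?_ hx
  rw [norm_mul, norm_one_of hx, one_mul]
  exact hy

omit [IsUltrametricDist K] in
theorem unit_div {x y : K} (h : ‖x - y‖ < 1) (hy : ‖y‖ = 1) : ‖x / y - 1‖ < 1 := by
  have hy0 : y ≠ 0 := by
    rintro rfl
    rw [norm_zero] at hy
    exact zero_ne_one hy
  have e : x / y - 1 = (x - y) / y := by field_simp
  rw [e, norm_div, hy, div_one]
  exact h

theorem pow_diff {x y : K} (hx : ‖x‖ ≤ 1) (hy : ‖y‖ ≤ 1) (n : ℕ) :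
    ‖x ^ n - y ^ n‖ ≤ ‖x - y‖ := by
  induction n with
  | zero => simp
  | succ n ih =>
    have e : x ^ (n + 1) - y ^ (n + 1) = x * (x ^ n - y ^ n) + (x - y) * y ^ n := by ring
    rw [e]
    refine (IsUltrametricDist.norm_add_le_max _ _).trans (max_le ?_ ?_)
    · rw [norm_mul]
      exact (mul_le_of_le_one_left (norm_nonneg _) hx).trans ih
    · rw [norm_mul, norm_pow]
      exact mul_le_of_le_one_right (norm_nonneg _) (pow_le_one₀ (norm_nonneg _) hy)

theorem poly_diff (P : ℤ[X]) {x y : K} (hx : ‖x‖ ≤ 1) (hy : ‖y‖ ≤ 1) :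
    ‖aeval x P - aeval y P‖ ≤ ‖x - y‖ := by
  induction P using Polynomial.induction_on' with
  | add p q hp hq =>
    rw [map_add, map_add, add_sub_add_comm]
    exact (IsUltrametricDist.norm_add_le_max _ _).trans (max_le hp hq)
  | monomial n a =>
    rw [aeval_monomial, aeval_monomial, ← mul_sub, norm_mul]
    have h1 : ‖(algebraMap ℤ K) a‖ ≤ 1 := by
      rw [eq_intCast]
      exact IsUltrametricDist.norm_intCast_le_one _ _
    exact (mul_le_of_le_one_left (norm_nonneg _) h1).trans (pow_diff hx hy n)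

end na

variable {q : ℕ} [hq : Fact q.Prime]

theorem sq_unit (hq2 : q ≠ 2) {u : ℚ_[q]} (hu : ‖u - 1‖ < 1) : IsSquare u := by
  have hu1 : ‖u‖ = 1 := norm_one_of hu
  let v : ℤ_[q] := ⟨u, hu1.le⟩
  let F : ℤ_[q][X] := X ^ 2 - C v
  have h2 : ‖(2 : ℤ_[q])‖ = 1 := by
    have h3 : ‖((2 : ℕ) : ℚ_[q])‖ = 1 := by
      rw [Padic.norm_natCast_eq_one_iff]
      exact (Nat.coprime_primes hq.out Nat.prime_two).2 hq2
    have h4 : ‖(2 : ℤ_[q])‖ = ‖((2 : ℤ_[q]) : ℚ_[q])‖ := rfl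
    rw [h4]
    push_cast at h3
    exact h3
  have hF : ‖F.aeval (1 : ℤ_[q])‖ < ‖F.derivative.aeval (1 : ℤ_[q])‖ ^ 2 := by
    have e1 : F.aeval (1 : ℤ_[q]) = 1 - v := by simp [F]
    have e2 : F.derivative.aeval (1 : ℤ_[q]) = 2 := by
      simp [F]
      norm_num
    rw [e1, e2, h2, one_pow]
    have e3 : ‖(1 : ℤ_[q]) - v‖ = ‖(1 : ℚ_[q]) - u‖ := rfl
    rw [e3, norm_sub_rev]
    exact hu
  obtain ⟨z, hz, -⟩ := hensels_lemma hF
  refine ⟨(z : ℚ_[q]), ?_⟩
  have e1 : F.aeval z = z ^ 2 - v := by simp [F]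
  rw [e1, sub_eq_zero] at hz
  have h3 : ((z ^ 2 : ℤ_[q]) : ℚ_[q]) = (v : ℚ_[q]) := by rw [hz]
  rw [PadicInt.coe_pow] at h3
  have h4 : (v : ℚ_[q]) = u := rfl
  rw [← h4, ← h3, sq]

theorem exists_nat (x : ℚ_[q]) (hx : ‖x‖ ≤ 1) : ∃ s : ℕ, s < q ∧ ‖x - (s : ℚ_[q])‖ < 1 := by
  obtain ⟨y, hy⟩ : ∃ y : ℤ_[q], (y : ℚ_[q]) = x := ⟨⟨x, hx⟩, rfl⟩
  obtain ⟨s, hs, hs'⟩ := PadicInt.exists_mem_range y
  refine ⟨s, hs, ?_⟩
  rw [PadicInt.maximalIdeal_eq_span_p, Ideal.mem_span_singleton, ← PadicInt.norm_lt_one_iff_dvd]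
    at hs'
  have e : ‖y - (s : ℤ_[q])‖ = ‖x - (s : ℚ_[q])‖ := by
    have e1 : ‖y - (s : ℤ_[q])‖ = ‖((y - (s : ℤ_[q]) : ℤ_[q]) : ℚ_[q])‖ := rfl
    rw [e1, PadicInt.coe_sub, PadicInt.coe_natCast, hy]
  rwa [← e]

theorem norm_sqf {d : ℤ} (hd : Squarefree d) (hqd : (q : ℤ) ∣ d) :
    ‖(d : ℚ_[q])‖ = (q : ℝ)⁻¹ := by
  obtain ⟨m, rfl⟩ := hqd
  have hm : ¬ (q : ℤ) ∣ m := by
    rintro ⟨m', rfl⟩
    have h1 := hd (q : ℤ) ⟨m', by ring⟩
    rw [Int.isUnit_iff] at h1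
    have := hq.out.two_le
    rcases h1 with h1 | h1
    · omega
    · omega
  have h1 : ‖(m : ℚ_[q])‖ = 1 := by
    refine le_antisymm (Padic.norm_int_le_one m) ?_
    by_contra h2
    rw [not_le, Padic.norm_intCast_lt_one_iff] at h2
    exact hm h2
  push_cast
  rw [norm_mul, h1, mul_one, Padic.norm_p]

theorem exists_zpow (x : ℚ_[q]) (hx : x ≠ 0) : ∃ m : ℤ, ‖x‖ = (q : ℝ) ^ m :=
  ⟨_, Padic.norm_eq_zpow_neg_valuation hx⟩

theorem aeval_alg {R : Type} [Field R] [CharZero R] (j : R →+* PadicAlgCl q) (f : ℤ[X]) (a : R) :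
    aeval (j a) f = j (aeval a f) := by
  rw [aeval_def, aeval_def, Polynomial.hom_eval₂]
  congr 1
  exact RingHom.ext_int _ _

theorem mem_range {M : Type} [Field M] (j : M →+* PadicAlgCl q) (a b : M)
    {c : PadicAlgCl q} (h : c ∈ IntermediateField.adjoin ℚ_[q] ({j a, j b} : Set (PadicAlgCl q))) :
    c ∈ IntermediateField.adjoin ℚ_[q] (Set.range j) := by
  refine IntermediateField.adjoin.mono _ _ _ ?_ h
  rintro x (rfl | rfl)
  · exact ⟨a, rfl⟩
  · exact ⟨b, rfl⟩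

theorem lam_alg (x₀ l₀ t : ℚ_[q]) :
    lam (algebraMap ℚ_[q] (PadicAlgCl q) x₀) (algebraMap ℚ_[q] (PadicAlgCl q) l₀)
      (algebraMap ℚ_[q] (PadicAlgCl q) t) = algebraMap ℚ_[q] (PadicAlgCl q) (lam x₀ l₀ t) := by
  unfold lam
  by_cases h : t = x₀
  · rw [if_pos h, if_pos (by rw [h])]
  · rw [if_neg h, if_neg (fun h' => h ((algebraMap ℚ_[q] (PadicAlgCl q)).injective h')), map_sub]

theorem norm_alg (x : ℚ_[q]) : ‖algebraMap ℚ_[q] (PadicAlgCl q) x‖ = ‖x‖ :=
  PadicAlgCl.norm_extends q x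

theorem mem_adjoin {M : Type} [Field M] [CharZero M] (j : M →+* PadicAlgCl q) (a b δ : M)
    (ha : j a ∈ (algebraMap ℚ_[q] (PadicAlgCl q)).fieldRange)
    (hb : j b ∈ (algebraMap ℚ_[q] (PadicAlgCl q)).fieldRange)
    (h : δ ∈ IntermediateField.adjoin ℚ ({a, b} : Set M)) :
    ∃ D : ℚ_[q], algebraMap ℚ_[q] (PadicAlgCl q) D = j δ := by
  let S : Subfield M := (algebraMap ℚ_[q] (PadicAlgCl q)).fieldRange.comap j
  let L : IntermediateField ℚ M :=
    { S with
      algebraMap_mem' := fun r => by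
        show algebraMap ℚ M r ∈ S
        rw [eq_ratCast]
        exact SubfieldClass.ratCast_mem S r }
  have h1 : IntermediateField.adjoin ℚ ({a, b} : Set M) ≤ L := by
    rw [IntermediateField.adjoin_le_iff]
    rintro x (rfl | rfl)
    · exact ha
    · exact hb
  have h2 : j δ ∈ (algebraMap ℚ_[q] (PadicAlgCl q)).fieldRange := h1 h
  exact h2

end LOCV2_

open LOCV2_ in
theorem p_LOCV2 (h1 : T_XCASE) : T_LOCV2 := by
  classical
  intro n g f M _ _ d δ q hq hdeg heven _ hgood hpair hloc hsq hqd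
  have hq1 : 1 < (q : ℝ) := by exact_mod_cast hq.out.one_lt
  have hq0 : (q : ℝ) ≠ 0 := by positivity
  have hinv : ((q : ℝ))⁻¹ = (q : ℝ) ^ (-1 : ℤ) := by rw [zpow_neg_one]
  have hd := norm_sqf hsq hqd
  have hd0 : (d : ℚ_[q]) ≠ 0 := by
    intro h
    rw [h, norm_zero] at hd
    exact (inv_ne_zero hq0) hd.symm
  have hpar : ∀ a b : ℤ, (q : ℝ) ^ a = (q : ℝ) ^ b → a = b := fun a b h =>
    zpow_right_injective₀ (by linarith) (by linarith) h
  rcases hloc with ⟨x₀, l₀, y₀, hpt, hloc⟩ | ⟨hsq', -⟩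
  swap
  · exfalso
    obtain ⟨r, hr⟩ := hsq'
    have h2 := congrArg norm hr
    rw [norm_mul, norm_mul, hd, hgood.lc, mul_one] at h2
    have hr0 : r ≠ 0 := by
      rintro rfl
      rw [norm_zero, mul_zero] at h2
      exact (inv_ne_zero hq0) h2
    obtain ⟨m, hm⟩ := exists_zpow r hr0
    rw [hm, ← zpow_add₀ hq0, hinv] at h2
    have := hpar _ _ h2
    omega
  obtain ⟨t₀, ε, ht₀, hε, hlam0, hlam, hlamt⟩ :=
    (h1 n g f M q d x₀ l₀ y₀ hdeg heven hgood hpt hsq).2 hqd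
  have hy0 : y₀ ≠ 0 := hpt.2.1
  -- the root `t₀` in the algebraic closure
  have hroot0 : aeval (algebraMap ℚ_[q] (PadicAlgCl q) t₀) f = 0 := by
    rw [aeval_alg (algebraMap ℚ_[q] (PadicAlgCl q)) f t₀, ht₀, map_zero]
  have ht₀1 : ‖t₀‖ ≤ 1 := by
    rw [← norm_alg]
    exact hgood.int _ hroot0
  obtain ⟨s, hs, hs'⟩ := exists_nat t₀ ht₀1
  obtain ⟨i, hi⟩ := (hgood.fac _).1 hroot0
  have hi0 : aeval t₀ (g i) = 0 := by
    have h2 := aeval_alg (algebraMap ℚ_[q] (PadicAlgCl q)) (g i) t₀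
    rw [hi] at h2
    exact (map_eq_zero _).1 h2.symm
  have hs1 : ‖(s : ℚ_[q])‖ ≤ 1 := by
    exact_mod_cast Padic.norm_int_le_one (p := q) (s : ℤ)
  have haev : ∀ (P : ℤ[X]) (m : ℤ), aeval (m : ℚ_[q]) P = ((P.eval m : ℤ) : ℚ_[q]) := by
    intro P m
    have := Polynomial.aeval_algebraMap_apply_eq_algebraMap_eval (A := ℚ_[q]) m P
    rwa [eq_intCast, eq_intCast] at this
  have hqi : (q : ℤ) ∣ (g i).eval (s : ℤ) := by
    rw [← Padic.norm_intCast_lt_one_iff, ← haev]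
    have h2 := poly_diff (g i) ht₀1 hs1
    rw [hi0, zero_sub, norm_neg] at h2
    have h3 : ((s : ℤ) : ℚ_[q]) = (s : ℚ_[q]) := by push_cast; rfl
    rw [h3]
    exact h2.trans_lt hs'
  -- the norm of the derivative
  have hder : ‖aeval t₀ (derivative f)‖ = 1 := by
    rw [← norm_alg, ← aeval_alg (algebraMap ℚ_[q] (PadicAlgCl q))]
    exact hgood.der _ hroot0
  have hε1 : ‖1 + ε‖ = 1 := by
    refine norm_one_of ?_
    rw [add_sub_cancel_left]
    exact hε
  -- the roots near `s`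
  have hs'' : ‖algebraMap ℚ_[q] (PadicAlgCl q) t₀ - (s : PadicAlgCl q)‖ < 1 := by
    have e : (s : PadicAlgCl q) = algebraMap ℚ_[q] (PadicAlgCl q) (s : ℚ_[q]) := by simp
    rw [e, ← map_sub, norm_alg]
    exact hs'
  have hnear : ∀ t : PadicAlgCl q, aeval t f = 0 → t ≠ algebraMap ℚ_[q] (PadicAlgCl q) t₀ →
      ¬ ‖t - (s : PadicAlgCl q)‖ < 1 := by
    intro t ht hne hlt
    have h2 := hgood.sep t _ ht hroot0 hne
    have h3 := sub_lt hlt hs''
    rw [sub_sub_sub_cancel_right, h2] at h3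
    exact lt_irrefl _ h3
  -- the norm of `lam`
  have hL : ∀ t : PadicAlgCl q, aeval t f = 0 → ∃ m : ℤ,
      ‖lam (algebraMap ℚ_[q] (PadicAlgCl q) x₀) (algebraMap ℚ_[q] (PadicAlgCl q) l₀) t‖ =
        wq q s t * (q : ℝ) ^ (2 * m) := by
    intro t ht
    by_cases h : t = algebraMap ℚ_[q] (PadicAlgCl q) t₀
    · obtain ⟨m, hm⟩ := exists_zpow y₀ hy0
      refine ⟨m, ?_⟩
      rw [h, lam_alg, norm_alg]
      unfold wq
      rw [if_pos hs'']
      have h2 := congrArg norm hlam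
      rw [norm_mul, norm_mul, norm_mul, norm_pow, hder, hε1, mul_one, mul_one, hd, hm] at h2
      rw [h2, ← zpow_natCast, ← zpow_mul, mul_comm m]
      rfl
    · refine ⟨0, ?_⟩
      unfold wq
      rw [if_neg (hnear t ht h), mul_zero, zpow_zero, mul_one]
      have h2 := hlamt t ht h
      have h3 := hgood.sep _ t hroot0 ht (fun h' => h h'.symm)
      rw [← h3] at h2 ⊢
      exact norm_eq h2
  refine ⟨i, s, hs, hqi, ?_, ?_⟩
  · intro j a b ha hb hab
    have hja : aeval (j a) f = 0 := by rw [aeval_alg, ha, map_zero]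
    have hjb : aeval (j b) f = 0 := by rw [aeval_alg, hb, map_zero]
    obtain ⟨ma, hma⟩ := hL (j a) hja
    obtain ⟨mb, hmb⟩ := hL (j b) hjb
    obtain ⟨c, hc, hc2⟩ := hloc j a b ha hb hab
    have hn := congrArg norm hc2
    rw [norm_pow, norm_mul, norm_mul, hma, hmb] at hn
    have hw : ∀ t : PadicAlgCl q, wq q s t ≠ 0 := by
      intro t
      unfold wq
      split_ifs
      · exact inv_ne_zero hq0
      · exact one_ne_zero
    have hjδ : j (δ a b) ≠ 0 := (map_ne_zero j).mpr (hpair a b ha hb hab).1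
    have hc0 : c ≠ 0 := by
      rintro rfl
      rw [norm_zero, zero_pow two_ne_zero] at hn
      have h2 : wq q s (j a) * (q : ℝ) ^ (2 * ma) * (wq q s (j b) * (q : ℝ) ^ (2 * mb)) *
          ‖j (δ a b)‖ ≠ 0 :=
        mul_ne_zero (mul_ne_zero (mul_ne_zero (hw _) (zpow_ne_zero _ hq0))
          (mul_ne_zero (hw _) (zpow_ne_zero _ hq0))) (norm_ne_zero_iff.mpr hjδ)
      exact h2 hn.symm
    obtain ⟨k, hk⟩ := hgood.val j c hc0 (mem_range j a b hc)
    refine ⟨k - ma - mb, ?_⟩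
    rw [hk] at hn
    have h3 : (q : ℝ) ^ (2 * ma) * (q : ℝ) ^ (2 * mb) ≠ 0 :=
      mul_ne_zero (zpow_ne_zero _ hq0) (zpow_ne_zero _ hq0)
    have h4 : ((q : ℝ) ^ k) ^ 2 = (q : ℝ) ^ (2 * ma) * (q : ℝ) ^ (2 * mb) *
        (q : ℝ) ^ (2 * (k - ma - mb)) := by
      rw [← zpow_add₀ hq0, ← zpow_add₀ hq0, ← zpow_natCast, ← zpow_mul]
      congr 1
      push_cast
      ring
    rw [h4] at hn
    refine mul_left_cancel₀ h3 ?_
    rw [hn]
    ring
  · intro i' s' hs2 hqi' hne j a b ha hb hjas hjbs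
    have hja : aeval (j a) f = 0 := by rw [aeval_alg, ha, map_zero]
    have hjb : aeval (j b) f = 0 := by rw [aeval_alg, hb, map_zero]
    have ea : j a = algebraMap ℚ_[q] (PadicAlgCl q) t₀ := by
      by_contra h
      exact hnear _ hja h hjas
    -- the second root
    obtain ⟨t', ht'1, ht'2⟩ := hgood.hens i' (s' : ℤ) hqi'
    have hgt' : aeval (algebraMap ℚ_[q] (PadicAlgCl q) t') (g i') = 0 := by
      rw [aeval_alg (algebraMap ℚ_[q] (PadicAlgCl q)) (g i') t', ht'1, map_zero]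
    have hroot' : aeval (algebraMap ℚ_[q] (PadicAlgCl q) t') f = 0 :=
      (hgood.fac _).2 ⟨i', hgt'⟩
    have ht'3 : ‖t' - (s' : ℚ_[q])‖ < 1 := by
      have e : ((s' : ℤ) : ℚ_[q]) = (s' : ℚ_[q]) := by push_cast; rfl
      rwa [e] at ht'2
    have eb : j b = algebraMap ℚ_[q] (PadicAlgCl q) t' := by
      by_contra h
      have h2 := hgood.sep _ _ hjb hroot' h
      have h3 : ‖algebraMap ℚ_[q] (PadicAlgCl q) t' - (s' : PadicAlgCl q)‖ < 1 := by
        have e : (s' : PadicAlgCl q) = algebraMap ℚ_[q] (PadicAlgCl q) (s' : ℚ_[q]) := by simp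
        rw [e, ← map_sub, norm_alg]
        exact ht'3
      have h4 := sub_lt hjbs h3
      rw [sub_sub_sub_cancel_right, h2] at h4
      exact lt_irrefl _ h4
    have htt : t' ≠ t₀ := by
      intro h
      apply hne
      have hi' : i' = i := hgood.coprime i' i _ (by rw [← h]; exact hgt') hi
      have h3 : ‖(((s : ℤ) - (s' : ℤ) : ℤ) : ℚ_[q])‖ < 1 := by
        have e : (((s : ℤ) - (s' : ℤ) : ℤ) : ℚ_[q]) = (t' - (s' : ℚ_[q])) - (t₀ - (s : ℚ_[q])) := by
          rw [h]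
          push_cast
          ring
        rw [e]
        exact sub_lt ht'3 hs'
      rw [Padic.norm_intCast_lt_one_iff] at h3
      have h4 : (s : ℤ) - s' = 0 := by
        refine Int.eq_zero_of_abs_lt_dvd h3 ?_
        rw [abs_lt]
        constructor <;> omega
      have h5 : s' = s := by omega
      rw [hi', h5]
    have htt' : algebraMap ℚ_[q] (PadicAlgCl q) t' ≠ algebraMap ℚ_[q] (PadicAlgCl q) t₀ :=
      fun h => htt ((algebraMap ℚ_[q] (PadicAlgCl q)).injective h)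
    have hab : a ≠ b := by
      rintro rfl
      exact htt' (eb.symm.trans ea)
    obtain ⟨c, hc, hc2⟩ := hloc j a b ha hb hab
    obtain ⟨D, hD⟩ := mem_adjoin j a b (δ a b) ⟨t₀, ea.symm⟩ ⟨t', eb.symm⟩ (hpair a b ha hb hab).2
    refine ⟨D, hD, ?_⟩
    -- `c` lies in `ℚ_q`
    have hc' : ∃ c' : ℚ_[q], algebraMap ℚ_[q] (PadicAlgCl q) c' = c := by
      have h2 : IntermediateField.adjoin ℚ_[q] ({j a, j b} : Set (PadicAlgCl q)) ≤ ⊥ := by
        rw [IntermediateField.adjoin_le_iff]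
        rintro x (rfl | rfl)
        · rw [ea]
          exact IntermediateField.algebraMap_mem _ _
        · rw [eb]
          exact IntermediateField.algebraMap_mem _ _
      exact IntermediateField.mem_bot.1 (h2 hc)
    obtain ⟨c', rfl⟩ := hc'
    rw [ea, eb, lam_alg, lam_alg, ← hD, ← map_pow, ← map_mul, ← map_mul] at hc2
    have hc3 : c' ^ 2 = lam x₀ l₀ t₀ * lam x₀ l₀ t' * D :=
      (algebraMap ℚ_[q] (PadicAlgCl q)).injective hc2
    -- the second leading coefficient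
    have h5 : ‖lam x₀ l₀ t' - (t₀ - t')‖ < 1 := by
      have := hlamt _ hroot' htt'
      rwa [lam_alg, ← map_sub, ← map_sub, norm_alg] at this
    have h6 : ‖t₀ - t'‖ = 1 := by
      have := hgood.sep _ _ hroot0 hroot' (fun h => htt' h.symm)
      rwa [← map_sub, norm_alg] at this
    have h7 : ‖lam x₀ l₀ t'‖ = 1 := by
      rw [← h6]
      refine norm_eq ?_
      rw [h6]
      exact h5
    have hl1 : lam x₀ l₀ t' ≠ 0 := by
      intro h
      rw [h, norm_zero] at h7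
      exact zero_ne_one h7
    -- the derivative at `s`
    set A : ℚ_[q] := (((derivative f).eval (s : ℤ) : ℤ) : ℚ_[q]) with hA
    set B : ℚ_[q] := aeval t₀ (derivative f) with hB
    have hBA : ‖B - A‖ < 1 := by
      have h2 := poly_diff (derivative f) ht₀1 hs1
      have e : aeval (s : ℚ_[q]) (derivative f) = A := by
        have := haev (derivative f) (s : ℤ)
        have e2 : ((s : ℤ) : ℚ_[q]) = (s : ℚ_[q]) := by push_cast; rfl
        rwa [e2] at this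
      rw [e] at h2
      exact h2.trans_lt hs'
    have hA1 : ‖A‖ = 1 := by
      rw [← hder]
      refine norm_eq ?_
      rw [hder, norm_sub_rev]
      exact hBA
    have hA0 : A ≠ 0 := by
      intro h
      rw [h, norm_zero] at hA1
      exact zero_ne_one hA1
    set σ : ℚ_[q] := (s : ℚ_[q]) - (s' : ℚ_[q]) with hσ
    have hσ1 : ‖σ - lam x₀ l₀ t'‖ < 1 := by
      have e : σ - lam x₀ l₀ t' = ((t' - (s' : ℚ_[q])) - (t₀ - (s : ℚ_[q]))) -
          (lam x₀ l₀ t' - (t₀ - t')) := by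
        rw [hσ]
        ring
      rw [e]
      exact sub_lt (sub_lt ht'3 hs') h5
    have hu : ‖(B / A) * (1 + ε) * (σ / lam x₀ l₀ t') - 1‖ < 1 := by
      refine unit_mul (unit_mul (unit_div hBA hA1) ?_) (unit_div hσ1 h7)
      rw [add_sub_cancel_left]
      exact hε
    obtain ⟨w, hw⟩ := sq_unit hgood.two hu
    refine ⟨c' / y₀ * A * w, ?_⟩
    have e1 : ((d * (derivative f).eval (s : ℤ) * ((s : ℤ) - (s' : ℤ)) : ℤ) : ℚ_[q]) =
        (d : ℚ_[q]) * A * σ := by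
      rw [hA, hσ]
      push_cast
      ring
    rw [e1]
    have e2 : (c' / y₀ * A * w) * (c' / y₀ * A * w) = c' ^ 2 / y₀ ^ 2 * A ^ 2 * (w * w) := by
      field_simp
    rw [e2, ← hw, hc3]
    have e3 : (d : ℚ_[q]) = lam x₀ l₀ t₀ * B * (1 + ε) / y₀ ^ 2 := by
      rw [hlam]
      field_simp
    rw [e3]
    field_simp

end Pool.Agent.QTx
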