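import Pool.Agent.QTx.Targets

set_option autoImplicit false

/-!
# T_UNR: almost all primes are unramified
-/

open NumberField

namespace Pool.Agent.QTx

namespace UNR_

theorem notMem_sq (K : Type) [Field K] [NumberField K] (l : ℕ) (hl : l.Prime)
    (hd : ¬ (l : ℤ) ∣ discr K) (P : Ideal (𝓞 K)) (hP : P.IsMaximal) (hlP : (l : 𝓞 K) ∈ P) :
    (l : 𝓞 K) ∉ P ^ 2 := by
  intro hsq
  have hp : Prime (l : ℤ) := Nat.prime_iff_prime_int.1 hl
  have hPp : P.IsPrime := hP.isPrime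
  have hlP' : ((l : ℤ) : 𝓞 K) ∈ P := by exact_mod_cast hlP
  have hunr : Algebra.IsUnramifiedAt ℤ P :=
    (not_dvd_discr_iff_forall_mem K (𝓞 K) hp).1 hd P hPp hlP'
  have hlies : P.LiesOver (Ideal.span {(l : ℤ)}) :=
    (Ideal.liesOver_span_iff hPp.ne_top hp).2 hlP'
  have hmap : (Ideal.span {(l : ℤ)}).map (algebraMap ℤ (𝓞 K)) ≤ P := by
    rw [Ideal.map_span, Ideal.span_le]
    rintro _ ⟨x, hx, rfl⟩
    rw [Set.mem_singleton_iff] at hx
    subst hx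
    simpa using hlP
  have hmap2 : (Ideal.span {(l : ℤ)}).map (algebraMap ℤ (𝓞 K)) ≤ P ^ 2 := by
    rw [Ideal.map_span, Ideal.span_le]
    rintro _ ⟨x, hx, rfl⟩
    rw [Set.mem_singleton_iff] at hx
    subst hx
    simpa using hsq
  have hPbot : P ≠ ⊥ := by
    intro h
    rw [h, Ideal.mem_bot] at hlP
    exact hl.ne_zero (by exact_mod_cast hlP)
  have hsp : (Ideal.span {(l : ℤ)}).IsPrime := (Ideal.span_singleton_prime hp.ne_zero).2 hp
  let _ := Localization.AtPrime.algebraOfLiesOver (Ideal.span {(l : ℤ)}) P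
  have h1 := ((Algebra.isUnramifiedAt_iff_map_eq ℤ (Ideal.span {(l : ℤ)}) P).1 hunr).2
  have h2 := Ideal.ramificationIdx'_eq_one_of_map_localization hmap hPbot
    P.primeCompl_le_nonZeroDivisors h1
  exact (Ideal.ramificationIdx'_ne_one_iff hmap).2 hmap2 h2

theorem exists_pow (K : Type) [Field K] [NumberField K] (P : Ideal (𝓞 K)) (hP : P.IsMaximal)
    (z : 𝓞 K) (hz : z ≠ 0) : ∃ k : ℕ, z ∈ P ^ k ∧ z ∉ P ^ (k + 1) := by
  classical
  by_contra hcon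
  push Not at hcon
  have h1 : ∀ k, z ∈ P ^ k := by
    intro k
    induction k with
    | zero => simp
    | succ k ih => exact hcon k ih
  have h2 : z ∈ (⨅ i : ℕ, P ^ i : Ideal (𝓞 K)) := by
    rw [Ideal.mem_iInf]
    exact h1
  rw [Ideal.iInf_pow_eq_bot_of_isDomain P hP.ne_top] at h2
  exact hz h2

end UNR_

theorem p_UNR (h1 : T_EMBQ) (h2 : T_EMBV) : T_UNR := by
  intro K _ _
  refine ⟨(discr K).natAbs, Int.natAbs_pos.2 (discr_ne_zero K), ?_⟩
  intro l _ hlN j z hz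
  have hl : l.Prime := Fact.out
  have hd : ¬ (l : ℤ) ∣ discr K := by
    rwa [← Int.natCast_dvd] at hlN
  obtain ⟨_, P, hP, hlP, hPj⟩ := h1 K l j
  obtain ⟨r, hr0, hr1, hr⟩ := h2 K l P j hlP hPj
  have hnl : ‖j ((l : 𝓞 K) : K)‖ = (l : ℝ)⁻¹ := by
    have h3 : j ((l : 𝓞 K) : K) = algebraMap ℚ_[l] (PadicAlgCl l) (l : ℚ_[l]) := by
      rw [map_natCast]
      have : ((l : 𝓞 K) : K) = (l : K) := by push_cast; rfl
      rw [this, map_natCast]
    rw [h3, norm_algebraMap', Padic.norm_p]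
  have hrl : r = (l : ℝ)⁻¹ := by
    have h4 := hr (l : 𝓞 K) 1 (by simpa using hlP)
      (UNR_.notMem_sq K l hl hd P hP hlP)
    rw [pow_one] at h4
    rw [← h4, hnl]
  have hint : ∀ a : 𝓞 K, a ≠ 0 → ∃ k : ℕ, ‖j (a : K)‖ = ((l : ℝ)⁻¹) ^ k := by
    intro a ha
    obtain ⟨k, hk1, hk2⟩ := UNR_.exists_pow K P hP a ha
    exact ⟨k, by rw [hr a k hk1 hk2, hrl]⟩
  obtain ⟨a, b, hb, hab⟩ := IsFractionRing.div_surjective (A := 𝓞 K) z
  have hb0 : b ≠ 0 := nonZeroDivisors.ne_zero hb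
  have ha0 : a ≠ 0 := by
    rintro rfl
    apply hz
    rw [← hab, map_zero, zero_div]
  obtain ⟨ka, hka⟩ := hint a ha0
  obtain ⟨kb, hkb⟩ := hint b hb0
  refine ⟨(kb : ℤ) - ka, ?_⟩
  have hl0 : (l : ℝ) ≠ 0 := by exact_mod_cast hl.ne_zero
  have h5 : j z = j (a : K) / j (b : K) := by
    rw [← hab, map_div₀]
  rw [h5, norm_div, hka, hkb, zpow_sub₀ hl0, zpow_natCast, zpow_natCast, inv_pow, inv_pow]
  field_simp

end Pool.Agent.QTx
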