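import Pool.Agent.QTx.Targets
import Mathlib

/-!
# XCASE: the position of the point `x₀` at a good prime
-/

open Polynomial

namespace Pool.Agent.QTx

namespace XCASE_

variable {q : ℕ} [hq : Fact q.Prime]

/-- the embedding is isometric -/
lemma nmap (x : ℚ_[q]) : ‖algebraMap ℚ_[q] (PadicAlgCl q) x‖ = ‖x‖ :=
  PadicAlgCl.norm_extends q x

lemma norm_pow_sub (a b : PadicAlgCl q) (ha : ‖a‖ ≤ 1) (hb : ‖b‖ ≤ 1) (n : ℕ) :
    ‖a ^ n - b ^ n‖ ≤ ‖a - b‖ := by
  induction n with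
  | zero => simp
  | succ n ih =>
    have : a ^ (n + 1) - b ^ (n + 1) = a * (a ^ n - b ^ n) + (a - b) * b ^ n := by ring
    rw [this]
    refine (IsUltrametricDist.norm_add_le_max _ _).trans (max_le ?_ ?_)
    · rw [norm_mul]
      calc ‖a‖ * ‖a ^ n - b ^ n‖ ≤ 1 * ‖a - b‖ :=
            mul_le_mul ha ih (norm_nonneg _) zero_le_one
        _ = _ := one_mul _
    · rw [norm_mul, norm_pow]
      calc ‖a - b‖ * ‖b‖ ^ n ≤ ‖a - b‖ * 1 :=
            mul_le_mul_of_nonneg_left (pow_le_one₀ (norm_nonneg _) hb) (norm_nonneg _)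
        _ = _ := mul_one _

lemma norm_int_le (c : ℤ) : ‖(c : PadicAlgCl q)‖ ≤ 1 := by
  rw [← map_intCast (algebraMap ℚ_[q] (PadicAlgCl q)) c, nmap]
  exact Padic.norm_int_le_one c

lemma norm_aeval_sub (p : ℤ[X]) (a b : PadicAlgCl q) (ha : ‖a‖ ≤ 1) (hb : ‖b‖ ≤ 1) :
    ‖aeval a p - aeval b p‖ ≤ ‖a - b‖ := by
  induction p using Polynomial.induction_on' with
  | add p r hp hr =>
    have : aeval a (p + r) - aeval b (p + r) =
        (aeval a p - aeval b p) + (aeval a r - aeval b r) := by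
      rw [map_add, map_add]; ring
    rw [this]
    exact (IsUltrametricDist.norm_add_le_max _ _).trans (max_le hp hr)
  | monomial n c =>
    rw [aeval_monomial, aeval_monomial]
    have : (algebraMap ℤ (PadicAlgCl q)) c = (c : PadicAlgCl q) := rfl
    rw [this, ← mul_sub, norm_mul]
    calc ‖(c : PadicAlgCl q)‖ * ‖a ^ n - b ^ n‖ ≤ 1 * ‖a - b‖ :=
          mul_le_mul (norm_int_le c) (norm_pow_sub a b ha hb n) (norm_nonneg _) zero_le_one
      _ = _ := one_mul _

/-- the norm of the value of `f` -/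
lemma norm_aeval (f : ℤ[X]) (hlc : ‖(f.leadingCoeff : ℚ_[q])‖ = 1) (z : PadicAlgCl q) :
    ‖aeval z f‖ =
      ((f.map (algebraMap ℤ (PadicAlgCl q))).roots.map (fun t => ‖z - t‖)).prod := by
  have hinj : Function.Injective (algebraMap ℤ (PadicAlgCl q)) := by
    intro a b h
    have : (a : PadicAlgCl q) = (b : PadicAlgCl q) := h
    exact_mod_cast this
  have hs : (f.map (algebraMap ℤ (PadicAlgCl q))).Splits := IsAlgClosed.splits _
  have h1 := hs.eq_prod_roots
  have h2 : aeval z f = (f.map (algebraMap ℤ (PadicAlgCl q))).eval z := by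
    rw [aeval_def, eval_map]
  rw [h2]
  conv_lhs => rw [h1]
  rw [eval_mul, eval_C, eval_multiset_prod, norm_mul, leadingCoeff_map_of_injective hinj]
  have h3 : ‖(algebraMap ℤ (PadicAlgCl q)) f.leadingCoeff‖ = 1 := by
    have : (algebraMap ℤ (PadicAlgCl q)) f.leadingCoeff =
        algebraMap ℚ_[q] (PadicAlgCl q) (f.leadingCoeff : ℚ_[q]) := by
      rw [map_intCast]; rfl
    rw [this, nmap, hlc]
  rw [h3, one_mul, Multiset.map_map]
  have h4 : ∀ s : Multiset (PadicAlgCl q),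
      ‖(s.map ((fun p => eval z p) ∘ fun a => X - C a)).prod‖ =
        (s.map (fun t => ‖z - t‖)).prod := by
    intro s
    induction s using Multiset.induction_on with
    | empty => simp
    | cons a s ih =>
      rw [Multiset.map_cons, Multiset.map_cons, Multiset.prod_cons, Multiset.prod_cons, norm_mul,
        ih]
      simp
  exact h4 _

lemma card_roots (f : ℤ[X]) :
    (f.map (algebraMap ℤ (PadicAlgCl q))).roots.card = f.natDegree := by
  have hinj : Function.Injective (algebraMap ℤ (PadicAlgCl q)) := by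
    intro a b h
    have : (a : PadicAlgCl q) = (b : PadicAlgCl q) := h
    exact_mod_cast this
  rw [← natDegree_map_eq_of_injective hinj f]
  exact (IsAlgClosed.splits _).natDegree_eq_card_roots.symm

lemma mem_rts (f : ℤ[X]) (t : PadicAlgCl q)
    (ht : t ∈ (f.map (algebraMap ℤ (PadicAlgCl q))).roots) : aeval t f = 0 := by
  have h := (mem_roots'.1 ht).2
  rw [IsRoot.def, eval_map] at h
  rwa [aeval_def]

lemma multiset_prod_const (s : Multiset (PadicAlgCl q)) (z : PadicAlgCl q) (r : ℝ)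
    (h : ∀ t ∈ s, ‖z - t‖ = r) : (s.map (fun t => ‖z - t‖)).prod = r ^ s.card := by
  rw [Multiset.map_congr rfl h, Multiset.map_const', Multiset.prod_replicate]

/-- norms of nonzero elements of `ℚ_q` -/
lemma norm_zpow (x : ℚ_[q]) (hx : x ≠ 0) : ∃ k : ℤ, ‖x‖ = (q : ℝ) ^ k :=
  ⟨_, Padic.norm_eq_zpow_neg_valuation hx⟩

lemma one_lt_q : (1 : ℝ) < q := by exact_mod_cast hq.out.one_lt

lemma zpow_inj {a b : ℤ} (h : (q : ℝ) ^ a = (q : ℝ) ^ b) : a = b :=
  zpow_right_injective₀ (by linarith [one_lt_q (q := q)]) (ne_of_gt one_lt_q) h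

lemma norm_d_of_dvd (d : ℤ) (hd : Squarefree d) (h : (q : ℤ) ∣ d) :
    ‖(d : ℚ_[q])‖ = (q : ℝ) ^ (-1 : ℤ) := by
  obtain ⟨e, rfl⟩ := h
  have he : ¬ (q : ℤ) ∣ e := by
    rintro ⟨c, rfl⟩
    have h1 : (q : ℤ) * q ∣ (q : ℤ) * ((q : ℤ) * c) := ⟨c, by ring⟩
    have := hd _ h1
    have h2 := Int.isUnit_iff.1 this
    have h3 := hq.out.one_lt
    omega
  have h1 : ‖(e : ℚ_[q])‖ = 1 := by
    have h2 : ¬ ‖(e : ℚ_[q])‖ < 1 := fun h => he (Padic.norm_intCast_lt_one_iff.1 h)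
    exact le_antisymm (Padic.norm_int_le_one e) (not_lt.1 h2)
  push_cast
  rw [norm_mul, Padic.norm_p, h1, mul_one, zpow_neg_one]

lemma norm_d_of_not_dvd (d : ℤ) (h : ¬ (q : ℤ) ∣ d) : ‖(d : ℚ_[q])‖ = 1 :=
  le_antisymm (Padic.norm_int_le_one d)
    (not_lt.1 fun h' => h (Padic.norm_intCast_lt_one_iff.1 h'))

lemma aeval_map (f : ℤ[X]) (x : ℚ_[q]) :
    aeval (algebraMap ℚ_[q] (PadicAlgCl q) x) f = algebraMap ℚ_[q] (PadicAlgCl q) (aeval x f) := by
  rw [aeval_algebraMap_apply]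

/-- Taylor expansion. -/
lemma taylor (f : ℤ[X]) (x t : ℚ_[q]) (hx : ‖x‖ ≤ 1) (ht : ‖t‖ ≤ 1) :
    ∃ R : ℚ_[q], ‖R‖ ≤ 1 ∧
      aeval x f = aeval t f + aeval t (derivative f) * (x - t) + R * (x - t) ^ 2 := by
  let x' : ℤ_[q] := ⟨x, hx⟩
  let t' : ℤ_[q] := ⟨t, ht⟩
  obtain ⟨R, hR⟩ := binomExpansion (f.map (algebraMap ℤ ℤ_[q])) t' (x' - t')
  refine ⟨R, R.2, ?_⟩
  have h1 : t' + (x' - t') = x' := by ring
  rw [h1] at hR
  have h2 := congrArg (algebraMap ℤ_[q] ℚ_[q]) hR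
  rw [map_add, map_add, map_mul, map_mul, map_pow, map_sub] at h2
  have hev : ∀ (p : ℤ[X]) (z : ℤ_[q]),
      algebraMap ℤ_[q] ℚ_[q] ((p.map (algebraMap ℤ ℤ_[q])).eval z) =
        aeval (z : ℚ_[q]) p := by
    intro p z
    rw [eval_map, ← aeval_def, ← aeval_algebraMap_apply]
    rfl
  rw [hev, hev, derivative_map, hev] at h2
  exact h2

end XCASE_

open XCASE_ in
/-- XCASE: the position of the point `x₀` at a good prime. -/
theorem p_XCASE : T_XCASE := by
  intro n g f M _ q _ d x₀ l₀ y₀ hpos heven hG hP hd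
  obtain ⟨hl, hy, hP1, hP2⟩ := hP
  set A := algebraMap ℚ_[q] (PadicAlgCl q) with hA
  have hd0 : d ≠ 0 := hd.ne_zero
  have hq1 : (1 : ℝ) < q := one_lt_q
  have hq0 : (q : ℝ) ≠ 0 := by positivity
  obtain ⟨m, hm⟩ := norm_zpow y₀ hy
  have hlamA : ∀ t : ℚ_[q], lam (A x₀) (A l₀) (A t) = A (lam x₀ l₀ t) := by
    intro t
    unfold lam
    by_cases h : t = x₀
    · simp [h]
    · have h' : A t ≠ A x₀ := fun h' => h (A.injective h')
      rw [if_neg h, if_neg h', map_sub]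
  have hnd : (q : ℤ) ∣ d → ‖(d : ℚ_[q]) * y₀ ^ 2‖ = (q : ℝ) ^ (-1 + 2 * m) := by
    intro h
    rw [norm_mul, norm_pow, norm_d_of_dvd d hd h, hm, zpow_add₀ hq0, mul_comm 2 m, zpow_mul]
    norm_cast
  have hnd' : ¬ (q : ℤ) ∣ d → ‖(d : ℚ_[q]) * y₀ ^ 2‖ = (q : ℝ) ^ (2 * m) := by
    intro h
    rw [norm_mul, norm_pow, norm_d_of_not_dvd d h, hm, one_mul, mul_comm 2 m, zpow_mul]
    norm_cast
  by_cases hx : ‖x₀‖ ≤ 1
  swap
  · -- case (a)
    have hx' : 1 < ‖x₀‖ := not_le.1 hx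
    have hAx : ‖A x₀‖ = ‖x₀‖ := nmap x₀
    have hsub : ∀ t : PadicAlgCl q, aeval t f = 0 → ‖A x₀ - t‖ = ‖x₀‖ := by
      intro t ht
      have h1 := hG.int t ht
      have h2 : ‖A x₀‖ ≠ ‖-t‖ := by
        rw [norm_neg, hAx]; intro h; linarith
      rw [sub_eq_add_neg, IsUltrametricDist.norm_add_eq_max_of_norm_ne_norm h2, norm_neg, hAx]
      exact max_eq_left (by linarith)
    have hlam : ∀ t : PadicAlgCl q, aeval t f = 0 → lam (A x₀) (A l₀) t = A x₀ - t := by
      intro t ht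
      unfold lam
      rw [if_neg]
      intro h
      have := hsub t ht
      rw [h, sub_self, norm_zero] at this
      linarith
    have hx0 : x₀ ≠ 0 := by
      intro h; rw [h, norm_zero] at hx'; linarith
    obtain ⟨k, hk⟩ := norm_zpow x₀ hx0
    constructor
    · intro _ t t' ht ht' _
      refine ⟨k, ?_⟩
      rw [hlam t ht, hlam t' ht', norm_mul, hsub t ht, hsub t' ht', hk, mul_comm 2 k, zpow_mul]
      norm_cast
      rw [sq]
    · intro hqd
      exfalso
      have h1 : ‖aeval x₀ f‖ = ‖x₀‖ ^ f.natDegree := by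
        rw [← nmap, ← aeval_map, norm_aeval f hG.lc, ← card_roots (q := q) f]
        exact multiset_prod_const _ _ _ fun t ht => hsub t (mem_rts f t ht)
      have h2 : aeval x₀ f ≠ 0 := by
        intro h
        rw [h, norm_zero] at h1
        have : 0 < ‖x₀‖ ^ f.natDegree := by positivity
        linarith
      have h3 := hP1 h2
      rw [h3, hnd hqd, hk, ← zpow_natCast, ← zpow_mul] at h1
      have h4 := zpow_inj h1
      obtain ⟨r, hr⟩ := heven
      rw [hr] at h4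
      push_cast at h4
      have h5 : k * ((r : ℤ) + r) = 2 * (k * r) := by ring
      rw [h5] at h4
      omega
  have hAx : ‖A x₀‖ ≤ 1 := by rw [nmap]; exact hx
  by_cases hcl : ∃ t : PadicAlgCl q, aeval t f = 0 ∧ ‖A x₀ - t‖ < 1
  swap
  · -- case (b)
    have hsub : ∀ t : PadicAlgCl q, aeval t f = 0 → ‖A x₀ - t‖ = 1 := by
      intro t ht
      refine le_antisymm ?_ (not_lt.1 fun h => hcl ⟨t, ht, h⟩)
      rw [sub_eq_add_neg]
      refine (IsUltrametricDist.norm_add_le_max _ _).trans (max_le hAx ?_)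
      rw [norm_neg]
      exact hG.int t ht
    have hlam : ∀ t : PadicAlgCl q, aeval t f = 0 → lam (A x₀) (A l₀) t = A x₀ - t := by
      intro t ht
      unfold lam
      rw [if_neg]
      intro h
      have := hsub t ht
      rw [h, sub_self, norm_zero] at this
      linarith
    constructor
    · intro _ t t' ht ht' _
      refine ⟨0, ?_⟩
      rw [hlam t ht, hlam t' ht', norm_mul, hsub t ht, hsub t' ht']
      simp
    · intro hqd
      exfalso
      have h1 : ‖aeval x₀ f‖ = 1 := by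
        rw [← nmap, ← aeval_map, norm_aeval f hG.lc,
          multiset_prod_const _ _ 1 fun t ht => hsub t (mem_rts f t ht), one_pow]
      have h2 : aeval x₀ f ≠ 0 := by
        intro h
        rw [h, norm_zero] at h1
        linarith
      rw [hP1 h2, hnd hqd, ← zpow_zero (q : ℝ)] at h1
      have h4 := zpow_inj h1
      omega
  -- case (c)
  obtain ⟨tL, htL, hclose⟩ := hcl
  -- an integer close to `x₀`
  obtain ⟨s, hs⟩ : ∃ s : ℤ, ‖x₀ - (s : ℚ_[q])‖ < 1 := by
    obtain ⟨s, _, hs⟩ := PadicInt.exists_mem_range (⟨x₀, hx⟩ : ℤ_[q])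
    refine ⟨s, ?_⟩
    rw [PadicInt.maximalIdeal_eq_span_p, Ideal.mem_span_singleton,
      ← PadicInt.norm_lt_one_iff_dvd] at hs
    rw [PadicInt.norm_def] at hs
    push_cast at hs ⊢
    exact hs
  have htL1 : ‖tL‖ ≤ 1 := hG.int tL htL
  have hstL : ‖(s : PadicAlgCl q) - tL‖ < 1 := by
    have h1 : (s : PadicAlgCl q) - tL = -(A (x₀ - (s : ℚ_[q]))) + (A x₀ - tL) := by
      rw [map_sub, map_intCast]; ring
    rw [h1]
    refine (IsUltrametricDist.norm_add_le_max _ _).trans_lt (max_lt ?_ hclose)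
    rw [norm_neg, nmap]
    exact hs
  obtain ⟨i, hi⟩ := (hG.fac tL).1 htL
  have hdvd : (q : ℤ) ∣ (g i).eval s := by
    have h1 := norm_aeval_sub (g i) (s : PadicAlgCl q) tL (norm_int_le s) htL1
    rw [hi, sub_zero] at h1
    have h2 : aeval (s : PadicAlgCl q) (g i) = A (((g i).eval s : ℤ) : ℚ_[q]) := by
      rw [map_intCast]
      have := aeval_algebraMap_apply (PadicAlgCl q) s (g i)
      rw [coe_aeval_eq_eval] at this
      exact this
    rw [h2, nmap] at h1
    exact Padic.norm_intCast_lt_one_iff.1 (lt_of_le_of_lt h1 hstL)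
  obtain ⟨t₀, ht₀g, ht₀s⟩ := hG.hens i s hdvd
  have hAt₀g : aeval (A t₀) (g i) = 0 := by
    rw [hA, aeval_map, ht₀g, map_zero]
  have hAt₀f : aeval (A t₀) f = 0 := (hG.fac _).2 ⟨i, hAt₀g⟩
  have hAt₀ : A t₀ = tL := by
    by_contra hne
    have h1 := hG.sep _ _ hAt₀f htL hne
    have h2 : ‖A t₀ - tL‖ < 1 := by
      have h3 : A t₀ - tL = A (t₀ - (s : ℚ_[q])) + ((s : PadicAlgCl q) - tL) := by
        rw [map_sub, map_intCast]; ring
      rw [h3]
      refine (IsUltrametricDist.norm_add_le_max _ _).trans_lt (max_lt ?_ hstL)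
      rw [nmap]
      exact ht₀s
    linarith
  subst hAt₀
  have ht₀f : aeval t₀ f = 0 := by
    have h := hAt₀f
    rw [hA, aeval_map] at h
    exact (map_eq_zero _).1 h
  have hxt : ‖x₀ - t₀‖ < 1 := by
    rw [← nmap, map_sub]; exact hclose
  have hder : ‖aeval t₀ (derivative f)‖ = 1 := by
    have := hG.der _ hAt₀f
    rwa [hA, aeval_map, nmap] at this
  have hder0 : aeval t₀ (derivative f) ≠ 0 := by
    intro h; rw [h, norm_zero] at hder; linarith
  have ht₀1 : ‖t₀‖ ≤ 1 := by rw [← nmap]; exact hG.int _ hAt₀f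
  have hoth : ∀ t : PadicAlgCl q, aeval t f = 0 → t ≠ A t₀ →
      ‖A x₀ - t‖ = 1 ∧ lam (A x₀) (A l₀) t = A x₀ - t := by
    intro t ht hne
    have h1 := hG.sep _ _ hAt₀f ht (Ne.symm hne)
    have h2 : ‖A x₀ - t‖ = 1 := by
      have h3 : A x₀ - t = (A x₀ - A t₀) + (A t₀ - t) := by ring
      have h4 : ‖A x₀ - A t₀‖ ≠ ‖A t₀ - t‖ := by
        rw [h1]; exact ne_of_lt hclose
      rw [h3, IsUltrametricDist.norm_add_eq_max_of_norm_ne_norm h4, h1]
      exact max_eq_right hclose.le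
    refine ⟨h2, ?_⟩
    unfold lam
    rw [if_neg]
    intro h
    rw [h, sub_self, norm_zero] at h2
    linarith
  -- the formula
  obtain ⟨ε, hε, hlam0, hform⟩ : ∃ ε : ℚ_[q], ‖ε‖ < 1 ∧ lam x₀ l₀ t₀ ≠ 0 ∧
      lam x₀ l₀ t₀ * aeval t₀ (derivative f) * (1 + ε) = (d : ℚ_[q]) * y₀ ^ 2 := by
    by_cases hxt0 : t₀ = x₀
    · subst hxt0
      refine ⟨0, by simp, ?_, ?_⟩
      · simpa [lam] using hl
      · have := hP2 ht₀f
        simp only [lam, if_true, add_zero, mul_one]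
        rw [← this]; ring
    · obtain ⟨R, hR, hT⟩ := taylor f x₀ t₀ hx ht₀1
      rw [ht₀f, zero_add] at hT
      have hxt0' : x₀ - t₀ ≠ 0 := sub_ne_zero.2 (Ne.symm hxt0)
      have hfx : aeval x₀ f ≠ 0 := by
        intro h
        have h1 : aeval (A x₀) f = 0 := by rw [hA, aeval_map, h, map_zero]
        have h2 := hG.sep _ _ h1 hAt₀f (fun h => hxt0 (A.injective h).symm)
        linarith
      refine ⟨(x₀ - t₀) * R / aeval t₀ (derivative f), ?_, ?_, ?_⟩
      · rw [norm_div, norm_mul, hder, div_one]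
        calc ‖x₀ - t₀‖ * ‖R‖ ≤ ‖x₀ - t₀‖ * 1 :=
              mul_le_mul_of_nonneg_left hR (norm_nonneg _)
          _ < 1 := by rw [mul_one]; exact hxt
      · rw [lam, if_neg hxt0]; exact hxt0'
      · rw [lam, if_neg hxt0, ← hP1 hfx, hT]
        field_simp
  have hlamn : ‖lam x₀ l₀ t₀‖ = ‖(d : ℚ_[q]) * y₀ ^ 2‖ := by
    have h1 : ‖(1 : ℚ_[q]) + ε‖ = 1 := by
      have h2 : ‖(1 : ℚ_[q])‖ ≠ ‖ε‖ := by rw [norm_one]; exact ne_of_gt hε
      rw [IsUltrametricDist.norm_add_eq_max_of_norm_ne_norm h2, norm_one]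
      exact max_eq_left hε.le
    rw [← hform, norm_mul, norm_mul, hder, h1, mul_one, mul_one]
  constructor
  · intro hqd t t' ht ht' hne
    by_cases h1 : t = A t₀
    · have h2 := hoth t' ht' (fun h => hne (h1.trans h.symm))
      refine ⟨m, ?_⟩
      rw [h1, hlamA, h2.2, norm_mul, h2.1, nmap, hlamn, hnd' hqd, mul_one]
    · by_cases h2 : t' = A t₀
      · have h3 := hoth t ht h1
        refine ⟨m, ?_⟩
        rw [h2, hlamA, h3.2, norm_mul, h3.1, nmap, hlamn, hnd' hqd, one_mul]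
      · have h3 := hoth t ht h1
        have h4 := hoth t' ht' h2
        refine ⟨0, ?_⟩
        rw [h3.2, h4.2, norm_mul, h3.1, h4.1]
        simp
  · intro _
    refine ⟨t₀, ε, ht₀f, hε, hlam0, hform, ?_⟩
    intro t ht hne
    rw [(hoth t ht hne).2]
    have h1 : A x₀ - t - (A t₀ - t) = A x₀ - A t₀ := by ring
    rw [h1]
    exact hclose

end Pool.Agent.QTx
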