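import Pool.Agent.QTx.Targets

/-!
# QTx-EXPO2: the exponent (sum over the blocks)
-/

open Pool.Agent.QTw (primesTo)

namespace Pool.Agent.QTx

namespace EXPO2_

open Model

/-! ### counting types -/

theorem card_lt_fin {n : ℕ} (r : ℕ) :
    ((Finset.univ : Finset (Fin n)).filter (fun j : Fin n => (j : ℕ) < r)).card ≤ r := by
  classical
  have h := Finset.card_le_card_of_injOn (s := (Finset.univ : Finset (Fin n)).filter
    (fun j : Fin n => (j : ℕ) < r)) (t := Finset.range r) (fun j : Fin n => (j : ℕ))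
    (fun j hj => by
      have := (Finset.mem_filter.1 (Finset.mem_coe.1 hj)).2
      exact Finset.mem_coe.2 (Finset.mem_range.2 this))
    (fun a _ b _ hab => Fin.ext hab)
  simpa using h

open Classical in
theorem card_vld {m n : ℕ} (M : Model m n) (p : ℕ) :
    ((Finset.univ : Finset (Ty n)).filter (fun t => M.vld (p, t))).card ≤
      M.rn p * 2 ^ (M.rn p - 1) := by
  set A : Finset (Fin n) := (Finset.univ : Finset (Fin n)).filter (fun j => (j : ℕ) < M.rn p)
    with hA
  have hsub : (Finset.univ : Finset (Ty n)).filter (fun t => M.vld (p, t)) ⊆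
      A.biUnion (fun j => (A.erase j).powerset.image (fun S => ((j, S) : Ty n))) := by
    rintro ⟨j, S⟩ ht
    have hv := (Finset.mem_filter.1 ht).2
    unfold Model.vld at hv
    simp only at hv
    rw [Finset.mem_biUnion]
    refine ⟨j, ?_, ?_⟩
    · rw [hA]; exact Finset.mem_filter.2 ⟨Finset.mem_univ _, hv.1⟩
    · rw [Finset.mem_image]
      refine ⟨S, ?_, rfl⟩
      rw [Finset.mem_powerset]
      intro x hx
      obtain ⟨h1, h2⟩ := hv.2 x hx
      rw [Finset.mem_erase]
      refine ⟨h2, ?_⟩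
      rw [hA]; exact Finset.mem_filter.2 ⟨Finset.mem_univ _, h1⟩
  have hAr : A.card ≤ M.rn p := card_lt_fin _
  calc ((Finset.univ : Finset (Ty n)).filter (fun t => M.vld (p, t))).card
      ≤ (A.biUnion (fun j => (A.erase j).powerset.image (fun S => ((j, S) : Ty n)))).card :=
        Finset.card_le_card hsub
    _ ≤ ∑ j ∈ A, ((A.erase j).powerset.image (fun S => ((j, S) : Ty n))).card :=
        Finset.card_biUnion_le
    _ ≤ ∑ _j ∈ A, 2 ^ (M.rn p - 1) := by
        refine Finset.sum_le_sum fun j hj => ?_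
        refine Finset.card_image_le.trans ?_
        rw [Finset.card_powerset, Finset.card_erase_of_mem hj]
        exact Nat.pow_le_pow_right (by norm_num) (Nat.sub_le_sub_right hAr 1)
    _ = A.card * 2 ^ (M.rn p - 1) := by rw [Finset.sum_const, smul_eq_mul]
    _ ≤ M.rn p * 2 ^ (M.rn p - 1) := Nat.mul_le_mul_right _ hAr

open Classical in
theorem card_empty {n : ℕ} (P : Ty n → Prop) :
    ((Finset.univ : Finset (Ty n)).filter (fun t => P t ∧ t.2 = ∅)).card ≤ n := by
  have h := Finset.card_le_card_of_injOn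
    (s := (Finset.univ : Finset (Ty n)).filter (fun t => P t ∧ t.2 = ∅))
    (t := (Finset.univ : Finset (Fin n))) (fun t => t.1)
    (fun t _ => Finset.mem_coe.2 (Finset.mem_univ _))
    (fun a ha b hb hab => by
      have h1 := (Finset.mem_filter.1 (Finset.mem_coe.1 ha)).2.2
      have h2 := (Finset.mem_filter.1 (Finset.mem_coe.1 hb)).2.2
      exact Prod.ext hab (h1.trans h2.symm))
  simpa using h

open Classical in
/-- sum of `0, 1`-values over types with empty set -/
theorem sum_empty {n : ℕ} (P : Ty n → Prop) (f : Ty n → ℝ)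
    (hf : ∀ t, f t ≤ if P t ∧ t.2 = ∅ then 1 else 0) : ∑ t, f t ≤ n := by
  calc ∑ t, f t ≤ ∑ t : Ty n, (if P t ∧ t.2 = ∅ then (1 : ℝ) else 0) :=
        Finset.sum_le_sum fun t _ => hf t
    _ = (((Finset.univ : Finset (Ty n)).filter (fun t => P t ∧ t.2 = ∅)).card : ℝ) := by
        rw [Finset.sum_ite, Finset.sum_const_zero, add_zero, Finset.sum_const, nsmul_eq_mul,
          mul_one]
    _ ≤ n := by exact_mod_cast card_empty P

open Classical in
theorem sum_vld {m n : ℕ} (M : Model m n) (hM : M.Bounded) (p : ℕ) (f : Ty n → ℝ)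
    (hf : ∀ t, f t ≤ if M.vld (p, t) then 1 / 2 ^ (M.rn p - 1) else 0) : ∑ t, f t ≤ n := by
  calc ∑ t, f t ≤ ∑ t : Ty n, (if M.vld (p, t) then (1 : ℝ) / 2 ^ (M.rn p - 1) else 0) :=
        Finset.sum_le_sum fun t _ => hf t
    _ = (((Finset.univ : Finset (Ty n)).filter (fun t => M.vld (p, t))).card : ℝ) *
          (1 / 2 ^ (M.rn p - 1)) := by
        rw [Finset.sum_ite, Finset.sum_const_zero, add_zero, Finset.sum_const, nsmul_eq_mul]
    _ ≤ ((M.rn p * 2 ^ (M.rn p - 1) : ℕ) : ℝ) * (1 / 2 ^ (M.rn p - 1)) := by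
        gcongr
        exact card_vld M p
    _ = M.rn p := by
        push_cast
        field_simp
    _ ≤ n := by exact_mod_cast hM.rn_le p

theorem Wm_le {m n : ℕ} (M : Model m n) (hM : M.Bounded) (J : Finset (Fin m)) (p : ℕ) :
    M.Wm J p ≤ n := by
  classical
  unfold Model.Wm
  rw [div_le_iff₀ (by positivity)]
  have h1 : (((Finset.univ : Finset (Ty n)).filter (fun t => M.vld (p, t) ∧ M.lab p t.1 ∈ J ∧
      ∀ i ∈ J, M.Tr p t.1 t.2 i)).card : ℝ) ≤ ((M.rn p * 2 ^ (M.rn p - 1) : ℕ) : ℝ) := by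
    have h2 : ((Finset.univ : Finset (Ty n)).filter (fun t => M.vld (p, t) ∧ M.lab p t.1 ∈ J ∧
      ∀ i ∈ J, M.Tr p t.1 t.2 i)).card ≤
      ((Finset.univ : Finset (Ty n)).filter (fun t => M.vld (p, t))).card := by
      refine Finset.card_le_card fun t ht => ?_
      rw [Finset.mem_filter] at ht ⊢
      exact ⟨ht.1, ht.2.1⟩
    have h3 := h2.trans (card_vld M p)
    convert (Nat.cast_le (α := ℝ)).2 h3
  refine h1.trans ?_
  push_cast
  gcongr
  exact_mod_cast hM.rn_le p

theorem Wm_nonneg {m n : ℕ} (M : Model m n) (J : Finset (Fin m)) (p : ℕ) :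
    0 ≤ M.Wm J p := by
  unfold Model.Wm; positivity

/-! ### bounds for the sum over the types -/

theorem hh_small {m n : ℕ} (M : Model m n) (κ z : ℕ) (I : Finset (Fin m)) (b : Fin m → ℕ)
    (p : ℕ) (hp : p ≤ z) : ∑ t, M.hh κ z I b p t ≤ n := by
  classical
  refine sum_empty (fun t => M.vld (p, t)) _ fun t => ?_
  unfold Model.hh
  by_cases hv : M.vld (p, t)
  · rw [if_neg (not_not.2 hv), if_pos hp]
    by_cases h2 : t.2 = ∅
    · rw [if_pos h2, if_pos ⟨hv, h2⟩]
    · rw [if_neg h2, if_neg (fun h => h2 h.2)]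
  · rw [if_pos hv, if_neg (fun h => hv h.1)]

theorem hh_large {m n : ℕ} (M : Model m n) (hM : M.Bounded) (κ z : ℕ) (I : Finset (Fin m))
    (b : Fin m → ℕ) (p : ℕ) (hp : ¬ p ≤ z) : ∑ t, M.hh κ z I b p t ≤ 2 * n := by
  classical
  have h1 : ∀ t, M.hh κ z I b p t ≤
      (if M.vld (p, t) ∧ t.2 = ∅ then 1 else 0) +
        (if M.vld (p, t) then 1 / 2 ^ (M.rn p - 1) else 0) := by
    intro t
    unfold Model.hh
    by_cases hv : M.vld (p, t)
    · rw [if_neg (not_not.2 hv), if_neg hp, if_pos hv]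
      refine add_le_add ?_ ?_
      · by_cases h2 : t.2 = ∅
        · rw [if_pos (⟨hv, h2⟩ : M.vld (p, t) ∧ t.2 = ∅)]
          split_ifs <;> norm_num
        · rw [if_neg (fun h : _ ∧ _ ∧ t.2 = ∅ => h2 h.2.2)]
          split_ifs <;> norm_num
      · split_ifs
        · exact le_rfl
        · positivity
    · rw [if_pos hv, if_neg (fun h => hv h.1), if_neg hv, add_zero]
  calc ∑ t, M.hh κ z I b p t ≤ ∑ t, ((if M.vld (p, t) ∧ t.2 = ∅ then 1 else 0) +
        (if M.vld (p, t) then 1 / 2 ^ (M.rn p - 1) else 0)) :=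
        Finset.sum_le_sum fun t _ => h1 t
    _ = ∑ t, (if M.vld (p, t) ∧ t.2 = ∅ then (1 : ℝ) else 0) +
        ∑ t, (if M.vld (p, t) then (1 : ℝ) / 2 ^ (M.rn p - 1) else 0) :=
        Finset.sum_add_distrib
    _ ≤ n + n := add_le_add (sum_empty (fun t => M.vld (p, t)) _ fun t => le_rfl)
        (sum_vld M hM p _ fun t => le_rfl)
    _ = 2 * n := by ring

open Classical in
/-- the set of active labels in the block `s` -/
noncomputable def JJ {m : ℕ} (I : Finset (Fin m)) (b : Fin m → ℕ) (s : ℕ) : Finset (Fin m) :=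
  I.filter (fun i => s + 2 ≤ b i)

theorem mem_JJ {m : ℕ} {I : Finset (Fin m)} {b : Fin m → ℕ} {s : ℕ} {i : Fin m} :
    i ∈ JJ I b s ↔ i ∈ I ∧ s + 2 ≤ b i := by
  classical
  unfold JJ; rw [Finset.mem_filter]

theorem hh_clean {m n : ℕ} (M : Model m n) (κ z : ℕ) (I : Finset (Fin m))
    (b : Fin m → ℕ) (p : ℕ) (hp : ¬ p ≤ z)
    (h1 : ∀ i, bk κ p ≠ b i) (h2 : ∀ i, bk κ p + 1 ≠ b i) :
    ∑ t, M.hh κ z I b p t ≤ M.Wm (JJ I b (bk κ p)) p := by
  classical
  have h3 : ∀ t, M.hh κ z I b p t ≤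
      (if M.vld (p, t) ∧ M.lab p t.1 ∈ JJ I b (bk κ p) ∧
        ∀ i ∈ JJ I b (bk κ p), M.Tr p t.1 t.2 i then 1 / 2 ^ (M.rn p - 1) else 0) := by
    intro t
    unfold Model.hh
    by_cases hv : M.vld (p, t)
    · rw [if_neg (not_not.2 hv), if_neg hp, if_neg (fun h => h1 _ h.2.1), zero_add]
      by_cases hc : M.lab p t.1 ∈ I ∧ bk κ p ≤ b (M.lab p t.1) ∧
          ∀ i ∈ I, bk κ p + 2 ≤ b i → M.Tr p t.1 t.2 i
      · rw [if_pos hc, if_pos]
        refine ⟨hv, mem_JJ.2 ⟨hc.1, ?_⟩, fun i hi => ?_⟩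
        · have a1 := h1 (M.lab p t.1)
          have a2 := h2 (M.lab p t.1)
          have a3 := hc.2.1
          omega
        · obtain ⟨h4, h5⟩ := mem_JJ.1 hi
          exact hc.2.2 i h4 h5
      · rw [if_neg hc]
        split_ifs
        · positivity
        · exact le_rfl
    · rw [if_pos hv]
      split_ifs
      · positivity
      · exact le_rfl
  refine (Finset.sum_le_sum fun t _ => h3 t).trans ?_
  unfold Model.Wm
  rw [Finset.sum_ite, Finset.sum_const_zero, add_zero, Finset.sum_const, nsmul_eq_mul,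
    mul_one_div]

theorem Wm_empty {m n : ℕ} (M : Model m n) (p : ℕ) : M.Wm ∅ p = 0 := by
  classical
  unfold Model.Wm
  have : ((Finset.univ : Finset (Ty n)).filter (fun t => M.vld (p, t) ∧
    M.lab p t.1 ∈ (∅ : Finset (Fin m)) ∧ ∀ i ∈ (∅ : Finset (Fin m)), M.Tr p t.1 t.2 i)) = ∅ := by
    refine Finset.filter_eq_empty_iff.2 fun t _ h => ?_
    exact absurd h.2.1 (Finset.notMem_empty _)
  have h0 : (((Finset.univ : Finset (Ty n)).filter (fun t => M.vld (p, t) ∧
    M.lab p t.1 ∈ (∅ : Finset (Fin m)) ∧ ∀ i ∈ (∅ : Finset (Fin m)), M.Tr p t.1 t.2 i)).card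
      : ℝ) = 0 := by
    rw [this]; simp
  rw [div_eq_zero_iff]
  left
  exact_mod_cast h0

/-! ### blocks -/

theorem le_of_bk {κ p k : ℕ} (hp : p.Prime) (h : k ≤ bk κ p) :
    2 ^ ((2 * κ) ^ k) ≤ p := by
  unfold Model.bk at h
  have h2 : 1 ≤ Nat.log 2 p := Nat.log_pos (by norm_num) hp.two_le
  have h3 : (2 * κ) ^ k ≤ Nat.log 2 p := Nat.pow_le_of_le_log (by omega) h
  exact (Nat.pow_le_pow_right (by norm_num) h3).trans (Nat.pow_log_le_self 2 hp.pos.ne')

theorem lt_of_bk {κ p k : ℕ} (hκ : 1 ≤ κ) (h : bk κ p < k) : p < 2 ^ ((2 * κ) ^ k) := by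
  unfold Model.bk at h
  have h3 : Nat.log 2 p < (2 * κ) ^ k := Nat.lt_pow_of_log_lt (by omega) h
  exact Nat.lt_pow_of_log_lt (by norm_num) h3

theorem loglog_pow {κ k : ℕ} (hκ : 1 ≤ κ) :
    Real.log (Real.log ((2 ^ ((2 * κ) ^ k) : ℕ) : ℝ)) =
      k * Real.log (2 * κ) + Real.log (Real.log 2) := by
  have hl2 : 0 < Real.log 2 := Real.log_pos (by norm_num)
  have hκ' : (0 : ℝ) < κ := by exact_mod_cast hκ
  push_cast
  rw [Real.log_pow]
  push_cast
  rw [Real.log_mul (by positivity) hl2.ne', Real.log_pow]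

/-- the sum over an interval of blocks -/
theorem interval {m n κ : ℕ} (M : Model m n) (N : ℕ) (hκ : 1 ≤ κ) (hM : M.Bounded)
    (J : Finset (Fin m)) (c B : ℝ) (hc0 : 0 < c) (hc1 : c ≤ 1)
    (h : ∀ x y : ℕ, 3 ≤ y → y ≤ x → ∑ p ∈ (primesTo N x).filter (fun p => y < p), M.Wm J p / p ≤
      (1 - c) * (Real.log (Real.log x) - Real.log (Real.log y)) + B)
    (s₁ s₂ : ℕ) (hs : s₁ < s₂) (S : Finset ℕ)
    (hS : ∀ p ∈ S, p.Prime ∧ ¬ p ∣ N ∧ s₁ ≤ bk κ p ∧ bk κ p < s₂) :
    ∑ p ∈ S, M.Wm J p / p ≤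
      (1 - c) * (((s₂ : ℝ) - s₁) * Real.log (2 * κ)) + (Real.log 2 + |B| + 4 * n) := by
  classical
  set y : ℕ := max 3 (2 ^ ((2 * κ) ^ s₁) - 1) with hy
  set x : ℕ := 2 ^ ((2 * κ) ^ s₂) with hx
  have hl2 : 0 < Real.log 2 := Real.log_pos (by norm_num)
  have hκ' : (0 : ℝ) < κ := by exact_mod_cast hκ
  have hy3 : 3 ≤ y := le_max_left _ _
  have hmono : (2 * κ) ^ s₁ ≤ (2 * κ) ^ s₂ := Nat.pow_le_pow_right (by omega) hs.le
  have hx4 : 4 ≤ x := by
    have h1 : (2 * κ) ^ 1 ≤ (2 * κ) ^ s₂ := Nat.pow_le_pow_right (by omega) (by omega)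
    rw [pow_one] at h1
    have h2 : 2 ≤ (2 * κ) ^ s₂ := by omega
    calc 4 = 2 ^ 2 := by norm_num
      _ ≤ x := Nat.pow_le_pow_right (by norm_num) h2
  have hyx : y ≤ x := by
    refine max_le (by omega) ?_
    have := Nat.pow_le_pow_right (n := 2) (by norm_num) hmono
    omega
  have hmain := h x y hy3 hyx
  have hllx : Real.log (Real.log x) = s₂ * Real.log (2 * κ) + Real.log (Real.log 2) :=
    loglog_pow hκ
  have hlly : s₁ * Real.log (2 * κ) + Real.log (Real.log 2) - Real.log 2 ≤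
      Real.log (Real.log y) := by
    have h1 : 2 ^ ((2 * κ) ^ s₁) ≤ y + 1 := by
      have := le_max_right 3 (2 ^ ((2 * κ) ^ s₁) - 1)
      omega
    have h2 : 2 ^ ((2 * κ) ^ s₁) ≤ y ^ 2 := by nlinarith
    have h3 : ((2 ^ ((2 * κ) ^ s₁) : ℕ) : ℝ) ≤ (y : ℝ) ^ 2 := by exact_mod_cast h2
    have h4 := Real.log_le_log (by positivity) h3
    rw [Real.log_pow] at h4
    have h5 : Real.log ((2 ^ ((2 * κ) ^ s₁) : ℕ) : ℝ) / 2 ≤ Real.log y := by
      push_cast at h4 ⊢
      linarith
    have h6 : 0 < Real.log ((2 ^ ((2 * κ) ^ s₁) : ℕ) : ℝ) := by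
      push_cast
      rw [Real.log_pow]
      positivity
    have h7 := Real.log_le_log (by positivity) h5
    rw [Real.log_div h6.ne' (by norm_num), loglog_pow hκ] at h7
    exact h7
  -- split the sum
  have hsplit : ∑ p ∈ S, M.Wm J p / p ≤
      ∑ p ∈ (primesTo N x).filter (fun p => y < p), M.Wm J p / p + 4 * n := by
    have h1 : ∑ p ∈ S, M.Wm J p / p = ∑ p ∈ S.filter (fun p => y < p), M.Wm J p / p +
        ∑ p ∈ S.filter (fun p => ¬ y < p), M.Wm J p / p :=
      (Finset.sum_filter_add_sum_filter_not S _ _).symm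
    rw [h1]
    refine add_le_add ?_ ?_
    · refine Finset.sum_le_sum_of_subset_of_nonneg ?_ fun p _ _ =>
        div_nonneg (Wm_nonneg M J p) (Nat.cast_nonneg _)
      intro p hp
      rw [Finset.mem_filter] at hp
      obtain ⟨hp1, hp2⟩ := hp
      obtain ⟨a1, a2, a3, a4⟩ := hS p hp1
      rw [Finset.mem_filter]
      refine ⟨?_, hp2⟩
      unfold QTw.primesTo
      rw [Finset.mem_filter, Finset.mem_range]
      refine ⟨?_, a1, a2⟩
      have := lt_of_bk hκ a4
      omega
    · have hsub : S.filter (fun p => ¬ y < p) ⊆ Finset.range 4 := by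
        intro p hp
        rw [Finset.mem_filter] at hp
        obtain ⟨hp1, hp2⟩ := hp
        obtain ⟨a1, a2, a3, a4⟩ := hS p hp1
        have a5 := le_of_bk a1 a3
        rw [Finset.mem_range]
        by_contra hcon
        have a6 : 2 ^ ((2 * κ) ^ s₁) - 1 < p := by
          have := a1.pos
          omega
        exact hp2 (max_lt (by omega) a6)
      calc ∑ p ∈ S.filter (fun p => ¬ y < p), M.Wm J p / p
          ≤ ∑ p ∈ S.filter (fun p => ¬ y < p), (n : ℝ) := by
            refine Finset.sum_le_sum fun p hp => ?_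
            have hpp := (hS p (Finset.mem_filter.1 hp).1).1
            have h1 : (1 : ℝ) ≤ p := by exact_mod_cast hpp.one_lt.le
            rw [div_le_iff₀ (by linarith)]
            have h2 := Wm_le M hM J p
            have h3 : (0 : ℝ) ≤ n := Nat.cast_nonneg n
            nlinarith
        _ = ((S.filter (fun p => ¬ y < p)).card : ℝ) * n := by
            rw [Finset.sum_const, nsmul_eq_mul]
        _ ≤ 4 * n := by
            gcongr
            have := Finset.card_le_card hsub
            rw [Finset.card_range] at this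
            exact_mod_cast this
  have h8 : (1 - c) * (Real.log (Real.log x) - Real.log (Real.log y)) ≤
      (1 - c) * (((s₂ : ℝ) - s₁) * Real.log (2 * κ)) + Real.log 2 := by
    have h9 : Real.log (Real.log x) - Real.log (Real.log y) ≤
        ((s₂ : ℝ) - s₁) * Real.log (2 * κ) + Real.log 2 := by
      rw [hllx]
      linarith
    have h10 : (1 - c) * (Real.log (Real.log x) - Real.log (Real.log y)) ≤
        (1 - c) * (((s₂ : ℝ) - s₁) * Real.log (2 * κ) + Real.log 2) :=
      mul_le_mul_of_nonneg_left h9 (by linarith)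
    have h11 : (1 - c) * Real.log 2 ≤ Real.log 2 := by nlinarith
    rw [mul_add] at h10
    linarith
  have h12 := le_abs_self B
  linarith

end EXPO2_

open EXPO2_ in
/-- EXPO2: the exponent. -/
theorem p_EXPO2 (h1 : T_BLOCK2) : T_EXPO2 := by
  classical
  intro m n κ M N hκ hM hW
  obtain ⟨B₁, hB₁0, hB₁⟩ := h1 κ hκ
  have hl2 : 0 < Real.log 2 := Real.log_pos (by norm_num)
  have hκ' : (1 : ℝ) ≤ κ := by exact_mod_cast hκ
  have hlκ : 0 ≤ Real.log (2 * κ) := Real.log_nonneg (by linarith)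
  -- constants
  have hex : ∀ J : Finset (Fin m), ∃ c B : ℝ, 0 < c ∧ c ≤ 1 ∧ (J.Nonempty → ∀ x y : ℕ,
      3 ≤ y → y ≤ x → ∑ p ∈ (primesTo N x).filter (fun p => y < p), M.Wm J p / p ≤
      (1 - c) * (Real.log (Real.log x) - Real.log (Real.log y)) + B) := by
    intro J
    by_cases hJ : J.Nonempty
    · obtain ⟨c, hc0, hc1, B, hB⟩ := hW J hJ
      exact ⟨c, B, hc0, hc1, fun _ => hB⟩
    · exact ⟨1, 0, one_pos, le_rfl, fun h => absurd h hJ⟩
  choose cJ BJ hc0 hc1 hBJ using hex
  obtain ⟨J₀, -, hJ₀⟩ := Finset.exists_min_image (Finset.univ : Finset (Finset (Fin m))) cJ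
    ⟨∅, Finset.mem_univ _⟩
  set c := cJ J₀ with hc
  have hcm : ∀ J, c ≤ cJ J := fun J => hJ₀ J (Finset.mem_univ _)
  set BB : ℝ := ∑ J : Finset (Fin m), (Real.log 2 + |BJ J| + 4 * n) with hBB
  have hBB0 : 0 ≤ BB := Finset.sum_nonneg fun J _ => by positivity
  refine ⟨c, m * (2 * n * B₁) + m * (2 * n * B₁) + BB +
    (|Real.log (Real.log 2)| + Real.log (2 * κ)), hc0 J₀, hc1 J₀, ?_⟩
  intro z X I b hX
  set P := (Finset.range (X + 1)).filter Nat.Prime with hP
  have hPm : ∀ p ∈ P, p.Prime ∧ p ≤ X := by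
    intro p hp
    rw [hP, Finset.mem_filter, Finset.mem_range] at hp
    exact ⟨hp.2, by omega⟩
  -- pointwise bound
  have hpt : ∀ p ∈ P, (if p ∣ N then 0 else ∑ t, M.hh κ z I b p t) / (p : ℝ) ≤
      (if p ≤ z then (n : ℝ) / p else 0) +
      (∑ i, if Model.bk κ p = b i then 2 * n * (1 / (p : ℝ)) else 0) +
      (∑ i, if Model.bk κ p = b i - 1 then 2 * n * (1 / (p : ℝ)) else 0) +
      ∑ J ∈ (Finset.univ : Finset (Finset (Fin m))).filter (fun J => J.Nonempty),
        (if JJ I b (Model.bk κ p) = J ∧ ¬ p ∣ N then M.Wm J p / p else 0) := by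
    intro p hp
    obtain ⟨hpp, -⟩ := hPm p hp
    have hp0 : (0 : ℝ) < p := by exact_mod_cast hpp.pos
    have t1 : (0 : ℝ) ≤ (if p ≤ z then (n : ℝ) / p else 0) := by split_ifs <;> positivity
    have t2 : (0 : ℝ) ≤ ∑ i, if Model.bk κ p = b i then 2 * n * (1 / (p : ℝ)) else 0 :=
      Finset.sum_nonneg fun i _ => by split_ifs <;> positivity
    have t3 : (0 : ℝ) ≤ ∑ i, if Model.bk κ p = b i - 1 then 2 * n * (1 / (p : ℝ)) else 0 :=
      Finset.sum_nonneg fun i _ => by split_ifs <;> positivity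
    have t4 : (0 : ℝ) ≤ ∑ J ∈ (Finset.univ : Finset (Finset (Fin m))).filter
        (fun J => J.Nonempty),
        (if JJ I b (Model.bk κ p) = J ∧ ¬ p ∣ N then M.Wm J p / p else 0) :=
      Finset.sum_nonneg fun J _ => by
        split_ifs
        · exact div_nonneg (Wm_nonneg M J p) hp0.le
        · exact le_rfl
    by_cases hN : p ∣ N
    · rw [if_pos hN, zero_div]
      linarith
    rw [if_neg hN]
    by_cases hz : p ≤ z
    · have h2 : (∑ t, M.hh κ z I b p t) / (p : ℝ) ≤ (n : ℝ) / p := by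
        gcongr
        exact hh_small M κ z I b p hz
      rw [if_pos hz]
      linarith
    have hL : (∑ t, M.hh κ z I b p t) / (p : ℝ) ≤ 2 * n * (1 / (p : ℝ)) := by
      rw [mul_one_div]
      gcongr
      exact hh_large M hM κ z I b p hz
    by_cases hd1 : ∃ i, Model.bk κ p = b i
    · obtain ⟨i, hi⟩ := hd1
      have h3 : 2 * n * (1 / (p : ℝ)) ≤
          ∑ i, if Model.bk κ p = b i then 2 * n * (1 / (p : ℝ)) else 0 := by
        refine le_trans ?_ (Finset.single_le_sum (f := fun i =>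
          if Model.bk κ p = b i then 2 * n * (1 / (p : ℝ)) else 0)
          (fun i _ => by split_ifs <;> positivity) (Finset.mem_univ i))
        rw [if_pos hi]
      linarith
    by_cases hd2 : ∃ i, Model.bk κ p + 1 = b i
    · obtain ⟨i, hi⟩ := hd2
      have h3 : 2 * n * (1 / (p : ℝ)) ≤
          ∑ i, if Model.bk κ p = b i - 1 then 2 * n * (1 / (p : ℝ)) else 0 := by
        refine le_trans ?_ (Finset.single_le_sum (f := fun i =>
          if Model.bk κ p = b i - 1 then 2 * n * (1 / (p : ℝ)) else 0)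
          (fun i _ => by split_ifs <;> positivity) (Finset.mem_univ i))
        rw [if_pos (by omega)]
      linarith
    have hcl := hh_clean M κ z I b p hz (fun i hi => hd1 ⟨i, hi⟩) (fun i hi => hd2 ⟨i, hi⟩)
    have hcl' : (∑ t, M.hh κ z I b p t) / (p : ℝ) ≤ M.Wm (JJ I b (Model.bk κ p)) p / p := by
      gcongr
    have h5 : M.Wm (JJ I b (Model.bk κ p)) p / p ≤
        ∑ J ∈ (Finset.univ : Finset (Finset (Fin m))).filter (fun J => J.Nonempty),
        (if JJ I b (Model.bk κ p) = J ∧ ¬ p ∣ N then M.Wm J p / p else 0) := by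
      by_cases hJ : (JJ I b (Model.bk κ p)).Nonempty
      · refine le_trans ?_ (Finset.single_le_sum (f := fun J =>
          if JJ I b (Model.bk κ p) = J ∧ ¬ p ∣ N then M.Wm J p / (p : ℝ) else 0)
          (fun J _ => ?_) (Finset.mem_filter.2 ⟨Finset.mem_univ (JJ I b (Model.bk κ p)), hJ⟩))
        · rw [if_pos ⟨rfl, hN⟩]
        · split_ifs
          · exact div_nonneg (Wm_nonneg M J p) hp0.le
          · exact le_rfl
      · rw [Finset.not_nonempty_iff_eq_empty] at hJ
        rw [hJ, Wm_empty, zero_div]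
        rw [hJ] at t4
        exact t4
    linarith
  refine (Finset.sum_le_sum hpt).trans ?_
  rw [Finset.sum_add_distrib, Finset.sum_add_distrib, Finset.sum_add_distrib]
  -- first sum
  have hs1 : ∑ p ∈ P, (if p ≤ z then (n : ℝ) / p else 0) ≤
      n * (∑ p ∈ (Finset.range (z + 1)).filter Nat.Prime, 1 / (p : ℝ)) := by
    rw [← Finset.sum_filter, Finset.mul_sum]
    have h2 : ∀ p : ℕ, (n : ℝ) / p = n * (1 / (p : ℝ)) := fun p => by ring
    simp_rw [h2]
    refine Finset.sum_le_sum_of_subset_of_nonneg ?_ fun p _ _ => by positivity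
    intro p hp
    rw [Finset.mem_filter] at hp ⊢
    rw [Finset.mem_range]
    exact ⟨by omega, (hPm p hp.1).1⟩
  -- dirty blocks
  have hdirty : ∀ b' : Fin m → ℕ,
      ∑ p ∈ P, (∑ i, if Model.bk κ p = b' i then 2 * n * (1 / (p : ℝ)) else 0) ≤
        m * (2 * n * B₁) := by
    intro b'
    rw [Finset.sum_comm]
    calc ∑ i : Fin m, ∑ p ∈ P, (if Model.bk κ p = b' i then 2 * n * (1 / (p : ℝ)) else 0)
        ≤ ∑ _i : Fin m, 2 * n * B₁ := by
          refine Finset.sum_le_sum fun i _ => ?_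
          rw [← Finset.sum_filter, ← Finset.mul_sum, hP, Finset.filter_filter]
          gcongr
          exact hB₁ (b' i) X
      _ = m * (2 * n * B₁) := by
          rw [Finset.sum_const, Finset.card_univ, Fintype.card_fin, nsmul_eq_mul]
  have hs2 := hdirty b
  have hs3 := hdirty (fun i => b i - 1)
  -- clean blocks
  set K := Model.bk κ X with hK
  have hKp : ∀ p ∈ P, Model.bk κ p ≤ K := by
    intro p hp
    rw [hK]
    unfold Model.bk
    exact Nat.log_mono_right (Nat.log_mono_right (hPm p hp).2)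
  set AA : Finset (Fin m) → Finset ℕ := fun J =>
    (Finset.range (K + 1)).filter (fun s => JJ I b s = J) with hAA
  have hJJmono : ∀ s s' : ℕ, s ≤ s' → JJ I b s' ⊆ JJ I b s := by
    intro s s' hss i hi
    rw [mem_JJ] at hi ⊢
    exact ⟨hi.1, by omega⟩
  have hs4 : ∑ p ∈ P, ∑ J ∈ (Finset.univ : Finset (Finset (Fin m))).filter (fun J => J.Nonempty),
        (if JJ I b (Model.bk κ p) = J ∧ ¬ p ∣ N then M.Wm J p / (p : ℝ) else 0) ≤
      (1 - c) * ((K + 1 : ℝ) * Real.log (2 * κ)) + BB := by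
    rw [Finset.sum_comm]
    have hone : ∀ J : Finset (Fin m), J.Nonempty →
        ∑ p ∈ P, (if JJ I b (Model.bk κ p) = J ∧ ¬ p ∣ N then M.Wm J p / (p : ℝ) else 0) ≤
          (1 - c) * (((AA J).card : ℝ) * Real.log (2 * κ)) +
            (Real.log 2 + |BJ J| + 4 * n) := by
      intro J hJ
      rw [← Finset.sum_filter]
      by_cases hne : (AA J).Nonempty
      · have hs₁m := Finset.min'_mem (AA J) hne
        have hs₂m := Finset.max'_mem (AA J) hne
        set s₁ := (AA J).min' hne with hs₁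
        set s₂ := (AA J).max' hne with hs₂
        have hle : s₁ ≤ s₂ := Finset.min'_le _ _ hs₂m
        have hAeq : AA J = Finset.Icc s₁ s₂ := by
          ext s
          constructor
          · intro hs
            exact Finset.mem_Icc.2 ⟨Finset.min'_le _ _ hs, Finset.le_max' _ _ hs⟩
          · intro hs
            rw [Finset.mem_Icc] at hs
            rw [hAA] at hs₁m hs₂m
            simp only [Finset.mem_filter, Finset.mem_range] at hs₁m hs₂m
            rw [hAA]
            simp only [Finset.mem_filter, Finset.mem_range]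
            refine ⟨by omega, ?_⟩
            apply Finset.Subset.antisymm
            · have := hJJmono s₁ s hs.1
              rwa [hs₁m.2] at this
            · have := hJJmono s s₂ hs.2
              rwa [hs₂m.2] at this
        have hcard : ((AA J).card : ℝ) = ((s₂ + 1 : ℕ) : ℝ) - s₁ := by
          rw [hAeq, Nat.card_Icc, Nat.cast_sub (by omega)]
        have hint := interval M N hκ hM J (cJ J) (BJ J) (hc0 J) (hc1 J) (hBJ J hJ) s₁ (s₂ + 1)
          (by omega) (P.filter (fun p => JJ I b (Model.bk κ p) = J ∧ ¬ p ∣ N)) (by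
            intro p hp
            rw [Finset.mem_filter] at hp
            obtain ⟨hp1, hp2, hp3⟩ := hp
            have hmem : Model.bk κ p ∈ AA J := by
              rw [hAA]
              simp only [Finset.mem_filter, Finset.mem_range]
              exact ⟨by have := hKp p hp1; omega, hp2⟩
            rw [hAeq, Finset.mem_Icc] at hmem
            exact ⟨(hPm p hp1).1, hp3, hmem.1, by omega⟩)
        rw [← hcard] at hint
        refine hint.trans ?_
        have h6 : (1 - cJ J) * (((AA J).card : ℝ) * Real.log (2 * κ)) ≤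
            (1 - c) * (((AA J).card : ℝ) * Real.log (2 * κ)) := by
          refine mul_le_mul_of_nonneg_right ?_ (mul_nonneg (Nat.cast_nonneg _) hlκ)
          linarith [hcm J]
        linarith
      · have hemp : P.filter (fun p => JJ I b (Model.bk κ p) = J ∧ ¬ p ∣ N) = ∅ := by
          refine Finset.filter_eq_empty_iff.2 fun p hp hcon => ?_
          refine hne ⟨Model.bk κ p, ?_⟩
          rw [hAA]
          simp only [Finset.mem_filter, Finset.mem_range]
          exact ⟨by have := hKp p hp; omega, hcon.1⟩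
        rw [hemp, Finset.sum_empty]
        have h7 : 0 ≤ 1 - c := by linarith [hc1 J₀]
        exact add_nonneg (mul_nonneg h7 (mul_nonneg (Nat.cast_nonneg _) hlκ)) (by positivity)
    have hsum : ∑ J ∈ (Finset.univ : Finset (Finset (Fin m))).filter (fun J => J.Nonempty),
        ((1 - c) * (((AA J).card : ℝ) * Real.log (2 * κ)) +
            (Real.log 2 + |BJ J| + 4 * n)) ≤
        ∑ J : Finset (Fin m),
        ((1 - c) * (((AA J).card : ℝ) * Real.log (2 * κ)) +
            (Real.log 2 + |BJ J| + 4 * n)) := by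
      refine Finset.sum_le_sum_of_subset_of_nonneg (Finset.filter_subset _ _) fun J _ _ => ?_
      have h7 : 0 ≤ 1 - c := by linarith [hc1 J₀]
      exact add_nonneg (mul_nonneg h7 (mul_nonneg (Nat.cast_nonneg _) hlκ)) (by positivity)
    refine (Finset.sum_le_sum fun J hJ => hone J (Finset.mem_filter.1 hJ).2).trans
      (hsum.trans ?_)
    rw [Finset.sum_add_distrib, ← Finset.mul_sum, ← Finset.sum_mul]
    have hcards : ∑ J : Finset (Fin m), ((AA J).card : ℝ) = K + 1 := by
      have h8 := Finset.card_eq_sum_card_fiberwise (f := fun s => JJ I b s)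
        (s := Finset.range (K + 1)) (t := (Finset.univ : Finset (Finset (Fin m))))
        (fun s _ => Finset.mem_coe.2 (Finset.mem_univ _))
      rw [Finset.card_range] at h8
      have h9 : ((K + 1 : ℕ) : ℝ) = ∑ J : Finset (Fin m), ((AA J).card : ℝ) := by
        rw [h8, Nat.cast_sum]
      rw [← h9]
      push_cast
      ring
    rw [hcards]
  -- the length
  have hKlog : (K : ℝ) * Real.log (2 * κ) + Real.log (Real.log 2) ≤
      Real.log (Real.log X) := by
    rw [← loglog_pow hκ]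
    have h9 : 2 ^ ((2 * κ) ^ K) ≤ X := by
      have h10 : 1 ≤ Nat.log 2 X := Nat.log_pos (by norm_num) (by omega)
      have h11 : (2 * κ) ^ K ≤ Nat.log 2 X := by
        rw [hK]
        unfold Model.bk
        exact Nat.pow_log_le_self _ (by omega)
      exact (Nat.pow_le_pow_right (by norm_num) h11).trans (Nat.pow_log_le_self 2 (by omega))
    have h12 : ((2 ^ ((2 * κ) ^ K) : ℕ) : ℝ) ≤ X := by exact_mod_cast h9
    have h13 : 0 < Real.log ((2 ^ ((2 * κ) ^ K) : ℕ) : ℝ) := by
      have : (0 : ℝ) < κ := by linarith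
      push_cast
      rw [Real.log_pow]
      positivity
    have h14 : (0 : ℝ) < ((2 ^ ((2 * κ) ^ K) : ℕ) : ℝ) := by positivity
    exact Real.log_le_log h13 (Real.log_le_log h14 h12)
  have hfin : (1 - c) * ((K + 1 : ℝ) * Real.log (2 * κ)) ≤
      (1 - c) * Real.log (Real.log X) + (|Real.log (Real.log 2)| + Real.log (2 * κ)) := by
    have h7 : 0 ≤ 1 - c := by linarith [hc1 J₀]
    have h8 : 1 - c ≤ 1 := by linarith [hc0 J₀]
    have h15 : (K + 1 : ℝ) * Real.log (2 * κ) ≤
        Real.log (Real.log X) + (|Real.log (Real.log 2)| + Real.log (2 * κ)) := by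
      have := neg_abs_le (Real.log (Real.log 2))
      nlinarith
    calc (1 - c) * ((K + 1 : ℝ) * Real.log (2 * κ))
        ≤ (1 - c) * (Real.log (Real.log X) +
          (|Real.log (Real.log 2)| + Real.log (2 * κ))) :=
          mul_le_mul_of_nonneg_left h15 h7
      _ = (1 - c) * Real.log (Real.log X) +
          (1 - c) * (|Real.log (Real.log 2)| + Real.log (2 * κ)) := by ring
      _ ≤ _ := by
          have h16 : 0 ≤ |Real.log (Real.log 2)| + Real.log (2 * κ) := by positivity
          nlinarith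
  linarith

end Pool.Agent.QTx
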