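import Pool.Agent.QTx.Defs
import Pool.Agent.QTw.Targets

/-!
# Targets of the project QTx (100 per cent of quadratic twists, every hyperelliptic curve)
-/

open Polynomial NumberField
open Pool.Agent.QTw (IsFunctionField IsCovering HasPoint TwistSelNonempty geomField primesTo cfgs
  idealCount rootCount)

namespace Pool.Agent.QTx

/-- A family of integral polynomials, irreducible over `ℚ`, of degree at least two, pairwise
coprime. -/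
structure GoodFactors2 {ι : Type} (g : ι → ℤ[X]) : Prop where
  irr : ∀ i, Irreducible ((g i).map (Int.castRingHom ℚ))
  deg : ∀ i, 2 ≤ (g i).natDegree
  coprime : ∀ i j, i ≠ j →
    IsCoprime ((g i).map (Int.castRingHom ℚ)) ((g j).map (Int.castRingHom ℚ))

/-- FACT2: factorisation of `f`. -/
def T_FACT2 : Prop := ∀ f : ℤ[X], 0 < f.natDegree → Squarefree (f.map (Int.castRingHom ℚ)) →
  (∀ r : ℚ, aeval r f ≠ 0) →
  ∃ (n : ℕ) (g : Fin (n + 1) → ℤ[X]) (c : ℚ), c ≠ 0 ∧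
    f.map (Int.castRingHom ℚ) = C c * ∏ i, (g i).map (Int.castRingHom ℚ) ∧ GoodFactors2 g

/-! ## Part R: rational points -/

/-- SQPS: a power series with constant term 1 is a square. -/
def T_SQPS : Prop := ∀ P : PowerSeries ℚ, PowerSeries.constantCoeff P = 1 →
  ∃ Q : PowerSeries ℚ, PowerSeries.constantCoeff Q = 1 ∧ Q ^ 2 = P

/-- RATPT: rational Weierstrass points. -/
def T_RATPT : Prop := ∀ (f : ℤ[X]) (d : ℤ), d ≠ 0 → 0 < f.natDegree →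
  Squarefree (f.map (Int.castRingHom ℚ)) → (Odd f.natDegree ∨ ∃ r : ℚ, aeval r f = 0) →
  TwistHasPoint f d

/-! ## Part A: geometry -/

/-- EVEN2: the divisor of `(x - θ)(x - θ')` is even. -/
def T_EVEN2 : Prop := ∀ (k K : Type) [Field k] [CharZero k] [IsAlgClosed k] [Field K]
  [Algebra k K] (x y : K) (d : ℤ) (f : ℤ[X]) (θ θ' : k), d ≠ 0 →
  Squarefree (f.map (Int.castRingHom ℚ)) → Even f.natDegree → (d : K) * y ^ 2 = aeval x f →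
  Transcendental k x → aeval θ f = 0 → aeval θ' f = 0 → θ ≠ θ' →
  ∀ w : Valuation K (WithZero (Multiplicative ℤ)),
    (∀ c : k, c ≠ 0 → w (algebraMap k K c) = 1) →
    ∃ z : K, z ≠ 0 ∧ w ((x - algebraMap k K θ) * (x - algebraMap k K θ')) = w z ^ 2

/-- SQRT2: on a 2-covering the function `(x - θ)(x - θ')` becomes a square over `Q̄`. -/
def T_SQRT2 : Prop := ∀ (F E : Type) [Field F] [CharZero F] [Field E] [CharZero E] [Algebra F E]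
  (x y : F) (f : ℤ[X]) (d : ℤ) (θ θ' : AlgebraicClosure E), IsFunctionField f d x y →
  IsCovering 2 F E → d ≠ 0 → Squarefree (f.map (Int.castRingHom ℚ)) → Even f.natDegree →
  aeval θ f = 0 → aeval θ' f = 0 → θ ≠ θ' →
  ∃ γ : AlgebraicClosure E,
    γ ∈ IntermediateField.adjoin (algebraicClosure ℚ (AlgebraicClosure E))
      (Set.range (algebraMap E (AlgebraicClosure E))) ∧
    γ ^ 2 = (algebraMap E (AlgebraicClosure E) (algebraMap F E x) - θ) *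
      (algebraMap E (AlgebraicClosure E) (algebraMap F E x) - θ')

/-- DESC2: an element of `E` that is a square in `E Q̄` is an algebraic number times a square
in `E`. -/
def T_DESC2 : Prop := ∀ (E Ω : Type) [Field E] [CharZero E] [Field Ω] [CharZero Ω] [Algebra E Ω]
  [Algebra.IsAlgebraic E Ω] [IsAlgClosed Ω] (b : E) (γ : Ω), b ≠ 0 →
  γ ∈ IntermediateField.adjoin (algebraicClosure ℚ Ω) (Set.range (algebraMap E Ω)) →
  γ ^ 2 = algebraMap E Ω b →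
  ∃ δ : E, δ ≠ 0 ∧ IsAlgebraic ℚ δ ∧ ∃ β : E, b = δ * β ^ 2

/-- CONST2: algebraic numbers in `E(S)`. -/
def T_CONST2 : Prop := ∀ (E : Type) [Field E] [CharZero E],
  (∀ z : E, IsAlgebraic ℚ z → ∃ q : ℚ, z = q) →
  ∀ S : Set (AlgebraicClosure E), S.Finite → (∀ a ∈ S, IsAlgebraic ℚ a) →
  ∀ z ∈ IntermediateField.adjoin E S, IsAlgebraic ℚ z → z ∈ IntermediateField.adjoin ℚ S

/-- EXT2: homomorphisms of `E` and of `ℚ(S)` extend to `E(S)`. -/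
def T_EXT2 : Prop := ∀ (E : Type) [Field E] [CharZero E],
  (∀ z : E, IsAlgebraic ℚ z → ∃ q : ℚ, z = q) →
  ∀ S : Set (AlgebraicClosure E), S.Finite → (∀ a ∈ S, IsAlgebraic ℚ a) →
  ∀ (R : Type) [Field R] (φ : E →+* R) (j : IntermediateField.adjoin ℚ S →+* R),
  ∃ Φ : IntermediateField.adjoin E S →+* R,
    (∀ e : E, Φ (algebraMap E _ e) = φ e) ∧
    ∀ (z : AlgebraicClosure E) (hz : z ∈ IntermediateField.adjoin ℚ S)
      (hz' : z ∈ IntermediateField.adjoin E S), Φ ⟨z, hz'⟩ = j ⟨z, hz⟩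

open Classical in
/-- the leading coefficient of `ξ - t`, where `ξ = x₀ + l₀ T^m + …` -/
noncomputable def lam {L : Type} [Field L] (x₀ l₀ t : L) : L := if t = x₀ then l₀ else x₀ - t

/-- The data of a point with finite `x`-coordinate `x₀`. -/
def PtData {L : Type} [Field L] (f : ℤ[X]) (d : ℤ) (x₀ l₀ y₀ : L) : Prop :=
  l₀ ≠ 0 ∧ y₀ ≠ 0 ∧ (aeval x₀ f ≠ 0 → aeval x₀ f = (d : L) * y₀ ^ 2) ∧
    (aeval x₀ f = 0 → aeval x₀ (derivative f) * l₀ = (d : L) * y₀ ^ 2)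

/-- LEAD: leading coefficients of Laurent series. -/
def T_LEAD : Prop := ∀ (L : Type) [Field L] [CharZero L] (ξ η : LaurentSeries L) (f : ℤ[X])
  (d : ℤ), d ≠ 0 → 0 < f.natDegree → Even f.natDegree →
  Squarefree (f.map (Int.castRingHom ℚ)) → Transcendental ℚ ξ →
  (d : LaurentSeries L) * η ^ 2 = aeval ξ f →
  (∃ x₀ l₀ y₀ : L, PtData f d x₀ l₀ y₀ ∧
    ∀ (K : Type) [Field K] [Algebra L K] (t t' e : K) (β : LaurentSeries K),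
      aeval t f = 0 → aeval t' f = 0 → t ≠ t' → e ≠ 0 →
      (ξ.map (algebraMap L K) - HahnSeries.C t) * (ξ.map (algebraMap L K) - HahnSeries.C t') =
        HahnSeries.C e * β ^ 2 →
      IsSquare (lam (algebraMap L K x₀) (algebraMap L K l₀) t *
        lam (algebraMap L K x₀) (algebraMap L K l₀) t' * e)) ∨
  (IsSquare ((d : L) * (f.leadingCoeff : L)) ∧
    ∀ (K : Type) [Field K] [Algebra L K] (t t' e : K) (β : LaurentSeries K),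
      aeval t f = 0 → aeval t' f = 0 → t ≠ t' → e ≠ 0 →
      (ξ.map (algebraMap L K) - HahnSeries.C t) * (ξ.map (algebraMap L K) - HahnSeries.C t') =
        HahnSeries.C e * β ^ 2 → IsSquare e)

/-- PAIR: the class of `(x - a)(x - b)`. -/
def T_PAIR : Prop := ∀ (F E : Type) [Field F] [CharZero F] [Field E] [CharZero E] [Algebra F E]
  (x y : F) (f : ℤ[X]) (d : ℤ) (a b : AlgebraicClosure E), IsFunctionField f d x y →
  IsCovering 2 F E → d ≠ 0 → Squarefree (f.map (Int.castRingHom ℚ)) → Even f.natDegree →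
  aeval a f = 0 → aeval b f = 0 → a ≠ b →
  ∃ δ ∈ IntermediateField.adjoin ℚ ({a, b} : Set (AlgebraicClosure E)), δ ≠ 0 ∧
    ∃ β ∈ IntermediateField.adjoin E ({a, b} : Set (AlgebraicClosure E)),
      (algebraMap E (AlgebraicClosure E) (algebraMap F E x) - a) *
        (algebraMap E (AlgebraicClosure E) (algebraMap F E x) - b) = δ * β ^ 2

/-- LOCE: the identity `(x - a)(x - b) = δ β²` over the completion. -/
def T_LOCE : Prop := ∀ (E : Type) [Field E] [CharZero E],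
  (∀ z : E, IsAlgebraic ℚ z → ∃ q : ℚ, z = q) →
  ∀ (x : E) (a b δ β : AlgebraicClosure E), IsAlgebraic ℚ a → IsAlgebraic ℚ b →
  δ ∈ IntermediateField.adjoin ℚ ({a, b} : Set (AlgebraicClosure E)) →
  β ∈ IntermediateField.adjoin E ({a, b} : Set (AlgebraicClosure E)) →
  (algebraMap E (AlgebraicClosure E) x - a) * (algebraMap E (AlgebraicClosure E) x - b) =
    δ * β ^ 2 →
  ∀ (q : ℕ) [Fact q.Prime] (φ : E →+* LaurentSeries ℚ_[q]) (M : Type) [Field M] [CharZero M]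
    (i₀ : M →+* AlgebraicClosure E) (j : M →+* PadicAlgCl q) (a' b' δ' : M),
    i₀ a' = a → i₀ b' = b → i₀ δ' = δ →
    ∃ (t t' e : IntermediateField.adjoin ℚ_[q] ({j a', j b'} : Set (PadicAlgCl q)))
      (β' : LaurentSeries (IntermediateField.adjoin ℚ_[q] ({j a', j b'} : Set (PadicAlgCl q)))),
      (t : PadicAlgCl q) = j a' ∧ (t' : PadicAlgCl q) = j b' ∧ (e : PadicAlgCl q) = j δ' ∧
      ((φ x).map (algebraMap ℚ_[q]
          (IntermediateField.adjoin ℚ_[q] ({j a', j b'} : Set (PadicAlgCl q)))) -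
          HahnSeries.C t) *
        ((φ x).map (algebraMap ℚ_[q]
          (IntermediateField.adjoin ℚ_[q] ({j a', j b'} : Set (PadicAlgCl q)))) -
          HahnSeries.C t') = HahnSeries.C e * β' ^ 2

/-- The local condition at `q` for the classes `δ a b` (`a, b` roots of `f` in `M`). -/
def LocPair (q : ℕ) [Fact q.Prime] {M : Type} [Field M] (f : ℤ[X]) (d : ℤ) (δ : M → M → M) :
    Prop :=
  (∃ x₀ l₀ y₀ : ℚ_[q], PtData f d x₀ l₀ y₀ ∧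
    ∀ (j : M →+* PadicAlgCl q) (a b : M), aeval a f = 0 → aeval b f = 0 → a ≠ b →
      ∃ c ∈ IntermediateField.adjoin ℚ_[q] ({j a, j b} : Set (PadicAlgCl q)),
        c ^ 2 = lam (algebraMap ℚ_[q] (PadicAlgCl q) x₀) (algebraMap ℚ_[q] (PadicAlgCl q) l₀) (j a) *
          lam (algebraMap ℚ_[q] (PadicAlgCl q) x₀) (algebraMap ℚ_[q] (PadicAlgCl q) l₀) (j b) *
          j (δ a b)) ∨
  (IsSquare ((d : ℚ_[q]) * (f.leadingCoeff : ℚ_[q])) ∧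
    ∀ (j : M →+* PadicAlgCl q) (a b : M), aeval a f = 0 → aeval b f = 0 → a ≠ b →
      ∃ c ∈ IntermediateField.adjoin ℚ_[q] ({j a, j b} : Set (PadicAlgCl q)), c ^ 2 = j (δ a b))

/-- the pair classes: `δ a b` is a nonzero element of `ℚ(a, b)` -/
def IsPairClass {M : Type} [Field M] [CharZero M] (f : ℤ[X]) (δ : M → M → M) : Prop :=
  ∀ a b : M, aeval a f = 0 → aeval b f = 0 → a ≠ b →
    δ a b ≠ 0 ∧ δ a b ∈ IntermediateField.adjoin ℚ ({a, b} : Set M)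

/-- GEOM2: result of part A. -/
def T_GEOM2 : Prop := ∀ (f : ℤ[X]) (d : ℤ), 0 < f.natDegree → Even f.natDegree →
  Squarefree (f.map (Int.castRingHom ℚ)) → d ≠ 0 → TwistSelNonempty 2 f d →
  ∀ (M : Type) [Field M] [NumberField M], ∃ δ : M → M → M, IsPairClass f δ ∧
    ∀ (q : ℕ) [Fact q.Prime], LocPair q f d δ

/-! ## Part B: algebraic number theory -/

/-- CLREP: representatives of the ideal classes. -/
def T_CLREP : Prop := ∀ (K : Type) [Field K] [NumberField K], ∃ N : ℕ, 0 < N ∧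
  ∀ I : Ideal (𝓞 K), I ≠ ⊥ → ∃ J : Ideal (𝓞 K), J ≠ ⊥ ∧ Ideal.absNorm J ∣ N ∧
    ∃ α : 𝓞 K, I * J = Ideal.span {α}

/-- BALG: balanced generators. -/
def T_BALG : Prop := ∀ (K : Type) [Field K] [NumberField K], ∃ C : ℝ, 0 < C ∧
  ∀ α : 𝓞 K, α ≠ 0 → ∃ u : (𝓞 K)ˣ, ∀ σ : K →+* ℂ,
    ‖σ (((u : 𝓞 K) * α : 𝓞 K) : K)‖ ≤
      C * ((Algebra.norm ℤ α).natAbs : ℝ) ^ ((1 : ℝ) / Module.finrank ℚ K)

/-- VAND: the coefficients of an integer in a power basis. -/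
def T_VAND : Prop := ∀ (K : Type) [Field K] [NumberField K] (θ : K),
  IntermediateField.adjoin ℚ {θ} = ⊤ → ∃ (D : ℕ) (C : ℝ), 0 < D ∧ 0 < C ∧
    ∀ α : 𝓞 K, ∃ P : ℤ[X], P.natDegree < Module.finrank ℚ K ∧ aeval θ P = (D : K) * (α : K) ∧
      ∀ R : ℝ, (∀ σ : K →+* ℂ, ‖σ (α : K)‖ ≤ R) → ∀ k, |(P.coeff k : ℝ)| ≤ C * R

/-- EMBQ: the prime ideal of an embedding. -/
def T_EMBQ : Prop := ∀ (K : Type) [Field K] [NumberField K] (l : ℕ) [Fact l.Prime]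
  (j : K →+* PadicAlgCl l), (∀ z : 𝓞 K, ‖j (z : K)‖ ≤ 1) ∧
    ∃ P : Ideal (𝓞 K), P.IsMaximal ∧ (l : 𝓞 K) ∈ P ∧ ∀ z : 𝓞 K, z ∈ P ↔ ‖j (z : K)‖ < 1

/-- EMBP: every prime ideal comes from an embedding. -/
def T_EMBP : Prop := ∀ (K : Type) [Field K] [NumberField K] (l : ℕ) [Fact l.Prime]
  (P : Ideal (𝓞 K)), P.IsMaximal → (l : 𝓞 K) ∈ P →
    ∃ j : K →+* PadicAlgCl l, ∀ z : 𝓞 K, z ∈ P ↔ ‖j (z : K)‖ < 1

/-- EMBV: the absolute value of an embedding in terms of its prime ideal. -/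
def T_EMBV : Prop := ∀ (K : Type) [Field K] [NumberField K] (l : ℕ) [Fact l.Prime]
  (P : Ideal (𝓞 K)) (j : K →+* PadicAlgCl l), (l : 𝓞 K) ∈ P →
    (∀ z : 𝓞 K, z ∈ P ↔ ‖j (z : K)‖ < 1) →
    ∃ r : ℝ, 0 < r ∧ r < 1 ∧ ∀ (z : 𝓞 K) (k : ℕ), z ∈ P ^ k → z ∉ P ^ (k + 1) →
      ‖j (z : K)‖ = r ^ k

/-- UNR: almost all primes are unramified. -/
def T_UNR : Prop := ∀ (K : Type) [Field K] [NumberField K], ∃ N : ℕ, 0 < N ∧
  ∀ (l : ℕ) [Fact l.Prime], ¬ l ∣ N → ∀ (j : K →+* PadicAlgCl l) (z : K), z ≠ 0 →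
    ∃ k : ℤ, ‖j z‖ = (l : ℝ) ^ k

/-- DENS: `K` is dense in its completion. -/
def T_DENS : Prop := ∀ (K : Type) [Field K] [NumberField K] (l : ℕ) [Fact l.Prime]
  (j : K →+* PadicAlgCl l) (c : PadicAlgCl l),
  c ∈ IntermediateField.adjoin ℚ_[l] (Set.range j) → c ≠ 0 → ∃ z : K, ‖j z‖ = ‖c‖

/-- FINSEL: finiteness of the Selmer group of `K` for a finite set of primes. -/
def T_FINSEL : Prop := ∀ (K : Type) [Field K] [NumberField K] (N : ℕ), 0 < N →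
  ∃ H : Finset K, (∀ h ∈ H, h ≠ 0) ∧ ∀ η : K, η ≠ 0 →
    (∀ (l : ℕ) [Fact l.Prime], ¬ l ∣ N → ∀ j : K →+* PadicAlgCl l,
      ∃ k : ℤ, ‖j η‖ = (l : ℝ) ^ (2 * k)) →
    ∃ h ∈ H, ∃ κ : K, κ ≠ 0 ∧ η = h * κ ^ 2

/-- PRIME: the prime ideal belonging to a root modulo `q`. -/
def T_PRIME : Prop := ∀ (K : Type) [Field K] [NumberField K] (θ : K) (g : ℤ[X]),
  Irreducible (g.map (Int.castRingHom ℚ)) → aeval θ g = 0 →
  IntermediateField.adjoin ℚ {θ} = ⊤ → ∃ N : ℕ, 0 < N ∧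
    ∀ q s : ℕ, q.Prime → ¬ q ∣ N → s < q → (q : ℤ) ∣ g.eval (s : ℤ) →
      ∃ P : Ideal (𝓞 K), P.IsMaximal ∧ Ideal.absNorm P = q ∧
        ∀ (l : ℕ) [Fact l.Prime], ¬ l ∣ N → ∀ j : K →+* PadicAlgCl l,
          ((∀ z : 𝓞 K, z ∈ P ↔ ‖j (z : K)‖ < 1) ↔
            (l = q ∧ ‖j θ - (s : PadicAlgCl l)‖ < 1))

/-- The polynomial `P` represents (up to the primes dividing `N`) the prime ideal `(q, θ - s)`
of `ℚ[X]/(g)`. -/
def IsPi (g : ℤ[X]) (N q s : ℕ) (P : ℤ[X]) : Prop :=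
  ∀ (l : ℕ) [Fact l.Prime], ¬ l ∣ N → ∀ t : PadicAlgCl l, aeval t g = 0 →
    ‖aeval t P‖ = if l = q ∧ ‖t - (s : PadicAlgCl l)‖ < 1 then ((q : ℝ))⁻¹ else 1

/-- PRIN: generators with small coefficients of the prime ideals of degree one. -/
def T_PRIN : Prop := ∀ g : ℤ[X], Irreducible (g.map (Int.castRingHom ℚ)) →
  ∃ (N : ℕ) (P : ℕ → ℕ → ℤ[X]) (C : ℝ), 0 < N ∧ 0 < C ∧
    ∀ q s : ℕ, q.Prime → ¬ q ∣ N → s < q → (q : ℤ) ∣ g.eval (s : ℤ) →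
      IsPi g N q s (P q s) ∧ (P q s).natDegree < g.natDegree ∧
      ∀ k, |((P q s).coeff k : ℝ)| ≤ C * (q : ℝ) ^ ((1 : ℝ) / g.natDegree)

/-- The properties of the family `P` -/
def PiProp {ι : Type} (g : ι → ℤ[X]) (N : ℕ) (P : ι → ℕ → ℕ → ℤ[X]) : Prop :=
  ∀ (i : ι) (q s : ℕ), q.Prime → ¬ q ∣ N → s < q → (q : ℤ) ∣ (g i).eval (s : ℤ) →
    IsPi (g i) N q s (P i q s)

/-- The size of the coefficients of the family `P` -/
def CoefProp {ι : Type} (g : ι → ℤ[X]) (N : ℕ) (P : ι → ℕ → ℕ → ℤ[X]) (C : ℝ) : Prop :=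
  ∀ (i : ι) (q s : ℕ), q.Prime → ¬ q ∣ N → s < q → (q : ℤ) ∣ (g i).eval (s : ℤ) →
    (P i q s).natDegree < (g i).natDegree ∧
    ∀ k, |((P i q s).coeff k : ℝ)| ≤ C * (q : ℝ) ^ ((1 : ℝ) / (g i).natDegree)

/-- A good prime. -/
structure GoodAt {ι : Type} (g : ι → ℤ[X]) (f : ℤ[X]) (M : Type) [Field M] (q : ℕ)
    [Fact q.Prime] : Prop where
  two : q ≠ 2
  lc : ‖(f.leadingCoeff : ℚ_[q])‖ = 1
  int : ∀ t : PadicAlgCl q, aeval t f = 0 → ‖t‖ ≤ 1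
  sep : ∀ t t' : PadicAlgCl q, aeval t f = 0 → aeval t' f = 0 → t ≠ t' → ‖t - t'‖ = 1
  val : ∀ (j : M →+* PadicAlgCl q) (c : PadicAlgCl q), c ≠ 0 →
    c ∈ IntermediateField.adjoin ℚ_[q] (Set.range j) → ∃ k : ℤ, ‖c‖ = (q : ℝ) ^ k
  hens : ∀ (i : ι) (s : ℤ), (q : ℤ) ∣ (g i).eval s →
    ∃ t : ℚ_[q], aeval t (g i) = 0 ∧ ‖t - (s : ℚ_[q])‖ < 1
  fac : ∀ t : PadicAlgCl q, aeval t f = 0 ↔ ∃ i, aeval t (g i) = 0
  der : ∀ t : PadicAlgCl q, aeval t f = 0 → ‖aeval t (derivative f)‖ = 1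
  coprime : ∀ (i i' : ι) (t : PadicAlgCl q), aeval t (g i) = 0 → aeval t (g i') = 0 → i = i'

/-- GOODQ: almost all primes are good. -/
def T_GOODQ : Prop := ∀ (n : ℕ) (g : Fin (n + 1) → ℤ[X]) (c : ℚ) (f : ℤ[X]), GoodFactors2 g →
  c ≠ 0 → f.map (Int.castRingHom ℚ) = C c * ∏ i, (g i).map (Int.castRingHom ℚ) →
  ∀ (M : Type) [Field M] [NumberField M], ∃ N : ℕ, 0 < N ∧
    ∀ (q : ℕ) [Fact q.Prime], ¬ q ∣ N → GoodAt g f M q

/-- XCASE: the position of the point `x₀` at a good prime. -/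
def T_XCASE : Prop := ∀ (n : ℕ) (g : Fin (n + 1) → ℤ[X]) (f : ℤ[X]) (M : Type) [Field M]
  (q : ℕ) [Fact q.Prime] (d : ℤ) (x₀ l₀ y₀ : ℚ_[q]), 0 < f.natDegree → Even f.natDegree →
  GoodAt g f M q → PtData f d x₀ l₀ y₀ → Squarefree d →
  (¬ (q : ℤ) ∣ d → ∀ t t' : PadicAlgCl q, aeval t f = 0 → aeval t' f = 0 → t ≠ t' →
    ∃ k : ℤ, ‖lam (algebraMap ℚ_[q] (PadicAlgCl q) x₀) (algebraMap ℚ_[q] (PadicAlgCl q) l₀) t *
      lam (algebraMap ℚ_[q] (PadicAlgCl q) x₀) (algebraMap ℚ_[q] (PadicAlgCl q) l₀) t'‖ =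
        (q : ℝ) ^ (2 * k)) ∧
  ((q : ℤ) ∣ d → ∃ t₀ ε : ℚ_[q], aeval t₀ f = 0 ∧ ‖ε‖ < 1 ∧ lam x₀ l₀ t₀ ≠ 0 ∧
    lam x₀ l₀ t₀ * aeval t₀ (derivative f) * (1 + ε) = (d : ℚ_[q]) * y₀ ^ 2 ∧
    ∀ t : PadicAlgCl q, aeval t f = 0 → t ≠ algebraMap ℚ_[q] (PadicAlgCl q) t₀ →
      ‖lam (algebraMap ℚ_[q] (PadicAlgCl q) x₀) (algebraMap ℚ_[q] (PadicAlgCl q) l₀) t -
        (algebraMap ℚ_[q] (PadicAlgCl q) t₀ - t)‖ < 1)

/-- LOCV1: the local condition at a good prime not dividing `d`. -/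
def T_LOCV1 : Prop := ∀ (n : ℕ) (g : Fin (n + 1) → ℤ[X]) (f : ℤ[X]) (M : Type) [Field M]
  [NumberField M] (d : ℤ) (δ : M → M → M) (q : ℕ) [Fact q.Prime], 0 < f.natDegree →
  Even f.natDegree → (f.map (algebraMap ℤ M)).Splits → GoodAt g f M q → IsPairClass f δ →
  LocPair q f d δ → Squarefree d → ¬ (q : ℤ) ∣ d →
  ∀ (j : M →+* PadicAlgCl q) (a b : M), aeval a f = 0 → aeval b f = 0 → a ≠ b →
    ∃ k : ℤ, ‖j (δ a b)‖ = (q : ℝ) ^ (2 * k)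

open Classical in
/-- the weight of the root `t` for the root `s` modulo `q` -/
noncomputable def wq (q : ℕ) [Fact q.Prime] (s : ℕ) (t : PadicAlgCl q) : ℝ :=
  if ‖t - (s : PadicAlgCl q)‖ < 1 then ((q : ℝ))⁻¹ else 1

/-- LOCV2: the local condition at a good prime dividing `d`. -/
def T_LOCV2 : Prop := ∀ (n : ℕ) (g : Fin (n + 1) → ℤ[X]) (f : ℤ[X]) (M : Type) [Field M]
  [NumberField M] (d : ℤ) (δ : M → M → M) (q : ℕ) [Fact q.Prime], 0 < f.natDegree →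
  Even f.natDegree → (f.map (algebraMap ℤ M)).Splits → GoodAt g f M q → IsPairClass f δ →
  LocPair q f d δ → Squarefree d → (q : ℤ) ∣ d →
  ∃ (i : Fin (n + 1)) (s : ℕ), s < q ∧ (q : ℤ) ∣ (g i).eval (s : ℤ) ∧
    (∀ (j : M →+* PadicAlgCl q) (a b : M), aeval a f = 0 → aeval b f = 0 → a ≠ b →
      ∃ k : ℤ, ‖j (δ a b)‖ * wq q s (j a) * wq q s (j b) = (q : ℝ) ^ (2 * k)) ∧
    ∀ (i' : Fin (n + 1)) (s' : ℕ), s' < q → (q : ℤ) ∣ (g i').eval (s' : ℤ) → (i', s') ≠ (i, s) →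
      ∀ (j : M →+* PadicAlgCl q) (a b : M), aeval a f = 0 → aeval b f = 0 →
        ‖j a - (s : PadicAlgCl q)‖ < 1 → ‖j b - (s' : PadicAlgCl q)‖ < 1 →
        ∃ D : ℚ_[q], algebraMap ℚ_[q] (PadicAlgCl q) D = j (δ a b) ∧
          IsSquare (D * ((d * (derivative f).eval (s : ℤ) * (s - s') : ℤ) : ℚ_[q]))

section Concrete

variable {ι : Type} [Fintype ι] [DecidableEq ι]

open Classical in
/-- the roots modulo `p` of the polynomials `g i`, for `p` prime, not dividing `N` -/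
noncomputable def Rts (g : ι → ℤ[X]) (N p : ℕ) : Finset (ι × ℕ) :=
  if p.Prime ∧ ¬ p ∣ N then
    ((Finset.univ : Finset ι) ×ˢ Finset.range p).filter
      (fun r => (p : ℤ) ∣ (g r.1).eval (r.2 : ℤ))
  else ∅

/-- the value at the root `ρ'` modulo `p` of the element belonging to the root `ρ` modulo `q` -/
noncomputable def vl (P : ι → ℕ → ℕ → ℤ[X]) (ρ' : ι × ℕ) (q : ℕ) (ρ : ι × ℕ) : ℤ :=
  if ρ'.1 = ρ.1 then (P ρ.1 q ρ.2).eval (ρ'.2 : ℤ) else 1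

/-- the sign of the pair of roots `ρp, ρ'` modulo `p` and the root `ρ` modulo `q` -/
noncomputable def sg (P : ι → ℕ → ℕ → ℤ[X]) (p : ℕ) (ρp ρ' : ι × ℕ) (q : ℕ) (ρ : ι × ℕ) : ℤ :=
  jacobiSym ((q : ℤ) * vl P ρp q ρ * vl P ρ' q ρ) p

/-- The combinatorial condition on (the prime factors of) `m`. -/
def Bad2 (g : ι → ℤ[X]) (N : ℕ) (P : ι → ℕ → ℕ → ℤ[X])
    (c : ℕ → ι × ℕ → ι × ℕ → ℤ) (m : ℕ) : Prop :=
  ∃ ρ : ℕ → ι × ℕ, ∀ p ∈ m.primeFactors, ¬ p ∣ N → ρ p ∈ Rts g N p ∧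
    ∀ ρ' ∈ Rts g N p, ρ' ≠ ρ p →
      c p (ρ p) ρ' * ∏ q ∈ m.primeFactors.filter (fun q => ¬ q ∣ N ∧ q ≠ p),
        sg P p (ρ p) ρ' q (ρ q) = 1

/-- the trivial characters -/
def TrG (g : ι → ℤ[X]) (N p : ℕ) (ρ : ι × ℕ) (S : Finset (ι × ℕ)) (i : ι) : Prop :=
  (Even S.card ∧ ∀ ρ' ∈ S, ρ'.1 ≠ i) ∨
    (Odd S.card ∧ ((Rts g N p).filter (fun r => r.1 = i)).card = (g i).natDegree ∧
      ∀ ρ' ∈ Rts g N p, ρ'.1 = i → ρ' ∈ insert ρ S)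

end Concrete

open Classical in
/-- the value at the root `a` of `f` of the element belonging to the root `ρ` modulo `q` -/
noncomputable def pv {ι M : Type} [Field M] (g : ι → ℤ[X]) (P : ι → ℕ → ℕ → ℤ[X]) (q : ℕ)
    (ρ : ι × ℕ) (a : M) : M :=
  if aeval a (g ρ.1) = 0 then aeval a (P ρ.1 q ρ.2) else 1

open Classical in
/-- GLOB: the classes `δ` are known up to finitely many possibilities. -/
def T_GLOB : Prop := ∀ (n : ℕ) (g : Fin (n + 1) → ℤ[X]) (f : ℤ[X]) (M : Type) [Field M]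
  [NumberField M] (N : ℕ) (P : Fin (n + 1) → ℕ → ℕ → ℤ[X]), 0 < f.natDegree → 0 < N →
  PiProp g N P → (∀ (q : ℕ) [Fact q.Prime], ¬ q ∣ N → GoodAt g f M q) →
  ∃ (h : ℕ) (hv : Fin h → M → M → M),
    (∀ η a b, hv η a b ≠ 0 ∧ hv η a b ∈ IntermediateField.adjoin ℚ ({a, b} : Set M)) ∧
    ∀ (d : ℤ) (δ : M → M → M) (ρ : ℕ → Fin (n + 1) × ℕ), Squarefree d → IsPairClass f δ →
      (∀ (q : ℕ) [Fact q.Prime], ¬ q ∣ N → ¬ (q : ℤ) ∣ d → ∀ (j : M →+* PadicAlgCl q) (a b : M),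
        aeval a f = 0 → aeval b f = 0 → a ≠ b → ∃ k : ℤ, ‖j (δ a b)‖ = (q : ℝ) ^ (2 * k)) →
      (∀ (q : ℕ) [Fact q.Prime], ¬ q ∣ N → (q : ℤ) ∣ d → ρ q ∈ Rts g N q ∧
        ∀ (j : M →+* PadicAlgCl q) (a b : M), aeval a f = 0 → aeval b f = 0 → a ≠ b →
          ∃ k : ℤ, ‖j (δ a b)‖ * wq q (ρ q).2 (j a) * wq q (ρ q).2 (j b) = (q : ℝ) ^ (2 * k)) →
      ∃ η : Fin h, ∀ a b : M, aeval a f = 0 → aeval b f = 0 → a ≠ b →
        ∃ κ ∈ IntermediateField.adjoin ℚ ({a, b} : Set M), κ ≠ 0 ∧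
          δ a b * ∏ q ∈ d.natAbs.primeFactors.filter (fun q => ¬ q ∣ N),
            (pv g P q (ρ q) a * pv g P q (ρ q) b) = hv η a b * κ ^ 2

open Classical in
/-- LOCJ: the conditions at a good prime dividing `d` in terms of Jacobi symbols. -/
def T_LOCJ : Prop := ∀ (n : ℕ) (g : Fin (n + 1) → ℤ[X]) (f : ℤ[X]) (M : Type) [Field M]
  [NumberField M] (N : ℕ) (P : Fin (n + 1) → ℕ → ℕ → ℤ[X]) (p : ℕ) [Fact p.Prime] (d e : ℤ)
  (ρ : ℕ → Fin (n + 1) × ℕ) (ρ' : Fin (n + 1) × ℕ) (J : M →+* PadicAlgCl p) (a b δ h κ : M)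
  (D : ℚ_[p]), 0 < f.natDegree → 0 < N → PiProp g N P → GoodAt g f M p → ¬ p ∣ N →
  Squarefree d → (p : ℤ) ∣ d →
  d = e * ∏ q ∈ d.natAbs.primeFactors.filter (fun q => ¬ q ∣ N), (q : ℤ) →
  (∀ q ∈ d.natAbs.primeFactors, ¬ q ∣ N → ρ q ∈ Rts g N q) →
  ρ' ∈ Rts g N p → ρ' ≠ ρ p → aeval a f = 0 → aeval b f = 0 →
  ‖J a - ((ρ p).2 : PadicAlgCl p)‖ < 1 → ‖J b - (ρ'.2 : PadicAlgCl p)‖ < 1 →
  δ ≠ 0 → h ≠ 0 → κ ≠ 0 → h ∈ IntermediateField.adjoin ℚ ({a, b} : Set M) →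
  κ ∈ IntermediateField.adjoin ℚ ({a, b} : Set M) →
  δ * ∏ q ∈ d.natAbs.primeFactors.filter (fun q => ¬ q ∣ N),
    (pv g P q (ρ q) a * pv g P q (ρ q) b) = h * κ ^ 2 →
  algebraMap ℚ_[p] (PadicAlgCl p) D = J δ →
  IsSquare (D * ((d * (derivative f).eval ((ρ p).2 : ℤ) * ((ρ p).2 - ρ'.2) : ℤ) : ℚ_[p])) →
  let w : ℤ := ∏ q ∈ d.natAbs.primeFactors.filter (fun q => ¬ q ∣ N ∧ q ≠ p),
    sg P p (ρ p) ρ' q (ρ q)
  (w = 1 ∨ w = -1) ∧ (w = 1 ↔ ∃ r : ℚ_[p], algebraMap ℚ_[p] (PadicAlgCl p) (r ^ 2) =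
    J (h * pv g P p (ρ p) a * pv g P p (ρ p) b *
      ((e * p * (derivative f).eval ((ρ p).2 : ℤ) * ((ρ p).2 - ρ'.2) : ℤ) : M)))

/-- ALG2: result of parts A and B. -/
def T_ALG2 : Prop := ∀ (n : ℕ) (g : Fin (n + 1) → ℤ[X]) (c : ℚ) (f : ℤ[X]), GoodFactors2 g →
  c ≠ 0 → f.map (Int.castRingHom ℚ) = C c * ∏ i, (g i).map (Int.castRingHom ℚ) →
  Even f.natDegree →
  ∃ N₀ : ℕ, 0 < N₀ ∧ ∀ (N : ℕ) (P : Fin (n + 1) → ℕ → ℕ → ℤ[X]), 0 < N → N₀ ∣ N →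
    PiProp g N P →
    ∃ (h : ℕ) (χ : Fin h → ℕ → Fin (n + 1) × ℕ → Fin (n + 1) × ℕ → ℤ),
      (∀ η p ρ ρ', χ η p ρ ρ' = 1 ∨ χ η p ρ ρ' = -1) ∧
      ∀ d : ℤ, Squarefree d → TwistSelNonempty 2 f d → ∃ η, Bad2 g N P (χ η) d.natAbs

/-! ## Part C: counting (abstract model) -/

/-- the types of labelled primes: a root (numbered by `Fin n`) and a set of roots -/
abbrev Ty (n : ℕ) : Type := Fin n × Finset (Fin n)

/-- The abstract model: for each prime `p` there are `rn p` roots, numbered `0, 1, …`, the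
`j`-th one with label `lab p j`; signs `sgn p j j' q k`, and the trivial characters. -/
structure Model (m n : ℕ) where
  /-- number of roots -/
  rn : ℕ → ℕ
  /-- label of a root -/
  lab : ℕ → Fin n → Fin m
  /-- sign -/
  sgn : ℕ → Fin n → Fin n → ℕ → Fin n → ℝ
  /-- trivial characters -/
  Tr : ℕ → Fin n → Finset (Fin n) → Fin m → Prop

namespace Model

variable {m n : ℕ} (M : Model m n)

/-- The combinatorial condition. -/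
def Bad (N : ℕ) (a : ℕ → Fin n → Fin n → ℝ) (k : ℕ) : Prop :=
  ∃ ρ : ℕ → Fin n, ∀ p ∈ k.primeFactors, ¬ p ∣ N → (ρ p : ℕ) < M.rn p ∧
    ∀ j : Fin n, (j : ℕ) < M.rn p → j ≠ ρ p →
      a p (ρ p) j * ∏ q ∈ k.primeFactors.filter (fun q => ¬ q ∣ N ∧ q ≠ p),
        M.sgn p (ρ p) j q (ρ q) = 1

/-- a valid labelled prime -/
def vld (x : ℕ × Ty n) : Prop :=
  (x.2.1 : ℕ) < M.rn x.1 ∧ ∀ j ∈ x.2.2, (j : ℕ) < M.rn x.1 ∧ j ≠ x.2.1

/-- the label of a labelled prime -/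
def lb (x : ℕ × Ty n) : Fin m := M.lab x.1 x.2.1

/-- `x` is the largest rough prime of its label -/
def isSp (z : ℕ) (c : Finset (ℕ × Ty n)) (x : ℕ × Ty n) : Prop :=
  z < x.1 ∧ ∀ y ∈ c, M.lb y = M.lb x → y.1 ≤ x.1

open Classical in
/-- the coefficient of the labelled prime `x` in the configuration `c` -/
noncomputable def cf (a : ℕ → Fin n → Fin n → ℝ) (z : ℕ) (c : Finset (ℕ × Ty n))
    (x : ℕ × Ty n) : ℝ :=
  if ¬ M.vld x then 0 else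
    if x.1 ≤ z ∨ M.isSp z c x then (if x.2.2 = ∅ then 1 else 0) else
      (∏ j ∈ x.2.2, a x.1 x.2.1 j) / 2 ^ (M.rn x.1 - 1)

/-- the interaction of two labelled primes -/
noncomputable def om (x y : ℕ × Ty n) : ℝ := ∏ j ∈ x.2.2, M.sgn x.1 x.2.1 j y.1 y.2.1

open Classical in
/-- the weight of a configuration -/
noncomputable def W (a : ℕ → Fin n → Fin n → ℝ) (z : ℕ) (c : Finset (ℕ × Ty n)) : ℝ :=
  (∏ x ∈ c, M.cf a z c x) * ∏ w ∈ c.offDiag, M.om w.1 w.2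

/-- the size condition -/
def big (κ x y : ℕ) : Prop := κ * (Nat.log 2 x + 1) ≤ Nat.log 2 y

/-- `(x, y)` is a good (cancelling) pair of the configuration `c` -/
def gp (κ z : ℕ) (c : Finset (ℕ × Ty n)) (x y : ℕ × Ty n) : Prop :=
  z < x.1 ∧ ¬ M.isSp z c x ∧ M.isSp z c y ∧ ¬ M.Tr x.1 x.2.1 x.2.2 (M.lb y) ∧ big κ x.1 y.1

/-- the configuration has a cancelling pair -/
def Unb (κ z : ℕ) (c : Finset (ℕ × Ty n)) : Prop := ∃ x ∈ c, ∃ y ∈ c, M.gp κ z c x y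

/-- `r` is special in `R ∪ {x, y}` where `y` is special with label `i`, `x` is not special -/
def spR (z : ℕ) (R : Finset (ℕ × Ty n)) (i : Fin m) (r : ℕ × Ty n) : Prop :=
  z < r.1 ∧ M.lb r ≠ i ∧ ∀ r' ∈ R, M.lb r' = M.lb r → r'.1 ≤ r.1

/-- condition on the rest `R` -/
def CR (κ z : ℕ) (R : Finset (ℕ × Ty n)) (i : Fin m) : Prop :=
  ∀ y ∈ R, M.spR z R i y → M.lb y < i → ∀ r ∈ R, z < r.1 → ¬ M.spR z R i r →
    ¬ (¬ M.Tr r.1 r.2.1 r.2.2 (M.lb y) ∧ big κ r.1 y.1)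

/-- condition on the smaller prime `x` -/
def CP (κ z : ℕ) (R : Finset (ℕ × Ty n)) (i : Fin m) (x : ℕ × Ty n) : Prop :=
  z < x.1 ∧ (M.lb x = i ∨ ∃ r ∈ R, M.lb r = M.lb x ∧ x.1 < r.1) ∧
    ¬ M.Tr x.1 x.2.1 x.2.2 i ∧
    (∀ r ∈ R, r.1 < x.1 → z < r.1 → ¬ M.spR z R i r → M.Tr r.1 r.2.1 r.2.2 i) ∧
    ∀ y ∈ R, M.spR z R i y → M.lb y < i →
      ¬ (¬ M.Tr x.1 x.2.1 x.2.2 (M.lb y) ∧ big κ x.1 y.1)

/-- condition on the larger prime `y` -/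
def CQ (z : ℕ) (R : Finset (ℕ × Ty n)) (y : ℕ × Ty n) : Prop :=
  z < y.1 ∧ ∀ r ∈ R, M.lb r = M.lb y → r.1 < y.1

/-- The bilinear bound. -/
def Bil (κ N : ℕ) (B : ℝ) : Prop := by
  classical
  exact ∀ (j k : Fin n) (S : Finset (Fin n)) (i : Fin m) (α β : ℕ → ℝ),
    (∀ p, |α p| ≤ 1) → (∀ p, |β p| ≤ 1) → ∀ z Y : ℕ, 1 ≤ z →
    |∑ p ∈ (primesTo N Y).filter (fun p => z < p ∧ M.vld (p, (j, S)) ∧ ¬ M.Tr p j S i),
      ∑ q ∈ (primesTo N Y).filter (fun q => big κ p q ∧ p * q ≤ Y ∧ (k : ℕ) < M.rn q ∧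
          M.lab q k = i),
        α p * β q * M.om (p, (j, S)) (q, (k, ∅))| ≤ B * Y / (z : ℝ) ^ ((1 : ℝ) / 3)

open Classical in
/-- the weight of the prime `p` when the labels in `J` are active -/
noncomputable def Wm (J : Finset (Fin m)) (p : ℕ) : ℝ :=
  ((Finset.univ : Finset (Ty n)).filter (fun t => M.vld (p, t) ∧ M.lab p t.1 ∈ J ∧
    ∀ i ∈ J, M.Tr p t.1 t.2 i)).card / 2 ^ (M.rn p - 1)

/-- The average weight is smaller than one, for every set of labels. -/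
def SmallW (N : ℕ) : Prop :=
  ∀ J : Finset (Fin m), J.Nonempty → ∃ c : ℝ, 0 < c ∧ c ≤ 1 ∧ ∃ B : ℝ, ∀ x y : ℕ,
    3 ≤ y → y ≤ x →
    ∑ p ∈ (primesTo N x).filter (fun p => y < p), M.Wm J p / p ≤
      (1 - c) * (Real.log (Real.log x) - Real.log (Real.log y)) + B

/-- blocks of primes -/
def bk (κ p : ℕ) : ℕ := Nat.log (2 * κ) (Nat.log 2 p)

open Classical in
/-- upper bound for the coefficient of a labelled prime in a configuration without cancelling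
pairs whose rough labels form the set `I`, with the special primes in the blocks `b i` -/
noncomputable def hh (κ z : ℕ) (I : Finset (Fin m)) (b : Fin m → ℕ) (p : ℕ) (t : Ty n) : ℝ :=
  if ¬ M.vld (p, t) then 0 else
    if p ≤ z then (if t.2 = ∅ then 1 else 0) else
      (if M.lab p t.1 ∈ I ∧ bk κ p = b (M.lab p t.1) ∧ t.2 = ∅ then 1 else 0) +
      (if M.lab p t.1 ∈ I ∧ bk κ p ≤ b (M.lab p t.1) ∧
          ∀ i ∈ I, bk κ p + 2 ≤ b i → M.Tr p t.1 t.2 i then 1 / 2 ^ (M.rn p - 1) else 0)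

/-- all signs are bounded by one, and there are at most `n` roots -/
structure Bounded : Prop where
  sgn_le : ∀ p j j' q k, |M.sgn p j j' q k| ≤ 1
  rn_le : ∀ p, M.rn p ≤ n

end Model

open Classical in
/-- EXPM: the expansion for one number. -/
def T_EXPM : Prop := ∀ (m n : ℕ) (M : Model m n) (a : ℕ → Fin n → Fin n → ℝ) (N z k : ℕ),
  M.Bounded → (∀ p j j', |a p j j'| ≤ 1) → Squarefree k → (∀ p ∈ k.primeFactors, ¬ p ∣ N) →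
  0 ≤ ∑ τ ∈ k.primeFactors.pi (fun _ => (Finset.univ : Finset (Ty n))),
    M.W a z (QTw.graph k.primeFactors τ) ∧
  (M.Bad N a k → 1 ≤ ∑ τ ∈ k.primeFactors.pi (fun _ => (Finset.univ : Finset (Ty n))),
    M.W a z (QTw.graph k.primeFactors τ))

open Classical in
/-- EXP2: the expansion. -/
def T_EXP2 : Prop := ∀ (m n : ℕ) (M : Model m n) (a : ℕ → Fin n → Fin n → ℝ) (N z X : ℕ),
  M.Bounded → (∀ p j j', |a p j j'| ≤ 1) →
    (((Finset.range (X + 1)).filter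
      (fun k => Squarefree k ∧ (∀ p ∈ k.primeFactors, ¬ p ∣ N) ∧ M.Bad N a k)).card : ℝ) ≤
    ∑ c ∈ cfgs (Ty n) N X, M.W a z c

open Classical in
/-- RED2: reduction to numbers without prime factors dividing `N`. -/
def T_RED2 : Prop := ∀ (m n : ℕ) (M : Model m n) (h : ℕ) (a : Fin h → ℕ → Fin n → Fin n → ℝ)
  (N X : ℕ), 0 < N →
  ((Finset.range (X + 1)).filter (fun k => Squarefree k ∧ ∃ η, M.Bad N (a η) k)).card ≤
    N * ∑ η, ((Finset.range (X + 1)).filter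
      (fun k => Squarefree k ∧ (∀ p ∈ k.primeFactors, ¬ p ∣ N) ∧ M.Bad N (a η) k)).card

open Classical in
/-- CANON2: the canonical cancelling pair exists and is unique. -/
def T_CANON2 : Prop := ∀ (m n : ℕ) (M : Model m n) (κ z : ℕ) (c : Finset (ℕ × Ty n)), 1 ≤ κ →
  (∀ x ∈ c, 2 ≤ x.1) → (∀ x ∈ c, ∀ y ∈ c, x.1 = y.1 → x = y) → M.Unb κ z c →
  ∃! w : (ℕ × Ty n) × (ℕ × Ty n), w.1 ∈ c ∧ w.2 ∈ c ∧ w.1 ≠ w.2 ∧ Model.big κ w.1.1 w.2.1 ∧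
    M.CR κ z ((c.erase w.1).erase w.2) (M.lb w.2) ∧
    M.CP κ z ((c.erase w.1).erase w.2) (M.lb w.2) w.1 ∧
    M.CQ z ((c.erase w.1).erase w.2) w.2

open Classical in
/-- SPLIT2: the weight of `R ∪ {x, y}` for the canonical pair `(x, y)`. -/
def T_SPLIT2 : Prop := ∀ (m n : ℕ) (M : Model m n) (a : ℕ → Fin n → Fin n → ℝ) (κ z : ℕ)
  (R : Finset (ℕ × Ty n)) (x y : ℕ × Ty n), 1 ≤ κ → x ∉ R → y ∉ R → x ≠ y → 2 ≤ x.1 →
  (∀ r ∈ R, r.1 ≠ x.1 ∧ r.1 ≠ y.1) → Model.big κ x.1 y.1 →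
  M.CP κ z R (M.lb y) x → M.CQ z R y →
  M.W a z (insert x (insert y R)) =
    ((∏ r ∈ R, if ¬ M.vld r then 0 else
        if r.1 ≤ z ∨ M.spR z R (M.lb y) r then (if r.2.2 = ∅ then 1 else 0) else
          (∏ j ∈ r.2.2, a r.1 r.2.1 j) / 2 ^ (M.rn r.1 - 1)) *
      ∏ w ∈ R.offDiag, M.om w.1 w.2) *
    ((if M.vld x then (∏ j ∈ x.2.2, a x.1 x.2.1 j) / 2 ^ (M.rn x.1 - 1) else 0) *
      ∏ r ∈ R, (M.om x r * M.om r x)) *
    ((if M.vld y ∧ y.2.2 = ∅ then 1 else 0) * ∏ r ∈ R, M.om r y) * M.om x y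

/-- the conditions on the canonical pair -/
def Model.Cd {m n : ℕ} (M : Model m n) (κ N z X : ℕ) (R : Finset (ℕ × Ty n))
    (x y : ℕ × Ty n) : Prop :=
  x.1.Prime ∧ ¬ x.1 ∣ N ∧ y.1.Prime ∧ ¬ y.1 ∣ N ∧ (∀ r ∈ R, r.1 ≠ x.1 ∧ r.1 ≠ y.1) ∧
    x.1 * y.1 * ∏ r ∈ R, r.1 ≤ X ∧ Model.big κ x.1 y.1 ∧ M.CR κ z R (M.lb y) ∧
    M.CP κ z R (M.lb y) x ∧ M.CQ z R y

open Classical in
/-- REARR2: sorting the configurations by the rest. -/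
def T_REARR2 : Prop := ∀ (m n : ℕ) (M : Model m n) (κ N z X : ℕ) (F : Finset (ℕ × Ty n) → ℝ),
  1 ≤ κ →
  ∑ c ∈ (cfgs (Ty n) N X).filter (fun c => M.Unb κ z c), F c =
    ∑ R ∈ cfgs (Ty n) N X, ∑ x ∈ Finset.range (X + 1) ×ˢ (Finset.univ : Finset (Ty n)),
      ∑ y ∈ Finset.range (X + 1) ×ˢ (Finset.univ : Finset (Ty n)),
        if M.Cd κ N z X R x y then F (insert x (insert y R)) else 0

open Classical in
/-- INNER2: the inner sum. -/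
def T_INNER2 : Prop := ∀ (m n : ℕ) (M : Model m n) (a : ℕ → Fin n → Fin n → ℝ)
  (κ N z X : ℕ) (B₀ : ℝ) (R : Finset (ℕ × Ty n)), 1 ≤ κ → 0 ≤ B₀ → 1 ≤ z → M.Bounded →
  (∀ p j j', |a p j j'| ≤ 1) → M.Bil κ N B₀ → R ∈ cfgs (Ty n) N X →
  |∑ x ∈ Finset.range (X + 1) ×ˢ (Finset.univ : Finset (Ty n)),
      ∑ y ∈ Finset.range (X + 1) ×ˢ (Finset.univ : Finset (Ty n)),
        if M.Cd κ N z X R x y then M.W a z (insert x (insert y R)) else 0| ≤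
    ((m : ℝ) * n ^ 2 * 2 ^ n) * B₀ * (X / ((∏ r ∈ R, r.1 : ℕ) : ℝ)) / (z : ℝ) ^ ((1 : ℝ) / 3)

open Classical in
/-- UNB2: the configurations with a cancelling pair cancel. -/
def T_UNB2 : Prop := ∀ (m n κ : ℕ) (B₀ : ℝ), 1 ≤ κ → 0 ≤ B₀ → ∃ B : ℝ, 0 ≤ B ∧
  ∀ (M : Model m n) (a : ℕ → Fin n → Fin n → ℝ) (N z X : ℕ), 1 ≤ z → 1 ≤ X →
    M.Bounded → (∀ p j j', |a p j j'| ≤ 1) → M.Bil κ N B₀ →
    |∑ c ∈ (cfgs (Ty n) N X).filter (fun c => M.Unb κ z c), M.W a z c| ≤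
      B * X * (1 + Real.log X) ^ (Fintype.card (Ty n)) / (z : ℝ) ^ ((1 : ℝ) / 3)

open Classical in
/-- COV2: configurations without cancelling pairs. -/
def T_COV2 : Prop := ∀ (m n : ℕ) (M : Model m n) (a : ℕ → Fin n → Fin n → ℝ) (κ N z X : ℕ),
  1 ≤ κ → M.Bounded → (∀ p j j', |a p j j'| ≤ 1) →
  ∀ c ∈ cfgs (Ty n) N X, ¬ M.Unb κ z c →
  ∃ (I : Finset (Fin m)) (b : Fin m → ℕ), (∀ i, b i ≤ Model.bk κ X) ∧
    ∀ x ∈ c, |M.cf a z c x| ≤ M.hh κ z I b x.1 x.2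

/-- BLOCK2: the sum over one block is bounded. -/
def T_BLOCK2 : Prop := ∀ κ : ℕ, 1 ≤ κ → ∃ B : ℝ, 0 ≤ B ∧ ∀ k X : ℕ,
  ∑ p ∈ (Finset.range (X + 1)).filter (fun p => p.Prime ∧ Model.bk κ p = k), 1 / (p : ℝ) ≤ B

open Classical in
/-- EXPO2: the exponent. -/
def T_EXPO2 : Prop := ∀ (m n κ : ℕ) (M : Model m n) (N : ℕ), 1 ≤ κ → M.Bounded → M.SmallW N →
  ∃ (c B : ℝ), 0 < c ∧ c ≤ 1 ∧ ∀ (z X : ℕ) (I : Finset (Fin m)) (b : Fin m → ℕ), 3 ≤ X →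
    ∑ p ∈ (Finset.range (X + 1)).filter Nat.Prime,
        (if p ∣ N then 0 else ∑ t, M.hh κ z I b p t) / p ≤
      n * (∑ p ∈ (Finset.range (z + 1)).filter Nat.Prime, 1 / (p : ℝ)) +
        (1 - c) * Real.log (Real.log X) + B

open Classical in
/-- BAL2: absolute bound for the configurations without cancelling pairs. -/
def T_BAL2 : Prop := ∀ (m n κ : ℕ) (M : Model m n) (N : ℕ), 1 ≤ κ → M.Bounded → M.SmallW N →
  ∃ (c B : ℝ), 0 < c ∧ c ≤ 1 ∧ 0 ≤ B ∧ ∀ (a : ℕ → Fin n → Fin n → ℝ) (z X : ℕ), 3 ≤ X →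
    (∀ p j j', |a p j j'| ≤ 1) →
    ∑ c ∈ (cfgs (Ty n) N X).filter (fun c => ¬ M.Unb κ z c), |M.W a z c| ≤
      B * (X / (Real.log X) ^ c) * ((Model.bk κ X : ℝ) + 1) ^ m *
        Real.exp (n * (∑ p ∈ (Finset.range (z + 1)).filter Nat.Prime, 1 / (p : ℝ)))

open Classical in
/-- COUNT2: result of part C. -/
def T_COUNT2 : Prop := ∀ (m n κ : ℕ) (M : Model m n) (N h : ℕ) (B₀ : ℝ)
  (a : Fin h → ℕ → Fin n → Fin n → ℝ), 1 ≤ κ → 0 < N → 0 ≤ B₀ → M.Bounded →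
  (∀ η p j j', |a η p j j'| ≤ 1) → M.Bil κ N B₀ → M.SmallW N →
  ∃ c : ℝ, 0 < c ∧ ∃ B : ℝ, ∀ X : ℕ, 2 ≤ X →
    (((Finset.range (X + 1)).filter (fun k => Squarefree k ∧ ∃ η, M.Bad N (a η) k)).card : ℝ) ≤
      B * X / (Real.log X) ^ c

/-! ## Part D: characters and bilinear sums -/

open Classical in
/-- BOX: sum of a periodic function with mean value zero over a box. -/
def T_BOX : Prop := ∀ (n m H : ℕ) (Φ : (Fin n → ℤ) → ℝ), 1 ≤ n → 1 ≤ m → (∀ v, |Φ v| ≤ 1) →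
  (∀ v w : Fin n → ℤ, Φ (v + (m : ℤ) • w) = Φ v) →
  ∑ v ∈ Fintype.piFinset (fun _ : Fin n => Finset.Ico (0 : ℤ) m), Φ v = 0 →
  |∑ v ∈ Fintype.piFinset (fun _ : Fin n => Finset.Icc (-(H : ℤ)) H), Φ v| ≤
    n * m * (2 * H + 1) ^ (n - 1)

/-- the function `Φ` has period `p` and mean value zero and is bounded by one -/
structure IsOsc (n p : ℕ) (Φ : (Fin n → ℤ) → ℝ) : Prop where
  le : ∀ v, |Φ v| ≤ 1
  per : ∀ v w : Fin n → ℤ, Φ (v + (p : ℤ) • w) = Φ v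
  zero : ∑ v ∈ Fintype.piFinset (fun _ : Fin n => Finset.Ico (0 : ℤ) p), Φ v = 0

/-- CRTX: products. -/
def T_CRTX : Prop := ∀ (n p q : ℕ) (Φ Ψ : (Fin n → ℤ) → ℝ), 1 ≤ p → 1 ≤ q → Nat.Coprime p q →
  IsOsc n p Φ → IsOsc n q Ψ → IsOsc n (p * q) (fun v => Φ v * Ψ v)

open Classical in
/-- BLK: one block of the bilinear sum. -/
def T_BLK : Prop := ∀ (n : ℕ) (C : ℝ), 1 ≤ n → 1 ≤ C → ∃ B : ℝ, 0 ≤ B ∧
  ∀ (a b : ℕ) (P : Finset ℕ) (Q : Finset ℕ) (Ξ : ℕ → (Fin n → ℤ) → ℝ) (v : ℕ → Fin n → ℤ)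
    (α β : ℕ → ℝ), (∀ p ∈ P, p.Prime ∧ p < 2 ^ (a + 1)) → (∀ q ∈ Q, q < 2 ^ (b + 1)) →
    (∀ p ∈ P, IsOsc n p (Ξ p)) → (∀ p, |α p| ≤ 1) → (∀ q, |β q| ≤ 1) →
    (∀ q ∈ Q, ∀ k, |(v q k : ℝ)| ≤ C * (q : ℝ) ^ ((1 : ℝ) / n)) →
    (∀ q ∈ Q, ∀ q' ∈ Q, v q = v q' → q = q') →
    |∑ p ∈ P, ∑ q ∈ Q, α p * β q * Ξ p (v q)| ≤
      B * (Real.sqrt P.card * 2 ^ b + P.card * 2 ^ a * (2 : ℝ) ^ ((b : ℝ) - b / (2 * n)))

open Classical in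
/-- BL2: the bilinear sum. -/
def T_BL2 : Prop := ∀ (n κ : ℕ) (C : ℝ), 1 ≤ n → 4 * n ≤ κ → 1 ≤ C → ∃ B : ℝ, 0 ≤ B ∧
  ∀ (Y z : ℕ) (P Q : Finset ℕ) (Ξ : ℕ → (Fin n → ℤ) → ℝ) (v : ℕ → Fin n → ℤ)
    (α β : ℕ → ℝ), 1 ≤ z → (∀ p ∈ P, p.Prime ∧ z < p ∧ p ≤ Y) → (∀ q ∈ Q, q.Prime ∧ q ≤ Y) →
    (∀ p ∈ P, IsOsc n p (Ξ p)) → (∀ p, |α p| ≤ 1) → (∀ q, |β q| ≤ 1) →
    (∀ q ∈ Q, ∀ k, |(v q k : ℝ)| ≤ C * (q : ℝ) ^ ((1 : ℝ) / n)) →
    (∀ q ∈ Q, ∀ q' ∈ Q, v q = v q' → q = q') →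
    |∑ p ∈ P, ∑ q ∈ Q.filter (fun q => Model.big κ p q ∧ p * q ≤ Y), α p * β q * Ξ p (v q)| ≤
      B * Y / (z : ℝ) ^ ((1 : ℝ) / 3)

/-- the polynomial with coefficient vector `v` -/
noncomputable def pol {n : ℕ} (v : Fin n → ℤ) : ℤ[X] := ∑ k : Fin n, C (v k) * X ^ (k : ℕ)

/-- the resultant of `g` and the polynomial with coefficient vector `v` -/
noncomputable def res (g : ℤ[X]) (v : Fin g.natDegree → ℤ) : ℤ :=
  resultant g (pol v) g.natDegree (g.natDegree - 1)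

/-- ZS: mean value zero of the characters. -/
def T_ZS : Prop := ∀ (g : ℤ[X]) (p : ℕ), p.Prime → p ≠ 2 → 0 < g.natDegree →
  ¬ (p : ℤ) ∣ g.leadingCoeff → Squarefree (g.map (Int.castRingHom (ZMod p))) →
  ∀ (T : Finset ℕ) (ε : Bool), (∀ t ∈ T, t < p ∧ (p : ℤ) ∣ g.eval (t : ℤ)) →
    (if ε then T.card < g.natDegree else T.Nonempty) →
    IsOsc g.natDegree p (fun v =>
      (if ε then ((jacobiSym (res g v) p : ℤ) : ℝ) else 1) *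
        ∏ t ∈ T, ((jacobiSym ((pol v).eval (t : ℤ)) p : ℤ) : ℝ))

/-- the cofactor of `q` in the resultant -/
noncomputable def nu (g : ℤ[X]) (q : ℕ) (P : ℤ[X]) : ℤ := res g (fun k => P.coeff k) / q

/-- NU: the cofactor takes finitely many values and is a unit at good primes. -/
def T_NU : Prop := ∀ (g : ℤ[X]), Irreducible (g.map (Int.castRingHom ℚ)) → ∀ (N : ℕ) (C : ℝ),
  0 < N → g.leadingCoeff ∣ (N : ℤ) → ∃ B : ℕ, ∀ (q s : ℕ) (P : ℤ[X]), q.Prime → ¬ q ∣ N → s < q →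
    (q : ℤ) ∣ g.eval (s : ℤ) → Squarefree (g.map (Int.castRingHom (ZMod q))) →
    IsPi g N q s P → P.natDegree < g.natDegree →
    (∀ k, |(P.coeff k : ℝ)| ≤ C * (q : ℝ) ^ ((1 : ℝ) / g.natDegree)) →
    res g (fun k => P.coeff k) = q * nu g q P ∧ |nu g q P| ≤ B ∧
      ∀ p : ℕ, p.Prime → ¬ p ∣ N → ¬ (p : ℤ) ∣ nu g q P

section XI

variable {ι : Type} [Fintype ι] [DecidableEq ι]

open Classical in
/-- the oscillating factor -/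
noncomputable def Xi (g : ι → ℤ[X]) (p : ℕ) (ρ : ι × ℕ) (S : Finset (ι × ℕ)) (i : ι)
    (v : Fin (g i).natDegree → ℤ) : ℝ :=
  if Even S.card then ∏ r ∈ S.filter (fun r => r.1 = i), ((jacobiSym ((pol v).eval (r.2 : ℤ)) p : ℤ) : ℝ)
  else ((jacobiSym (res (g i) v) p : ℤ) : ℝ) *
    ∏ r ∈ (insert ρ S).filter (fun r => r.1 = i), ((jacobiSym ((pol v).eval (r.2 : ℤ)) p : ℤ) : ℝ)

end XI

/-- XI: the product of the signs. -/
def T_XI : Prop := ∀ (n : ℕ) (g : Fin (n + 1) → ℤ[X]), GoodFactors2 g →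
  ∃ N₀ : ℕ, 0 < N₀ ∧ ∀ (N : ℕ) (P : Fin (n + 1) → ℕ → ℕ → ℤ[X]) (C : ℝ), 0 < N → N₀ ∣ N →
    PiProp g N P → CoefProp g N P C →
    ∀ (p : ℕ) (ρ : Fin (n + 1) × ℕ) (S : Finset (Fin (n + 1) × ℕ)) (i : Fin (n + 1)), p.Prime →
      ¬ p ∣ N → ρ ∈ Rts g N p → S ⊆ Rts g N p → ρ ∉ S → ¬ TrG g N p ρ S i →
      IsOsc (g i).natDegree p (Xi g p ρ S i) ∧
      ∀ q s : ℕ, q.Prime → q ≠ p → (i, s) ∈ Rts g N q →
        ∏ ρ' ∈ S, (sg P p ρ ρ' q (i, s) : ℝ) =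
          Xi g p ρ S i (fun k => (P i q s).coeff k) *
            (if Odd S.card then ((jacobiSym (nu (g i) q (P i q s)) p : ℤ) : ℝ) else 1)

/-- `en` enumerates the finite sets `R p`. -/
def IsEnum {α : Type} {n : ℕ} (R : ℕ → Finset α) (en : ℕ → Fin n → α) : Prop :=
  ∀ p, (∀ j j' : Fin n, (j : ℕ) < (R p).card → (j' : ℕ) < (R p).card → en p j = en p j' →
    j = j') ∧ ∀ r, r ∈ R p ↔ ∃ j : Fin n, (j : ℕ) < (R p).card ∧ en p j = r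

open Classical in
/-- the concrete model -/
noncomputable def mdl {k n : ℕ} (g : Fin (k + 1) → ℤ[X]) (N : ℕ)
    (P : Fin (k + 1) → ℕ → ℕ → ℤ[X]) (en : ℕ → Fin n → Fin (k + 1) × ℕ) : Model (k + 1) n where
  rn := fun p => (Rts g N p).card
  lab := fun p j => (en p j).1
  sgn := fun p j j' q l => (sg P p (en p j) (en p j') q (en q l) : ℝ)
  Tr := fun p j S i => TrG g N p (en p j) (S.image (en p)) i

/-- BILC: the bilinear bound for the concrete model. -/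
def T_BILC : Prop := ∀ (k : ℕ) (g : Fin (k + 1) → ℤ[X]), GoodFactors2 g →
  ∃ N₀ : ℕ, 0 < N₀ ∧ ∀ (N : ℕ) (P : Fin (k + 1) → ℕ → ℕ → ℤ[X]) (C : ℝ), 0 < N → N₀ ∣ N →
    PiProp g N P → CoefProp g N P C → ∀ (n κ : ℕ) (en : ℕ → Fin n → Fin (k + 1) × ℕ),
    IsEnum (Rts g N) en → (∀ i, 4 * (g i).natDegree ≤ κ) →
    ∃ B : ℝ, 0 ≤ B ∧ (mdl g N P en).Bil κ N B

/-! ## Part E: average of the weights -/

/-- RTS: number of roots. -/
def T_RTS : Prop := ∀ (k : ℕ) (g : Fin (k + 1) → ℤ[X]), GoodFactors2 g →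
  ∃ N₀ : ℕ, 0 < N₀ ∧ ∀ (N p : ℕ), 0 < N → N₀ ∣ N → ∀ i,
    ((Rts g N p).filter (fun r => r.1 = i)).card ≤ (g i).natDegree

section Weights

variable {ι : Type} [Fintype ι] [DecidableEq ι]

open Classical in
/-- the weight of the prime `p` for the set of labels `J` -/
noncomputable def WG (g : ι → ℤ[X]) (N : ℕ) (J : Finset ι) (p : ℕ) : ℝ :=
  (∑ ρ ∈ (Rts g N p).filter (fun r => r.1 ∈ J),
    ((((Rts g N p).erase ρ).powerset.filter (fun S => ∀ i ∈ J, TrG g N p ρ S i)).card : ℝ)) /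
    2 ^ ((Rts g N p).card - 1)

end Weights

open Classical in
/-- WCOMB: combinatorial estimate of the weights. -/
def T_WCOMB : Prop := ∀ (k : ℕ) (g : Fin (k + 1) → ℤ[X]) (N p : ℕ) (J : Finset (Fin (k + 1))),
  J.Nonempty → (∀ i, 2 ≤ (g i).natDegree) →
  (∀ i, ((Rts g N p).filter (fun r => r.1 = i)).card ≤ (g i).natDegree) →
  (3 ≤ ∑ i ∈ J, (g i).natDegree → WG g N J p ≤ 1) ∧
  (∑ i ∈ J, (g i).natDegree = 2 →
    WG g N J p ≤ ((Rts g N p).filter (fun r => r.1 ∈ J)).card) ∧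
  ((∀ i, ((Rts g N p).filter (fun r => r.1 = i)).card = (g i).natDegree) →
    6 ≤ ∑ i, (g i).natDegree → (3 ≤ ∑ i ∈ J, (g i).natDegree → WG g N J p ≤ 3 / 4) ∧
      (∑ i ∈ J, (g i).natDegree = 2 → WG g N J p ≤ 1))

/-- SPL2: ideals of norm `p` in a big number field force complete splitting. -/
def T_SPL2 : Prop := ∀ (k : ℕ) (g : Fin (k + 1) → ℤ[X]), GoodFactors2 g →
  ∃ (K : Type) (_ : Field K) (_ : NumberField K) (N₀ : ℕ), 0 < N₀ ∧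
    ∀ (p : ℕ), p.Prime → ¬ p ∣ N₀ → 0 < idealCount K p →
      ∀ i, rootCount (g i) p = (g i).natDegree

/-- TRANS: the weight of the concrete model. -/
def T_TRANS : Prop := ∀ (k n : ℕ) (g : Fin (k + 1) → ℤ[X]) (N : ℕ)
  (P : Fin (k + 1) → ℕ → ℕ → ℤ[X]) (en : ℕ → Fin n → Fin (k + 1) × ℕ),
  IsEnum (Rts g N) en → ∀ (J : Finset (Fin (k + 1))) (p : ℕ),
    (mdl g N P en).Wm J p = WG g N J p

/-- WTSC: the average of the weights of the concrete model. -/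
def T_WTSC : Prop := ∀ (k : ℕ) (g : Fin (k + 1) → ℤ[X]), GoodFactors2 g →
  6 ≤ ∑ i, (g i).natDegree → ∃ N₀ : ℕ, 0 < N₀ ∧ ∀ (N n : ℕ)
    (P : Fin (k + 1) → ℕ → ℕ → ℤ[X]) (en : ℕ → Fin n → Fin (k + 1) × ℕ), 0 < N → N₀ ∣ N →
    IsEnum (Rts g N) en → (mdl g N P en).SmallW N

end Pool.Agent.QTx
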