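import Pool.Agent.QTx.Targets
import Pool.Agent.QTw.SPL

/-!
# SPL2: ideals of norm `p` in a big number field force complete splitting
-/

open Polynomial NumberField
open Pool.Agent.QTw (idealCount rootCount)

namespace Pool.Agent.QTx

namespace SPL2_

open Pool.Agent.QTw.SPL_

/-- The splitting field. -/
theorem exists_field (n : ℕ) (g : Fin (n + 1) → ℤ[X]) (hgood : GoodFactors2 g) :
    ∃ (K : Type) (_ : Field K) (_ : NumberField K),
      ∀ i, ((g i).map (Int.castRingHom K)).Splits := by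
  let Ω := AlgebraicClosure ℚ
  let q : Fin (n + 1) → ℚ[X] := fun i => (g i).map (Int.castRingHom ℚ)
  have hq0 : ∀ i, q i ≠ 0 := fun i => (hgood.irr i).ne_zero
  let R : Set Ω := ⋃ i, (q i).rootSet Ω
  have hR : R.Finite := Set.finite_iUnion fun i => Polynomial.rootSet_finite _ _
  let K := IntermediateField.adjoin ℚ R
  have : Finite R := hR
  have halg : Algebra.IsAlgebraic ℚ Ω := AlgebraicClosure.isAlgebraic ℚ
  have hfd : FiniteDimensional ℚ K := IntermediateField.finiteDimensional_adjoin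
    (fun x _ => (Algebra.IsAlgebraic.isAlgebraic x).isIntegral)
  have hNF : NumberField K := { to_charZero := inferInstance, to_finiteDimensional := hfd }
  refine ⟨K, inferInstance, hNF, ?_⟩
  intro i
  have h1 : ((q i).map (algebraMap ℚ K)).Splits := by
    apply IntermediateField.splits_of_splits (IsAlgClosed.splits _)
    intro x hx
    exact IntermediateField.subset_adjoin ℚ R (Set.mem_iUnion.mpr ⟨i, hx⟩)
  have e : (q i).map (algebraMap ℚ K) = (g i).map (Int.castRingHom K) := by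
    rw [Polynomial.map_map]
    congr 1
  rwa [e] at h1

/-- There are at most `R.card` roots modulo `p`. -/
theorem count_le (K : Type) [Field K] (p : ℕ) [Fact p.Prime] (A : Subring K)
    (σ : A →+* ZMod p) (g : ℤ[X]) (c : ℤ) (R : Finset K) (hR : ∀ θ ∈ R, θ ∈ A)
    (hg : g.map (Int.castRingHom K) = C (c : K) * ∏ θ ∈ R, (X - C θ))
    (hc : (c : K) ≠ 0) (hc' : (c : K)⁻¹ ∈ A) : rootCount g p ≤ R.card := by
  classical
  unfold rootCount
  have h1 : ∀ a : ℕ, ∃ θ : K, (p : ℤ) ∣ g.eval (a : ℤ) →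
      ∃ h : θ ∈ R, (((a : ℤ) : ℤ) : ZMod p) = σ ⟨θ, hR θ h⟩ := by
    intro a
    by_cases h : (p : ℤ) ∣ g.eval (a : ℤ)
    · obtain ⟨θ, h2, h3⟩ := root_is K p A σ g c R hR hg hc hc' (a : ℤ) h
      exact ⟨θ, fun _ => ⟨h2, h3⟩⟩
    · exact ⟨0, fun h' => absurd h' h⟩
  choose φ hφ using h1
  refine Finset.card_le_card_of_injOn φ ?_ ?_
  · intro a ha
    rw [Finset.mem_coe, Finset.mem_filter] at ha
    obtain ⟨h2, -⟩ := hφ a ha.2
    exact h2
  · intro a ha b hb hab
    rw [Finset.mem_coe, Finset.mem_filter, Finset.mem_range] at ha hb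
    obtain ⟨h2, h3⟩ := hφ a ha.2
    obtain ⟨h4, h5⟩ := hφ b hb.2
    have h6 : (⟨φ a, hR (φ a) h2⟩ : A) = ⟨φ b, hR (φ b) h4⟩ := Subtype.ext hab
    rw [h6, ← h5, Int.cast_natCast, Int.cast_natCast] at h3
    have h7 := (ZMod.natCast_eq_natCast_iff' a b p).1 h3
    rwa [Nat.mod_eq_of_lt ha.1, Nat.mod_eq_of_lt hb.1] at h7

end SPL2_

open SPL2_ Pool.Agent.QTw.SPL_ in
/-- SPL2: ideals of norm `p` in a big number field force complete splitting. -/
theorem p_SPL2 : T_SPL2 := by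
  intro n g hgood
  obtain ⟨K, _, _, hsp⟩ := SPL2_.exists_field n g hgood
  refine ⟨K, inferInstance, inferInstance, ?_⟩
  choose R hR1 hR2 hR3 using fun i => product K (g i) (hgood.irr i) (hsp i)
  let T : Set K := (⋃ i, (R i : Set K)) ∪ (⋃ i, Set.image2 (fun θ θ' => (θ - θ')⁻¹) (R i) (R i)) ∪
    (⋃ i, {((g i).leadingCoeff : K)⁻¹})
  have hT : T.Finite := by
    refine Set.Finite.union (Set.Finite.union ?_ ?_) ?_
    · exact Set.finite_iUnion fun i => (R i).finite_toSet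
    · exact Set.finite_iUnion fun i => Set.Finite.image2 _ (R i).finite_toSet (R i).finite_toSet
    · exact Set.finite_iUnion fun i => Set.finite_singleton _
  obtain ⟨N, hN, hNT⟩ := exists_mult K T hT
  refine ⟨N, hN, ?_⟩
  intro p hp hpN hcount i
  have : Fact p.Prime := ⟨hp⟩
  unfold idealCount at hcount
  have hne : Nonempty {I : Ideal (𝓞 K) // Ideal.absNorm I = p} :=
    (Nat.card_pos_iff.mp hcount).1
  obtain ⟨I, hI⟩ := hne
  obtain ⟨ρ⟩ := exists_hom K p hp I hI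
  obtain ⟨A, σ, hA⟩ := exists_ext K p hp N hpN ρ
  have hTA : ∀ t ∈ T, t ∈ A := fun t ht => hA t (hNT t ht)
  have hRA : ∀ θ ∈ R i, θ ∈ A := fun θ hθ =>
    hTA θ (Or.inl (Or.inl (Set.mem_iUnion.mpr ⟨i, hθ⟩)))
  have hdA : ∀ θ ∈ R i, ∀ θ' ∈ R i, (θ - θ')⁻¹ ∈ A := fun θ hθ θ' hθ' =>
    hTA _ (Or.inl (Or.inr (Set.mem_iUnion.mpr ⟨i, θ, hθ, θ', hθ', rfl⟩)))
  have hcA : ((g i).leadingCoeff : K)⁻¹ ∈ A :=
    hTA _ (Or.inr (Set.mem_iUnion.mpr ⟨i, rfl⟩))
  have hg0 : g i ≠ 0 := by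
    intro h
    have := (hgood.irr i).ne_zero
    rw [h, Polynomial.map_zero] at this
    exact this rfl
  have hc : ((g i).leadingCoeff : K) ≠ 0 := by
    exact_mod_cast (Polynomial.leadingCoeff_ne_zero.mpr hg0)
  rw [← hR2 i]
  exact le_antisymm (count_le K p A σ (g i) _ (R i) hRA (hR1 i) hc hcA)
    (count K p A σ (g i) _ (R i) hRA (hR1 i) hdA)

end Pool.Agent.QTx
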