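import Pool.Agent.QTx.Targets
import Mathlib

/-!
# CANON2: the canonical cancelling pair exists and is unique
-/

namespace Pool.Agent.QTx

namespace CANON2_

variable {m n : ℕ} (M : Model m n)

theorem big_lt {κ x y : ℕ} (hκ : 1 ≤ κ) (h : Model.big κ x y) : x < y := by
  unfold Model.big at h
  by_contra hlt
  have h1 : Nat.log 2 y ≤ Nat.log 2 x := Nat.log_mono_right (not_lt.mp hlt)
  have h2 : 1 * (Nat.log 2 x + 1) ≤ κ * (Nat.log 2 x + 1) := Nat.mul_le_mul_right _ hκ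
  omega

theorem big_mono {κ x x' y : ℕ} (hx : x' ≤ x) (h : Model.big κ x y) : Model.big κ x' y := by
  unfold Model.big at h ⊢
  have h1 : Nat.log 2 x' ≤ Nat.log 2 x := Nat.log_mono_right hx
  calc κ * (Nat.log 2 x' + 1) ≤ κ * (Nat.log 2 x + 1) := Nat.mul_le_mul_left _ (by omega)
    _ ≤ _ := h

open Classical in
theorem mem_R {c : Finset (ℕ × Ty n)} {x y r : ℕ × Ty n} :
    r ∈ (c.erase x).erase y ↔ r ≠ y ∧ r ≠ x ∧ r ∈ c := by
  simp [Finset.mem_erase]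

open Classical in
theorem isSp_iff {z : ℕ} {c : Finset (ℕ × Ty n)}
    (hinj : ∀ x ∈ c, ∀ y ∈ c, x.1 = y.1 → x = y) {x y : ℕ × Ty n} (hy : y ∈ c)
    (hzx : z < x.1) (hnx : ¬ M.isSp z c x) (hsy : M.isSp z c y) {r : ℕ × Ty n}
    (hr : r ∈ (c.erase x).erase y) :
    M.isSp z c r ↔ M.spR z ((c.erase x).erase y) (M.lb y) r := by
  rw [mem_R] at hr
  obtain ⟨hry, hrx, hrc⟩ := hr
  constructor
  · rintro ⟨h1, h2⟩
    refine ⟨h1, ?_, ?_⟩
    · intro hl
      have e1 := h2 y hy hl.symm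
      have e2 := hsy.2 r hrc hl
      exact hry (hinj r hrc y hy (le_antisymm e2 e1))
    · intro r' hr' hl
      rw [mem_R] at hr'
      exact h2 r' hr'.2.2 hl
  · rintro ⟨h1, h2, h3⟩
    refine ⟨h1, fun r' hr' hl => ?_⟩
    by_cases hx' : r' = x
    · subst hx'
      by_contra hlt
      rw [not_le] at hlt
      have : ¬ (∀ y ∈ c, M.lb y = M.lb r' → y.1 ≤ r'.1) := fun hh => hnx ⟨hzx, hh⟩
      push Not at this
      obtain ⟨r'', hr''c, hr''l, hr''lt⟩ := this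
      have hne : r'' ≠ r' := by rintro rfl; exact lt_irrefl _ hr''lt
      have hne2 : r'' ≠ y := by
        rintro rfl
        exact h2 (hl.symm.trans hr''l.symm)
      have := h3 r'' (mem_R.mpr ⟨hne2, hne, hr''c⟩) (hr''l.trans hl)
      omega
    · by_cases hy' : r' = y
      · subst hy'
        exact absurd hl.symm h2
      · exact h3 r' (mem_R.mpr ⟨hy', hx', hr'⟩) hl

/-- a good pair in `c` -/
def G (κ z : ℕ) (c : Finset (ℕ × Ty n)) (x y : ℕ × Ty n) : Prop :=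
  x ∈ c ∧ y ∈ c ∧ M.gp κ z c x y

open Classical in
theorem canon_iff {κ z : ℕ} {c : Finset (ℕ × Ty n)} (hκ : 1 ≤ κ)
    (hinj : ∀ x ∈ c, ∀ y ∈ c, x.1 = y.1 → x = y) (x y : ℕ × Ty n) :
    (x ∈ c ∧ y ∈ c ∧ x ≠ y ∧ Model.big κ x.1 y.1 ∧
      M.CR κ z ((c.erase x).erase y) (M.lb y) ∧ M.CP κ z ((c.erase x).erase y) (M.lb y) x ∧
      M.CQ z ((c.erase x).erase y) y) ↔
    (G M κ z c x y ∧ (∀ x' y', G M κ z c x' y' → M.lb y ≤ M.lb y') ∧
      ∀ x', G M κ z c x' y → x.1 ≤ x'.1) := by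
  constructor
  · rintro ⟨hx, hy, hne, hbig, hCR, hCP, hCQ⟩
    obtain ⟨hzx, hcp2, hcp3, hcp4, hcp5⟩ := hCP
    obtain ⟨hzy, hcq⟩ := hCQ
    have hlt := big_lt hκ hbig
    have hsy : M.isSp z c y := by
      refine ⟨hzy, fun y' hy' hl => ?_⟩
      by_cases e1 : y' = y
      · rw [e1]
      · by_cases e2 : y' = x
        · rw [e2]; exact hlt.le
        · exact (hcq y' (mem_R.mpr ⟨e1, e2, hy'⟩) hl).le
    have hnx : ¬ M.isSp z c x := by
      rintro ⟨-, h⟩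
      rcases hcp2 with hl | ⟨r, hr, hl, hrlt⟩
      · exact absurd (h y hy hl.symm) (not_le.mpr hlt)
      · exact absurd (h r (mem_R.mp hr).2.2 hl) (not_le.mpr hrlt)
    have hG : G M κ z c x y := ⟨hx, hy, hzx, hnx, hsy, hcp3, hbig⟩
    have key : ∀ {r}, r ∈ (c.erase x).erase y →
        (M.isSp z c r ↔ M.spR z ((c.erase x).erase y) (M.lb y) r) := fun hr =>
      isSp_iff M hinj hy hzx hnx hsy hr
    refine ⟨hG, ?_, ?_⟩
    · rintro x' y' ⟨hx', hy', hzx', hnx', hsy', htr', hbig'⟩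
      by_contra hlb
      rw [not_le] at hlb
      have e1 : y' ≠ y := by rintro rfl; exact lt_irrefl _ hlb
      have e2 : y' ≠ x := by rintro rfl; exact hnx hsy'
      have hy'R := mem_R.mpr ⟨e1, e2, hy'⟩
      have hsp := (key hy'R).mp hsy'
      have e3 : x' ≠ y := by rintro rfl; exact hnx' hsy
      by_cases e4 : x' = x
      · subst e4
        exact hcp5 y' hy'R hsp hlb ⟨htr', hbig'⟩
      · have hx'R := mem_R.mpr ⟨e3, e4, hx'⟩
        exact hCR y' hy'R hsp hlb x' hx'R hzx' (fun h => hnx' ((key hx'R).mpr h))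
          ⟨htr', hbig'⟩
    · rintro x' ⟨hx', -, hzx', hnx', -, htr', hbig'⟩
      by_contra hlt'
      rw [not_le] at hlt'
      have e3 : x' ≠ y := by rintro rfl; exact hnx' hsy
      have e4 : x' ≠ x := by rintro rfl; exact lt_irrefl _ hlt'
      have hx'R := mem_R.mpr ⟨e3, e4, hx'⟩
      exact htr' (hcp4 x' hx'R hlt' hzx' (fun h => hnx' ((key hx'R).mpr h)))
  · rintro ⟨⟨hx, hy, hzx, hnx, hsy, htr, hbig⟩, hmin1, hmin2⟩
    have hlt := big_lt hκ hbig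
    have hne : x ≠ y := by rintro rfl; exact hnx hsy
    have key : ∀ {r}, r ∈ (c.erase x).erase y →
        (M.isSp z c r ↔ M.spR z ((c.erase x).erase y) (M.lb y) r) := fun hr =>
      isSp_iff M hinj hy hzx hnx hsy hr
    refine ⟨hx, hy, hne, hbig, ?_, ⟨hzx, ?_, htr, ?_, ?_⟩, hsy.1, ?_⟩
    · intro y' hy' hsp hlb r hr hzr hnr hh
      have : G M κ z c r y' := ⟨(mem_R.mp hr).2.2, (mem_R.mp hy').2.2, hzr,
        fun h => hnr ((key hr).mp h), (key hy').mpr hsp, hh.1, hh.2⟩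
      exact absurd (hmin1 r y' this) (not_le.mpr hlb)
    · have : ¬ (∀ y ∈ c, M.lb y = M.lb x → y.1 ≤ x.1) := fun hh => hnx ⟨hzx, hh⟩
      push Not at this
      obtain ⟨r, hrc, hrl, hrlt⟩ := this
      by_cases e : r = y
      · left; rw [← e]; exact hrl.symm
      · right
        refine ⟨r, mem_R.mpr ⟨e, ?_, hrc⟩, hrl, hrlt⟩
        rintro rfl
        exact lt_irrefl _ hrlt
    · intro r hr hrx hzr hnr
      by_contra htr'
      have : G M κ z c r y := ⟨(mem_R.mp hr).2.2, hy, hzr, fun h => hnr ((key hr).mp h), hsy,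
        htr', big_mono hrx.le hbig⟩
      have := hmin2 r this
      omega
    · rintro y' hy' hsp hlb ⟨htr', hbig'⟩
      have : G M κ z c x y' := ⟨hx, (mem_R.mp hy').2.2, hzx, hnx, (key hy').mpr hsp, htr', hbig'⟩
      exact absurd (hmin1 x y' this) (not_le.mpr hlb)
    · intro r hr hl
      obtain ⟨e1, e2, hrc⟩ := mem_R.mp hr
      exact lt_of_le_of_ne (hsy.2 r hrc hl) (fun h => e1 (hinj r hrc y hy h))

theorem sp_unique {z : ℕ} {c : Finset (ℕ × Ty n)}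
    (hinj : ∀ x ∈ c, ∀ y ∈ c, x.1 = y.1 → x = y) {y y' : ℕ × Ty n} (hy : y ∈ c) (hy' : y' ∈ c)
    (h : M.isSp z c y) (h' : M.isSp z c y') (hl : M.lb y = M.lb y') : y = y' :=
  hinj y hy y' hy' (le_antisymm (h'.2 y hy hl) (h.2 y' hy' hl.symm))

end CANON2_

open CANON2_

theorem p_CANON2 : T_CANON2 := by
  classical
  intro m n M κ z c hκ _ hinj hU
  obtain ⟨x₀, hx₀, y₀, hy₀, hg₀⟩ := hU
  -- choose the minimal label
  let S : Finset ((ℕ × Ty n) × (ℕ × Ty n)) := (c ×ˢ c).filter (fun w => M.gp κ z c w.1 w.2)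
  have hSne : S.Nonempty := ⟨(x₀, y₀), by simp [S, hx₀, hy₀, hg₀]⟩
  obtain ⟨w₁, hw₁, hmin₁⟩ := Finset.exists_min_image S (fun w => M.lb w.2) hSne
  let S' : Finset ((ℕ × Ty n) × (ℕ × Ty n)) := S.filter (fun w => w.2 = w₁.2)
  have hS'ne : S'.Nonempty := ⟨w₁, by simp [S', hw₁]⟩
  obtain ⟨w, hw, hmin⟩ := Finset.exists_min_image S' (fun w => w.1.1) hS'ne
  have hmemS : ∀ w : (ℕ × Ty n) × (ℕ × Ty n), w ∈ S ↔ G M κ z c w.1 w.2 := by
    intro w
    simp [S, G, and_assoc]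
  have hwS : w ∈ S := (Finset.mem_filter.mp hw).1
  have hw2 : w.2 = w₁.2 := (Finset.mem_filter.mp hw).2
  refine ⟨w, ?_, ?_⟩
  · refine (canon_iff M hκ hinj w.1 w.2).mpr ⟨(hmemS w).mp hwS, ?_, ?_⟩
    · intro x' y' hG
      rw [hw2]
      exact hmin₁ (x', y') ((hmemS (x', y')).mpr hG)
    · intro x' hG
      exact hmin (x', w.2) (Finset.mem_filter.mpr ⟨(hmemS (x', w.2)).mpr hG, hw2⟩)
  · intro v hv
    obtain ⟨hGv, hv1, hv2⟩ := (canon_iff M hκ hinj v.1 v.2).mp hv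
    have hGw := (hmemS w).mp hwS
    have hl : M.lb v.2 = M.lb w.2 := by
      apply le_antisymm
      · exact hv1 _ _ hGw
      · rw [hw2]
        exact hmin₁ v ((hmemS v).mpr hGv)
    have he2 : v.2 = w.2 := sp_unique M hinj hGv.2.1 hGw.2.1 hGv.2.2.2.2.1 hGw.2.2.2.2.1 hl
    have he1 : v.1.1 = w.1.1 := by
      apply le_antisymm
      · exact hv2 w.1 (by rw [he2]; exact hGw)
      · exact hmin v (Finset.mem_filter.mpr ⟨(hmemS v).mpr hGv, he2.trans hw2⟩)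
    exact Prod.ext (hinj _ hGv.1 _ hGw.1 he1) he2

end Pool.Agent.QTx
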