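import Pool.Agent.QTx.Targets
import Pool.Agent.QTw.UNB

/-!
# INNER2: the inner bilinear sum
-/

open Pool.Agent.QTw (primesTo cfgs)

namespace Pool.Agent.QTx

namespace INNER2_

variable {m n : ℕ} (M : Model m n)

open Classical in
/-- the weight of the rest -/
noncomputable def RP (a : ℕ → Fin n → Fin n → ℝ) (z : ℕ) (R : Finset (ℕ × Ty n))
    (i : Fin m) : ℝ :=
  (∏ r ∈ R, if ¬ M.vld r then 0 else
      if r.1 ≤ z ∨ M.spR z R i r then (if r.2.2 = ∅ then 1 else 0) else
        (∏ j ∈ r.2.2, a r.1 r.2.1 j) / 2 ^ (M.rn r.1 - 1)) *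
    ∏ w ∈ R.offDiag, M.om w.1 w.2

lemma abs_prod_le {α : Type} (s : Finset α) (f : α → ℝ) (h : ∀ x ∈ s, |f x| ≤ 1) :
    |∏ x ∈ s, f x| ≤ 1 := by
  rw [Finset.abs_prod]
  exact Finset.prod_le_one (fun _ _ => abs_nonneg _) h

lemma abs_om (hb : M.Bounded) (x y : ℕ × Ty n) : |M.om x y| ≤ 1 :=
  abs_prod_le _ _ (fun _ _ => hb.sgn_le _ _ _ _ _)

lemma abs_div_pow {x : ℝ} (hx : |x| ≤ 1) (k : ℕ) : |x / 2 ^ k| ≤ 1 := by
  have h2 : (1 : ℝ) ≤ 2 ^ k := one_le_pow₀ (by norm_num)
  rw [abs_div, abs_of_pos (by positivity : (0 : ℝ) < 2 ^ k)]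
  rw [div_le_one (by positivity)]
  linarith

lemma abs_mul_le {x y : ℝ} (hx : |x| ≤ 1) (hy : |y| ≤ 1) : |x * y| ≤ 1 := by
  rw [abs_mul]
  exact mul_le_one₀ hx (abs_nonneg _) hy

open Classical in
lemma abs_RP (hb : M.Bounded) (a : ℕ → Fin n → Fin n → ℝ) (ha : ∀ p j j', |a p j j'| ≤ 1)
    (z : ℕ) (R : Finset (ℕ × Ty n)) (i : Fin m) : |RP M a z R i| ≤ 1 := by
  unfold RP
  refine abs_mul_le (abs_prod_le _ _ fun r _ => ?_) (abs_prod_le _ _ fun w _ => abs_om M hb _ _)
  split_ifs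
  all_goals first
    | exact abs_div_pow (abs_prod_le _ _ fun j _ => ha _ _ _) _
    | simp

/-- conditions on the smaller prime -/
def PC (κ N z : ℕ) (R : Finset (ℕ × Ty n)) (i : Fin m) (t : Ty n) (p : ℕ) : Prop :=
  p.Prime ∧ ¬ p ∣ N ∧ (∀ r ∈ R, r.1 ≠ p) ∧ M.CP κ z R i (p, t)

/-- conditions on the larger prime -/
def QC (N z : ℕ) (R : Finset (ℕ × Ty n)) (t : Ty n) (q : ℕ) : Prop :=
  q.Prime ∧ ¬ q ∣ N ∧ (∀ r ∈ R, r.1 ≠ q) ∧ M.CQ z R (q, t)

open Classical in
/-- the coefficient of the smaller prime -/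
noncomputable def al (a : ℕ → Fin n → Fin n → ℝ) (κ N z : ℕ) (R : Finset (ℕ × Ty n))
    (i : Fin m) (t : Ty n) (p : ℕ) : ℝ :=
  if PC M κ N z R i t p then
    ((if M.vld (p, t) then (∏ j ∈ t.2, a p t.1 j) / 2 ^ (M.rn p - 1) else 0) *
      ∏ r ∈ R, (M.om (p, t) r * M.om r (p, t))) else 0

open Classical in
/-- the coefficient of the larger prime -/
noncomputable def be (N z : ℕ) (R : Finset (ℕ × Ty n)) (t : Ty n) (q : ℕ) : ℝ :=
  if QC M N z R t q then
    ((if M.vld (q, t) ∧ t.2 = ∅ then 1 else 0) * ∏ r ∈ R, M.om r (q, t)) else 0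

open Classical in
lemma abs_al (hb : M.Bounded) (a : ℕ → Fin n → Fin n → ℝ) (ha : ∀ p j j', |a p j j'| ≤ 1)
    (κ N z : ℕ) (R : Finset (ℕ × Ty n)) (i : Fin m) (t : Ty n) (p : ℕ) :
    |al M a κ N z R i t p| ≤ 1 := by
  unfold al
  split_ifs
  · refine abs_mul_le (abs_div_pow (abs_prod_le _ _ fun j _ => ha _ _ _) _)
      (abs_prod_le _ _ fun r _ => abs_mul_le (abs_om M hb _ _) (abs_om M hb _ _))
  · simp
  · simp

open Classical in
lemma abs_be (hb : M.Bounded) (N z : ℕ) (R : Finset (ℕ × Ty n)) (t : Ty n) (q : ℕ) :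
    |be M N z R t q| ≤ 1 := by
  unfold be
  split_ifs
  · refine abs_mul_le (by simp) (abs_prod_le _ _ fun r _ => abs_om M hb _ _)
  · simp
  · simp

lemma big_lt {κ p q : ℕ} (hκ : 1 ≤ κ) (h : Model.big κ p q) : p < q := by
  unfold Model.big at h
  have h1 : Nat.log 2 p + 1 ≤ Nat.log 2 q :=
    le_trans (Nat.le_mul_of_pos_left _ hκ) h
  by_contra h2
  have h3 := Nat.log_mono_right (b := 2) (not_lt.mp h2)
  omega

open Classical in
lemma W_eq (hS : T_SPLIT2) (a : ℕ → Fin n → Fin n → ℝ) (κ N z X : ℕ) (hκ : 1 ≤ κ)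
    (R : Finset (ℕ × Ty n)) (i : Fin m) (t t' : Ty n) (p q : ℕ) (hi : M.lab q t'.1 = i)
    (hC : M.Cd κ N z X R (p, t) (q, t')) :
    M.W a z (insert (p, t) (insert (q, t') R)) =
      RP M a z R i * (al M a κ N z R i t p * be M N z R t' q * M.om (p, t) (q, t')) := by
  obtain ⟨hp, hpN, hq, hqN, hR, hX, hbig, hCR, hCP, hCQ⟩ := hC
  have hlb : M.lb (q, t') = i := hi
  rw [hlb] at hCR hCP
  have hne := big_lt hκ hbig
  simp only at hne
  rw [hS m n M a κ z R (p, t) (q, t') hκ (fun h => (hR _ h).1 rfl) (fun h => (hR _ h).2 rfl)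
    (fun h => by
      have := congrArg Prod.fst h
      simp only at this
      omega) hp.two_le hR hbig (by rw [hlb]; exact hCP) hCQ, hlb]
  unfold RP al be
  rw [if_pos (show PC M κ N z R i t p from ⟨hp, hpN, fun r hr => (hR r hr).1, hCP⟩),
    if_pos (show QC M N z R t' q from ⟨hq, hqN, fun r hr => (hR r hr).2, hCQ⟩)]
  ring

open Classical in
lemma W_zero (hS : T_SPLIT2) (a : ℕ → Fin n → Fin n → ℝ) (κ N z X : ℕ) (hκ : 1 ≤ κ)
    (R : Finset (ℕ × Ty n)) (t t' : Ty n) (p q : ℕ)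
    (hC : M.Cd κ N z X R (p, t) (q, t'))
    (h : ¬ M.vld (p, t) ∨ ¬ M.vld (q, t') ∨ t'.2 ≠ ∅) :
    M.W a z (insert (p, t) (insert (q, t') R)) = 0 := by
  rw [W_eq M hS a κ N z X hκ R (M.lab q t'.1) t t' p q rfl hC]
  rcases h with h | h
  · have : al M a κ N z R (M.lab q t'.1) t p = 0 := by
      unfold al
      rw [if_neg h]
      simp
    rw [this]
    ring
  · have : be M N z R t' q = 0 := by
      have h5 : ¬ (M.vld (q, t') ∧ t'.2 = ∅) := by
        rintro ⟨h6, h7⟩
        rcases h with h | h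
        · exact h h6
        · exact h h7
      unfold be
      rw [if_neg h5]
      simp
    rw [this]
    ring

open Classical in
lemma one (hS : T_SPLIT2) (a : ℕ → Fin n → Fin n → ℝ) (κ N z X : ℕ) (B₀ : ℝ)
    (R : Finset (ℕ × Ty n)) (hκ : 1 ≤ κ) (hB₀ : 0 ≤ B₀) (hz : 1 ≤ z) (hb : M.Bounded)
    (ha : ∀ p j j', |a p j j'| ≤ 1) (hBil : M.Bil κ N B₀) (hR : R ∈ cfgs (Ty n) N X)
    (t : Ty n) (k : Fin n) (i : Fin m) :
    |∑ p ∈ Finset.range (X + 1), ∑ q ∈ Finset.range (X + 1),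
        if M.lab q k = i ∧ M.Cd κ N z X R (p, t) (q, (k, ∅)) then
          M.W a z (insert (p, t) (insert (q, (k, ∅)) R)) else 0| ≤
      B₀ * (X / ((∏ r ∈ R, r.1 : ℕ) : ℝ)) / (z : ℝ) ^ ((1 : ℝ) / 3) := by
  rw [QTw.UNB_.mem_cfgs] at hR
  set P : ℕ := ∏ x ∈ R, x.1 with hP
  have hP0 : 0 < P := Finset.prod_pos (fun r hr => (hR.1 r hr).1.pos)
  set Y : ℕ := X / P with hY
  have hYX : Y ≤ X := Nat.div_le_self _ _
  have hYr : (Y : ℝ) ≤ X / (P : ℝ) := @Nat.cast_div_le ℝ _ _ _ X P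
  have hnonneg : 0 ≤ B₀ * (X / (P : ℝ)) / (z : ℝ) ^ ((1 : ℝ) / 3) := by positivity
  by_cases hCR : M.CR κ z R i
  swap
  · rw [Finset.sum_eq_zero]
    · rw [abs_zero]
      exact hnonneg
    · intro p _
      refine Finset.sum_eq_zero (fun q _ => if_neg (fun h => hCR ?_))
      obtain ⟨hi, -, -, -, -, -, -, -, h, -, -⟩ := h
      have hlb : M.lb (q, ((k, ∅) : Ty n)) = i := hi
      rw [hlb] at h
      exact h
  have key : (∑ p ∈ Finset.range (X + 1), ∑ q ∈ Finset.range (X + 1),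
        if M.lab q k = i ∧ M.Cd κ N z X R (p, t) (q, (k, ∅)) then
          M.W a z (insert (p, t) (insert (q, (k, ∅)) R)) else 0) =
      ∑ p ∈ (primesTo N Y).filter (fun p => z < p ∧ M.vld (p, (t.1, t.2)) ∧ ¬ M.Tr p t.1 t.2 i),
        ∑ q ∈ (primesTo N Y).filter (fun q => Model.big κ p q ∧ p * q ≤ Y ∧ (k : ℕ) < M.rn q ∧
          M.lab q k = i),
        RP M a z R i * (al M a κ N z R i t p * be M N z R (k, ∅) q *
          M.om (p, (t.1, t.2)) (q, (k, ∅))) := by
    refine QTw.UNB_.sum_sum_ite _ _ _ ?_ ?_ _ _ ?_ ?_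
    · intro p hp
      rw [Finset.mem_filter, primesTo, Finset.mem_filter, Finset.mem_range] at hp
      rw [Finset.mem_range]
      omega
    · intro p _ q hq
      rw [Finset.mem_filter, primesTo, Finset.mem_filter, Finset.mem_range] at hq
      rw [Finset.mem_range]
      omega
    · intro p hp q hq
      rw [Finset.mem_filter, primesTo, Finset.mem_filter, Finset.mem_range] at hp hq
      obtain ⟨⟨hp1, hp2, hp3⟩, hp4, hp5, hp6⟩ := hp
      obtain ⟨⟨hq1, hq2, hq3⟩, hq4, hq5, hq6, hq7⟩ := hq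
      by_cases hPC : PC M κ N z R i t p
      · by_cases hQC : QC M N z R (k, ∅) q
        · have hc : M.Cd κ N z X R (p, t) (q, (k, ∅)) := by
            have hlb : M.lb (q, ((k, ∅) : Ty n)) = i := hq7
            refine ⟨hp2, hp3, hq2, hq3, fun r hr => ⟨hPC.2.2.1 r hr, hQC.2.2.1 r hr⟩, ?_, hq4,
              ?_, ?_, hQC.2.2.2⟩
            · rw [hY, Nat.le_div_iff_mul_le hP0] at hq5
              exact hq5
            · rw [hlb]
              exact hCR
            · rw [hlb]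
              exact hPC.2.2.2
          rw [if_pos ⟨hq7, hc⟩]
          exact W_eq M hS a κ N z X hκ R i t (k, ∅) p q hq7 hc
        · rw [if_neg]
          · have : be M N z R (k, ∅) q = 0 := by
              unfold be
              rw [if_neg hQC]
            rw [this]
            ring
          · rintro ⟨-, h1, h2, h3, h4, h5, h6, h7, h8, h9, h10⟩
            exact hQC ⟨h3, h4, fun r hr => (h5 r hr).2, h10⟩
      · rw [if_neg]
        · have : al M a κ N z R i t p = 0 := by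
            unfold al
            rw [if_neg hPC]
          rw [this]
          ring
        · rintro ⟨h0, h1, h2, h3, h4, h5, h6, h7, h8, h9, h10⟩
          have hlb : M.lb (q, ((k, ∅) : Ty n)) = i := h0
          rw [hlb] at h9
          exact hPC ⟨h1, h2, fun r hr => (h5 r hr).1, h9⟩
    · intro p q hp hq hn
      split_ifs with hc
      · obtain ⟨h0, hc⟩ := hc
        by_contra hW
        apply hn
        have hv : M.vld (p, t) ∧ M.vld (q, ((k, ∅) : Ty n)) := by
          constructor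
          · by_contra h
            exact hW (W_zero M hS a κ N z X hκ R t (k, ∅) p q hc (Or.inl h))
          · by_contra h
            exact hW (W_zero M hS a κ N z X hκ R t (k, ∅) p q hc (Or.inr (Or.inl h)))
        obtain ⟨h1, h2, h3, h4, h5, h6, h7, h8, h9, h10⟩ := hc
        have hlb : M.lb (q, ((k, ∅) : Ty n)) = i := h0
        rw [hlb] at h9 h8
        have hpq : p < q := big_lt hκ h7
        have h11 : p * q ≤ Y := by
          rw [hY, Nat.le_div_iff_mul_le hP0]
          exact h6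
        have h12 : q ≤ Y := le_trans (Nat.le_mul_of_pos_left q h1.pos) h11
        rw [Finset.mem_filter, primesTo, Finset.mem_filter, Finset.mem_range, Finset.mem_filter,
          Finset.mem_filter, Finset.mem_range]
        exact ⟨⟨⟨by omega, h1, h2⟩, h9.1, hv.1, h9.2.2.1⟩, ⟨by omega, h3, h4⟩, h7, h11, hv.2.1, h0⟩
      · rfl
  rw [key]
  simp_rw [← Finset.mul_sum]
  rw [abs_mul]
  have h3 := hBil t.1 k t.2 i (al M a κ N z R i t) (be M N z R (k, ∅))
    (fun p => abs_al M hb a ha κ N z R i t p) (fun q => abs_be M hb N z R (k, ∅) q) z Y hz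
  calc |RP M a z R i| * _ ≤ 1 * (B₀ * Y / (z : ℝ) ^ ((1 : ℝ) / 3)) :=
        mul_le_mul (abs_RP M hb a ha z R i) h3 (abs_nonneg _) zero_le_one
    _ ≤ B₀ * (X / (P : ℝ)) / (z : ℝ) ^ ((1 : ℝ) / 3) := by
        rw [one_mul]
        gcongr

end INNER2_

open INNER2_ in
open Classical in
theorem p_INNER2 (h1 : T_SPLIT2) : T_INNER2 := by
  intro m n M a κ N z X B₀ R hκ hB₀ hz hb ha hBil hR
  set V : ℝ := B₀ * (X / ((∏ r ∈ R, r.1 : ℕ) : ℝ)) / (z : ℝ) ^ ((1 : ℝ) / 3) with hV
  have hone := one M h1 a κ N z X B₀ R hκ hB₀ hz hb ha hBil hR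
  have key : (∑ x ∈ Finset.range (X + 1) ×ˢ (Finset.univ : Finset (Ty n)),
      ∑ y ∈ Finset.range (X + 1) ×ˢ (Finset.univ : Finset (Ty n)),
        if M.Cd κ N z X R x y then M.W a z (insert x (insert y R)) else 0) =
      ∑ t : Ty n, ∑ k : Fin n, ∑ i : Fin m, ∑ p ∈ Finset.range (X + 1),
        ∑ q ∈ Finset.range (X + 1),
          if M.lab q k = i ∧ M.Cd κ N z X R (p, t) (q, (k, ∅)) then
            M.W a z (insert (p, t) (insert (q, (k, ∅)) R)) else 0 := by
    rw [Finset.sum_product_right]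
    refine Finset.sum_congr rfl (fun t _ => ?_)
    have e1 : ∀ p : ℕ, (∑ y ∈ Finset.range (X + 1) ×ˢ (Finset.univ : Finset (Ty n)),
        if M.Cd κ N z X R (p, t) y then M.W a z (insert (p, t) (insert y R)) else 0) =
        ∑ k : Fin n, ∑ i : Fin m, ∑ q ∈ Finset.range (X + 1),
          if M.lab q k = i ∧ M.Cd κ N z X R (p, t) (q, (k, ∅)) then
            M.W a z (insert (p, t) (insert (q, (k, ∅)) R)) else 0 := by
      intro p
      rw [Finset.sum_product_right, Fintype.sum_prod_type]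
      refine Finset.sum_congr rfl (fun k _ => ?_)
      rw [Finset.sum_eq_single (∅ : Finset (Fin n))]
      · rw [Finset.sum_comm]
        refine Finset.sum_congr rfl (fun q _ => ?_)
        rw [Finset.sum_eq_single (M.lab q k)]
        · simp
        · intro i _ hi
          rw [if_neg (fun h => hi h.1.symm)]
        · intro h
          exact absurd (Finset.mem_univ _) h
      · intro S _ hS
        refine Finset.sum_eq_zero (fun q _ => ?_)
        split_ifs with hc
        · exact W_zero M h1 a κ N z X hκ R t (k, S) p q hc (Or.inr (Or.inr hS))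
        · rfl
      · intro h
        exact absurd (Finset.mem_univ _) h
    rw [Finset.sum_congr rfl (fun p _ => e1 p), Finset.sum_comm]
    refine Finset.sum_congr rfl (fun k _ => ?_)
    rw [Finset.sum_comm]
  rw [key]
  calc |∑ t : Ty n, ∑ k : Fin n, ∑ i : Fin m, ∑ p ∈ Finset.range (X + 1),
        ∑ q ∈ Finset.range (X + 1),
          if M.lab q k = i ∧ M.Cd κ N z X R (p, t) (q, (k, ∅)) then
            M.W a z (insert (p, t) (insert (q, (k, ∅)) R)) else 0|
      ≤ ∑ t : Ty n, ∑ k : Fin n, ∑ i : Fin m, V := by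
        refine (Finset.abs_sum_le_sum_abs _ _).trans (Finset.sum_le_sum (fun t _ => ?_))
        refine (Finset.abs_sum_le_sum_abs _ _).trans (Finset.sum_le_sum (fun k _ => ?_))
        refine (Finset.abs_sum_le_sum_abs _ _).trans (Finset.sum_le_sum (fun i _ => ?_))
        exact hone t k i
    _ = ((m : ℝ) * n ^ 2 * 2 ^ n) * B₀ * (X / ((∏ r ∈ R, r.1 : ℕ) : ℝ)) /
        (z : ℝ) ^ ((1 : ℝ) / 3) := by
        simp only [Finset.sum_const, Finset.card_univ, Fintype.card_prod, Fintype.card_fin,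
          Fintype.card_finset, nsmul_eq_mul, hV]
        push_cast
        ring

end Pool.Agent.QTx
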