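import Pool.Agent.QTx.Targets
import Pool.Agent.QTw.UNB

/-!
# REARR2: sorting the configurations by the rest
-/

open Pool.Agent.QTw (cfgs IsCfg)

namespace Pool.Agent.QTx

namespace REARR2_

lemma big_lt {κ p q : ℕ} (hκ : 1 ≤ κ) (h : Model.big κ p q) : p < q := by
  unfold Model.big at h
  have h1 : Nat.log 2 p + 1 ≤ κ * (Nat.log 2 p + 1) := Nat.le_mul_of_pos_left _ hκ
  have h2 : Nat.log 2 p < Nat.log 2 q := by omega
  by_contra hc
  push Not at hc
  have h3 : Nat.log 2 q ≤ Nat.log 2 p := Nat.log_mono_right hc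
  omega

variable {m n : ℕ} (M : Model m n)

open Classical in
lemma cond_mem {κ N z X : ℕ} (hκ : 1 ≤ κ) {R : Finset (ℕ × Ty n)} {x y : ℕ × Ty n}
    (hR : R ∈ cfgs (Ty n) N X) (h : M.Cd κ N z X R x y) :
    insert x (insert y R) ∈ (cfgs (Ty n) N X).filter (fun c => M.Unb κ z c) := by
  obtain ⟨hp, hpN, hq, hqN, hRn, hX, hbig, hcr, hcp, hcq⟩ := h
  rw [QTw.UNB_.mem_cfgs] at hR
  have hlt : x.1 < y.1 := big_lt hκ hbig
  have hyn : y ∉ R := fun h => (hRn y h).2 rfl
  have hxn : x ∉ insert y R := by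
    rw [Finset.mem_insert]
    rintro (h | h)
    · rw [h] at hlt
      exact lt_irrefl _ hlt
    · exact (hRn x h).1 rfl
  rw [Finset.mem_filter, QTw.UNB_.mem_cfgs]
  refine ⟨⟨?_, ?_, ?_⟩, ⟨x, by simp, y, by simp, ?_⟩⟩
  · intro w hw
    rw [Finset.mem_insert, Finset.mem_insert] at hw
    rcases hw with rfl | rfl | hw
    · exact ⟨hp, hpN⟩
    · exact ⟨hq, hqN⟩
    · exact hR.1 w hw
  · intro w hw w' hw' hww
    rw [Finset.mem_insert, Finset.mem_insert] at hw hw'
    rcases hw with rfl | rfl | hw <;> rcases hw' with rfl | rfl | hw'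
    · rfl
    · omega
    · exact absurd hww.symm (hRn w' hw').1
    · omega
    · rfl
    · exact absurd hww.symm (hRn w' hw').2
    · exact absurd hww (hRn w hw).1
    · exact absurd hww (hRn w hw).2
    · exact hR.2.1 w hw w' hw' hww
  · rw [Finset.prod_insert hxn, Finset.prod_insert hyn, ← mul_assoc]
    exact hX
  · refine ⟨hcp.1, ?_, ⟨hcq.1, ?_⟩, hcp.2.2.1, hbig⟩
    · rintro ⟨-, hs⟩
      rcases hcp.2.1 with h | ⟨r, hr, h1, h2⟩
      · have := hs y (by simp) h.symm
        omega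
      · have := hs r (by simp [hr]) h1
        omega
    · intro w hw hl
      rw [Finset.mem_insert, Finset.mem_insert] at hw
      rcases hw with rfl | rfl | hw
      · exact hlt.le
      · exact le_rfl
      · exact (hcq.2 w hw hl).le

open Classical in
lemma erase_insert2 {R : Finset (ℕ × Ty n)} {x y : ℕ × Ty n} (hx : x ∉ R) (hy : y ∉ R)
    (hxy : x ≠ y) : ((insert x (insert y R)).erase x).erase y = R := by
  rw [Finset.erase_insert, Finset.erase_insert hy]
  rw [Finset.mem_insert]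
  rintro (h | h)
  · exact hxy h
  · exact hx h

open Classical in
/-- the canonical pair of the configuration is the given one -/
lemma canon (hC : T_CANON2) {κ N z X : ℕ} (hκ : 1 ≤ κ) {R : Finset (ℕ × Ty n)}
    {x y : ℕ × Ty n} (hR : R ∈ cfgs (Ty n) N X) (h : M.Cd κ N z X R x y) :
    ((insert x (insert y R)).erase x).erase y = R ∧
    ∀ w : (ℕ × Ty n) × (ℕ × Ty n), w.1 ∈ insert x (insert y R) → w.2 ∈ insert x (insert y R) →
      w.1 ≠ w.2 → Model.big κ w.1.1 w.2.1 →
      M.CR κ z (((insert x (insert y R)).erase w.1).erase w.2) (M.lb w.2) →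
      M.CP κ z (((insert x (insert y R)).erase w.1).erase w.2) (M.lb w.2) w.1 →
      M.CQ z (((insert x (insert y R)).erase w.1).erase w.2) w.2 → w = (x, y) := by
  have hm := cond_mem M hκ hR h
  rw [Finset.mem_filter, QTw.UNB_.mem_cfgs] at hm
  obtain ⟨hp, hpN, hq, hqN, hRn, hX, hbig, hcr, hcp, hcq⟩ := h
  have hlt : x.1 < y.1 := big_lt hκ hbig
  have hxn : x ∉ R := fun h => (hRn x h).1 rfl
  have hyn : y ∉ R := fun h => (hRn y h).2 rfl
  have hne : x ≠ y := fun h => by
    rw [h] at hlt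
    exact lt_irrefl _ hlt
  have e1 := erase_insert2 hxn hyn hne
  refine ⟨e1, ?_⟩
  obtain ⟨u, -, hu⟩ := hC m n M κ z (insert x (insert y R)) hκ
    (fun w hw => (hm.1.1 w hw).1.two_le) hm.1.2.1 hm.2
  have e2 : (x, y) = u := hu (x, y) ⟨by simp, by simp, hne, hbig, by
    simp only
    rw [e1]
    exact hcr, by
    simp only
    rw [e1]
    exact hcp, by
    simp only
    rw [e1]
    exact hcq⟩
  intro w h1 h2 h3 h4 h5 h6 h7
  rw [e2]
  exact hu w ⟨h1, h2, h3, h4, h5, h6, h7⟩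

end REARR2_

open REARR2_ in
open Classical in
theorem p_REARR2 (h1 : T_CANON2) : T_REARR2 := by
  intro m n M κ N z X F hκ
  have hs : (∑ R ∈ cfgs (Ty n) N X,
      ∑ x ∈ Finset.range (X + 1) ×ˢ (Finset.univ : Finset (Ty n)),
      ∑ y ∈ Finset.range (X + 1) ×ˢ (Finset.univ : Finset (Ty n)),
        if M.Cd κ N z X R x y then F (insert x (insert y R)) else 0) =
      ∑ d ∈ (cfgs (Ty n) N X ×ˢ ((Finset.range (X + 1) ×ˢ (Finset.univ : Finset (Ty n))) ×ˢ
        (Finset.range (X + 1) ×ˢ (Finset.univ : Finset (Ty n))))),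
        if M.Cd κ N z X d.1 d.2.1 d.2.2 then F (insert d.2.1 (insert d.2.2 d.1)) else 0 := by
    rw [Finset.sum_product]
    refine Finset.sum_congr rfl (fun R _ => ?_)
    exact (Finset.sum_product (Finset.range (X + 1) ×ˢ (Finset.univ : Finset (Ty n)))
      (Finset.range (X + 1) ×ˢ (Finset.univ : Finset (Ty n)))
      (fun w => if M.Cd κ N z X R w.1 w.2 then F (insert w.1 (insert w.2 R)) else 0)).symm
  rw [hs, ← Finset.sum_filter]
  symm
  refine Finset.sum_bij (fun d _ => insert d.2.1 (insert d.2.2 d.1)) ?_ ?_ ?_ ?_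
  · rintro ⟨R, x, y⟩ hd
    rw [Finset.mem_filter, Finset.mem_product] at hd
    exact cond_mem M hκ hd.1.1 hd.2
  · rintro ⟨R, x, y⟩ hd ⟨R', x', y'⟩ hd' heq
    rw [Finset.mem_filter, Finset.mem_product] at hd hd'
    simp only at hd hd' heq
    obtain ⟨e1, hu⟩ := canon M h1 hκ hd.1.1 hd.2
    obtain ⟨e1', -⟩ := canon M h1 hκ hd'.1.1 hd'.2
    obtain ⟨hp', hpN', hq', hqN', hRn', hX', hbig', hcr', hcp', hcq'⟩ := hd'.2
    have hlt' : x'.1 < y'.1 := big_lt hκ hbig'
    have hne' : x' ≠ y' := fun h => by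
      rw [h] at hlt'
      exact lt_irrefl _ hlt'
    have e3 := hu (x', y') (by
      rw [heq]
      simp) (by
      rw [heq]
      simp) hne' hbig' (by
      simp only
      rw [heq, e1']
      exact hcr') (by
      simp only
      rw [heq, e1']
      exact hcp') (by
      simp only
      rw [heq, e1']
      exact hcq')
    simp only [Prod.mk.injEq] at e3
    obtain ⟨rfl, rfl⟩ := e3
    rw [heq] at e1
    rw [e1] at e1'
    rw [e1']
  · intro c hc
    rw [Finset.mem_filter, QTw.UNB_.mem_cfgs] at hc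
    obtain ⟨hcc, hU⟩ := hc
    obtain ⟨w, ⟨hw1, hw2, hw3, hw4, hw5, hw6, hw7⟩, -⟩ := h1 m n M κ z c hκ
      (fun x hx => (hcc.1 x hx).1.two_le) hcc.2.1 hU
    obtain ⟨x, y⟩ := w
    simp only at hw1 hw2 hw3 hw4 hw5 hw6 hw7
    have hp := hcc.1 _ hw1
    have hq := hcc.1 _ hw2
    have hlt : x.1 < y.1 := big_lt hκ hw4
    have hy2 : y ∈ c.erase x := Finset.mem_erase.mpr ⟨fun h => hw3 h.symm, hw2⟩
    have e1 : insert x (insert y ((c.erase x).erase y)) = c := by
      rw [Finset.insert_erase hy2, Finset.insert_erase hw1]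
    have hsub : (c.erase x).erase y ⊆ c :=
      (Finset.erase_subset _ _).trans (Finset.erase_subset _ _)
    have hprod : x.1 * (y.1 * ∏ r ∈ (c.erase x).erase y, r.1) = ∏ r ∈ c, r.1 := by
      rw [← Finset.mul_prod_erase c (fun r => r.1) hw1,
        ← Finset.mul_prod_erase (c.erase x) (fun r => r.1) hy2]
    have hpos : 0 < ∏ r ∈ (c.erase x).erase y, r.1 :=
      Finset.prod_pos (fun r hr => (hcc.1 r (hsub hr)).1.pos)
    refine ⟨⟨(c.erase x).erase y, x, y⟩, ?_, e1⟩
    have hXX := hcc.2.2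
    rw [← hprod] at hXX
    have hpX : x.1 ≤ X := by
      calc x.1 = x.1 * (1 * 1) := by ring
        _ ≤ x.1 * (y.1 * ∏ r ∈ (c.erase x).erase y, r.1) :=
          Nat.mul_le_mul_left _ (Nat.mul_le_mul hq.1.pos hpos)
        _ ≤ X := hXX
    have hqX : y.1 ≤ X := by
      calc y.1 = 1 * (y.1 * 1) := by ring
        _ ≤ x.1 * (y.1 * ∏ r ∈ (c.erase x).erase y, r.1) :=
          Nat.mul_le_mul hp.1.pos (Nat.mul_le_mul_left _ hpos)
        _ ≤ X := hXX
    have hRc : (c.erase x).erase y ∈ cfgs (Ty n) N X := by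
      rw [QTw.UNB_.mem_cfgs]
      refine ⟨fun x hx => hcc.1 x (hsub hx), fun x hx y hy => hcc.2.1 x (hsub hx) y (hsub hy), ?_⟩
      refine le_trans ?_ hXX
      calc ∏ r ∈ (c.erase x).erase y, r.1
          = 1 * (1 * ∏ r ∈ (c.erase x).erase y, r.1) := by ring
        _ ≤ _ := Nat.mul_le_mul hp.1.pos (Nat.mul_le_mul hq.1.pos le_rfl)
    have hRn : ∀ r ∈ (c.erase x).erase y, r.1 ≠ x.1 ∧ r.1 ≠ y.1 := by
      intro r hr
      refine ⟨fun hrp => ?_, fun hrp => ?_⟩
      · have := hcc.2.1 r (hsub hr) _ hw1 hrp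
        rw [this] at hr
        simp at hr
      · have := hcc.2.1 r (hsub hr) _ hw2 hrp
        rw [this] at hr
        simp at hr
    rw [Finset.mem_filter, Finset.mem_product, Finset.mem_product, Finset.mem_product,
      Finset.mem_product, Finset.mem_range, Finset.mem_range]
    refine ⟨⟨hRc, ⟨by simp only; omega, Finset.mem_univ _⟩, ⟨by simp only; omega,
      Finset.mem_univ _⟩⟩, hp.1, hp.2, hq.1, hq.2, hRn, ?_, hw4, hw5, hw6, hw7⟩
    rw [mul_assoc]
    exact hXX
  · intro d hd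
    rfl

end Pool.Agent.QTx
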