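import Pool.Agent.QTx.Targets
import Pool.Agent.QTw.SPLITW

/-!
# SPLIT2: the weight of `R ∪ {x, y}` for the canonical pair `(x, y)`
-/

namespace Pool.Agent.QTx

namespace SPLIT2_

variable {m n : ℕ} (M : Model m n)

lemma lt_of_big {κ x y : ℕ} (hκ : 1 ≤ κ) (h : Model.big κ x y) : x < y := by
  unfold Model.big at h
  by_contra hcon
  push Not at hcon
  have h1 : Nat.log 2 y ≤ Nat.log 2 x := Nat.log_mono_right hcon
  have h2 : Nat.log 2 x + 1 ≤ κ * (Nat.log 2 x + 1) := Nat.le_mul_of_pos_left _ hκ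
  omega

lemma om_empty (y w : ℕ × Ty n) (h : y.2.2 = ∅) : M.om y w = 1 := by
  unfold Model.om
  rw [h, Finset.prod_empty]

end SPLIT2_

open SPLIT2_ in
theorem p_SPLIT2 : T_SPLIT2 := by
  classical
  intro m n M a κ z R x y hκ hx hy hxy hx2 hR hbig hCP hCQ
  obtain ⟨hzx, hxor, -, -, -⟩ := hCP
  obtain ⟨hzy, hyR⟩ := hCQ
  have hlt : x.1 < y.1 := lt_of_big hκ hbig
  have hx' : x ∉ insert y R := by
    rw [Finset.mem_insert]
    rintro (h | h)
    · exact hxy h
    · exact hx h
  have hxc : x ∈ insert x (insert y R) := Finset.mem_insert_self _ _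
  have hyc : y ∈ insert x (insert y R) :=
    Finset.mem_insert_of_mem (Finset.mem_insert_self _ _)
  have hRc : ∀ r ∈ R, r ∈ insert x (insert y R) := fun r hr =>
    Finset.mem_insert_of_mem (Finset.mem_insert_of_mem hr)
  -- x is not special
  have hnx : ¬ M.isSp z (insert x (insert y R)) x := by
    rintro ⟨-, h⟩
    rcases hxor with h1 | ⟨r, hr, hr1, hr2⟩
    · have := h y hyc h1.symm
      omega
    · have := h r (hRc r hr) hr1
      omega
  -- y is special
  have hsy : M.isSp z (insert x (insert y R)) y := by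
    refine ⟨hzy, fun w hw hwl => ?_⟩
    rw [Finset.mem_insert, Finset.mem_insert] at hw
    rcases hw with rfl | rfl | hw
    · exact hlt.le
    · exact le_rfl
    · exact (hyR w hw hwl).le
  -- the elements of R
  have hsr : ∀ r ∈ R, (M.isSp z (insert x (insert y R)) r ↔ M.spR z R (M.lb y) r) := by
    intro r hr
    constructor
    · rintro ⟨h1, h2⟩
      refine ⟨h1, fun h3 => ?_, fun r' hr' h3 => h2 r' (hRc r' hr') h3⟩
      have h4 := h2 y hyc h3.symm
      have h5 := hyR r hr h3
      omega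
    · rintro ⟨h1, h2, h3⟩
      refine ⟨h1, fun w hw hwl => ?_⟩
      rw [Finset.mem_insert, Finset.mem_insert] at hw
      rcases hw with rfl | rfl | hw
      · rcases hxor with h4 | ⟨r', hr', hr1, hr2⟩
        · exact absurd (hwl.symm.trans h4) h2
        · have := h3 r' hr' (hr1.trans hwl)
          omega
      · exact absurd hwl.symm h2
      · exact h3 w hw hwl
  have hcx : M.cf a z (insert x (insert y R)) x =
      if M.vld x then (∏ j ∈ x.2.2, a x.1 x.2.1 j) / 2 ^ (M.rn x.1 - 1) else 0 := by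
    unfold Model.cf
    by_cases hv : M.vld x
    · rw [if_neg (not_not.2 hv), if_pos hv, if_neg]
      rintro (h | h)
      · omega
      · exact hnx h
    · rw [if_pos hv, if_neg hv]
  have hcy : M.cf a z (insert x (insert y R)) y =
      if M.vld y ∧ y.2.2 = ∅ then 1 else 0 := by
    unfold Model.cf
    by_cases hv : M.vld y
    · rw [if_neg (not_not.2 hv), if_pos (Or.inr hsy)]
      by_cases he : y.2.2 = ∅
      · rw [if_pos he, if_pos ⟨hv, he⟩]
      · rw [if_neg he, if_neg fun h => he h.2]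
    · rw [if_pos hv, if_neg fun h => hv h.1]
  have hcr : ∏ r ∈ R, M.cf a z (insert x (insert y R)) r = ∏ r ∈ R, (if ¬ M.vld r then 0 else
        if r.1 ≤ z ∨ M.spR z R (M.lb y) r then (if r.2.2 = ∅ then 1 else 0) else
          (∏ j ∈ r.2.2, a r.1 r.2.1 j) / 2 ^ (M.rn r.1 - 1)) := by
    refine Finset.prod_congr rfl fun r hr => ?_
    unfold Model.cf
    have h := hsr r hr
    by_cases hs : M.spR z R (M.lb y) r
    · have hs' := h.2 hs
      simp only [hs, hs', or_true, if_true]
    · have hs' : ¬ M.isSp z (insert x (insert y R)) r := fun h' => hs (h.1 h')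
      simp only [hs, hs', or_false]
  have hoff : ∏ w ∈ (insert x (insert y R)).offDiag, M.om w.1 w.2 =
      ((∏ w ∈ R.offDiag, M.om w.1 w.2) * ∏ r ∈ R, (M.om y r * M.om r y)) *
        ((M.om x y * M.om y x) * ∏ r ∈ R, (M.om x r * M.om r x)) := by
    rw [QTw.SPLITW_.prod_offDiag_insert (fun w => M.om w.1 w.2) _ x hx',
      QTw.SPLITW_.prod_offDiag_insert (fun w => M.om w.1 w.2) _ y hy, Finset.prod_insert hy]
  have hW : M.W a z (insert x (insert y R)) =
      (∏ w ∈ insert x (insert y R), M.cf a z (insert x (insert y R)) w) *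
        ∏ w ∈ (insert x (insert y R)).offDiag, M.om w.1 w.2 := by
    unfold Model.W
    rfl
  rw [hW, hoff, Finset.prod_insert hx', Finset.prod_insert hy, hcx, hcy, hcr]
  by_cases he : y.2.2 = ∅
  · have h1 : ∏ r ∈ R, (M.om y r * M.om r y) = ∏ r ∈ R, M.om r y :=
      Finset.prod_congr rfl fun r _ => by rw [om_empty M y r he, one_mul]
    rw [h1, om_empty M y x he]
    ring
  · have h2 : ¬ (M.vld y ∧ y.2.2 = ∅) := fun h => he h.2
    rw [if_neg h2]
    ring

end Pool.Agent.QTx
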