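import Pool.Agent.QTx.Targets
import Pool.Agent.QTw.NCF

/-!
# UNB2: the configurations with a cancelling pair cancel
-/

open Pool.Agent.QTw (cfgs)

namespace Pool.Agent.QTx

open Classical in
theorem p_UNB2 (h1 : T_REARR2) (h2 : T_INNER2) : T_UNB2 := by
  intro m n κ B₀ hκ hB₀
  refine ⟨((m : ℝ) * n ^ 2 * 2 ^ n) * B₀, by positivity, ?_⟩
  intro M a N z X hz hX hM ha hBil
  rw [h1 m n M κ N z X (M.W a z) hκ]
  have hN : ∑ c ∈ cfgs (Ty n) N X, 1 / ((∏ x ∈ c, x.1 : ℕ) : ℝ) ≤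
      (1 + Real.log X) ^ (Fintype.card (Ty n)) := QTw.p_NCF (Ty n) N X hX
  have hz0 : (0 : ℝ) < (z : ℝ) ^ ((1 : ℝ) / 3) :=
    Real.rpow_pos_of_pos (by exact_mod_cast hz) _
  calc |∑ R ∈ cfgs (Ty n) N X, ∑ x ∈ Finset.range (X + 1) ×ˢ (Finset.univ : Finset (Ty n)),
      ∑ y ∈ Finset.range (X + 1) ×ˢ (Finset.univ : Finset (Ty n)),
        if M.Cd κ N z X R x y then M.W a z (insert x (insert y R)) else 0|
      ≤ ∑ R ∈ cfgs (Ty n) N X, |∑ x ∈ Finset.range (X + 1) ×ˢ (Finset.univ : Finset (Ty n)),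
      ∑ y ∈ Finset.range (X + 1) ×ˢ (Finset.univ : Finset (Ty n)),
        if M.Cd κ N z X R x y then M.W a z (insert x (insert y R)) else 0| :=
        Finset.abs_sum_le_sum_abs _ _
    _ ≤ ∑ R ∈ cfgs (Ty n) N X, ((m : ℝ) * n ^ 2 * 2 ^ n) * B₀ *
        (X / ((∏ r ∈ R, r.1 : ℕ) : ℝ)) / (z : ℝ) ^ ((1 : ℝ) / 3) :=
        Finset.sum_le_sum fun R hR => h2 m n M a κ N z X B₀ R hκ hB₀ hz hM ha hBil hR
    _ = ((m : ℝ) * n ^ 2 * 2 ^ n) * B₀ * X / (z : ℝ) ^ ((1 : ℝ) / 3) *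
        ∑ R ∈ cfgs (Ty n) N X, 1 / ((∏ r ∈ R, r.1 : ℕ) : ℝ) := by
        rw [Finset.mul_sum]
        refine Finset.sum_congr rfl fun R _ => ?_
        ring
    _ ≤ ((m : ℝ) * n ^ 2 * 2 ^ n) * B₀ * X / (z : ℝ) ^ ((1 : ℝ) / 3) *
        (1 + Real.log X) ^ (Fintype.card (Ty n)) :=
        mul_le_mul_of_nonneg_left hN (by positivity)
    _ = ((m : ℝ) * n ^ 2 * 2 ^ n) * B₀ * X * (1 + Real.log X) ^ (Fintype.card (Ty n)) /
        (z : ℝ) ^ ((1 : ℝ) / 3) := by ring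

end Pool.Agent.QTx
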