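import Pool.Agent.QTx.Targets

/-! RTS: the number of roots modulo `p`. -/

set_option autoImplicit false

open Polynomial

namespace Pool.Agent.QTx

namespace RTS_

theorem card_roots {p : ℕ} [Fact p.Prime] (g : ℤ[X]) (hg : ¬ (p : ℤ) ∣ g.leadingCoeff) :
    ((Finset.range p).filter (fun r : ℕ => (p : ℤ) ∣ g.eval (r : ℤ))).card ≤ g.natDegree := by
  classical
  set G : (ZMod p)[X] := g.map (Int.castRingHom (ZMod p)) with hG
  have hlc : (Int.castRingHom (ZMod p)) g.leadingCoeff ≠ 0 := by
    intro h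
    exact hg ((ZMod.intCast_zmod_eq_zero_iff_dvd _ _).1 h)
  have hG0 : G ≠ 0 := by
    intro h
    apply hlc
    have h1 : G.coeff g.natDegree = 0 := by rw [h, coeff_zero]
    rw [hG, coeff_map] at h1
    exact h1
  have h1 : ((Finset.range p).filter (fun r : ℕ => (p : ℤ) ∣ g.eval (r : ℤ))).card ≤
      G.roots.toFinset.card := by
    refine Finset.card_le_card_of_injOn (fun r : ℕ => (r : ZMod p)) ?_ ?_
    · intro r hr
      rw [Finset.mem_coe, Finset.mem_filter] at hr
      rw [Finset.mem_coe, Multiset.mem_toFinset, mem_roots hG0, IsRoot.def, hG]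
      have h2 : (g.map (Int.castRingHom (ZMod p))).eval ((r : ℤ) : ZMod p) =
          ((g.eval (r : ℤ) : ℤ) : ZMod p) := by
        rw [eval_intCast_map]
        rfl
      have h3 : ((r : ℤ) : ZMod p) = (r : ZMod p) := by push_cast; rfl
      show eval ((r : ℕ) : ZMod p) (map (Int.castRingHom (ZMod p)) g) = 0
      rw [← h3, h2]
      exact (ZMod.intCast_zmod_eq_zero_iff_dvd _ _).2 hr.2
    · intro r hr s hs hrs
      rw [Finset.mem_coe, Finset.mem_filter, Finset.mem_range] at hr hs
      have h4 := (ZMod.natCast_eq_natCast_iff' r s p).1 hrs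
      rwa [Nat.mod_eq_of_lt hr.1, Nat.mod_eq_of_lt hs.1] at h4
  calc _ ≤ G.roots.toFinset.card := h1
    _ ≤ Multiset.card G.roots := Multiset.toFinset_card_le _
    _ ≤ G.natDegree := card_roots' G
    _ ≤ g.natDegree := natDegree_map_le

end RTS_

theorem p_RTS : T_RTS := by
  classical
  intro k g hg
  have hne : ∀ i, g i ≠ 0 := fun i h => by
    have := hg.deg i
    rw [h, natDegree_zero] at this
    omega
  refine ⟨∏ i, (g i).leadingCoeff.natAbs, Finset.prod_pos fun i _ =>
    Int.natAbs_pos.2 (leadingCoeff_ne_zero.2 (hne i)), ?_⟩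
  intro N p hN hdvd i
  by_cases hp : p.Prime ∧ ¬ p ∣ N
  · have : Fact p.Prime := ⟨hp.1⟩
    have hlc : ¬ (p : ℤ) ∣ (g i).leadingCoeff := by
      intro h
      apply hp.2
      exact ((Int.natCast_dvd.1 h).trans (Finset.dvd_prod_of_mem
        (fun i => (g i).leadingCoeff.natAbs) (Finset.mem_univ i))).trans hdvd
    refine le_trans ?_ (RTS_.card_roots (g i) hlc)
    refine Finset.card_le_card_of_injOn (fun r : Fin (k + 1) × ℕ => r.2) ?_ ?_
    · intro r hr
      rw [Finset.mem_coe, Finset.mem_filter, Rts, if_pos hp, Finset.mem_filter,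
        Finset.mem_product] at hr
      rw [Finset.mem_coe, Finset.mem_filter]
      refine ⟨hr.1.1.2, ?_⟩
      rw [← hr.2]
      exact hr.1.2
    · intro r hr s hs hrs
      rw [Finset.mem_coe, Finset.mem_filter] at hr hs
      exact Prod.ext (hr.2.trans hs.2.symm) hrs
  · rw [Rts, if_neg hp]
    simp

end Pool.Agent.QTx
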