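import Pool.Agent.QTx.Targets

/-!
# TRANS: the weight of the concrete model
-/

open Polynomial

namespace Pool.Agent.QTx

namespace TRANS_

open Classical in
theorem card_eq {ι : Type} [DecidableEq ι] {n : ℕ} (R : Finset (ι × ℕ)) (e : Fin n → ι × ℕ)
    (hinj : ∀ j j' : Fin n, (j : ℕ) < R.card → (j' : ℕ) < R.card → e j = e j' → j = j')
    (hsurj : ∀ r, r ∈ R ↔ ∃ j : Fin n, (j : ℕ) < R.card ∧ e j = r)
    (J : Finset ι) (T : ι × ℕ → Finset (ι × ℕ) → Prop) :
    ((Finset.univ : Finset (Fin n × Finset (Fin n))).filter (fun t =>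
      ((t.1 : ℕ) < R.card ∧ ∀ j : Fin n, j ∈ t.2 → (j : ℕ) < R.card ∧ j ≠ t.1) ∧ (e t.1).1 ∈ J ∧
        T (e t.1) (t.2.image e))).card =
    ∑ ρ ∈ R.filter (fun r => r.1 ∈ J),
      ((R.erase ρ).powerset.filter (fun S => T ρ S)).card := by
  rw [← Finset.card_sigma]
  refine Finset.card_bij (fun t _ => (⟨e t.1, t.2.image e⟩ : Σ _ : ι × ℕ, Finset (ι × ℕ)))
    ?_ ?_ ?_
  · rintro ⟨j, S⟩ ht
    rw [Finset.mem_filter] at ht
    obtain ⟨-, ⟨h1, h2⟩, h3, h4⟩ := ht
    simp only at h1 h2 h3 h4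
    rw [Finset.mem_sigma]
    refine ⟨?_, ?_⟩
    · rw [Finset.mem_filter]
      exact ⟨(hsurj _).2 ⟨j, h1, rfl⟩, h3⟩
    · rw [Finset.mem_filter, Finset.mem_powerset]
      refine ⟨?_, h4⟩
      intro x hx
      obtain ⟨s, hs, rfl⟩ := Finset.mem_image.1 hx
      rw [Finset.mem_erase]
      refine ⟨fun h => (h2 s hs).2 (hinj _ _ (h2 s hs).1 h1 h), ?_⟩
      exact (hsurj _).2 ⟨s, (h2 s hs).1, rfl⟩
  · rintro ⟨j, S⟩ ht ⟨j', S'⟩ ht' h
    rw [Finset.mem_filter] at ht ht'
    obtain ⟨-, ⟨h1, h2⟩, h3, h4⟩ := ht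
    obtain ⟨-, ⟨h1', h2'⟩, h3', h4'⟩ := ht'
    simp only at h1 h2 h1' h2'
    rw [Sigma.mk.injEq] at h
    obtain ⟨h5, h6⟩ := h
    have h7 := eq_of_heq h6
    simp only at h5 h7
    have hS : ∀ (S S' : Finset (Fin n)), (∀ s ∈ S, (s : ℕ) < R.card) →
        (∀ s ∈ S', (s : ℕ) < R.card) → S.image e = S'.image e → S ⊆ S' := by
      intro S S' g1 g2 g3 s hs
      have g4 : e s ∈ S'.image e := by
        rw [← g3]
        exact Finset.mem_image_of_mem _ hs
      obtain ⟨s', hs', g5⟩ := Finset.mem_image.1 g4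
      have := hinj _ _ (g2 s' hs') (g1 s hs) g5
      rwa [← this]
    have e1 := hinj _ _ h1 h1' h5
    have e2 : S = S' := Finset.Subset.antisymm
      (hS S S' (fun s hs => (h2 s hs).1) (fun s hs => (h2' s hs).1) h7)
      (hS S' S (fun s hs => (h2' s hs).1) (fun s hs => (h2 s hs).1) h7.symm)
    rw [e1, e2]
  · rintro ⟨ρ, U⟩ h
    rw [Finset.mem_sigma, Finset.mem_filter, Finset.mem_filter, Finset.mem_powerset] at h
    obtain ⟨⟨h1, h2⟩, h3, h4⟩ := h
    simp only at h1 h2 h3 h4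
    obtain ⟨j, hj, rfl⟩ := (hsurj ρ).1 h1
    have hU : (Finset.univ.filter (fun s : Fin n => (s : ℕ) < R.card ∧ e s ∈ U)).image e = U := by
      ext x
      rw [Finset.mem_image]
      constructor
      · rintro ⟨s, hs, rfl⟩
        exact (Finset.mem_filter.1 hs).2.2
      · intro hx
        obtain ⟨s, hs, rfl⟩ := (hsurj x).1 (Finset.mem_of_mem_erase (h3 hx))
        exact ⟨s, Finset.mem_filter.2 ⟨Finset.mem_univ _, hs, hx⟩, rfl⟩
    refine ⟨(j, Finset.univ.filter (fun s : Fin n => (s : ℕ) < R.card ∧ e s ∈ U)), ?_, ?_⟩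
    · rw [Finset.mem_filter]
      refine ⟨Finset.mem_univ _, ⟨hj, ?_⟩, h2, ?_⟩
      · intro s hs
        obtain ⟨-, g1, g2⟩ := Finset.mem_filter.1 hs
        refine ⟨g1, ?_⟩
        rintro rfl
        exact (Finset.mem_erase.1 (h3 g2)).1 rfl
      · simp only
        rw [hU]
        exact h4
    · simp only
      rw [hU]

end TRANS_

open TRANS_ in
theorem p_TRANS : T_TRANS := by
  classical
  intro k n g N P en hen J p
  obtain ⟨h1, h2⟩ := hen p
  have h := card_eq (Rts g N p) (en p) h1 h2 J (fun ρ S => ∀ i ∈ J, TrG g N p ρ S i)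
  have hr : (mdl g N P en).rn p = (Rts g N p).card := rfl
  unfold Model.Wm WG
  rw [hr]
  apply congrArg (fun x : ℝ => x / 2 ^ ((Rts g N p).card - 1))
  rw [← Nat.cast_sum]
  apply congrArg (Nat.cast : ℕ → ℝ)
  have himg : ∀ (t : Finset (Fin n)) (i1 i2 : DecidableEq (Fin (k + 1) × ℕ)),
      @Finset.image _ _ i1 (en p) t = @Finset.image _ _ i2 (en p) t := by
    intro t i1 i2
    apply Finset.ext
    intro x
    simp only [Finset.mem_image]
  have hTr : ∀ (t : Ty n) (i : Fin (k + 1)), (mdl g N P en).Tr p t.1 t.2 i ↔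
      TrG g N p (en p t.1) (t.2.image (en p)) i := by
    intro t i
    unfold mdl
    simp only
  refine Eq.trans ?_ (h.trans ?_)
  · apply congrArg Finset.card
    apply Finset.ext
    intro t
    simp only [Finset.mem_filter, hTr]
    rfl
  · apply Finset.sum_congr
    · apply Finset.ext
      intro r
      simp only [Finset.mem_filter]
    · intro ρ _
      apply congrArg Finset.card
      apply Finset.ext
      intro S
      simp only [Finset.mem_filter, Finset.mem_powerset, Finset.subset_iff, Finset.mem_erase]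

end Pool.Agent.QTx
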