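import Pool.Agent.QTx.Targets

/-!
# Combinatorial estimate of the weights
-/

open Polynomial

namespace Pool.Agent.QTx

namespace WCOMB_

section parity

variable {α : Type} [DecidableEq α]

/-- the number of subsets with a given parity -/
theorem card_parity (O : Finset α) (b : ℕ) (hO : O.Nonempty) :
    (O.powerset.filter (fun S => Even (S.card + b))).card ≤ 2 ^ (O.card - 1) := by
  obtain ⟨x, hx⟩ := hO
  rw [← Finset.card_erase_of_mem hx, ← Finset.card_powerset]
  apply Finset.card_le_card_of_injOn (fun S => S.erase x)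
  · intro S hS
    rw [Finset.mem_coe, Finset.mem_filter, Finset.mem_powerset] at hS
    rw [Finset.mem_coe, Finset.mem_powerset]
    exact Finset.erase_subset_erase x hS.1
  · intro S hS T hT h
    rw [Finset.mem_coe, Finset.mem_filter, Finset.mem_powerset] at hS hT
    simp only at h
    have hc := congrArg Finset.card h
    by_cases h1 : x ∈ S <;> by_cases h2 : x ∈ T
    · rw [← Finset.insert_erase h1, ← Finset.insert_erase h2, h]
    · exfalso
      rw [Finset.card_erase_of_mem h1, Finset.erase_eq_of_notMem h2] at hc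
      have hp := Finset.card_pos.mpr ⟨x, h1⟩
      have e : S.card = T.card + 1 := by omega
      have h3 := hS.2
      have h4 := hT.2
      rw [e, show T.card + 1 + b = (T.card + b) + 1 by ring, Nat.even_add_one] at h3
      exact h3 h4
    · exfalso
      rw [Finset.card_erase_of_mem h2, Finset.erase_eq_of_notMem h1] at hc
      have hp := Finset.card_pos.mpr ⟨x, h2⟩
      have e : T.card = S.card + 1 := by omega
      have h3 := hS.2
      have h4 := hT.2
      rw [e, show S.card + 1 + b = (S.card + b) + 1 by ring, Nat.even_add_one] at h4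
      exact h4 h3
    · rw [← Finset.erase_eq_of_notMem h1, ← Finset.erase_eq_of_notMem h2, h]

end parity

variable {ι : Type} [Fintype ι] [DecidableEq ι]

/-- the labels in `J` are split -/
def Spl (g : ι → ℤ[X]) (N p : ℕ) (J : Finset ι) : Prop :=
  ∀ i ∈ J, ((Rts g N p).filter (fun r => r.1 = i)).card = (g i).natDegree

theorem card_RJ (g : ι → ℤ[X]) (N p : ℕ) (J : Finset ι) :
    ((Rts g N p).filter (fun r => r.1 ∈ J)).card =
      ∑ i ∈ J, ((Rts g N p).filter (fun r => r.1 = i)).card := by
  rw [Finset.card_eq_sum_card_fiberwise (f := fun r : ι × ℕ => r.1) (t := J)]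
  · apply Finset.sum_congr rfl
    intro i hi
    congr 1
    ext r
    simp only [Finset.mem_filter]
    constructor
    · rintro ⟨⟨h1, h2⟩, h3⟩
      exact ⟨h1, h3⟩
    · rintro ⟨h1, h3⟩
      exact ⟨⟨h1, h3 ▸ hi⟩, h3⟩
  · intro r hr
    exact (Finset.mem_filter.mp hr).2

open Classical in
/-- the number of the sets for one root -/
theorem count_le (g : ι → ℤ[X]) (N p : ℕ) (J : Finset ι) (ρ : ι × ℕ)
    (hρ : ρ ∈ Rts g N p) (hρJ : ρ.1 ∈ J) :
    (((Rts g N p).erase ρ).powerset.filter (fun S => ∀ i ∈ J, TrG g N p ρ S i)).card ≤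
      (((Rts g N p).filter (fun r => r.1 ∉ J)).powerset.filter
        (fun S => Even (S.card + 0))).card +
      if Spl g N p J then (((Rts g N p).filter (fun r => r.1 ∉ J)).powerset.filter
        (fun S => Even (S.card + ((Rts g N p).filter (fun r => r.1 ∈ J)).card))).card else 0 := by
  set R := Rts g N p with hR
  set RJ := R.filter (fun r => r.1 ∈ J) with hRJ
  set O := R.filter (fun r => r.1 ∉ J) with hO
  have hρRJ : ρ ∈ RJ := Finset.mem_filter.mpr ⟨hρ, hρJ⟩
  have hsub : (R.erase ρ).powerset.filter (fun S => ∀ i ∈ J, TrG g N p ρ S i) ⊆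
      O.powerset.filter (fun S => Even (S.card + 0)) ∪
        (if Spl g N p J then (O.powerset.filter (fun S => Even (S.card + RJ.card))).image
          (fun S => RJ.erase ρ ∪ S) else ∅) := by
    intro S hS
    rw [Finset.mem_filter, Finset.mem_powerset] at hS
    obtain ⟨hSR, hS⟩ := hS
    rw [Finset.mem_union]
    rcases Nat.even_or_odd S.card with he | ho
    · left
      rw [Finset.mem_filter, Finset.mem_powerset, add_zero]
      refine ⟨?_, he⟩
      intro r hr
      rw [hO, Finset.mem_filter]
      refine ⟨Finset.mem_of_mem_erase (hSR hr), ?_⟩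
      intro hrJ
      rcases hS r.1 hrJ with h | h
      · exact h.2 r hr rfl
      · exact (Nat.not_even_iff_odd.mpr h.1) he
    · right
      have h2 : ∀ i ∈ J, (R.filter (fun r => r.1 = i)).card = (g i).natDegree ∧
          ∀ ρ' ∈ R, ρ'.1 = i → ρ' ∈ insert ρ S := by
        intro i hi
        rcases hS i hi with h | h
        · exact absurd h.1 (Nat.not_even_iff_odd.mpr ho)
        · exact ⟨by convert h.2.1, h.2.2⟩
      have hspl : Spl g N p J := fun i hi => (h2 i hi).1
      rw [if_pos hspl, Finset.mem_image]
      have hRS : RJ.erase ρ ⊆ S := by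
        intro r hr
        obtain ⟨hrρ, hr⟩ := Finset.mem_erase.mp hr
        obtain ⟨hrR, hrJ⟩ := Finset.mem_filter.mp hr
        exact (Finset.mem_insert.mp ((h2 r.1 hrJ).2 r hrR rfl)).resolve_left hrρ
      have hS' : S.filter (fun r => r.1 ∉ J) ⊆ O := by
        intro r hr
        obtain ⟨hrS, hrJ⟩ := Finset.mem_filter.mp hr
        exact Finset.mem_filter.mpr ⟨Finset.mem_of_mem_erase (hSR hrS), hrJ⟩
      have hun : RJ.erase ρ ∪ S.filter (fun r => r.1 ∉ J) = S := by
        ext r
        rw [Finset.mem_union]
        constructor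
        · rintro (h | h)
          · exact hRS h
          · exact (Finset.mem_filter.mp h).1
        · intro h
          by_cases hrJ : r.1 ∈ J
          · left
            obtain ⟨h5, h6⟩ := Finset.mem_erase.mp (hSR h)
            exact Finset.mem_erase.mpr ⟨h5, Finset.mem_filter.mpr ⟨h6, hrJ⟩⟩
          · right
            exact Finset.mem_filter.mpr ⟨h, hrJ⟩
      refine ⟨S.filter (fun r => r.1 ∉ J), ?_, hun⟩
      rw [Finset.mem_filter, Finset.mem_powerset]
      refine ⟨hS', ?_⟩
      have hdisj : Disjoint (RJ.erase ρ) (S.filter (fun r => r.1 ∉ J)) := by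
        rw [Finset.disjoint_left]
        intro r hr hr'
        exact (Finset.mem_filter.mp hr').2
          (Finset.mem_filter.mp (Finset.mem_of_mem_erase hr)).2
      have hcard := Finset.card_union_of_disjoint hdisj
      rw [hun, Finset.card_erase_of_mem hρRJ] at hcard
      have hpos := Finset.card_pos.mpr ⟨ρ, hρRJ⟩
      have e : (S.filter (fun r => r.1 ∉ J)).card + RJ.card = S.card + 1 := by omega
      rw [e, Nat.even_add_one]
      exact Nat.not_even_iff_odd.mpr ho
  refine (Finset.card_le_card hsub).trans ((Finset.card_union_le _ _).trans ?_)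
  apply Nat.add_le_add_left
  split_ifs
  · exact Finset.card_image_le
  · simp

open Classical in
/-- the weight in terms of the numbers of roots -/
theorem wg_le (g : ι → ℤ[X]) (N p : ℕ) (J : Finset ι) (r o : ℕ)
    (hr : ((Rts g N p).filter (fun r => r.1 ∈ J)).card = r)
    (ho : ((Rts g N p).filter (fun r => r.1 ∉ J)).card = o) :
    (r = 0 → WG g N J p = 0) ∧
    (1 ≤ r → 1 ≤ o → WG g N J p * 2 ^ r ≤ r * (1 + if Spl g N p J then 1 else 0)) ∧
    (1 ≤ r → o = 0 → WG g N J p * 2 ^ (r - 1) ≤
      r * (1 + if Spl g N p J ∧ Even r then 1 else 0)) := by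
  have hRc : (Rts g N p).card = r + o := by
    rw [← hr, ← ho]
    have h := Finset.card_filter_add_card_filter_not (s := Rts g N p) (fun r => r.1 ∈ J)
    rw [← h]
  set a : ℕ := (((Rts g N p).filter (fun r => r.1 ∉ J)).powerset.filter
        (fun S => Even (S.card + 0))).card with ha
  set b : ℕ := (((Rts g N p).filter (fun r => r.1 ∉ J)).powerset.filter
        (fun S => Even (S.card + r))).card with hb
  have hsum : (∑ ρ ∈ (Rts g N p).filter (fun r => r.1 ∈ J),
      ((((Rts g N p).erase ρ).powerset.filter (fun S => ∀ i ∈ J, TrG g N p ρ S i)).card : ℝ)) ≤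
      r * ((a : ℝ) + if Spl g N p J then (b : ℝ) else 0) := by
    rw [← nsmul_eq_mul, ← hr]
    apply Finset.sum_le_card_nsmul
    intro ρ hρ
    obtain ⟨h1, h2⟩ := Finset.mem_filter.mp hρ
    have h3 := count_le g N p J ρ h1 h2
    rw [hr] at h3
    have h4 : ((((Rts g N p).erase ρ).powerset.filter
        (fun S => ∀ i ∈ J, TrG g N p ρ S i)).card : ℝ) ≤
        ((a + if Spl g N p J then b else 0 : ℕ) : ℝ) := by exact_mod_cast h3
    refine h4.trans (le_of_eq ?_)
    push_cast
    split_ifs <;> simp
  have hWG : WG g N J p * 2 ^ (r + o - 1) ≤ r * ((a : ℝ) + if Spl g N p J then (b : ℝ) else 0) := by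
    unfold WG
    rw [hRc, div_mul_cancel₀ _ (by positivity)]
    exact hsum
  refine ⟨?_, ?_, ?_⟩
  · intro hr0
    unfold WG
    rw [Finset.card_eq_zero.mp (hr.trans hr0), Finset.sum_empty, zero_div]
  · intro hr1 ho1
    have hne : ((Rts g N p).filter (fun r => r.1 ∉ J)).Nonempty := by
      rw [← Finset.card_pos, ho]
      exact ho1
    have ha' : (a : ℝ) ≤ 2 ^ (o - 1) := by
      have := card_parity _ 0 hne
      rw [ho] at this
      exact_mod_cast this
    have hb' : (b : ℝ) ≤ 2 ^ (o - 1) := by
      have := card_parity _ r hne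
      rw [ho] at this
      exact_mod_cast this
    have e : (2 : ℝ) ^ (r + o - 1) = 2 ^ r * 2 ^ (o - 1) := by
      rw [← pow_add]
      congr 1
      omega
    rw [e, ← mul_assoc] at hWG
    have hpos : (0 : ℝ) < 2 ^ (o - 1) := by positivity
    have h5 : (r : ℝ) * ((a : ℝ) + if Spl g N p J then (b : ℝ) else 0) ≤
        (r * (1 + if Spl g N p J then 1 else 0)) * 2 ^ (o - 1) := by
      rw [mul_assoc]
      apply mul_le_mul_of_nonneg_left _ (Nat.cast_nonneg r)
      split_ifs <;> linarith
    exact le_of_mul_le_mul_right (hWG.trans h5) hpos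
  · intro hr1 ho0
    have hO : (Rts g N p).filter (fun r => r.1 ∉ J) = ∅ := Finset.card_eq_zero.mp (ho.trans ho0)
    have ha' : a ≤ 1 := by
      rw [ha, hO, Finset.powerset_empty]
      exact (Finset.card_filter_le _ _).trans (by simp)
    have hb' : b ≤ if Even r then 1 else 0 := by
      rw [hb, hO, Finset.powerset_empty]
      split_ifs with h
      · exact (Finset.card_filter_le _ _).trans (by simp)
      · have h' := Nat.not_even_iff_odd.mp h
        rw [Nat.le_zero, Finset.card_eq_zero, Finset.filter_eq_empty_iff]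
        intro x hx
        rw [Finset.mem_singleton] at hx
        subst hx
        simp [h]
    rw [ho0, add_zero] at hWG
    refine hWG.trans ?_
    apply mul_le_mul_of_nonneg_left _ (Nat.cast_nonneg r)
    have ha'' : (a : ℝ) ≤ 1 := by exact_mod_cast ha'
    by_cases hs : Spl g N p J
    · by_cases he : Even r
      · rw [if_pos he] at hb'
        have hb'' : (b : ℝ) ≤ 1 := by exact_mod_cast hb'
        rw [if_pos hs, if_pos ⟨hs, he⟩]
        linarith
      · rw [if_neg he] at hb'
        have hb'' : (b : ℝ) ≤ 0 := by exact_mod_cast hb'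
        rw [if_pos hs, if_neg (fun h => he h.2)]
        linarith
    · rw [if_neg hs, if_neg (fun h => hs h.1)]
      linarith

theorem n1 (k : ℕ) : (k : ℝ) + 1 ≤ 2 ^ k := by
  have := Nat.lt_two_pow_self (n := k)
  exact_mod_cast this

end WCOMB_

open WCOMB_ in
open Classical in
theorem p_WCOMB : T_WCOMB := by
  intro k g N p J hJ h2 hle
  set r : ℕ := ((Rts g N p).filter (fun r => r.1 ∈ J)).card with hr
  set o : ℕ := ((Rts g N p).filter (fun r => r.1 ∉ J)).card with ho
  obtain ⟨w0, w1, w2⟩ := wg_le g N p J r o (by rw [hr]) (by rw [ho])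
  have hrJ : r = ∑ i ∈ J, ((Rts g N p).filter (fun r => r.1 = i)).card := by
    rw [hr, ← card_RJ]
  have hRc : (Rts g N p).card = r + o := by
    rw [hr, ho]
    have h := Finset.card_filter_add_card_filter_not (s := Rts g N p) (fun r => r.1 ∈ J)
    rw [← h]
  have hspl : Spl g N p J → r = ∑ i ∈ J, (g i).natDegree := by
    intro hs
    rw [hrJ]
    exact Finset.sum_congr rfl fun i hi => hs i hi
  have hrle : r ≤ ∑ i ∈ J, (g i).natDegree := by
    rw [hrJ]
    refine Finset.sum_le_sum fun i _ => ?_
    convert hle i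
  have hr0 : r = 0 ∨ 1 ≤ r := by omega
  have ho0 : o = 0 ∨ 1 ≤ o := by omega
  refine ⟨?_, ?_, ?_⟩
  · intro h3
    rcases hr0 with h0 | h1
    · rw [w0 h0]
      norm_num
    · rcases ho0 with h0 | ho1
      · have hw := w2 h1 h0
        have hpos : (0 : ℝ) < 2 ^ (r - 1) := by positivity
        apply le_of_mul_le_mul_right _ hpos
        refine hw.trans ?_
        rw [one_mul]
        split_ifs with hs
        · have hr3 : 3 ≤ r := by rw [hspl hs.1]; exact h3
          have hr4 : 4 ≤ r := by
            rcases hs.2 with ⟨t, ht⟩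
            omega
          obtain ⟨l, hl⟩ : ∃ l, r = l + 4 := ⟨r - 4, by omega⟩
          have := n1 l
          rw [hl, show l + 4 - 1 = l + 3 by omega, pow_add]
          push_cast
          nlinarith
        · obtain ⟨l, hl⟩ : ∃ l, r = l + 1 := ⟨r - 1, by omega⟩
          have := n1 l
          rw [hl, Nat.add_sub_cancel]
          push_cast
          linarith
      · have hw := w1 h1 ho1
        have hpos : (0 : ℝ) < 2 ^ r := by positivity
        apply le_of_mul_le_mul_right _ hpos
        refine hw.trans ?_
        rw [one_mul]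
        obtain ⟨l, hl⟩ : ∃ l, r = l + 1 := ⟨r - 1, by omega⟩
        have := n1 l
        rw [hl, pow_succ]
        push_cast
        split_ifs <;> nlinarith
  · intro h2'
    rcases hr0 with h0 | h1
    · rw [w0 h0, h0, Nat.cast_zero]
    · rcases ho0 with h0 | ho1
      · have hw := w2 h1 h0
        have hpos : (0 : ℝ) < 2 ^ (r - 1) := by positivity
        apply le_of_mul_le_mul_right _ hpos
        refine hw.trans ?_
        apply mul_le_mul_of_nonneg_left _ (Nat.cast_nonneg r)
        split_ifs with hs
        · have hr2 : 2 ≤ r := by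
            rcases hs.2 with ⟨t, ht⟩
            omega
          obtain ⟨l, hl⟩ : ∃ l, r = l + 2 := ⟨r - 2, by omega⟩
          have := n1 l
          rw [hl, show l + 2 - 1 = l + 1 by omega, pow_succ]
          have h5 : (0 : ℝ) ≤ l := Nat.cast_nonneg l
          linarith
        · have := one_le_pow₀ (a := (2 : ℝ)) (n := r - 1) (by norm_num)
          linarith
      · have hw := w1 h1 ho1
        have hpos : (0 : ℝ) < 2 ^ r := by positivity
        apply le_of_mul_le_mul_right _ hpos
        refine hw.trans ?_
        apply mul_le_mul_of_nonneg_left _ (Nat.cast_nonneg r)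
        obtain ⟨l, hl⟩ : ∃ l, r = l + 1 := ⟨r - 1, by omega⟩
        have := n1 l
        have h5 : (0 : ℝ) ≤ l := Nat.cast_nonneg l
        rw [hl, pow_succ]
        split_ifs <;> linarith
  · intro hall h6
    have hs : Spl g N p J := by
      intro i _
      convert hall i
    have hrn := hspl hs
    have hRn : r + o = ∑ i, (g i).natDegree := by
      rw [← hRc, ← Finset.sum_congr rfl fun i _ => hall i]
      have h := card_RJ g N p (Finset.univ : Finset (Fin (k + 1)))
      rw [Finset.filter_true_of_mem (fun r _ => Finset.mem_univ r.1)] at h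
      rw [h]
    refine ⟨?_, ?_⟩
    · intro h3
      have hr3 : 3 ≤ r := by omega
      have h1 : 1 ≤ r := by omega
      rcases ho0 with h0 | ho1
      · have hw := w2 h1 h0
        have hpos : (0 : ℝ) < 2 ^ (r - 1) := by positivity
        apply le_of_mul_le_mul_right _ hpos
        refine hw.trans ?_
        obtain ⟨l, hl⟩ : ∃ l, r = l + 6 := ⟨r - 6, by omega⟩
        have := n1 l
        have h5 : (0 : ℝ) ≤ l := Nat.cast_nonneg l
        rw [hl, show l + 6 - 1 = l + 5 by omega, pow_add]
        push_cast
        split_ifs <;> nlinarith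
      · have hw := w1 h1 ho1
        have hpos : (0 : ℝ) < 2 ^ r := by positivity
        apply le_of_mul_le_mul_right _ hpos
        refine hw.trans ?_
        rw [if_pos hs]
        obtain ⟨l, hl⟩ : ∃ l, r = l + 3 := ⟨r - 3, by omega⟩
        have := n1 l
        have h5 : (0 : ℝ) ≤ l := Nat.cast_nonneg l
        rw [hl, pow_add]
        push_cast
        nlinarith
    · intro h2'
      have hr2 : r = 2 := by omega
      have hw := w1 (by omega) (by omega)
      rw [hr2, if_pos hs] at hw
      norm_num at hw
      linarith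

end Pool.Agent.QTx
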