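import Pool.Agent.QTx.Targets
import Pool.Agent.QTw.NUM
import Pool.Agent.QTw.ROOT
import Pool.Agent.QTw.PP
import Pool.Agent.QTw.DZ
import Pool.Agent.QTw.TAIL
import Pool.Agent.QTw.MERT
import Pool.Agent.QTw.MUL
import Pool.Agent.QTw.WTS

/-!
# QTx, job WTSC: the average of the weights of the concrete model
-/

open Polynomial

namespace Pool.Agent.QTx

open Pool.Agent.QTw (primesTo idealCount rootCount)
open Pool.Agent.QTw.WTS_ (rc_le small_sum pos_p primesTo_eq)

namespace WTSC_

theorem num : Pool.Agent.QTw.T_NUM :=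
  Pool.Agent.QTw.p_NUM (Pool.Agent.QTw.p_DZ Pool.Agent.QTw.p_MUL Pool.Agent.QTw.p_PP)
    Pool.Agent.QTw.p_MERT Pool.Agent.QTw.p_TAIL Pool.Agent.QTw.p_PP

/-- the primes in the window -/
def win (y x : ℕ) : Finset ℕ := ((Finset.range (x + 1)).filter Nat.Prime).filter (fun p => y < p)

theorem win_sub (y x : ℕ) : win y x ⊆ (Finset.range (x + 1)).filter Nat.Prime :=
  Finset.filter_subset _ _

/-- Mertens for a window -/
theorem win_num (K : Type) [Field K] [NumberField K] : ∃ B : ℝ, 0 ≤ B ∧ ∀ x y : ℕ, 3 ≤ y →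
    y ≤ x → |(∑ p ∈ win y x, (idealCount K p : ℝ) / p) -
      (Real.log (Real.log x) - Real.log (Real.log y))| ≤ B := by
  obtain ⟨B, hB⟩ := num K
  have hB0 : 0 ≤ B := (abs_nonneg _).trans (hB 3 le_rfl)
  refine ⟨2 * B, by linarith, fun x y hy hyx => ?_⟩
  have h1 := abs_le.1 (hB x (hy.trans hyx))
  have h2 := abs_le.1 (hB y hy)
  have h3 : ((Finset.range (x + 1)).filter Nat.Prime).filter (fun p => ¬ y < p) =
      (Finset.range (y + 1)).filter Nat.Prime := by
    ext p
    simp only [Finset.mem_filter, Finset.mem_range]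
    constructor
    · rintro ⟨⟨h4, h5⟩, h6⟩
      exact ⟨by omega, h5⟩
    · rintro ⟨h4, h5⟩
      exact ⟨⟨by omega, h5⟩, by omega⟩
  have h4 := Finset.sum_filter_add_sum_filter_not ((Finset.range (x + 1)).filter Nat.Prime)
      (fun p => y < p) (fun p => (idealCount K p : ℝ) / p)
  rw [h3] at h4
  rw [abs_le]
  unfold win
  constructor <;> linarith [h1.1, h1.2, h2.1, h2.2]

/-- sum of small terms over the prime divisors of `M` in a window -/
theorem small_win (M y x : ℕ) (hM : 0 < M) (f : ℕ → ℝ) (hf0 : ∀ p, 0 ≤ f p)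
    (hf : ∀ p, p.Prime → f p ≤ 1) : ∑ p ∈ (win y x).filter (fun p => p ∣ M), f p ≤ M := by
  refine le_trans ?_ (small_sum M x hM f hf)
  refine Finset.sum_le_sum_of_subset_of_nonneg ?_ fun p _ _ => hf0 p
  exact Finset.filter_subset_filter _ (win_sub y x)

/-- upper bound for the number of roots -/
theorem win_root (g : ℤ[X]) (hg : Irreducible (g.map (Int.castRingHom ℚ))) :
    ∃ B : ℝ, ∀ x y : ℕ, 3 ≤ y → y ≤ x → ∑ p ∈ win y x, (rootCount g p : ℝ) / p ≤
      (Real.log (Real.log x) - Real.log (Real.log y)) + B := by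
  obtain ⟨K, _, _, M, hM, hr⟩ := Pool.Agent.QTw.p_ROOT g hg
  obtain ⟨B, _, hB⟩ := win_num K
  refine ⟨B + M, fun x y hy hyx => ?_⟩
  have h4 : ∑ p ∈ win y x, (rootCount g p : ℝ) / p ≤
      ∑ p ∈ win y x, (idealCount K p : ℝ) / p + M := by
    rw [← Finset.sum_filter_add_sum_filter_not (win y x)
      (fun p => p ∣ M) (fun p => (rootCount g p : ℝ) / p), add_comm]
    refine add_le_add ?_ ?_
    · have h5 : ∑ p ∈ (win y x).filter (fun p => ¬ p ∣ M), (rootCount g p : ℝ) / p ≤
          ∑ p ∈ (win y x).filter (fun p => ¬ p ∣ M), (idealCount K p : ℝ) / p := by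
        refine Finset.sum_le_sum fun p hp => ?_
        rw [Finset.mem_filter] at hp
        have h6 := (Finset.mem_filter.1 (win_sub y x hp.1)).2
        have := pos_p h6
        refine div_le_div_of_nonneg_right ?_ this.le
        exact_mod_cast hr p h6 hp.2
      refine h5.trans ?_
      refine Finset.sum_le_sum_of_subset_of_nonneg (Finset.filter_subset _ _) fun p _ _ => ?_
      positivity
    · refine small_win M y x hM _ (fun p => by positivity) fun p hp => ?_
      have := pos_p hp
      rw [div_le_one this]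
      exact_mod_cast rc_le g p
  have h5 := (abs_le.1 (hB x y hy hyx)).2
  linarith

theorem one_le_rc {p : ℕ} (hp : p.Prime) : 1 ≤ rootCount X p := by
  unfold rootCount
  rw [Nat.succ_le_iff, Finset.card_pos]
  exact ⟨0, by simp [hp.pos]⟩

theorem irr_X : Irreducible ((X : ℤ[X]).map (Int.castRingHom ℚ)) := by
  rw [Polynomial.map_X]
  exact Polynomial.irreducible_X

variable {k : ℕ}

open Classical in
theorem card_lab (g : Fin (k + 1) → ℤ[X]) (N p : ℕ) (hp : p.Prime) (hN : ¬ p ∣ N)
    (i : Fin (k + 1)) :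
    ((Rts g N p).filter (fun r => r.1 = i)).card = rootCount (g i) p := by
  unfold Rts rootCount
  rw [if_pos ⟨hp, hN⟩]
  symm
  refine Finset.card_bij (fun a _ => (i, a)) ?_ ?_ ?_
  · intro a ha
    rw [Finset.mem_filter] at ha
    simp only [Finset.mem_filter, Finset.mem_product, Finset.mem_univ, true_and]
    exact ⟨⟨ha.1, ha.2⟩, trivial⟩
  · intro a _ b _ hab
    exact (Prod.mk.inj hab).2
  · rintro ⟨j, a⟩ hb
    simp only [Finset.mem_filter, Finset.mem_product, Finset.mem_univ, true_and] at hb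
    obtain ⟨⟨h1, h2⟩, h3⟩ := hb
    subst h3
    exact ⟨a, Finset.mem_filter.2 ⟨h1, h2⟩, rfl⟩

/-- the general estimate -/
theorem smallW_of (h4 : T_TRANS) (g : Fin (k + 1) → ℤ[X]) (N n : ℕ)
    (P : Fin (k + 1) → ℕ → ℕ → ℤ[X]) (en : ℕ → Fin n → Fin (k + 1) × ℕ) (hN : 0 < N)
    (hen : IsEnum (Rts g N) en) (J : Finset (Fin (k + 1))) (K : Type) [Field K] [NumberField K]
    (h : ℤ[X]) (hh : Irreducible (h.map (Int.castRingHom ℚ))) (c c0 : ℝ) (hc : 0 < c)
    (hc0 : 0 < c0) (hid : ∀ p : ℕ, p.Prime → c0 * (idealCount K p : ℝ) ≤ 1)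
    (hw : ∀ p : ℕ, p.Prime → ¬ p ∣ N → WG g N J p ≤ rootCount h p - c * idealCount K p) :
    ∃ B : ℝ, ∀ x y : ℕ, 3 ≤ y → y ≤ x →
    ∑ p ∈ (primesTo N x).filter (fun p => y < p), (mdl g N P en).Wm J p / p ≤
      (1 - c) * (Real.log (Real.log x) - Real.log (Real.log y)) + B := by
  obtain ⟨B1, hB1⟩ := win_root h hh
  obtain ⟨B2, hB20, hB2⟩ := win_num K
  refine ⟨B1 + c * (B2 + N / c0), fun x y hy hyx => ?_⟩
  have e0 : (primesTo N x).filter (fun p => y < p) = (win y x).filter (fun p => ¬ p ∣ N) := by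
    rw [primesTo_eq]
    unfold win
    ext p
    simp only [Finset.mem_filter]
    tauto
  rw [e0]
  have e1 : ∑ p ∈ (win y x).filter (fun p => ¬ p ∣ N), (mdl g N P en).Wm J p / p ≤
      ∑ p ∈ (win y x).filter (fun p => ¬ p ∣ N),
        ((rootCount h p : ℝ) / p - c * ((idealCount K p : ℝ) / p)) := by
    refine Finset.sum_le_sum fun p hp => ?_
    rw [Finset.mem_filter] at hp
    have h6 := (Finset.mem_filter.1 (win_sub y x hp.1)).2
    have h7 := pos_p h6
    rw [h4 k n g N P en hen J p]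
    have h8 := hw p h6 hp.2
    calc WG g N J p / p ≤ (rootCount h p - c * idealCount K p) / p :=
          div_le_div_of_nonneg_right h8 h7.le
      _ = _ := by ring
  rw [Finset.sum_sub_distrib, ← Finset.mul_sum] at e1
  have e2 : ∑ p ∈ (win y x).filter (fun p => ¬ p ∣ N), (rootCount h p : ℝ) / p ≤
      ∑ p ∈ win y x, (rootCount h p : ℝ) / p := by
    refine Finset.sum_le_sum_of_subset_of_nonneg (Finset.filter_subset _ _) fun p _ _ => ?_
    positivity
  have e3 := Finset.sum_filter_add_sum_filter_not (win y x) (fun p => p ∣ N)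
    (fun p => (idealCount K p : ℝ) / p)
  have e4 : c0 * ∑ p ∈ (win y x).filter (fun p => p ∣ N), (idealCount K p : ℝ) / p ≤ N := by
    rw [Finset.mul_sum]
    refine small_win N y x hN _ (fun p => by positivity) fun p hp => ?_
    have h7 := pos_p hp
    have h8 : (1 : ℝ) ≤ p := by exact_mod_cast hp.one_lt.le
    rw [← mul_div_assoc, div_le_one h7]
    exact (hid p hp).trans h8
  have e5 : ∑ p ∈ (win y x).filter (fun p => p ∣ N), (idealCount K p : ℝ) / p ≤ N / c0 := by
    rw [le_div_iff₀ hc0, mul_comm]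
    exact e4
  have e6 := hB1 x y hy hyx
  have e7 := (abs_le.1 (hB2 x y hy hyx)).1
  set L := Real.log (Real.log x) - Real.log (Real.log y) with hL
  have e8 : c * (L - B2 - N / c0) ≤
      c * ∑ p ∈ (win y x).filter (fun p => ¬ p ∣ N), (idealCount K p : ℝ) / p := by
    refine mul_le_mul_of_nonneg_left ?_ hc.le
    linarith
  have e9 : (1 - c) * L + (B1 + c * (B2 + N / c0)) = L + B1 - c * (L - B2 - N / c0) := by ring
  rw [e9]
  linarith

end WTSC_

open WTSC_ in
open Classical in
/-- WTSC -/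
theorem p_WTSC (h1 : T_RTS) (h2 : T_WCOMB) (h3 : T_SPL2) (h4 : T_TRANS) : T_WTSC := by
  intro k g hg hsix
  obtain ⟨N1, hN1, hrts⟩ := h1 k g hg
  obtain ⟨K, _, _, M, hM, hspl⟩ := h3 k g hg
  refine ⟨N1 * M, by positivity, fun N n P en hN hdvd hen J hJ => ?_⟩
  have hNd1 : N1 ∣ N := (Dvd.intro _ rfl).trans hdvd
  have hNdM : M ∣ N := (Dvd.intro_left _ rfl).trans hdvd
  set c0 : ℝ := 1 / 2 ^ (Module.finrank ℚ K) with hc
  have hc0 : 0 < c0 := by positivity
  have hc1 : c0 ≤ 1 := by
    rw [hc, div_le_one (by positivity)]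
    exact one_le_pow₀ (by norm_num)
  have hid : ∀ p : ℕ, p.Prime → c0 * (idealCount K p : ℝ) ≤ 1 := by
    intro p hp
    have h5 := Pool.Agent.QTw.p_PP K p 1 hp
    rw [pow_one] at h5
    have h6 : (idealCount K p : ℝ) ≤ 2 ^ (Module.finrank ℚ K) := by exact_mod_cast h5
    rw [hc, one_div, inv_mul_le_iff₀ (by positivity), mul_one]
    exact h6
  have hcomb := fun p => h2 k g N p J hJ hg.deg (fun i => hrts N p hN hNd1 i)
  have hsplit : ∀ p : ℕ, p.Prime → ¬ p ∣ N → 0 < idealCount K p →
      ∀ i, ((Rts g N p).filter (fun r => r.1 = i)).card = (g i).natDegree := by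
    intro p hp hpN hpos i
    rw [card_lab g N p hp hpN i]
    exact hspl p hp (fun h5 => hpN (h5.trans hNdM)) hpos i
  by_cases h3' : 3 ≤ ∑ i ∈ J, (g i).natDegree
  · refine ⟨c0 / 4, by positivity, by linarith, ?_⟩
    refine smallW_of h4 g N n P en hN hen J K X irr_X (c0 / 4) c0 (by positivity) hc0 hid ?_
    intro p hp hpN
    have h5 : (1 : ℝ) ≤ rootCount X p := by exact_mod_cast one_le_rc hp
    rcases Nat.eq_zero_or_pos (idealCount K p) with h6 | h6
    · rw [h6]
      have := (hcomb p).1 h3'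
      push_cast
      linarith
    · have h7 := ((hcomb p).2.2 (hsplit p hp hpN h6) hsix).1 h3'
      have h8 := hid p hp
      have h9 : c0 / 4 * (idealCount K p : ℝ) ≤ 1 / 4 := by linarith
      linarith
  · obtain ⟨i, hi⟩ := hJ
    have hJi : J = {i} := by
      ext j
      rw [Finset.mem_singleton]
      constructor
      · intro hj
        by_contra hne
        have h5 : (g i).natDegree + (g j).natDegree ≤ ∑ l ∈ J, (g l).natDegree := by
          rw [← Finset.sum_pair (f := fun l => (g l).natDegree) (fun h6 => hne h6.symm)]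
          refine Finset.sum_le_sum_of_subset ?_
          intro l hl
          rw [Finset.mem_insert, Finset.mem_singleton] at hl
          rcases hl with rfl | rfl <;> assumption
        have h6 := hg.deg i
        have h7 := hg.deg j
        omega
      · rintro rfl
        exact hi
    have hdeg : ∑ l ∈ J, (g l).natDegree = 2 := by
      rw [hJi, Finset.sum_singleton] at h3' ⊢
      have := hg.deg i
      omega
    refine ⟨c0, hc0, hc1, ?_⟩
    refine smallW_of h4 g N n P en hN hen J K (g i) (hg.irr i) c0 c0 hc0 hc0 hid ?_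
    intro p hp hpN
    have hcard : ((Rts g N p).filter (fun r => r.1 ∈ J)).card = rootCount (g i) p := by
      rw [← card_lab g N p hp hpN i, hJi]
      congr 1
      ext r
      simp only [Finset.mem_filter, Finset.mem_singleton]
    rcases Nat.eq_zero_or_pos (idealCount K p) with h6 | h6
    · rw [h6]
      have := (hcomb p).2.1 hdeg
      rw [hcard] at this
      push_cast
      linarith
    · have h7 := ((hcomb p).2.2 (hsplit p hp hpN h6) hsix).2 hdeg
      have h8 := hid p hp
      have h9 : rootCount (g i) p = 2 := by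
        rw [hJi, Finset.sum_singleton] at hdeg
        rw [← hdeg]
        exact hspl p hp (fun h5 => hpN (h5.trans hNdM)) h6 i
      rw [h9]
      push_cast
      linarith

end Pool.Agent.QTx
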