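import Pool.Agent.QTx.Targets
import Mathlib

/-!
# BALG: balanced generators
-/

open Polynomial NumberField NumberField.InfinitePlace NumberField.mixedEmbedding
  NumberField.mixedEmbedding.fundamentalCone

namespace Pool.Agent.QTx

theorem p_BALG : T_BALG := by
  intro K _ _
  classical
  obtain ⟨C, hC⟩ := Metric.isBounded_iff_subset_closedBall (0 : mixedSpace K) |>.mp
    (isBounded_normLeOne K)
  refine ⟨max C 1, by positivity, fun α hα => ?_⟩
  have hN : (0 : ℝ) < ((Algebra.norm ℤ α).natAbs : ℝ) := by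
    have : (Algebra.norm ℤ α) ≠ 0 := Algebra.norm_ne_zero_iff.mpr hα
    exact_mod_cast Int.natAbs_pos.mpr this
  have hn : (Module.finrank ℚ K) ≠ 0 := (Module.finrank_pos).ne'
  have hnorm : mixedEmbedding.norm (mixedEmbedding K (α : K)) =
      ((Algebra.norm ℤ α).natAbs : ℝ) := by
    rw [norm_eq_norm, ← Algebra.coe_norm_int, Nat.cast_natAbs]
    push_cast
    rfl
  set N : ℝ := ((Algebra.norm ℤ α).natAbs : ℝ) with hNdef
  set t : ℝ := N ^ ((1 : ℝ) / Module.finrank ℚ K) with ht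
  have htpos : 0 < t := Real.rpow_pos_of_pos hN _
  have htn : t ^ (Module.finrank ℚ K) = N := by
    rw [ht, ← Real.rpow_natCast, ← Real.rpow_mul hN.le, one_div,
      inv_mul_cancel₀ (by exact_mod_cast hn), Real.rpow_one]
  obtain ⟨u, hu⟩ := exists_unit_smul_mem (x := mixedEmbedding K (α : K))
    (by rw [hnorm]; exact hN.ne')
  refine ⟨u, fun σ => ?_⟩
  have hmem : t⁻¹ • (u • mixedEmbedding K (α : K)) ∈ normLeOne K := by
    rw [mem_normLeOne]
    refine ⟨smul_mem_of_mem hu (inv_ne_zero htpos.ne'), ?_⟩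
    rw [mixedEmbedding.norm_smul, norm_unit_smul, hnorm, abs_of_pos (inv_pos.mpr htpos), inv_pow,
      htn, inv_mul_cancel₀ hN.ne']
  have h1 := hC hmem
  rw [mem_closedBall_zero_iff, norm_eq_sup'_normAtPlace, Finset.sup'_le_iff] at h1
  have h2 := h1 (InfinitePlace.mk σ) (Finset.mem_univ _)
  rw [normAtPlace_smul, unitSMul_smul, ← map_mul, normAtPlace_apply, InfinitePlace.apply,
    abs_of_pos (inv_pos.mpr htpos), inv_mul_le_iff₀ htpos] at h2
  have h3 : (((u : 𝓞 K) * α : 𝓞 K) : K) = (algebraMap (𝓞 K) K (u : 𝓞 K)) * (α : K) := by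
    rw [← RingOfIntegers.coe_eq_algebraMap]
    simp
  rw [h3]
  refine h2.trans ?_
  rw [mul_comm]
  exact mul_le_mul_of_nonneg_right (le_max_left _ _) htpos.le

end Pool.Agent.QTx
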