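import Pool.Agent.QTx.Targets
import Pool.Agent.QTw.LOCP

/-! # BILC: the bilinear bound for the concrete model -/

open Polynomial
open Pool.Agent.QTw (primesTo)

namespace Pool.Agent.QTx

namespace BILC_

/-- a Bezout relation between an irreducible polynomial and its derivative -/
theorem bezout (g : ℤ[X]) (hg : Irreducible (g.map (Int.castRingHom ℚ))) :
    ∃ (R : ℤ) (u v : ℤ[X]), R ≠ 0 ∧ u * g + v * derivative g = C R := by
  have hsep : IsCoprime (g.map (Int.castRingHom ℚ)) ((derivative g).map (Int.castRingHom ℚ)) := by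
    have := hg.separable
    rwa [Polynomial.Separable, Polynomial.derivative_map] at this
  obtain ⟨u, v, R, hR, h⟩ := QTw.LOCP_.bez hsep
  exact ⟨R, u, v, hR, h⟩

/-- squarefree modulo almost all primes -/
theorem sqf {g u v : ℤ[X]} {R : ℤ} (h : u * g + v * derivative g = C R) (q : ℕ) (hq : q.Prime)
    (hR : ¬ (q : ℤ) ∣ R) : Squarefree (g.map (Int.castRingHom (ZMod q))) := by
  have : Fact q.Prime := ⟨hq⟩
  refine Polynomial.Separable.squarefree ?_
  have hR' : ((R : ℤ) : ZMod q) ≠ 0 := by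
    intro h0
    exact hR ((ZMod.intCast_zmod_eq_zero_iff_dvd R q).1 h0)
  have h1 := congrArg (Polynomial.map (Int.castRingHom (ZMod q))) h
  rw [Polynomial.map_add, Polynomial.map_mul, Polynomial.map_mul, Polynomial.map_C,
    ← Polynomial.derivative_map] at h1
  refine ⟨C ((R : ZMod q)⁻¹) * u.map (Int.castRingHom (ZMod q)),
    C ((R : ZMod q)⁻¹) * v.map (Int.castRingHom (ZMod q)), ?_⟩
  rw [mul_assoc, mul_assoc, ← mul_add, h1, ← C_mul]
  simp only [eq_intCast]
  rw [inv_mul_cancel₀ hR', C_1]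

/-- the root over `PadicAlgCl q` -/
theorem hens {g u v : ℤ[X]} {R : ℤ} (h : u * g + v * derivative g = C R) (q : ℕ)
    [hq : Fact q.Prime] (hR : ¬ (q : ℤ) ∣ R) (s : ℕ) (hs : (q : ℤ) ∣ g.eval (s : ℤ)) :
    ∃ t : PadicAlgCl q, aeval t g = 0 ∧ ‖t - (s : PadicAlgCl q)‖ < 1 := by
  have h1 : ¬ (q : ℤ) ∣ (derivative g).eval (s : ℤ) := by
    intro h2
    apply hR
    have := congrArg (fun p => eval (s : ℤ) p) h
    simp only [eval_add, eval_mul, eval_C] at this
    rw [← this]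
    exact dvd_add (hs.mul_left _) (h2.mul_left _)
  have e1 : ∀ P : ℤ[X], (P.map (Int.castRingHom ℤ_[q])).aeval (s : ℤ_[q]) =
      ((P.eval (s : ℤ) : ℤ) : ℤ_[q]) := by
    intro P
    rw [coe_aeval_eq_eval]
    have := Polynomial.eval_intCast_map (Int.castRingHom ℤ_[q]) P (s : ℤ)
    rw [Int.cast_natCast] at this
    rw [this]
    simp
  have h2 : ‖(((derivative g).eval (s : ℤ) : ℤ) : ℤ_[q])‖ = 1 := by
    rcases lt_or_eq_of_le (PadicInt.norm_le_one (((derivative g).eval (s : ℤ) : ℤ) : ℤ_[q]))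
      with h3 | h3
    · rw [PadicInt.norm_int_lt_one_iff_dvd] at h3
      exact absurd h3 h1
    · exact h3
  have h3 : ‖((g.eval (s : ℤ) : ℤ) : ℤ_[q])‖ < 1 := by
    rw [PadicInt.norm_int_lt_one_iff_dvd]
    exact hs
  obtain ⟨t, ht, ht1, -, -⟩ := hensels_lemma (F := g.map (Int.castRingHom ℤ_[q]))
    (a := (s : ℤ_[q])) (by rw [Polynomial.derivative_map, e1, e1, h2]; simpa using h3)
  rw [Polynomial.derivative_map, e1, h2] at ht1
  refine ⟨algebraMap ℚ_[q] (PadicAlgCl q) (t : ℚ_[q]), ?_, ?_⟩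
  · have h4 : aeval (t : ℚ_[q]) g = 0 := by
      have h5 : aeval (algebraMap ℤ_[q] ℚ_[q] t) g = algebraMap ℤ_[q] ℚ_[q] (aeval t g) := by
        rw [aeval_algebraMap_apply]
      have h6 : aeval t g = 0 := by
        rw [← ht, coe_aeval_eq_eval, eval_map]
        rw [aeval_def]
        congr 1
      rw [h6, map_zero] at h5
      exact h5
    rw [aeval_algebraMap_apply, h4, map_zero]
  · have h5 : ‖(t : ℚ_[q]) - (s : ℚ_[q])‖ < 1 := by
      have : ((t - (s : ℤ_[q]) : ℤ_[q]) : ℚ_[q]) = (t : ℚ_[q]) - (s : ℚ_[q]) := by push_cast; rfl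
      rw [← this]
      exact ht1
    rw [← PadicAlgCl.norm_extends] at h5
    have : (algebraMap ℚ_[q] (PadicAlgCl q) ((t : ℚ_[q]) - (s : ℚ_[q]))) =
      algebraMap ℚ_[q] (PadicAlgCl q) (t : ℚ_[q]) - (s : PadicAlgCl q) := by
      rw [map_sub, map_natCast]
    rw [← this]
    exact h5

theorem abs_jac_le (a : ℤ) (p : ℕ) : |((jacobiSym a p : ℤ) : ℝ)| ≤ 1 := by
  rcases jacobiSym.trichotomy a p with h | h | h <;> rw [h] <;> norm_num

end BILC_

open BILC_ in
open Classical in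
theorem p_BILC (h1 : T_XI) (h2 : T_NU) (h3 : T_BL2) : T_BILC := by
  intro k g hg
  obtain ⟨N₁, hN₁, hXI⟩ := h1 k g hg
  choose R u v hR hbz using fun i => bezout (g i) (hg.irr i)
  set N₂ : ℕ := ∏ i, ((R i).natAbs * (g i).leadingCoeff.natAbs) with hN₂
  have hlc : ∀ i, (g i).leadingCoeff ≠ 0 := by
    intro i h0
    have := hg.deg i
    rw [leadingCoeff_eq_zero] at h0
    rw [h0, natDegree_zero] at this
    omega
  have hN₂0 : 0 < N₂ := Finset.prod_pos fun i _ => Nat.mul_pos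
    (Int.natAbs_pos.2 (hR i)) (Int.natAbs_pos.2 (hlc i))
  refine ⟨N₁ * N₂, Nat.mul_pos hN₁ hN₂0, fun N P C hN hdvd hPi hCo n κ en hen hκ => ?_⟩
  have hN₁N : N₁ ∣ N := (Dvd.intro _ rfl).trans hdvd
  have hN₂N : N₂ ∣ N := (Dvd.intro_left _ rfl).trans hdvd
  have hpr : ∀ i, (R i).natAbs * (g i).leadingCoeff.natAbs ∣ N := fun i =>
    (Finset.dvd_prod_of_mem (fun i => (R i).natAbs * (g i).leadingCoeff.natAbs)
      (Finset.mem_univ i)).trans hN₂N
  have hRN : ∀ i, (R i).natAbs ∣ N := fun i => (Dvd.intro _ rfl).trans (hpr i)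
  have hlN : ∀ i, (g i).leadingCoeff ∣ (N : ℤ) := fun i =>
    Int.natAbs_dvd_natAbs.1 (by
      rw [Int.natAbs_natCast]
      exact (Dvd.intro_left _ rfl).trans (hpr i))
  have hRq : ∀ (q : ℕ) (i : Fin (k + 1)), ¬ q ∣ N → ¬ (q : ℤ) ∣ R i := by
    intro q i hqN h0
    exact hqN ((Int.natCast_dvd.1 h0).trans (hRN i))
  set C' : ℝ := max C 1 with hC'
  choose Bn hBn using fun i => h2 (g i) (hg.irr i) N C hN (hlN i)
  have hκi : ∀ i, 1 ≤ (g i).natDegree := fun i => by have := hg.deg i; omega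
  choose BB hBB0 hBB using fun i => h3 (g i).natDegree κ C' (hκi i) (hκ i) (le_max_right _ _)
  have hκ1 : 1 ≤ κ := by have := hκ 0; have := hκi 0; omega
  set B : ℝ := ∑ i, ((2 * Bn i + 1 : ℕ) : ℝ) * BB i with hB
  have hBnn : ∀ i, 0 ≤ ((2 * Bn i + 1 : ℕ) : ℝ) * BB i := fun i =>
    mul_nonneg (Nat.cast_nonneg _) (hBB0 i)
  refine ⟨B, Finset.sum_nonneg fun i _ => hBnn i, ?_⟩
  intro j k' S i α β hα hβ z Y hz
  set M := mdl g N P en with hM
  set Ps : Finset ℕ := (primesTo N Y).filter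
    (fun p => z < p ∧ M.vld (p, (j, S)) ∧ ¬ M.Tr p j S i) with hPs
  set Qs : Finset ℕ := (primesTo N Y).filter
    (fun q => (k' : ℕ) < M.rn q ∧ M.lab q k' = i) with hQs
  set vv : ℕ → Fin (g i).natDegree → ℤ := fun q l => (P i q (en q k').2).coeff l with hvv
  set Ξ : ℕ → (Fin (g i).natDegree → ℤ) → ℝ := fun p => Xi g p (en p j) (S.image (en p)) i
    with hΞ
  set nn : ℕ → ℤ := fun q => nu (g i) q (P i q (en q k').2) with hnn
  have hmemP : ∀ p ∈ Ps, p.Prime ∧ ¬ p ∣ N ∧ p ≤ Y ∧ z < p ∧ M.vld (p, (j, S)) ∧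
      ¬ M.Tr p j S i := by
    intro p hp
    rw [hPs, Finset.mem_filter] at hp
    unfold primesTo at hp
    rw [Finset.mem_filter, Finset.mem_range] at hp
    exact ⟨hp.1.2.1, hp.1.2.2, by omega, hp.2.1, hp.2.2.1, hp.2.2.2⟩
  have hmemQ : ∀ q ∈ Qs, q.Prime ∧ ¬ q ∣ N ∧ q ≤ Y ∧ (i, (en q k').2) ∈ Rts g N q := by
    intro q hq
    rw [hQs, Finset.mem_filter] at hq
    unfold primesTo at hq
    rw [Finset.mem_filter, Finset.mem_range] at hq
    refine ⟨hq.1.2.1, hq.1.2.2, by omega, ?_⟩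
    have h4 : en q k' ∈ Rts g N q := ((hen q).2 _).2 ⟨k', hq.2.1, rfl⟩
    have h5 : (en q k').1 = i := hq.2.2
    rw [← h5]
    exact h4
  have hmemR : ∀ q s, q.Prime → ¬ q ∣ N → (i, s) ∈ Rts g N q → s < q ∧
      (q : ℤ) ∣ (g i).eval (s : ℤ) := by
    intro q s hq hqN hs
    unfold Rts at hs
    rw [if_pos ⟨hq, hqN⟩, Finset.mem_filter, Finset.mem_product, Finset.mem_range] at hs
    exact ⟨hs.1.2, hs.2⟩
  -- facts for p
  have hfactP : ∀ p ∈ Ps, IsOsc (g i).natDegree p (Ξ p) ∧ ∀ q ∈ Qs, q ≠ p →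
      M.om (p, (j, S)) (q, (k', ∅)) = Ξ p (vv q) *
        (if Odd S.card then ((jacobiSym (nn q) p : ℤ) : ℝ) else 1) := by
    intro p hp
    obtain ⟨hpp, hpN, hpY, hzp, hv, hT⟩ := hmemP p hp
    have hρ : en p j ∈ Rts g N p := ((hen p).2 _).2 ⟨j, hv.1, rfl⟩
    have hinj : Set.InjOn (en p) (S : Set (Fin n)) := by
      intro a ha b hb hab
      exact (hen p).1 a b (hv.2 a ha).1 (hv.2 b hb).1 hab
    have hsub : S.image (en p) ⊆ Rts g N p := by
      intro r hr
      obtain ⟨a, ha, rfl⟩ := Finset.mem_image.1 hr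
      exact ((hen p).2 _).2 ⟨a, (hv.2 a ha).1, rfl⟩
    have hnot : en p j ∉ S.image (en p) := by
      intro hr
      obtain ⟨a, ha, hae⟩ := Finset.mem_image.1 hr
      exact (hv.2 a ha).2 ((hen p).1 a j (hv.2 a ha).1 hv.1 hae)
    obtain ⟨hosc, hid⟩ := hXI N P C hN hN₁N hPi hCo p (en p j) (S.image (en p)) i hpp hpN hρ
      hsub hnot hT
    refine ⟨hosc, fun q hq hqp => ?_⟩
    obtain ⟨hqq, hqN, hqY, hqR⟩ := hmemQ q hq
    have h4 := hid q (en q k').2 hqq hqp hqR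
    have hcard : (S.image (en p)).card = S.card := Finset.card_image_of_injOn hinj
    rw [hcard, Finset.prod_image hinj] at h4
    have h5 : en q k' = (i, (en q k').2) := by
      have h6 : (en q k').1 = i := by
        rw [hQs, Finset.mem_filter] at hq
        exact hq.2.2
      rw [← h6]
    have h6 : M.om (p, (j, S)) (q, (k', ∅)) =
        ∏ x ∈ S, (sg P p (en p j) (en p x) q (en q k') : ℝ) := rfl
    rw [h6, h5]
    exact h4
  -- the decomposition
  have hbigne : ∀ p q, Model.big κ p q → q ≠ p := by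
    intro p q hb h0
    unfold Model.big at hb
    rw [h0] at hb
    have : 1 * (Nat.log 2 p + 1) ≤ κ * (Nat.log 2 p + 1) := Nat.mul_le_mul_right _ hκ1
    omega
  have hnB : ∀ q ∈ Qs, nn q ∈ Finset.Icc (-(Bn i : ℤ)) (Bn i) := by
    intro q hq
    obtain ⟨hqq, hqN, hqY, hqR⟩ := hmemQ q hq
    obtain ⟨hs, hgs⟩ := hmemR q _ hqq hqN hqR
    obtain ⟨hc1, hc2⟩ := hCo i q _ hqq hqN hs hgs
    have h4 := (hBn i q (en q k').2 (P i q (en q k').2) hqq hqN hs hgs
      (sqf (hbz i) q hqq (hRq q i hqN)) (hPi i q _ hqq hqN hs hgs) hc1 hc2).2.1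
    rw [Finset.mem_Icc]
    exact abs_le.1 h4
  have hsum : ∑ p ∈ Ps, ∑ q ∈ (primesTo N Y).filter (fun q => Model.big κ p q ∧ p * q ≤ Y ∧
        (k' : ℕ) < M.rn q ∧ M.lab q k' = i), α p * β q * M.om (p, (j, S)) (q, (k', ∅)) =
      ∑ w ∈ Finset.Icc (-(Bn i : ℤ)) (Bn i), ∑ p ∈ Ps,
        ∑ q ∈ Qs.filter (fun q => Model.big κ p q ∧ p * q ≤ Y),
          (α p * (if Odd S.card then ((jacobiSym w p : ℤ) : ℝ) else 1)) *
            (if nn q = w then β q else 0) * Ξ p (vv q) := by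
    rw [Finset.sum_comm]
    refine Finset.sum_congr rfl fun p hp => ?_
    rw [Finset.sum_comm]
    have hfil : (primesTo N Y).filter (fun q => Model.big κ p q ∧ p * q ≤ Y ∧
        (k' : ℕ) < M.rn q ∧ M.lab q k' = i) =
        Qs.filter (fun q => Model.big κ p q ∧ p * q ≤ Y) := by
      rw [hQs, Finset.filter_filter]
      congr 1
      funext q
      simp only [eq_iff_iff]
      tauto
    rw [hfil]
    refine Finset.sum_congr rfl fun q hq => ?_
    rw [Finset.mem_filter] at hq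
    have hqp := hbigne p q hq.2.1
    rw [(hfactP p hp).2 q hq.1 hqp]
    rw [Finset.sum_eq_single (nn q)]
    · rw [if_pos rfl]
      ring
    · intro w _ hw
      rw [if_neg (Ne.symm hw)]
      ring
    · intro h0
      exact absurd (hnB q hq.1) h0
  have hfin : |∑ w ∈ Finset.Icc (-(Bn i : ℤ)) (Bn i), ∑ p ∈ Ps,
        ∑ q ∈ Qs.filter (fun q => Model.big κ p q ∧ p * q ≤ Y),
          (α p * (if Odd S.card then ((jacobiSym w p : ℤ) : ℝ) else 1)) *
            (if nn q = w then β q else 0) * Ξ p (vv q)| ≤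
      ((2 * Bn i + 1 : ℕ) : ℝ) * (BB i * Y / (z : ℝ) ^ ((1 : ℝ) / 3)) := by
    refine (Finset.abs_sum_le_sum_abs _ _).trans ?_
    refine (Finset.sum_le_card_nsmul _ _ (BB i * Y / (z : ℝ) ^ ((1 : ℝ) / 3)) fun w _ => ?_).trans
      ?_
    · refine hBB i Y z Ps Qs Ξ vv
        (fun p => α p * (if Odd S.card then ((jacobiSym w p : ℤ) : ℝ) else 1))
        (fun q => if nn q = w then β q else 0) hz ?_ ?_ ?_ ?_ ?_ ?_ ?_
      · intro p hp
        obtain ⟨h4, _, h5, h6, _⟩ := hmemP p hp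
        exact ⟨h4, h6, h5⟩
      · intro q hq
        exact ⟨(hmemQ q hq).1, (hmemQ q hq).2.2.1⟩
      · intro p hp
        exact (hfactP p hp).1
      · intro p
        show |α p * (if Odd S.card then ((jacobiSym w p : ℤ) : ℝ) else 1)| ≤ 1
        rw [abs_mul]
        refine mul_le_one₀ (hα p) (abs_nonneg _) ?_
        split_ifs
        · exact abs_jac_le _ _
        · norm_num
      · intro q
        show |(if nn q = w then β q else 0)| ≤ 1
        split_ifs
        · exact hβ q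
        · norm_num
      · intro q hq l
        obtain ⟨hqq, hqN, hqY, hqR⟩ := hmemQ q hq
        obtain ⟨hs, hgs⟩ := hmemR q _ hqq hqN hqR
        refine ((hCo i q _ hqq hqN hs hgs).2 l).trans ?_
        exact mul_le_mul_of_nonneg_right (le_max_left _ _) (by positivity)
      · intro q hq q' hq' hvq
        by_contra hne
        obtain ⟨hqq, hqN, hqY, hqR⟩ := hmemQ q hq
        obtain ⟨hs, hgs⟩ := hmemR q _ hqq hqN hqR
        obtain ⟨hqq', hqN', hqY', hqR'⟩ := hmemQ q' hq'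
        obtain ⟨hs', hgs'⟩ := hmemR q' _ hqq' hqN' hqR'
        have hPP : P i q (en q k').2 = P i q' (en q' k').2 := by
          ext l
          by_cases hl : l < (g i).natDegree
          · exact congrFun hvq ⟨l, hl⟩
          · have h4 := (hCo i q _ hqq hqN hs hgs).1
            have h5 := (hCo i q' _ hqq' hqN' hs' hgs').1
            rw [coeff_eq_zero_of_natDegree_lt (by omega), coeff_eq_zero_of_natDegree_lt (by omega)]
        have : Fact q.Prime := ⟨hqq⟩
        obtain ⟨t, ht1, ht2⟩ := hens (hbz i) q (hRq q i hqN) (en q k').2 hgs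
        have h4 := hPi i q _ hqq hqN hs hgs q hqN t ht1
        have h5 := hPi i q' _ hqq' hqN' hs' hgs' q hqN t ht1
        rw [if_pos ⟨rfl, ht2⟩] at h4
        rw [if_neg (fun h => hne h.1), ← hPP, h4] at h5
        have h6 : (q : ℝ) = 1 := by
          rw [← inv_inv (q : ℝ), h5, inv_one]
        exact hqq.one_lt.ne' (by exact_mod_cast h6)
    · rw [nsmul_eq_mul, Int.card_Icc]
      refine mul_le_mul_of_nonneg_right (le_of_eq ?_) ?_
      · congr 1
        omega
      · exact div_nonneg (mul_nonneg (hBB0 i) (Nat.cast_nonneg _)) (by positivity)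
  rw [hsum]
  refine hfin.trans ?_
  have h4 : ((2 * Bn i + 1 : ℕ) : ℝ) * BB i ≤ B :=
    Finset.single_le_sum (f := fun i => ((2 * Bn i + 1 : ℕ) : ℝ) * BB i) (fun i _ => hBnn i)
      (Finset.mem_univ i)
  calc ((2 * Bn i + 1 : ℕ) : ℝ) * (BB i * Y / (z : ℝ) ^ ((1 : ℝ) / 3))
      = (((2 * Bn i + 1 : ℕ) : ℝ) * BB i) * (Y / (z : ℝ) ^ ((1 : ℝ) / 3)) := by ring
    _ ≤ B * (Y / (z : ℝ) ^ ((1 : ℝ) / 3)) := mul_le_mul_of_nonneg_right h4 (by positivity)
    _ = B * Y / (z : ℝ) ^ ((1 : ℝ) / 3) := by ring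

end Pool.Agent.QTx
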