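import Pool.Agent.QTx.Targets

set_option autoImplicit false

/-!
# BL2: the bilinear sum
-/

open Polynomial NumberField

namespace Pool.Agent.QTx

namespace BL2_

/-- cube root of two -/
noncomputable def c : ℝ := (2 : ℝ) ^ ((1 : ℝ) / 3)

theorem c_cube : c ^ 3 = 2 := by
  rw [c, ← Real.rpow_natCast, ← Real.rpow_mul (by norm_num)]
  norm_num

theorem c_nonneg : 0 ≤ c := Real.rpow_nonneg (by norm_num) _

theorem c_ge : 5 / 4 ≤ c := by
  by_contra h
  push Not at h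
  have h2 := pow_lt_pow_left₀ h c_nonneg (n := 3) (by norm_num)
  rw [c_cube] at h2
  norm_num at h2

theorem c_le : c ≤ 13 / 10 := by
  by_contra h
  push Not at h
  have h2 := pow_lt_pow_left₀ h (by norm_num) (n := 3) (by norm_num)
  rw [c_cube] at h2
  norm_num at h2

theorem c_pos : 0 < c := by have := c_ge; linarith

theorem c_one : 1 ≤ c := by have := c_ge; linarith

theorem c_pow3 (a : ℕ) : c ^ (3 * a) = 2 ^ a := by rw [pow_mul, c_cube]

theorem geo (a0 m : ℕ) : ∑ a ∈ Finset.Ico a0 m, (1 / c) ^ a ≤ 5 * (1 / c) ^ a0 := by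
  have hc := c_pos
  rcases Nat.lt_or_ge m a0 with h | h
  · rw [Finset.Ico_eq_empty (by omega)]
    simp only [Finset.sum_empty]
    positivity
  · have key : ∑ a ∈ Finset.Ico a0 m, (1 / c) ^ a ≤ 5 * ((1 / c) ^ a0 - (1 / c) ^ m) := by
      induction m, h using Nat.le_induction with
      | base => simp
      | succ m hm ih =>
        rw [Finset.sum_Ico_succ_top hm, pow_succ]
        have h1 : (1 / c) ≤ 4 / 5 := by
          rw [div_le_div_iff₀ hc (by norm_num)]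
          have := c_ge
          linarith
        have h2 : 0 < (1 / c) ^ m := by positivity
        nlinarith
    have h2 : 0 < (1 / c) ^ m := by positivity
    linarith

theorem blocksum {ι : Type} (P : Finset ι) (lg : ι → ℕ) (f : ι → ℝ) (a0 L : ℕ) (D : ℝ)
    (hD : 0 ≤ D) (h : ∀ x ∈ P, a0 ≤ lg x ∧ lg x < L)
    (hf : ∀ a, ∑ x ∈ P.filter (fun x => lg x = a), f x ≤ D * (1 / c) ^ a) :
    ∑ x ∈ P, f x ≤ 5 * D * (1 / c) ^ a0 := by
  rw [← Finset.sum_fiberwise_of_maps_to (t := Finset.Ico a0 L) (g := lg)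
    (fun x hx => Finset.mem_Ico.2 (h x hx))]
  calc ∑ a ∈ Finset.Ico a0 L, ∑ x ∈ P.filter (fun x => lg x = a), f x
      ≤ ∑ a ∈ Finset.Ico a0 L, D * (1 / c) ^ a := Finset.sum_le_sum fun a _ => hf a
    _ = D * ∑ a ∈ Finset.Ico a0 L, (1 / c) ^ a := by rw [Finset.mul_sum]
    _ ≤ D * (5 * (1 / c) ^ a0) := mul_le_mul_of_nonneg_left (geo a0 L) hD
    _ = _ := by ring

/-- length of the interval of `p` -/
def hh (a : ℕ) : ℕ := 2 ^ (2 * a / 3)

theorem hh_pos (a : ℕ) : 0 < hh a := by unfold hh; positivity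

theorem hh_le (a : ℕ) : (hh a : ℝ) ≤ c ^ (2 * a) := by
  unfold hh
  push_cast
  rw [← c_pow3]
  exact pow_le_pow_right₀ c_one (by omega)

/-- upper end of the interval of `p` -/
def en (p : ℕ) : ℕ := (p / hh (Nat.log 2 p) + 1) * hh (Nat.log 2 p)

theorem lt_en (p : ℕ) : p < en p := by
  unfold en
  have h := Nat.div_add_mod p (hh (Nat.log 2 p))
  have h2 := Nat.mod_lt p (hh_pos (Nat.log 2 p))
  have h3 : (p / hh (Nat.log 2 p) + 1) * hh (Nat.log 2 p) =
    hh (Nat.log 2 p) * (p / hh (Nat.log 2 p)) + hh (Nat.log 2 p) := by ring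
  omega

theorem en_le (p : ℕ) : en p ≤ p + hh (Nat.log 2 p) := by
  unfold en
  have h := Nat.div_add_mod p (hh (Nat.log 2 p))
  have h3 : (p / hh (Nat.log 2 p) + 1) * hh (Nat.log 2 p) =
    hh (Nat.log 2 p) * (p / hh (Nat.log 2 p)) + hh (Nat.log 2 p) := by ring
  omega

theorem inv_pow_mul (k : ℕ) : (1 / c) ^ k * c ^ k = 1 := by
  rw [← mul_pow, one_div_mul_cancel c_pos.ne', one_pow]

open Classical in
theorem cnt (κ Y p : ℕ) (hκ : 4 ≤ κ) (hp : 1 ≤ p) (Q : Finset ℕ) :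
    ((Q.filter (fun q => (Model.big κ p q ∧ p * q ≤ Y) ∧ ¬ en p * q ≤ Y)).card : ℝ) ≤
      2 * Y * (1 / c) ^ (4 * Nat.log 2 p) := by
  set a := Nat.log 2 p with ha
  have hc := c_pos
  have h2a : 2 ^ a ≤ p := Nat.pow_log_le_self 2 (by omega)
  rcases Finset.eq_empty_or_nonempty
    (Q.filter (fun q => (Model.big κ p q ∧ p * q ≤ Y) ∧ ¬ en p * q ≤ Y)) with h | ⟨q0, hq0⟩
  · rw [h]
    simp only [Finset.card_empty, Nat.cast_zero]
    positivity
  · rw [Finset.mem_filter] at hq0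
    obtain ⟨_, ⟨hbig, hpq⟩, _⟩ := hq0
    unfold Model.big at hbig
    rw [← ha] at hbig
    have hq0 : q0 ≠ 0 := by
      rintro rfl
      rw [Nat.log_zero_right] at hbig
      have : 1 ≤ κ * (a + 1) := Nat.one_le_iff_ne_zero.2 (by positivity)
      omega
    have h4 : 2 ^ (4 * a) ≤ q0 := by
      refine le_trans ?_ (Nat.pow_log_le_self 2 hq0)
      refine Nat.pow_le_pow_right (by norm_num) (le_trans ?_ hbig)
      nlinarith
    have hY5 : 2 ^ a * 2 ^ (4 * a) ≤ Y := (Nat.mul_le_mul h2a h4).trans hpq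
    have hY1 : (1 : ℝ) ≤ Y * (1 / c) ^ (4 * a) := by
      have h5 : (c ^ (4 * a) : ℝ) ≤ Y := by
        have h6 : ((2 : ℝ) ^ a * 2 ^ (4 * a)) ≤ Y := by exact_mod_cast hY5
        refine le_trans ?_ h6
        rw [← c_pow3, ← c_pow3, ← pow_add]
        exact pow_le_pow_right₀ c_one (by omega)
      have h7 := inv_pow_mul (4 * a)
      calc (1 : ℝ) = (1 / c) ^ (4 * a) * c ^ (4 * a) := h7.symm
        _ ≤ (1 / c) ^ (4 * a) * Y := by gcongr
        _ = _ := mul_comm _ _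
    have hen : 0 < en p := by have := lt_en p; omega
    have hsub : Q.filter (fun q => (Model.big κ p q ∧ p * q ≤ Y) ∧ ¬ en p * q ≤ Y) ⊆
        Finset.Ioc (Y / en p) (Y / p) := by
      intro q hq
      rw [Finset.mem_filter] at hq
      rw [Finset.mem_Ioc]
      constructor
      · rw [Nat.div_lt_iff_lt_mul hen, mul_comm]
        exact not_le.1 hq.2.2
      · rw [Nat.le_div_iff_mul_le (by omega), mul_comm]
        exact hq.2.1.2
    have hcard := Finset.card_le_card hsub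
    rw [Nat.card_Ioc] at hcard
    have hp0 : (0 : ℝ) < p := by exact_mod_cast hp
    have hen0 : (0 : ℝ) < en p := by exact_mod_cast hen
    have h5 : ((Y / p : ℕ) : ℝ) ≤ Y / p := Nat.cast_div_le
    have h6 : (Y : ℝ) / en p ≤ ((Y / en p : ℕ) : ℝ) + 1 := by
      rw [div_le_iff₀ hen0]
      have := Nat.lt_div_mul_add (a := Y) hen
      have h7 : Y ≤ (Y / en p + 1) * en p := by
        rw [add_mul, one_mul]; exact this.le
      exact_mod_cast h7
    have hcard2 : ((Q.filter (fun q => (Model.big κ p q ∧ p * q ≤ Y) ∧ ¬ en p * q ≤ Y)).card : ℝ) ≤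
        Y / p - Y / en p + 1 := by
      have h8 : ((Q.filter (fun q => (Model.big κ p q ∧ p * q ≤ Y) ∧ ¬ en p * q ≤ Y)).card : ℝ) ≤
          ((Y / p - Y / en p : ℕ) : ℝ) := by exact_mod_cast hcard
      have h9 : Y / en p ≤ Y / p := Nat.div_le_div_left (lt_en p).le hp
      rw [Nat.cast_sub h9] at h8
      linarith
    have h7 : (Y : ℝ) / p - Y / en p ≤ Y * (1 / c) ^ (4 * a) := by
      have h8 : (Y : ℝ) / p - Y / en p = Y * (en p - p) / (p * en p) := by
        field_simp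
      rw [h8, div_le_iff₀ (by positivity)]
      have h9 : (en p : ℝ) - p ≤ c ^ (2 * a) := by
        have h10 : (en p : ℝ) ≤ p + hh a := by exact_mod_cast en_le p
        have h11 := hh_le a
        linarith
      have h10 : c ^ (3 * a) ≤ p := by
        rw [c_pow3]
        exact_mod_cast h2a
      have h11 : (p : ℝ) ≤ en p := by exact_mod_cast (lt_en p).le
      have h12 : c ^ (6 * a) ≤ (p : ℝ) * en p := by
        calc c ^ (6 * a) = c ^ (3 * a) * c ^ (3 * a) := by rw [← pow_add]; congr 1; omega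
          _ ≤ p * en p := mul_le_mul h10 (h10.trans h11) (by positivity) hp0.le
      calc (Y : ℝ) * (en p - p) ≤ Y * c ^ (2 * a) := by gcongr
        _ = Y * (1 / c) ^ (4 * a) * c ^ (6 * a) := by
            rw [mul_assoc]
            congr 1
            rw [show 6 * a = 4 * a + 2 * a by ring, pow_add, ← mul_assoc, inv_pow_mul, one_mul]
        _ ≤ Y * (1 / c) ^ (4 * a) * (p * en p) := by gcongr
    linarith

/-- the block of `p` -/
def ph (p : ℕ) : ℕ × ℕ := (Nat.log 2 p, p / hh (Nat.log 2 p))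

theorem card_fib (P : Finset ℕ) (a i : ℕ) : (P.filter (fun p => ph p = (a, i))).card ≤ hh a := by
  have hsub : P.filter (fun p => ph p = (a, i)) ⊆ Finset.Ico (i * hh a) (i * hh a + hh a) := by
    intro p hp
    rw [Finset.mem_filter] at hp
    have h1 := hp.2
    unfold ph at h1
    rw [Prod.mk.injEq] at h1
    obtain ⟨h2, h3⟩ := h1
    rw [h2] at h3
    rw [Finset.mem_Ico]
    have h := Nat.div_add_mod p (hh a)
    have h4 := Nat.mod_lt p (hh_pos a)
    rw [h3, mul_comm] at h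
    omega
  have := Finset.card_le_card hsub
  rw [Nat.card_Ico] at this
  omega

/-- number of blocks of order `a` -/
theorem card_blk (P : Finset ℕ) (hP : ∀ p ∈ P, 1 ≤ p) (a : ℕ) :
    (((P.image ph).filter (fun x => x.1 = a)).card : ℝ) ≤ 2 * c ^ a := by
  have hsub : (P.image ph).filter (fun x => x.1 = a) ⊆
      ({a} : Finset ℕ) ×ˢ Finset.Ico (2 ^ (a - 2 * a / 3)) (2 ^ (a - 2 * a / 3 + 1)) := by
    intro x hx
    rw [Finset.mem_filter, Finset.mem_image] at hx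
    obtain ⟨⟨p, hp, rfl⟩, hx⟩ := hx
    unfold ph at hx ⊢
    simp only at hx
    rw [Finset.mem_product, Finset.mem_singleton, Finset.mem_Ico]
    refine ⟨hx, ?_⟩
    simp only
    rw [hx]
    have hp1 := hP p hp
    have h1 : 2 ^ a ≤ p := by rw [← hx]; exact Nat.pow_log_le_self 2 (by omega)
    have h2 : p < 2 ^ (a + 1) := by
      rw [← hx]; exact Nat.lt_pow_succ_log_self (by norm_num) p
    constructor
    · rw [Nat.le_div_iff_mul_le (hh_pos a)]
      unfold hh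
      rw [← pow_add]
      refine le_trans (le_of_eq ?_) h1
      congr 1
      omega
    · rw [Nat.div_lt_iff_lt_mul (hh_pos a)]
      unfold hh
      rw [← pow_add]
      refine lt_of_lt_of_le h2 (le_of_eq ?_)
      congr 1
      omega
  have h1 := Finset.card_le_card hsub
  rw [Finset.card_product, Finset.card_singleton, one_mul, Nat.card_Ico, pow_succ, mul_two,
    Nat.add_sub_cancel] at h1
  have h2 : (((P.image ph).filter (fun x => x.1 = a)).card : ℝ) ≤ 2 ^ (a - 2 * a / 3) := by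
    exact_mod_cast h1
  refine h2.trans ?_
  rw [← c_pow3]
  have hc2 : c ^ 2 ≤ 2 := by
    have := c_le
    have := c_nonneg
    nlinarith
  calc c ^ (3 * (a - 2 * a / 3)) ≤ c ^ (a + 2) := pow_le_pow_right₀ c_one (by omega)
    _ = c ^ 2 * c ^ a := by rw [pow_add]; ring
    _ ≤ 2 * c ^ a := by
        have : 0 ≤ c ^ a := pow_nonneg c_nonneg a
        gcongr

/-- The statement of `BLK` for given `n`, `C`, `B`. -/
def Blk (n : ℕ) (C B : ℝ) : Prop :=
  ∀ (a b : ℕ) (P : Finset ℕ) (Q : Finset ℕ) (Ξ : ℕ → (Fin n → ℤ) → ℝ) (v : ℕ → Fin n → ℤ)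
    (α β : ℕ → ℝ), (∀ p ∈ P, p.Prime ∧ p < 2 ^ (a + 1)) → (∀ q ∈ Q, q < 2 ^ (b + 1)) →
    (∀ p ∈ P, IsOsc n p (Ξ p)) → (∀ p, |α p| ≤ 1) → (∀ q, |β q| ≤ 1) →
    (∀ q ∈ Q, ∀ k, |(v q k : ℝ)| ≤ C * (q : ℝ) ^ ((1 : ℝ) / n)) →
    (∀ q ∈ Q, ∀ q' ∈ Q, v q = v q' → q = q') →
    |∑ p ∈ P, ∑ q ∈ Q, α p * β q * Ξ p (v q)| ≤
      B * (Real.sqrt P.card * 2 ^ b + P.card * 2 ^ a * (2 : ℝ) ^ ((b : ℝ) - b / (2 * n)))

/-- one pair of blocks -/
theorem one_blk (n κ : ℕ) (C B : ℝ) (hn : 1 ≤ n) (hκ : 4 * n ≤ κ) (hB : 0 ≤ B)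
    (hblk : Blk n C B) (a b : ℕ) (P Q : Finset ℕ) (Ξ : ℕ → (Fin n → ℤ) → ℝ)
    (v : ℕ → Fin n → ℤ) (α β : ℕ → ℝ) (hP : ∀ p ∈ P, p.Prime ∧ p < 2 ^ (a + 1))
    (hcard : P.card ≤ hh a) (hQ : ∀ q ∈ Q, q < 2 ^ (b + 1) ∧ κ * (a + 1) ≤ b)
    (hosc : ∀ p ∈ P, IsOsc n p (Ξ p)) (hα : ∀ p, |α p| ≤ 1) (hβ : ∀ q, |β q| ≤ 1)
    (hv : ∀ q ∈ Q, ∀ k, |(v q k : ℝ)| ≤ C * (q : ℝ) ^ ((1 : ℝ) / n))
    (hinj : ∀ q ∈ Q, ∀ q' ∈ Q, v q = v q' → q = q') :
    |∑ p ∈ P, ∑ q ∈ Q, α p * β q * Ξ p (v q)| ≤ 2 * B * c ^ a * 2 ^ b := by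
  have hc := c_pos
  rcases Finset.eq_empty_or_nonempty Q with h | ⟨q0, hq0⟩
  · subst h
    simp only [Finset.sum_empty, Finset.sum_const_zero, abs_zero]
    positivity
  · have hb := (hQ q0 hq0).2
    have h1 := hblk a b P Q Ξ v α β hP (fun q hq => (hQ q hq).1) hosc hα hβ hv hinj
    refine h1.trans ?_
    have hPc : (P.card : ℝ) ≤ c ^ (2 * a) := by
      have : (P.card : ℝ) ≤ hh a := by exact_mod_cast hcard
      exact this.trans (hh_le a)
    have hsq : Real.sqrt P.card ≤ c ^ a := by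
      rw [Real.sqrt_le_left (by positivity), ← pow_mul, mul_comm a 2]
      exact hPc
    have hn0 : (0 : ℝ) < n := by exact_mod_cast hn
    have hexp : 2 ^ (2 * a) * (2 : ℝ) ^ ((b : ℝ) - b / (2 * n)) ≤ 2 ^ b := by
      have h2 : (2 * (a + 1) : ℝ) ≤ b / (2 * n) := by
        rw [le_div_iff₀ (by positivity)]
        have h3 : 4 * n * (a + 1) ≤ b := (Nat.mul_le_mul_right _ hκ).trans hb
        have h4 : (4 * n * (a + 1) : ℝ) ≤ b := by exact_mod_cast h3
        linarith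
      calc 2 ^ (2 * a) * (2 : ℝ) ^ ((b : ℝ) - b / (2 * n))
          ≤ 2 ^ (2 * a) * (2 : ℝ) ^ ((b : ℝ) - ((2 * a : ℕ) : ℝ)) := by
            gcongr
            · norm_num
            · push_cast
              linarith
        _ = 2 ^ b := by
            rw [Real.rpow_sub (by norm_num), Real.rpow_natCast, Real.rpow_natCast]
            field_simp
    have h2 : (P.card : ℝ) * 2 ^ a * (2 : ℝ) ^ ((b : ℝ) - b / (2 * n)) ≤ c ^ a * 2 ^ b := by
      set E : ℝ := (2 : ℝ) ^ ((b : ℝ) - b / (2 * n)) with hE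
      have hE0 : 0 ≤ E := Real.rpow_nonneg (by norm_num) _
      have h3 : c ^ (2 * a) ≤ 2 ^ a := by
        rw [← c_pow3]
        exact pow_le_pow_right₀ c_one (by omega)
      calc (P.card : ℝ) * 2 ^ a * E ≤ 2 ^ a * 2 ^ a * E := by
            gcongr
            exact hPc.trans h3
        _ = 2 ^ (2 * a) * E := by rw [two_mul a, pow_add]
        _ ≤ 2 ^ b := hexp
        _ = 1 * 2 ^ b := (one_mul _).symm
        _ ≤ c ^ a * 2 ^ b := by
            gcongr
            exact one_le_pow₀ c_one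
    calc B * (Real.sqrt P.card * 2 ^ b + P.card * 2 ^ a * (2 : ℝ) ^ ((b : ℝ) - b / (2 * n)))
        ≤ B * (c ^ a * 2 ^ b + c ^ a * 2 ^ b) := by gcongr
      _ = _ := by ring

theorem geo2 (m : ℕ) : ∑ b ∈ Finset.range m, (2 : ℝ) ^ b ≤ 2 ^ m := by
  rw [geom_sum_eq (by norm_num)]
  norm_num

open Classical in
/-- one block of `p` -/
theorem one_fib (n κ : ℕ) (C B : ℝ) (hn : 1 ≤ n) (hκ : 4 * n ≤ κ) (hB : 0 ≤ B)
    (hblk : Blk n C B) (Y : ℕ) (P Q : Finset ℕ) (Ξ : ℕ → (Fin n → ℤ) → ℝ)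
    (v : ℕ → Fin n → ℤ) (α β : ℕ → ℝ) (hP : ∀ p ∈ P, p.Prime ∧ p ≤ Y)
    (hQ : ∀ q ∈ Q, q.Prime)
    (hosc : ∀ p ∈ P, IsOsc n p (Ξ p)) (hα : ∀ p, |α p| ≤ 1) (hβ : ∀ q, |β q| ≤ 1)
    (hv : ∀ q ∈ Q, ∀ k, |(v q k : ℝ)| ≤ C * (q : ℝ) ^ ((1 : ℝ) / n))
    (hinj : ∀ q ∈ Q, ∀ q' ∈ Q, v q = v q' → q = q') (x : ℕ × ℕ) (hx : x ∈ P.image ph) :
    |∑ p ∈ P.filter (fun p => ph p = x),
      ∑ q ∈ Q.filter (fun q => Model.big κ p q ∧ en p * q ≤ Y), α p * β q * Ξ p (v q)| ≤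
      4 * B * Y * (1 / c) ^ (2 * x.1) := by
  obtain ⟨a, i⟩ := x
  have hc := c_pos
  rw [Finset.mem_image] at hx
  obtain ⟨p0, hp0, hx0⟩ := hx
  have hx1 : Nat.log 2 p0 = a := by unfold ph at hx0; exact (Prod.mk.inj hx0).1
  have hp01 := (hP p0 hp0).1.one_lt
  have h2a : 2 ^ a ≤ p0 := by rw [← hx1]; exact Nat.pow_log_le_self 2 (by omega)
  set L := Nat.log 2 Y with hL
  have hY0 : Y ≠ 0 := by have := (hP p0 hp0).2; omega
  have haL : a ≤ L := by
    rw [← hx1]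
    exact Nat.log_mono_right (hP p0 hp0).2
  set Qx := Q.filter (fun q => κ * (a + 1) ≤ Nat.log 2 q ∧ (i + 1) * hh a * q ≤ Y) with hQx
  have hdat : ∀ p ∈ P.filter (fun p => ph p = (a, i)), p ∈ P ∧ Nat.log 2 p = a ∧
      en p = (i + 1) * hh a := by
    intro p hp
    rw [Finset.mem_filter] at hp
    have h1 : Nat.log 2 p = a := by
      have := hp.2; unfold ph at this; exact (Prod.mk.inj this).1
    have h2 : p / hh (Nat.log 2 p) = i := by
      have := hp.2; unfold ph at this; exact (Prod.mk.inj this).2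
    refine ⟨hp.1, h1, ?_⟩
    unfold en
    rw [h2, h1]
  have hinner : ∀ p ∈ P.filter (fun p => ph p = (a, i)),
      ∑ q ∈ Q.filter (fun q => Model.big κ p q ∧ en p * q ≤ Y), α p * β q * Ξ p (v q) =
      ∑ b ∈ Finset.range (L - a + 1), ∑ q ∈ Qx.filter (fun q => Nat.log 2 q = b),
        α p * β q * Ξ p (v q) := by
    intro p hp
    obtain ⟨hpP, hpa, hpe⟩ := hdat p hp
    have h1 : Q.filter (fun q => Model.big κ p q ∧ en p * q ≤ Y) = Qx := by
      rw [hQx]
      apply Finset.filter_congr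
      intro q _
      unfold Model.big
      rw [hpa, hpe]
    rw [h1]
    rw [Finset.sum_fiberwise_of_maps_to]
    intro q hq
    rw [hQx, Finset.mem_filter] at hq
    rw [Finset.mem_range]
    have hq0 : q ≠ 0 := (hQ q hq.1).ne_zero
    have h3 : 2 ^ Nat.log 2 q ≤ q := Nat.pow_log_le_self 2 hq0
    have h4 : 2 ^ a ≤ (i + 1) * hh a := by
      rw [← hpe]
      have h5 : 2 ^ a ≤ p := by
        rw [← hpa]
        exact Nat.pow_log_le_self 2 (hP p hpP).1.ne_zero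
      exact h5.trans (lt_en p).le
    have h5 : 2 ^ (a + Nat.log 2 q) ≤ Y := by
      rw [pow_add]
      exact (Nat.mul_le_mul h4 h3).trans hq.2.2
    have h6 : a + Nat.log 2 q ≤ L := Nat.le_log_of_pow_le (by norm_num) h5
    omega
  rw [Finset.sum_congr rfl hinner, Finset.sum_comm]
  refine (Finset.abs_sum_le_sum_abs _ _).trans ?_
  have hb : ∀ b ∈ Finset.range (L - a + 1), |∑ p ∈ P.filter (fun p => ph p = (a, i)),
      ∑ q ∈ Qx.filter (fun q => Nat.log 2 q = b), α p * β q * Ξ p (v q)| ≤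
      2 * B * c ^ a * 2 ^ b := by
    intro b _
    refine one_blk n κ C B hn hκ hB hblk a b _ _ Ξ v α β ?_ (card_fib P a i) ?_ ?_ hα hβ ?_ ?_
    · intro p hp
      obtain ⟨hpP, hpa, _⟩ := hdat p hp
      refine ⟨(hP p hpP).1, ?_⟩
      rw [← hpa]
      exact Nat.lt_pow_succ_log_self (by norm_num) p
    · intro q hq
      rw [Finset.mem_filter, hQx, Finset.mem_filter] at hq
      refine ⟨?_, ?_⟩
      · rw [← hq.2]
        exact Nat.lt_pow_succ_log_self (by norm_num) q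
      · rw [← hq.2]
        exact hq.1.2.1
    · intro p hp
      exact hosc p (hdat p hp).1
    · intro q hq
      rw [Finset.mem_filter, hQx, Finset.mem_filter] at hq
      exact hv q hq.1.1
    · intro q hq q' hq'
      rw [Finset.mem_filter, hQx, Finset.mem_filter] at hq hq'
      exact hinj q hq.1.1 q' hq'.1.1
  refine (Finset.sum_le_sum hb).trans ?_
  rw [← Finset.mul_sum]
  have h2L : (2 : ℝ) ^ L ≤ Y := by
    exact_mod_cast Nat.pow_log_le_self 2 hY0
  have h5 : (2 : ℝ) ^ (L - a + 1) = 2 * (2 ^ L * (1 / c) ^ (3 * a)) := by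
    have h6 : (2 : ℝ) ^ L = 2 ^ (L - a) * c ^ (3 * a) := by
      rw [c_pow3, ← pow_add]
      congr 1
      omega
    rw [h6, mul_assoc, mul_comm (c ^ (3 * a)), inv_pow_mul, pow_succ]
    ring
  have h6 : c ^ a * (1 / c) ^ (3 * a) = (1 / c) ^ (2 * a) := by
    rw [show 3 * a = a + 2 * a by ring, pow_add, ← mul_assoc, mul_comm (c ^ a), inv_pow_mul,
      one_mul]
  calc 2 * B * c ^ a * ∑ b ∈ Finset.range (L - a + 1), (2 : ℝ) ^ b
      ≤ 2 * B * c ^ a * 2 ^ (L - a + 1) := by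
        gcongr
        exact geo2 _
    _ = 4 * B * 2 ^ L * (c ^ a * (1 / c) ^ (3 * a)) := by rw [h5]; ring
    _ ≤ 4 * B * Y * (c ^ a * (1 / c) ^ (3 * a)) := by gcongr
    _ = 4 * B * Y * (1 / c) ^ (2 * a) := by rw [h6]

theorem zpow (z p : ℕ) (hz : 1 ≤ z) (hzp : z < p) : Nat.log 2 z ≤ Nat.log 2 p ∧
    (1 / c) ^ (Nat.log 2 z) ≤ c / (z : ℝ) ^ ((1 : ℝ) / 3) := by
  refine ⟨Nat.log_mono_right hzp.le, ?_⟩
  have hc := c_pos
  have hz0 : (0 : ℝ) < z := by exact_mod_cast hz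
  have h1 : (z : ℝ) ≤ 2 ^ (Nat.log 2 z + 1) := by
    exact_mod_cast (Nat.lt_pow_succ_log_self (by norm_num) z).le
  have h2 : (z : ℝ) ^ ((1 : ℝ) / 3) ≤ c ^ (Nat.log 2 z + 1) := by
    calc (z : ℝ) ^ ((1 : ℝ) / 3) ≤ ((2 : ℝ) ^ (Nat.log 2 z + 1)) ^ ((1 : ℝ) / 3) :=
          Real.rpow_le_rpow hz0.le h1 (by norm_num)
      _ = (c ^ (3 * (Nat.log 2 z + 1))) ^ ((1 : ℝ) / 3) := by rw [c_pow3]
      _ = c ^ (Nat.log 2 z + 1) := by
          rw [mul_comm, pow_mul, ← Real.rpow_natCast, ← Real.rpow_mul (by positivity)]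
          norm_num
  rw [le_div_iff₀ (by positivity)]
  calc (1 / c) ^ (Nat.log 2 z) * (z : ℝ) ^ ((1 : ℝ) / 3)
      ≤ (1 / c) ^ (Nat.log 2 z) * c ^ (Nat.log 2 z + 1) := by gcongr
    _ = c := by rw [pow_succ, ← mul_assoc, inv_pow_mul, one_mul]

end BL2_

open BL2_ Classical in
theorem p_BL2 (h1 : T_BLK) : T_BL2 := by
  intro n κ C hn hκ hC
  obtain ⟨B, hB, hblk⟩ := h1 n C hn hC
  have hblk' : Blk n C B := hblk
  refine ⟨60 * B + 20, by positivity, ?_⟩
  intro Y z P Q Ξ v α β hz hP hQ hosc hα hβ hv hinj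
  have hc := c_pos
  have hz0 : (0 : ℝ) < (z : ℝ) ^ ((1 : ℝ) / 3) :=
    Real.rpow_pos_of_pos (by exact_mod_cast hz) _
  rcases Finset.eq_empty_or_nonempty P with hPe | ⟨p1, hp1⟩
  · subst hPe
    simp only [Finset.sum_empty, abs_zero]
    positivity
  set a0 := Nat.log 2 z with ha0
  set L := Nat.log 2 Y with hL
  have hzc : (1 / c) ^ a0 ≤ c / (z : ℝ) ^ ((1 : ℝ) / 3) := (zpow z p1 hz (hP p1 hp1).2.1).2
  have hrange : ∀ p ∈ P, a0 ≤ Nat.log 2 p ∧ Nat.log 2 p < L + 1 := by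
    intro p hp
    refine ⟨(zpow z p hz (hP p hp).2.1).1, ?_⟩
    have : Nat.log 2 p ≤ L := Nat.log_mono_right (hP p hp).2.2
    omega
  -- splitting
  have hsplit : ∀ p ∈ P, ∑ q ∈ Q.filter (fun q => Model.big κ p q ∧ p * q ≤ Y),
      α p * β q * Ξ p (v q) =
      ∑ q ∈ Q.filter (fun q => Model.big κ p q ∧ en p * q ≤ Y), α p * β q * Ξ p (v q) +
      ∑ q ∈ Q.filter (fun q => (Model.big κ p q ∧ p * q ≤ Y) ∧ ¬ en p * q ≤ Y),
        α p * β q * Ξ p (v q) := by
    intro p _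
    rw [← Finset.sum_filter_add_sum_filter_not
      (Q.filter (fun q => Model.big κ p q ∧ p * q ≤ Y)) (fun q => en p * q ≤ Y),
      Finset.filter_filter, Finset.filter_filter]
    congr 1
    refine Finset.sum_congr ?_ fun _ _ => rfl
    apply Finset.filter_congr
    intro q _
    constructor
    · rintro ⟨⟨h2, h3⟩, h4⟩
      exact ⟨h2, h4⟩
    · rintro ⟨h2, h4⟩
      exact ⟨⟨h2, (Nat.mul_le_mul_right q (lt_en p).le).trans h4⟩, h4⟩
  rw [Finset.sum_congr rfl hsplit, Finset.sum_add_distrib]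
  -- error
  have herr : |∑ p ∈ P, ∑ q ∈ Q.filter (fun q => (Model.big κ p q ∧ p * q ≤ Y) ∧ ¬ en p * q ≤ Y),
      α p * β q * Ξ p (v q)| ≤ 5 * (2 * Y) * (1 / c) ^ a0 := by
    refine (Finset.abs_sum_le_sum_abs _ _).trans ?_
    refine blocksum P (Nat.log 2) _ a0 (L + 1) (2 * Y) (by positivity) hrange ?_
    intro a
    have hcard : ((P.filter (fun p => Nat.log 2 p = a)).card : ℝ) ≤ c ^ (3 * a) := by
      have hsub : P.filter (fun p => Nat.log 2 p = a) ⊆ Finset.Ico (2 ^ a) (2 ^ (a + 1)) := by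
        intro p hp
        rw [Finset.mem_filter] at hp
        rw [Finset.mem_Ico]
        refine ⟨?_, ?_⟩
        · rw [← hp.2]; exact Nat.pow_log_le_self 2 (hP p hp.1).1.ne_zero
        · rw [← hp.2]; exact Nat.lt_pow_succ_log_self (by norm_num) p
      have h2 := Finset.card_le_card hsub
      rw [Nat.card_Ico, pow_succ, mul_two, Nat.add_sub_cancel] at h2
      rw [c_pow3]
      exact_mod_cast h2
    calc ∑ p ∈ P.filter (fun p => Nat.log 2 p = a),
          |∑ q ∈ Q.filter (fun q => (Model.big κ p q ∧ p * q ≤ Y) ∧ ¬ en p * q ≤ Y),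
            α p * β q * Ξ p (v q)|
        ≤ ∑ _p ∈ P.filter (fun p => Nat.log 2 p = a), 2 * Y * (1 / c) ^ (4 * a) := by
          refine Finset.sum_le_sum fun p hp => ?_
          rw [Finset.mem_filter] at hp
          refine (Finset.abs_sum_le_sum_abs _ _).trans ?_
          have h2 : ∑ q ∈ Q.filter (fun q => (Model.big κ p q ∧ p * q ≤ Y) ∧ ¬ en p * q ≤ Y),
              |α p * β q * Ξ p (v q)| ≤
              ∑ _q ∈ Q.filter (fun q => (Model.big κ p q ∧ p * q ≤ Y) ∧ ¬ en p * q ≤ Y),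
                (1 : ℝ) := by
            refine Finset.sum_le_sum fun q _ => ?_
            rw [abs_mul, abs_mul]
            exact mul_le_one₀ (mul_le_one₀ (hα p) (abs_nonneg _) (hβ q)) (abs_nonneg _)
              ((hosc p hp.1).le _)
          refine h2.trans ?_
          rw [Finset.sum_const, nsmul_eq_mul, mul_one, ← hp.2]
          exact cnt κ Y p (by omega) (hP p hp.1).1.one_lt.le Q
      _ = (P.filter (fun p => Nat.log 2 p = a)).card * (2 * Y * (1 / c) ^ (4 * a)) := by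
          rw [Finset.sum_const, nsmul_eq_mul]
      _ ≤ c ^ (3 * a) * (2 * Y * (1 / c) ^ (4 * a)) := by gcongr
      _ = 2 * Y * (1 / c) ^ a := by
          rw [show 4 * a = 3 * a + a by ring, pow_add]
          calc c ^ (3 * a) * (2 * Y * ((1 / c) ^ (3 * a) * (1 / c) ^ a)) =
              2 * Y * (((1 / c) ^ (3 * a) * c ^ (3 * a)) * (1 / c) ^ a) := by ring
            _ = _ := by rw [inv_pow_mul, one_mul]
  -- main term
  have hmain : |∑ p ∈ P, ∑ q ∈ Q.filter (fun q => Model.big κ p q ∧ en p * q ≤ Y),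
      α p * β q * Ξ p (v q)| ≤ 5 * (8 * B * Y) * (1 / c) ^ a0 := by
    rw [← Finset.sum_fiberwise_of_maps_to (t := P.image ph) (g := ph)
      (fun p hp => Finset.mem_image_of_mem _ hp)]
    refine (Finset.abs_sum_le_sum_abs _ _).trans ?_
    refine blocksum (P.image ph) Prod.fst _ a0 (L + 1) (8 * B * Y) (by positivity) ?_ ?_
    · intro x hx
      rw [Finset.mem_image] at hx
      obtain ⟨p, hp, rfl⟩ := hx
      exact hrange p hp
    · intro a
      calc ∑ x ∈ (P.image ph).filter (fun x => x.1 = a),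
            |∑ p ∈ P.filter (fun p => ph p = x),
              ∑ q ∈ Q.filter (fun q => Model.big κ p q ∧ en p * q ≤ Y), α p * β q * Ξ p (v q)|
          ≤ ∑ _x ∈ (P.image ph).filter (fun x => x.1 = a), 4 * B * Y * (1 / c) ^ (2 * a) := by
            refine Finset.sum_le_sum fun x hx => ?_
            rw [Finset.mem_filter] at hx
            rw [← hx.2]
            exact one_fib n κ C B hn hκ hB hblk' Y P Q Ξ v α β
              (fun p hp => ⟨(hP p hp).1, (hP p hp).2.2⟩) (fun q hq => (hQ q hq).1) hosc hα hβ hv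
              hinj x hx.1
        _ = ((P.image ph).filter (fun x => x.1 = a)).card * (4 * B * Y * (1 / c) ^ (2 * a)) := by
            rw [Finset.sum_const, nsmul_eq_mul]
        _ ≤ 2 * c ^ a * (4 * B * Y * (1 / c) ^ (2 * a)) := by
            gcongr
            exact card_blk P (fun p hp => (hP p hp).1.one_lt.le) a
        _ = 8 * B * Y * (1 / c) ^ a := by
            rw [two_mul a, pow_add]
            calc 2 * c ^ a * (4 * B * Y * ((1 / c) ^ a * (1 / c) ^ a)) =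
                8 * B * Y * (((1 / c) ^ a * c ^ a) * (1 / c) ^ a) := by ring
              _ = _ := by rw [inv_pow_mul, one_mul]
  refine (abs_add_le _ _).trans ?_
  have hY0 : (0 : ℝ) ≤ Y := Nat.cast_nonneg Y
  have hcz : c / (z : ℝ) ^ ((1 : ℝ) / 3) ≤ (13 / 10) / (z : ℝ) ^ ((1 : ℝ) / 3) := by
    have := c_le
    gcongr
  calc _ ≤ 5 * (8 * B * Y) * (1 / c) ^ a0 + 5 * (2 * Y) * (1 / c) ^ a0 := add_le_add hmain herr
    _ = (40 * B + 10) * Y * (1 / c) ^ a0 := by ring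
    _ ≤ (40 * B + 10) * Y * ((13 / 10) / (z : ℝ) ^ ((1 : ℝ) / 3)) := by
        have := hzc.trans hcz
        gcongr
    _ = ((52 * B + 13) * Y) / (z : ℝ) ^ ((1 : ℝ) / 3) := by ring
    _ ≤ (60 * B + 20) * Y / (z : ℝ) ^ ((1 : ℝ) / 3) := by
        gcongr
        · linarith
        · norm_num

end Pool.Agent.QTx
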