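import Pool.Agent.QTx.Targets

set_option autoImplicit false

/-!
# BLK: one block of the bilinear sum
-/

open Polynomial NumberField

namespace Pool.Agent.QTx

namespace BLK_

/-- The box. -/
noncomputable def bx (n H : ℕ) : Finset (Fin n → ℤ) :=
  Fintype.piFinset (fun _ : Fin n => Finset.Icc (-(H : ℤ)) H)

theorem card_bx (n H : ℕ) : (bx n H).card = (2 * H + 1) ^ n := by
  rw [bx, Fintype.card_piFinset_const, Int.card_Icc]
  congr 1
  omega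

theorem off (h1 : T_BOX) (h2 : T_CRTX) (n H a : ℕ) (hn : 1 ≤ n) (p p' : ℕ) (hp : p.Prime)
    (hp' : p'.Prime) (hpa : p < 2 ^ (a + 1)) (hpa' : p' < 2 ^ (a + 1)) (hne : p ≠ p')
    (Φ Ψ : (Fin n → ℤ) → ℝ) (hΦ : IsOsc n p Φ) (hΨ : IsOsc n p' Ψ) :
    |∑ w ∈ bx n H, Φ w * Ψ w| ≤ n * (4 * 4 ^ a) * (2 * (H : ℝ) + 1) ^ (n - 1) := by
  have h3 := h2 n p p' Φ Ψ hp.one_lt.le hp'.one_lt.le ((Nat.coprime_primes hp hp').2 hne) hΦ hΨ
  have hpos : 1 ≤ p * p' := Nat.one_le_iff_ne_zero.2 (mul_ne_zero hp.ne_zero hp'.ne_zero)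
  have h4 := h1 n (p * p') H (fun w => Φ w * Ψ w) hn hpos h3.le h3.per h3.zero
  refine h4.trans ?_
  have h5 : ((p * p' : ℕ) : ℝ) ≤ 4 * 4 ^ a := by
    have h6 : p * p' ≤ 2 ^ (a + 1) * 2 ^ (a + 1) := Nat.mul_le_mul hpa.le hpa'.le
    have h7 : (2 : ℕ) ^ (a + 1) * 2 ^ (a + 1) = 4 * 4 ^ a := by
      rw [← mul_pow]; norm_num; ring
    rw [h7] at h6
    exact_mod_cast h6
  have h8 : (0 : ℝ) ≤ (2 * (H : ℝ) + 1) ^ (n - 1) := by positivity
  have h9 : (0 : ℝ) ≤ (n : ℝ) := Nat.cast_nonneg n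
  exact mul_le_mul_of_nonneg_right (mul_le_mul_of_nonneg_left h5 h9) h8

/-- sum of squares over the box -/
theorem sumsq (h1 : T_BOX) (h2 : T_CRTX) (n H a : ℕ) (hn : 1 ≤ n) (P : Finset ℕ)
    (Ξ : ℕ → (Fin n → ℤ) → ℝ) (α : ℕ → ℝ) (hP : ∀ p ∈ P, p.Prime ∧ p < 2 ^ (a + 1))
    (hosc : ∀ p ∈ P, IsOsc n p (Ξ p)) (hα : ∀ p, |α p| ≤ 1) :
    ∑ w ∈ bx n H, (∑ p ∈ P, α p * Ξ p w) ^ 2 ≤
      P.card * (2 * (H : ℝ) + 1) ^ n +
        (P.card : ℝ) ^ 2 * (n * (4 * 4 ^ a) * (2 * (H : ℝ) + 1) ^ (n - 1)) := by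
  classical
  have e1 : ∑ w ∈ bx n H, (∑ p ∈ P, α p * Ξ p w) ^ 2 =
      ∑ p ∈ P, ∑ p' ∈ P, (α p * α p') * ∑ w ∈ bx n H, Ξ p w * Ξ p' w := by
    simp only [sq, Finset.sum_mul_sum]
    rw [Finset.sum_comm]
    refine Finset.sum_congr rfl fun p _ => ?_
    rw [Finset.sum_comm]
    refine Finset.sum_congr rfl fun p' _ => ?_
    rw [Finset.mul_sum]
    refine Finset.sum_congr rfl fun w _ => ?_
    ring
  rw [e1]
  have hαα : ∀ p p', |α p * α p'| ≤ 1 := by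
    intro p p'
    rw [abs_mul]
    exact mul_le_one₀ (hα p) (abs_nonneg _) (hα p')
  set D : ℝ := n * (4 * 4 ^ a) * (2 * (H : ℝ) + 1) ^ (n - 1) with hD
  have hD0 : 0 ≤ D := by rw [hD]; positivity
  have e2 : ∀ p ∈ P, ∑ p' ∈ P, (α p * α p') * ∑ w ∈ bx n H, Ξ p w * Ξ p' w ≤
      (2 * (H : ℝ) + 1) ^ n + P.card * D := by
    intro p hp
    rw [← Finset.add_sum_erase P _ hp]
    refine add_le_add ?_ ?_
    · refine (le_abs_self _).trans ?_
      rw [abs_mul]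
      have h3 : |∑ w ∈ bx n H, Ξ p w * Ξ p w| ≤ (2 * (H : ℝ) + 1) ^ n := by
        refine (Finset.abs_sum_le_sum_abs _ _).trans ?_
        calc ∑ w ∈ bx n H, |Ξ p w * Ξ p w| ≤ ∑ _w ∈ bx n H, (1 : ℝ) := by
              refine Finset.sum_le_sum fun w _ => ?_
              rw [abs_mul]
              exact mul_le_one₀ ((hosc p hp).le w) (abs_nonneg _) ((hosc p hp).le w)
          _ = (2 * (H : ℝ) + 1) ^ n := by
              rw [Finset.sum_const, card_bx, nsmul_eq_mul, mul_one]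
              push_cast
              ring
      calc |α p * α p| * |∑ w ∈ bx n H, Ξ p w * Ξ p w| ≤ 1 * (2 * (H : ℝ) + 1) ^ n :=
            mul_le_mul (hαα p p) h3 (abs_nonneg _) zero_le_one
        _ = _ := one_mul _
    · have e3 : ∀ p' ∈ P.erase p, (α p * α p') * ∑ w ∈ bx n H, Ξ p w * Ξ p' w ≤ D := by
        intro p' hp'
        rw [Finset.mem_erase] at hp'
        have h3 := off h1 h2 n H a hn p p' (hP p hp).1 (hP p' hp'.2).1 (hP p hp).2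
          (hP p' hp'.2).2 (Ne.symm hp'.1) (Ξ p) (Ξ p') (hosc p hp) (hosc p' hp'.2)
        refine (le_abs_self _).trans ?_
        rw [abs_mul]
        calc |α p * α p'| * |∑ w ∈ bx n H, Ξ p w * Ξ p' w| ≤ 1 * D :=
              mul_le_mul (hαα p p') h3 (abs_nonneg _) zero_le_one
          _ = _ := one_mul _
      calc ∑ p' ∈ P.erase p, (α p * α p') * ∑ w ∈ bx n H, Ξ p w * Ξ p' w
          ≤ ∑ _p' ∈ P.erase p, D := Finset.sum_le_sum e3
        _ = (P.erase p).card * D := by rw [Finset.sum_const, nsmul_eq_mul]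
        _ ≤ P.card * D := by
            refine mul_le_mul_of_nonneg_right ?_ hD0
            exact_mod_cast Finset.card_le_card (Finset.erase_subset _ _)
  calc ∑ p ∈ P, ∑ p' ∈ P, (α p * α p') * ∑ w ∈ bx n H, Ξ p w * Ξ p' w
      ≤ ∑ _p ∈ P, ((2 * (H : ℝ) + 1) ^ n + P.card * D) := Finset.sum_le_sum e2
    _ = P.card * (2 * (H : ℝ) + 1) ^ n + (P.card : ℝ) ^ 2 * D := by
        rw [Finset.sum_const, nsmul_eq_mul]
        ring

end BLK_

open BLK_ in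
theorem p_BLK (h1 : T_BOX) (h2 : T_CRTX) : T_BLK := by
  intro n C hn hC
  refine ⟨4 * n * (3 * C) ^ n, by positivity, ?_⟩
  intro a b P Q Ξ v α β hP hQ hosc hα hβ hv hinj
  have hn0 : (0 : ℝ) < n := by exact_mod_cast hn
  have hn1 : (1 : ℝ) ≤ n := by exact_mod_cast hn
  set u : ℝ := (2 : ℝ) ^ (((b : ℝ) + 1) / n) with hu
  set t : ℝ := (2 : ℝ) ^ ((b : ℝ) / n) with ht
  have hu1 : 1 ≤ u := Real.one_le_rpow (by norm_num) (by positivity)
  have ht1 : 1 ≤ t := Real.one_le_rpow (by norm_num) (by positivity)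
  have htu : t ≤ u := by
    refine Real.rpow_le_rpow_of_exponent_le (by norm_num) ?_
    gcongr
    linarith
  have hun : u ^ n = 2 * 2 ^ b := by
    rw [hu, ← Real.rpow_natCast, ← Real.rpow_mul (by norm_num), div_mul_cancel₀ _ hn0.ne',
      Real.rpow_add (by norm_num), Real.rpow_one, Real.rpow_natCast]
    ring
  have hun1 : u ^ (n - 1) * t ≤ 2 * 2 ^ b := by
    calc u ^ (n - 1) * t ≤ u ^ (n - 1) * u := by gcongr
      _ = u ^ n := by
          rw [← pow_succ]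
          congr 1
          omega
      _ = 2 * 2 ^ b := hun
  set H : ℕ := ⌊C * u⌋₊ with hH
  have hHle : (H : ℝ) ≤ C * u := Nat.floor_le (by positivity)
  have hCu : 1 ≤ C * u := by nlinarith
  have h2H : 2 * (H : ℝ) + 1 ≤ 3 * C * u := by linarith
  -- vectors lie in the box
  have hvbox : ∀ q ∈ Q, v q ∈ bx n H := by
    intro q hq
    rw [bx, Fintype.mem_piFinset]
    intro k
    have h3 := hv q hq k
    have h4 : (q : ℝ) ^ ((1 : ℝ) / n) ≤ u := by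
      have h5 : (q : ℝ) ≤ (2 : ℝ) ^ ((b : ℝ) + 1) := by
        have h6 : (q : ℝ) ≤ 2 ^ (b + 1) := by exact_mod_cast (hQ q hq).le
        refine h6.trans (le_of_eq ?_)
        rw [Real.rpow_add (by norm_num), Real.rpow_one, Real.rpow_natCast, pow_succ]
      calc (q : ℝ) ^ ((1 : ℝ) / n) ≤ ((2 : ℝ) ^ ((b : ℝ) + 1)) ^ ((1 : ℝ) / n) :=
            Real.rpow_le_rpow (Nat.cast_nonneg _) h5 (by positivity)
        _ = u := by
            rw [hu, ← Real.rpow_mul (by norm_num)]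
            congr 1
            ring
    have h5 : |(v q k : ℝ)| ≤ C * u := h3.trans (by gcongr)
    have h6 : (((v q k).natAbs : ℕ) : ℝ) ≤ C * u := by
      rwa [Nat.cast_natAbs, Int.cast_abs]
    have h7 : (v q k).natAbs ≤ H := Nat.le_floor h6
    rw [Finset.mem_Icc]
    omega
  set F : (Fin n → ℤ) → ℝ := fun w => ∑ p ∈ P, α p * Ξ p w with hF
  have hswap : ∑ p ∈ P, ∑ q ∈ Q, α p * β q * Ξ p (v q) = ∑ q ∈ Q, β q * F (v q) := by
    rw [Finset.sum_comm]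
    refine Finset.sum_congr rfl fun q _ => ?_
    rw [hF, Finset.mul_sum]
    refine Finset.sum_congr rfl fun p _ => ?_
    ring
  have hQcard : (Q.card : ℝ) ≤ 2 * 2 ^ b := by
    have h3 : Q ⊆ Finset.range (2 ^ (b + 1)) := fun q hq => Finset.mem_range.2 (hQ q hq)
    have h4 := Finset.card_le_card h3
    rw [Finset.card_range, pow_succ, mul_comm] at h4
    exact_mod_cast h4
  have hβsum : ∑ q ∈ Q, β q ^ 2 ≤ 2 * 2 ^ b := by
    calc ∑ q ∈ Q, β q ^ 2 ≤ ∑ _q ∈ Q, (1 : ℝ) := by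
          refine Finset.sum_le_sum fun q _ => ?_
          have h3 := abs_le.1 (hβ q)
          nlinarith
      _ = Q.card := by simp
      _ ≤ _ := hQcard
  have hFsum : ∑ q ∈ Q, F (v q) ^ 2 ≤ ∑ w ∈ bx n H, F w ^ 2 := by
    classical
    have h3 : ∑ q ∈ Q, F (v q) ^ 2 = ∑ w ∈ Q.image v, F w ^ 2 := by
      rw [Finset.sum_image]
      intro q hq q' hq' h
      exact hinj q hq q' hq' h
    rw [h3]
    refine Finset.sum_le_sum_of_subset_of_nonneg ?_ (fun w _ _ => sq_nonneg _)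
    intro w hw
    rw [Finset.mem_image] at hw
    obtain ⟨q, hq, rfl⟩ := hw
    exact hvbox q hq
  have hmain := sumsq h1 h2 n H a hn P Ξ α hP hosc hα
  have hCS := Finset.sum_mul_sq_le_sq_mul_sq Q β (fun q => F (v q))
  have hX0 : 0 ≤ ∑ w ∈ bx n H, F w ^ 2 := Finset.sum_nonneg fun w _ => sq_nonneg _
  have hS : (∑ q ∈ Q, β q * F (v q)) ^ 2 ≤ (2 * 2 ^ b) *
      (P.card * (2 * (H : ℝ) + 1) ^ n +
        (P.card : ℝ) ^ 2 * (n * (4 * 4 ^ a) * (2 * (H : ℝ) + 1) ^ (n - 1))) := by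
    refine hCS.trans ?_
    refine mul_le_mul hβsum (hFsum.trans hmain) (Finset.sum_nonneg fun q _ => sq_nonneg _)
      (by positivity)
  -- numerical estimates
  set X : ℝ := Real.sqrt P.card * 2 ^ b with hX
  set Y : ℝ := P.card * 2 ^ a * (2 : ℝ) ^ ((b : ℝ) - b / (2 * n)) with hY
  have hX00 : 0 ≤ X := by positivity
  have hY00 : 0 ≤ Y := by positivity
  have hX2 : X ^ 2 = P.card * 4 ^ b := by
    rw [hX, mul_pow, Real.sq_sqrt (Nat.cast_nonneg _), ← pow_mul, mul_comm b 2, pow_mul]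
    norm_num
  have hY2 : Y ^ 2 * t = (P.card : ℝ) ^ 2 * 4 ^ a * 4 ^ b := by
    have h3 : ((2 : ℝ) ^ ((b : ℝ) - b / (2 * n))) ^ 2 * t = 4 ^ b := by
      rw [ht, ← Real.rpow_natCast, ← Real.rpow_mul (by norm_num), ← Real.rpow_add (by norm_num)]
      have : ((b : ℝ) - b / (2 * n)) * ((2 : ℕ) : ℝ) + b / n = ((2 * b : ℕ) : ℝ) := by
        push_cast
        field_simp
        ring
      rw [this, Real.rpow_natCast, pow_mul]
      norm_num
    rw [hY, mul_pow, mul_pow, mul_assoc, h3, ← pow_mul, mul_comm a 2, pow_mul]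
    norm_num
  set G : ℝ := (3 * C) ^ n with hG
  have hG1 : 1 ≤ G := one_le_pow₀ (by linarith)
  have hA : (2 * (H : ℝ) + 1) ^ n ≤ G * (2 * 2 ^ b) := by
    calc (2 * (H : ℝ) + 1) ^ n ≤ (3 * C * u) ^ n := by gcongr
      _ = G * (2 * 2 ^ b) := by rw [mul_pow, hun]
  have hB : (2 * (H : ℝ) + 1) ^ (n - 1) * t ≤ G * (2 * 2 ^ b) := by
    calc (2 * (H : ℝ) + 1) ^ (n - 1) * t ≤ (3 * C * u) ^ (n - 1) * t := by gcongr
      _ = (3 * C) ^ (n - 1) * (u ^ (n - 1) * t) := by rw [mul_pow]; ring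
      _ ≤ (3 * C) ^ (n - 1) * (2 * 2 ^ b) := by gcongr
      _ ≤ G * (2 * 2 ^ b) := by
          have : (3 * C) ^ (n - 1) ≤ G := pow_le_pow_right₀ (by linarith) (by omega)
          gcongr
  have h4b : (4 : ℝ) ^ b = 2 ^ b * 2 ^ b := by rw [← mul_pow]; norm_num
  have hfin : (∑ q ∈ Q, β q * F (v q)) ^ 2 ≤ (4 * n * G * (X + Y)) ^ 2 := by
    refine hS.trans ?_
    have ht0 : 0 < t := by linarith
    have h5 : (2 * 2 ^ b) * (P.card * (2 * (H : ℝ) + 1) ^ n) ≤ 4 * G * X ^ 2 := by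
      rw [hX2, h4b]
      calc (2 * 2 ^ b) * (P.card * (2 * (H : ℝ) + 1) ^ n) ≤
            (2 * 2 ^ b) * (P.card * (G * (2 * 2 ^ b))) := by gcongr
        _ = _ := by ring
    have h6 : (2 * 2 ^ b) * ((P.card : ℝ) ^ 2 * (n * (4 * 4 ^ a) *
        (2 * (H : ℝ) + 1) ^ (n - 1))) ≤ 16 * n * G * Y ^ 2 := by
      refine le_of_mul_le_mul_right ?_ ht0
      calc (2 * 2 ^ b) * ((P.card : ℝ) ^ 2 * (n * (4 * 4 ^ a) *
            (2 * (H : ℝ) + 1) ^ (n - 1))) * t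
          = (2 * 2 ^ b) * ((P.card : ℝ) ^ 2 * (n * (4 * 4 ^ a) *
            ((2 * (H : ℝ) + 1) ^ (n - 1) * t))) := by ring
        _ ≤ (2 * 2 ^ b) * ((P.card : ℝ) ^ 2 * (n * (4 * 4 ^ a) * (G * (2 * 2 ^ b)))) := by
            gcongr
        _ = 16 * n * G * ((P.card : ℝ) ^ 2 * 4 ^ a * 4 ^ b) := by rw [h4b]; ring
        _ = 16 * n * G * Y ^ 2 * t := by rw [← hY2]; ring
    have hGG : G ≤ G ^ 2 := by nlinarith
    have hnn : (n : ℝ) ≤ (n : ℝ) ^ 2 := by nlinarith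
    have hnG : 1 ≤ (n : ℝ) ^ 2 := by nlinarith
    have h7 : 4 * G * X ^ 2 ≤ 16 * (n : ℝ) ^ 2 * G ^ 2 * X ^ 2 := by
      have h8 : 4 * G ≤ 16 * (n : ℝ) ^ 2 * G ^ 2 := by nlinarith
      exact mul_le_mul_of_nonneg_right h8 (sq_nonneg _)
    have h8 : 16 * n * G * Y ^ 2 ≤ 16 * (n : ℝ) ^ 2 * G ^ 2 * Y ^ 2 := by
      have h9 : 16 * (n : ℝ) * G ≤ 16 * (n : ℝ) ^ 2 * G ^ 2 := by
        have : (n : ℝ) * G ≤ (n : ℝ) ^ 2 * G ^ 2 := mul_le_mul hnn hGG (by linarith) (by positivity)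
        nlinarith
      exact mul_le_mul_of_nonneg_right h9 (sq_nonneg _)
    have h9 : X ^ 2 + Y ^ 2 ≤ (X + Y) ^ 2 := by nlinarith [mul_nonneg hX00 hY00]
    have h10 : 0 ≤ 16 * (n : ℝ) ^ 2 * G ^ 2 := by positivity
    nlinarith [mul_le_mul_of_nonneg_left h9 h10]
  rw [hswap]
  have hpos : 0 ≤ 4 * n * G * (X + Y) := by positivity
  exact abs_le_of_sq_le_sq hfin hpos

end Pool.Agent.QTx
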