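import Pool.Agent.QTx.Targets
import Pool.Agent.QTw.MERT

/-!
# The sum of the reciprocals of the primes in one block is bounded
-/

namespace Pool.Agent.QTx

namespace BLOCK2_

/-- lower bound for the primes in the block `k` -/
theorem le_of_bk {κ p k : ℕ} (hp : p.Prime) (h : Model.bk κ p = k) :
    2 ^ ((2 * κ) ^ k) ≤ p := by
  unfold Model.bk at h
  have h2 : 1 ≤ Nat.log 2 p := Nat.log_pos (by norm_num) hp.two_le
  have h3 : (2 * κ) ^ k ≤ Nat.log 2 p := by
    rw [← h]
    exact Nat.pow_log_le_self (2 * κ) (by omega)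
  exact (Nat.pow_le_pow_right (by norm_num) h3).trans
    (Nat.pow_log_le_self 2 hp.pos.ne')

/-- upper bound for the primes in the block `k` -/
theorem lt_of_bk {κ p k : ℕ} (hκ : 1 ≤ κ) (h : Model.bk κ p = k) :
    p < 2 ^ ((2 * κ) ^ (k + 1)) := by
  unfold Model.bk at h
  have h3 : Nat.log 2 p < (2 * κ) ^ (k + 1) := by
    rw [← h]
    exact Nat.lt_pow_succ_log_self (by omega) _
  have h4 : p < 2 ^ (Nat.log 2 p + 1) := Nat.lt_pow_succ_log_self (by norm_num) _
  exact h4.trans_le (Nat.pow_le_pow_right (by norm_num) h3)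

end BLOCK2_

open BLOCK2_ in
/-- BLOCK2: the sum over one block is bounded. -/
theorem p_BLOCK2 : T_BLOCK2 := by
  intro κ hκ
  obtain ⟨B, hB⟩ := Pool.Agent.QTw.p_MERT
  have hl2 : 0 < Real.log 2 := Real.log_pos (by norm_num)
  refine ⟨2 * κ + |B| / Real.log 2, by positivity, fun k X => ?_⟩
  have hκR : (1 : ℝ) ≤ κ := by exact_mod_cast hκ
  set L : ℝ := ((2 * κ : ℝ)) ^ k * Real.log 2 with hL
  have h16 : (1 : ℝ) ≤ (2 * κ : ℝ) ^ k := one_le_pow₀ (by linarith)
  have hLpos : 0 < L := by positivity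
  -- termwise bound
  have hterm : ∀ p ∈ (Finset.range (X + 1)).filter (fun p => p.Prime ∧ Model.bk κ p = k),
      1 / (p : ℝ) ≤ (Real.log p / p) / L := by
    intro p hp
    rw [Finset.mem_filter] at hp
    obtain ⟨-, hpp, hk⟩ := hp
    have hppos : (0 : ℝ) < p := by exact_mod_cast hpp.pos
    have hle : ((2 ^ ((2 * κ) ^ k) : ℕ) : ℝ) ≤ p := by exact_mod_cast le_of_bk hpp hk
    have hlog : L ≤ Real.log p := by
      have := Real.log_le_log (by positivity) hle
      rw [Nat.cast_pow, Real.log_pow] at this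
      push_cast at this
      exact this
    rw [div_div, div_le_div_iff₀ hppos (by positivity)]
    nlinarith
  have hsub : (Finset.range (X + 1)).filter (fun p => p.Prime ∧ Model.bk κ p = k) ⊆
      (Finset.range (2 ^ ((2 * κ) ^ (k + 1)) + 1)).filter Nat.Prime := by
    intro p hp
    rw [Finset.mem_filter] at hp ⊢
    obtain ⟨-, hpp, hk⟩ := hp
    refine ⟨Finset.mem_range.2 ?_, hpp⟩
    have := lt_of_bk hκ hk
    omega
  have hM := hB (2 ^ ((2 * κ) ^ (k + 1))) Nat.one_le_two_pow
  have hlogX : Real.log ((2 ^ ((2 * κ) ^ (k + 1)) : ℕ) : ℝ) = (2 * κ) * L := by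
    rw [Nat.cast_pow, Real.log_pow]
    push_cast
    rw [hL]
    ring
  rw [hlogX] at hM
  calc ∑ p ∈ (Finset.range (X + 1)).filter (fun p => p.Prime ∧ Model.bk κ p = k), 1 / (p : ℝ)
      ≤ ∑ p ∈ (Finset.range (X + 1)).filter (fun p => p.Prime ∧ Model.bk κ p = k),
          (Real.log p / p) / L := Finset.sum_le_sum hterm
    _ ≤ ∑ p ∈ (Finset.range (2 ^ ((2 * κ) ^ (k + 1)) + 1)).filter Nat.Prime,
          (Real.log p / p) / L := by
        refine Finset.sum_le_sum_of_subset_of_nonneg hsub fun p hp _ => ?_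
        have hpp : p.Prime := (Finset.mem_filter.1 hp).2
        have h1 : (1 : ℝ) ≤ p := by exact_mod_cast hpp.one_lt.le
        have h2 := Real.log_nonneg h1
        positivity
    _ = (∑ p ∈ (Finset.range (2 ^ ((2 * κ) ^ (k + 1)) + 1)).filter Nat.Prime,
          Real.log p / p) / L := by rw [Finset.sum_div]
    _ ≤ ((2 * κ) * L + B) / L := by gcongr
    _ ≤ 2 * κ + |B| / Real.log 2 := by
        rw [add_div, mul_div_assoc, div_self hLpos.ne', mul_one]
        have h5 : B / L ≤ |B| / Real.log 2 := by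
          rw [div_le_div_iff₀ hLpos hl2]
          have h6 : Real.log 2 ≤ L := by rw [hL]; nlinarith
          calc B * Real.log 2 ≤ |B| * Real.log 2 := by
                gcongr
                exact le_abs_self B
            _ ≤ |B| * L := by gcongr
        linarith

end Pool.Agent.QTx
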