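import Pool.Agent.QTx.Targets

set_option autoImplicit false
set_option maxHeartbeats 1000000

/-!
# QTx, target BOX: sum of a periodic function over a box
-/

namespace Pool.Agent.QTx

open Finset
open scoped BigOperators

namespace BOX_

theorem emod_sub (x c m : ℤ) : (x % m - c) % m = (x - c) % m := by
  have h : x % m - c = (x - c) - m * (x / m) := by
    have := Int.emod_add_mul_ediv x m
    linarith
  rw [h, Int.sub_mul_emod_self_left]

theorem add_emod' (c x m : ℤ) : (c + x % m) % m = (c + x) % m := by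
  have h : c + x % m = (c + x) - m * (x / m) := by
    have := Int.emod_add_mul_ediv x m
    linarith
  rw [h, Int.sub_mul_emod_self_left]

theorem cube {n m : ℕ} (Φ : (Fin n → ℤ) → ℝ) (hm : 1 ≤ m)
    (hper : ∀ v w : Fin n → ℤ, Φ (v + (m : ℤ) • w) = Φ v)
    (hz : ∑ v ∈ Fintype.piFinset (fun _ : Fin n => Finset.Ico (0 : ℤ) m), Φ v = 0)
    (c : Fin n → ℤ) :
    ∑ v ∈ Fintype.piFinset (fun _ : Fin n => Finset.Ico (0 : ℤ) m), Φ (c + v) = 0 := by
  rw [← hz]
  have hm0 : (0 : ℤ) < m := by exact_mod_cast hm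
  refine Finset.sum_nbij' (fun v j => (c j + v j) % m) (fun w j => (w j - c j) % m)
    ?_ ?_ ?_ ?_ ?_
  · intro v _
    rw [Fintype.mem_piFinset]
    intro j
    rw [Finset.mem_Ico]
    exact ⟨Int.emod_nonneg _ (ne_of_gt hm0), Int.emod_lt_of_pos _ hm0⟩
  · intro v _
    rw [Fintype.mem_piFinset]
    intro j
    rw [Finset.mem_Ico]
    exact ⟨Int.emod_nonneg _ (ne_of_gt hm0), Int.emod_lt_of_pos _ hm0⟩
  · intro v hv
    rw [Fintype.mem_piFinset] at hv
    funext j
    have h1 := Finset.mem_Ico.mp (hv j)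
    show ((c j + v j) % m - c j) % m = v j
    rw [emod_sub, add_sub_cancel_left]
    exact Int.emod_eq_of_lt h1.1 h1.2
  · intro v hv
    rw [Fintype.mem_piFinset] at hv
    funext j
    have h1 := Finset.mem_Ico.mp (hv j)
    show (c j + (v j - c j) % m) % m = v j
    rw [add_emod', add_sub_cancel]
    exact Int.emod_eq_of_lt h1.1 h1.2
  · intro v _
    rw [← hper (fun j => (c j + v j) % m) (fun j => (c j + v j) / m)]
    congr 1
    funext j
    show c j + v j = (c j + v j) % m + (m : ℤ) • ((c j + v j) / m)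
    rw [smul_eq_mul]
    exact (Int.emod_add_mul_ediv _ _).symm

theorem blocks {n m : ℕ} (Φ : (Fin n → ℤ) → ℝ) (hm : 1 ≤ m)
    (hper : ∀ v w : Fin n → ℤ, Φ (v + (m : ℤ) • w) = Φ v)
    (hz : ∑ v ∈ Fintype.piFinset (fun _ : Fin n => Finset.Ico (0 : ℤ) m), Φ v = 0)
    (c : ℤ) (a : ℕ) :
    ∑ v ∈ Fintype.piFinset (fun _ : Fin n => Finset.Ico c (c + a * m)), Φ v = 0 := by
  have hm0 : (0 : ℤ) < m := by exact_mod_cast hm
  have h1 : ∑ v ∈ Fintype.piFinset (fun _ : Fin n => Finset.Ico c (c + a * m)), Φ v =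
      ∑ q ∈ Fintype.piFinset (fun _ : Fin n => Finset.Ico (0 : ℤ) a) ×ˢ
        Fintype.piFinset (fun _ : Fin n => Finset.Ico (0 : ℤ) m),
          Φ ((fun _ => c) + q.2 + (m : ℤ) • q.1) := by
    refine Finset.sum_nbij' (fun v => (fun j => (v j - c) / m, fun j => (v j - c) % m))
      (fun q => (fun _ => c) + q.2 + (m : ℤ) • q.1) ?_ ?_ ?_ ?_ ?_
    · intro v hv
      rw [Fintype.mem_piFinset] at hv
      rw [Finset.mem_product, Fintype.mem_piFinset, Fintype.mem_piFinset]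
      refine ⟨fun j => ?_, fun j => ?_⟩
      · have h2 := Finset.mem_Ico.mp (hv j)
        rw [Finset.mem_Ico]
        refine ⟨Int.ediv_nonneg (by linarith) hm0.le, ?_⟩
        rw [Int.ediv_lt_iff_lt_mul hm0]
        linarith
      · rw [Finset.mem_Ico]
        exact ⟨Int.emod_nonneg _ (ne_of_gt hm0), Int.emod_lt_of_pos _ hm0⟩
    · intro q hq
      rw [Finset.mem_product, Fintype.mem_piFinset, Fintype.mem_piFinset] at hq
      rw [Fintype.mem_piFinset]
      intro j
      have h2 := Finset.mem_Ico.mp (hq.1 j)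
      have h3 := Finset.mem_Ico.mp (hq.2 j)
      rw [Finset.mem_Ico]
      show c ≤ c + q.2 j + (m : ℤ) * q.1 j ∧ c + q.2 j + (m : ℤ) * q.1 j < c + a * m
      have h4 : 0 ≤ (m : ℤ) * q.1 j := mul_nonneg hm0.le h2.1
      have h5 : (m : ℤ) * (q.1 j + 1) ≤ m * a := mul_le_mul_of_nonneg_left (by omega) hm0.le
      constructor
      · linarith
      · nlinarith
    · intro v _
      funext j
      show c + (v j - c) % m + (m : ℤ) * ((v j - c) / m) = v j
      have := Int.emod_add_mul_ediv (v j - c) m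
      linarith
    · intro q hq
      rw [Finset.mem_product, Fintype.mem_piFinset, Fintype.mem_piFinset] at hq
      refine Prod.ext (funext fun j => ?_) (funext fun j => ?_)
      · have h3 := Finset.mem_Ico.mp (hq.2 j)
        show (c + q.2 j + (m : ℤ) * q.1 j - c) / m = q.1 j
        have h4 : c + q.2 j + (m : ℤ) * q.1 j - c = q.2 j + (m : ℤ) * q.1 j := by ring
        rw [h4, Int.add_mul_ediv_left _ _ (ne_of_gt hm0), Int.ediv_eq_zero_of_lt h3.1 h3.2,
          zero_add]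
      · have h3 := Finset.mem_Ico.mp (hq.2 j)
        show (c + q.2 j + (m : ℤ) * q.1 j - c) % m = q.2 j
        have h4 : c + q.2 j + (m : ℤ) * q.1 j - c = q.2 j + (m : ℤ) * q.1 j := by ring
        rw [h4, Int.add_mul_emod_self_left, Int.emod_eq_of_lt h3.1 h3.2]
    · intro v _
      congr 1
      funext j
      show v j = c + (v j - c) % m + (m : ℤ) * ((v j - c) / m)
      have := Int.emod_add_mul_ediv (v j - c) m
      linarith
  rw [h1, Finset.sum_product]
  refine Finset.sum_eq_zero fun q _ => ?_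
  have h2 := cube Φ hm hper hz (fun _ => c)
  rw [← h2]
  exact Finset.sum_congr rfl fun v _ => hper _ _

theorem bern (n : ℕ) (K L : ℝ) (hK : 0 ≤ K) (hKL : K ≤ L) :
    L ^ (n + 1) - K ^ (n + 1) ≤ (n + 1) * (L - K) * L ^ n := by
  induction n with
  | zero => simp
  | succ n ih =>
    have h1 : L ^ (n + 1 + 1) - K ^ (n + 1 + 1) =
        L * (L ^ (n + 1) - K ^ (n + 1)) + K ^ (n + 1) * (L - K) := by ring
    have h2 : K ^ (n + 1) ≤ L ^ (n + 1) := pow_le_pow_left₀ hK hKL _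
    have h3 : L * (L ^ (n + 1) - K ^ (n + 1)) ≤ L * ((n + 1) * (L - K) * L ^ n) :=
      mul_le_mul_of_nonneg_left ih (hK.trans hKL)
    have h4 : K ^ (n + 1) * (L - K) ≤ L ^ (n + 1) * (L - K) :=
      mul_le_mul_of_nonneg_right h2 (by linarith)
    rw [h1]
    push_cast
    calc L * (L ^ (n + 1) - K ^ (n + 1)) + K ^ (n + 1) * (L - K)
        ≤ L * ((n + 1) * (L - K) * L ^ n) + L ^ (n + 1) * (L - K) := add_le_add h3 h4
      _ = ((n : ℝ) + 1 + 1) * (L - K) * L ^ (n + 1) := by ring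

end BOX_

open BOX_ in
theorem p_BOX : T_BOX := by
  intro n m H Φ hn hm hle hper hz
  obtain ⟨a, ha⟩ : ∃ a : ℕ, a = (2 * H + 1) / m := ⟨_, rfl⟩
  have hm0 : 0 < m := hm
  have h1 : a * m ≤ 2 * H + 1 := by
    rw [ha]
    exact Nat.div_mul_le_self _ _
  have h2 : 2 * H + 1 < a * m + m := by
    have h3 := Nat.lt_div_mul_add (a := 2 * H + 1) hm0
    rw [ha]
    exact h3
  obtain ⟨B, hB⟩ : ∃ B, B = Fintype.piFinset (fun _ : Fin n => Finset.Icc (-(H : ℤ)) H) :=
    ⟨_, rfl⟩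
  obtain ⟨B', hB'⟩ : ∃ B', B' = Fintype.piFinset
    (fun _ : Fin n => Finset.Ico (-(H : ℤ)) (-(H : ℤ) + a * m)) := ⟨_, rfl⟩
  have hsub : B' ⊆ B := by
    rw [hB, hB']
    refine Fintype.piFinset_subset _ _ fun _ => ?_
    intro x hx
    rw [Finset.mem_Ico] at hx
    rw [Finset.mem_Icc]
    have h4 : ((a * m : ℕ) : ℤ) ≤ ((2 * H + 1 : ℕ) : ℤ) := by exact_mod_cast h1
    push_cast at h4
    omega
  have hzero : ∑ v ∈ B', Φ v = 0 := by
    rw [hB']
    exact blocks Φ hm hper hz _ a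
  have hcB : B.card = (2 * H + 1) ^ n := by
    rw [hB, Fintype.card_piFinset_const, Int.card_Icc]
    congr 1
    omega
  have hcB' : B'.card = (a * m) ^ n := by
    rw [hB', Fintype.card_piFinset_const, Int.card_Ico]
    congr 1
    have : -(H : ℤ) + a * m - -(H : ℤ) = ((a * m : ℕ) : ℤ) := by
      push_cast
      ring
    rw [this, Int.toNat_natCast]
  rw [← hB, ← Finset.sum_sdiff hsub, hzero, add_zero]
  refine (Finset.abs_sum_le_sum_abs _ _).trans ?_
  refine (Finset.sum_le_card_nsmul _ _ 1 fun v _ => hle v).trans ?_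
  rw [nsmul_eq_mul, mul_one, Finset.card_sdiff_of_subset hsub, Nat.cast_sub
    (Finset.card_le_card hsub), hcB, hcB']
  obtain ⟨k, rfl⟩ : ∃ k, n = k + 1 := ⟨n - 1, by omega⟩
  have h5 : ((a * m : ℕ) : ℝ) ≤ ((2 * H + 1 : ℕ) : ℝ) := by exact_mod_cast h1
  have h6 := bern k ((a * m : ℕ) : ℝ) ((2 * H + 1 : ℕ) : ℝ) (Nat.cast_nonneg _) h5
  rw [Nat.cast_pow, Nat.cast_pow, Nat.add_sub_cancel]
  refine h6.trans ?_
  have h7 : ((2 * H + 1 : ℕ) : ℝ) - ((a * m : ℕ) : ℝ) ≤ m := by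
    have h8 : ((2 * H + 1 : ℕ) : ℝ) ≤ ((a * m + m : ℕ) : ℝ) := by exact_mod_cast h2.le
    push_cast at h8 ⊢
    linarith
  have h9 : ((2 * H + 1 : ℕ) : ℝ) = 2 * (H : ℝ) + 1 := by push_cast; ring
  rw [← h9]
  push_cast
  refine mul_le_mul_of_nonneg_right ?_ (by positivity)
  refine mul_le_mul_of_nonneg_left ?_ (by positivity)
  push_cast at h7
  exact h7

end Pool.Agent.QTx
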