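import Pool.Agent.QTx.Targets

set_option autoImplicit false

/-!
# QTX-CLREP: representatives of the ideal classes
-/

open Polynomial NumberField
open scoped nonZeroDivisors

namespace Pool.Agent.QTx

/-- CLREP: representatives of the ideal classes. -/
theorem p_CLREP : T_CLREP := by
  intro K _ _
  choose J hJ using fun C : ClassGroup (𝓞 K) => ClassGroup.mk0_surjective C
  refine ⟨∏ C : ClassGroup (𝓞 K), Ideal.absNorm (J C : Ideal (𝓞 K)), ?_, ?_⟩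
  · refine Finset.prod_pos fun C _ => Nat.pos_of_ne_zero fun h => ?_
    rw [Ideal.absNorm_eq_zero_iff] at h
    exact nonZeroDivisors.ne_zero (J C).2 h
  · intro I hI
    let I' : (Ideal (𝓞 K))⁰ := ⟨I, mem_nonZeroDivisors_iff_ne_zero.2 hI⟩
    refine ⟨J (ClassGroup.mk0 I')⁻¹, nonZeroDivisors.ne_zero (J _).2,
      Finset.dvd_prod_of_mem (fun C : ClassGroup (𝓞 K) => Ideal.absNorm (J C : Ideal (𝓞 K)))
        (Finset.mem_univ _), ?_⟩
    have hmem : I * (J (ClassGroup.mk0 I')⁻¹ : Ideal (𝓞 K)) ∈ (Ideal (𝓞 K))⁰ :=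
      (I' * J (ClassGroup.mk0 I')⁻¹).2
    have h1 : ClassGroup.mk0 (⟨_, hmem⟩ : (Ideal (𝓞 K))⁰) = 1 := by
      have h3 : (⟨_, hmem⟩ : (Ideal (𝓞 K))⁰) = I' * J (ClassGroup.mk0 I')⁻¹ := rfl
      rw [h3, map_mul, hJ, mul_inv_cancel]
    have h2 := (ClassGroup.mk0_eq_one_iff hmem).1 h1
    obtain ⟨⟨α, hα⟩⟩ := h2
    exact ⟨α, hα⟩

end Pool.Agent.QTx
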