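import Pool.Agent.QTx.Targets

set_option autoImplicit false

/-!
# Algebraic numbers in `E(S)`
-/

open Polynomial

namespace Pool.Agent.QTx

namespace CONST2_

variable {E : Type} [Field E] [CharZero E]

/-- the minimal polynomial of an algebraic number does not change -/
theorem minpoly_eq (hE : ∀ z : E, IsAlgebraic ℚ z → ∃ q : ℚ, z = q) (u : AlgebraicClosure E)
    (hu : IsAlgebraic ℚ u) : minpoly E u = (minpoly ℚ u).map (algebraMap ℚ E) := by
  have hui : IsIntegral ℚ u := hu.isIntegral
  have huE : IsIntegral E u := hui.tower_top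
  have hdvd : minpoly E u ∣ (minpoly ℚ u).map (algebraMap ℚ E) := by
    apply minpoly.dvd
    rw [aeval_map_algebraMap]
    exact minpoly.aeval ℚ u
  have hlift := integralClosure.mem_lifts_of_monic_of_dvd_map E (minpoly.monic hui)
    (minpoly.monic huE) hdvd
  obtain ⟨g, hg⟩ := (mem_lifts _).1 hlift
  -- the coefficients are rational
  have hco : minpoly E u ∈ lifts (algebraMap ℚ E) := by
    rw [lifts_iff_coeff_lifts]
    intro n
    rw [← hg, coeff_map]
    have h1 : IsIntegral ℚ ((algebraMap (integralClosure ℚ E) E) (g.coeff n)) := (g.coeff n).2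
    obtain ⟨q, hq⟩ := hE _ h1.isAlgebraic
    exact ⟨q, by rw [hq, eq_ratCast]⟩
  obtain ⟨q, hq⟩ := (mem_lifts _).1 hco
  have hqm : q.Monic := by
    apply monic_of_injective (algebraMap ℚ E).injective
    rw [hq]
    exact minpoly.monic huE
  have hqi : Irreducible q := by
    apply hqm.irreducible_of_irreducible_map (algebraMap ℚ E)
    rw [hq]
    exact minpoly.irreducible huE
  have hq0 : aeval u q = 0 := by
    have h1 := minpoly.aeval E u
    rw [← hq, aeval_map_algebraMap] at h1
    exact h1
  rw [← minpoly.eq_of_irreducible_of_monic hqi hq0 hqm, hq]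

theorem adjoin_le (S : Set (AlgebraicClosure E)) :
    IntermediateField.adjoin ℚ S ≤ (IntermediateField.adjoin E S).restrictScalars ℚ :=
  IntermediateField.adjoin_le_iff.2 (IntermediateField.subset_adjoin E S)

/-- a primitive element -/
theorem prim {F Ω : Type} [Field F] [CharZero F] [Field Ω] [Algebra F Ω] (S : Set Ω)
    (hS : S.Finite) (hS' : ∀ a ∈ S, IsIntegral F a) :
    FiniteDimensional F (IntermediateField.adjoin F S) ∧
    ∃ α : Ω, IsIntegral F α ∧ IntermediateField.adjoin F {α} = IntermediateField.adjoin F S := by
  have hfin : Finite S := hS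
  have hfd : FiniteDimensional F (IntermediateField.adjoin F S) :=
    IntermediateField.finiteDimensional_adjoin fun a ha => hS' a ha
  refine ⟨hfd, ?_⟩
  obtain ⟨α, hα⟩ := Field.exists_primitive_element F (IntermediateField.adjoin F S)
  refine ⟨(α : Ω), ?_, ?_⟩
  · have h4 : IsIntegral F α := IsIntegral.of_finite F α
    exact h4.map (IntermediateField.adjoin F S).val
  · have h3 : (IntermediateField.adjoin F {α}).map (IntermediateField.adjoin F S).val =
        IntermediateField.adjoin F {(α : Ω)} := by
      rw [IntermediateField.adjoin_map, Set.image_singleton]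
      rfl
    rw [← h3, hα, ← AlgHom.fieldRange_eq_map, IntermediateField.fieldRange_val]

theorem finrank_eq (hE : ∀ z : E, IsAlgebraic ℚ z → ∃ q : ℚ, z = q)
    (S : Set (AlgebraicClosure E)) (hS : S.Finite) (hS' : ∀ a ∈ S, IsAlgebraic ℚ a) :
    FiniteDimensional ℚ (IntermediateField.adjoin ℚ S) ∧
      Module.finrank E (IntermediateField.adjoin E S) =
        Module.finrank ℚ (IntermediateField.adjoin ℚ S) := by
  obtain ⟨hfd, α, hαi, h1⟩ := prim S hS fun a ha => (hS' a ha).isIntegral
  refine ⟨hfd, ?_⟩
  have h5 : IntermediateField.adjoin E {α} = IntermediateField.adjoin E S := by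
    apply le_antisymm
    · rw [IntermediateField.adjoin_le_iff, Set.singleton_subset_iff]
      have h6 : α ∈ IntermediateField.adjoin ℚ S := by
        rw [← h1]
        exact IntermediateField.mem_adjoin_simple_self ℚ α
      exact adjoin_le S h6
    · rw [IntermediateField.adjoin_le_iff]
      intro s hs
      have h6 : s ∈ IntermediateField.adjoin ℚ {α} := by
        rw [h1]
        exact IntermediateField.subset_adjoin ℚ S hs
      exact adjoin_le _ h6
  rw [← h5, ← h1, IntermediateField.adjoin.finrank hαi,
    IntermediateField.adjoin.finrank (hαi.tower_top : IsIntegral E α),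
    minpoly_eq hE _ hαi.isAlgebraic, natDegree_map]

end CONST2_

open CONST2_ in
theorem p_CONST2 : T_CONST2 := by
  intro E _ _ hE S hS hS' z hz hza
  obtain ⟨f1, f2⟩ := finrank_eq hE S hS hS'
  have hS1 : (insert z S).Finite := hS.insert z
  have hS1' : ∀ a ∈ insert z S, IsAlgebraic ℚ a := by
    intro a ha
    rcases Set.mem_insert_iff.1 ha with rfl | ha
    · exact hza
    · exact hS' a ha
  obtain ⟨g1, g2⟩ := finrank_eq hE (insert z S) hS1 hS1'
  have hEq : IntermediateField.adjoin E (insert z S) = IntermediateField.adjoin E S := by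
    apply le_antisymm
    · rw [IntermediateField.adjoin_le_iff]
      intro a ha
      rcases Set.mem_insert_iff.1 ha with rfl | ha
      · exact hz
      · exact IntermediateField.subset_adjoin E S ha
    · exact IntermediateField.adjoin.mono E _ _ (Set.subset_insert z S)
  rw [hEq, f2] at g2
  have hle : IntermediateField.adjoin ℚ S ≤ IntermediateField.adjoin ℚ (insert z S) :=
    IntermediateField.adjoin.mono ℚ _ _ (Set.subset_insert z S)
  have := IntermediateField.eq_of_le_of_finrank_eq hle g2
  rw [this]
  exact IntermediateField.subset_adjoin ℚ _ (Set.mem_insert z S)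

end Pool.Agent.QTx
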