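import Pool.Agent.QTx.Targets

/-!
# COV2: configurations without cancelling pairs
-/

open Polynomial NumberField
open Pool.Agent.QTw (IsFunctionField IsCovering HasPoint TwistSelNonempty geomField primesTo cfgs
  idealCount rootCount)

namespace Pool.Agent.QTx

namespace COV2_

theorem bk_mono (κ : ℕ) {p q : ℕ} (h : p ≤ q) : Model.bk κ p ≤ Model.bk κ q :=
  Nat.log_mono_right (Nat.log_mono_right h)

theorem big_of_bk {κ p q : ℕ} (hκ : 1 ≤ κ) (h : Model.bk κ p + 2 ≤ Model.bk κ q) :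
    Model.big κ p q := by
  unfold Model.bk at h
  unfold Model.big
  have hb : 1 < 2 * κ := by omega
  have h1 : Nat.log 2 p < (2 * κ) ^ (Nat.log (2 * κ) (Nat.log 2 p) + 1) :=
    Nat.lt_pow_succ_log_self hb _
  have hv : Nat.log 2 q ≠ 0 := by
    intro h0
    rw [h0, Nat.log_zero_right] at h
    omega
  have h2 : (2 * κ) ^ (Nat.log (2 * κ) (Nat.log 2 q)) ≤ Nat.log 2 q :=
    Nat.pow_log_le_self _ hv
  calc κ * (Nat.log 2 p + 1) ≤ (2 * κ) * (2 * κ) ^ (Nat.log (2 * κ) (Nat.log 2 p) + 1) :=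
        Nat.mul_le_mul (by omega) h1
    _ = (2 * κ) ^ (Nat.log (2 * κ) (Nat.log 2 p) + 2) := by
        rw [pow_succ _ (_ + 1), mul_comm]
    _ ≤ (2 * κ) ^ (Nat.log (2 * κ) (Nat.log 2 q)) := Nat.pow_le_pow_right (by omega) h
    _ ≤ Nat.log 2 q := h2

theorem abs_prod_le {n : ℕ} (s : Finset (Fin n)) (f : Fin n → ℝ) (h : ∀ j, |f j| ≤ 1) :
    |∏ j ∈ s, f j| ≤ 1 := by
  rw [Finset.abs_prod]
  exact Finset.prod_le_one (fun j _ => abs_nonneg _) (fun j _ => h j)

end COV2_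

open COV2_ in
theorem p_COV2 : T_COV2 := by
  classical
  intro m n M a κ N z X hκ hB ha c hc hUnb
  have hcX : ∀ x ∈ c, x.1 ≤ X := fun x hx => by
    have hc1 := Finset.mem_filter.1 hc
    have := Finset.mem_product.1 (Finset.mem_powerset.1 hc1.1 hx)
    have := Finset.mem_range.1 this.1
    omega
  set I : Finset (Fin m) := (c.filter fun x => z < x.1).image M.lb with hI
  set b : Fin m → ℕ := fun i => (c.filter fun x => z < x.1 ∧ M.lb x = i).sup
    fun x => Model.bk κ x.1 with hb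
  have hble : ∀ x ∈ c, z < x.1 → Model.bk κ x.1 ≤ b (M.lb x) := by
    intro x hx hz
    exact Finset.le_sup (f := fun x : ℕ × Ty n => Model.bk κ x.1)
      (Finset.mem_filter.2 ⟨hx, hz, rfl⟩)
  have hbeq : ∀ x ∈ c, M.isSp z c x → Model.bk κ x.1 = b (M.lb x) := by
    intro x hx hsp
    refine le_antisymm (hble x hx hsp.1) ?_
    refine Finset.sup_le fun y hy => ?_
    obtain ⟨hy1, -, hy2⟩ := Finset.mem_filter.1 hy
    exact bk_mono κ (hsp.2 y hy1 hy2)
  have hex : ∀ i ∈ I, ∃ y ∈ c, M.isSp z c y ∧ M.lb y = i := by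
    intro i hi
    obtain ⟨x, hx, hxi⟩ := Finset.mem_image.1 hi
    obtain ⟨hx1, hx2⟩ := Finset.mem_filter.1 hx
    obtain ⟨y, hy, hmax⟩ := Finset.exists_max_image (c.filter fun x => z < x.1 ∧ M.lb x = i)
      (fun x => x.1) ⟨x, Finset.mem_filter.2 ⟨hx1, hx2, hxi⟩⟩
    obtain ⟨hy1, hy2, hy3⟩ := Finset.mem_filter.1 hy
    refine ⟨y, hy1, ⟨hy2, ?_⟩, hy3⟩
    intro w hw hwl
    rcases Nat.lt_or_ge z w.1 with hz | hz
    · exact hmax w (Finset.mem_filter.2 ⟨hw, hz, hwl.trans hy3⟩)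
    · omega
  refine ⟨I, b, ?_, ?_⟩
  · intro i
    refine Finset.sup_le fun y hy => ?_
    exact bk_mono κ (hcX y (Finset.mem_filter.1 hy).1)
  · intro x hx
    have hnn : (0 : ℝ) ≤ 1 / 2 ^ (M.rn x.1 - 1) := by positivity
    unfold Model.cf Model.hh
    by_cases hv : M.vld x
    swap
    · rw [if_pos hv, if_pos hv, abs_zero]
    rw [if_neg (not_not.2 hv), if_neg (not_not.2 hv)]
    by_cases hz : x.1 ≤ z
    · rw [if_pos (Or.inl hz), if_pos hz]
      split_ifs <;> simp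
    push Not at hz
    rw [if_neg (not_le.2 hz)]
    have hmemI : M.lab x.1 x.2.1 ∈ I :=
      Finset.mem_image.2 ⟨x, Finset.mem_filter.2 ⟨hx, hz⟩, rfl⟩
    by_cases hsp : M.isSp z c x
    · rw [if_pos (Or.inr hsp)]
      have hbx : Model.bk κ x.1 = b (M.lab x.1 x.2.1) := hbeq x hx hsp
      have h2 : (0 : ℝ) ≤ (if M.lab x.1 x.2.1 ∈ I ∧ Model.bk κ x.1 ≤ b (M.lab x.1 x.2.1) ∧
          ∀ i ∈ I, Model.bk κ x.1 + 2 ≤ b i → M.Tr x.1 x.2.1 x.2.2 i then
          1 / 2 ^ (M.rn x.1 - 1) else 0) := by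
        split_ifs
        · exact hnn
        · exact le_rfl
      by_cases he : x.2.2 = ∅
      · rw [if_pos he, if_pos ⟨hmemI, hbx, he⟩, abs_one]
        linarith
      · rw [if_neg he, abs_zero]
        rw [if_neg (fun h => he h.2.2)]
        linarith
    · rw [if_neg (by rintro (h | h); exacts [absurd h (not_le.2 hz), hsp h])]
      have h1 : (0 : ℝ) ≤ (if M.lab x.1 x.2.1 ∈ I ∧ Model.bk κ x.1 = b (M.lab x.1 x.2.1) ∧
          x.2.2 = ∅ then 1 else 0) := by
        split_ifs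
        · exact zero_le_one
        · exact le_rfl
      have hcond : M.lab x.1 x.2.1 ∈ I ∧ Model.bk κ x.1 ≤ b (M.lab x.1 x.2.1) ∧
          ∀ i ∈ I, Model.bk κ x.1 + 2 ≤ b i → M.Tr x.1 x.2.1 x.2.2 i := by
        refine ⟨hmemI, hble x hx hz, ?_⟩
        intro i hi hbi
        obtain ⟨y, hy, hysp, hyi⟩ := hex i hi
        by_contra hTr
        apply hUnb
        refine ⟨x, hx, y, hy, hz, hsp, hysp, ?_, ?_⟩
        · rw [hyi]
          exact hTr
        · apply big_of_bk hκ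
          have := hbeq y hy hysp
          rw [hyi] at this
          rw [this]
          exact hbi
      rw [if_pos hcond, abs_div, abs_of_pos (show (0 : ℝ) < 2 ^ (M.rn x.1 - 1) by positivity)]
      have h3 : |∏ j ∈ x.2.2, a x.1 x.2.1 j| / 2 ^ (M.rn x.1 - 1) ≤ 1 / 2 ^ (M.rn x.1 - 1) := by
        have h4 := abs_prod_le x.2.2 (fun j => a x.1 x.2.1 j) (fun j => ha _ _ _)
        exact div_le_div_of_nonneg_right h4 (by positivity)
      linarith

end Pool.Agent.QTx
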