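import Pool.Agent.QTx.Targets

set_option autoImplicit false

/-!
# Every prime ideal comes from an embedding (MP_d37f77_nt)
-/

open Polynomial NumberField

namespace Pool.Agent.QTx

namespace EMBP_

theorem liesOver (L : Type) [Field L] [NumberField L] (l : ℕ) (hl : l.Prime) (Q : Ideal (𝓞 L))
    (hQ : Q ≠ ⊤) (h : (l : 𝓞 L) ∈ Q) : Q.LiesOver (Ideal.span {(l : ℤ)}) := by
  constructor
  have hm : (Ideal.span {(l : ℤ)}).IsMaximal :=
    PrincipalIdealRing.isMaximal_of_irreducible (Nat.prime_iff_prime_int.mp hl).irreducible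
  refine hm.eq_of_le ?_ ?_
  · intro h1
    apply hQ
    rw [Ideal.eq_top_iff_one] at h1 ⊢
    have : algebraMap ℤ (𝓞 L) 1 ∈ Q := h1
    simpa using this
  · rw [Ideal.span_singleton_le_iff_mem]
    show algebraMap ℤ (𝓞 L) (l : ℤ) ∈ Q
    simpa using h

theorem galois (L : Type) [Field L] [NumberField L] [IsGalois ℚ L] (l : ℕ) (hl : l.Prime)
    (Q0 Q : Ideal (𝓞 L)) (h0 : Q0.IsMaximal) (h1 : Q.IsMaximal) (h2 : (l : 𝓞 L) ∈ Q0)
    (h3 : (l : 𝓞 L) ∈ Q) : ∃ σ : L →+* L, ∀ z : 𝓞 L, ∃ w : 𝓞 L, (w : L) = σ z ∧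
      (z ∈ Q ↔ w ∈ Q0) := by
  have e0 : Q0 ∈ (Ideal.span {(l : ℤ)}).primesOver (𝓞 L) :=
    ⟨h0.isPrime, liesOver L l hl Q0 h0.ne_top h2⟩
  have e1 : Q ∈ (Ideal.span {(l : ℤ)}).primesOver (𝓞 L) :=
    ⟨h1.isPrime, liesOver L l hl Q h1.ne_top h3⟩
  obtain ⟨σ, hσ⟩ := Ideal.exists_comap_galRestrict_eq ℤ ℚ L (𝓞 L) e0 e1
  refine ⟨(σ : L →+* L), fun z => ⟨galRestrict ℤ ℚ L (𝓞 L) σ z, ?_, ?_⟩⟩
  · exact algebraMap_galRestrict_apply ℤ σ z
  · rw [← hσ]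
    rfl

end EMBP_

open EMBP_ in
/-- EMBP -/
theorem p_EMBP (h1 : T_EMBQ) : T_EMBP := by
  intro K _ _ l hl P hP hlP
  have halg : Algebra.IsAlgebraic ℚ (AlgebraicClosure K) :=
    Algebra.IsAlgebraic.trans ℚ K (AlgebraicClosure K)
  have hcl : IsAlgClosure ℚ (AlgebraicClosure K) := ⟨inferInstance, halg⟩
  have hno : Normal ℚ (AlgebraicClosure K) := IsAlgClosure.normal ℚ (AlgebraicClosure K)
  let L := IntermediateField.normalClosure ℚ K (AlgebraicClosure K)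
  have hnf : NumberField L := { to_charZero := inferInstance, to_finiteDimensional := inferInstance }
  have hn : Normal ℚ L := normalClosure.normal ℚ K (AlgebraicClosure K)
  have hga : IsGalois ℚ L := IsGalois.mk
  let j0 : L →+* PadicAlgCl l := (IsAlgClosed.lift : L →ₐ[ℚ] PadicAlgCl l).toRingHom
  obtain ⟨Q, hQ, hQP⟩ := Ideal.exists_maximal_ideal_liesOver_of_isIntegral (S := 𝓞 L) P
  obtain ⟨_, Q0, h2, h3, h4⟩ := h1 L l j0
  have hPQ : ∀ z : 𝓞 K, z ∈ P ↔ algebraMap (𝓞 K) (𝓞 L) z ∈ Q := by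
    intro z
    rw [hQP.over]
    rfl
  have hlQ : (l : 𝓞 L) ∈ Q := by
    have := (hPQ l).mp hlP
    simpa using this
  obtain ⟨σ, hσ⟩ := galois L l hl.out Q0 Q h2 hQ h3 hlQ
  refine ⟨(j0.comp σ).comp (algebraMap K L), fun z => ?_⟩
  rw [hPQ z]
  obtain ⟨w, hw, hw2⟩ := hσ (algebraMap (𝓞 K) (𝓞 L) z)
  rw [hw2, h4 w, hw]
  rfl

end Pool.Agent.QTx
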