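import Pool.Agent.QTx.Targets

set_option autoImplicit false

/-!
# The divisor of `(x - θ)(x - θ')` is even
-/

open Polynomial

namespace Pool.Agent.QTx

namespace EVEN2_

variable {k K : Type} [Field k] [CharZero k] [IsAlgClosed k] [Field K] [Algebra k K]

/-- the value of `f` at `x` when `x` reduces to the simple root `θ` -/
theorem key (x : K) (f : ℤ[X]) (θ : k) (hsq : Squarefree (f.map (Int.castRingHom ℚ)))
    (hθ : aeval θ f = 0) (w : Valuation K (WithZero (Multiplicative ℤ)))
    (hw : ∀ c : k, c ≠ 0 → w (algebraMap k K c) = 1)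
    (h1 : w (x - algebraMap k K θ) < 1) :
    w (aeval x f) = w (x - algebraMap k K θ) ∧
      ∀ c : k, c ≠ θ → w (x - algebraMap k K c) = 1 := by
  classical
  have hne : ∀ c : k, c ≠ θ → w (x - algebraMap k K c) = 1 := by
    intro c hc
    have e : x - algebraMap k K c = (x - algebraMap k K θ) + algebraMap k K (θ - c) := by
      rw [map_sub]; ring
    have h2 : w (algebraMap k K (θ - c)) = 1 := hw _ (sub_ne_zero.2 (Ne.symm hc))
    rw [e, Valuation.map_add_eq_of_lt_right w (by rw [h2]; exact h1), h2]
  refine ⟨?_, hne⟩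
  have hf0 : f ≠ 0 := by
    rintro rfl
    rw [Polynomial.map_zero] at hsq
    exact not_squarefree_zero hsq
  set P : k[X] := f.map (Int.castRingHom k) with hP
  have hP0 : P ≠ 0 := (Polynomial.map_ne_zero_iff (RingHom.injective_int _)).2 hf0
  have hPm : P = (f.map (Int.castRingHom ℚ)).map (algebraMap ℚ k) := by
    rw [Polynomial.map_map, hP]
    congr 1
    exact RingHom.ext_int _ _
  have hsep : P.Separable := by
    rw [hPm]
    exact (PerfectField.separable_iff_squarefree.2 hsq).map
  have hnd : P.roots.Nodup := nodup_roots hsep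
  have hroot : θ ∈ P.roots := by
    rw [mem_roots hP0, IsRoot, hP, eval_map, ← hθ, aeval_def]
    congr 1
  have hx : aeval x f = (P.map (algebraMap k K)).eval x := by
    rw [eval_map, hP, eval₂_map, aeval_def]
    congr 1
    exact RingHom.ext_int _ _
  have hprod := (IsAlgClosed.splits P).eq_prod_roots
  have hval : aeval x f = algebraMap k K P.leadingCoeff *
      (P.roots.map fun c => x - algebraMap k K c).prod := by
    rw [hx]
    conv_lhs => rw [hprod]
    rw [Polynomial.map_mul, Polynomial.eval_mul, Polynomial.map_C, Polynomial.eval_C,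
      Polynomial.map_multiset_prod, Polynomial.eval_multiset_prod, Multiset.map_map,
      Multiset.map_map]
    congr 2
    apply Multiset.map_congr rfl
    intro c _
    simp
  rw [hval, map_mul, hw _ (leadingCoeff_ne_zero.2 hP0), one_mul, map_multiset_prod,
    Multiset.map_map, ← Multiset.cons_erase hroot, Multiset.map_cons, Multiset.prod_cons]
  have h3 : (Multiset.map (w ∘ fun c => x - algebraMap k K c) (P.roots.erase θ)).prod = 1 := by
    apply Multiset.prod_eq_one
    intro y hy
    rw [Multiset.mem_map] at hy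
    obtain ⟨c, hc, rfl⟩ := hy
    rw [hnd.mem_erase_iff] at hc
    exact hne c hc.1
  rw [h3, mul_one]
  rfl

end EVEN2_

open EVEN2_ in
theorem p_EVEN2 : T_EVEN2 := by
  intro k K _ _ _ _ _ x y d f θ θ' hd hsq hev heq hx hθ hθ' hne w hw
  have hdw : w (d : K) = 1 := by
    have := hw (d : k) (by exact_mod_cast hd)
    rwa [map_intCast] at this
  have hy0 : y ≠ 0 := by
    rintro rfl
    apply hx
    refine ⟨f.map (Int.castRingHom k), ?_, ?_⟩
    · have hf0 : f ≠ 0 := by
        rintro rfl
        rw [Polynomial.map_zero] at hsq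
        exact not_squarefree_zero hsq
      exact (Polynomial.map_ne_zero_iff (RingHom.injective_int _)).2 hf0
    · rw [zero_pow two_ne_zero, mul_zero] at heq
      rw [heq, aeval_def, aeval_def, eval₂_map]
      congr 1
      exact RingHom.ext_int _ _
  have hc1 : ∀ c : k, w (algebraMap k K c) ≤ 1 := by
    intro c
    by_cases hc : c = 0
    · rw [hc, map_zero, map_zero]; exact zero_le_one
    · exact (hw c hc).le
  rcases lt_or_ge 1 (w x) with h1 | h1
  · have hx0 : x ≠ 0 := by
      rintro rfl
      rw [map_zero] at h1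
      exact absurd h1 (not_lt.2 zero_le_one)
    have h2 : ∀ c : k, w (x - algebraMap k K c) = w x := by
      intro c
      rw [sub_eq_add_neg]
      apply Valuation.map_add_eq_of_lt_left
      rw [Valuation.map_neg]
      exact lt_of_le_of_lt (hc1 c) h1
    refine ⟨x, hx0, ?_⟩
    rw [map_mul, h2, h2, sq]
  · have h2 : ∀ c : k, w (x - algebraMap k K c) ≤ 1 := by
      intro c
      rw [sub_eq_add_neg]
      refine Valuation.map_add_le w h1 ?_
      rw [Valuation.map_neg]
      exact hc1 c
    rcases eq_or_lt_of_le (h2 θ) with h3 | h3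
    · rcases eq_or_lt_of_le (h2 θ') with h4 | h4
      · exact ⟨1, one_ne_zero, by rw [map_mul, h3, h4, map_one, one_pow, one_mul]⟩
      · obtain ⟨k1, k2⟩ := key x f θ' hsq hθ' w hw h4
        refine ⟨y, hy0, ?_⟩
        rw [map_mul, k2 θ hne, one_mul, ← k1, ← heq, map_mul, hdw, one_mul, map_pow]
    · obtain ⟨k1, k2⟩ := key x f θ hsq hθ w hw h3
      refine ⟨y, hy0, ?_⟩
      rw [map_mul, k2 θ' (Ne.symm hne), mul_one, ← k1, ← heq, map_mul, hdw, one_mul, map_pow]

end Pool.Agent.QTx
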