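import Pool.Agent.QTx.Targets
import Pool.Agent.QTw.FIBG

/-! EXP2: the expansion of the counting function. -/

set_option autoImplicit false

namespace Pool.Agent.QTx

open Classical in
theorem p_EXP2 (h1 : T_EXPM) : T_EXP2 := by
  intro m n M a N z X hM ha
  rw [QTw.p_FIBG (Ty n) (fun c => M.W a z c) N X]
  have h2 : ((Finset.range (X + 1)).filter
      (fun k => Squarefree k ∧ (∀ p ∈ k.primeFactors, ¬ p ∣ N) ∧ M.Bad N a k)) =
      ((Finset.range (X + 1)).filter
        (fun k => Squarefree k ∧ ∀ p ∈ k.primeFactors, ¬ p ∣ N)).filter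
        (fun k => M.Bad N a k) := by
    rw [Finset.filter_filter]
    refine Finset.filter_congr fun k _ => ?_
    tauto
  rw [h2, Finset.card_filter, Nat.cast_sum]
  refine Finset.sum_le_sum fun k hk => ?_
  rw [Finset.mem_filter] at hk
  obtain ⟨h3, h4⟩ := h1 m n M a N z k hM ha hk.2.1 hk.2.2
  split_ifs with h
  · rw [Nat.cast_one]
    exact h4 h
  · rw [Nat.cast_zero]
    exact h3

end Pool.Agent.QTx
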