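import Pool.Agent.QTx.Targets
import Pool.Agent.QTw.EXP

/-!
# The expansion for one number
-/

set_option autoImplicit false

namespace Pool.Agent.QTx

namespace EXPM_

open Pool.Agent.QTw (graph)
open Pool.Agent.QTw.EXP_ (prod_offDiag prod_graph)

variable {m n : ℕ} (M : Model m n)

/-- the special primes of a labelling -/
def sp (z : ℕ) (s : Finset ℕ) (ρ : ∀ p ∈ s, Fin n) (p : {x // x ∈ s}) : Prop :=
  z < p.1 ∧ ∀ q : {x // x ∈ s}, M.lab q.1 (ρ q.1 q.2) = M.lab p.1 (ρ p.1 p.2) → q.1 ≤ p.1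

theorem isSp_graph (z : ℕ) (s : Finset ℕ) (τ : ∀ p ∈ s, Ty n) (p : {x // x ∈ s}) :
    M.isSp z (graph s τ) (p.1, τ p.1 p.2) ↔ sp M z s (fun q hq => (τ q hq).1) p := by
  unfold Model.isSp sp Model.lb graph
  constructor
  · rintro ⟨h1, h2⟩
    exact ⟨h1, fun q hq => h2 (q.1, τ q.1 q.2)
      (Finset.mem_image.2 ⟨q, Finset.mem_attach _ _, rfl⟩) hq⟩
  · rintro ⟨h1, h2⟩
    refine ⟨h1, fun y hy hl => ?_⟩
    obtain ⟨q, -, rfl⟩ := Finset.mem_image.1 hy
    exact h2 q hl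

open Classical in
/-- The contribution of a prime and a set. -/
noncomputable def FF (a : ℕ → Fin n → Fin n → ℝ) (z : ℕ) (s : Finset ℕ) (ρ : ∀ p ∈ s, Fin n)
    (p : {x // x ∈ s}) (S : Finset (Fin n)) : ℝ :=
  (if ¬ M.vld (p.1, (ρ p.1 p.2, S)) then 0 else
    if p.1 ≤ z ∨ sp M z s ρ p then (if S = ∅ then 1 else 0) else
      (∏ j ∈ S, a p.1 (ρ p.1 p.2) j) / 2 ^ (M.rn p.1 - 1)) *
  ∏ q ∈ s.attach, if p ≠ q then ∏ j ∈ S, M.sgn p.1 (ρ p.1 p.2) j q.1 (ρ q.1 q.2) else 1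

/-- The sum of the contributions of a prime. -/
noncomputable def AA (a : ℕ → Fin n → Fin n → ℝ) (z : ℕ) (s : Finset ℕ) (ρ : ∀ p ∈ s, Fin n)
    (p : {x // x ∈ s}) : ℝ := ∑ S : Finset (Fin n), FF M a z s ρ p S

open Classical in
theorem W_graph (a : ℕ → Fin n → Fin n → ℝ) (z : ℕ) (s : Finset ℕ) (τ : ∀ p ∈ s, Ty n) :
    M.W a z (graph s τ) = ∏ p ∈ s.attach,
      FF M a z s (fun q hq => (τ q hq).1) p (τ p.1 p.2).2 := by
  unfold Model.W
  rw [prod_offDiag, prod_graph, prod_graph, ← Finset.prod_mul_distrib]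
  refine Finset.prod_congr rfl fun p _ => ?_
  unfold FF
  rw [prod_graph]
  congr 1
  · unfold Model.cf
    have h1 := isSp_graph M z s τ p
    by_cases hv : M.vld (p.1, τ p.1 p.2)
    · rw [if_neg (not_not.2 hv), if_neg (not_not.2 hv)]
      by_cases hs : p.1 ≤ z ∨ sp M z s (fun q hq => (τ q hq).1) p
      · rw [if_pos hs, if_pos (hs.imp_right h1.2)]
      · rw [if_neg hs, if_neg (fun h => hs (h.imp_right h1.1))]
    · rw [if_pos hv, if_pos hv]
  · refine Finset.prod_congr rfl fun q _ => ?_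
    by_cases hpq : p = q
    · subst hpq
      simp
    · have h1 : ((p.1, τ p.1 p.2) : ℕ × Ty n) ≠ (q.1, τ q.1 q.2) := fun h =>
        hpq (Subtype.ext (congrArg Prod.fst h))
      rw [if_pos h1, if_pos hpq]
      rfl

/-- The sum over the labellings by types is a sum over labellings by roots. -/
theorem sum_types (a : ℕ → Fin n → Fin n → ℝ) (z : ℕ) (s : Finset ℕ) :
    ∑ τ ∈ s.pi (fun _ => (Finset.univ : Finset (Ty n))), M.W a z (graph s τ) =
    ∑ ρ ∈ s.pi (fun _ => (Finset.univ : Finset (Fin n))), ∏ p ∈ s.attach, AA M a z s ρ p := by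
  classical
  have h1 : ∀ ρ ∈ s.pi (fun _ => (Finset.univ : Finset (Fin n))),
      ∏ p ∈ s.attach, AA M a z s ρ p =
      ∑ S ∈ s.pi (fun _ => (Finset.univ : Finset (Finset (Fin n)))),
        ∏ p ∈ s.attach, FF M a z s ρ p (S p.1 p.2) := by
    intro ρ _
    have h2 := Finset.prod_sum s (fun _ => (Finset.univ : Finset (Finset (Fin n))))
      (fun p S => if hp : p ∈ s then FF M a z s ρ ⟨p, hp⟩ S else 0)
    rw [← Finset.prod_attach] at h2
    simp only [Subtype.coe_eta, Finset.coe_mem, dite_true] at h2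
    exact h2
  rw [Finset.sum_congr rfl h1, ← Finset.sum_product']
  refine Finset.sum_nbij' (fun τ => (fun p hp => (τ p hp).1, fun p hp => (τ p hp).2))
    (fun σ p hp => (σ.1 p hp, σ.2 p hp)) ?_ ?_ ?_ ?_ ?_
  · intro τ _
    simp
  · intro σ _
    simp
  · intro τ _
    rfl
  · intro σ _
    rfl
  · intro τ _
    rw [W_graph]

open Classical in
/-- the other roots -/
noncomputable def JJ (M : Model m n) (p : ℕ) (i : Fin n) : Finset (Fin n) :=
  Finset.univ.filter fun j => (j : ℕ) < M.rn p ∧ j ≠ i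

theorem card_JJ (hM : M.Bounded) (p : ℕ) (i : Fin n) (hi : (i : ℕ) < M.rn p) :
    (JJ M p i).card = M.rn p - 1 := by
  classical
  have h1 : JJ M p i = ((Finset.univ : Finset (Fin n)).filter
      fun j : Fin n => (j : ℕ) < M.rn p).erase i := by
    ext j
    unfold JJ
    simp only [Finset.mem_filter, Finset.mem_univ, true_and, Finset.mem_erase]
    tauto
  have h2 : ((Finset.univ : Finset (Fin n)).filter fun j : Fin n => (j : ℕ) < M.rn p).card = M.rn p := by
    have h3 : ((Finset.univ : Finset (Fin n)).filter fun j : Fin n => (j : ℕ) < M.rn p).map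
        Fin.valEmbedding = Finset.range (M.rn p) := by
      ext x
      simp only [Finset.mem_map, Finset.mem_filter, Finset.mem_univ, true_and,
        Fin.valEmbedding_apply, Finset.mem_range]
      constructor
      · rintro ⟨j, hj, rfl⟩
        exact hj
      · intro hx
        exact ⟨⟨x, hx.trans_le (hM.rn_le p)⟩, hx, rfl⟩
    rw [← Finset.card_map Fin.valEmbedding, h3, Finset.card_range]
  rw [h1, Finset.card_erase_of_mem (by simpa using hi), h2]

theorem vld_iff (p : ℕ) (i : Fin n) (hi : (i : ℕ) < M.rn p) (S : Finset (Fin n)) :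
    M.vld (p, (i, S)) ↔ S ∈ (JJ M p i).powerset := by
  classical
  unfold Model.vld JJ
  rw [Finset.mem_powerset]
  constructor
  · rintro ⟨_, h2⟩ j hj
    exact Finset.mem_filter.2 ⟨Finset.mem_univ _, h2 j hj⟩
  · intro h
    exact ⟨hi, fun j hj => (Finset.mem_filter.1 (h hj)).2⟩

theorem AA_zero (a : ℕ → Fin n → Fin n → ℝ) (z : ℕ) (s : Finset ℕ) (ρ : ∀ p ∈ s, Fin n)
    (p : {x // x ∈ s}) (h : ¬ (ρ p.1 p.2 : ℕ) < M.rn p.1) : AA M a z s ρ p = 0 := by
  classical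
  unfold AA
  refine Finset.sum_eq_zero fun S _ => ?_
  unfold FF
  rw [if_pos (fun hv => h hv.1), zero_mul]

theorem AA_one (a : ℕ → Fin n → Fin n → ℝ) (z : ℕ) (s : Finset ℕ) (ρ : ∀ p ∈ s, Fin n)
    (p : {x // x ∈ s}) (h : (ρ p.1 p.2 : ℕ) < M.rn p.1) (hs : p.1 ≤ z ∨ sp M z s ρ p) :
    AA M a z s ρ p = 1 := by
  classical
  unfold AA
  rw [Finset.sum_eq_single ∅]
  · unfold FF
    have hv : M.vld (p.1, (ρ p.1 p.2, ∅)) := ⟨h, fun j hj => absurd hj (Finset.notMem_empty _)⟩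
    rw [if_neg (not_not.2 hv), if_pos hs, if_pos rfl]
    simp
  · intro S _ hS
    unfold FF
    by_cases hv : M.vld (p.1, (ρ p.1 p.2, S))
    · rw [if_neg (not_not.2 hv), if_pos hs, if_neg hS, zero_mul]
    · rw [if_pos hv, zero_mul]
  · intro h
    exact absurd (Finset.mem_univ _) h

open Classical in
/-- the sign of a root -/
noncomputable def gg (a : ℕ → Fin n → Fin n → ℝ) (s : Finset ℕ) (ρ : ∀ p ∈ s, Fin n)
    (p : {x // x ∈ s}) (j : Fin n) : ℝ :=
  a p.1 (ρ p.1 p.2) j *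
    ∏ q ∈ s.attach, if p ≠ q then M.sgn p.1 (ρ p.1 p.2) j q.1 (ρ q.1 q.2) else 1

theorem AA_rough (a : ℕ → Fin n → Fin n → ℝ) (z : ℕ) (s : Finset ℕ) (ρ : ∀ p ∈ s, Fin n)
    (p : {x // x ∈ s}) (h : (ρ p.1 p.2 : ℕ) < M.rn p.1) (hs : ¬ (p.1 ≤ z ∨ sp M z s ρ p)) :
    AA M a z s ρ p = (∏ j ∈ JJ M p.1 (ρ p.1 p.2), (1 + gg M a s ρ p j)) /
      2 ^ (M.rn p.1 - 1) := by
  classical
  have h1 : ∀ S : Finset (Fin n), FF M a z s ρ p S =
      if S ∈ (JJ M p.1 (ρ p.1 p.2)).powerset then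
        (∏ j ∈ S, gg M a s ρ p j) / 2 ^ (M.rn p.1 - 1) else 0 := by
    intro S
    unfold FF
    have h2 := vld_iff M p.1 (ρ p.1 p.2) h S
    by_cases hv : M.vld (p.1, (ρ p.1 p.2, S))
    · rw [if_neg (not_not.2 hv), if_neg hs, if_pos (h2.1 hv), div_mul_eq_mul_div]
      congr 1
      unfold gg
      rw [Finset.prod_mul_distrib]
      congr 1
      rw [Finset.prod_comm]
      refine Finset.prod_congr rfl fun q _ => ?_
      by_cases hpq : p ≠ q
      · simp only [if_pos hpq]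
      · simp only [if_neg hpq, Finset.prod_const_one]
    · rw [if_pos hv, if_neg (fun h3 => hv (h2.2 h3)), zero_mul]
  unfold AA
  rw [Finset.sum_congr rfl fun S _ => h1 S, ← Finset.sum_filter, Finset.filter_mem_eq_inter,
    Finset.univ_inter, ← Finset.sum_div]
  congr 1
  rw [Finset.prod_one_add]

theorem gg_le (hM : M.Bounded) (a : ℕ → Fin n → Fin n → ℝ) (ha : ∀ p j j', |a p j j'| ≤ 1)
    (s : Finset ℕ) (ρ : ∀ p ∈ s, Fin n) (p : {x // x ∈ s}) (j : Fin n) :
    |gg M a s ρ p j| ≤ 1 := by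
  classical
  unfold gg
  rw [abs_mul, Finset.abs_prod]
  refine mul_le_one₀ (ha _ _ _) (Finset.prod_nonneg fun _ _ => abs_nonneg _)
    (Finset.prod_le_one (fun _ _ => abs_nonneg _) fun q _ => ?_)
  split_ifs
  · exact hM.sgn_le _ _ _ _ _
  · rw [abs_one]

theorem AA_nonneg (hM : M.Bounded) (a : ℕ → Fin n → Fin n → ℝ)
    (ha : ∀ p j j', |a p j j'| ≤ 1) (z : ℕ) (s : Finset ℕ) (ρ : ∀ p ∈ s, Fin n)
    (p : {x // x ∈ s}) : 0 ≤ AA M a z s ρ p := by
  by_cases h : (ρ p.1 p.2 : ℕ) < M.rn p.1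
  · by_cases hs : p.1 ≤ z ∨ sp M z s ρ p
    · rw [AA_one M a z s ρ p h hs]
      exact zero_le_one
    · rw [AA_rough M a z s ρ p h hs]
      refine div_nonneg (Finset.prod_nonneg fun j _ => ?_) (by positivity)
      have := (abs_le.1 (gg_le M hM a ha s ρ p j)).1
      linarith
  · rw [AA_zero M a z s ρ p h]

theorem AA_eq_one (hM : M.Bounded) (a : ℕ → Fin n → Fin n → ℝ) (z : ℕ) (s : Finset ℕ)
    (ρ : ∀ p ∈ s, Fin n) (p : {x // x ∈ s}) (h : (ρ p.1 p.2 : ℕ) < M.rn p.1)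
    (hg : ∀ j : Fin n, (j : ℕ) < M.rn p.1 → j ≠ ρ p.1 p.2 → gg M a s ρ p j = 1) :
    AA M a z s ρ p = 1 := by
  classical
  by_cases hs : p.1 ≤ z ∨ sp M z s ρ p
  · exact AA_one M a z s ρ p h hs
  · rw [AA_rough M a z s ρ p h hs]
    have h1 : ∏ j ∈ JJ M p.1 (ρ p.1 p.2), (1 + gg M a s ρ p j) = 2 ^ (M.rn p.1 - 1) := by
      rw [Finset.prod_congr rfl (g := fun _ => (2 : ℝ)), Finset.prod_const,
        card_JJ M hM p.1 _ h]
      intro j hj
      unfold JJ at hj
      have h2 := (Finset.mem_filter.1 hj).2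
      rw [hg j h2.1 h2.2]
      norm_num
    rw [h1, div_self (by positivity)]

end EXPM_

open EXPM_

open Classical in
theorem p_EXPM : T_EXPM := by
  intro m n M a N z k hM ha _ hN
  have hsum := sum_types M a z k.primeFactors
  have hnn : ∀ ρ ∈ k.primeFactors.pi (fun _ => (Finset.univ : Finset (Fin n))),
      0 ≤ ∏ p ∈ k.primeFactors.attach, AA M a z k.primeFactors ρ p := fun ρ _ =>
    Finset.prod_nonneg fun p _ => AA_nonneg M hM a ha z _ ρ p
  have hsum' : ∑ τ ∈ k.primeFactors.pi (fun _ => (Finset.univ : Finset (Ty n))),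
    M.W a z (QTw.graph k.primeFactors τ) =
    ∑ ρ ∈ k.primeFactors.pi (fun _ => (Finset.univ : Finset (Fin n))),
      ∏ p ∈ k.primeFactors.attach, AA M a z k.primeFactors ρ p := by
    rw [← hsum]
  rw [hsum']
  refine ⟨Finset.sum_nonneg hnn, ?_⟩
  rintro ⟨ρ, hρ⟩
  have h1 : ∏ p ∈ k.primeFactors.attach, AA M a z k.primeFactors (fun p _ => ρ p) p = 1 := by
    refine Finset.prod_eq_one fun p _ => ?_
    obtain ⟨h2, h3⟩ := hρ p.1 p.2 (hN p.1 p.2)
    refine AA_eq_one M hM a z _ _ p h2 fun j hj hne => ?_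
    rw [← h3 j hj hne]
    unfold gg
    congr 1
    have h4 : k.primeFactors.filter (fun q => ¬ q ∣ N ∧ q ≠ p.1) =
        k.primeFactors.filter (fun q => p.1 ≠ q) := by
      ext q
      simp only [Finset.mem_filter]
      constructor
      · rintro ⟨h1, _, h2⟩
        exact ⟨h1, fun h => h2 h.symm⟩
      · rintro ⟨h1, h2⟩
        exact ⟨h1, hN q h1, fun h => h2 h.symm⟩
    rw [h4, Finset.prod_filter, ← Finset.prod_attach k.primeFactors]
    refine Finset.prod_congr rfl fun q _ => ?_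
    by_cases hpq : p = q
    · subst hpq
      simp
    · rw [if_pos hpq, if_pos (fun h => hpq (Subtype.ext h))]
  rw [← h1]
  exact Finset.single_le_sum hnn (by simp)

end Pool.Agent.QTx
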