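import Pool.Agent.QTx.Targets

set_option autoImplicit false

/-!
# Homomorphisms extend to `E(S)`
-/

open Polynomial NumberField

namespace Pool.Agent.QTx

namespace EXT2_

theorem minpoly_eq {E Ω : Type} [Field E] [CharZero E] [Field Ω] [CharZero Ω] [Algebra E Ω]
    (hE : ∀ z : E, IsAlgebraic ℚ z → ∃ q : ℚ, z = q) (w : Ω) (hw : IsIntegral ℚ w) :
    minpoly E w = (minpoly ℚ w).map (algebraMap ℚ E) := by
  have hwE : IsIntegral E w := hw.tower_top
  have hdvd : minpoly E w ∣ (minpoly ℚ w).map (algebraMap ℚ E) :=
    minpoly.dvd_map_of_isScalarTower ℚ E w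
  have hint := Polynomial.isIntegral_coeff_of_dvd (minpoly ℚ w) (minpoly E w)
    (minpoly.monic hw) (minpoly.monic hwE) hdvd
  have hlift : minpoly E w ∈ Polynomial.lifts (algebraMap ℚ E) := by
    rw [Polynomial.lifts_iff_coeff_lifts]
    intro n
    obtain ⟨q, hq⟩ := hE _ (hint n).isAlgebraic
    exact ⟨q, by rw [hq]; simp⟩
  obtain ⟨p, hp⟩ := (Polynomial.mem_lifts _).mp hlift
  have hinj : Function.Injective (algebraMap ℚ E) := (algebraMap ℚ E).injective
  have hpm : p.Monic := by
    have h := minpoly.monic hwE
    rw [← hp] at h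
    exact Polynomial.monic_of_injective hinj h
  have h0 : aeval w p = 0 := by
    rw [← Polynomial.aeval_map_algebraMap E w p, hp]
    exact minpoly.aeval E w
  have h1 : minpoly ℚ w ∣ p := minpoly.dvd ℚ w h0
  have h2 : (minpoly ℚ w).natDegree ≤ p.natDegree :=
    Polynomial.natDegree_le_of_dvd h1 hpm.ne_zero
  symm
  apply Polynomial.eq_of_monic_of_dvd_of_natDegree_le (minpoly.monic hwE)
    ((minpoly.monic hw).map _) hdvd
  rw [← hp, Polynomial.natDegree_map, Polynomial.natDegree_map]
  exact h2

end EXT2_

theorem p_EXT2 : T_EXT2 := by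
  intro E _ _ hE S hfin halg R _ φ j
  have hFS : Finite S := hfin
  have hfd : FiniteDimensional ℚ (IntermediateField.adjoin ℚ S) :=
    IntermediateField.finiteDimensional_adjoin fun x hx => (halg x hx).isIntegral
  obtain ⟨α, hα⟩ := Field.exists_primitive_element ℚ (IntermediateField.adjoin ℚ S)
  set w : AlgebraicClosure E := (α : AlgebraicClosure E) with hwdef
  have hαi : IsIntegral ℚ α := IsIntegral.of_finite ℚ α
  have hvinj : Function.Injective (IntermediateField.adjoin ℚ S).val := Subtype.val_injective
  have hw : IsIntegral ℚ w := by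
    exact (isIntegral_algHom_iff (IntermediateField.val _) hvinj).mpr hαi
  have hwE : IsIntegral E w := hw.tower_top
  have hmin := EXT2_.minpoly_eq hE w hw
  -- the homomorphism on `E(w)`
  have hmα : minpoly ℚ w = minpoly ℚ α := by
    exact minpoly.algHom_eq (IntermediateField.val _) hvinj α
  have hroot : (minpoly E w).eval₂ φ (j α) = 0 := by
    rw [hmin, Polynomial.eval₂_map]
    have e1 : φ.comp (algebraMap ℚ E) = j.comp (algebraMap ℚ _) := RingHom.ext_rat _ _
    rw [e1, hmα, ← Polynomial.hom_eval₂]
    have h := minpoly.aeval ℚ α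
    rw [Polynomial.aeval_def] at h
    rw [h, map_zero]
  let Φ₀ : IntermediateField.adjoin E {w} →+* R :=
    (AdjoinRoot.lift φ (j α) hroot).comp
      (IntermediateField.adjoinRootEquivAdjoin E hwE).symm.toRingEquiv.toRingHom
  have hΦ₀ : ∀ e : E, Φ₀ (algebraMap E _ e) = φ e := by
    intro e
    change AdjoinRoot.lift φ (j α) hroot
      ((IntermediateField.adjoinRootEquivAdjoin E hwE).symm (algebraMap E _ e)) = φ e
    rw [AlgEquiv.commutes, AdjoinRoot.algebraMap_eq, AdjoinRoot.lift_of]
  have hΦ₁ : Φ₀ (IntermediateField.AdjoinSimple.gen E w) = j α := by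
    change AdjoinRoot.lift φ (j α) hroot
      ((IntermediateField.adjoinRootEquivAdjoin E hwE).symm
        (IntermediateField.AdjoinSimple.gen E w)) = j α
    rw [IntermediateField.adjoinRootEquivAdjoin_symm_apply_gen, AdjoinRoot.lift_root]
  -- elements of `ℚ(S)` belong to `E(w)`
  have hQE : ∀ z : IntermediateField.adjoin ℚ S,
      (z : AlgebraicClosure E) ∈ IntermediateField.adjoin E {w} := by
    intro z
    have hz : z ∈ IntermediateField.adjoin ℚ {α} := by
      rw [hα]
      exact IntermediateField.mem_top
    induction hz using IntermediateField.adjoin_induction with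
    | mem x hx =>
      rw [Set.mem_singleton_iff] at hx
      rw [hx]
      exact IntermediateField.mem_adjoin_simple_self E w
    | algebraMap q =>
      have e : ((algebraMap ℚ (IntermediateField.adjoin ℚ S) q :
          IntermediateField.adjoin ℚ S) : AlgebraicClosure E) =
          algebraMap E (AlgebraicClosure E) (q : E) := by simp
      rw [e]
      exact (IntermediateField.adjoin E {w}).algebraMap_mem _
    | add x y _ _ hx hy => exact add_mem hx hy
    | inv x _ hx => exact inv_mem hx
    | mul x y _ _ hx hy => exact mul_mem hx hy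
  have hle : IntermediateField.adjoin E S ≤ IntermediateField.adjoin E {w} := by
    rw [IntermediateField.adjoin_le_iff]
    intro s hs
    exact hQE ⟨s, IntermediateField.subset_adjoin ℚ S hs⟩
  refine ⟨Φ₀.comp (IntermediateField.inclusion hle).toRingHom, ?_, ?_⟩
  · intro e
    rw [← hΦ₀ e]
    rfl
  · intro z hz hz'
    have key : ∀ y : IntermediateField.adjoin ℚ S, Φ₀ ⟨y, hQE y⟩ = j y := by
      intro y
      have hy : y ∈ IntermediateField.adjoin ℚ {α} := by
        rw [hα]
        exact IntermediateField.mem_top
      induction hy using IntermediateField.adjoin_induction with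
      | mem x hx =>
        rw [Set.mem_singleton_iff] at hx
        subst hx
        exact hΦ₁
      | algebraMap q =>
        have e : (⟨(algebraMap ℚ (IntermediateField.adjoin ℚ S) q :
            IntermediateField.adjoin ℚ S), hQE _⟩ : IntermediateField.adjoin E {w}) =
            (q : IntermediateField.adjoin E {w}) := by
          apply Subtype.ext
          simp
        rw [e, map_ratCast]
        simp
      | add x y _ _ hx hy =>
        rw [map_add, ← hx, ← hy, ← map_add]
        rfl
      | inv x _ hx =>
        rw [map_inv₀, ← hx, ← map_inv₀]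
        rfl
      | mul x y _ _ hx hy =>
        rw [map_mul, ← hx, ← hy, ← map_mul]
        rfl
    exact key ⟨z, hz⟩

end Pool.Agent.QTx
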