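import Pool.Agent.QTx.Targets

set_option autoImplicit false

/-!
# QTX-FACT2: factorisation of `f` into integral polynomials that are irreducible over `ℚ`
(adapted from QTw/FACT.lean)
-/

open Polynomial

namespace Pool.Agent.QTx

namespace FACT2_

/-- clearing denominators -/
theorem clear (h : ℚ[X]) : ∃ (g : ℤ[X]) (q : ℚ), q ≠ 0 ∧
    g.map (Int.castRingHom ℚ) = C q * h := by
  obtain ⟨b, hb0, hb⟩ := IsLocalization.integerNormalization_spec (nonZeroDivisors ℤ) h
  refine ⟨IsLocalization.integerNormalization (nonZeroDivisors ℤ) h, (b : ℚ), ?_, ?_⟩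
  · exact_mod_cast nonZeroDivisors.ne_zero hb0
  · have h1 : (Int.castRingHom ℚ) = algebraMap ℤ ℚ := rfl
    rw [h1, hb, zsmul_eq_mul]
    congr 1

end FACT2_

open FACT2_ in
/-- FACT2: factorisation of `f`. -/
theorem p_FACT2 : T_FACT2 := by
  intro f hf hsq hroot
  set P : ℚ[X] := f.map (Int.castRingHom ℚ) with hP
  have hinj : Function.Injective (Int.castRingHom ℚ) := Int.cast_injective
  have hdeg : 0 < P.natDegree := by
    rw [hP, natDegree_map_eq_of_injective hinj]
    exact hf
  have hP0 : P ≠ 0 := by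
    intro h
    rw [h] at hdeg
    simp at hdeg
  obtain ⟨s, hs1, hs2⟩ := UniqueFactorizationMonoid.exists_prime_factors P hP0
  obtain ⟨l, rfl⟩ := Quot.exists_rep s
  obtain ⟨n, hn⟩ : ∃ n, l.length = n + 1 := by
    rcases l with _ | ⟨a, l⟩
    · exfalso
      have h1 : Associated (1 : ℚ[X]) P := by simpa using hs2
      have h2 : IsUnit P := (associated_one_iff_isUnit.mp h1.symm)
      have h3 := natDegree_eq_zero_of_isUnit h2
      omega
    · exact ⟨l.length, by simp⟩
  let h : Fin (n + 1) → ℚ[X] := fun i => l.get (i.cast hn.symm)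
  have hirr : ∀ i, Irreducible (h i) := fun i => by
    refine (hs1 _ ?_).irreducible
    exact List.get_mem l _
  have hprod : Associated (∏ i, h i) P := by
    have h1 : ∏ i, h i = l.prod := by
      have h2 : ∏ i : Fin l.length, l.get i = l.prod := by
        rw [← List.prod_ofFn, List.ofFn_get]
      rw [← h2]
      exact Fintype.prod_equiv (finCongr hn.symm) _ _ fun i => rfl
    rw [h1]
    simpa using hs2
  have hdvd : ∀ i, h i ∣ P := fun i =>
    (Finset.dvd_prod_of_mem h (Finset.mem_univ i)).trans hprod.dvd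
  have hdvd2 : ∀ i j, i ≠ j → h i * h j ∣ P := by
    intro i j hij
    refine dvd_trans ?_ hprod.dvd
    rw [← Finset.mul_prod_erase _ _ (Finset.mem_univ i)]
    exact mul_dvd_mul_left _ (Finset.dvd_prod_of_mem h (Finset.mem_erase.2 ⟨hij.symm,
      Finset.mem_univ j⟩))
  have hcop : ∀ i j, i ≠ j → IsCoprime (h i) (h j) := by
    intro i j hij
    rw [(hirr i).coprime_iff_not_dvd]
    intro hd
    have h1 : h i * h i ∣ P := (mul_dvd_mul_left _ hd).trans (hdvd2 i j hij)
    exact (hirr i).not_isUnit (hsq _ h1)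
  choose g q hq hg using fun i => clear (h i)
  have hqu : ∀ i, IsUnit (C (q i)) := fun i => isUnit_C.2 (isUnit_iff_ne_zero.2 (hq i))
  obtain ⟨u, hu⟩ := hprod
  obtain ⟨u0, hu0, hu1⟩ := Polynomial.isUnit_iff.1 u.isUnit
  refine ⟨n, g, u0 * (∏ i, q i)⁻¹, ?_, ?_, ?_, ?_, ?_⟩
  · exact mul_ne_zero hu0.ne_zero (inv_ne_zero (Finset.prod_ne_zero_iff.2 fun i _ => hq i))
  · have h1 : ∏ i, (g i).map (Int.castRingHom ℚ) = C (∏ i, q i) * ∏ i, h i := by
      rw [map_prod, ← Finset.prod_mul_distrib]
      exact Finset.prod_congr rfl fun i _ => hg i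
    rw [h1, ← mul_assoc, ← C_mul, mul_assoc,
      inv_mul_cancel₀ (Finset.prod_ne_zero_iff.2 fun i _ => hq i), mul_one, hu1, mul_comm, hu]
  · intro i
    rw [hg i, irreducible_isUnit_mul (hqu i)]
    exact hirr i
  · intro i
    have h1 : (g i).natDegree = (h i).natDegree := by
      rw [← natDegree_map_eq_of_injective hinj, hg i, natDegree_C_mul (hq i)]
    rw [h1]
    have h2 := (hirr i).natDegree_pos
    by_contra hc
    have h3 : (h i).natDegree = 1 := by omega
    obtain ⟨r, hr⟩ := exists_root_of_degree_eq_one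
      (degree_eq_iff_natDegree_eq_of_pos one_pos |>.2 h3)
    refine hroot r ?_
    have h4 : P.IsRoot r := hr.dvd (hdvd i)
    have h5 : P.eval r = 0 := h4
    rw [hP, eval_map] at h5
    rw [aeval_def]
    exact h5
  · intro i j hij
    rw [hg i, hg j, isCoprime_mul_unit_left_left (hqu i), isCoprime_mul_unit_left_right (hqu j)]
    exact hcop i j hij

end Pool.Agent.QTx
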