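import Pool.Agent.QTx.Targets

/-! # Finiteness of the Selmer group of a number field -/

open Polynomial NumberField

namespace Pool.Agent.QTx

namespace FINSEL_

variable {K : Type} [Field K] [NumberField K]

theorem exists_prime_mem (P : Ideal (𝓞 K)) (hP : P.IsMaximal) (h0 : P ≠ ⊥) :
    ∃ l : ℕ, l.Prime ∧ (l : 𝓞 K) ∈ P := by
  classical
  have h1 : ∃ n : ℕ, 0 < n ∧ (n : 𝓞 K) ∈ P :=
    ⟨Ideal.absNorm P, Nat.pos_of_ne_zero (by rwa [Ne, Ideal.absNorm_eq_zero_iff]),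
      Ideal.absNorm_mem P⟩
  obtain ⟨hpos, hmem⟩ := Nat.find_spec h1
  set n := Nat.find h1 with hn
  have hn1 : n ≠ 1 := by
    intro h
    rw [h, Nat.cast_one] at hmem
    exact hP.ne_top ((Ideal.eq_top_iff_one P).mpr hmem)
  have hm := Nat.minFac_prime hn1
  refine ⟨n.minFac, hm, ?_⟩
  have hdiv : n.minFac * (n / n.minFac) = n := Nat.mul_div_cancel' (Nat.minFac_dvd n)
  have h2 : ((n.minFac : ℕ) : 𝓞 K) * ((n / n.minFac : ℕ) : 𝓞 K) ∈ P := by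
    rw [← Nat.cast_mul, hdiv]
    exact hmem
  rcases hP.isPrime.mem_or_mem h2 with h3 | h3
  · exact h3
  · exfalso
    have h4 : n / n.minFac < n := Nat.div_lt_self hpos hm.one_lt
    exact Nat.find_min h1 h4 ⟨Nat.div_pos (Nat.minFac_le hpos) hm.pos, h3⟩

theorem prime_of_max (P : Ideal (𝓞 K)) (hP : P.IsMaximal) (h0 : P ≠ ⊥) : Prime P :=
  Ideal.prime_of_isPrime h0 hP.isPrime

theorem val_exists (P : Ideal (𝓞 K)) (hP : P.IsMaximal) (h0 : P ≠ ⊥) (I : Ideal (𝓞 K))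
    (hI : I ≠ ⊥) : ∃ (n : ℕ) (I' : Ideal (𝓞 K)), ¬ P ∣ I' ∧ I = P ^ n * I' :=
  WfDvdMonoid.max_power_factor hI (prime_of_max P hP h0).irreducible

theorem mem_notMem (P : Ideal (𝓞 K)) (h0 : P ≠ ⊥) (z : 𝓞 K) (n : ℕ)
    (I' : Ideal (𝓞 K)) (h : ¬ P ∣ I') (hz : Ideal.span {z} = P ^ n * I') :
    z ∈ P ^ n ∧ z ∉ P ^ (n + 1) := by
  constructor
  · have h1 : P ^ n ∣ Ideal.span {z} := hz ▸ dvd_mul_right _ _
    exact Ideal.dvd_span_singleton.mp h1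
  · intro h2
    have h1 : P ^ (n + 1) ∣ Ideal.span {z} := Ideal.dvd_span_singleton.mpr h2
    rw [hz, pow_succ] at h1
    exact h ((mul_dvd_mul_iff_left (pow_ne_zero n h0)).mp h1)

theorem decomp (I : Ideal (𝓞 K)) (hI : I ≠ 0) :
    ∃ A B : Ideal (𝓞 K), I = A * B ^ 2 ∧ Squarefree A := by
  induction I using WfDvdMonoid.induction_on_irreducible with
  | zero => exact absurd rfl hI
  | unit u hu => exact ⟨u, 1, by rw [one_pow, mul_one], hu.squarefree⟩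
  | mul z p hz hp ih =>
    obtain ⟨A, B, h1, h2⟩ := ih hz
    by_cases hp' : p ∣ A
    · obtain ⟨A', rfl⟩ := hp'
      refine ⟨A', p * B, ?_, h2.of_mul_right⟩
      rw [h1]
      ring
    · refine ⟨p * A, B, ?_, ?_⟩
      · rw [h1]
        ring
      · exact squarefree_mul_iff.mpr ⟨hp.isRelPrime_iff_not_dvd.mpr hp', hp.squarefree, h2⟩

theorem mem_of_forall (A : Ideal (𝓞 K)) (hA : Squarefree A) (N : ℕ)
    (h : ∀ P : Ideal (𝓞 K), P.IsMaximal → A ≤ P → (N : 𝓞 K) ∈ P) :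
    A ∣ Ideal.span {(N : 𝓞 K)} := by
  have hA0 : A ≠ ⊥ := hA.ne_zero
  have h1 : (N : 𝓞 K) ∈ A.radical := by
    rw [Ideal.radical_eq_sInf, Submodule.mem_sInf]
    rintro P ⟨hAP, hP⟩
    refine h P ?_ hAP
    have hP0 : P ≠ ⊥ := by
      intro h0
      apply hA0
      rw [h0, le_bot_iff] at hAP
      exact hAP
    exact hP.isMaximal hP0
  obtain ⟨n, hn⟩ := h1
  have h2 : A ∣ (Ideal.span {(N : 𝓞 K)}) ^ n := by
    rw [Ideal.span_singleton_pow]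
    exact Ideal.dvd_span_singleton.mpr hn
  exact hA.isRadical n _ h2

theorem units_fin (K : Type) [Field K] [NumberField K] :
    ∃ U : Finset (𝓞 K)ˣ, ∀ u : (𝓞 K)ˣ, ∃ v ∈ U, ∃ w : (𝓞 K)ˣ, u = v * w ^ 2 := by
  classical
  set S : Subgroup (𝓞 K)ˣ := (powMonoidHom 2 : (𝓞 K)ˣ →* (𝓞 K)ˣ).range with hS
  have hfg : Group.FG (𝓞 K)ˣ := Group.fg_iff_monoid_fg.mpr inferInstance
  have hfg2 : Group.FG ((𝓞 K)ˣ ⧸ S) := inferInstance
  have htor : IsMulTorsion ((𝓞 K)ˣ ⧸ S) := by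
    intro x
    obtain ⟨g, rfl⟩ := QuotientGroup.mk_surjective x
    rw [isOfFinOrder_iff_pow_eq_one]
    refine ⟨2, two_pos, ?_⟩
    rw [← QuotientGroup.mk_pow, QuotientGroup.eq_one_iff]
    exact ⟨g, rfl⟩
  have hfin : Finite ((𝓞 K)ˣ ⧸ S) := CommGroup.finite_of_fg_isMulTorsion _ htor
  have hfin2 : Fintype ((𝓞 K)ˣ ⧸ S) := Fintype.ofFinite _
  refine ⟨Finset.univ.image (fun x : (𝓞 K)ˣ ⧸ S => x.out), ?_⟩
  intro u
  refine ⟨((u : (𝓞 K)ˣ ⧸ S)).out, Finset.mem_image_of_mem _ (Finset.mem_univ _), ?_⟩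
  have h1 : (((u : (𝓞 K)ˣ ⧸ S)).out : (𝓞 K)ˣ ⧸ S) = (u : (𝓞 K)ˣ ⧸ S) := Quotient.out_eq' _
  rw [QuotientGroup.eq] at h1
  obtain ⟨w, hw⟩ := h1
  refine ⟨w, ?_⟩
  have h2 : w ^ 2 = (((u : (𝓞 K)ˣ ⧸ S)).out)⁻¹ * u := hw
  rw [h2]
  group

theorem class_fin (K : Type) [Field K] [NumberField K] :
    ∃ S : Set (Ideal (𝓞 K)), S.Finite ∧ ∀ I : Ideal (𝓞 K), I ≠ ⊥ → ∃ J ∈ S, J ≠ ⊥ ∧
      ∃ α : 𝓞 K, I * J = Ideal.span {α} := by
  have hs : ∀ c : ClassGroup (𝓞 K), ∃ J : nonZeroDivisors (Ideal (𝓞 K)),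
      ClassGroup.mk0 J = c⁻¹ := fun c => ClassGroup.mk0_surjective _
  choose J hJ using hs
  refine ⟨Set.range (fun c => (J c : Ideal (𝓞 K))), Set.finite_range _, ?_⟩
  intro I hI
  have hI' : I ∈ nonZeroDivisors (Ideal (𝓞 K)) := mem_nonZeroDivisors_of_ne_zero hI
  obtain ⟨I0, hI0⟩ : ∃ I0 : nonZeroDivisors (Ideal (𝓞 K)), (I0 : Ideal (𝓞 K)) = I :=
    ⟨⟨I, hI'⟩, rfl⟩
  refine ⟨J (ClassGroup.mk0 I0), ⟨_, rfl⟩, nonZeroDivisors.coe_ne_zero _, ?_⟩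
  have h1 : ClassGroup.mk0 (I0 * J (ClassGroup.mk0 I0)) = 1 := by
    rw [map_mul, hJ, mul_inv_cancel]
  have h2 : ((I0 * J (ClassGroup.mk0 I0) : nonZeroDivisors (Ideal (𝓞 K))) :
      Ideal (𝓞 K)).IsPrincipal :=
    (ClassGroup.mk0_eq_one_iff (I0 * J (ClassGroup.mk0 I0)).2).mp h1
  obtain ⟨α, hα⟩ := h2
  refine ⟨α, ?_⟩
  rw [← hI0]
  exact hα

/-- The primes dividing the squarefree part of `(ω)`, `ω = a b`, contain `N`. -/
theorem parity (h2 : T_EMBP) (h3 : T_EMBV) (N : ℕ) (η : K) (hη : η ≠ 0)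
    (hN : ∀ (l : ℕ) [Fact l.Prime], ¬ l ∣ N → ∀ j : K →+* PadicAlgCl l,
      ∃ k : ℤ, ‖j η‖ = (l : ℝ) ^ (2 * k))
    (b ω : 𝓞 K) (hb : b ≠ 0) (hω : η * (b : K) ^ 2 = ω) (A B : Ideal (𝓞 K))
    (hA : Squarefree A) (hAB : Ideal.span {ω} = A * B ^ 2) (P : Ideal (𝓞 K))
    (hP : P.IsMaximal) (hAP : A ≤ P) : (N : 𝓞 K) ∈ P := by
  by_contra hNP
  have hA0 : A ≠ ⊥ := hA.ne_zero
  have hP0 : P ≠ ⊥ := by
    intro h0
    apply hA0
    rw [h0, le_bot_iff] at hAP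
    exact hAP
  have hPp := prime_of_max P hP hP0
  have hbK : (b : K) ≠ 0 := by simpa using hb
  have hω0 : ω ≠ 0 := by
    intro h
    rw [h] at hω
    have : η * (b : K) ^ 2 = 0 := by simpa using hω
    rcases mul_eq_zero.mp this with h1 | h1
    · exact hη h1
    · exact hbK (pow_eq_zero_iff two_ne_zero |>.mp h1)
  have hspω : Ideal.span {ω} ≠ (⊥ : Ideal (𝓞 K)) := by
    rwa [Ne, Ideal.span_singleton_eq_bot]
  have hB0 : B ≠ ⊥ := by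
    rintro rfl
    apply hspω
    rw [hAB, ← Ideal.zero_eq_bot, zero_pow two_ne_zero, mul_zero]
  obtain ⟨l, hl, hlP⟩ := exists_prime_mem P hP hP0
  have hlN : ¬ l ∣ N := by
    rintro ⟨c, rfl⟩
    apply hNP
    rw [Nat.cast_mul]
    exact Ideal.mul_mem_right _ _ hlP
  have : Fact l.Prime := ⟨hl⟩
  obtain ⟨j, hj⟩ := h2 K l P hP hlP
  obtain ⟨r, hr0, hr1, hr⟩ := h3 K l P j hlP hj
  obtain ⟨t, ht⟩ := hN l hlN j
  -- valuations
  obtain ⟨m, I1, hI1, hbI⟩ := val_exists P hP hP0 (Ideal.span {b})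
    (by rwa [Ne, Ideal.span_singleton_eq_bot])
  obtain ⟨hb1, hb2⟩ := mem_notMem P hP0 b m I1 hI1 hbI
  have hl0 : (l : 𝓞 K) ≠ 0 := Nat.cast_ne_zero.mpr hl.ne_zero
  obtain ⟨e, I2, hI2, hlI⟩ := val_exists P hP hP0 (Ideal.span {(l : 𝓞 K)})
    (by rwa [Ne, Ideal.span_singleton_eq_bot])
  obtain ⟨hl1, hl2⟩ := mem_notMem P hP0 (l : 𝓞 K) e I2 hI2 hlI
  obtain ⟨k, B', hB', hBk⟩ := val_exists P hP hP0 B hB0
  obtain ⟨A', hA'⟩ := Ideal.dvd_iff_le.mpr hAP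
  have hPA' : ¬ P ∣ A' := by
    rintro ⟨A'', rfl⟩
    have : P * P ∣ A := ⟨A'', by rw [hA']; ring⟩
    exact hPp.not_isUnit (hA P this)
  have hωP : Ideal.span {ω} = P ^ (2 * k + 1) * (A' * B' ^ 2) := by
    rw [hAB, hA', hBk]
    ring
  have hnd : ¬ P ∣ A' * B' ^ 2 := by
    intro h
    rcases hPp.dvd_or_dvd h with h | h
    · exact hPA' h
    · exact hB' (hPp.dvd_of_dvd_pow h)
  obtain ⟨hω1, hω2⟩ := mem_notMem P hP0 ω (2 * k + 1) _ hnd hωP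
  have n1 := hr b m hb1 hb2
  have n2 := hr (l : 𝓞 K) e hl1 hl2
  have n3 := hr ω (2 * k + 1) hω1 hω2
  have n4 : ‖j ((l : 𝓞 K) : K)‖ = (l : ℝ)⁻¹ := by
    have h5 : j ((l : 𝓞 K) : K) = ((l : ℚ_[l]) : PadicAlgCl l) := by
      simp
    rw [h5, PadicAlgCl.norm_extends]
    exact Padic.norm_p
  rw [n2] at n4
  have n5 : (l : ℝ) = r ^ (-(e : ℤ)) := by
    rw [zpow_neg, zpow_natCast, n4, inv_inv]
  have n6 : ‖j η‖ * ‖j (b : K)‖ ^ 2 = ‖j (ω : K)‖ := by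
    rw [← hω, map_mul, map_pow, norm_mul, norm_pow]
  rw [ht, n1, n3, n5, ← zpow_mul, ← zpow_natCast r (2 * k + 1), ← pow_mul, ← zpow_natCast r (m * 2),
    ← zpow_add₀ hr0.ne'] at n6
  have n7 := zpow_right_injective₀ hr0 hr1.ne n6
  have n8 : -((e : ℤ) * t) * 2 + 2 * m = 2 * k + 1 := by
    push_cast at n7
    linarith
  omega

/-- The relation between a generator and a pair of ideals. -/
def Rel (A J : Ideal (𝓞 K)) (θ : K) : Prop :=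
  θ ≠ 0 ∧ ∃ ω α : 𝓞 K, ω ≠ 0 ∧ α ≠ 0 ∧ θ * (α : K) ^ 2 = ω ∧
    Ideal.span {ω} * J ^ 2 = A * Ideal.span {α} ^ 2

theorem rel_unit (A J : Ideal (𝓞 K)) (hJ : J ≠ ⊥) (θ θ' : K) (h : Rel A J θ) (h' : Rel A J θ') :
    ∃ u : (𝓞 K)ˣ, θ = ((u : 𝓞 K) : K) * θ' := by
  obtain ⟨h0, ω, α, hω, hα, h1, h2⟩ := h
  obtain ⟨h0', ω', α', hω', hα', h1', h2'⟩ := h'
  have h3 : Ideal.span {ω * α' ^ 2} * J ^ 2 = Ideal.span {ω' * α ^ 2} * J ^ 2 := by
    have e1 : Ideal.span {ω * α' ^ 2} = Ideal.span {ω} * Ideal.span {α'} ^ 2 := by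
      rw [Ideal.span_singleton_pow, Ideal.span_singleton_mul_span_singleton]
    have e2 : Ideal.span {ω' * α ^ 2} = Ideal.span {ω'} * Ideal.span {α} ^ 2 := by
      rw [Ideal.span_singleton_pow, Ideal.span_singleton_mul_span_singleton]
    rw [e1, e2]
    calc Ideal.span {ω} * Ideal.span {α'} ^ 2 * J ^ 2
        = (Ideal.span {ω} * J ^ 2) * Ideal.span {α'} ^ 2 := by ring
      _ = (Ideal.span {ω'} * J ^ 2) * Ideal.span {α} ^ 2 := by rw [h2, h2']; ring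
      _ = Ideal.span {ω'} * Ideal.span {α} ^ 2 * J ^ 2 := by ring
  have h4 : Ideal.span {ω * α' ^ 2} = Ideal.span {ω' * α ^ 2} :=
    mul_right_cancel₀ (pow_ne_zero 2 hJ) h3
  rw [Ideal.span_singleton_eq_span_singleton] at h4
  obtain ⟨u, hu⟩ := h4.symm
  refine ⟨u, ?_⟩
  have hα1 : (α : K) ≠ 0 := by simpa using hα
  have hα1' : (α' : K) ≠ 0 := by simpa using hα'
  have h5 : ((ω' * α ^ 2 * u : 𝓞 K) : K) = ((ω * α' ^ 2 : 𝓞 K) : K) := congrArg _ hu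
  have h6 : (ω' : K) * (α : K) ^ 2 * ((u : 𝓞 K) : K) = (ω : K) * (α' : K) ^ 2 := by
    simpa using h5
  rw [← h1, ← h1'] at h6
  have h7 : (α : K) ^ 2 * (α' : K) ^ 2 ≠ 0 := mul_ne_zero (pow_ne_zero 2 hα1) (pow_ne_zero 2 hα1')
  apply mul_right_cancel₀ h7
  linear_combination -h6

end FINSEL_

open FINSEL_ in
theorem p_FINSEL (_h1 : T_EMBQ) (h2 : T_EMBP) (h3 : T_EMBV) : T_FINSEL := by
  intro K _ _ N hN
  classical
  obtain ⟨U, hU⟩ := units_fin K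
  obtain ⟨S, hSfin, hS⟩ := class_fin K
  have hT : {A : Ideal (𝓞 K) | Ideal.absNorm A ≤
      Ideal.absNorm (Ideal.span {(N : 𝓞 K)})}.Finite := Ideal.finite_setOfPred_absNorm_le _
  set g : Ideal (𝓞 K) × Ideal (𝓞 K) → K := fun p =>
    if h : ∃ θ, Rel p.1 p.2 θ then h.choose else 1 with hg
  have hg1 : ∀ (A J : Ideal (𝓞 K)) (θ : K), Rel A J θ → Rel A J (g (A, J)) := by
    intro A J θ h
    have h' : ∃ θ, Rel A J θ := ⟨θ, h⟩
    have e : g (A, J) = h'.choose := dif_pos h'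
    rw [e]
    exact h'.choose_spec
  have hg0 : ∀ p, g p ≠ 0 := by
    intro p
    by_cases h : ∃ θ, Rel p.1 p.2 θ
    · have e : g p = h.choose := dif_pos h
      rw [e]
      exact h.choose_spec.1
    · have e : g p = 1 := dif_neg h
      rw [e]
      exact one_ne_zero
  refine ⟨(U ×ˢ (hT.toFinset ×ˢ hSfin.toFinset)).image
    (fun x => ((x.1 : 𝓞 K) : K) * g x.2), ?_, ?_⟩
  · intro h hh
    obtain ⟨x, -, rfl⟩ := Finset.mem_image.mp hh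
    refine mul_ne_zero ?_ (hg0 _)
    simp
  · intro η hη hηN
    obtain ⟨a, b, hb, hab⟩ := IsFractionRing.div_surjective (A := 𝓞 K) η
    have hb0 : b ≠ 0 := nonZeroDivisors.ne_zero hb
    have hbK : (b : K) ≠ 0 := by simpa using hb0
    have haK : (a : K) ≠ 0 := by
      intro h
      apply hη
      rw [← hab]
      change (a : K) / (b : K) = 0
      rw [h, zero_div]
    have hab' : η = (a : K) / (b : K) := hab.symm
    have hωK : η * (b : K) ^ 2 = ((a * b : 𝓞 K) : K) := by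
      have h9 : ((a * b : 𝓞 K) : K) = (a : K) * (b : K) := map_mul _ _ _
      rw [hab', h9]
      field_simp
    have hω0 : a * b ≠ 0 := by
      refine mul_ne_zero ?_ hb0
      rintro rfl
      exact haK (by simp)
    have hsp : Ideal.span {a * b} ≠ (0 : Ideal (𝓞 K)) := by
      rw [Ideal.zero_eq_bot, Ne, Ideal.span_singleton_eq_bot]
      exact hω0
    obtain ⟨A, B, hAB, hA⟩ := decomp _ hsp
    have hdvd : A ∣ Ideal.span {(N : 𝓞 K)} :=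
      mem_of_forall A hA N (fun P hP hAP =>
        parity h2 h3 N η hη hηN b (a * b) hb0 hωK A B hA hAB P hP hAP)
    have hAT : A ∈ hT.toFinset := by
      rw [Set.Finite.mem_toFinset]
      refine Nat.le_of_dvd (Nat.pos_of_ne_zero ?_) (map_dvd Ideal.absNorm hdvd)
      rw [Ne, Ideal.absNorm_eq_zero_iff, Ideal.span_singleton_eq_bot]
      exact Nat.cast_ne_zero.mpr hN.ne'
    have hB0 : B ≠ ⊥ := by
      rintro rfl
      apply hsp
      rw [hAB, ← Ideal.zero_eq_bot, zero_pow two_ne_zero, mul_zero]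
    obtain ⟨J, hJS, hJ0, α, hα⟩ := hS B hB0
    have hα0 : α ≠ 0 := by
      rintro rfl
      rw [Ideal.span_singleton_eq_bot.mpr rfl] at hα
      exact (mul_ne_zero hB0 hJ0) hα
    have hαK : (α : K) ≠ 0 := by simpa using hα0
    have hrel : Rel A J (((a * b : 𝓞 K) : K) / (α : K) ^ 2) := by
      refine ⟨div_ne_zero (by simpa using hω0) (pow_ne_zero 2 hαK), a * b, α, hω0, hα0, ?_, ?_⟩
      · field_simp
      · rw [hAB, ← hα]
        ring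
    obtain ⟨u, hu⟩ := rel_unit A J hJ0 _ _ hrel (hg1 A J _ hrel)
    obtain ⟨v, hv, w, hw⟩ := hU u
    have hwK : ((w : 𝓞 K) : K) ≠ 0 := by
      simp
    refine ⟨((v : 𝓞 K) : K) * g (A, J), ?_, ((w : 𝓞 K) : K) * (α : K) / (b : K), ?_, ?_⟩
    · refine Finset.mem_image.mpr ⟨(v, (A, J)), ?_, rfl⟩
      rw [Finset.mem_product, Finset.mem_product]
      exact ⟨hv, hAT, hSfin.mem_toFinset.mpr hJS⟩
    · exact div_ne_zero (mul_ne_zero hwK hαK) hbK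
    · have h6 : ((u : 𝓞 K) : K) = ((v : 𝓞 K) : K) * ((w : 𝓞 K) : K) ^ 2 := by
        rw [hw]
        simp
      rw [h6] at hu
      have h7 : ((a * b : 𝓞 K) : K) =
          ((v : 𝓞 K) : K) * ((w : 𝓞 K) : K) ^ 2 * g (A, J) * (α : K) ^ 2 := by
        rw [← hu]
        field_simp
      have h8 : η = ((a * b : 𝓞 K) : K) / (b : K) ^ 2 := by
        rw [← hωK]
        field_simp
      rw [h8, h7]
      field_simp

end Pool.Agent.QTx
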