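import Pool.Agent.QTx.Targets

/-!
# GLOB: the classes `δ` are known up to finitely many possibilities
-/

open Polynomial NumberField

namespace Pool.Agent.QTx

namespace GLOB_

theorem extend {M : Type} [Field M] [NumberField M] (K : IntermediateField ℚ M) {Ω : Type}
    [Field Ω] [IsAlgClosed Ω] (j : K →+* Ω) : ∃ J : M →+* Ω, ∀ z : K, J (z : M) = j z := by
  letI := j.toAlgebra
  let J : M →ₐ[K] Ω := IsAlgClosed.lift
  exact ⟨J.toRingHom, fun z => J.commutes z⟩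

theorem embed (M : Type) [Field M] [NumberField M] (q : ℕ) [Fact q.Prime] :
    Nonempty (M →+* PadicAlgCl q) := by
  let J : M →ₐ[ℚ] PadicAlgCl q := IsAlgClosed.lift
  exact ⟨J.toRingHom⟩

theorem map_aev {M Ω : Type} [Field M] [Field Ω] (J : M →+* Ω) (a : M) (Q : ℤ[X]) :
    aeval (J a) Q = J (aeval a Q) :=
  Polynomial.aeval_algHom_apply J.toIntAlgHom a Q

theorem map_aev_eq_zero {M Ω : Type} [Field M] [Field Ω] (J : M →+* Ω) (a : M) (Q : ℤ[X]) :
    aeval (J a) Q = 0 ↔ aeval a Q = 0 := by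
  rw [map_aev, map_eq_zero]

theorem aev_mem {M : Type} [Field M] [CharZero M] (A : IntermediateField ℚ M) {a : M}
    (ha : a ∈ A) (Q : ℤ[X]) : aeval a Q ∈ A := by
  have h := map_aev (algebraMap A M) ⟨a, ha⟩ Q
  have h2 : (algebraMap A M) ⟨a, ha⟩ = a := rfl
  rw [h2] at h
  rw [h]
  exact (aeval (⟨a, ha⟩ : A) Q).2

theorem pv_map_root {ι M Ω : Type} [Field M] [Field Ω] (g : ι → ℤ[X]) (P : ι → ℕ → ℕ → ℤ[X])
    (q : ℕ) (ρ : ι × ℕ) (a : M) (J : M →+* Ω) (h : aeval (J a) (g ρ.1) = 0) :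
    J (pv g P q ρ a) = aeval (J a) (P ρ.1 q ρ.2) := by
  unfold pv
  rw [if_pos ((map_aev_eq_zero J a _).1 h), map_aev]

theorem pv_map_not {ι M Ω : Type} [Field M] [Field Ω] (g : ι → ℤ[X]) (P : ι → ℕ → ℕ → ℤ[X])
    (q : ℕ) (ρ : ι × ℕ) (a : M) (J : M →+* Ω) (h : ¬ aeval (J a) (g ρ.1) = 0) :
    J (pv g P q ρ a) = 1 := by
  unfold pv
  rw [if_neg (fun h' => h ((map_aev_eq_zero J a _).2 h')), map_one]

theorem pv_mem {ι M : Type} [Field M] [CharZero M] (g : ι → ℤ[X]) (P : ι → ℕ → ℕ → ℤ[X]) (q : ℕ)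
    (ρ : ι × ℕ) {a : M} (A : IntermediateField ℚ M) (ha : a ∈ A) : pv g P q ρ a ∈ A := by
  unfold pv
  split_ifs
  · exact aev_mem A ha _
  · exact A.one_mem

theorem mem_Rts {ι : Type} [Fintype ι] [DecidableEq ι] {g : ι → ℤ[X]} {N p : ℕ} {ρ : ι × ℕ}
    (h : ρ ∈ Rts g N p) : ρ.2 < p ∧ (p : ℤ) ∣ (g ρ.1).eval (ρ.2 : ℤ) := by
  unfold Rts at h
  split_ifs at h with h1
  · rw [Finset.mem_filter, Finset.mem_product, Finset.mem_range] at h
    exact ⟨h.1.2, h.2⟩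
  · simp at h

open Classical in
theorem norm_pv {ι : Type} {g : ι → ℤ[X]} {N : ℕ} {P : ι → ℕ → ℕ → ℤ[X]}
    (hP : PiProp g N P) (l : ℕ) [Fact l.Prime] (hl : ¬ l ∣ N) (q : ℕ) (hq : q.Prime)
    (hqN : ¬ q ∣ N) (ρ : ι × ℕ) (h1 : ρ.2 < q) (h2 : (q : ℤ) ∣ (g ρ.1).eval (ρ.2 : ℤ))
    {M : Type} [Field M] (J : M →+* PadicAlgCl l) (a : M) :
    ‖J (pv g P q ρ a)‖ = if aeval (J a) (g ρ.1) = 0 ∧ l = q ∧ ‖J a - (ρ.2 : PadicAlgCl l)‖ < 1
      then ((q : ℝ))⁻¹ else 1 := by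
  by_cases h : aeval (J a) (g ρ.1) = 0
  · rw [pv_map_root g P q ρ a J h]
    have h5 := hP ρ.1 q ρ.2 hq hqN h1 h2 l hl (J a) h
    by_cases h3 : l = q ∧ ‖J a - (ρ.2 : PadicAlgCl l)‖ < 1
    · rw [if_pos (show aeval (J a) (g ρ.1) = 0 ∧ l = q ∧ ‖J a - (ρ.2 : PadicAlgCl l)‖ < 1 from
        ⟨h, h3⟩)]
      exact h5.trans (if_pos h3)
    · rw [if_neg (fun h' : aeval (J a) (g ρ.1) = 0 ∧ l = q ∧
        ‖J a - (ρ.2 : PadicAlgCl l)‖ < 1 => h3 h'.2)]
      exact h5.trans (if_neg h3)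
  · rw [pv_map_not g P q ρ a J h, if_neg (fun h' : aeval (J a) (g ρ.1) = 0 ∧ l = q ∧
        ‖J a - (ρ.2 : PadicAlgCl l)‖ < 1 => h h'.1), norm_one]

theorem pv_ne {ι : Type} {g : ι → ℤ[X]} {N : ℕ} {P : ι → ℕ → ℕ → ℤ[X]}
    (hP : PiProp g N P) (q : ℕ) (hq : q.Prime)
    (hqN : ¬ q ∣ N) (ρ : ι × ℕ) (h1 : ρ.2 < q) (h2 : (q : ℤ) ∣ (g ρ.1).eval (ρ.2 : ℤ))
    {M : Type} [Field M] [NumberField M] (a : M) : pv g P q ρ a ≠ 0 := by
  have : Fact q.Prime := ⟨hq⟩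
  obtain ⟨J⟩ := embed M q
  intro h0
  have h := norm_pv hP q hqN q hq hqN ρ h1 h2 J a
  rw [h0, map_zero, norm_zero] at h
  have hq0 : (0 : ℝ) < (q : ℝ)⁻¹ := by
    have := hq.pos
    positivity
  split_ifs at h
  · linarith
  · linarith

/-- the norm of the product of the values at a root -/
theorem norm_prod_pv {n : ℕ} {g : Fin (n + 1) → ℤ[X]} {f : ℤ[X]} {N : ℕ}
    {P : Fin (n + 1) → ℕ → ℕ → ℤ[X]} {M : Type} [Field M] [NumberField M]
    (hP : PiProp g N P) (l : ℕ) [hl' : Fact l.Prime] (hl : ¬ l ∣ N) (hg : GoodAt g f M l)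
    (J : M →+* PadicAlgCl l) (d : ℤ) (hd : d ≠ 0) (ρ : ℕ → Fin (n + 1) × ℕ)
    (hρ : ∀ q ∈ d.natAbs.primeFactors.filter (fun q => ¬ q ∣ N), ρ q ∈ Rts g N q)
    (a : M) (ha : aeval a f = 0) :
    ‖J (∏ q ∈ d.natAbs.primeFactors.filter (fun q => ¬ q ∣ N), pv g P q (ρ q) a)‖ =
      if (l : ℤ) ∣ d then wq l (ρ l).2 (J a) else 1 := by
  have hf : aeval (J a) f = 0 := (map_aev_eq_zero J a f).2 ha
  rw [map_prod, norm_prod]
  have hfac : ∀ q ∈ d.natAbs.primeFactors.filter (fun q => ¬ q ∣ N),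
      ‖J (pv g P q (ρ q) a)‖ = if q = l then wq l (ρ l).2 (J a) else 1 := by
    intro q hq
    have hqm := hq
    rw [Finset.mem_filter, Nat.mem_primeFactors] at hq
    obtain ⟨h1, h2⟩ := mem_Rts (hρ q hqm)
    rw [norm_pv hP l hl q hq.1.1 hq.2 (ρ q) h1 h2 J a]
    by_cases hql : q = l
    · subst hql
      rw [if_pos rfl]
      unfold wq
      by_cases h3 : ‖J a - ((ρ q).2 : PadicAlgCl q)‖ < 1
      · rw [if_pos h3, if_pos]
        refine ⟨?_, rfl, h3⟩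
        obtain ⟨t, ht, hts⟩ := hg.hens (ρ q).1 ((ρ q).2 : ℤ) h2
        have ht' : aeval (algebraMap ℚ_[q] (PadicAlgCl q) t) (g (ρ q).1) = 0 :=
          (map_aev_eq_zero (algebraMap ℚ_[q] (PadicAlgCl q)) t _).2 ht
        have hroot : aeval (algebraMap ℚ_[q] (PadicAlgCl q) t) f = 0 :=
          (hg.fac _).2 ⟨_, ht'⟩
        have hclose : ‖J a - algebraMap ℚ_[q] (PadicAlgCl q) t‖ < 1 := by
          have e1 : J a - algebraMap ℚ_[q] (PadicAlgCl q) t =
              (J a - ((ρ q).2 : PadicAlgCl q)) -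
                (algebraMap ℚ_[q] (PadicAlgCl q) t - ((ρ q).2 : PadicAlgCl q)) := by ring
          have e2 : algebraMap ℚ_[q] (PadicAlgCl q) t - ((ρ q).2 : PadicAlgCl q) =
              algebraMap ℚ_[q] (PadicAlgCl q) (t - (((ρ q).2 : ℤ) : ℚ_[q])) := by
            rw [map_sub]
            simp
          have e3 : ‖algebraMap ℚ_[q] (PadicAlgCl q) t - ((ρ q).2 : PadicAlgCl q)‖ < 1 := by
            rw [e2, norm_algebraMap']
            exact hts
          rw [e1, sub_eq_add_neg]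
          refine lt_of_le_of_lt (IsUltrametricDist.norm_add_le_max _ _) ?_
          rw [norm_neg]
          exact max_lt h3 e3
        have heq : J a = algebraMap ℚ_[q] (PadicAlgCl q) t := by
          by_contra hne
          rw [hg.sep _ _ hf hroot hne] at hclose
          exact lt_irrefl _ hclose
        rw [heq]
        exact ht'
      · rw [if_neg h3, if_neg (fun h => h3 h.2.2)]
    · rw [if_neg hql, if_neg (fun h => hql h.2.1.symm)]
  rw [Finset.prod_congr rfl hfac, Finset.prod_ite_eq']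
  have hiff : l ∈ d.natAbs.primeFactors.filter (fun q => ¬ q ∣ N) ↔ (l : ℤ) ∣ d := by
    rw [Finset.mem_filter, Nat.mem_primeFactors, Int.natCast_dvd]
    constructor
    · exact fun h => h.1.2.1
    · exact fun h => ⟨⟨hl'.out, h, by simpa using hd⟩, hl⟩
  by_cases h : (l : ℤ) ∣ d
  · rw [if_pos h, if_pos (hiff.2 h)]
  · rw [if_neg h, if_neg (fun h' => h (hiff.1 h'))]

/-- the finite sets of representatives -/
theorem sel (h1 : T_FINSEL) (M : Type) [Field M] [NumberField M] (N : ℕ) (hN : 0 < N)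
    (a b : M) : ∃ H : Finset M,
      (∀ h ∈ H, h ≠ 0 ∧ h ∈ IntermediateField.adjoin ℚ ({a, b} : Set M)) ∧ 1 ∈ H ∧
      ∀ η ∈ IntermediateField.adjoin ℚ ({a, b} : Set M), η ≠ 0 →
        (∀ (l : ℕ) [Fact l.Prime], ¬ l ∣ N → ∀ J : M →+* PadicAlgCl l,
          ∃ k : ℤ, ‖J η‖ = (l : ℝ) ^ (2 * k)) →
        ∃ h ∈ H, ∃ κ ∈ IntermediateField.adjoin ℚ ({a, b} : Set M), κ ≠ 0 ∧
          η = h * κ ^ 2 := by
  classical
  obtain ⟨H, hH0, hH⟩ := h1 (IntermediateField.adjoin ℚ ({a, b} : Set M)) N hN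
  refine ⟨insert 1 (H.image Subtype.val), ?_, Finset.mem_insert_self _ _, ?_⟩
  · intro h hh
    rw [Finset.mem_insert, Finset.mem_image] at hh
    rcases hh with rfl | ⟨x, hx, rfl⟩
    · exact ⟨one_ne_zero, IntermediateField.one_mem _⟩
    · refine ⟨?_, x.2⟩
      intro h0
      exact hH0 x hx (Subtype.ext h0)
  · intro η hη hη0 hnorm
    obtain ⟨h, hh, κ, hκ0, hκ⟩ := hH ⟨η, hη⟩ (fun h => hη0 (congrArg Subtype.val h)) (by
      intro l _ hl j
      obtain ⟨J, hJ⟩ := extend _ j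
      obtain ⟨k, hk⟩ := hnorm l hl J
      refine ⟨k, ?_⟩
      rw [← hJ]
      exact hk)
    refine ⟨h, Finset.mem_insert_of_mem (Finset.mem_image_of_mem _ hh), κ, κ.2, ?_, ?_⟩
    · intro h0
      exact hκ0 (Subtype.ext h0)
    · have := congrArg Subtype.val hκ
      simpa using this

end GLOB_

open GLOB_ in
theorem p_GLOB (h1 : T_FINSEL) : T_GLOB := by
  classical
  intro n g f M _ _ N P hf hN hP hgood
  choose H hH0 hH1 hH using sel h1 M N hN
  obtain ⟨R, hR⟩ : ∃ R : Finset M, ∀ a, aeval a f = 0 → a ∈ R := by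
    refine ⟨(f.map (algebraMap ℤ M)).roots.toFinset, ?_⟩
    intro a ha
    have hf0 : f ≠ 0 := by
      rintro rfl
      simp at hf
    rw [Multiset.mem_toFinset, mem_roots]
    · rw [IsRoot, eval_map, ← aeval_def, ha]
    · rw [Ne, Polynomial.map_eq_zero_iff (algebraMap ℤ M).injective_int]
      exact hf0
  let S : Finset ((R × R) → M) := Fintype.piFinset (fun p => H p.1.1 p.2.1)
  let e := S.equivFin
  refine ⟨S.card, fun η a b => if h : a ∈ R ∧ b ∈ R then (e.symm η).1 (⟨a, h.1⟩, ⟨b, h.2⟩) else 1,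
    ?_, ?_⟩
  · intro η a b
    by_cases h : a ∈ R ∧ b ∈ R
    · simp only [dif_pos h]
      exact hH0 a b _ ((Fintype.mem_piFinset.1 (e.symm η).2) (⟨a, h.1⟩, ⟨b, h.2⟩))
    · simp only [dif_neg h]
      exact ⟨one_ne_zero, IntermediateField.one_mem _⟩
  · intro d δ ρ hd hδ hc1 hc2
    have hd0 : d ≠ 0 := hd.ne_zero
    have hρ : ∀ q ∈ d.natAbs.primeFactors.filter (fun q => ¬ q ∣ N), ρ q ∈ Rts g N q := by
      intro q hq
      rw [Finset.mem_filter, Nat.mem_primeFactors] at hq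
      have : Fact q.Prime := ⟨hq.1.1⟩
      exact (hc2 q hq.2 (Int.natCast_dvd.2 hq.1.2.1)).1
    have hmain : ∀ a b : M, ∃ h ∈ H a b, aeval a f = 0 → aeval b f = 0 → a ≠ b →
        ∃ κ ∈ IntermediateField.adjoin ℚ ({a, b} : Set M), κ ≠ 0 ∧
          δ a b * ∏ q ∈ d.natAbs.primeFactors.filter (fun q => ¬ q ∣ N),
            (pv g P q (ρ q) a * pv g P q (ρ q) b) = h * κ ^ 2 := by
      intro a b
      by_cases hab : aeval a f = 0 ∧ aeval b f = 0 ∧ a ≠ b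
      · obtain ⟨ha, hb, hne⟩ := hab
        obtain ⟨hδ0, hδm⟩ := hδ a b ha hb hne
        have haA : a ∈ IntermediateField.adjoin ℚ ({a, b} : Set M) :=
          IntermediateField.subset_adjoin _ _ (by simp)
        have hbA : b ∈ IntermediateField.adjoin ℚ ({a, b} : Set M) :=
          IntermediateField.subset_adjoin _ _ (by simp)
        have hs1 : δ a b * ∏ q ∈ d.natAbs.primeFactors.filter (fun q => ¬ q ∣ N),
            (pv g P q (ρ q) a * pv g P q (ρ q) b) ∈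
              IntermediateField.adjoin ℚ ({a, b} : Set M) := by
          refine mul_mem hδm (prod_mem fun q _ => ?_)
          exact mul_mem (pv_mem g P q _ _ haA) (pv_mem g P q _ _ hbA)
        have hs2 : δ a b * ∏ q ∈ d.natAbs.primeFactors.filter (fun q => ¬ q ∣ N),
            (pv g P q (ρ q) a * pv g P q (ρ q) b) ≠ 0 := by
          refine mul_ne_zero hδ0 (Finset.prod_ne_zero_iff.2 fun q hq => ?_)
          obtain ⟨h1, h2⟩ := mem_Rts (hρ q hq)
          rw [Finset.mem_filter, Nat.mem_primeFactors] at hq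
          exact mul_ne_zero (pv_ne hP q hq.1.1 hq.2 _ h1 h2 a) (pv_ne hP q hq.1.1 hq.2 _ h1 h2 b)
        obtain ⟨h, hh, κ, hκ, hκ0, heq⟩ := hH a b _ hs1 hs2 (by
          intro l _ hl J
          rw [Finset.prod_mul_distrib, map_mul, map_mul, norm_mul, norm_mul,
            norm_prod_pv hP l hl (hgood l hl) J d hd0 ρ hρ a ha,
            norm_prod_pv hP l hl (hgood l hl) J d hd0 ρ hρ b hb]
          by_cases hld : (l : ℤ) ∣ d
          · rw [if_pos hld, if_pos hld, ← mul_assoc]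
            exact (hc2 l hl hld).2 J a b ha hb hne
          · rw [if_neg hld, if_neg hld, mul_one, mul_one]
            exact hc1 l hl hld J a b ha hb hne)
        exact ⟨h, hh, fun _ _ _ => ⟨κ, hκ, hκ0, heq⟩⟩
      · exact ⟨1, hH1 a b, fun ha hb hne => absurd ⟨ha, hb, hne⟩ hab⟩
    choose F hF1 hF2 using hmain
    have hmem : (fun p : R × R => F p.1.1 p.2.1) ∈ S :=
      Fintype.mem_piFinset.2 fun p => hF1 p.1.1 p.2.1
    refine ⟨e ⟨_, hmem⟩, ?_⟩
    intro a b ha hb hne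
    obtain ⟨κ, hκ, hκ0, heq⟩ := hF2 a b ha hb hne
    refine ⟨κ, hκ, hκ0, ?_⟩
    rw [heq]
    have h : a ∈ R ∧ b ∈ R := ⟨hR a ha, hR b hb⟩
    simp only [dif_pos h, Equiv.symm_apply_apply]

end Pool.Agent.QTx
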