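import Pool.Agent.QTx.Targets

set_option autoImplicit false

/-!
# LOCE: the identity over the completion
-/

open Polynomial NumberField

namespace Pool.Agent.QTx

namespace LOCE_

/-- the map of coefficients as a ring homomorphism -/
noncomputable def mapHom {R S : Type} [CommRing R] [CommRing S] (f : R →+* S) :
    LaurentSeries R →+* LaurentSeries S where
  toFun x := x.map f
  map_one' := HahnSeries.map_one f.toMonoidWithZeroHom
  map_mul' x y := HahnSeries.map_mul (f : R →ₙ+* S)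
  map_zero' := by
    ext n
    simp
  map_add' x y := HahnSeries.map_add (f : R →+ S)

/-- Transport of an intermediate field which is contained in the image of `i`. -/
theorem exists_transport {M Ω Ψ F : Type} [Field M] [Field Ω] [Field Ψ] [Field F] [Algebra ℚ Ω]
    [Algebra F Ψ]
    (i : M →+* Ω) (j : M →+* Ψ) (A : IntermediateField ℚ Ω) (B : IntermediateField F Ψ)
    (h : ∀ z ∈ A, ∃ m, i m = z ∧ j m ∈ B) :
    ∃ g : A →+* B, ∀ (m : M) (hm : i m ∈ A), (g ⟨i m, hm⟩ : Ψ) = j m := by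
  have h' : ∀ z : A, ∃ m, i m = z ∧ j m ∈ B := fun z => h z z.2
  choose c hc hcB using h'
  have hinj : Function.Injective i := i.injective
  let g₀ : A →+* M :=
    { toFun := c
      map_one' := hinj (by rw [hc, map_one]; rfl)
      map_mul' := fun x y => hinj (by rw [hc, map_mul, hc, hc]; rfl)
      map_zero' := hinj (by rw [hc, map_zero]; rfl)
      map_add' := fun x y => hinj (by rw [hc, map_add, hc, hc]; rfl) }
  refine ⟨(j.comp g₀).codRestrict B (fun z => hcB z), fun m hm => ?_⟩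
  change j (c ⟨i m, hm⟩) = j m
  congr 1
  exact hinj (hc ⟨i m, hm⟩)

theorem adjoin_le (E : Type) [Field E] [CharZero E] (S : Set (AlgebraicClosure E))
    {z : AlgebraicClosure E} (hz : z ∈ IntermediateField.adjoin ℚ S) :
    z ∈ IntermediateField.adjoin E S := by
  induction hz using IntermediateField.adjoin_induction with
  | mem x hx => exact IntermediateField.subset_adjoin E S hx
  | algebraMap x =>
    rw [eq_ratCast]
    exact SubfieldClass.ratCast_mem _ x
  | add x y _ _ hx hy => exact add_mem hx hy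
  | inv x _ hx => exact inv_mem hx
  | mul x y _ _ hx hy => exact mul_mem hx hy

end LOCE_

open LOCE_ in
theorem p_LOCE (h1 : T_EXT2) : T_LOCE := by
  intro E _ _ hE x a b δ β ha hb hδ hβ hid q _ φ M _ _ i₀ j a' b' δ' ha' hb' hδ'
  subst ha' hb' hδ'
  set L1 := IntermediateField.adjoin ℚ_[q] ({j a', j b'} : Set (PadicAlgCl q)) with hL1
  have hA : ∀ z ∈ IntermediateField.adjoin ℚ ({i₀ a', i₀ b'} : Set (AlgebraicClosure E)),
      ∃ m, i₀ m = z ∧ j m ∈ L1 := by
    intro z hz
    induction hz using IntermediateField.adjoin_induction with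
    | mem x hx =>
      rcases hx with rfl | rfl
      · exact ⟨a', rfl, IntermediateField.subset_adjoin _ _ (by simp)⟩
      · exact ⟨b', rfl, IntermediateField.subset_adjoin _ _ (by simp)⟩
    | algebraMap x =>
      refine ⟨(x : M), by rw [map_ratCast, eq_ratCast], ?_⟩
      rw [map_ratCast]
      exact SubfieldClass.ratCast_mem _ x
    | add x y _ _ hx hy =>
      obtain ⟨m, hm, hm'⟩ := hx
      obtain ⟨n, hn, hn'⟩ := hy
      exact ⟨m + n, by rw [map_add, hm, hn], by rw [map_add]; exact add_mem hm' hn'⟩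
    | inv x _ hx =>
      obtain ⟨m, hm, hm'⟩ := hx
      exact ⟨m⁻¹, by rw [map_inv₀, hm], by rw [map_inv₀]; exact inv_mem hm'⟩
    | mul x y _ _ hx hy =>
      obtain ⟨m, hm, hm'⟩ := hx
      obtain ⟨n, hn, hn'⟩ := hy
      exact ⟨m * n, by rw [map_mul, hm, hn], by rw [map_mul]; exact mul_mem hm' hn'⟩
  obtain ⟨g, hg⟩ := exists_transport i₀ j _ L1 hA
  obtain ⟨Φ, hΦ1, hΦ2⟩ := h1 E hE {i₀ a', i₀ b'} (Set.toFinite _) (by
    intro z hz
    rcases hz with rfl | rfl
    · exact ha
    · exact hb) (LaurentSeries L1) ((mapHom (algebraMap ℚ_[q] L1)).comp φ)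
    ((HahnSeries.C : L1 →+* LaurentSeries L1).comp g)
  have maQ : i₀ a' ∈ IntermediateField.adjoin ℚ ({i₀ a', i₀ b'} : Set (AlgebraicClosure E)) :=
    IntermediateField.subset_adjoin _ _ (by simp)
  have mbQ : i₀ b' ∈ IntermediateField.adjoin ℚ ({i₀ a', i₀ b'} : Set (AlgebraicClosure E)) :=
    IntermediateField.subset_adjoin _ _ (by simp)
  have maE := adjoin_le E _ maQ
  have mbE := adjoin_le E _ mbQ
  have mdE := adjoin_le E _ hδ
  refine ⟨g ⟨i₀ a', maQ⟩, g ⟨i₀ b', mbQ⟩, g ⟨i₀ δ', hδ⟩, Φ ⟨β, hβ⟩, hg a' maQ, hg b' mbQ,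
    hg δ' hδ, ?_⟩
  have hid' : (algebraMap E (IntermediateField.adjoin E
        ({i₀ a', i₀ b'} : Set (AlgebraicClosure E))) x - ⟨i₀ a', maE⟩) *
      (algebraMap E (IntermediateField.adjoin E
        ({i₀ a', i₀ b'} : Set (AlgebraicClosure E))) x - ⟨i₀ b', mbE⟩) =
      ⟨i₀ δ', mdE⟩ * ⟨β, hβ⟩ ^ 2 := Subtype.ext hid
  have h2 := congrArg Φ hid'
  rw [map_mul, map_sub, map_sub, map_mul, map_pow, hΦ1, hΦ2 _ maQ maE, hΦ2 _ mbQ mbE,
    hΦ2 _ hδ mdE] at h2
  exact h2

end Pool.Agent.QTx
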