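import Pool.Agent.QTx.Targets

set_option autoImplicit false

/-!
# QTx, part B: the conditions at a good prime dividing `d` in terms of Jacobi symbols
-/

open Polynomial NumberField

namespace Pool.Agent.QTx

namespace LOCJ_

section padic

variable {p : ℕ} [hp : Fact p.Prime]

/-- ultrametric inequality -/
theorem um (x y : ℚ_[p]) : ‖x + y‖ ≤ max ‖x‖ ‖y‖ := Padic.nonarchimedean x y

theorem sub_lt {x y z : ℚ_[p]} (h1 : ‖x - y‖ < 1) (h2 : ‖y - z‖ < 1) : ‖x - z‖ < 1 := by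
  have h : x - z = (x - y) + (y - z) := by ring
  rw [h]
  exact (um _ _).trans_lt (max_lt h1 h2)

theorem sub_lt' {x y z : PadicAlgCl p} (h1 : ‖x - y‖ < 1) (h2 : ‖y - z‖ < 1) :
    ‖x - z‖ < 1 := by
  have h : x - z = (x - y) + (y - z) := by ring
  rw [h]
  exact (PadicAlgCl.isNonarchimedean p _ _).trans_lt (max_lt h1 h2)

theorem le_one_of_sub {x : ℚ_[p]} {n : ℤ} (h : ‖x - n‖ < 1) : ‖x‖ ≤ 1 := by
  have h1 : x = (x - n) + n := by ring
  rw [h1]
  exact (um _ _).trans (max_le h.le (Padic.norm_int_le_one n))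

/-- multiplication of close elements -/
theorem mul_close {x y : ℚ_[p]} {m n : ℤ} (h1 : ‖x - m‖ < 1) (h2 : ‖y - n‖ < 1) :
    ‖x * y - ((m * n : ℤ) : ℚ_[p])‖ < 1 := by
  have h : x * y - ((m * n : ℤ) : ℚ_[p]) = (x - m) * y + m * (y - n) := by push_cast; ring
  rw [h]
  refine (um _ _).trans_lt (max_lt ?_ ?_)
  · rw [norm_mul]
    calc ‖x - m‖ * ‖y‖ ≤ ‖x - m‖ * 1 :=
          mul_le_mul_of_nonneg_left (le_one_of_sub h2) (norm_nonneg _)
      _ < 1 := by rw [mul_one]; exact h1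
  · rw [norm_mul]
    calc ‖(m : ℚ_[p])‖ * ‖y - n‖ ≤ 1 * ‖y - n‖ :=
          mul_le_mul_of_nonneg_right (Padic.norm_int_le_one m) (norm_nonneg _)
      _ < 1 := by rw [one_mul]; exact h2

theorem self_close (n : ℤ) : ‖((n : ℤ) : ℚ_[p]) - (n : ℤ)‖ < 1 := by simp

/-- products of close elements -/
theorem prod_close {ι : Type} (s : Finset ι) (x : ι → ℚ_[p]) (m : ι → ℤ)
    (h : ∀ i ∈ s, ‖x i - m i‖ < 1) : ‖∏ i ∈ s, x i - ((∏ i ∈ s, m i : ℤ) : ℚ_[p])‖ < 1 := by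
  classical
  induction s using Finset.induction_on with
  | empty => simp
  | insert a s ha ih =>
    rw [Finset.prod_insert ha, Finset.prod_insert ha]
    exact mul_close (h a (Finset.mem_insert_self _ _))
      (ih fun i hi => h i (Finset.mem_insert_of_mem hi))

theorem not_dvd_of_close {x : ℚ_[p]} {n : ℤ} (h : ‖x - n‖ < 1) (hx : ‖x‖ = 1) :
    ¬ (p : ℤ) ∣ n := by
  intro hn
  have h1 : ‖(n : ℚ_[p])‖ < 1 := Padic.norm_intCast_lt_one_iff.2 hn
  have h2 : x = (x - n) + n := by ring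
  have h3 : ‖x‖ < 1 := by
    rw [h2]
    exact (um _ _).trans_lt (max_lt h h1)
  linarith

theorem norm_one_of_not_dvd {n : ℤ} (h : ¬ (p : ℤ) ∣ n) : ‖(n : ℚ_[p])‖ = 1 := by
  refine le_antisymm (Padic.norm_int_le_one n) ?_
  by_contra hc
  push Not at hc
  exact h (Padic.norm_intCast_lt_one_iff.1 hc)

/-- an integer close to an integral element -/
theorem exists_int (x : ℚ_[p]) (hx : ‖x‖ ≤ 1) : ∃ n : ℤ, ‖x - n‖ < 1 := by
  obtain ⟨n, -, hn⟩ := PadicInt.exists_mem_range (⟨x, hx⟩ : ℤ_[p])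
  refine ⟨n, ?_⟩
  rw [PadicInt.maximalIdeal_eq_span_p, Ideal.mem_span_singleton,
    ← PadicInt.norm_lt_one_iff_dvd] at hn
  rw [PadicInt.norm_def] at hn
  push_cast at hn ⊢
  exact hn

/-- squares among the units -/
theorem isSquare_iff (hp2 : p ≠ 2) (U : ℚ_[p]) (n : ℤ) (h : ‖U - n‖ < 1) (hn : ¬ (p : ℤ) ∣ n) :
    (jacobiSym n p = 1 ∨ jacobiSym n p = -1) ∧
    (jacobiSym n p = 1 ↔ ∃ y : ℚ_[p], y ^ 2 = U) := by
  have hn0 : (n : ZMod p) ≠ 0 := by
    rwa [Ne, ZMod.intCast_zmod_eq_zero_iff_dvd]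
  rw [← jacobiSym.legendreSym.to_jacobiSym]
  refine ⟨legendreSym.eq_one_or_neg_one p hn0, ?_⟩
  rw [legendreSym.eq_one_iff p hn0]
  have hUle : ‖U‖ ≤ 1 := le_one_of_sub h
  constructor
  · rintro ⟨c, hc⟩
    set c0 : ℤ := (c.val : ℤ) with hc0
    have hcc : ((c0 : ℤ) : ZMod p) = c := by
      rw [hc0]
      push_cast
      exact ZMod.natCast_zmod_val c
    have hdvd : (p : ℤ) ∣ c0 ^ 2 - n := by
      rw [← ZMod.intCast_zmod_eq_zero_iff_dvd]
      push_cast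
      rw [hcc, hc]
      ring
    have hc0n : ¬ (p : ℤ) ∣ c0 := by
      intro hd
      apply hn
      have h1 : n = c0 ^ 2 - (c0 ^ 2 - n) := by ring
      rw [h1]
      exact dvd_sub (dvd_pow hd two_ne_zero) hdvd
    have h2n : ¬ (p : ℤ) ∣ 2 * c0 := by
      intro hd
      rcases (Nat.prime_iff_prime_int.1 hp.out).dvd_or_dvd hd with h1 | h1
      · apply hp2
        have h2 : p ∣ 2 := by exact_mod_cast h1
        exact (Nat.prime_dvd_prime_iff_eq hp.out Nat.prime_two).1 h2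
      · exact hc0n h1
    set U' : ℤ_[p] := ⟨U, hUle⟩ with hU'
    have hH : ‖Polynomial.aeval ((c0 : ℤ) : ℤ_[p]) (X ^ 2 - C U' : ℤ_[p][X])‖ <
        ‖Polynomial.aeval ((c0 : ℤ) : ℤ_[p]) (derivative (X ^ 2 - C U' : ℤ_[p][X]))‖ ^ 2 := by
      have e1 : Polynomial.aeval ((c0 : ℤ) : ℤ_[p]) (X ^ 2 - C U' : ℤ_[p][X]) =
          ((c0 : ℤ) : ℤ_[p]) ^ 2 - U' := by simp
      have e2 : Polynomial.aeval ((c0 : ℤ) : ℤ_[p]) (derivative (X ^ 2 - C U' : ℤ_[p][X])) =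
          ((2 * c0 : ℤ) : ℤ_[p]) := by simp [one_add_one_eq_two]
      rw [e1, e2]
      have h3 : ‖((2 * c0 : ℤ) : ℤ_[p])‖ = 1 := by
        rw [PadicInt.norm_def]
        have := norm_one_of_not_dvd (p := p) h2n
        push_cast at this ⊢
        exact this
      rw [h3, one_pow, PadicInt.norm_def]
      have h4 : ‖((c0 : ℚ_[p])) ^ 2 - U‖ < 1 := by
        have h5 : ‖(((c0 ^ 2 - n : ℤ)) : ℚ_[p])‖ < 1 := Padic.norm_intCast_lt_one_iff.2 hdvd
        have h6 : ‖(n : ℚ_[p]) - U‖ < 1 := by rw [norm_sub_rev]; exact h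
        have h7 : (c0 : ℚ_[p]) ^ 2 - U = ((c0 ^ 2 - n : ℤ) : ℚ_[p]) + (n - U) := by
          push_cast; ring
        rw [h7]
        exact (um _ _).trans_lt (max_lt h5 h6)
      push_cast
      exact h4
    obtain ⟨z, hz, -⟩ := hensels_lemma hH
    refine ⟨(z : ℚ_[p]), ?_⟩
    have h1 : z ^ 2 = U' := by
      have : z ^ 2 - U' = 0 := by simpa using hz
      exact sub_eq_zero.mp this
    have h2 := congrArg (fun x : ℤ_[p] => (x : ℚ_[p])) h1
    push_cast at h2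
    exact h2
  · rintro ⟨y, rfl⟩
    have hy : ‖y‖ ≤ 1 := by
      by_contra hc
      push Not at hc
      rw [norm_pow] at hUle
      have := one_lt_pow₀ hc two_ne_zero
      linarith
    obtain ⟨c, hc⟩ := exists_int y hy
    have h1 := mul_close hc hc
    rw [← sq] at h1
    have h2 : ‖((c * c : ℤ) : ℚ_[p]) - n‖ < 1 := by
      refine sub_lt ?_ h
      rw [norm_sub_rev]
      exact h1
    have h3 : ‖((c * c - n : ℤ) : ℚ_[p])‖ < 1 := by
      push_cast at h2 ⊢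
      exact h2
    have h4 := Padic.norm_intCast_lt_one_iff.1 h3
    refine ⟨(c : ZMod p), ?_⟩
    rw [← ZMod.intCast_zmod_eq_zero_iff_dvd] at h4
    push_cast at h4
    exact (sub_eq_zero.1 h4).symm

/-- values of integral polynomials at close points -/
theorem eval_close (Q : ℤ[X]) (x : ℚ_[p]) (s : ℤ) (h : ‖x - s‖ < 1) :
    ‖aeval x Q - ((Q.eval s : ℤ) : ℚ_[p])‖ < 1 := by
  set x' : ℤ_[p] := ⟨x, le_one_of_sub h⟩ with hx'
  have h1 := Polynomial.sub_dvd_eval_sub x' (s : ℤ_[p]) (Q.map (Int.castRingHom ℤ_[p]))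
  obtain ⟨w, hw⟩ := h1
  have e1 : (Q.map (Int.castRingHom ℤ_[p])).eval (s : ℤ_[p]) = ((Q.eval s : ℤ) : ℤ_[p]) := by
    simp
  have e2 : (((Q.map (Int.castRingHom ℤ_[p])).eval x' : ℤ_[p]) : ℚ_[p]) = aeval x Q := by
    have := Polynomial.aeval_algebraMap_apply ℚ_[p] x' Q
    have h3 : algebraMap ℤ_[p] ℚ_[p] x' = x := rfl
    rw [h3] at this
    rw [this, Polynomial.aeval_def, Polynomial.eval_map]
    rfl
  have h2 := congrArg (fun t : ℤ_[p] => (t : ℚ_[p])) hw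
  push_cast at h2
  rw [e2, e1] at h2
  push_cast at h2
  rw [h2, norm_mul]
  have h3 : ‖(w : ℚ_[p])‖ ≤ 1 := w.2
  have h4 : ‖(x' : ℚ_[p]) - (s : ℚ_[p])‖ < 1 := h
  calc ‖(x' : ℚ_[p]) - (s : ℚ_[p])‖ * ‖(w : ℚ_[p])‖
      ≤ ‖(x' : ℚ_[p]) - (s : ℚ_[p])‖ * 1 := mul_le_mul_of_nonneg_left h3 (norm_nonneg _)
    _ < 1 := by rw [mul_one]; exact h4

end padic

section good

variable {n : ℕ} {g : Fin (n + 1) → ℤ[X]} {f : ℤ[X]} {M : Type} [Field M] {p : ℕ}
  [hp : Fact p.Prime]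

theorem norm_sub_nat (a : ℚ_[p]) (s : ℕ) :
    ‖algebraMap ℚ_[p] (PadicAlgCl p) a - (s : PadicAlgCl p)‖ = ‖a - ((s : ℤ) : ℚ_[p])‖ := by
  have h : algebraMap ℚ_[p] (PadicAlgCl p) a - (s : PadicAlgCl p) =
      algebraMap ℚ_[p] (PadicAlgCl p) (a - ((s : ℤ) : ℚ_[p])) := by
    rw [map_sub]
    simp
  rw [h]
  exact PadicAlgCl.norm_extends p _

/-- roots of `f` close to an integer are in `ℚ_p` -/
theorem root_in (hg : GoodAt g f M p) (i : Fin (n + 1)) (s : ℕ)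
    (hs : (p : ℤ) ∣ (g i).eval (s : ℤ)) (t : PadicAlgCl p) (ht : aeval t f = 0)
    (hts : ‖t - (s : PadicAlgCl p)‖ < 1) :
    ∃ a : ℚ_[p], algebraMap ℚ_[p] (PadicAlgCl p) a = t ∧ aeval a (g i) = 0 ∧
      ‖a - ((s : ℤ) : ℚ_[p])‖ < 1 := by
  obtain ⟨a, h1, h2⟩ := hg.hens i s hs
  refine ⟨a, ?_, h1, h2⟩
  by_contra hne
  have h3 : aeval (algebraMap ℚ_[p] (PadicAlgCl p) a) f = 0 := by
    rw [hg.fac]
    refine ⟨i, ?_⟩
    rw [aeval_algebraMap_apply, h1, map_zero]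
  have h4 := hg.sep _ t h3 ht hne
  have h5 : ‖algebraMap ℚ_[p] (PadicAlgCl p) a - (s : PadicAlgCl p)‖ < 1 := by
    rw [norm_sub_nat]
    exact h2
  have h6 : ‖(s : PadicAlgCl p) - t‖ < 1 := by rw [norm_sub_rev]; exact hts
  have h7 := sub_lt' h5 h6
  linarith

/-- the field generated by `a` and `b` is mapped to `ℚ_p` -/
theorem in_range [CharZero M] (J : M →+* PadicAlgCl p) (a b : M) (a' b' : ℚ_[p])
    (ha : algebraMap ℚ_[p] (PadicAlgCl p) a' = J a)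
    (hb : algebraMap ℚ_[p] (PadicAlgCl p) b' = J b) (x : M)
    (hx : x ∈ IntermediateField.adjoin ℚ ({a, b} : Set M)) :
    ∃ y : ℚ_[p], algebraMap ℚ_[p] (PadicAlgCl p) y = J x := by
  induction hx using IntermediateField.adjoin_induction with
  | mem x hx =>
    rcases hx with rfl | hx
    · exact ⟨a', ha⟩
    · rw [Set.mem_singleton_iff] at hx
      subst hx
      exact ⟨b', hb⟩
  | algebraMap x => exact ⟨(x : ℚ_[p]), by simp⟩
  | add x y _ _ h1 h2 =>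
    obtain ⟨u, hu⟩ := h1
    obtain ⟨w, hw⟩ := h2
    exact ⟨u + w, by rw [map_add, map_add, hu, hw]⟩
  | inv x _ h1 =>
    obtain ⟨u, hu⟩ := h1
    exact ⟨u⁻¹, by rw [map_inv₀, map_inv₀, hu]⟩
  | mul x y _ _ h1 h2 =>
    obtain ⟨u, hu⟩ := h1
    obtain ⟨w, hw⟩ := h2
    exact ⟨u * w, by rw [map_mul, map_mul, hu, hw]⟩

theorem map_int_aeval {R S : Type} [CommRing R] [CommRing S] (J : R →+* S) (a : R) (Q : ℤ[X]) :
    J (aeval a Q) = aeval (J a) Q := by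
  have := Polynomial.aeval_algHom_apply J.toIntAlgHom a Q
  exact this.symm

/-- the local value -/
noncomputable def AA (P : Fin (n + 1) → ℕ → ℕ → ℤ[X]) (i : Fin (n + 1)) (a : ℚ_[p]) (q : ℕ)
    (ρ : Fin (n + 1) × ℕ) : ℚ_[p] :=
  if i = ρ.1 then aeval a (P ρ.1 q ρ.2) else 1

theorem pv_image (hg : GoodAt g f M p) (J : M →+* PadicAlgCl p) (i : Fin (n + 1)) (a : M)
    (a' : ℚ_[p]) (ha : algebraMap ℚ_[p] (PadicAlgCl p) a' = J a) (hr : aeval a' (g i) = 0)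
    (P : Fin (n + 1) → ℕ → ℕ → ℤ[X]) (q : ℕ) (ρ : Fin (n + 1) × ℕ) :
    J (pv g P q ρ a) = algebraMap ℚ_[p] (PadicAlgCl p) (AA P i a' q ρ) := by
  have hri : aeval (J a) (g i) = 0 := by
    rw [← ha, aeval_algebraMap_apply, hr, map_zero]
  have h1 : aeval a (g ρ.1) = 0 ↔ i = ρ.1 := by
    rw [← map_eq_zero J, map_int_aeval]
    constructor
    · intro h
      exact hg.coprime i ρ.1 (J a) hri h
    · intro h
      rw [← h]
      exact hri
  unfold pv AA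
  by_cases h : i = ρ.1
  · rw [if_pos (h1.2 h), if_pos h, map_int_aeval, ← ha, aeval_algebraMap_apply]
  · rw [if_neg (fun h' => h (h1.1 h')), if_neg h, map_one, map_one]

theorem AA_close (P : Fin (n + 1) → ℕ → ℕ → ℤ[X]) (ρp : Fin (n + 1) × ℕ) (a : ℚ_[p]) (q : ℕ)
    (ρ : Fin (n + 1) × ℕ) (h : ‖a - ((ρp.2 : ℤ) : ℚ_[p])‖ < 1) :
    ‖AA P ρp.1 a q ρ - ((vl P ρp q ρ : ℤ) : ℚ_[p])‖ < 1 := by
  unfold AA vl
  split_ifs with h1
  · exact eval_close _ a _ h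
  · simp

theorem AA_norm (N : ℕ) (hpN : ¬ p ∣ N) (P : Fin (n + 1) → ℕ → ℕ → ℤ[X]) (hP : PiProp g N P)
    (i : Fin (n + 1)) (a : ℚ_[p]) (hr : aeval a (g i) = 0) (q : ℕ) (ρ : Fin (n + 1) × ℕ)
    (hρ : ρ ∈ Rts g N q) : AA P i a q ρ ≠ 0 ∧ (q ≠ p → ‖AA P i a q ρ‖ = 1) := by
  unfold AA
  split_ifs with h1
  · unfold Rts at hρ
    split_ifs at hρ with h2
    · rw [Finset.mem_filter, Finset.mem_product, Finset.mem_range] at hρ
      have h3 := hP ρ.1 q ρ.2 h2.1 h2.2 hρ.1.2 hρ.2 p hpN (algebraMap ℚ_[p] (PadicAlgCl p) a)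
        (by rw [← h1, aeval_algebraMap_apply, hr, map_zero])
      rw [aeval_algebraMap_apply] at h3
      have h4 : ‖algebraMap ℚ_[p] (PadicAlgCl p) (aeval a (P ρ.1 q ρ.2))‖ =
          ‖aeval a (P ρ.1 q ρ.2)‖ := PadicAlgCl.norm_extends p _
      rw [h4] at h3
      constructor
      · intro h0
        rw [h0, norm_zero] at h3
        split_ifs at h3 with h5
        · have : (q : ℝ) ≠ 0 := by exact_mod_cast h2.1.ne_zero
          exact this (inv_eq_zero.1 h3.symm)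
        · exact zero_ne_one h3
      · intro hqp
        rw [h3, if_neg]
        rintro ⟨h5, -⟩
        exact hqp h5.symm
    · simp at hρ
  · exact ⟨one_ne_zero, fun _ => norm_one⟩

end good

theorem jac_prod {ι : Type} (p : ℕ) (s : Finset ι) (x : ι → ℤ) :
    jacobiSym (∏ i ∈ s, x i) p = ∏ i ∈ s, jacobiSym (x i) p := by
  classical
  induction s using Finset.induction_on with
  | empty => simp
  | insert a s ha ih => rw [Finset.prod_insert ha, Finset.prod_insert ha, jacobiSym.mul_left, ih]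

end LOCJ_

open LOCJ_ in
theorem p_LOCJ : T_LOCJ := by
  intro n g f M _ _ N P p hp d e ρ ρ' J a b δ h κ D hf hN hP hg hpN hsq hpd hde hρ hρ' hne ha hb
    has hbs hδ hh hκ hhin hκin hrel hD hS w
  classical
  have hd0 : d ≠ 0 := hsq.ne_zero
  have hpmem : p ∈ d.natAbs.primeFactors :=
    Nat.mem_primeFactors.2 ⟨hp.out, Int.natCast_dvd.1 hpd, Int.natAbs_ne_zero.2 hd0⟩
  have hρp : ρ p ∈ Rts g N p := hρ p hpmem hpN
  have hR1 : (ρ p).2 < p ∧ (p : ℤ) ∣ (g (ρ p).1).eval ((ρ p).2 : ℤ) := by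
    unfold Rts at hρp
    rw [if_pos ⟨hp.out, hpN⟩, Finset.mem_filter, Finset.mem_product, Finset.mem_range] at hρp
    exact ⟨hρp.1.2, hρp.2⟩
  have hR2 : ρ'.2 < p ∧ (p : ℤ) ∣ (g ρ'.1).eval (ρ'.2 : ℤ) := by
    unfold Rts at hρ'
    rw [if_pos ⟨hp.out, hpN⟩, Finset.mem_filter, Finset.mem_product, Finset.mem_range] at hρ'
    exact ⟨hρ'.1.2, hρ'.2⟩
  have hJa : aeval (J a) f = 0 := by
    have h1 := map_int_aeval J a f
    rw [ha, map_zero] at h1
    exact h1.symm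
  have hJb : aeval (J b) f = 0 := by
    have h1 := map_int_aeval J b f
    rw [hb, map_zero] at h1
    exact h1.symm
  obtain ⟨a', ha1, ha2, ha3⟩ := root_in hg (ρ p).1 (ρ p).2 hR1.2 (J a) hJa has
  obtain ⟨b', hb1, hb2, hb3⟩ := root_in hg ρ'.1 ρ'.2 hR2.2 (J b) hJb hbs
  obtain ⟨H, hH⟩ := in_range J a b a' b' ha1 hb1 h hhin
  obtain ⟨K, hK⟩ := in_range J a b a' b' ha1 hb1 κ hκin
  have hinj : Function.Injective (algebraMap ℚ_[p] (PadicAlgCl p)) :=
    (algebraMap ℚ_[p] (PadicAlgCl p)).injective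
  set F := d.natAbs.primeFactors.filter (fun q => ¬ q ∣ N) with hF
  set F' := d.natAbs.primeFactors.filter (fun q => ¬ q ∣ N ∧ q ≠ p) with hF'
  have hFF : F' = F.erase p := by
    ext q
    simp only [hF, hF', Finset.mem_filter, Finset.mem_erase]
    tauto
  have hpF : p ∈ F := Finset.mem_filter.2 ⟨hpmem, hpN⟩
  set A : ℕ → ℚ_[p] := fun q => AA P (ρ p).1 a' q (ρ q) with hA
  set B : ℕ → ℚ_[p] := fun q => AA P ρ'.1 b' q (ρ q) with hB
  have hpa : ∀ q, J (pv g P q (ρ q) a) = algebraMap ℚ_[p] (PadicAlgCl p) (A q) := fun q =>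
    pv_image hg J (ρ p).1 a a' ha1 ha2 P q (ρ q)
  have hpb : ∀ q, J (pv g P q (ρ q) b) = algebraMap ℚ_[p] (PadicAlgCl p) (B q) := fun q =>
    pv_image hg J ρ'.1 b b' hb1 hb2 P q (ρ q)
  have hmemF : ∀ q ∈ F, q.Prime ∧ ρ q ∈ Rts g N q := by
    intro q hq
    have hq' := Finset.mem_filter.1 hq
    exact ⟨(Nat.mem_primeFactors.1 hq'.1).1, hρ q hq'.1 hq'.2⟩
  have hA0 : ∀ q ∈ F, A q ≠ 0 ∧ (q ≠ p → ‖A q‖ = 1) := fun q hq =>
    AA_norm N hpN P hP (ρ p).1 a' ha2 q (ρ q) (hmemF q hq).2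
  have hB0 : ∀ q ∈ F, B q ≠ 0 ∧ (q ≠ p → ‖B q‖ = 1) := fun q hq =>
    AA_norm N hpN P hP ρ'.1 b' hb2 q (ρ q) (hmemF q hq).2
  -- the relation over `ℚ_p`
  have hrel2 : D * ∏ q ∈ F, (A q * B q) = H * K ^ 2 := by
    apply hinj
    have h1 := congrArg J hrel
    rw [map_mul, map_prod, map_mul, map_pow] at h1
    rw [map_mul, map_prod, map_mul, map_pow, hD, hH, hK, ← h1]
    congr 1
    refine Finset.prod_congr rfl fun q _ => ?_
    rw [map_mul, map_mul, hpa, hpb]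
  set π : ℚ_[p] := ∏ q ∈ F', (A q * B q) with hπ
  set u : ℚ_[p] := ∏ q ∈ F', (q : ℚ_[p]) with hu
  set U : ℚ_[p] := ∏ q ∈ F', ((q : ℚ_[p]) * A q * B q) with hU
  have hUe : U = u * π := by
    rw [hU, hu, hπ, ← Finset.prod_mul_distrib]
    exact Finset.prod_congr rfl fun q _ => by ring
  have hrel3 : D * ((A p * B p) * π) = H * K ^ 2 := by
    rw [← hrel2, hπ, hFF, Finset.mul_prod_erase F (fun q => A q * B q) hpF]
  have hdQ : (d : ℚ_[p]) = e * (p * u) := by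
    have h1 : (d : ℚ_[p]) = ((e * ∏ q ∈ F, (q : ℤ) : ℤ) : ℚ_[p]) := by rw [← hde]
    rw [h1]
    push_cast
    rw [hu, hFF, Finset.mul_prod_erase F (fun q => (q : ℚ_[p])) hpF]
  obtain ⟨y, hy⟩ := hS
  set C : ℤ := (derivative f).eval ((ρ p).2 : ℤ) * ((ρ p).2 - ρ'.2) with hC
  have hy' : D * ((d : ℚ_[p]) * (C : ℚ_[p])) = y ^ 2 := by
    rw [sq, ← hy, hC]
    push_cast
    ring
  -- nonvanishing
  have hD0 : D ≠ 0 := by
    rintro rfl
    rw [map_zero] at hD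
    exact hδ ((map_eq_zero J).1 hD.symm)
  have hK0 : K ≠ 0 := by
    rintro rfl
    rw [map_zero] at hK
    exact hκ ((map_eq_zero J).1 hK.symm)
  have hss : (ρ p).2 ≠ ρ'.2 := by
    intro heq
    apply hne
    have h1 : J a = J b := by
      by_contra hab
      have h2 := hg.sep (J a) (J b) hJa hJb hab
      have h3 : ‖J a - J b‖ < 1 := by
        refine sub_lt' has ?_
        rw [heq, norm_sub_rev]
        exact hbs
      linarith
    have h2 : (ρ p).1 = ρ'.1 := by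
      refine hg.coprime _ _ (J a) ?_ ?_
      · rw [← ha1, aeval_algebraMap_apply, ha2, map_zero]
      · rw [h1, ← hb1, aeval_algebraMap_apply, hb2, map_zero]
    exact (Prod.ext h2 heq).symm
  have hder : (derivative f).eval ((ρ p).2 : ℤ) ≠ 0 := by
    intro h0
    have h1 := hg.der (J a) hJa
    rw [← ha1, aeval_algebraMap_apply] at h1
    have h2 : ‖algebraMap ℚ_[p] (PadicAlgCl p) (aeval a' (derivative f))‖ =
        ‖aeval a' (derivative f)‖ := PadicAlgCl.norm_extends p _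
    rw [h2] at h1
    have h3 := eval_close (derivative f) a' _ ha3
    rw [h0] at h3
    simp only [Int.cast_zero, sub_zero] at h3
    linarith
  have hC0 : (C : ℚ_[p]) ≠ 0 := by
    rw [Ne, Int.cast_eq_zero, hC]
    refine mul_ne_zero hder (sub_ne_zero.2 ?_)
    exact_mod_cast hss
  have hy0 : y ≠ 0 := by
    rintro rfl
    rw [zero_pow two_ne_zero] at hy'
    exact mul_ne_zero hD0 (mul_ne_zero (Int.cast_ne_zero.2 hd0) hC0) hy'
  have hF'F : ∀ q ∈ F', q ∈ F ∧ q ≠ p := by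
    intro q hq
    rw [hFF, Finset.mem_erase] at hq
    exact ⟨hq.2, hq.1⟩
  have hπ0 : π ≠ 0 := by
    rw [hπ, Finset.prod_ne_zero_iff]
    intro q hq
    exact mul_ne_zero (hA0 q (hF'F q hq).1).1 (hB0 q (hF'F q hq).1).1
  -- the product is a square
  set X' : ℚ_[p] := H * A p * B p * ((e : ℚ_[p]) * p * C) with hX'
  set z : ℚ_[p] := y * (A p * B p * π) / K with hz
  have hz0 : z ≠ 0 := by
    rw [hz]
    exact div_ne_zero (mul_ne_zero hy0 (mul_ne_zero (mul_ne_zero (hA0 p hpF).1 (hB0 p hpF).1)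
      hπ0)) hK0
  have hXU : X' * U = z ^ 2 := by
    rw [hz, div_pow, eq_div_iff (pow_ne_zero 2 hK0), mul_pow, ← hy', hdQ, hUe, hX']
    linear_combination (-(A p * B p * ((e : ℚ_[p]) * p * C) * u * π)) * hrel3
  -- the unit
  have hnorm : ∀ q ∈ F', ‖(q : ℚ_[p]) * A q * B q‖ = 1 := by
    intro q hq
    obtain ⟨hq1, hq2⟩ := hF'F q hq
    rw [norm_mul, norm_mul, (hA0 q hq1).2 hq2, (hB0 q hq1).2 hq2, mul_one, mul_one]
    have h1 : ¬ (p : ℤ) ∣ (q : ℤ) := by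
      intro h2
      have h3 : p ∣ q := by exact_mod_cast h2
      exact hq2 ((Nat.prime_dvd_prime_iff_eq hp.out (hmemF q hq1).1).1 h3).symm
    have := norm_one_of_not_dvd (p := p) h1
    exact_mod_cast this
  have hU1 : ‖U‖ = 1 := by
    rw [hU, norm_prod]
    exact Finset.prod_eq_one hnorm
  set U0 : ℤ := ∏ q ∈ F', ((q : ℤ) * vl P (ρ p) q (ρ q) * vl P ρ' q (ρ q)) with hU0
  have hUU : ‖U - U0‖ < 1 := by
    rw [hU, hU0]
    refine prod_close F' _ _ fun q _ => ?_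
    refine mul_close (mul_close ?_ ?_) ?_
    · simp
    · exact AA_close P (ρ p) a' q (ρ q) ha3
    · exact AA_close P ρ' b' q (ρ q) hb3
  have hnd := not_dvd_of_close hUU hU1
  obtain ⟨hJ1, hJ2⟩ := isSquare_iff hg.two U U0 hUU hnd
  have hw : w = jacobiSym U0 p := by
    rw [hU0, jac_prod]
    rfl
  have hUne : U ≠ 0 := by
    intro h0
    rw [h0, norm_zero] at hU1
    exact zero_ne_one hU1
  have hX0 : X' ≠ 0 := by
    intro h0
    rw [h0, zero_mul] at hXU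
    exact pow_ne_zero 2 hz0 hXU.symm
  have himg : J (h * pv g P p (ρ p) a * pv g P p (ρ p) b *
      ((e * p * (derivative f).eval ((ρ p).2 : ℤ) * ((ρ p).2 - ρ'.2) : ℤ) : M)) =
      algebraMap ℚ_[p] (PadicAlgCl p) X' := by
    rw [map_mul, map_mul, map_mul, hpa, hpb, ← hH, hX', map_mul, map_mul, map_mul]
    congr 1
    rw [map_intCast, hC]
    push_cast
    simp only [map_mul, map_sub, map_intCast, map_natCast]
    ring
  rw [hw]
  refine ⟨hJ1, ?_⟩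
  rw [hJ2, himg]
  constructor
  · rintro ⟨x, hx⟩
    refine ⟨z / x, ?_⟩
    congr 1
    rw [div_pow, hx, ← hXU, mul_div_assoc, div_self hUne, mul_one]
  · rintro ⟨r, hr⟩
    have hr' : r ^ 2 = X' := hinj hr
    refine ⟨z / r, ?_⟩
    rw [div_pow, hr', ← hXU, mul_comm, mul_div_assoc, div_self hX0, mul_one]

end Pool.Agent.QTx
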