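import Pool.Agent.QTx.Targets

/-!
# LOCV1: the local condition at a good prime not dividing `d`
-/

open Polynomial NumberField
open Pool.Agent.QTw (IsFunctionField IsCovering HasPoint TwistSelNonempty geomField primesTo cfgs
  idealCount rootCount)

namespace Pool.Agent.QTx

namespace LOCV1_

theorem aeval_map {M R : Type} [Field M] [Field R] (j : M →+* R) (f : ℤ[X]) (a : M)
    (h : aeval a f = 0) : aeval (j a) f = 0 := by
  have e : aeval (j a) f = j (aeval a f) := by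
    rw [aeval_def, aeval_def, Polynomial.hom_eval₂]
    congr 1
    exact RingHom.ext_int _ _
  rw [e, h, map_zero]

theorem mem_range {M : Type} [Field M] {q : ℕ} [Fact q.Prime] (j : M →+* PadicAlgCl q) (a b : M)
    {c : PadicAlgCl q} (h : c ∈ IntermediateField.adjoin ℚ_[q] ({j a, j b} : Set (PadicAlgCl q))) :
    c ∈ IntermediateField.adjoin ℚ_[q] (Set.range j) := by
  refine IntermediateField.adjoin.mono _ _ _ ?_ h
  rintro x (rfl | rfl)
  · exact ⟨a, rfl⟩
  · exact ⟨b, rfl⟩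

end LOCV1_

theorem p_LOCV1 (h1 : T_XCASE) : T_LOCV1 := by
  intro n g f M _ _ d δ q hq hdeg heven _ hgood hpair hloc hsq hqd j a b ha hb hab
  have hq0 : (q : ℝ) ≠ 0 := by
    exact_mod_cast hq.out.ne_zero
  have hδ : δ a b ≠ 0 := (hpair a b ha hb hab).1
  have hjδ : j (δ a b) ≠ 0 := (map_ne_zero j).mpr hδ
  have hja := LOCV1_.aeval_map j f a ha
  have hjb := LOCV1_.aeval_map j f b hb
  have hjab : j a ≠ j b := fun h => hab (j.injective h)
  rcases hloc with ⟨x₀, l₀, y₀, hpt, hloc⟩ | ⟨-, hloc⟩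
  · obtain ⟨c, hc, hc2⟩ := hloc j a b ha hb hab
    obtain ⟨k', hk'⟩ := (h1 n g f M q d x₀ l₀ y₀ hdeg heven hgood hpt hsq).1 hqd (j a) (j b)
      hja hjb hjab
    have hn := congrArg norm hc2
    rw [norm_pow, norm_mul, hk'] at hn
    have hc0 : c ≠ 0 := by
      rintro rfl
      rw [norm_zero, zero_pow two_ne_zero] at hn
      have h2 : (q : ℝ) ^ (2 * k') * ‖j (δ a b)‖ ≠ 0 :=
        mul_ne_zero (zpow_ne_zero _ hq0) (norm_ne_zero_iff.mpr hjδ)
      exact h2 hn.symm
    obtain ⟨k, hk⟩ := hgood.val j c hc0 (LOCV1_.mem_range j a b hc)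
    refine ⟨k - k', ?_⟩
    rw [hk] at hn
    have h3 : (q : ℝ) ^ (2 * k') ≠ 0 := zpow_ne_zero _ hq0
    have h4 : ((q : ℝ) ^ k) ^ 2 = (q : ℝ) ^ (2 * k') * (q : ℝ) ^ (2 * (k - k')) := by
      rw [← zpow_add₀ hq0, ← zpow_natCast, ← zpow_mul]
      congr 1
      push_cast
      ring
    rw [h4] at hn
    exact (mul_left_cancel₀ h3 hn).symm
  · obtain ⟨c, hc, hc2⟩ := hloc j a b ha hb hab
    have hn := congrArg norm hc2
    rw [norm_pow] at hn
    have hc0 : c ≠ 0 := by
      rintro rfl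
      rw [zero_pow two_ne_zero] at hc2
      exact hjδ hc2.symm
    obtain ⟨k, hk⟩ := hgood.val j c hc0 (LOCV1_.mem_range j a b hc)
    refine ⟨k, ?_⟩
    rw [← hn, hk, ← zpow_natCast, ← zpow_mul]
    congr 1
    push_cast
    ring

end Pool.Agent.QTx
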