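import Pool.Agent.QTx.Targets

/-!
NU: the cofactor of `q` in the resultant.
-/

open Polynomial NumberField

namespace Pool.Agent.QTx

namespace NU_

/-- resultant with a product of linear factors -/
theorem res_prod {K : Type*} [Field K] (m : Multiset K) (Q : K[X]) (k : ℕ) (hQ : Q.natDegree ≤ k) :
    resultant ((m.map (fun t => X - C t)).prod) Q (Multiset.card m) k =
      (m.map (fun t => Q.eval t)).prod := by
  induction m using Multiset.induction_on with
  | empty => simp
  | cons t m ih =>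
    rw [Multiset.map_cons, Multiset.prod_cons, Multiset.map_cons, Multiset.prod_cons,
      Multiset.card_cons]
    have hd : ((m.map (fun t => X - C t)).prod).natDegree = Multiset.card m :=
      natDegree_multiset_prod_X_sub_C_eq_card m
    have h := resultant_mul_left (X - C t) (m.map (fun t => X - C t)).prod Q k hQ
    rw [natDegree_X_sub_C, hd] at h
    rw [add_comm (Multiset.card m) 1, h, ih]
    have h1 := resultant_X_sub_C_pow_left t Q 1 k hQ
    rw [pow_one, pow_one] at h1
    rw [h1]

/-- the resultant as a product over the roots -/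
theorem res_eq {K : Type*} [Field K] [CharZero K] (g P : ℤ[X]) (hs : (g.map (Int.castRingHom K)).Splits)
    (hP : P.natDegree ≤ g.natDegree - 1) :
    ((resultant g P g.natDegree (g.natDegree - 1) : ℤ) : K) =
      (g.leadingCoeff : K) ^ (g.natDegree - 1) *
        ((g.map (Int.castRingHom K)).roots.map (fun t => aeval t P)).prod := by
  have hinj : Function.Injective (Int.castRingHom K) := Int.cast_injective
  have hcard : Multiset.card (g.map (Int.castRingHom K)).roots = g.natDegree := by
    rw [← hs.natDegree_eq_card_roots, natDegree_map_eq_of_injective hinj]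
  have h1 := resultant_map_map g P g.natDegree (g.natDegree - 1) (Int.castRingHom K)
  have h2 : ((resultant g P g.natDegree (g.natDegree - 1) : ℤ) : K) =
      Int.castRingHom K (resultant g P g.natDegree (g.natDegree - 1)) := rfl
  rw [h2, ← h1]
  have h3 := hs.eq_prod_roots
  rw [leadingCoeff_map_of_injective hinj] at h3
  have h4 : resultant (g.map (Int.castRingHom K)) (P.map (Int.castRingHom K)) g.natDegree
      (g.natDegree - 1) = resultant (C ((Int.castRingHom K) g.leadingCoeff) *
        ((g.map (Int.castRingHom K)).roots.map (fun t => X - C t)).prod)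
          (P.map (Int.castRingHom K)) g.natDegree (g.natDegree - 1) := by rw [← h3]
  rw [h4, resultant_C_mul_left]
  have h5 := res_prod (g.map (Int.castRingHom K)).roots (P.map (Int.castRingHom K))
    (g.natDegree - 1) (by rw [natDegree_map_eq_of_injective hinj]; exact hP)
  rw [hcard] at h5
  rw [h5]
  congr 2
  apply Multiset.map_congr rfl
  intro t _
  rw [eval_map, aeval_def]
  rfl

/-- bounds for a product of linear factors and its derivative at integral points -/
theorem prod_bound {l : ℕ} [Fact l.Prime] (m : Multiset (PadicAlgCl l)) (s : PadicAlgCl l)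
    (hs : ‖s‖ ≤ 1) (hm : ∀ t ∈ m, ‖t‖ ≤ 1) :
    ‖((m.map (fun t => X - C t)).prod).eval s‖ ≤ 1 ∧
      ‖(derivative (m.map (fun t => X - C t)).prod).eval s‖ ≤ 1 := by
  induction m using Multiset.induction_on with
  | empty => simp
  | cons t m ih =>
    obtain ⟨h1, h2⟩ := ih fun u hu => hm u (Multiset.mem_cons_of_mem hu)
    have ht : ‖s - t‖ ≤ 1 := by
      rw [sub_eq_add_neg]
      refine (IsUltrametricDist.norm_add_le_max _ _).trans (max_le hs ?_)
      rw [norm_neg]
      exact hm t (Multiset.mem_cons_self t m)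
    rw [Multiset.map_cons, Multiset.prod_cons]
    constructor
    · rw [eval_mul, eval_sub, eval_X, eval_C, norm_mul]
      exact mul_le_one₀ ht (norm_nonneg _) h1
    · rw [derivative_mul, derivative_sub, derivative_X, derivative_C, sub_zero, one_mul, eval_add,
        eval_mul, eval_sub, eval_X, eval_C]
      refine (IsUltrametricDist.norm_add_le_max _ _).trans (max_le h1 ?_)
      rw [norm_mul]
      exact mul_le_one₀ ht (norm_nonneg _) h2

theorem norm_int {l : ℕ} [Fact l.Prime] (z : ℤ) :
    ‖(z : PadicAlgCl l)‖ = ‖(z : ℚ_[l])‖ := by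
  have h : (z : PadicAlgCl l) = algebraMap ℚ_[l] (PadicAlgCl l) (z : ℚ_[l]) := by
    rw [map_intCast]
  rw [h]
  exact norm_algebraMap' _ _

theorem norm_int_lt {l : ℕ} [Fact l.Prime] (z : ℤ) :
    ‖(z : PadicAlgCl l)‖ < 1 ↔ (l : ℤ) ∣ z := by
  rw [norm_int]
  exact Padic.norm_intCast_lt_one_iff

theorem norm_int_le {l : ℕ} [Fact l.Prime] (z : ℤ) : ‖(z : PadicAlgCl l)‖ ≤ 1 := by
  rw [norm_int]
  exact Padic.norm_int_le_one z

/-- a product all of whose factors have norm one or the given value -/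
theorem prod_ite {α : Type*} (m : Multiset α) (c : ℝ) (p : α → Prop) [DecidablePred p]
    (hp : Multiset.card (m.filter p) = 1) :
    (m.map (fun t => if p t then c else 1)).prod = c := by
  have h : (m.map (fun t => if p t then c else 1)).prod = c ^ Multiset.card (m.filter p) := by
    clear hp
    induction m using Multiset.induction_on with
    | empty => simp
    | cons t m ih =>
      rw [Multiset.map_cons, Multiset.prod_cons, ih]
      by_cases ht : p t
      · rw [if_pos ht, Multiset.filter_cons_of_pos _ ht, Multiset.card_cons, pow_succ]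
        ring
      · rw [if_neg ht, Multiset.filter_cons_of_neg _ ht, one_mul]
  rw [h, hp, pow_one]

/-- roots are integral if the leading coefficient is a unit -/
theorem root_le {l : ℕ} [Fact l.Prime] (g : ℤ[X]) (hl : ¬ (l : ℤ) ∣ g.leadingCoeff)
    (hn : 0 < g.natDegree) (t : PadicAlgCl l) (ht : aeval t g = 0) : ‖t‖ ≤ 1 := by
  by_contra hc
  push Not at hc
  have hlc : ‖(g.leadingCoeff : PadicAlgCl l)‖ = 1 :=
    le_antisymm (norm_int_le _) (not_lt.1 fun h => hl ((norm_int_lt _).1 h))
  have h2 : (g.leadingCoeff : PadicAlgCl l) * t ^ g.natDegree = -∑ i ∈ Finset.range g.natDegree,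
      ((g.coeff i : ℤ) : PadicAlgCl l) * t ^ i := by
    rw [aeval_def, eval₂_eq_sum_range, Finset.sum_range_succ] at ht
    exact eq_neg_of_add_eq_zero_right ht
  have h3 : ‖(g.leadingCoeff : PadicAlgCl l) * t ^ g.natDegree‖ ≤ ‖t‖ ^ (g.natDegree - 1) := by
    rw [h2, norm_neg]
    refine IsUltrametricDist.norm_sum_le_of_forall_le_of_nonneg (by positivity) fun i hi => ?_
    rw [norm_mul, norm_pow]
    calc ‖((g.coeff i : ℤ) : PadicAlgCl l)‖ * ‖t‖ ^ i ≤ 1 * ‖t‖ ^ i :=
          mul_le_mul_of_nonneg_right (norm_int_le _) (by positivity)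
      _ ≤ ‖t‖ ^ (g.natDegree - 1) := by
          rw [one_mul]
          exact pow_le_pow_right₀ hc.le (by have := Finset.mem_range.1 hi; omega)
  rw [norm_mul, hlc, one_mul, norm_pow] at h3
  have h4 : ‖t‖ ^ (g.natDegree - 1) < ‖t‖ ^ g.natDegree := pow_lt_pow_right₀ hc (by omega)
  linarith

/-- exactly one root is near a simple root modulo `q` -/
theorem one_root {q : ℕ} [Fact q.Prime] (g : ℤ[X]) (hq : ¬ (q : ℤ) ∣ g.leadingCoeff)
    (hn : 0 < g.natDegree) (s : ℕ) (hs : (q : ℤ) ∣ g.eval (s : ℤ))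
    (hsq : Squarefree (g.map (Int.castRingHom (ZMod q)))) :
    Multiset.card ((g.map (Int.castRingHom (PadicAlgCl q))).roots.filter
      (fun t => ‖t - (s : PadicAlgCl q)‖ < 1)) = 1 := by
  classical
  have hinj : Function.Injective (Int.castRingHom (PadicAlgCl q)) := Int.cast_injective
  have hg0 : g ≠ 0 := by
    rintro rfl
    simp at hn
  have hG0 : g.map (Int.castRingHom (PadicAlgCl q)) ≠ 0 := by
    rw [Ne, Polynomial.map_eq_zero_iff hinj]
    exact hg0
  have hsplit : (g.map (Int.castRingHom (PadicAlgCl q))).Splits := IsAlgClosed.splits _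
  have hfac := hsplit.eq_prod_roots
  rw [leadingCoeff_map_of_injective hinj] at hfac
  obtain ⟨m, hm⟩ : ∃ m : Multiset (PadicAlgCl q),
    m = (g.map (Int.castRingHom (PadicAlgCl q))).roots := ⟨_, rfl⟩
  rw [← hm] at hfac ⊢
  have hroot : ∀ t ∈ m, ‖t‖ ≤ 1 := by
    intro t ht
    rw [hm, mem_roots hG0, IsRoot.def, eval_map] at ht
    exact root_le g hq hn t ht
  have hs1 : ‖(s : PadicAlgCl q)‖ ≤ 1 := by
    have h := norm_int_le (l := q) (s : ℤ)
    push_cast at h
    exact h
  have heval : ‖(((g.eval (s : ℤ)) : ℤ) : PadicAlgCl q)‖ < 1 := (norm_int_lt _).2 hs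
  have hevm : (((g.eval (s : ℤ)) : ℤ) : PadicAlgCl q) =
      (g.map (Int.castRingHom (PadicAlgCl q))).eval (s : PadicAlgCl q) := by
    have h := eval_map_apply (Int.castRingHom (PadicAlgCl q)) (p := g) (x := (s : ℤ))
    rw [map_natCast] at h
    rw [h]
    rfl
  have hdevm : (((g.derivative.eval (s : ℤ)) : ℤ) : PadicAlgCl q) =
      (derivative (g.map (Int.castRingHom (PadicAlgCl q)))).eval (s : PadicAlgCl q) := by
    rw [derivative_map]
    have h := eval_map_apply (Int.castRingHom (PadicAlgCl q)) (p := g.derivative) (x := (s : ℤ))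
    rw [map_natCast] at h
    rw [h]
    rfl
  have hlc : ‖(Int.castRingHom (PadicAlgCl q)) g.leadingCoeff‖ = 1 :=
    le_antisymm (norm_int_le _) (not_lt.1 fun h => hq ((norm_int_lt _).1 h))
  -- at least one
  have hge : ∃ t ∈ m, ‖t - (s : PadicAlgCl q)‖ < 1 := by
    by_contra hc
    push Not at hc
    have h1 : ∀ m' : Multiset (PadicAlgCl q), (∀ t ∈ m', 1 ≤ ‖t - (s : PadicAlgCl q)‖) →
        1 ≤ ‖((m'.map (fun t => X - C t)).prod).eval (s : PadicAlgCl q)‖ := by
      intro m'
      induction m' using Multiset.induction_on with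
      | empty => simp
      | cons t m' ih =>
        intro h
        rw [Multiset.map_cons, Multiset.prod_cons, eval_mul, eval_sub, eval_X, eval_C, norm_mul]
        have h2 := h t (Multiset.mem_cons_self t m')
        have h3 := ih fun u hu => h u (Multiset.mem_cons_of_mem hu)
        rw [norm_sub_rev]
        nlinarith [norm_nonneg (t - (s : PadicAlgCl q))]
    have h2 := h1 m hc
    rw [hevm, hfac, eval_mul, eval_C, norm_mul, hlc, one_mul] at heval
    linarith
  -- at most one
  obtain ⟨t, htm, hts⟩ := hge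
  obtain ⟨m1, hm1⟩ := Multiset.exists_cons_of_mem htm
  have hnone : ∀ u ∈ m1, ¬ ‖u - (s : PadicAlgCl q)‖ < 1 := by
    intro u hu hus
    obtain ⟨m2, hm2⟩ := Multiset.exists_cons_of_mem hu
    have hb := prod_bound m2 (s : PadicAlgCl q) hs1 (fun w hw => hroot w (by
      rw [hm1, hm2]
      exact Multiset.mem_cons_of_mem (Multiset.mem_cons_of_mem hw)))
    have hd : ‖(((g.derivative.eval (s : ℤ)) : ℤ) : PadicAlgCl q)‖ < 1 := by
      rw [hdevm, hfac, hm1, hm2, Multiset.map_cons, Multiset.map_cons, Multiset.prod_cons,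
        Multiset.prod_cons]
      simp only [derivative_mul, derivative_sub, derivative_X, derivative_C, sub_zero, one_mul,
        zero_mul, zero_add, eval_add, eval_mul, eval_sub, eval_X, eval_C]
      rw [norm_mul, hlc, one_mul]
      rw [norm_sub_rev] at hts hus
      refine (IsUltrametricDist.norm_add_le_max _ _).trans_lt (max_lt ?_ ?_)
      · rw [norm_mul]
        calc _ ≤ ‖(s : PadicAlgCl q) - u‖ * 1 := mul_le_mul_of_nonneg_left hb.1 (norm_nonneg _)
          _ < 1 := by rw [mul_one]; exact hus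
      · rw [norm_mul]
        calc _ ≤ ‖(s : PadicAlgCl q) - t‖ * 1 := mul_le_mul_of_nonneg_left ?_ (norm_nonneg _)
          _ < 1 := by rw [mul_one]; exact hts
        refine (IsUltrametricDist.norm_add_le_max _ _).trans (max_le hb.1 ?_)
        rw [norm_mul]
        exact mul_le_one₀ hus.le (norm_nonneg _) hb.2
    have hdvd : (q : ℤ) ∣ g.derivative.eval (s : ℤ) := (norm_int_lt _).1 hd
    have hGq0 : g.map (Int.castRingHom (ZMod q)) ≠ 0 := by
      intro h0
      rw [h0] at hsq
      exact not_squarefree_zero hsq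
    have hz : ∀ f : ℤ[X], (q : ℤ) ∣ f.eval (s : ℤ) →
        (f.map (Int.castRingHom (ZMod q))).IsRoot (s : ZMod q) := by
      intro f hf
      rw [IsRoot.def]
      have h := eval_map_apply (Int.castRingHom (ZMod q)) (p := f) (x := (s : ℤ))
      rw [map_natCast] at h
      rw [h]
      exact (ZMod.intCast_zmod_eq_zero_iff_dvd _ _).2 hf
    have hmult : 1 < (g.map (Int.castRingHom (ZMod q))).rootMultiplicity (s : ZMod q) := by
      rw [one_lt_rootMultiplicity_iff_isRoot hGq0]
      refine ⟨hz g hs, ?_⟩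
      rw [derivative_map]
      exact hz _ hdvd
    have hdiv : (X - C (s : ZMod q)) ^ 2 ∣ g.map (Int.castRingHom (ZMod q)) :=
      (pow_dvd_pow _ hmult).trans (pow_rootMultiplicity_dvd _ _)
    rw [pow_two] at hdiv
    have hunit := hsq _ hdiv
    exact not_isUnit_X_sub_C _ hunit
  rw [hm1, Multiset.filter_cons_of_pos (p := fun t => ‖t - (s : PadicAlgCl q)‖ < 1) _ hts,
    Multiset.card_cons, Multiset.filter_eq_nil.2 hnone, Multiset.card_zero]

/-- size of the values -/
theorem abs_bound (g : ℤ[X]) (C0 : ℝ) (hn : 0 < g.natDegree) : ∃ B : ℝ, 0 ≤ B ∧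
    ∀ (q : ℕ) (P : ℤ[X]), 0 < q → P.natDegree < g.natDegree →
    (∀ k, |(P.coeff k : ℝ)| ≤ C0 * (q : ℝ) ^ ((1 : ℝ) / g.natDegree)) →
    |((resultant g P g.natDegree (g.natDegree - 1) : ℤ) : ℝ)| ≤ B * q := by
  obtain ⟨m, hm⟩ : ∃ m : Multiset ℂ, m = (g.map (Int.castRingHom ℂ)).roots := ⟨_, rfl⟩
  obtain ⟨W, hW⟩ : ∃ W : ℂ → ℝ, W = fun t => |C0| * ∑ k ∈ Finset.range g.natDegree, ‖t‖ ^ k :=
    ⟨_, rfl⟩
  have hW0 : ∀ t, 0 ≤ W t := by
    intro t
    rw [hW]
    positivity
  have hinj : Function.Injective (Int.castRingHom ℂ) := Int.cast_injective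
  have hsplit : (g.map (Int.castRingHom ℂ)).Splits := IsAlgClosed.splits _
  have hcard : Multiset.card m = g.natDegree := by
    rw [hm, ← hsplit.natDegree_eq_card_roots, natDegree_map_eq_of_injective hinj]
  refine ⟨|(g.leadingCoeff : ℝ)| ^ (g.natDegree - 1) * (m.map W).prod, ?_, ?_⟩
  · refine mul_nonneg (by positivity) (Multiset.prod_nonneg ?_)
    intro a ha
    obtain ⟨t, _, rfl⟩ := Multiset.mem_map.1 ha
    exact hW0 t
  · intro q P hq hP hc
    have h1 := res_eq (K := ℂ) g P hsplit (by omega)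
    rw [← hm] at h1
    obtain ⟨Q, hQ⟩ : ∃ Q : ℝ, Q = (q : ℝ) ^ ((1 : ℝ) / g.natDegree) := ⟨_, rfl⟩
    have hQ0 : 0 ≤ Q := by
      rw [hQ]
      positivity
    have hQn : Q ^ g.natDegree = q := by
      rw [hQ, one_div]
      exact Real.rpow_inv_natCast_pow (Nat.cast_nonneg q) hn.ne'
    have hval : ∀ t : ℂ, ‖aeval t P‖ ≤ W t * Q := by
      intro t
      rw [aeval_eq_sum_range' hP, hW]
      simp only
      rw [Finset.mul_sum, Finset.sum_mul]
      refine (norm_sum_le _ _).trans (Finset.sum_le_sum fun k _ => ?_)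
      rw [zsmul_eq_mul, norm_mul, norm_pow, Complex.norm_intCast]
      have h2 : |(P.coeff k : ℝ)| ≤ |C0| * Q := by
        refine (hc k).trans ?_
        rw [← hQ]
        exact mul_le_mul_of_nonneg_right (le_abs_self _) hQ0
      calc |(P.coeff k : ℝ)| * ‖t‖ ^ k ≤ (|C0| * Q) * ‖t‖ ^ k :=
            mul_le_mul_of_nonneg_right h2 (by positivity)
        _ = |C0| * ‖t‖ ^ k * Q := by ring
    have hprod : ∀ m' : Multiset ℂ, ‖(m'.map (fun t => aeval t P)).prod‖ ≤
        (m'.map W).prod * Q ^ Multiset.card m' := by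
      intro m'
      induction m' using Multiset.induction_on with
      | empty => simp
      | cons t m' ih =>
        rw [Multiset.map_cons, Multiset.prod_cons, Multiset.map_cons, Multiset.prod_cons,
          Multiset.card_cons, norm_mul, pow_succ]
        calc ‖aeval t P‖ * ‖(m'.map (fun t => aeval t P)).prod‖
            ≤ (W t * Q) * ((m'.map W).prod * Q ^ Multiset.card m') :=
              mul_le_mul (hval t) ih (norm_nonneg _) (mul_nonneg (hW0 t) hQ0)
          _ = _ := by ring
    have h2 : |((resultant g P g.natDegree (g.natDegree - 1) : ℤ) : ℝ)| =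
        ‖((resultant g P g.natDegree (g.natDegree - 1) : ℤ) : ℂ)‖ := by
      rw [Complex.norm_intCast]
    rw [h2, h1, norm_mul, norm_pow, Complex.norm_intCast]
    have h3 := hprod m
    rw [hcard, hQn] at h3
    calc |(g.leadingCoeff : ℝ)| ^ (g.natDegree - 1) * ‖(m.map (fun t => aeval t P)).prod‖
        ≤ |(g.leadingCoeff : ℝ)| ^ (g.natDegree - 1) * ((m.map W).prod * q) :=
          mul_le_mul_of_nonneg_left h3 (by positivity)
      _ = _ := by ring

/-- the norm of the resultant -/
theorem res_norm {l : ℕ} [Fact l.Prime] (g P : ℤ[X]) (hl : ¬ (l : ℤ) ∣ g.leadingCoeff)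
    (hP : P.natDegree ≤ g.natDegree - 1) (f : PadicAlgCl l → ℝ)
    (hf : ∀ t : PadicAlgCl l, aeval t g = 0 → ‖aeval t P‖ = f t) (hg0 : g ≠ 0) :
    ‖((resultant g P g.natDegree (g.natDegree - 1) : ℤ) : PadicAlgCl l)‖ =
      ((g.map (Int.castRingHom (PadicAlgCl l))).roots.map f).prod := by
  have hinj : Function.Injective (Int.castRingHom (PadicAlgCl l)) := Int.cast_injective
  have hG0 : g.map (Int.castRingHom (PadicAlgCl l)) ≠ 0 := by
    rw [Ne, Polynomial.map_eq_zero_iff hinj]
    exact hg0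
  have hsplit : (g.map (Int.castRingHom (PadicAlgCl l))).Splits := IsAlgClosed.splits _
  rw [res_eq g P hsplit hP, norm_mul, norm_pow]
  have hlc : ‖(g.leadingCoeff : PadicAlgCl l)‖ = 1 :=
    le_antisymm (norm_int_le _) (not_lt.1 fun h => hl ((norm_int_lt _).1 h))
  rw [hlc, one_pow, one_mul]
  have h1 : ∀ m : Multiset (PadicAlgCl l), ‖(m.map (fun t => aeval t P)).prod‖ =
      (m.map (fun t => ‖aeval t P‖)).prod := by
    intro m
    induction m using Multiset.induction_on with
    | empty => simp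
    | cons t m ih =>
      rw [Multiset.map_cons, Multiset.prod_cons, Multiset.map_cons, Multiset.prod_cons, norm_mul, ih]
  refine (h1 _).trans ?_
  congr 1
  apply Multiset.map_congr rfl
  intro t ht
  rw [mem_roots hG0, IsRoot.def, eval_map] at ht
  exact hf t ht

theorem pol_coeff {n : ℕ} (P : ℤ[X]) (hP : P.natDegree < n) :
    pol (fun k : Fin n => P.coeff k) = P := by
  unfold pol
  rw [Fin.sum_univ_eq_sum_range (fun k => C (P.coeff k) * X ^ k) n]
  simp only [C_mul_X_pow_eq_monomial]
  exact (P.as_sum_range' n hP).symm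

end NU_

open NU_ in
theorem p_NU : T_NU := by
  intro g hirr N C0 hN hlcN
  have hinjQ : Function.Injective (Int.castRingHom ℚ) := Int.cast_injective
  have hn : 0 < g.natDegree := by
    have h := hirr.natDegree_pos
    rwa [natDegree_map_eq_of_injective hinjQ] at h
  have hg0 : g ≠ 0 := by
    rintro rfl
    simp at hn
  obtain ⟨B, hB0, hB⟩ := abs_bound g C0 hn
  refine ⟨⌈B⌉₊, ?_⟩
  intro q s P hq hqN hsq hdiv hsf hPi hPdeg hcoef
  have : Fact q.Prime := ⟨hq⟩
  have hres : res g (fun k => P.coeff k) = resultant g P g.natDegree (g.natDegree - 1) := by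
    unfold res
    rw [pol_coeff P hPdeg]
  have hlc : ∀ l : ℕ, l.Prime → ¬ l ∣ N → ¬ (l : ℤ) ∣ g.leadingCoeff := by
    intro l _ hlN h
    exact hlN (by exact_mod_cast h.trans hlcN)
  obtain ⟨r, hr⟩ : ∃ r : ℤ, r = resultant g P g.natDegree (g.natDegree - 1) := ⟨_, rfl⟩
  -- the norm at q
  have hnq : ‖(r : PadicAlgCl q)‖ = (q : ℝ)⁻¹ := by
    rw [hr, res_norm g P (hlc q hq hqN) (by omega)
      (fun t => if ‖t - (s : PadicAlgCl q)‖ < 1 then (q : ℝ)⁻¹ else 1) ?_ hg0]
    · exact prod_ite _ _ _ (one_root g (hlc q hq hqN) hn s hdiv hsf)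
    · intro t ht
      rw [hPi q hqN t ht]
      simp
  have hnl : ∀ l : ℕ, l.Prime → ¬ l ∣ N → l ≠ q → ¬ (l : ℤ) ∣ r := by
    intro l hl hlN hlq hdvd
    have : Fact l.Prime := ⟨hl⟩
    have h1 : ‖(r : PadicAlgCl l)‖ = 1 := by
      rw [hr, res_norm g P (hlc l hl hlN) (by omega) (fun t => 1) ?_ hg0]
      · simp
      · intro t ht
        rw [hPi l hlN t ht, if_neg]
        intro h
        exact hlq h.1
    have h2 := (norm_int_lt (l := l) r).2 hdvd
    linarith
  have hqr : (q : ℤ) ∣ r := by
    rw [← norm_int_lt, hnq]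
    exact inv_lt_one_of_one_lt₀ (by exact_mod_cast hq.one_lt)
  have hnu : nu g q P = r / q := by
    unfold nu
    rw [hres, ← hr]
  have hmul : r = q * nu g q P := by
    rw [hnu, Int.mul_ediv_cancel' hqr]
  refine ⟨by rw [hres, ← hr]; exact hmul, ?_, ?_⟩
  · have h1 := hB q P hq.pos hPdeg hcoef
    rw [← hr, hmul] at h1
    push_cast at h1
    rw [abs_mul, Nat.abs_cast] at h1
    have hq0 : (0 : ℝ) < q := by exact_mod_cast hq.pos
    have h2 : |(nu g q P : ℝ)| ≤ B := by
      rw [mul_comm B] at h1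
      exact le_of_mul_le_mul_left h1 hq0
    have h3 : |(nu g q P : ℝ)| ≤ (⌈B⌉₊ : ℝ) := h2.trans (Nat.le_ceil B)
    exact_mod_cast h3
  · intro p hp hpN hpd
    by_cases hpq : p = q
    · subst hpq
      have h1 : ‖((nu g p P : ℤ) : PadicAlgCl p)‖ < 1 := (norm_int_lt _).2 hpd
      have h2 : ‖(r : PadicAlgCl p)‖ = ‖((p : ℤ) : PadicAlgCl p)‖ *
          ‖((nu g p P : ℤ) : PadicAlgCl p)‖ := by
        rw [← norm_mul, ← Int.cast_mul, ← hmul]
      have h3 : ‖((p : ℤ) : PadicAlgCl p)‖ = (p : ℝ)⁻¹ := by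
        rw [norm_int]
        push_cast
        exact Padic.norm_p
      rw [hnq, h3] at h2
      have hp0 : (0 : ℝ) < (p : ℝ)⁻¹ := inv_pos.2 (by exact_mod_cast hp.pos)
      have h4 : ‖((nu g p P : ℤ) : PadicAlgCl p)‖ = 1 := by
        have := mul_left_cancel₀ hp0.ne' (h2.symm.trans (mul_one _).symm)
        exact this
      linarith
    · apply hnl p hp hpN hpq
      rw [hmul]
      exact Dvd.dvd.mul_left hpd _

end Pool.Agent.QTx
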