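import Pool.Agent.QTx.Targets

/-!
# The class of `(x - a)(x - b)`
-/

open Polynomial NumberField
open Pool.Agent.QTw (IsFunctionField IsCovering)

namespace Pool.Agent.QTx

namespace PAIR_

/-- A root of `f` is algebraic. -/
theorem isAlgebraic_of_root {L : Type} [Field L] [CharZero L] {f : ℤ[X]} {a : L} (hf : f ≠ 0)
    (ha : aeval a f = 0) : IsAlgebraic ℚ a := by
  refine ⟨f.map (Int.castRingHom ℚ), ?_, ?_⟩
  · intro h
    apply hf
    apply Polynomial.map_injective (Int.castRingHom ℚ) (RingHom.injective_int _)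
    rw [h, Polynomial.map_zero]
  · have h1 : aeval a (f.map (algebraMap ℤ ℚ)) = aeval a f := aeval_map_algebraMap ℚ a f
    have h2 : (algebraMap ℤ ℚ) = Int.castRingHom ℚ := rfl
    rw [h2] at h1
    rw [h1, ha]

theorem ne_zero_of_squarefree {f : ℤ[X]} (h : Squarefree (f.map (Int.castRingHom ℚ))) :
    f ≠ 0 := by
  rintro rfl
  rw [Polynomial.map_zero] at h
  exact not_squarefree_zero h

theorem core (h2 : T_DESC2) {E Ω : Type} [Field E] [CharZero E] [Field Ω] [CharZero Ω]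
    [Algebra E Ω] [Algebra.IsAlgebraic E Ω] [IsAlgClosed Ω] (x : E) (a b γ : Ω)
    (ha : algebraMap E Ω x - a ≠ 0) (hb : algebraMap E Ω x - b ≠ 0)
    (hγ : γ ∈ IntermediateField.adjoin (algebraicClosure ℚ Ω) (Set.range (algebraMap E Ω)))
    (hγ2 : γ ^ 2 = (algebraMap E Ω x - a) * (algebraMap E Ω x - b)) :
    ∃ δ : Ω, δ ∈ IntermediateField.adjoin E ({a, b} : Set Ω) ∧ δ ≠ 0 ∧ IsAlgebraic ℚ δ ∧
      ∃ β : Ω, β ∈ IntermediateField.adjoin E ({a, b} : Set Ω) ∧
      (algebraMap E Ω x - a) * (algebraMap E Ω x - b) = δ * β ^ 2 := by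
  have haE : a ∈ IntermediateField.adjoin E ({a, b} : Set Ω) :=
    IntermediateField.subset_adjoin E _ (by simp)
  have hbE : b ∈ IntermediateField.adjoin E ({a, b} : Set Ω) :=
    IntermediateField.subset_adjoin E _ (by simp)
  generalize IntermediateField.adjoin E ({a, b} : Set Ω) = E1 at haE hbE ⊢
  obtain ⟨b1, hb1v⟩ : ∃ b1 : E1, algebraMap E1 Ω b1 =
      (algebraMap E Ω x - a) * (algebraMap E Ω x - b) := by
    refine ⟨(algebraMap E E1 x - ⟨a, haE⟩) * (algebraMap E E1 x - ⟨b, hbE⟩), ?_⟩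
    rw [map_mul, map_sub, map_sub, ← IsScalarTower.algebraMap_apply E E1 Ω]
    rfl
  have hb10 : b1 ≠ 0 := by
    intro h
    rw [h, map_zero] at hb1v
    exact mul_ne_zero ha hb hb1v.symm
  have : CharZero E1 := charZero_of_injective_algebraMap (algebraMap E E1).injective
  have : Algebra.IsAlgebraic E1 Ω := Algebra.IsAlgebraic.tower_top (K := E) E1
  have hγ' : γ ∈ IntermediateField.adjoin (algebraicClosure ℚ Ω)
      (Set.range (algebraMap E1 Ω)) := by
    refine IntermediateField.adjoin.mono _ _ _ ?_ hγ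
    rintro _ ⟨e, rfl⟩
    exact ⟨algebraMap E E1 e, (IsScalarTower.algebraMap_apply E E1 Ω e).symm⟩
  obtain ⟨δ, hδ0, hδA, β, hβ⟩ := h2 E1 Ω b1 γ hb10 hγ' (by rw [hγ2, hb1v])
  refine ⟨(δ : Ω), δ.2, ?_, ?_, (β : Ω), β.2, ?_⟩
  · intro h
    exact hδ0 (Subtype.ext h)
  · obtain ⟨p, hp0, hp⟩ := hδA
    refine ⟨p, hp0, ?_⟩
    have h4 := Polynomial.aeval_algHom_apply ((algebraMap E1 Ω).toRatAlgHom) δ p
    rw [hp, map_zero] at h4
    exact h4
  · rw [← hb1v, hβ, map_mul, map_pow]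
    rfl

end PAIR_

open PAIR_

theorem p_PAIR (h1 : T_SQRT2) (h2 : T_DESC2) (h3 : T_CONST2) : T_PAIR := by
  intro F E _ _ _ _ _ x y f d a b hF hC hd hsq hev ha hb hab
  have hf0 := ne_zero_of_squarefree hsq
  have haA : IsAlgebraic ℚ a := isAlgebraic_of_root hf0 ha
  have hbA : IsAlgebraic ℚ b := isAlgebraic_of_root hf0 hb
  obtain ⟨γ, hγ, hγ2⟩ := h1 F E x y f d a b hF hC hd hsq hev ha hb hab
  have hXne : ∀ c : AlgebraicClosure E, aeval c f = 0 →
      algebraMap E (AlgebraicClosure E) (algebraMap F E x) - c ≠ 0 := by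
    intro c hc h
    have h4 : algebraMap E (AlgebraicClosure E) (algebraMap F E x) = c := sub_eq_zero.1 h
    apply hF.transcendental
    have h5 : aeval x f = 0 := by
      have h6 : aeval c f =
          (algebraMap E (AlgebraicClosure E)).comp (algebraMap F E) (aeval x f) := by
        rw [← h4, aeval_def, aeval_def, Polynomial.hom_eval₂]
        congr 1
        exact RingHom.ext_int _ _
      rw [hc] at h6
      exact (map_eq_zero_iff _ (RingHom.injective _)).1 h6.symm
    exact isAlgebraic_of_root hf0 h5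
  obtain ⟨δ, hδ, hδ0, hδA, β, hβ, he⟩ := core h2 (algebraMap F E x) a b γ (hXne a ha) (hXne b hb)
    hγ hγ2
  have hS : ∀ c ∈ ({a, b} : Set (AlgebraicClosure E)), IsAlgebraic ℚ c := by
    intro c hc
    simp only [Set.mem_insert_iff, Set.mem_singleton_iff] at hc
    rcases hc with rfl | rfl
    · exact haA
    · exact hbA
  exact ⟨δ, h3 E hC.constants {a, b} (by simp) hS δ hδ hδA, hδ0, β, hβ, he⟩

end Pool.Agent.QTx
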