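import Pool.Agent.QTx.Targets

set_option autoImplicit false

/-!
# PRIME: the prime ideal of a root modulo `q`
-/

open Polynomial NumberField

namespace Pool.Agent.QTx

namespace PRIME_

section norms

variable {l : ℕ} [Fact l.Prime]

/-- the closed unit ball -/
def OO (l : ℕ) [Fact l.Prime] : Subring (PadicAlgCl l) where
  carrier := {x | ‖x‖ ≤ 1}
  mul_mem' := by
    intro a b ha hb
    show ‖a * b‖ ≤ 1
    rw [norm_mul]
    exact mul_le_one₀ ha (norm_nonneg _) hb
  one_mem' := by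
    show ‖(1 : PadicAlgCl l)‖ ≤ 1
    rw [norm_one]
  add_mem' := by
    intro a b ha hb
    exact (IsUltrametricDist.norm_add_le_max a b).trans (max_le ha hb)
  zero_mem' := by
    show ‖(0 : PadicAlgCl l)‖ ≤ 1
    rw [norm_zero]
    exact zero_le_one
  neg_mem' := by
    intro a ha
    show ‖-a‖ ≤ 1
    rw [norm_neg]
    exact ha

lemma norm_int (n : ℤ) : ‖(n : PadicAlgCl l)‖ = ‖(n : ℚ_[l])‖ := by
  rw [← map_intCast (algebraMap ℚ_[l] (PadicAlgCl l)), norm_algebraMap']

lemma norm_int_le (n : ℤ) : ‖(n : PadicAlgCl l)‖ ≤ 1 := by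
  rw [norm_int]
  exact Padic.norm_int_le_one n

lemma norm_int_one {n : ℤ} (h : ¬ (l : ℤ) ∣ n) : ‖(n : PadicAlgCl l)‖ = 1 := by
  refine le_antisymm (norm_int_le n) ?_
  rw [norm_int]
  by_contra h1
  exact h (Padic.norm_intCast_lt_one_iff.mp (not_le.mp h1))

lemma norm_int_lt {n : ℤ} (h : (l : ℤ) ∣ n) : ‖(n : PadicAlgCl l)‖ < 1 := by
  rw [norm_int]
  exact Padic.norm_intCast_lt_one_iff.mpr h

lemma norm_aeval_le (P : ℤ[X]) {x : PadicAlgCl l} (hx : ‖x‖ ≤ 1) : ‖aeval x P‖ ≤ 1 := by
  have hx' : x ∈ OO l := hx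
  have : aeval x P ∈ OO l := by
    rw [aeval_eq_sum_range]
    refine Subring.sum_mem (OO l) fun i _ => ?_
    rw [zsmul_eq_mul]
    exact (OO l).mul_mem (norm_int_le _) ((OO l).pow_mem hx' i)
  exact this

/-- `g'` has norm one at the roots modulo the maximal ideal -/
lemma der_one {g u v : ℤ[X]} {R : ℤ} (h : u * g + v * derivative g = C R) (hR : ¬ (l : ℤ) ∣ R)
    {x : PadicAlgCl l} (hx : ‖x‖ ≤ 1) (hg : ‖aeval x g‖ < 1) :
    ‖aeval x (derivative g)‖ = 1 := by
  refine le_antisymm (norm_aeval_le _ hx) ?_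
  by_contra h1
  rw [not_le] at h1
  have h2 := congrArg (fun P => aeval x P) h
  simp only [map_add, map_mul] at h2
  have h3 : aeval x (C R : ℤ[X]) = (R : PadicAlgCl l) := by
    rw [aeval_C]
    rfl
  rw [h3] at h2
  have h4 := norm_int_one (l := l) hR
  rw [← h2] at h4
  have h5 : ‖aeval x u * aeval x g‖ < 1 := by
    rw [norm_mul]
    exact mul_lt_one_of_nonneg_of_lt_one_right (norm_aeval_le u hx) (norm_nonneg _) hg
  have h6 : ‖aeval x v * aeval x (derivative g)‖ < 1 := by
    rw [norm_mul]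
    exact mul_lt_one_of_nonneg_of_lt_one_right (norm_aeval_le v hx) (norm_nonneg _) h1
  have h7 := (IsUltrametricDist.norm_add_le_max (aeval x u * aeval x g)
    (aeval x v * aeval x (derivative g))).trans_lt (max_lt h5 h6)
  rw [h4] at h7
  exact lt_irrefl _ h7

/-- close simple roots are equal -/
lemma root_unique {g : ℤ[X]} {x y : PadicAlgCl l} (hx : ‖x‖ ≤ 1) (hy : ‖y‖ ≤ 1)
    (hxy : ‖y - x‖ < 1) (hgx : aeval x g = 0) (hgy : aeval y g = 0)
    (hd : ‖aeval x (derivative g)‖ = 1) : y = x := by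
  by_contra hne
  set G : (OO l)[X] := g.map (Int.castRingHom (OO l)) with hG
  let X' : OO l := ⟨x, hx⟩
  let Y' : OO l := ⟨y, hy⟩
  obtain ⟨k, hk⟩ := G.binomExpansion X' (Y' - X')
  have e1 : ∀ (z : OO l) (P : ℤ[X]), (((P.map (Int.castRingHom (OO l))).eval z : OO l) :
      PadicAlgCl l) = aeval (z : PadicAlgCl l) P := by
    intro z P
    rw [eval_map]
    have := hom_eval₂ P (Int.castRingHom (OO l)) (OO l).subtype z
    refine this.trans ?_
    rw [aeval_def]
    congr 1
  have e2 : X' + (Y' - X') = Y' := add_sub_cancel _ _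
  rw [e2, derivative_map] at hk
  have hk2 := congrArg (fun z : OO l => (z : PadicAlgCl l)) hk
  simp only [Subring.coe_add, Subring.coe_mul, AddSubgroupClass.coe_sub, Subring.coe_pow] at hk2
  rw [e1, e1, e1] at hk2
  have hX : (X' : PadicAlgCl l) = x := rfl
  have hY : (Y' : PadicAlgCl l) = y := rfl
  rw [hX, hY, hgx, hgy, zero_add] at hk2
  have h3 : (y - x) * (aeval x (derivative g) + k * (y - x)) = 0 := by
    rw [hk2]
    ring
  have h4 : aeval x (derivative g) = -(k * (y - x)) := by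
    rcases mul_eq_zero.mp h3 with h | h
    · exact absurd (sub_eq_zero.mp h) hne
    · exact eq_neg_of_add_eq_zero_left h
  rw [h4, norm_neg, norm_mul] at hd
  have h5 : ‖(k : PadicAlgCl l)‖ * ‖y - x‖ < 1 :=
    mul_lt_one_of_nonneg_of_lt_one_right k.2 (norm_nonneg _) hxy
  rw [hd] at h5
  exact lt_irrefl _ h5

end norms

/-- a Bezout relation over the integers -/
lemma bezout {g : ℤ[X]} (hirr : Irreducible (g.map (Int.castRingHom ℚ))) :
    ∃ (u v : ℤ[X]) (R : ℤ), R ≠ 0 ∧ u * g + v * derivative g = C R := by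
  have hsep : (g.map (Int.castRingHom ℚ)).Separable := hirr.separable
  obtain ⟨a, b, hab⟩ := hsep
  obtain ⟨d, hd, hA⟩ := IsLocalization.integerNormalization_spec (nonZeroDivisors ℤ) a
  obtain ⟨e, he, hB⟩ := IsLocalization.integerNormalization_spec (nonZeroDivisors ℤ) b
  set A := IsLocalization.integerNormalization (nonZeroDivisors ℤ) a with hAdef
  set B := IsLocalization.integerNormalization (nonZeroDivisors ℤ) b with hBdef
  have hd0 : d ≠ 0 := nonZeroDivisors.ne_zero hd
  have he0 : e ≠ 0 := nonZeroDivisors.ne_zero he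
  refine ⟨C e * A, C d * B, d * e, mul_ne_zero hd0 he0, ?_⟩
  apply Polynomial.map_injective (Int.castRingHom ℚ) Int.cast_injective
  have hA' : A.map (Int.castRingHom ℚ) = C (d : ℚ) * a := by
    refine hA.trans ?_
    ext n
    simp
  have hB' : B.map (Int.castRingHom ℚ) = C (e : ℚ) * b := by
    refine hB.trans ?_
    ext n
    simp
  rw [derivative_map] at hab
  simp only [Polynomial.map_add, Polynomial.map_mul, Polynomial.map_C, hA', hB']
  simp only [eq_intCast, Int.cast_mul, C_mul]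
  linear_combination (C (d : ℚ) * C (e : ℚ)) * hab

/-- two embeddings agree if they agree at a generator -/
lemma emb_ext {K L : Type} [Field K] [CharZero K] [Field L] [CharZero L] {θ : K}
    (hθ : IntermediateField.adjoin ℚ {θ} = ⊤) (j j' : K →+* L) (h : j θ = j' θ) : j = j' := by
  ext x
  have hx : x ∈ IntermediateField.adjoin ℚ {θ} := by
    rw [hθ]
    exact IntermediateField.mem_top
  induction hx using IntermediateField.adjoin_induction with
  | mem y hy =>
    rw [Set.mem_singleton_iff] at hy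
    rw [hy]
    exact h
  | algebraMap y =>
    rw [eq_ratCast, map_ratCast, map_ratCast]
  | add y z _ _ h1 h2 => rw [map_add, map_add, h1, h2]
  | inv y _ h1 => rw [map_inv₀, map_inv₀, h1]
  | mul y z _ _ h1 h2 => rw [map_mul, map_mul, h1, h2]

/-- the embedding given by a root -/
lemma exists_emb {K L : Type} [Field K] [CharZero K] [Field L] [CharZero L] {θ : K} {g : ℤ[X]}
    (hirr : Irreducible (g.map (Int.castRingHom ℚ))) (hg : aeval θ g = 0)
    (hθ : IntermediateField.adjoin ℚ {θ} = ⊤) (t : L) (ht : aeval t g = 0) :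
    ∃ j : K →+* L, j θ = t := by
  have hg' : aeval θ (g.map (Int.castRingHom ℚ)) = 0 := by
    have := aeval_map_algebraMap ℚ θ g
    exact this.trans hg
  have ht' : aeval t (g.map (Int.castRingHom ℚ)) = 0 := by
    have := aeval_map_algebraMap ℚ t g
    exact this.trans ht
  have hint : IsIntegral ℚ θ := by
    rw [← isAlgebraic_iff_isIntegral]
    exact ⟨_, hirr.ne_zero, hg'⟩
  have hmin := minpoly.eq_of_irreducible hirr hg'
  have ht2 : aeval t (minpoly ℚ θ) = 0 := by
    rw [← hmin, map_mul, ht', zero_mul]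
  have ht3 := ht2
  rw [← IntermediateField.minpoly_gen ℚ θ, ← IntermediateField.adjoin.powerBasis_gen hint] at ht3
  let φ := (IntermediateField.adjoin.powerBasis hint).lift t ht3
  have hmem : ∀ x : K, x ∈ IntermediateField.adjoin ℚ {θ} := by
    intro x
    rw [hθ]
    exact IntermediateField.mem_top
  let ψ : K →+* IntermediateField.adjoin ℚ {θ} :=
    { toFun := fun x => ⟨x, hmem x⟩
      map_one' := rfl
      map_mul' := fun _ _ => rfl
      map_zero' := rfl
      map_add' := fun _ _ => rfl }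
  refine ⟨(φ.toRingHom).comp ψ, ?_⟩
  have h1 : ψ θ = (IntermediateField.adjoin.powerBasis hint).gen := by
    rw [IntermediateField.adjoin.powerBasis_gen]
    rfl
  show φ (ψ θ) = t
  rw [h1]
  exact (IntermediateField.adjoin.powerBasis hint).lift_gen t ht3

/-- the homomorphism to the residue field -/
lemma exists_res {K : Type} [Field K] {q : ℕ} [Fact q.Prime] (j1 : K →+* ℚ_[q])
    (hint : ∀ z : 𝓞 K, ‖j1 (z : K)‖ ≤ 1) :
    ∃ ψ : 𝓞 K →+* ZMod q, Function.Surjective ψ ∧ ∀ z : 𝓞 K, ψ z = 0 ↔ ‖j1 (z : K)‖ < 1 := by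
  let φ : 𝓞 K →+* ℤ_[q] :=
    { toFun := fun z => ⟨j1 (z : K), hint z⟩
      map_one' := Subtype.ext (by simp)
      map_mul' := fun a b => Subtype.ext (by simp)
      map_zero' := Subtype.ext (by simp)
      map_add' := fun a b => Subtype.ext (by simp) }
  refine ⟨PadicInt.toZMod.comp φ, ZMod.ringHom_surjective _, fun z => ?_⟩
  have h1 : PadicInt.toZMod.comp φ z = 0 ↔ φ z ∈ RingHom.ker (PadicInt.toZMod (p := q)) :=
    Iff.rfl
  rw [h1, PadicInt.ker_toZMod, IsLocalRing.mem_maximalIdeal, PadicInt.mem_nonunits]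
  rfl

end PRIME_

open PRIME_ in
theorem p_PRIME (h1 : T_EMBQ) : T_PRIME := by
  intro K _ _ θ g hirr hg hθ
  obtain ⟨u, v, R, hR, hb⟩ := bezout hirr
  have hlc : g.leadingCoeff ≠ 0 := by
    rw [Ne, leadingCoeff_eq_zero]
    rintro rfl
    rw [Polynomial.map_zero] at hirr
    exact hirr.ne_zero rfl
  refine ⟨(g.leadingCoeff * R).natAbs, Int.natAbs_pos.mpr (mul_ne_zero hlc hR), ?_⟩
  have hN : ∀ l : ℕ, ¬ l ∣ (g.leadingCoeff * R).natAbs →
      ¬ (l : ℤ) ∣ g.leadingCoeff ∧ ¬ (l : ℤ) ∣ R := by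
    intro l hl
    rw [← Int.natCast_dvd] at hl
    exact ⟨fun h => hl (h.mul_right _), fun h => hl (h.mul_left _)⟩
  intro q s hq hqN hs hqs
  haveI : Fact q.Prime := ⟨hq⟩
  obtain ⟨hqlc, hqR⟩ := hN q hqN
  -- Hensel
  have hsn : ‖((s : ℕ) : PadicAlgCl q)‖ ≤ 1 := by
    have := norm_int_le (l := q) (s : ℤ)
    simpa using this
  have hgs : ‖aeval ((s : ℕ) : PadicAlgCl q) g‖ < 1 := by
    have e : aeval ((s : ℕ) : PadicAlgCl q) g = ((g.eval (s : ℤ) : ℤ) : PadicAlgCl q) := by
      have := aeval_algebraMap_apply (PadicAlgCl q) (s : ℤ) g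
      simpa using this
    rw [e]
    exact norm_int_lt hqs
  have hds := der_one hb hqR hsn hgs
  have tr : ∀ (x : ℤ_[q]) (P : ℤ[X]), ‖aeval x P‖ =
      ‖aeval (algebraMap ℚ_[q] (PadicAlgCl q) (x : ℚ_[q])) P‖ := by
    intro x P
    rw [aeval_algebraMap_apply, norm_algebraMap']
    have : aeval (x : ℚ_[q]) P = ((aeval x P : ℤ_[q]) : ℚ_[q]) :=
      aeval_algebraMap_apply ℚ_[q] x P
    rw [this]
    rfl
  have hscast : algebraMap ℚ_[q] (PadicAlgCl q) (((s : ℕ) : ℤ_[q]) : ℚ_[q]) =
      ((s : ℕ) : PadicAlgCl q) := by simp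
  have hh : ‖aeval ((s : ℕ) : ℤ_[q]) g‖ < ‖aeval ((s : ℕ) : ℤ_[q]) (derivative g)‖ ^ 2 := by
    rw [tr, tr, hscast, hds, one_pow]
    exact hgs
  obtain ⟨t, ht0, hts, -, -⟩ := hensels_lemma hh
  rw [tr, hscast, hds] at hts
  have ht0' : aeval (t : ℚ_[q]) g = 0 := by
    have : aeval (t : ℚ_[q]) g = ((aeval t g : ℤ_[q]) : ℚ_[q]) :=
      aeval_algebraMap_apply ℚ_[q] t g
    rw [this, ht0]
    rfl
  obtain ⟨j1, hj1⟩ := exists_emb hirr hg hθ (t : ℚ_[q]) ht0'
  let j0 : K →+* PadicAlgCl q := (algebraMap ℚ_[q] (PadicAlgCl q)).comp j1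
  have hj0 : j0 θ = algebraMap ℚ_[q] (PadicAlgCl q) (t : ℚ_[q]) := by
    show algebraMap ℚ_[q] (PadicAlgCl q) (j1 θ) = _
    rw [hj1]
  have hnorm : ∀ z : K, ‖j0 z‖ = ‖j1 z‖ := fun z => norm_algebraMap' (PadicAlgCl q) (j1 z)
  have hts' : ‖j0 θ - ((s : ℕ) : PadicAlgCl q)‖ < 1 := by
    rw [hj0, ← hscast, ← map_sub, norm_algebraMap']
    exact hts
  obtain ⟨hi0, P, hPmax, hqP, hP⟩ := h1 K q j0
  obtain ⟨ψ, hψs, hψ⟩ := exists_res j1 (fun z => (hnorm _).symm.trans_le (hi0 z))
  refine ⟨P, hPmax, ?_, ?_⟩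
  · have hker : RingHom.ker ψ = P := by
      ext z
      rw [RingHom.mem_ker, hψ, ← hnorm, ← hP]
    rw [Ideal.absNorm_apply, Submodule.cardQuot_apply, ← hker]
    have e := (RingHom.quotientKerEquivOfSurjective hψs).toEquiv
    rw [Nat.card_congr e, Nat.card_zmod]
  · intro l _ hl j
    obtain ⟨hllc, hlR⟩ := hN l hl
    constructor
    · intro hj
      have h3 : ‖j (((q : ℕ) : 𝓞 K) : K)‖ < 1 := (hj _).mp hqP
      have h4 : j (((q : ℕ) : 𝓞 K) : K) = ((q : ℤ) : PadicAlgCl l) := by simp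
      rw [h4] at h3
      have hlq : l = q := by
        by_contra hne
        have h5 : ¬ (l : ℤ) ∣ (q : ℤ) := by
          intro hd
          rw [Int.natCast_dvd_natCast] at hd
          rcases (Nat.dvd_prime hq).mp hd with h6 | h6
          · exact (Fact.out : l.Prime).one_lt.ne' h6
          · exact hne h6
        rw [norm_int_one h5] at h3
        exact lt_irrefl _ h3
      subst hlq
      refine ⟨rfl, ?_⟩
      have hlcint : IsIntegral ℤ ((g.leadingCoeff : K) * θ - (g.leadingCoeff : K) * (s : K)) := by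
        refine IsIntegral.sub ?_ ?_
        · have := isIntegral_leadingCoeff_smul g θ hg
          rwa [zsmul_eq_mul] at this
        · have := isIntegral_algebraMap (R := ℤ) (A := K) (x := g.leadingCoeff * (s : ℤ))
          simpa using this
      have hfac : ∀ i : K →+* PadicAlgCl l,
          ‖i ((g.leadingCoeff : K) * θ - (g.leadingCoeff : K) * (s : K))‖ =
            ‖i θ - ((s : ℕ) : PadicAlgCl l)‖ := by
        intro i
        rw [← mul_sub, map_mul, norm_mul, map_intCast, norm_int_one hllc, one_mul, map_sub,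
          map_natCast]
      have h5 := hj ⟨_, hlcint⟩
      have h6 := hP ⟨_, hlcint⟩
      have h7 : ‖j ((g.leadingCoeff : K) * θ - (g.leadingCoeff : K) * (s : K))‖ < 1 := by
        refine h5.mp (h6.mpr ?_)
        show ‖j0 ((g.leadingCoeff : K) * θ - (g.leadingCoeff : K) * (s : K))‖ < 1
        rw [hfac]
        exact hts'
      rw [hfac] at h7
      exact h7
    · rintro ⟨rfl, hjs⟩
      have hjt : j θ = j0 θ := by
        have hn0 : ‖j0 θ‖ ≤ 1 := by
          rw [hj0, norm_algebraMap']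
          exact t.2
        have hdiff : ‖j θ - j0 θ‖ < 1 := by
          have e : j θ - j0 θ = (j θ - ((s : ℕ) : PadicAlgCl l)) +
            (((s : ℕ) : PadicAlgCl l) - j0 θ) := by ring
          have hts2 : ‖((s : ℕ) : PadicAlgCl l) - j0 θ‖ < 1 := by
            rw [norm_sub_rev]
            exact hts'
          rw [e]
          exact (IsUltrametricDist.norm_add_le_max _ _).trans_lt (max_lt hjs hts2)
        have hn : ‖j θ‖ ≤ 1 := by
          have e : j θ = (j θ - j0 θ) + j0 θ := by ring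
          rw [e]
          exact (IsUltrametricDist.norm_add_le_max _ _).trans (max_le hdiff.le hn0)
        have hzz : ∀ i : K →+* PadicAlgCl l, aeval (i θ) g = 0 := by
          intro i
          have h8 := hom_eval₂ g (algebraMap ℤ K) i θ
          rw [← aeval_def, hg, map_zero] at h8
          rw [aeval_def, h8]
          congr 1
          exact Subsingleton.elim _ _
        have hd0 : ‖aeval (j0 θ) (derivative g)‖ = 1 :=
          der_one hb hqR hn0 (by rw [hzz, norm_zero]; exact one_pos)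
        exact root_unique hn0 hn hdiff (hzz j0) (hzz j) hd0
      rw [emb_ext hθ j j0 hjt]
      exact hP

end Pool.Agent.QTx
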