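import Pool.Agent.QTx.Targets

/-!
# PRIN: generators with small coefficients of the prime ideals of degree one
-/

open Polynomial NumberField

namespace Pool.Agent.QTx

namespace PRIN_

/-- norm of a natural number in the algebraic closure -/
theorem norm_nat (l : ℕ) [Fact l.Prime] (m : ℕ) : ‖(m : PadicAlgCl l)‖ = ‖(m : ℚ_[l])‖ := by
  rw [← PadicAlgCl.norm_extends]
  congr 1

theorem norm_nat_one (l : ℕ) [hl : Fact l.Prime] (m : ℕ) (h : ¬ l ∣ m) :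
    ‖(m : PadicAlgCl l)‖ = 1 := by
  rw [norm_nat, Padic.norm_natCast_eq_one_iff]
  exact (Nat.Prime.coprime_iff_not_dvd hl.out).mpr h

theorem norm_self (l : ℕ) [Fact l.Prime] : ‖(l : PadicAlgCl l)‖ = ((l : ℝ))⁻¹ := by
  rw [norm_nat, Padic.norm_p]

section K

variable {K : Type} [Field K] [NumberField K] {l : ℕ} [Fact l.Prime] (j : K →+* PadicAlgCl l)

theorem absNorm_not_mem (P' J : Ideal (𝓞 K)) (hP' : ∀ z : 𝓞 K, z ∈ P' ↔ ‖j (z : K)‖ < 1)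
    (hJN : ¬ l ∣ Ideal.absNorm J) : ¬ J ≤ P' := by
  intro h
  have h1 := (hP' _).mp (h (Ideal.absNorm_mem J))
  have h2 : j (((Ideal.absNorm J : ℕ) : 𝓞 K) : K) = (Ideal.absNorm J : PadicAlgCl l) := by
    simp
  rw [h2, norm_nat_one l _ hJN] at h1
  exact lt_irrefl _ h1

theorem norm_eq_one (hint : ∀ z : 𝓞 K, ‖j (z : K)‖ ≤ 1) (P' : Ideal (𝓞 K)) (hmax : P'.IsMaximal)
    (hP' : ∀ z : 𝓞 K, z ∈ P' ↔ ‖j (z : K)‖ < 1) (P0 J : Ideal (𝓞 K)) (hP0 : P0.IsMaximal)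
    (hJN : ¬ l ∣ Ideal.absNorm J) (α : 𝓞 K) (hα : P0 * J = Ideal.span {α}) (hne : P0 ≠ P') :
    ‖j (α : K)‖ = 1 := by
  refine le_antisymm (hint α) (not_lt.mp fun hlt => ?_)
  have h1 : P0 * J ≤ P' := by
    rw [hα, Ideal.span_singleton_le_iff_mem]
    exact (hP' α).mpr hlt
  rcases (hmax.isPrime.mul_le).mp h1 with h | h
  · exact hne (hP0.eq_of_le hmax.ne_top h)
  · exact absNorm_not_mem j P' J hP' hJN h

theorem norm_inv (h5 : T_EMBV) (P0 J : Ideal (𝓞 K)) (hP0 : P0.IsMaximal) (hbot : P0 ≠ ⊥)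
    (hP : ∀ z : 𝓞 K, z ∈ P0 ↔ ‖j (z : K)‖ < 1)
    (hunr : ∀ z : K, z ≠ 0 → ∃ k : ℤ, ‖j z‖ = (l : ℝ) ^ k)
    (hJN : ¬ l ∣ Ideal.absNorm J) (α : 𝓞 K) (hα0 : α ≠ 0) (hα : P0 * J = Ideal.span {α}) :
    ‖j (α : K)‖ = ((l : ℝ))⁻¹ := by
  have hl1 : (1 : ℝ) < l := by exact_mod_cast (Fact.out : l.Prime).one_lt
  have hjl : ‖j (((l : ℕ) : 𝓞 K) : K)‖ = ((l : ℝ))⁻¹ := by
    have : j (((l : ℕ) : 𝓞 K) : K) = (l : PadicAlgCl l) := by simp
    rw [this, norm_self]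
  have hlmem : ((l : ℕ) : 𝓞 K) ∈ P0 := by
    rw [hP, hjl]
    exact inv_lt_one_of_one_lt₀ hl1
  obtain ⟨r, hr0, hr1, hr⟩ := h5 K l P0 j hlmem hP
  have hα1 : α ∈ P0 := by
    have : Ideal.span {α} ≤ P0 := hα ▸ Ideal.mul_le_left
    exact this (Ideal.mem_span_singleton_self α)
  have hα2 : α ∉ P0 ^ (1 + 1) := by
    intro h
    have h1 : P0 * J ≤ P0 * P0 := by
      rw [hα, Ideal.span_singleton_le_iff_mem]
      rwa [pow_succ, pow_one] at h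
    have h2 : P0 * P0 ∣ P0 * J := Ideal.dvd_iff_le.mpr h1
    have h3 : P0 ∣ J := (mul_dvd_mul_iff_left hbot).mp h2
    exact absNorm_not_mem j P0 J hP hJN (Ideal.dvd_iff_le.mp h3)
  have hjα : ‖j (α : K)‖ = r := by
    have := hr α 1 (by rwa [pow_one]) hα2
    rwa [pow_one] at this
  -- the exponent of `l`
  have hl0 : ((l : ℕ) : 𝓞 K) ≠ 0 := by
    exact_mod_cast (Fact.out : l.Prime).ne_zero
  have hex : ∃ n : ℕ, ((l : ℕ) : 𝓞 K) ∉ P0 ^ n := by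
    by_contra hc
    push Not at hc
    have h1 : ((l : ℕ) : 𝓞 K) ∈ (⨅ i : ℕ, P0 ^ i) := by
      rw [Submodule.mem_iInf]
      exact hc
    rw [Ideal.iInf_pow_eq_bot_of_isDomain P0 hP0.ne_top] at h1
    exact hl0 h1
  classical
  obtain ⟨e, he⟩ : ∃ e, Nat.find hex = e + 2 := by
    refine ⟨Nat.find hex - 2, ?_⟩
    have h2 : 2 ≤ Nat.find hex := by
      rw [Nat.le_find_iff]
      intro m hm
      interval_cases m
      · simp
      · simpa using hlmem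
    omega
  have hle : ((l : ℕ) : 𝓞 K) ∈ P0 ^ (e + 1) := by
    by_contra hc
    have := Nat.find_min' hex hc
    omega
  have hle' : ((l : ℕ) : 𝓞 K) ∉ P0 ^ (e + 1 + 1) := by
    have := Nat.find_spec hex
    rwa [he] at this
  have hre := hr _ _ hle hle'
  rw [hjl] at hre
  have hge : ((l : ℝ))⁻¹ ≤ r := by
    rw [hre]
    exact pow_le_of_le_one hr0.le hr1.le (Nat.succ_ne_zero e)
  have hαK : (α : K) ≠ 0 := by exact_mod_cast hα0
  obtain ⟨k, hk⟩ := hunr (α : K) hαK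
  rw [hjα] at hk ⊢
  have hk0 : k < 0 := by
    by_contra hc
    push Not at hc
    have : (1 : ℝ) ≤ (l : ℝ) ^ k := one_le_zpow₀ hl1.le hc
    rw [← hk] at this
    linarith
  refine le_antisymm ?_ hge
  rw [hk, ← zpow_neg_one]
  exact zpow_le_zpow_right₀ hl1.le (by omega)

end K

/-- the statement for one pair `q, s` -/
theorem one (h4 : T_EMBQ) (h5 : T_EMBV) {K : Type} [Field K] [NumberField K] (θ : K) (g : ℤ[X])
    (hθ : ∀ (l : ℕ) [Fact l.Prime] (t : PadicAlgCl l), aeval t g = 0 →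
      ∃ j : K →+* PadicAlgCl l, j θ = t)
    (n N1 N6 N7 D : ℕ) (C2 C3 : ℝ) (hC3 : 0 < C3) (hN1 : 0 < N1)
    (hfin : Module.finrank ℚ K = n)
    (hn : 0 < n)
    (hcl : ∀ I : Ideal (𝓞 K), I ≠ ⊥ → ∃ J : Ideal (𝓞 K), J ≠ ⊥ ∧ Ideal.absNorm J ∣ N1 ∧
      ∃ α : 𝓞 K, I * J = Ideal.span {α})
    (hbal : ∀ α : 𝓞 K, α ≠ 0 → ∃ u : (𝓞 K)ˣ, ∀ σ : K →+* ℂ,
      ‖σ (((u : 𝓞 K) * α : 𝓞 K) : K)‖ ≤
        C2 * ((Algebra.norm ℤ α).natAbs : ℝ) ^ ((1 : ℝ) / Module.finrank ℚ K))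
    (hC2 : 0 < C2)
    (hvand : ∀ α : 𝓞 K, ∃ P : ℤ[X], P.natDegree < Module.finrank ℚ K ∧
      aeval θ P = (D : K) * (α : K) ∧
      ∀ R : ℝ, (∀ σ : K →+* ℂ, ‖σ (α : K)‖ ≤ R) → ∀ k, |(P.coeff k : ℝ)| ≤ C3 * R)
    (hunr : ∀ (l : ℕ) [Fact l.Prime], ¬ l ∣ N6 → ∀ (j : K →+* PadicAlgCl l) (z : K), z ≠ 0 →
      ∃ k : ℤ, ‖j z‖ = (l : ℝ) ^ k)
    (q s : ℕ) (hq : q.Prime) (P0 : Ideal (𝓞 K)) (hP0 : P0.IsMaximal)
    (hnorm : Ideal.absNorm P0 = q)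
    (hprime : ∀ (l : ℕ) [Fact l.Prime], ¬ l ∣ N7 → ∀ j : K →+* PadicAlgCl l,
      ((∀ z : 𝓞 K, z ∈ P0 ↔ ‖j (z : K)‖ < 1) ↔ (l = q ∧ ‖j θ - (s : PadicAlgCl l)‖ < 1))) :
    ∃ P : ℤ[X], IsPi g (N1 * N6 * N7 * D) q s P ∧ P.natDegree < n ∧
      ∀ k, |(P.coeff k : ℝ)| ≤ (C3 * (C2 * (N1 : ℝ) ^ ((1 : ℝ) / n))) *
        (q : ℝ) ^ ((1 : ℝ) / n) := by
  have hbot : P0 ≠ ⊥ := by
    rintro rfl
    rw [Ideal.absNorm_bot] at hnorm
    exact hq.ne_zero hnorm.symm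
  obtain ⟨J, hJ, hJN, α, hα⟩ := hcl P0 hbot
  have hα0 : α ≠ 0 := by
    rintro rfl
    have h1 : P0 * J = ⊥ := by rw [hα]; simp
    rcases Ideal.mul_eq_bot.mp h1 with h | h
    · exact hbot h
    · exact hJ h
  have hnα : (Algebra.norm ℤ α).natAbs = q * Ideal.absNorm J := by
    rw [← Ideal.absNorm_span_singleton, ← hα, map_mul, hnorm]
  obtain ⟨u, hu⟩ := hbal α hα0
  obtain ⟨P, hdeg, hP, hcoef⟩ := hvand ((u : 𝓞 K) * α)
  refine ⟨P, ?_, hfin ▸ hdeg, fun k => ?_⟩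
  · intro l hl hlN t ht
    have hl1 : ¬ l ∣ N1 := fun h => hlN (((h.mul_right _).mul_right _).mul_right _)
    have hl6 : ¬ l ∣ N6 := fun h => hlN (((h.mul_left _).mul_right _).mul_right _)
    have hl7 : ¬ l ∣ N7 := fun h => hlN ((h.mul_left _).mul_right _)
    have hlD : ¬ l ∣ D := fun h => hlN (h.mul_left _)
    obtain ⟨j, hj⟩ := hθ l t ht
    obtain ⟨hint, P', hP'max, -, hP'⟩ := h4 K l j
    have hJl : ¬ l ∣ Ideal.absNorm J := fun h => hl1 (h.trans hJN)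
    have hju : ‖j ((u : 𝓞 K) : K)‖ = 1 := by
      refine le_antisymm (hint _) ?_
      have h1 := hint ((u⁻¹ : (𝓞 K)ˣ) : 𝓞 K)
      have h2 : j ((u : 𝓞 K) : K) * j (((u⁻¹ : (𝓞 K)ˣ) : 𝓞 K) : K) = 1 := by
        rw [← map_mul, ← map_mul, Units.mul_inv, map_one, map_one]
      have h3 : ‖j ((u : 𝓞 K) : K)‖ * ‖j (((u⁻¹ : (𝓞 K)ˣ) : 𝓞 K) : K)‖ = 1 := by
        rw [← norm_mul, h2, norm_one]
      nlinarith [norm_nonneg (j ((u : 𝓞 K) : K))]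
    have hval : ‖aeval t P‖ = ‖j (α : K)‖ := by
      have h1 : aeval t P = j (aeval θ P) := by
        rw [aeval_def, aeval_def, hom_eval₂, hj]
        congr 1
        exact RingHom.ext_int _ _
      have h2 : (((u : 𝓞 K) * α : 𝓞 K) : K) = ((u : 𝓞 K) : K) * (α : K) := by simp
      rw [h1, hP, map_mul, map_natCast, norm_mul, norm_nat_one l D hlD, one_mul, h2, map_mul,
        norm_mul, hju, one_mul]
    rw [hval]
    have hpr := hprime l hl7 j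
    rw [hj] at hpr
    split_ifs with hc
    · have hall := hpr.mpr hc
      rw [norm_inv j h5 P0 J hP0 hbot hall (hunr l hl6 j) hJl α hα0 hα, hc.1]
    · refine norm_eq_one j hint P' hP'max hP' P0 J hP0 hJl α hα fun he => hc (hpr.mp ?_)
      rw [he]
      exact hP'
  · refine (hcoef _ hu k).trans ?_
    rw [hfin, hnα]
    push_cast
    have hJ1 : ((Ideal.absNorm J : ℕ) : ℝ) ≤ N1 := by exact_mod_cast Nat.le_of_dvd hN1 hJN
    have h1 : ((q : ℝ) * (Ideal.absNorm J : ℝ)) ^ ((1 : ℝ) / n) ≤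
        (N1 : ℝ) ^ ((1 : ℝ) / n) * (q : ℝ) ^ ((1 : ℝ) / n) := by
      rw [← Real.mul_rpow (by positivity) (by positivity)]
      refine Real.rpow_le_rpow (by positivity) ?_ (by positivity)
      rw [mul_comm]
      exact mul_le_mul_of_nonneg_right hJ1 (by positivity)
    calc C3 * (C2 * ((q : ℝ) * (Ideal.absNorm J : ℝ)) ^ ((1 : ℝ) / n)) ≤
        C3 * (C2 * ((N1 : ℝ) ^ ((1 : ℝ) / n) * (q : ℝ) ^ ((1 : ℝ) / n))) := by gcongr
      _ = _ := by ring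

/-- a number field generated by a root of `g` -/
theorem exists_field (g : ℤ[X]) (hg : Irreducible (g.map (Int.castRingHom ℚ))) :
    ∃ (K : Type) (_ : Field K) (_ : NumberField K) (θ : K), aeval θ g = 0 ∧
      IntermediateField.adjoin ℚ {θ} = ⊤ ∧ Module.finrank ℚ K = g.natDegree ∧
      ∀ (l : ℕ) [Fact l.Prime] (t : PadicAlgCl l), aeval t g = 0 →
        ∃ j : K →+* PadicAlgCl l, j θ = t := by
  have : Fact (Irreducible (g.map (Int.castRingHom ℚ))) := ⟨hg⟩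
  refine ⟨AdjoinRoot (g.map (Int.castRingHom ℚ)), inferInstance, inferInstance,
    AdjoinRoot.root _, ?_, ?_, ?_, ?_⟩
  · have h1 := AdjoinRoot.eval₂_root (g.map (Int.castRingHom ℚ))
    rw [eval₂_map] at h1
    rw [aeval_def, ← h1]
    congr 1
  · rw [eq_top_iff]
    intro x _
    obtain ⟨p, rfl⟩ := AdjoinRoot.mk_surjective x
    have h1 : AdjoinRoot.mk (g.map (Int.castRingHom ℚ)) p =
        p.sum fun i a => (AdjoinRoot.of (g.map (Int.castRingHom ℚ))) a *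
          (AdjoinRoot.root (g.map (Int.castRingHom ℚ))) ^ i := by
      conv_lhs => rw [← p.sum_monomial_eq]
      rw [Polynomial.sum, map_sum, Polynomial.sum]
      refine Finset.sum_congr rfl fun i _ => ?_
      rw [← C_mul_X_pow_eq_monomial, map_mul, map_pow, AdjoinRoot.mk_X]
      rfl
    rw [h1, Polynomial.sum]
    refine sum_mem fun i _ => mul_mem ?_ (pow_mem (IntermediateField.mem_adjoin_simple_self ℚ _) i)
    have h2 : (AdjoinRoot.of (g.map (Int.castRingHom ℚ))) (p.coeff i) =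
        ((p.coeff i : ℚ) : AdjoinRoot (g.map (Int.castRingHom ℚ))) := by
      simp
    rw [h2]
    exact SubfieldClass.ratCast_mem _ _
  · have h1 := (AdjoinRoot.powerBasis hg.ne_zero).finrank
    rw [AdjoinRoot.powerBasis_dim, natDegree_map_eq_of_injective
      (Int.castRingHom ℚ).injective_int] at h1
    rw [← h1]
  · intro l _ t ht
    have h1 : (g.map (Int.castRingHom ℚ)).eval₂ (algebraMap ℚ (PadicAlgCl l)) t = 0 := by
      rw [eval₂_map, ← ht, aeval_def]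
      congr 1
    exact ⟨AdjoinRoot.lift _ t h1, AdjoinRoot.lift_root h1⟩

end PRIN_

open PRIN_ in
/-- PRIN: generators with small coefficients of the prime ideals of degree one. -/
theorem p_PRIN (h1 : T_CLREP) (h2 : T_BALG) (h3 : T_VAND) (h4 : T_EMBQ) (h5 : T_EMBV)
    (h6 : T_UNR) (h7 : T_PRIME) : T_PRIN := by
  intro g hg
  obtain ⟨K, iF, iN, θ, hθ0, hgen, hfin, hθ⟩ := exists_field g hg
  have hn : 0 < g.natDegree := by rw [← hfin]; exact Module.finrank_pos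
  obtain ⟨N1, hN1, hcl⟩ := h1 K
  obtain ⟨C2, hC2, hbal⟩ := h2 K
  obtain ⟨D, C3, hD, hC3, hvand⟩ := h3 K θ hgen
  obtain ⟨N6, hN6, hunr⟩ := h6 K
  obtain ⟨N7, hN7, hpr⟩ := h7 K θ g hg hθ0 hgen
  have key : ∀ q s : ℕ, ∃ P : ℤ[X], q.Prime → ¬ q ∣ N1 * N6 * N7 * D → s < q →
      (q : ℤ) ∣ g.eval (s : ℤ) → IsPi g (N1 * N6 * N7 * D) q s P ∧
      P.natDegree < g.natDegree ∧
      ∀ k, |(P.coeff k : ℝ)| ≤ (C3 * (C2 * (N1 : ℝ) ^ ((1 : ℝ) / g.natDegree))) *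
        (q : ℝ) ^ ((1 : ℝ) / g.natDegree) := by
    intro q s
    by_cases hc : q.Prime ∧ ¬ q ∣ N1 * N6 * N7 * D ∧ s < q ∧ (q : ℤ) ∣ g.eval (s : ℤ)
    · obtain ⟨hq, hqN, hs, hqs⟩ := hc
      have hq7 : ¬ q ∣ N7 := fun h => hqN ((h.mul_left _).mul_right _)
      obtain ⟨P0, hP0, hnorm, hprime⟩ := hpr q s hq hq7 hs hqs
      obtain ⟨P, hP⟩ := one h4 h5 θ g hθ g.natDegree N1 N6 N7 D C2 C3 hC3 hN1 hfin hn hcl hbal hC2
        hvand hunr q s hq P0 hP0 hnorm hprime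
      exact ⟨P, fun _ _ _ _ => hP⟩
    · exact ⟨0, fun ha hb hd he => absurd ⟨ha, hb, hd, he⟩ hc⟩
  choose P hP using key
  exact ⟨N1 * N6 * N7 * D, P, C3 * (C2 * (N1 : ℝ) ^ ((1 : ℝ) / g.natDegree)), by positivity,
    by positivity, hP⟩

end Pool.Agent.QTx
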