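import Pool.Agent.QTx.Targets
import Pool.Agent.QTw.EMB
import Pool.Agent.QTw.EXFF

set_option autoImplicit false

/-!
# Rational Weierstrass points
-/

open Polynomial

namespace Pool.Agent.QTx

namespace RATPT_

variable {K : Type} [Field K] [CharZero K] (ι : PowerSeries ℚ →+* K)

/-- a nonconstant polynomial is transcendental -/
theorem trans_poly (hι : Function.Injective ι) (h : ℚ[X]) (hd : h.natDegree ≠ 0) :
    Transcendental ℚ (ι (h : PowerSeries ℚ)) := by
  rw [transcendental_iff]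
  intro p hp
  have h1 : algebraMap ℚ K = (ι.comp (Polynomial.coeToPowerSeries.ringHom)).comp C :=
    RingHom.ext_rat _ _
  have h2 : ι (h : PowerSeries ℚ) = (ι.comp (Polynomial.coeToPowerSeries.ringHom)) h := rfl
  rw [aeval_def, h1, h2, ← hom_eval₂] at hp
  have h3 : eval₂ C h p = 0 := by
    apply Polynomial.coe_injective ℚ
    apply hι
    rw [Polynomial.coe_zero, map_zero]
    exact hp
  have h4 : p.comp h = 0 := h3
  rw [comp_eq_zero_iff] at h4
  rcases h4 with h4 | h4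
  · exact h4
  · exfalso
    apply hd
    rw [h4.2, natDegree_C]

omit [CharZero K] in
theorem aeval_eq (f : ℤ[X]) (s : PowerSeries ℚ) : aeval (ι s) f = ι (aeval s f) := by
  rw [aeval_def, aeval_def, hom_eval₂]
  congr 1
  exact RingHom.ext_int _ _

/-- the case of a rational root -/
theorem root_case (hsqps : T_SQPS) (hι : Function.Injective ι) (f : ℤ[X]) (d : ℤ) (hd : d ≠ 0)
    (hsq : Squarefree (f.map (Int.castRingHom ℚ))) (r : ℚ) (hr : aeval r f = 0) :
    ∃ ξ η : K, Transcendental ℚ ξ ∧ (d : K) * η ^ 2 = aeval ξ f := by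
  set F : ℚ[X] := f.map (Int.castRingHom ℚ) with hF
  have hFr : F.IsRoot r := by
    rw [IsRoot, hF, eval_map, ← hr, aeval_def]
    congr 1
  obtain ⟨g, hg⟩ := dvd_iff_isRoot.2 hFr
  have hgr : g.eval r ≠ 0 := by
    intro h0
    obtain ⟨g', hg'⟩ := dvd_iff_isRoot.2 h0
    have h1 : (X - C r) * (X - C r) ∣ F := ⟨g', by rw [hg, hg']; ring⟩
    have h2 := hsq _ h1
    exact not_isUnit_X_sub_C r h2
  set γ := g.eval r with hγ
  have hdQ : (d : ℚ) ≠ 0 := by exact_mod_cast hd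
  set h : ℚ[X] := C r + C ((d : ℚ) * γ) * X ^ 2 with hh
  have hhd : h.natDegree ≠ 0 := by
    have : h.natDegree = 2 := by
      rw [hh, add_comm]
      rw [natDegree_add_C, natDegree_C_mul_X_pow]
      exact mul_ne_zero hdQ hgr
    rw [this]
    norm_num
  -- the power series g(h)/g(r)
  set P : PowerSeries ℚ := ((C γ⁻¹ * g.comp h : ℚ[X]) : PowerSeries ℚ) with hP
  have hP1 : PowerSeries.constantCoeff P = 1 := by
    rw [hP, Polynomial.constantCoeff_coe, coeff_zero_eq_eval_zero, eval_mul,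
      eval_C, eval_comp]
    have : h.eval 0 = r := by
      rw [hh]
      simp
    rw [this, ← hγ, inv_mul_cancel₀ hgr]
  obtain ⟨Q, -, hQ⟩ := hsqps P hP1
  refine ⟨ι (h : PowerSeries ℚ), ι (((C γ * X : ℚ[X]) : PowerSeries ℚ) * Q),
    trans_poly ι hι h hhd, ?_⟩
  rw [aeval_eq]
  have e1 : aeval (h : PowerSeries ℚ) f = ((F.comp h : ℚ[X]) : PowerSeries ℚ) := by
    have h1 : ((F.comp h : ℚ[X]) : PowerSeries ℚ) =
        Polynomial.coeToPowerSeries.ringHom (F.comp h) := rfl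
    rw [h1, comp, hF, eval₂_map, hom_eval₂, aeval_def]
    congr 1
    exact RingHom.ext_int _ _
  rw [e1, map_mul, mul_pow, ← map_pow, ← map_pow, hQ, hP, ← map_intCast ι d, ← map_mul,
    ← map_mul]
  congr 1
  have e2 : ((d : ℤ) : PowerSeries ℚ) = ((C (d : ℚ) : ℚ[X]) : PowerSeries ℚ) := by
    rw [Polynomial.coe_C]
    simp
  rw [e2, ← Polynomial.coe_pow, ← Polynomial.coe_mul, ← Polynomial.coe_mul]
  congr 1
  have e3 : (C γ : ℚ[X]) * C γ⁻¹ = 1 := by rw [← C_mul, mul_inv_cancel₀ hgr, C_1]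
  have hhr : h - C r = C (d : ℚ) * C γ * X ^ 2 := by
    rw [hh, C_mul]
    ring
  rw [hg, mul_comp, sub_comp, X_comp, C_comp, hhr]
  linear_combination (C (d : ℚ) * C γ * X ^ 2 * g.comp h) * e3

/-- the case of odd degree -/
theorem odd_case (hsqps : T_SQPS) (hι : Function.Injective ι) (f : ℤ[X]) (d : ℤ) (hd : d ≠ 0)
    (hodd : Odd f.natDegree) :
    ∃ ξ η : K, Transcendental ℚ ξ ∧ (d : K) * η ^ 2 = aeval ξ f := by
  obtain ⟨m, hm⟩ := hodd
  set n := f.natDegree with hn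
  have hf0 : f ≠ 0 := by
    rintro rfl
    rw [natDegree_zero] at hn
    omega
  set a : ℤ := f.leadingCoeff with ha
  have ha0 : a ≠ 0 := leadingCoeff_ne_zero.2 hf0
  have haQ : (a : ℚ) ≠ 0 := by exact_mod_cast ha0
  have hdQ : (d : ℚ) ≠ 0 := by exact_mod_cast hd
  have haK : (a : K) ≠ 0 := by exact_mod_cast ha0
  have hdK : (d : K) ≠ 0 := by exact_mod_cast hd
  set s : K := ι ((X : ℚ[X]) : PowerSeries ℚ) with hs
  have hs0 : s ≠ 0 := by
    intro h0
    have h1 : ((X : ℚ[X]) : PowerSeries ℚ) = 0 := by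
      apply hι
      rw [map_zero]
      exact h0
    have h2 : (X : ℚ[X]) = 0 := by
      apply Polynomial.coe_injective ℚ
      rw [h1, Polynomial.coe_zero]
    exact X_ne_zero h2
  -- the polynomial
  set p : ℚ[X] := ∑ i ∈ Finset.range (n + 1),
    C ((f.coeff i : ℚ) * ((d : ℚ) * a) ^ i / (a * ((d : ℚ) * a) ^ n)) * X ^ (2 * (n - i)) with hp
  have hc0 : (a : ℚ) * ((d : ℚ) * a) ^ n ≠ 0 := mul_ne_zero haQ (pow_ne_zero _ (mul_ne_zero hdQ haQ))
  have hp1 : PowerSeries.constantCoeff (p : PowerSeries ℚ) = 1 := by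
    rw [Polynomial.constantCoeff_coe, coeff_zero_eq_eval_zero, hp,
      eval_finsetSum, Finset.sum_range_succ]
    rw [Finset.sum_eq_zero]
    · rw [Nat.sub_self, mul_zero, pow_zero, mul_one, eval_C, zero_add]
      have : (f.coeff n : ℚ) = a := by rw [ha, leadingCoeff, ← hn]
      rw [this, div_self hc0]
    · intro i hi
      have hi' := Finset.mem_range.1 hi
      rw [eval_mul, eval_pow, eval_X, zero_pow (by omega), mul_zero]
  obtain ⟨Q, -, hQ⟩ := hsqps _ hp1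
  have hKmap : ∀ q : ℚ, ι ((C q : ℚ[X]) : PowerSeries ℚ) = (q : K) := by
    intro q
    have h1 : (ι.comp (Polynomial.coeToPowerSeries.ringHom)).comp C = algebraMap ℚ K :=
      RingHom.ext_rat _ _
    have h2 := DFunLike.congr_fun h1 q
    exact h2.trans (eq_ratCast (algebraMap ℚ K) q)
  have hpK : ι (p : PowerSeries ℚ) = ∑ i ∈ Finset.range (n + 1),
      ((f.coeff i : K) * ((d : K) * a) ^ i / (a * ((d : K) * a) ^ n)) * s ^ (2 * (n - i)) := by
    have h1 : ι (p : PowerSeries ℚ) = (ι.comp (Polynomial.coeToPowerSeries.ringHom)) p := rfl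
    rw [h1, hp, map_sum]
    apply Finset.sum_congr rfl
    intro i _
    rw [map_mul, map_pow]
    have h2 : (ι.comp (Polynomial.coeToPowerSeries.ringHom)) X = s := rfl
    have h3 : (ι.comp (Polynomial.coeToPowerSeries.ringHom))
        (C ((f.coeff i : ℚ) * ((d : ℚ) * a) ^ i / (a * ((d : ℚ) * a) ^ n))) =
        (((f.coeff i : ℚ) * ((d : ℚ) * a) ^ i / (a * ((d : ℚ) * a) ^ n) : ℚ) : K) := hKmap _
    rw [h2, h3]
    push_cast
    rfl
  set ξ : K := (d : K) * a * (s ^ 2)⁻¹ with hξ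
  have hfξ : s ^ (2 * n) * aeval ξ f = a * ((d : K) * a) ^ n * ι (p : PowerSeries ℚ) := by
    rw [hpK, aeval_eq_sum_range, ← hn, Finset.mul_sum, Finset.mul_sum]
    apply Finset.sum_congr rfl
    intro i hi
    have hi' : i ≤ n := Nat.lt_succ_iff.1 (Finset.mem_range.1 hi)
    rw [zsmul_eq_mul, hξ, mul_pow]
    have h1 : s ^ (2 * n) = s ^ (2 * i) * s ^ (2 * (n - i)) := by
      rw [← pow_add]
      congr 1
      omega
    have h2 : (s ^ (2 * i)) * ((s ^ 2)⁻¹) ^ i = 1 := by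
      rw [pow_mul, ← mul_pow, mul_inv_cancel₀ (pow_ne_zero 2 hs0), one_pow]
    have h3 : (a : K) * ((d : K) * a) ^ n ≠ 0 :=
      mul_ne_zero haK (pow_ne_zero _ (mul_ne_zero hdK haK))
    rw [h1]
    have h4 : (a : K) * ((d : K) * a) ^ n * ((f.coeff i : K) * ((d : K) * a) ^ i /
        (a * ((d : K) * a) ^ n) * s ^ (2 * (n - i))) =
        (f.coeff i : K) * ((d : K) * a) ^ i * s ^ (2 * (n - i)) := by
      rw [div_mul_eq_mul_div, mul_div_cancel₀ _ h3]
    rw [h4]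
    linear_combination ((f.coeff i : K) * ((d : K) * a) ^ i * s ^ (2 * (n - i))) * h2
  refine ⟨ξ, (d : K) ^ m * (a : K) ^ (m + 1) * (s ^ n)⁻¹ * ι Q, ?_, ?_⟩
  · intro halg
    have h1 : IsAlgebraic ℚ ξ⁻¹ := halg.inv
    have h2 : ξ⁻¹ = ι ((C (((d : ℚ) * a)⁻¹) * X ^ 2 : ℚ[X]) : PowerSeries ℚ) := by
      have h3 : ι ((C (((d : ℚ) * a)⁻¹) * X ^ 2 : ℚ[X]) : PowerSeries ℚ) =
          (ι.comp (Polynomial.coeToPowerSeries.ringHom)) (C (((d : ℚ) * a)⁻¹) * X ^ 2) := rfl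
      have h4 : (ι.comp (Polynomial.coeToPowerSeries.ringHom)) X = s := rfl
      have h5 : (ι.comp (Polynomial.coeToPowerSeries.ringHom)) (C (((d : ℚ) * a)⁻¹)) =
          ((((d : ℚ) * a)⁻¹ : ℚ) : K) := hKmap _
      rw [h3, map_mul, map_pow, h4, h5, hξ]
      push_cast
      rw [mul_inv, inv_inv]
    rw [h2] at h1
    refine trans_poly ι hι _ ?_ h1
    rw [natDegree_C_mul_X_pow]
    · norm_num
    · exact inv_ne_zero (mul_ne_zero hdQ haQ)
  · have hs2 : s ^ (2 * n) ≠ 0 := pow_ne_zero _ hs0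
    apply mul_left_cancel₀ hs2
    rw [hfξ, ← hQ, map_pow]
    have h1 : s ^ (2 * n) * ((s ^ n)⁻¹) ^ 2 = 1 := by
      rw [inv_pow, ← pow_mul, mul_comm n 2, mul_inv_cancel₀ hs2]
    have h2 : ((d : K) * a) ^ n = (d : K) * ((d : K) ^ m) ^ 2 * (a * ((a : K) ^ m) ^ 2) := by
      rw [hm]
      ring
    rw [h2, pow_succ (a : K) m]
    linear_combination ((d : K) * ((d : K) ^ m) ^ 2 * ((a : K) ^ m * a) ^ 2 * ι Q ^ 2) * h1

/-- the end of the proof, over any field containing the power series -/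
theorem finish (hsqps : T_SQPS) (hι : Function.Injective ι) (f : ℤ[X]) (d : ℤ) (hd : d ≠ 0)
    (hdeg : 0 < f.natDegree) (hsq : Squarefree (f.map (Int.castRingHom ℚ)))
    (hcase : Odd f.natDegree ∨ ∃ r : ℚ, aeval r f = 0) (F : Type) [Field F] [CharZero F] (x y : F)
    (hF : QTw.IsFunctionField f d x y) : Nonempty (F →+* K) := by
  have hpt : ∃ ξ η : K, Transcendental ℚ ξ ∧ (d : K) * η ^ 2 = aeval ξ f := by
    rcases hcase with hodd | ⟨r, hr⟩
    · exact odd_case ι hsqps hι f d hd hodd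
    · exact root_case ι hsqps hι f d hd hsq r hr
  obtain ⟨ξ, η, hξ, hη⟩ := hpt
  exact QTw.p_EMB F K x y ξ η f d hd hdeg hsq hF hξ hη

end RATPT_

open RATPT_ in
theorem p_RATPT (h1 : T_SQPS) : T_RATPT := by
  intro f d hd hdeg hsq hcase
  have hinj : Function.Injective (HahnSeries.ofPowerSeries ℤ ℚ) :=
    HahnSeries.ofPowerSeries_injective
  have hCZ : CharZero (LaurentSeries ℚ) :=
    charZero_of_injective_ringHom (f := (HahnSeries.ofPowerSeries ℤ ℚ).comp PowerSeries.C)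
      ((HahnSeries.ofPowerSeries ℤ ℚ).comp PowerSeries.C).injective
  obtain ⟨F, i1, i2, x, y, hF⟩ := QTw.t_EXFF f d hd
  exact ⟨F, i1, i2, x, y, hF,
    finish (HahnSeries.ofPowerSeries ℤ ℚ) h1 hinj f d hd hdeg hsq hcase F x y hF⟩

end Pool.Agent.QTx
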