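import Mathlib
import Pool.Agent.QTx.Targets
import Pool.Agent.QTw.RED

/-!
# QTx: removing the primes dividing `N`
-/

namespace Pool.Agent.QTx

namespace RED2_

theorem bad_div {m n : ℕ} (M : Model m n) {N : ℕ} {a : ℕ → Fin n → Fin n → ℝ} {k : ℕ}
    (hk : Squarefree k) (hB : M.Bad N a k) : M.Bad N a (k / Nat.gcd k N) := by
  obtain ⟨ρ, h⟩ := hB
  refine ⟨ρ, fun p hp hpN => ?_⟩
  obtain ⟨h1, h2⟩ := h p ((QTw.RED_.primeFactors_div hk p).1 hp).1 hpN
  refine ⟨h1, fun j hj hne => ?_⟩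
  have hf : (k / Nat.gcd k N).primeFactors.filter (fun q => ¬ q ∣ N ∧ q ≠ p) =
      k.primeFactors.filter (fun q => ¬ q ∣ N ∧ q ≠ p) := by
    ext q
    simp only [Finset.mem_filter, QTw.RED_.primeFactors_div hk]
    tauto
  rw [hf]
  exact h2 j hj hne

open Classical in
theorem one {m n : ℕ} (M : Model m n) (a : ℕ → Fin n → Fin n → ℝ) (N X : ℕ) (hN : 0 < N) :
    ((Finset.range (X + 1)).filter (fun k => Squarefree k ∧ M.Bad N a k)).card ≤
    N * ((Finset.range (X + 1)).filter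
      (fun k => Squarefree k ∧ (∀ p ∈ k.primeFactors, ¬ p ∣ N) ∧ M.Bad N a k)).card := by
  refine Finset.card_le_mul_card_image_of_maps_to (f := fun m => m / Nat.gcd m N) ?_ N ?_
  · intro k hk
    rw [Finset.mem_filter, Finset.mem_range] at hk
    obtain ⟨hmX, hsq, hB⟩ := hk
    rw [Finset.mem_filter, Finset.mem_range]
    refine ⟨lt_of_le_of_lt (Nat.div_le_self _ _) hmX, ?_, ?_, bad_div M hsq hB⟩
    · exact hsq.squarefree_of_dvd (Nat.div_dvd_of_dvd (Nat.gcd_dvd_left k N))
    · intro p hp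
      exact ((QTw.RED_.primeFactors_div hsq p).1 hp).2
  · intro b _
    have hc : (Finset.Icc 1 N).card = N := by rw [Nat.card_Icc]; omega
    refine le_trans (Finset.card_le_card_of_injOn (t := Finset.Icc 1 N)
      (fun m => Nat.gcd m N) ?_ ?_) hc.le
    · intro k hk
      rw [Finset.mem_coe, Finset.mem_filter] at hk
      rw [Finset.mem_coe, Finset.mem_Icc]
      exact ⟨Nat.gcd_pos_of_pos_right _ hN, Nat.gcd_le_right _ hN⟩
    · intro k hk k' hk' heq
      rw [Finset.mem_coe, Finset.mem_filter] at hk hk'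
      simp only at heq
      have h1 : k / Nat.gcd k N * Nat.gcd k N = k := Nat.div_mul_cancel (Nat.gcd_dvd_left k N)
      have h2 : k' / Nat.gcd k' N * Nat.gcd k' N = k' :=
        Nat.div_mul_cancel (Nat.gcd_dvd_left k' N)
      rw [← h1, ← h2, hk.2, hk'.2, heq]

end RED2_

open RED2_

theorem p_RED2 : T_RED2 := by
  classical
  intro m n M h a N X hN
  rw [Finset.mul_sum]
  refine le_trans ?_ (Finset.sum_le_sum (fun η _ => one M (a η) N X hN))
  refine le_trans (Finset.card_le_card ?_) Finset.card_biUnion_le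
  intro k hk
  rw [Finset.mem_filter] at hk
  obtain ⟨h1, h2, η, h3⟩ := hk
  rw [Finset.mem_biUnion]
  exact ⟨η, Finset.mem_univ _, Finset.mem_filter.2 ⟨h1, h2, h3⟩⟩

end Pool.Agent.QTx
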