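import Pool.Agent.QTx.Targets
import Pool.Agent.QTw.QUAD
import Pool.Agent.QTw.RES
import Pool.Agent.QTw.NEWTON
import Pool.Agent.QTw.TRD
import Pool.Agent.QTw.SQRT

/-!
# SQRT2: on a 2-covering `(x - θ)(x - θ')` becomes a square over `Q̄`
-/

set_option autoImplicit false

open Polynomial

namespace Pool.Agent.QTx

open Pool.Agent.QTw

theorem p_SQRT2 (h2 : T_EVEN2) : T_SQRT2 := by
  intro F E _ _ _ _ _ x y f d θ θ' hF hC hd hsq hev hθ hθ' hne
  have hcl : IsAlgClosed (algebraicClosure ℚ (AlgebraicClosure E)) :=
    (algebraicClosure.isAlgClosure ℚ (AlgebraicClosure E)).isAlgClosed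
  have halg : Algebra.IsAlgebraic ℚ (algebraicClosure ℚ (AlgebraicClosure E)) :=
    (algebraicClosure.isAlgClosure ℚ (AlgebraicClosure E)).isAlgebraic
  have hmem : ∀ a : F, algebraMap F (AlgebraicClosure E) a ∈ geomField F E := fun a =>
    IntermediateField.subset_adjoin _ _ ⟨a, rfl⟩
  set x' : geomField F E := ⟨algebraMap F (AlgebraicClosure E) x, hmem x⟩ with hx'
  set y' : geomField F E := ⟨algebraMap F (AlgebraicClosure E) y, hmem y⟩ with hy'
  have hinj : Function.Injective (algebraMap (geomField F E) (AlgebraicClosure E)) :=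
    (algebraMap (geomField F E) (AlgebraicClosure E)).injective
  have hxx : algebraMap (geomField F E) (AlgebraicClosure E) x' =
    algebraMap F (AlgebraicClosure E) x := rfl
  have hyy : algebraMap (geomField F E) (AlgebraicClosure E) y' =
    algebraMap F (AlgebraicClosure E) y := rfl
  have htr : Transcendental ℚ x' := by
    have h4 : Transcendental ℚ (algebraMap F (AlgebraicClosure E) x) :=
      (transcendental_algebraMap_iff (algebraMap F (AlgebraicClosure E)).injective).2
        hF.transcendental
    rw [← hxx] at h4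
    exact (transcendental_algebraMap_iff hinj).1 h4
  have htr2 : Transcendental (algebraicClosure ℚ (AlgebraicClosure E)) x' := fun h =>
    htr (h.restrictScalars ℚ)
  have hf0 : f ≠ 0 := by
    rintro rfl
    rw [Polynomial.map_zero] at hsq
    exact not_squarefree_zero hsq
  -- the two roots are algebraic numbers
  have hroot : ∀ t : AlgebraicClosure E, aeval t f = 0 →
      ∃ s : algebraicClosure ℚ (AlgebraicClosure E),
        algebraMap (algebraicClosure ℚ (AlgebraicClosure E)) (AlgebraicClosure E) s = t ∧
          aeval s f = 0 := by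
    intro t ht
    have h5 : IsAlgebraic ℚ t := by
      refine ⟨f.map (Int.castRingHom ℚ), ?_, ?_⟩
      · exact (Polynomial.map_ne_zero_iff (Int.cast_injective)).2 hf0
      · have h6 := aeval_map_algebraMap ℚ t f
        rw [ht] at h6
        exact h6
    refine ⟨⟨t, mem_algebraicClosure_iff.2 h5⟩, rfl, ?_⟩
    apply (algebraMap (algebraicClosure ℚ (AlgebraicClosure E)) (AlgebraicClosure E)).injective
    rw [← aeval_algebraMap_apply, map_zero]
    exact ht
  obtain ⟨s, hs, hsf⟩ := hroot θ hθ
  obtain ⟨s', hs', hsf'⟩ := hroot θ' hθ'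
  have hss : s ≠ s' := by
    intro h
    apply hne
    rw [← hs, ← hs', h]
  have heq : (d : geomField F E) * y' ^ 2 = aeval x' f := by
    apply hinj
    rw [← aeval_algebraMap_apply, hxx, aeval_algebraMap_apply, ← hF.equation, map_mul, map_mul,
      map_pow, map_pow, hyy, map_intCast, map_intCast]
  set u : geomField F E := (x' - algebraMap _ (geomField F E) s) *
    (x' - algebraMap _ (geomField F E) s') with hu
  have hfac : ∀ c : algebraicClosure ℚ (AlgebraicClosure E),
      x' - algebraMap _ (geomField F E) c ≠ 0 := by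
    intro c h
    rw [sub_eq_zero] at h
    apply htr2
    rw [h]
    exact isAlgebraic_algebraMap c
  have hu0 : u ≠ 0 := mul_ne_zero (hfac s) (hfac s')
  obtain ⟨γ, hγ⟩ := IsAlgClosed.exists_pow_nat_eq
    (algebraMap (geomField F E) (AlgebraicClosure E) u) (n := 2) two_pos
  have hevu : ∀ w : Valuation (geomField F E) (WithZero (Multiplicative ℤ)),
      (∃ z : geomField F E, z ≠ 0 ∧ w z ≠ 1) → ∃ z : geomField F E, z ≠ 0 ∧ w u = w z ^ 2 := by
    intro w _
    exact h2 (algebraicClosure ℚ (AlgebraicClosure E)) (geomField F E) x' y' d f s s' hd hsq hev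
      heq htr2 hsf hsf' hss w (fun c hc => QTw.SQRT_.val_one w c hc)
  have hQ := p_QUAD p_RES p_NEWTON (algebraicClosure ℚ (AlgebraicClosure E)) (geomField F E)
    (AlgebraicClosure E) (p_TRD F E x y f d hF hd) u hu0 hevu γ hγ
  have hle : IntermediateField.adjoin (geomField F E) {γ} ≤
      IntermediateField.adjoin (geomField F E) (Set.range (algebraMap E (AlgebraicClosure E))) := by
    rw [hC.geometric]
    exact le_iSup₂_of_le (IntermediateField.adjoin (geomField F E) {γ}) hQ le_rfl
  have hγ' : γ ∈ IntermediateField.adjoin (geomField F E)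
      (Set.range (algebraMap E (AlgebraicClosure E))) :=
    hle (IntermediateField.subset_adjoin _ _ rfl)
  refine ⟨γ, ?_, ?_⟩
  · clear hle hQ hγ
    induction hγ' using IntermediateField.adjoin_induction with
    | mem b hb => exact IntermediateField.subset_adjoin _ _ hb
    | algebraMap q =>
      obtain ⟨q, hq⟩ := q
      have hle2 : geomField F E ≤ IntermediateField.adjoin
          (algebraicClosure ℚ (AlgebraicClosure E))
          (Set.range (algebraMap E (AlgebraicClosure E))) := by
        refine IntermediateField.adjoin_le_iff.2 ?_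
        rintro _ ⟨a, rfl⟩
        rw [IsScalarTower.algebraMap_apply F E (AlgebraicClosure E)]
        exact IntermediateField.subset_adjoin _ _ ⟨_, rfl⟩
      exact hle2 hq
    | add a b _ _ h1 h2 => exact add_mem h1 h2
    | inv a _ h1 => exact inv_mem h1
    | mul a b _ _ h1 h2 => exact mul_mem h1 h2
  · rw [hγ, hu, map_mul, map_sub, map_sub, hxx, ← IsScalarTower.algebraMap_apply,
      ← IsScalarTower.algebraMap_apply, hs, hs', ← IsScalarTower.algebraMap_apply F E]

end Pool.Agent.QTx
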