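import Pool.Agent.QTx.Targets

/-!
# The coefficients of an integer in a power basis
-/

open Polynomial NumberField

namespace Pool.Agent.QTx

namespace VAND_

variable {K : Type} [Field K] [NumberField K]

/-- the basis of powers of a primitive element -/
theorem exists_pb (θ : K) (h : IntermediateField.adjoin ℚ {θ} = ⊤) :
    ∃ b : Module.Basis (Fin (Module.finrank ℚ K)) ℚ K, ∀ i, b i = θ ^ (i : ℕ) := by
  have hint : IsIntegral ℚ θ := Algebra.IsIntegral.isIntegral θ
  have htop : Algebra.adjoin ℚ {θ} = ⊤ := by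
    rw [← IntermediateField.adjoin_simple_toSubalgebra_of_isAlgebraic hint.isAlgebraic, h,
      IntermediateField.top_toSubalgebra]
  have hdim : (PowerBasis.ofAdjoinEqTop hint htop).dim = Module.finrank ℚ K :=
    (PowerBasis.ofAdjoinEqTop hint htop).finrank.symm
  refine ⟨(PowerBasis.ofAdjoinEqTop hint htop).basis.reindex (finCongr hdim), fun i => ?_⟩
  rw [Module.Basis.reindex_apply, PowerBasis.basis_eq_pow, PowerBasis.ofAdjoinEqTop_gen]
  rfl

/-- coordinates are bounded by the absolute values of the conjugates -/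
theorem repr_bound {ι : Type} [Fintype ι] (b : Module.Basis ι ℚ K) (i : ι) :
    ∃ C : ℝ, 0 ≤ C ∧ ∀ (z : K) (R : ℝ), (∀ σ : K →+* ℂ, ‖σ z‖ ≤ R) →
      |((b.repr z i : ℚ) : ℝ)| ≤ C * R := by
  classical
  have hB := traceForm_nondegenerate ℚ K
  have hS : (Algebra.traceForm ℚ K).IsSymm := Algebra.traceForm_isSymm ℚ
  set b' := (Algebra.traceForm ℚ K).dualBasis hB b with hb'
  have e : ∀ z, b.repr z i = Algebra.trace ℚ K (z * b' i) := by
    intro z
    have h1 := LinearMap.BilinForm.dualBasis_repr_apply hB b' z i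
    rw [hb', LinearMap.BilinForm.dualBasis_dualBasis hB hS b] at h1
    rw [h1, Algebra.traceForm_apply]
  refine ⟨∑ σ : K →ₐ[ℚ] ℂ, ‖σ (b' i)‖, by positivity, fun z R hR => ?_⟩
  have h2 : ((b.repr z i : ℚ) : ℂ) = ∑ σ : K →ₐ[ℚ] ℂ, σ (z * b' i) := by
    rw [e, ← trace_eq_sum_embeddings ℂ]
    rfl
  have h3 : |((b.repr z i : ℚ) : ℝ)| = ‖((b.repr z i : ℚ) : ℂ)‖ := by
    rw [Complex.norm_ratCast]
  rw [h3, h2, Finset.sum_mul]
  refine (norm_sum_le _ _).trans (Finset.sum_le_sum fun σ _ => ?_)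
  rw [map_mul, norm_mul, mul_comm]
  exact mul_le_mul_of_nonneg_left (hR σ.toRingHom) (norm_nonneg _)

end VAND_

open VAND_ in
/-- VAND -/
theorem p_VAND : T_VAND := by
  intro K _ _ θ hθ
  obtain ⟨b, hb⟩ := exists_pb θ hθ
  choose C hC0 hC using fun i => repr_bound b i
  set ω := RingOfIntegers.basis K with hω
  set q : Fin (Module.finrank ℚ K) → Module.Free.ChooseBasisIndex ℤ (𝓞 K) → ℚ :=
    fun i j => b.repr ((ω j : 𝓞 K) : K) i with hq
  set D : ℕ := ∏ i, ∏ j, (q i j).den with hD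
  have hD0 : 0 < D := Finset.prod_pos fun i _ => Finset.prod_pos fun j _ => (q i j).den_pos
  have hDq : ∀ i j, ∃ m : ℤ, (m : ℚ) = D * q i j := by
    intro i j
    have h1 : (q i j).den ∣ D :=
      (Finset.dvd_prod_of_mem (fun j => (q i j).den) (Finset.mem_univ j)).trans
        (Finset.dvd_prod_of_mem (fun i => ∏ j, (q i j).den) (Finset.mem_univ i))
    obtain ⟨c, hc⟩ := h1
    refine ⟨c * (q i j).num, ?_⟩
    rw [hc]
    push_cast
    have h2 := Rat.den_mul_eq_num (q i j)
    rw [← h2]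
    ring
  choose m hm using hDq
  have hsum : (0 : ℝ) ≤ ∑ i, C i := Finset.sum_nonneg fun i _ => hC0 i
  have hDr : (0 : ℝ) < D := by exact_mod_cast hD0
  refine ⟨D, D * (∑ i, C i) + 1, hD0, by positivity, fun α => ?_⟩
  set z : Fin (Module.finrank ℚ K) → ℤ := fun i => ∑ j, ω.repr α j * m i j with hzdef
  have hα : (α : K) = ∑ j, (ω.repr α j : ℚ) • ((ω j : 𝓞 K) : K) := by
    have h0 : (algebraMap (𝓞 K) K) α = (algebraMap (𝓞 K) K) (∑ j, ω.repr α j • ω j) := by
      rw [ω.sum_repr α]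
    change (algebraMap (𝓞 K) K) α = _
    rw [h0, map_sum]
    refine Finset.sum_congr rfl fun j _ => ?_
    rw [zsmul_eq_mul, map_mul, map_intCast, Algebra.smul_def]
    simp
  have hz : ∀ i, (z i : ℚ) = D * b.repr (α : K) i := by
    intro i
    have h1 : b.repr (α : K) i = ∑ j, (ω.repr α j : ℚ) * q i j := by
      conv_lhs => rw [hα]
      rw [map_sum, Finsupp.finsetSum_apply]
      refine Finset.sum_congr rfl fun j _ => ?_
      rw [map_smul, Finsupp.smul_apply, smul_eq_mul]
    rw [h1, hzdef]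
    push_cast
    rw [Finset.mul_sum]
    refine Finset.sum_congr rfl fun j _ => ?_
    rw [hm]
    ring
  refine ⟨∑ i : Fin (Module.finrank ℚ K), Polynomial.C (z i) * X ^ (i : ℕ), ?_, ?_, ?_⟩
  · by_cases h0 : (∑ i : Fin (Module.finrank ℚ K), Polynomial.C (z i) * X ^ (i : ℕ)) = 0
    · rw [h0, natDegree_zero]
      exact Module.finrank_pos
    · exact (natDegree_lt_iff_degree_lt h0).2 (degree_sum_fin_lt _)
  · rw [map_sum]
    have h1 : (α : K) = ∑ i, (b.repr (α : K) i) • b i := (b.sum_repr _).symm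
    conv_rhs => rw [h1]
    rw [Finset.mul_sum]
    refine Finset.sum_congr rfl fun i _ => ?_
    rw [map_mul, aeval_C, map_pow, aeval_X, hb, Algebra.smul_def, ← mul_assoc]
    congr 1
    have h2 := congrArg (algebraMap ℚ K) (hz i)
    rw [map_mul, map_natCast, map_intCast] at h2
    rw [← h2]
    simp
  · intro R hR k
    have hR0 : 0 ≤ R := by
      obtain ⟨σ⟩ : Nonempty (K →+* ℂ) := inferInstance
      exact (norm_nonneg _).trans (hR σ)
    rw [finsetSum_coeff]
    simp only [coeff_C_mul_X_pow]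
    by_cases hk : k < Module.finrank ℚ K
    · rw [Finset.sum_eq_single ⟨k, hk⟩]
      · rw [if_pos rfl]
        have h1 : ((z ⟨k, hk⟩ : ℤ) : ℝ) = D * ((b.repr (α : K) ⟨k, hk⟩ : ℚ) : ℝ) := by
          exact_mod_cast congrArg (fun x : ℚ => (x : ℝ)) (hz ⟨k, hk⟩)
        rw [h1, abs_mul, abs_of_pos hDr]
        have h2 := hC ⟨k, hk⟩ (α : K) R hR
        have h3 : C ⟨k, hk⟩ ≤ ∑ i, C i :=
          Finset.single_le_sum (fun i _ => hC0 i) (Finset.mem_univ _)
        calc (D : ℝ) * |((b.repr (α : K) ⟨k, hk⟩ : ℚ) : ℝ)| ≤ D * (C ⟨k, hk⟩ * R) := by gcongr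
          _ ≤ D * ((∑ i, C i) * R) := by gcongr
          _ ≤ (D * (∑ i, C i) + 1) * R := by nlinarith
      · intro i _ hi
        rw [if_neg]
        intro h
        exact hi (Fin.ext h.symm)
      · intro h
        exact absurd (Finset.mem_univ _) h
    · rw [Finset.sum_eq_zero]
      · simp only [Int.cast_zero, abs_zero]
        positivity
      · intro i _
        rw [if_neg]
        intro h
        exact hk (h ▸ i.2)

end Pool.Agent.QTx
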