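import Pool.Agent.QTx.Targets

set_option autoImplicit false

/-! # The product of the signs (`T_XI`) -/

open Polynomial NumberField

namespace Pool.Agent.QTx

namespace XI_

/-- a Bezout identity over the integers -/
theorem bezout (g : ℤ[X]) (hg : Irreducible (g.map (Int.castRingHom ℚ))) :
    ∃ D : ℤ, D ≠ 0 ∧ ∃ u v : ℤ[X], u * g + v * derivative g = C D := by
  obtain ⟨a, b, hab⟩ := hg.separable
  obtain ⟨ca, hca, ha⟩ := IsLocalization.integerNormalization_spec (nonZeroDivisors ℤ) a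
  obtain ⟨cb, hcb, hb⟩ := IsLocalization.integerNormalization_spec (nonZeroDivisors ℤ) b
  have hca0 : ca ≠ 0 := nonZeroDivisors.ne_zero hca
  have hcb0 : cb ≠ 0 := nonZeroDivisors.ne_zero hcb
  refine ⟨ca * cb, mul_ne_zero hca0 hcb0,
    C cb * IsLocalization.integerNormalization (nonZeroDivisors ℤ) a,
    C ca * IsLocalization.integerNormalization (nonZeroDivisors ℤ) b, ?_⟩
  apply Polynomial.map_injective (algebraMap ℤ ℚ) (RingHom.injective_int _)
  have e : algebraMap ℤ ℚ = Int.castRingHom ℚ := rfl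
  rw [Polynomial.map_add, Polynomial.map_mul, Polynomial.map_mul, Polynomial.map_mul,
    Polynomial.map_mul, ha, hb, Polynomial.map_C, Polynomial.map_C, Polynomial.map_C,
    ← Polynomial.derivative_map, e]
  have h1 : ca • a = C (ca : ℚ) * a := by
    rw [← Polynomial.smul_eq_C_mul, Int.cast_smul_eq_zsmul]
  have h2 : cb • b = C (cb : ℚ) * b := by
    rw [← Polynomial.smul_eq_C_mul, Int.cast_smul_eq_zsmul]
  rw [h1, h2]
  have h3 : (Int.castRingHom ℚ) ca = (ca : ℚ) := rfl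
  have h4 : (Int.castRingHom ℚ) cb = (cb : ℚ) := rfl
  have h5 : (Int.castRingHom ℚ) (ca * cb) = (ca : ℚ) * cb := by simp
  rw [h3, h4, h5, map_mul]
  linear_combination (C (ca : ℚ) * C (cb : ℚ)) * hab

/-- squarefree modulo good primes -/
theorem sqf (g u v : ℤ[X]) (D : ℤ) (h : u * g + v * derivative g = C D) (p : ℕ) (hp : p.Prime)
    (hD : ¬ (p : ℤ) ∣ D) : Squarefree (g.map (Int.castRingHom (ZMod p))) := by
  have : Fact p.Prime := ⟨hp⟩
  apply Polynomial.Separable.squarefree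
  have hD' : ((D : ℤ) : ZMod p) ≠ 0 := by
    rw [Ne, ZMod.intCast_zmod_eq_zero_iff_dvd]
    exact hD
  have h1 := congrArg (Polynomial.map (Int.castRingHom (ZMod p))) h
  rw [Polynomial.map_add, Polynomial.map_mul, Polynomial.map_mul, Polynomial.map_C,
    ← Polynomial.derivative_map] at h1
  refine ⟨C ((D : ZMod p)⁻¹) * u.map (Int.castRingHom (ZMod p)),
    C ((D : ZMod p)⁻¹) * v.map (Int.castRingHom (ZMod p)), ?_⟩
  have h2 : (Int.castRingHom (ZMod p)) D = (D : ZMod p) := rfl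
  rw [h2] at h1
  have h3 : C ((D : ZMod p)⁻¹) * C (D : ZMod p) = 1 := by
    rw [← C_mul, inv_mul_cancel₀ hD', C_1]
  rw [← h3, ← h1]
  ring

/-- the value at a root modulo `p` is a unit -/
theorem unit {g u v : ℤ[X]} {D : ℤ} (h : u * g + v * derivative g = C D) {p : ℕ} (hp : p.Prime)
    (hD : ¬ (p : ℤ) ∣ D) {N q s : ℕ} {P : ℤ[X]} (hP : IsPi g N q s P) (hpN : ¬ p ∣ N)
    (hpq : p ≠ q) (t : ℕ) (ht : (p : ℤ) ∣ g.eval (t : ℤ)) : ¬ (p : ℤ) ∣ P.eval (t : ℤ) := by
  have : Fact p.Prime := ⟨hp⟩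
  intro hdvd
  have key : ∀ f : ℤ[X], aeval ((t : ℕ) : ℤ_[p]) f = ((f.eval (t : ℤ) : ℤ) : ℤ_[p]) := by
    intro f
    have h1 : ((t : ℕ) : ℤ_[p]) = algebraMap ℤ ℤ_[p] (t : ℤ) := by simp
    rw [h1, Polynomial.aeval_algebraMap_apply]
    simp
  have hder : ¬ (p : ℤ) ∣ (derivative g).eval (t : ℤ) := by
    intro hd
    apply hD
    have h1 := congrArg (Polynomial.eval (t : ℤ)) h
    rw [eval_add, eval_mul, eval_mul, eval_C] at h1
    rw [← h1]
    exact dvd_add (Dvd.dvd.mul_left ht _) (Dvd.dvd.mul_left hd _)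
  have hn1 : ‖aeval ((t : ℕ) : ℤ_[p]) (derivative g)‖ = 1 := by
    rw [key]
    apply le_antisymm (PadicInt.norm_le_one _)
    rw [← not_lt, PadicInt.norm_int_lt_one_iff_dvd]
    exact hder
  have hn2 : ‖aeval ((t : ℕ) : ℤ_[p]) g‖ < 1 := by
    rw [key, PadicInt.norm_int_lt_one_iff_dvd]
    exact ht
  obtain ⟨z, hz, hzt, -, -⟩ := hensels_lemma (p := p) (R := ℤ) (F := g) (a := ((t : ℕ) : ℤ_[p]))
    (by rw [hn1, one_pow]; exact hn2)
  rw [hn1] at hzt
  have hroot : aeval (algebraMap ℚ_[p] (PadicAlgCl p) (algebraMap ℤ_[p] ℚ_[p] z)) g = 0 := by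
    rw [Polynomial.aeval_algebraMap_apply, Polynomial.aeval_algebraMap_apply, hz, map_zero,
      map_zero]
  have h1 := hP p hpN _ hroot
  rw [if_neg (fun h => hpq h.1), Polynomial.aeval_algebraMap_apply, PadicAlgCl.norm_extends,
    Polynomial.aeval_algebraMap_apply] at h1
  have h2 : ‖aeval z P‖ = 1 := h1
  have h3 : ‖aeval ((t : ℕ) : ℤ_[p]) P‖ < 1 := by
    rw [key, PadicInt.norm_int_lt_one_iff_dvd]
    exact hdvd
  have h4 : ‖aeval z P - aeval ((t : ℕ) : ℤ_[p]) P‖ < 1 := by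
    have h5 : z - ((t : ℕ) : ℤ_[p]) ∣ aeval z P - aeval ((t : ℕ) : ℤ_[p]) P := by
      rw [Polynomial.aeval_def, Polynomial.aeval_def, ← Polynomial.eval_map, ← Polynomial.eval_map]
      exact Polynomial.sub_dvd_eval_sub _ _ _
    obtain ⟨w, hw⟩ := h5
    rw [hw, norm_mul]
    calc ‖z - ((t : ℕ) : ℤ_[p])‖ * ‖w‖ ≤ ‖z - ((t : ℕ) : ℤ_[p])‖ * 1 :=
          mul_le_mul_of_nonneg_left (PadicInt.norm_le_one w) (norm_nonneg _)
      _ < 1 := by rw [mul_one]; exact hzt
  have h5 : ‖aeval z P‖ < 1 := by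
    have h6 : aeval z P = (aeval z P - aeval ((t : ℕ) : ℤ_[p]) P) +
        aeval ((t : ℕ) : ℤ_[p]) P := by ring
    rw [h6]
    exact lt_of_le_of_lt (PadicInt.nonarchimedean _ _) (max_lt h4 h3)
  rw [h2] at h5
  exact lt_irrefl _ h5

theorem mem_Rts {ι : Type} [Fintype ι] [DecidableEq ι] (g : ι → ℤ[X]) (N p : ℕ) (hp : p.Prime)
    (hpN : ¬ p ∣ N) (r : ι × ℕ) :
    r ∈ Rts g N p ↔ r.2 < p ∧ (p : ℤ) ∣ (g r.1).eval (r.2 : ℤ) := by
  unfold Rts
  rw [if_pos ⟨hp, hpN⟩]
  simp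

theorem of_mem_Rts {ι : Type} [Fintype ι] [DecidableEq ι] {g : ι → ℤ[X]} {N p : ℕ}
    {r : ι × ℕ} (h : r ∈ Rts g N p) : p.Prime ∧ ¬ p ∣ N := by
  unfold Rts at h
  split_ifs at h with h1
  · exact h1
  · exact absurd h (Finset.notMem_empty _)

open Classical in
theorem card_le {ι : Type} [Fintype ι] [DecidableEq ι] (g : ι → ℤ[X]) (N p : ℕ) (hp : p.Prime)
    (hpN : ¬ p ∣ N) (i : ι) (hlc : ¬ (p : ℤ) ∣ (g i).leadingCoeff) :
    ((Rts g N p).filter (fun r => r.1 = i)).card ≤ (g i).natDegree := by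
  have : Fact p.Prime := ⟨hp⟩
  have hlc' : (Int.castRingHom (ZMod p)) (g i).leadingCoeff ≠ 0 := by
    show (((g i).leadingCoeff : ℤ) : ZMod p) ≠ 0
    rw [Ne, ZMod.intCast_zmod_eq_zero_iff_dvd]
    exact hlc
  have hne : (g i).map (Int.castRingHom (ZMod p)) ≠ 0 := by
    intro h
    have h1 := congrArg (fun f => Polynomial.coeff f (g i).natDegree) h
    simp only [Polynomial.coeff_map, Polynomial.coeff_zero] at h1
    exact hlc' h1
  have h1 : ((Rts g N p).filter (fun r => r.1 = i)).card ≤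
      ((g i).map (Int.castRingHom (ZMod p))).roots.toFinset.card := by
    apply Finset.card_le_card_of_injOn (fun r => (r.2 : ZMod p))
    · intro r hr
      obtain ⟨hr1, hr2⟩ := Finset.mem_filter.1 (Finset.mem_coe.1 hr)
      rw [mem_Rts g N p hp hpN] at hr1
      simp only [Finset.mem_coe, Multiset.mem_toFinset]
      rw [Polynomial.mem_roots hne, Polynomial.IsRoot.def]
      have h2 : ((r.2 : ℕ) : ZMod p) = (Int.castRingHom (ZMod p)) (r.2 : ℤ) := by simp
      rw [h2, Polynomial.eval_map, Polynomial.eval₂_at_apply]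
      show ((eval (r.2 : ℤ) (g i) : ℤ) : ZMod p) = 0
      rw [ZMod.intCast_zmod_eq_zero_iff_dvd, ← hr2]
      exact hr1.2
    · intro r hr r' hr' h
      obtain ⟨hr1, hr2⟩ := Finset.mem_filter.1 (Finset.mem_coe.1 hr)
      obtain ⟨hr1', hr2'⟩ := Finset.mem_filter.1 (Finset.mem_coe.1 hr')
      rw [mem_Rts g N p hp hpN] at hr1 hr1'
      have h2 : r.2 = r'.2 := by
        have h3 := (ZMod.natCast_eq_natCast_iff' _ _ _).1 h
        rwa [Nat.mod_eq_of_lt hr1.1, Nat.mod_eq_of_lt hr1'.1] at h3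
      exact Prod.ext (hr2.trans hr2'.symm) h2
  refine h1.trans ((Multiset.toFinset_card_le _).trans ((Polynomial.card_roots' _).trans ?_))
  exact Polynomial.natDegree_map_le

theorem pol_coeff (n : ℕ) (P : ℤ[X]) (h : P.natDegree < n) :
    pol (fun k : Fin n => P.coeff k) = P := by
  unfold pol
  have h1 := Fin.sum_univ_eq_sum_range (n := n) (fun k => C (P.coeff k) * X ^ k)
  exact h1.trans (Polynomial.as_sum_range_C_mul_X_pow' P h).symm

theorem pair_eq {ι : Type} {i : ι} {r r' : ι × ℕ} (h : r.1 = i) (h' : r'.1 = i)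
    (e : r.2 = r'.2) : r = r' := Prod.ext (h.trans h'.symm) e

open Classical in
theorem prod_snd {ι : Type} [DecidableEq ι] (S : Finset (ι × ℕ)) (i : ι) (F : ℕ → ℝ) :
    ∏ r ∈ S.filter (fun r => r.1 = i), F r.2 =
      ∏ t ∈ (S.filter (fun r => r.1 = i)).image Prod.snd, F t := by
  rw [Finset.prod_image]
  intro r hr r' hr' e
  exact pair_eq (Finset.mem_filter.1 (Finset.mem_coe.1 hr)).2
    (Finset.mem_filter.1 (Finset.mem_coe.1 hr')).2 e

open Classical in
theorem card_snd {ι : Type} [DecidableEq ι] (S : Finset (ι × ℕ)) (i : ι) :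
    ((S.filter (fun r => r.1 = i)).image Prod.snd).card =
      (S.filter (fun r => r.1 = i)).card := by
  apply Finset.card_image_of_injOn
  intro r hr r' hr' e
  exact pair_eq (Finset.mem_filter.1 (Finset.mem_coe.1 hr)).2
    (Finset.mem_filter.1 (Finset.mem_coe.1 hr')).2 e

theorem jac_sq {a : ℤ} {p : ℕ} (hp : p.Prime) (h : ¬ (p : ℤ) ∣ a) :
    (jacobiSym a p : ℝ) * (jacobiSym a p : ℝ) = 1 := by
  have h1 : a.gcd (p : ℤ) = 1 := by
    rw [Int.gcd_comm]
    have h2 : Nat.Coprime p a.natAbs := (Nat.Prime.coprime_iff_not_dvd hp (n := a.natAbs)).2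
      (fun hd => h (Int.natCast_dvd.2 hd))
    simpa [Int.gcd] using h2
  have h2 := jacobiSym.sq_one h1
  rw [pow_two] at h2
  exact_mod_cast h2

end XI_

open XI_ in
theorem p_XI (h1 : T_ZS) (h2 : T_NU) : T_XI := by
  classical
  intro n g hg
  choose D hD u v huv using fun i => bezout (g i) (hg.irr i)
  have hlc0 : ∀ i, (g i).leadingCoeff ≠ 0 := by
    intro i h
    have := hg.deg i
    rw [Polynomial.leadingCoeff_eq_zero.1 h, Polynomial.natDegree_zero] at this
    omega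
  refine ⟨2 * ∏ i, ((g i).leadingCoeff.natAbs * (D i).natAbs), ?_, ?_⟩
  · apply Nat.mul_pos (by norm_num)
    apply Finset.prod_pos
    intro i _
    exact Nat.mul_pos (Int.natAbs_pos.2 (hlc0 i)) (Int.natAbs_pos.2 (hD i))
  intro N P C hN hN0 hPi hCoef p ρ S i hp hpN hρ hS hρS hTr
  have hgood : ∀ l : ℕ, ¬ l ∣ N → l ≠ 2 ∧ (∀ i, ¬ (l : ℤ) ∣ (g i).leadingCoeff) ∧
      ∀ i, ¬ (l : ℤ) ∣ D i := by
    intro l hl
    have h3 : ∀ i, (g i).leadingCoeff.natAbs * (D i).natAbs ∣ N := fun i =>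
      (Finset.dvd_prod_of_mem _ (Finset.mem_univ i)).trans ((Dvd.intro_left _ rfl).trans hN0)
    refine ⟨?_, ?_, ?_⟩
    · rintro rfl
      exact hl ((Dvd.intro _ rfl).trans hN0)
    · intro i hd
      exact hl ((Int.natCast_dvd.1 hd).trans ((Dvd.intro _ rfl).trans (h3 i)))
    · intro i hd
      exact hl ((Int.natCast_dvd.1 hd).trans ((Dvd.intro_left _ rfl).trans (h3 i)))
  have hlcN : (g i).leadingCoeff ∣ (N : ℤ) := by
    have h3 : (g i).leadingCoeff.natAbs * (D i).natAbs ∣ N :=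
      (Finset.dvd_prod_of_mem (fun i => (g i).leadingCoeff.natAbs * (D i).natAbs)
        (Finset.mem_univ i)).trans ((Dvd.intro_left _ rfl).trans hN0)
    exact Int.natAbs_dvd.1 (Int.natCast_dvd_natCast.2 ((Dvd.intro _ rfl).trans h3))
  obtain ⟨hp2, hplc, hpD⟩ := hgood p hpN
  have hdeg : 0 < (g i).natDegree := lt_of_lt_of_le (by norm_num) (hg.deg i)
  have hT : ∀ S' : Finset (Fin (n + 1) × ℕ), S' ⊆ Rts g N p →
      ∀ t ∈ (S'.filter (fun r => r.1 = i)).image Prod.snd,
        t < p ∧ (p : ℤ) ∣ (g i).eval (t : ℤ) := by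
    intro S' hS' t ht
    obtain ⟨r, hr, rfl⟩ := Finset.mem_image.1 ht
    obtain ⟨hr1, hr2⟩ := Finset.mem_filter.1 hr
    have h3 := (mem_Rts g N p hp hpN r).1 (hS' hr1)
    rw [hr2] at h3
    exact h3
  have hins : insert ρ S ⊆ Rts g N p := Finset.insert_subset hρ hS
  constructor
  · by_cases he : Even S.card
    · have h3 : Xi g p ρ S i = fun w => (if (false = true) then
          ((jacobiSym (res (g i) w) p : ℤ) : ℝ) else 1) *
          ∏ t ∈ (S.filter (fun r => r.1 = i)).image Prod.snd,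
            ((jacobiSym ((pol w).eval (t : ℤ)) p : ℤ) : ℝ) := by
        funext w
        unfold Xi
        rw [if_pos he, if_neg (by simp), one_mul]
        exact prod_snd S i (fun t => ((jacobiSym ((pol w).eval (t : ℤ)) p : ℤ) : ℝ))
      rw [h3]
      apply h1 (g i) p hp hp2 hdeg (hplc i) (sqf (g i) (u i) (v i) (D i) (huv i) p hp (hpD i))
        _ false (hT S hS)
      rw [if_neg (by simp)]
      by_contra hne
      apply hTr
      left
      refine ⟨he, fun ρ' hρ' hi => hne ?_⟩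
      exact ⟨ρ'.2, Finset.mem_image.2 ⟨ρ', Finset.mem_filter.2 ⟨hρ', hi⟩, rfl⟩⟩
    · have h3 : Xi g p ρ S i = fun w => (if (true = true) then
          ((jacobiSym (res (g i) w) p : ℤ) : ℝ) else 1) *
          ∏ t ∈ ((insert ρ S).filter (fun r => r.1 = i)).image Prod.snd,
            ((jacobiSym ((pol w).eval (t : ℤ)) p : ℤ) : ℝ) := by
        funext w
        unfold Xi
        rw [if_neg he, if_pos rfl]
        congr 1
        exact prod_snd (insert ρ S) i
          (fun t => ((jacobiSym ((pol w).eval (t : ℤ)) p : ℤ) : ℝ))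
      rw [h3]
      apply h1 (g i) p hp hp2 hdeg (hplc i) (sqf (g i) (u i) (v i) (D i) (huv i) p hp (hpD i))
        _ true (hT _ hins)
      rw [if_pos rfl, card_snd]
      by_contra hge
      rw [not_lt] at hge
      apply hTr
      right
      have h4 : (insert ρ S).filter (fun r => r.1 = i) ⊆
          (Rts g N p).filter (fun r => r.1 = i) := Finset.filter_subset_filter _ hins
      have h5 := card_le g N p hp hpN i (hplc i)
      have h6 := Finset.card_le_card h4
      have h7 : (insert ρ S).filter (fun r => r.1 = i) =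
          (Rts g N p).filter (fun r => r.1 = i) :=
        Finset.eq_of_subset_of_card_le h4 (h5.trans hge)
      refine ⟨Nat.not_even_iff_odd.1 he, le_antisymm h5 (hge.trans h6), ?_⟩
      intro ρ' hρ' hi
      have h8 : ρ' ∈ (Rts g N p).filter (fun r => r.1 = i) := Finset.mem_filter.2 ⟨hρ', hi⟩
      rw [← h7] at h8
      exact (Finset.mem_filter.1 h8).1
  · intro q s hq hqp hqs
    obtain ⟨-, hqN⟩ := of_mem_Rts hqs
    obtain ⟨hs1, hs2⟩ := (mem_Rts g N q hq hqN (i, s)).1 hqs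
    obtain ⟨hq2, hqlc, hqD⟩ := hgood q hqN
    have hIsPi := hPi i q s hq hqN hs1 hs2
    obtain ⟨hPdeg, hPco⟩ := hCoef i q s hq hqN hs1 hs2
    obtain ⟨B, hB⟩ := h2 (g i) (hg.irr i) N C hN hlcN
    obtain ⟨hnu1, -, hnu3⟩ := hB q s (P i q s) hq hqN hs1 hs2
      (sqf (g i) (u i) (v i) (D i) (huv i) q hq (hqD i)) hIsPi hPdeg hPco
    have hnup := hnu3 p hp hpN
    have hqu : ¬ (p : ℤ) ∣ (q : ℤ) := by
      rw [Int.natCast_dvd_natCast]
      intro hd
      exact hqp ((Nat.prime_dvd_prime_iff_eq hp hq).1 hd).symm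
    have hunit : ∀ r ∈ Rts g N p, r.1 = i → ¬ (p : ℤ) ∣ (P i q s).eval (r.2 : ℤ) := by
      intro r hr hri
      have h3 := (mem_Rts g N p hp hpN r).1 hr
      rw [hri] at h3
      exact unit (huv i) hp (hpD i) hIsPi hpN (Ne.symm hqp) r.2 h3.2
    have hvl : ∀ r ∈ Rts g N p, (jacobiSym (vl P r q (i, s)) p : ℝ) * (jacobiSym (vl P r q (i, s)) p : ℝ) = 1 := by
      intro r hr
      unfold vl
      by_cases hri : r.1 = i
      · simp only [hri, if_true]
        exact jac_sq hp (hunit r hr hri)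
      · simp only [hri, if_false, jacobiSym.one_left, Int.cast_one, mul_one]
    have hprod : ∏ ρ' ∈ S, (jacobiSym (vl P ρ' q (i, s)) p : ℝ) =
        ∏ r ∈ S.filter (fun r => r.1 = i),
          ((jacobiSym ((P i q s).eval (r.2 : ℤ)) p : ℤ) : ℝ) := by
      rw [Finset.prod_filter]
      apply Finset.prod_congr rfl
      intro r _
      unfold vl
      by_cases hri : r.1 = i
      · simp only [hri, if_true]
      · simp only [hri, if_false, jacobiSym.one_left, Int.cast_one]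
    have hpow : ∏ ρ' ∈ S, (sg P p ρ ρ' q (i, s) : ℝ) =
        ((jacobiSym (q : ℤ) p : ℝ) * (jacobiSym (vl P ρ q (i, s)) p : ℝ)) ^ S.card *
          ∏ ρ' ∈ S, (jacobiSym (vl P ρ' q (i, s)) p : ℝ) := by
      rw [← Finset.prod_const, ← Finset.prod_mul_distrib]
      apply Finset.prod_congr rfl
      intro r _
      unfold sg
      rw [jacobiSym.mul_left, jacobiSym.mul_left]
      push_cast
      ring
    have hsq : ((jacobiSym (q : ℤ) p : ℝ) * (jacobiSym (vl P ρ q (i, s)) p : ℝ)) ^ 2 = 1 := by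
      have e1 := jac_sq hp hqu
      have e2 := hvl ρ hρ
      calc ((jacobiSym (q : ℤ) p : ℝ) * (jacobiSym (vl P ρ q (i, s)) p : ℝ)) ^ 2 =
          ((jacobiSym (q : ℤ) p : ℝ) * (jacobiSym (q : ℤ) p : ℝ)) *
          ((jacobiSym (vl P ρ q (i, s)) p : ℝ) * (jacobiSym (vl P ρ q (i, s)) p : ℝ)) := by ring
        _ = 1 := by rw [e1, e2, mul_one]
    rw [hpow, hprod]
    unfold Xi
    rw [pol_coeff _ _ hPdeg]
    by_cases he : Even S.card
    · rw [if_pos he, if_neg (Nat.not_odd_iff_even.2 he), mul_one]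
      obtain ⟨k, hk⟩ := he
      rw [hk, ← two_mul, pow_mul, hsq, one_pow, one_mul]
    · have ho := Nat.not_even_iff_odd.1 he
      rw [if_neg he, if_pos ho, hnu1, jacobiSym.mul_left]
      obtain ⟨k, hk⟩ := ho
      rw [hk, pow_add, pow_mul, hsq, one_pow, one_mul, pow_one]
      have e3 := jac_sq hp hnup
      have hins2 : ∏ r ∈ (insert ρ S).filter (fun r => r.1 = i),
          ((jacobiSym ((P i q s).eval (r.2 : ℤ)) p : ℤ) : ℝ) =
          (jacobiSym (vl P ρ q (i, s)) p : ℝ) * ∏ r ∈ S.filter (fun r => r.1 = i),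
          ((jacobiSym ((P i q s).eval (r.2 : ℤ)) p : ℤ) : ℝ) := by
        rw [Finset.filter_insert]
        unfold vl
        by_cases hri : ρ.1 = i
        · rw [if_pos hri, Finset.prod_insert (fun h => hρS (Finset.mem_filter.1 h).1)]
          simp only [hri, if_true]
        · rw [if_neg hri]
          simp only [hri, if_false, jacobiSym.one_left, Int.cast_one, one_mul]
      rw [hins2]
      push_cast
      calc (jacobiSym (q : ℤ) p : ℝ) * (jacobiSym (vl P ρ q (i, s)) p : ℝ) *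
          ∏ r ∈ S.filter (fun r => r.1 = i), ((jacobiSym ((P i q s).eval (r.2 : ℤ)) p : ℤ) : ℝ)
          = (jacobiSym (q : ℤ) p : ℝ) * (jacobiSym (vl P ρ q (i, s)) p : ℝ) *
          (∏ r ∈ S.filter (fun r => r.1 = i),
            ((jacobiSym ((P i q s).eval (r.2 : ℤ)) p : ℤ) : ℝ)) *
          ((jacobiSym (nu (g i) q (P i q s)) p : ℝ) *
            (jacobiSym (nu (g i) q (P i q s)) p : ℝ)) := by rw [e3, mul_one]
        _ = _ := by ring

end Pool.Agent.QTx
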