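import Pool.Agent.QTx.Targets

set_option autoImplicit false

/-!
# Mean value zero of the characters (job QTX-ZS)
-/

namespace Pool.Agent.QTx

open Polynomial

namespace ZS_

section field

variable {F : Type} [Field F]

/-- the polynomial with given coefficients -/
noncomputable def pF {n : ℕ} (u : Fin n → F) : F[X] := ∑ k : Fin n, C (u k) * X ^ (k : ℕ)

theorem pF_coeff {n : ℕ} (u : Fin n → F) (k : Fin n) : (pF u).coeff k = u k := by
  unfold pF
  rw [finsetSum_coeff]
  simp only [coeff_C_mul, coeff_X_pow, mul_ite, mul_one, mul_zero]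
  rw [Finset.sum_eq_single k]
  · simp
  · intro b _ hb
    rw [if_neg]
    intro h
    exact hb (Fin.ext h.symm)
  · intro h
    exact absurd (Finset.mem_univ k) h

theorem pF_degree_lt {n : ℕ} (u : Fin n → F) : (pF u).degree < n := by
  exact degree_sum_fin_lt u

theorem pF_of {n : ℕ} (Q : F[X]) (hQ : Q.degree < n) : pF (fun k : Fin n => Q.coeff k) = Q := by
  unfold pF
  rw [Fin.sum_univ_eq_sum_range (fun k => C (Q.coeff k) * X ^ k) n]
  ext j
  rw [finsetSum_coeff]
  simp only [coeff_C_mul, coeff_X_pow, mul_ite, mul_one, mul_zero]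
  rw [Finset.sum_ite_eq]
  split_ifs with h
  · rfl
  · rw [Finset.mem_range, not_lt] at h
    exact (coeff_eq_zero_of_degree_lt (hQ.trans_le (by exact_mod_cast h))).symm

theorem crt {g h1 h2 W : F[X]} (hg : g = h1 * h2) (hirr : Irreducible h1) (hc : IsCoprime h1 h2)
    (hW : ¬ h1 ∣ W) : ∃ U : F[X], h1 ∣ U - W ∧ h2 ∣ U - 1 ∧ IsCoprime U g := by
  obtain ⟨a, b, hab⟩ := hc
  have e1 : h1 ∣ (W * (b * h2) + a * h1) - W :=
    ⟨a * (1 - W), by linear_combination W * hab⟩
  have e2 : h2 ∣ (W * (b * h2) + a * h1) - 1 :=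
    ⟨b * (W - 1), by linear_combination hab⟩
  refine ⟨W * (b * h2) + a * h1, e1, e2, ?_⟩
  rw [hg]
  refine IsCoprime.mul_right ?_ ?_
  · refine IsCoprime.symm (hirr.coprime_iff_not_dvd.2 fun h => hW ?_)
    have := dvd_sub h e1
    simpa using this
  · obtain ⟨k, hk⟩ := e2
    exact ⟨1, -k, by linear_combination hk⟩

theorem mod_degree {n : ℕ} (g : F[X]) (hn : g.natDegree = n) (hg : g ≠ 0) (Q : F[X]) :
    (Q % g).degree < n := by
  have h := EuclideanDomain.mod_lt Q hg
  rw [← hn, ← degree_eq_natDegree hg]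
  exact h

theorem sum_zero [Fintype F] [DecidableEq F] {n : ℕ} (g : F[X]) (hn : g.natDegree = n)
    (hg : g ≠ 0) (U : F[X]) (hU : IsCoprime U g) (Ψ : F[X] → ℤ)
    (hΨ : ∀ P : F[X], P.degree < n → Ψ ((U * P) % g) = - Ψ P) :
    ∑ u : Fin n → F, Ψ (pF u) = 0 := by
  set S : (Fin n → F) → (Fin n → F) := fun u k => ((U * pF u) % g).coeff k with hS
  have hpS : ∀ u, pF (S u) = (U * pF u) % g := fun u => pF_of _ (mod_degree g hn hg _)
  have hinj : Function.Injective S := by
    intro u w huw
    have h1 : (U * pF u) % g = (U * pF w) % g := by rw [← hpS, ← hpS, huw]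
    have h2 : g ∣ U * (pF u - pF w) := by
      have e1 := EuclideanDomain.div_add_mod (U * pF u) g
      have e2 := EuclideanDomain.div_add_mod (U * pF w) g
      rw [h1] at e1
      exact ⟨(U * pF u) / g - (U * pF w) / g, by linear_combination e2 - e1⟩
    have h3 : g ∣ pF u - pF w := hU.symm.dvd_of_dvd_mul_left h2
    have h4 : pF u - pF w = 0 := by
      refine eq_zero_of_dvd_of_degree_lt h3 ?_
      rw [degree_eq_natDegree hg, hn]
      exact (degree_sub_le _ _).trans_lt (max_lt (pF_degree_lt u) (pF_degree_lt w))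
    have h5 : pF u = pF w := sub_eq_zero.1 h4
    funext k
    rw [← pF_coeff u k, ← pF_coeff w k, h5]
  have hbij : Function.Bijective S := Finite.injective_iff_bijective.1 hinj
  have h6 : ∑ u, Ψ (pF (S u)) = ∑ u : Fin n → F, Ψ (pF u) := hbij.sum_comp (fun u => Ψ (pF u))
  have h7 : ∑ u, Ψ (pF (S u)) = - ∑ u : Fin n → F, Ψ (pF u) := by
    rw [← Finset.sum_neg_distrib]
    exact Finset.sum_congr rfl fun u _ => by rw [hpS, hΨ _ (pF_degree_lt u)]
  omega

theorem eval_mod {K : Type} [Field K] [Algebra F K] (g U P : F[X]) (x : K)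
    (hx : aeval x g = 0) : aeval x ((U * P) % g) = aeval x U * aeval x P := by
  have h := congrArg (aeval x) (EuclideanDomain.div_add_mod (U * P) g)
  rw [map_add, map_mul, hx, zero_mul, zero_add, map_mul] at h
  exact h

theorem res_eq (K : Type) [Field K] [Algebra F K] [IsAlgClosed K] (g P : F[X]) (k : ℕ)
    (hP : P.natDegree ≤ k) :
    algebraMap F K (resultant g P g.natDegree k) =
      algebraMap F K g.leadingCoeff ^ k * ((g.aroots K).map (fun x => aeval x P)).prod := by
  have h1 : (g.map (algebraMap F K)).natDegree = g.natDegree := natDegree_map _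
  rw [← resultant_map_map, ← h1, resultant_eq_prod_eval _ _ _ (by rwa [natDegree_map])
    (IsAlgClosed.splits _), leadingCoeff_map]
  congr 2
  refine Multiset.map_congr rfl fun x _ => ?_
  rw [eval_map_algebraMap]

theorem norm_prod (K : Type) [Field K] [Algebra F K] [IsAlgClosed K] [PerfectField F] (h1 : F[X])
    [hirr : Fact (Irreducible h1)] (W : F[X]) :
    algebraMap F K (Algebra.norm F (AdjoinRoot.mk h1 W)) =
      ((h1.aroots K).map (fun x => aeval x W)).prod := by
  classical
  have hne : h1 ≠ 0 := hirr.out.ne_zero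
  have : FiniteDimensional F (AdjoinRoot h1) := (AdjoinRoot.powerBasis hne).finite
  rw [Algebra.norm_eq_prod_embeddings F K]
  have hnodup : (h1.aroots K).Nodup :=
    nodup_roots ((PerfectField.separable_of_irreducible hirr.out).map)
  have e1 : ∀ σ : AdjoinRoot h1 →ₐ[F] K, σ (AdjoinRoot.mk h1 W) =
      (fun x : {x // x ∈ h1.aroots K} => aeval (x : K) W) (AdjoinRoot.equiv K F h1 hne σ) := by
    intro σ
    have e2 : ((AdjoinRoot.equiv K F h1 hne σ : {x // x ∈ h1.aroots K}) : K) =
        σ (AdjoinRoot.root h1) := by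
      simp [AdjoinRoot.equiv]
    simp only [e2]
    rw [← AdjoinRoot.aeval_eq, ← aeval_algHom_apply]
  let _ : Fintype {x // x ∈ h1.aroots K} := Fintype.ofEquiv _ (AdjoinRoot.equiv K F h1 hne)
  rw [Fintype.prod_equiv (AdjoinRoot.equiv K F h1 hne) _
    (fun x : {x // x ∈ h1.aroots K} => aeval (x : K) W) e1]
  rw [← Finset.prod_subtype (h1.aroots K).toFinset (fun x => Multiset.mem_toFinset)
    (fun x => aeval x W)]
  rw [Finset.prod_eq_multiset_prod, Multiset.toFinset_val, hnodup.dedup]

end field

section zmod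

variable {p : ℕ} [Fact p.Prime]

/-- the function on polynomials over the field with `p` elements -/
noncomputable def Psi (g : (ZMod p)[X]) (n : ℕ) (TF : Finset (ZMod p)) (ε : Bool)
    (P : (ZMod p)[X]) : ℤ :=
  (if ε then quadraticChar (ZMod p) (resultant g P n (n - 1)) else 1) *
    ∏ t ∈ TF, quadraticChar (ZMod p) (P.eval t)

theorem natDegree_le_of {F : Type} [Field F] {n : ℕ} {Q : F[X]} (h : Q.degree < n) :
    Q.natDegree ≤ n - 1 := by
  by_cases hQ : Q = 0
  · simp [hQ]
  · have := (natDegree_lt_iff_degree_lt hQ).2 h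
    omega

theorem coprime_of {F : Type} [Field F] {g h1 h2 : F[X]} (hg : g = h1 * h2)
    (hirr : Irreducible h1) (hsq : Squarefree g) : IsCoprime h1 h2 := by
  refine hirr.coprime_iff_not_dvd.2 fun h => ?_
  obtain ⟨k, hk⟩ := h
  exact hirr.not_isUnit (hsq h1 ⟨k, by rw [hg, hk, mul_assoc]⟩)

theorem main (hp2 : p ≠ 2) (g : (ZMod p)[X]) (n : ℕ) (hn : g.natDegree = n) (hn0 : 0 < n)
    (hsq : Squarefree g) (TF : Finset (ZMod p)) (ε : Bool) (hT : ∀ t ∈ TF, g.eval t = 0)
    (hcard : if ε then TF.card < n else TF.Nonempty) :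
    ∑ u : Fin n → ZMod p, Psi g n TF ε (pF u) = 0 := by
  classical
  have hg : g ≠ 0 := by
    rintro rfl
    rw [natDegree_zero] at hn
    omega
  have hchar : ringChar (ZMod p) ≠ 2 := by
    rw [ZMod.ringChar_zmod_n]
    exact hp2
  obtain ⟨c, hc⟩ := quadraticChar_exists_neg_one hchar
  have hc0 : c ≠ 0 := by
    rintro rfl
    rw [MulChar.map_zero] at hc
    norm_num at hc
  have hev : ∀ (U P : (ZMod p)[X]) (t : ZMod p), g.eval t = 0 →
      ((U * P) % g).eval t = U.eval t * P.eval t := by
    intro U P t ht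
    have := eval_mod (K := ZMod p) g U P t (by rw [coe_aeval_eq_eval]; exact ht)
    simpa only [coe_aeval_eq_eval] using this
  cases ε with
  | false =>
    simp only [Bool.false_eq_true, if_false] at hcard
    obtain ⟨t0, ht0⟩ := hcard
    obtain ⟨h2, hh2⟩ := dvd_iff_isRoot.2 (hT t0 ht0 : g.IsRoot t0)
    have hirr : Irreducible (X - C t0 : (ZMod p)[X]) := irreducible_X_sub_C t0
    obtain ⟨U, hU1, hU2, hU3⟩ := crt (W := C c) hh2 hirr (coprime_of hh2 hirr hsq) (by
      intro h
      have := dvd_iff_isRoot.1 h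
      rw [IsRoot.def, eval_C] at this
      exact hc0 this)
    have hUt0 : U.eval t0 = c := by
      have := dvd_iff_isRoot.1 hU1
      rw [IsRoot.def, eval_sub, eval_C] at this
      exact sub_eq_zero.1 this
    have hUt : ∀ t ∈ TF, t ≠ t0 → U.eval t = 1 := by
      intro t ht hne
      have h5 := hT t ht
      rw [hh2, eval_mul, eval_sub, eval_X, eval_C] at h5
      have h6 : h2.eval t = 0 := (mul_eq_zero.1 h5).resolve_left (sub_ne_zero.2 hne)
      obtain ⟨k, hk⟩ := hU2
      have h7 := congrArg (eval t) hk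
      rw [eval_sub, eval_one, eval_mul, h6, zero_mul] at h7
      exact sub_eq_zero.1 h7
    refine sum_zero g hn hg U hU3 _ fun P _ => ?_
    unfold Psi
    simp only [Bool.false_eq_true, if_false, one_mul]
    have h8 : ∏ t ∈ TF, quadraticChar (ZMod p) (((U * P) % g).eval t) =
        (∏ t ∈ TF, quadraticChar (ZMod p) (U.eval t)) *
          ∏ t ∈ TF, quadraticChar (ZMod p) (P.eval t) := by
      rw [← Finset.prod_mul_distrib]
      refine Finset.prod_congr rfl fun t ht => ?_
      rw [hev U P t (hT t ht), map_mul]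
    have h9 : ∏ t ∈ TF, quadraticChar (ZMod p) (U.eval t) = -1 := by
      rw [Finset.prod_eq_single t0]
      · rw [hUt0, hc]
      · intro t ht hne
        rw [hUt t ht hne, map_one]
      · intro h
        exact absurd ht0 h
    rw [h8, h9]
    ring
  | true =>
    simp only [if_true] at hcard
    set q : (ZMod p)[X] := ∏ t ∈ TF, (X - C t) with hq
    have hqg : q ∣ g := by
      refine Finset.prod_dvd_of_coprime ?_ fun t ht => dvd_iff_isRoot.2 (hT t ht)
      intro a _ b _ hab
      exact pairwise_coprime_X_sub_C (s := fun t : ZMod p => t) Function.injective_id hab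
    obtain ⟨h, hh⟩ := hqg
    have hq0 : q ≠ 0 := fun h0 => hg (by rw [hh, h0, zero_mul])
    have hh0 : h ≠ 0 := fun h0 => hg (by rw [hh, h0, mul_zero])
    have hqd : q.natDegree = TF.card := by
      rw [hq]
      exact natDegree_finsetProd_X_sub_C_eq_card _ _
    have hhd : h.natDegree ≠ 0 := by
      have := natDegree_mul hq0 hh0
      rw [← hh, hn, hqd] at this
      omega
    obtain ⟨h1, hirr, k, hk⟩ := exists_irreducible_of_natDegree_ne_zero hhd
    have hg12 : g = h1 * (q * k) := by rw [hh, hk]; ring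
    have hFact : Fact (Irreducible h1) := ⟨hirr⟩
    have hfin : FiniteDimensional (ZMod p) (AdjoinRoot h1) :=
      (AdjoinRoot.powerBasis hirr.ne_zero).finite
    have hfin' : Finite (AdjoinRoot h1) := Module.finite_of_finite (ZMod p)
    obtain ⟨u, hu⟩ := FiniteField.norm_surjective (ZMod p) (AdjoinRoot h1) c
    obtain ⟨W, hW⟩ := AdjoinRoot.mk_surjective u
    obtain ⟨U, hU1, hU2, hU3⟩ := crt (W := W) hg12 hirr (coprime_of hg12 hirr hsq) (by
      intro h5
      rw [← AdjoinRoot.mk_eq_zero] at h5
      rw [← hW, h5, Algebra.norm_zero] at hu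
      exact hc0 hu.symm)
    have hUt : ∀ t ∈ TF, U.eval t = 1 := by
      intro t ht
      have h5 : q.eval t = 0 := by
        rw [hq, eval_prod]
        exact Finset.prod_eq_zero ht (by simp)
      obtain ⟨k', hk'⟩ := hU2
      have h7 := congrArg (eval t) hk'
      rw [eval_sub, eval_one, eval_mul, eval_mul, h5, zero_mul, zero_mul] at h7
      exact sub_eq_zero.1 h7
    have hNP : ((g.aroots (AlgebraicClosure (ZMod p))).map (fun x => aeval x U)).prod =
        algebraMap (ZMod p) (AlgebraicClosure (ZMod p)) c := by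
      rw [hg12, aroots_mul (by rw [← hg12]; exact hg), Multiset.map_add, Multiset.prod_add]
      have e1 : ((h1.aroots (AlgebraicClosure (ZMod p))).map (fun x => aeval x U)).prod =
          algebraMap (ZMod p) (AlgebraicClosure (ZMod p)) c := by
        rw [← hu, ← hW, norm_prod (AlgebraicClosure (ZMod p)) h1 W]
        congr 1
        refine Multiset.map_congr rfl fun x hx => ?_
        have hx0 := (mem_aroots.1 hx).2
        obtain ⟨k', hk'⟩ := hU1
        have h7 := congrArg (aeval x) hk'
        rw [map_sub, map_mul, hx0, zero_mul] at h7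
        exact sub_eq_zero.1 h7
      have e2 : (((q * k).aroots (AlgebraicClosure (ZMod p))).map (fun x => aeval x U)).prod = 1 := by
        refine Multiset.prod_eq_one fun y hy => ?_
        obtain ⟨x, hx, rfl⟩ := Multiset.mem_map.1 hy
        have hx0 := (mem_aroots.1 hx).2
        obtain ⟨k', hk'⟩ := hU2
        have h7 := congrArg (aeval x) hk'
        rw [map_sub, map_one, map_mul, hx0, zero_mul] at h7
        exact sub_eq_zero.1 h7
      rw [e1, e2, mul_one]
    refine sum_zero g hn hg U hU3 _ fun P hP => ?_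
    have hres : resultant g ((U * P) % g) n (n - 1) = c * resultant g P n (n - 1) := by
      apply (algebraMap (ZMod p) (AlgebraicClosure (ZMod p))).injective
      have r1 := res_eq (AlgebraicClosure (ZMod p)) g ((U * P) % g) (n - 1)
        (natDegree_le_of (mod_degree g hn hg _))
      have r2 := res_eq (AlgebraicClosure (ZMod p)) g P (n - 1) (natDegree_le_of hP)
      rw [hn] at r1 r2
      rw [map_mul, r1, r2, ← hNP]
      have r3 : ((g.aroots (AlgebraicClosure (ZMod p))).map
          (fun x => aeval x ((U * P) % g))).prod =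
          ((g.aroots (AlgebraicClosure (ZMod p))).map (fun x => aeval x U)).prod *
          ((g.aroots (AlgebraicClosure (ZMod p))).map (fun x => aeval x P)).prod := by
        rw [← Multiset.prod_map_mul]
        congr 1
        refine Multiset.map_congr rfl fun x hx => ?_
        exact eval_mod g U P x (mem_aroots.1 hx).2
      rw [r3]
      ring
    unfold Psi
    simp only [if_true]
    have h8 : ∏ t ∈ TF, quadraticChar (ZMod p) (((U * P) % g).eval t) =
          ∏ t ∈ TF, quadraticChar (ZMod p) (P.eval t) := by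
      refine Finset.prod_congr rfl fun t ht => ?_
      rw [hev U P t (hT t ht), hUt t ht, one_mul]
    rw [hres, h8, map_mul, hc]
    ring

theorem jac (a : ℤ) : jacobiSym a p = quadraticChar (ZMod p) (a : ZMod p) := by
  rw [← jacobiSym.legendreSym.to_jacobiSym]
  rfl

end zmod

end ZS_

open ZS_ in
theorem p_ZS : T_ZS := by
  intro g p hp hp2 hn hlc hsq T ε hT hcard
  classical
  have hF : Fact p.Prime := ⟨hp⟩
  set gb := g.map (Int.castRingHom (ZMod p)) with hgb
  set n := g.natDegree with hndef
  have hlc' : (Int.castRingHom (ZMod p)) g.leadingCoeff ≠ 0 := by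
    intro h
    exact hlc ((ZMod.intCast_zmod_eq_zero_iff_dvd _ _).1 h)
  have hdeg : gb.natDegree = n := natDegree_map_of_leadingCoeff_ne_zero _ hlc'
  have hinj : Set.InjOn (fun t : ℕ => (t : ZMod p)) (T : Set ℕ) := by
    intro a ha b hb hab
    have h5 := (ZMod.natCast_eq_natCast_iff' a b p).1 hab
    rwa [Nat.mod_eq_of_lt (hT a ha).1, Nat.mod_eq_of_lt (hT b hb).1] at h5
  set TF : Finset (ZMod p) := T.image (fun t : ℕ => (t : ZMod p)) with hTF
  have hTFr : ∀ t ∈ TF, gb.eval t = 0 := by
    intro t ht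
    obtain ⟨s, hs, rfl⟩ := Finset.mem_image.1 ht
    rw [hgb, eval_natCast_map]
    exact (ZMod.intCast_zmod_eq_zero_iff_dvd _ _).2 (hT s hs).2
  have hTFc : TF.card = T.card := Finset.card_image_of_injOn hinj
  have hcard' : if ε then TF.card < n else TF.Nonempty := by
    cases ε
    · simp only [Bool.false_eq_true, if_false] at hcard ⊢
      exact hcard.image _
    · simp only [if_true] at hcard ⊢
      rw [hTFc]; exact hcard
  have hpol : ∀ v : Fin n → ℤ, (pol v).map (Int.castRingHom (ZMod p)) =
      pF (fun k => (v k : ZMod p)) := by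
    intro v
    unfold pol pF
    rw [Polynomial.map_sum]
    refine Finset.sum_congr rfl fun k _ => ?_
    simp
  have key : ∀ v : Fin n → ℤ, (if ε then ((jacobiSym (res g v) p : ℤ) : ℝ) else 1) *
        ∏ t ∈ T, ((jacobiSym ((pol v).eval (t : ℤ)) p : ℤ) : ℝ) =
      ((Psi gb n TF ε (pF (fun k => (v k : ZMod p))) : ℤ) : ℝ) := by
    intro v
    unfold Psi
    rw [hTF, Finset.prod_image hinj]
    have e1 : (((res g v : ℤ)) : ZMod p) =
        resultant gb (pF (fun k => (v k : ZMod p))) n (n - 1) := by
      rw [← hpol v, hgb, resultant_map_map]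
      rfl
    have e2 : ∀ t : ℕ, (((pol v).eval (t : ℤ) : ℤ) : ZMod p) =
        (pF (fun k => (v k : ZMod p))).eval (t : ZMod p) := by
      intro t
      rw [← hpol v, eval_natCast_map]
      rfl
    simp only [jac, e1, e2]
    cases ε
    · simp
    · simp
  refine ⟨?_, ?_, ?_⟩
  · intro v
    have hj : ∀ a : ℤ, |((jacobiSym a p : ℤ) : ℝ)| ≤ 1 := by
      intro a
      rcases jacobiSym.trichotomy a p with h | h | h <;> simp [h]
    rw [abs_mul, Finset.abs_prod]
    refine mul_le_one₀ ?_ (Finset.prod_nonneg fun _ _ => abs_nonneg _)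
      (Finset.prod_le_one (fun _ _ => abs_nonneg _) fun t _ => hj _)
    cases ε
    · simp
    · simpa using hj _
  · intro v w
    rw [key, key]
    congr 3
    funext k
    simp
  · rw [Finset.sum_congr rfl fun v _ => key v]
    have h5 := main hp2 gb n hdeg hn (hsq) TF ε hTFr hcard'
    have h6 : ∑ v ∈ Fintype.piFinset (fun _ : Fin n => Finset.Ico (0 : ℤ) p),
        ((Psi gb n TF ε (pF (fun k => (v k : ZMod p))) : ℤ) : ℝ) =
        ∑ u : Fin n → ZMod p, ((Psi gb n TF ε (pF u) : ℤ) : ℝ) := by
      refine Finset.sum_nbij' (fun v k => (v k : ZMod p)) (fun u k => ((u k).val : ℤ)) ?_ ?_ ?_ ?_ ?_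
      · intro v _
        exact Finset.mem_univ _
      · intro u _
        rw [Fintype.mem_piFinset]
        intro k
        rw [Finset.mem_Ico]
        exact ⟨by positivity, by exact_mod_cast ZMod.val_lt (u k)⟩
      · intro v hv
        funext k
        have := Finset.mem_Ico.1 (Fintype.mem_piFinset.1 hv k)
        show (((v k : ZMod p)).val : ℤ) = v k
        rw [ZMod.val_intCast, Int.emod_eq_of_lt this.1 this.2]
      · intro u _
        funext k
        show (((u k).val : ℤ) : ZMod p) = u k
        rw [Int.cast_natCast, ZMod.natCast_zmod_val]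
      · intro v _
        rfl
    rw [h6, ← Int.cast_sum, h5, Int.cast_zero]

end Pool.Agent.QTx
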