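import Pool.Agent.QTx.Main
import Pool.Agent.QTw.All
import Pool.Agent.QTx.ALG2
import Pool.Agent.QTx.BAL2
import Pool.Agent.QTx.BALG
import Pool.Agent.QTx.BILC
import Pool.Agent.QTx.BL2
import Pool.Agent.QTx.BLK
import Pool.Agent.QTx.BLOCK2
import Pool.Agent.QTx.BOX
import Pool.Agent.QTx.CANON2
import Pool.Agent.QTx.CLREP
import Pool.Agent.QTx.CONST2
import Pool.Agent.QTx.COUNT2
import Pool.Agent.QTx.COV2
import Pool.Agent.QTx.CRTX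
import Pool.Agent.QTx.DENS
import Pool.Agent.QTx.DESC2
import Pool.Agent.QTx.EMBP
import Pool.Agent.QTx.EMBQ
import Pool.Agent.QTx.EMBV
import Pool.Agent.QTx.EVEN2
import Pool.Agent.QTx.EXP2
import Pool.Agent.QTx.EXPM
import Pool.Agent.QTx.EXPO2
import Pool.Agent.QTx.EXT2
import Pool.Agent.QTx.FACT2
import Pool.Agent.QTx.FINSEL
import Pool.Agent.QTx.GEOM2
import Pool.Agent.QTx.GLOB
import Pool.Agent.QTx.GOODQ
import Pool.Agent.QTx.INNER2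
import Pool.Agent.QTx.LEAD
import Pool.Agent.QTx.LOCE
import Pool.Agent.QTx.LOCJ
import Pool.Agent.QTx.LOCV1
import Pool.Agent.QTx.LOCV2
import Pool.Agent.QTx.NU
import Pool.Agent.QTx.PAIR
import Pool.Agent.QTx.PRIME
import Pool.Agent.QTx.PRIN
import Pool.Agent.QTx.RATPT
import Pool.Agent.QTx.REARR2
import Pool.Agent.QTx.RED2
import Pool.Agent.QTx.RTS
import Pool.Agent.QTx.SPL2
import Pool.Agent.QTx.SPLIT2
import Pool.Agent.QTx.SQPS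
import Pool.Agent.QTx.SQRT2
import Pool.Agent.QTx.TRANS
import Pool.Agent.QTx.UNB2
import Pool.Agent.QTx.UNR
import Pool.Agent.QTx.VAND
import Pool.Agent.QTx.WCOMB
import Pool.Agent.QTx.WTSC
import Pool.Agent.QTx.XCASE
import Pool.Agent.QTx.XI
import Pool.Agent.QTx.ZS

/-! # The project QTx: all pieces together -/

open Polynomial

namespace Pool.Agent.QTx

theorem a_UNR : T_UNR := p_UNR p_EMBQ p_EMBV

theorem a_GEOM2 : T_GEOM2 :=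
  p_GEOM2 (p_PAIR (p_SQRT2 p_EVEN2) p_DESC2 p_CONST2) (p_LOCE p_EXT2) p_LEAD

theorem a_ALG2 : T_ALG2 :=
  p_ALG2 a_GEOM2 (p_GOODQ a_UNR p_DENS) (p_LOCV1 p_XCASE) (p_LOCV2 p_XCASE)
    (p_GLOB (p_FINSEL p_EMBQ (p_EMBP p_EMBQ) p_EMBV)) p_LOCJ

theorem a_PRIN : T_PRIN :=
  p_PRIN p_CLREP p_BALG p_VAND p_EMBQ p_EMBV a_UNR (p_PRIME p_EMBQ)

theorem a_BILC : T_BILC := p_BILC (p_XI p_ZS p_NU) p_NU (p_BL2 (p_BLK p_BOX p_CRTX))

theorem a_WTSC : T_WTSC := p_WTSC p_RTS p_WCOMB p_SPL2 p_TRANS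

theorem a_COUNT2 : T_COUNT2 :=
  p_COUNT2 p_RED2 (p_EXP2 p_EXPM) (p_UNB2 (p_REARR2 p_CANON2) (p_INNER2 p_SPLIT2))
    (p_BAL2 p_COV2 (p_EXPO2 p_BLOCK2)) (QTw.p_SMALL QTw.a_BLOCK)

theorem a_CORE : T_CORE := core p_FACT2 a_ALG2 a_PRIN p_RTS a_BILC a_WTSC a_COUNT2

theorem main_full : T_MAIN := main (p_RATPT p_SQPS) a_CORE QTw.main_full

end Pool.Agent.QTx
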