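import Pool.Agent.QTx.Targets
import Pool.Agent.QTw.Main

/-! # Final statement and assembly -/

open Polynomial
open Pool.Agent.QTw (TwistSelNonempty TwistEverywhereLocal T_ELS)

namespace Pool.Agent.QTx

open Classical in
/-- the core of the theorem -/
def T_CORE : Prop :=
  ∀ f : ℤ[X], 5 ≤ f.natDegree → Squarefree (f.map (Int.castRingHom ℚ)) → Even f.natDegree →
    (∀ r : ℚ, aeval r f ≠ 0) →
    ∃ c : ℝ, 0 < c ∧ ∃ B : ℝ, ∀ X : ℕ, 2 ≤ X →
      (((Finset.Icc (-(X : ℤ)) X).filter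
        (fun d => Squarefree d ∧ TwistSelNonempty 2 f d)).card : ℝ) ≤
        B * X / (Real.log X) ^ c

namespace MAIN_

/-- enumeration of finite sets -/
theorem enum {α : Type} [Nonempty α] (n : ℕ) (R : ℕ → Finset α) (h : ∀ p, (R p).card ≤ n) :
    ∃ en : ℕ → Fin n → α, IsEnum R en := by
  classical
  have a₀ : α := Classical.arbitrary α
  have key : ∀ p, ∃ e : Fin n → α, (∀ j j' : Fin n, (j : ℕ) < (R p).card →
      (j' : ℕ) < (R p).card → e j = e j' → j = j') ∧
      ∀ r, r ∈ R p ↔ ∃ j : Fin n, (j : ℕ) < (R p).card ∧ e j = r := by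
    intro p
    set E := (R p).equivFin with hE
    refine ⟨fun j => if hj : (j : ℕ) < (R p).card then (E.symm ⟨j, hj⟩ : α) else a₀, ?_, ?_⟩
    · intro j j' hj hj' hjj
      simp only [hj, hj', dif_pos] at hjj
      have := E.symm.injective (Subtype.ext hjj)
      rw [Fin.mk.injEq] at this
      exact Fin.ext this
    · intro r
      constructor
      · intro hr
        refine ⟨⟨E ⟨r, hr⟩, lt_of_lt_of_le (E ⟨r, hr⟩).2 (h p)⟩, (E ⟨r, hr⟩).2, ?_⟩
        simp
      · rintro ⟨j, hj, rfl⟩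
        simp only [hj, dif_pos]
        exact (E.symm ⟨j, hj⟩).2
  choose en hen using key
  exact ⟨en, fun p => hen p⟩

theorem isPi_mono {g : ℤ[X]} {N N' q s : ℕ} {P : ℤ[X]} (h : N ∣ N') (hP : IsPi g N q s P) :
    IsPi g N' q s P := by
  intro l _ hl t ht
  exact hP l (fun h' => hl (h'.trans h)) t ht

theorem natDegree_eq {n : ℕ} {g : Fin (n + 1) → ℤ[X]} {c : ℚ} {f : ℤ[X]} (hc : c ≠ 0)
    (hg : GoodFactors2 g)
    (hf : f.map (Int.castRingHom ℚ) = C c * ∏ i, (g i).map (Int.castRingHom ℚ)) :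
    f.natDegree = ∑ i, (g i).natDegree := by
  have hinj : Function.Injective (Int.castRingHom ℚ) := Int.cast_injective
  have h1 : (f.map (Int.castRingHom ℚ)).natDegree = f.natDegree := natDegree_map_eq_of_injective hinj f
  rw [← h1, hf, natDegree_C_mul hc, natDegree_prod]
  · exact Finset.sum_congr rfl fun i _ => natDegree_map_eq_of_injective hinj _
  · intro i _
    exact (hg.irr i).ne_zero

end MAIN_

open MAIN_ in
open Classical in
theorem core (hF : T_FACT2) (hA : T_ALG2) (hP : T_PRIN) (hRT : T_RTS)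
    (hB : T_BILC) (hW : T_WTSC) (hC : T_COUNT2) : T_CORE := by
  intro f hf5 hfs heven hroot
  have hf0 : 0 < f.natDegree := by omega
  obtain ⟨k, g, c, hc, hfg, hg⟩ := hF f hf0 hfs hroot
  have hdeg : f.natDegree = ∑ i, (g i).natDegree := natDegree_eq hc hg hfg
  have h6 : 6 ≤ ∑ i, (g i).natDegree := by
    rw [← hdeg]
    obtain ⟨r, hr⟩ := heven
    omega
  obtain ⟨N₁, hN₁, hA'⟩ := hA k g c f hg hc hfg heven
  obtain ⟨N₂, hN₂, hB'⟩ := hB k g hg
  obtain ⟨N₃, hN₃, hW'⟩ := hW k g hg h6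
  obtain ⟨N₄, hN₄, hRT'⟩ := hRT k g hg
  choose NP PP CC hNP hCC hPP using fun i => hP (g i) (hg.irr i)
  set N : ℕ := N₁ * N₂ * N₃ * N₄ * ∏ i, NP i with hN
  have hNpos : 0 < N := by
    have : 0 < ∏ i, NP i := Finset.prod_pos fun i _ => hNP i
    positivity
  have d1 : N₁ ∣ N := ⟨N₂ * N₃ * N₄ * ∏ i, NP i, by rw [hN]; ring⟩
  have d2 : N₂ ∣ N := ⟨N₁ * N₃ * N₄ * ∏ i, NP i, by rw [hN]; ring⟩
  have d3 : N₃ ∣ N := ⟨N₁ * N₂ * N₄ * ∏ i, NP i, by rw [hN]; ring⟩
  have d4 : N₄ ∣ N := ⟨N₁ * N₂ * N₃ * ∏ i, NP i, by rw [hN]; ring⟩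
  have dP : ∀ i, NP i ∣ N := fun i =>
    (Finset.dvd_prod_of_mem NP (Finset.mem_univ i)).trans ⟨N₁ * N₂ * N₃ * N₄, by rw [hN]; ring⟩
  have hPi : PiProp g N PP := by
    intro i q s hq hqN hs hgs
    exact isPi_mono (dP i) (hPP i q s hq (fun h => hqN (h.trans (dP i))) hs hgs).1
  set CM : ℝ := ∑ i, CC i with hCM
  have hCo : CoefProp g N PP CM := by
    intro i q s hq hqN hs hgs
    obtain ⟨_, h2, h3⟩ := hPP i q s hq (fun h => hqN (h.trans (dP i))) hs hgs
    refine ⟨h2, fun l => (h3 l).trans ?_⟩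
    have h4 : CC i ≤ CM := by
      rw [hCM]
      exact Finset.single_le_sum (fun i _ => (hCC i).le) (Finset.mem_univ i)
    exact mul_le_mul_of_nonneg_right h4 (by positivity)
  obtain ⟨h, χ, hχ, hbad⟩ := hA' N PP hNpos d1 hPi
  set n : ℕ := ∑ i, (g i).natDegree with hn
  have hcard : ∀ p, (Rts g N p).card ≤ n := by
    intro p
    rw [Finset.card_eq_sum_card_fiberwise (f := Prod.fst) (t := Finset.univ)
      (fun _ _ => by simp)]
    exact Finset.sum_le_sum fun i _ => hRT' N p hNpos d4 i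
  obtain ⟨en, hen⟩ := enum n (Rts g N) hcard
  set κ : ℕ := 4 * n with hκ
  have hκi : ∀ i, 4 * (g i).natDegree ≤ κ := by
    intro i
    have := Finset.single_le_sum (f := fun i => (g i).natDegree) (fun i _ => Nat.zero_le _)
      (Finset.mem_univ i)
    change (g i).natDegree ≤ n at this
    omega
  obtain ⟨B₀, hB₀, hBil⟩ := hB' N PP CM hNpos d2 hPi hCo n κ en hen hκi
  have hSm := hW' N n PP en hNpos d3 hen
  set a : Fin h → ℕ → Fin n → Fin n → ℝ := fun η p j j' => (χ η p (en p j) (en p j') : ℝ)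
    with ha
  have hbd : (mdl g N PP en).Bounded := by
    refine ⟨fun p j j' q l => ?_, fun p => hcard p⟩
    change |((sg PP p (en p j) (en p j') q (en q l) : ℤ) : ℝ)| ≤ 1
    unfold sg
    rcases jacobiSym.trichotomy ((q : ℤ) * vl PP (en p j) q (en q l) * vl PP (en p j') q (en q l))
      p with h0 | h0 | h0 <;> rw [h0] <;> norm_num
  have habd : ∀ η p j j', |a η p j j'| ≤ 1 := by
    intro η p j j'
    simp only [ha]
    rcases hχ η p (en p j) (en p j') with h0 | h0 <;> rw [h0] <;> norm_num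
  obtain ⟨e, he, B, hcount⟩ := hC (k + 1) n κ (mdl g N PP en) N h B₀ a (by omega) hNpos hB₀ hbd
    habd hBil hSm
  refine ⟨e, he, 2 * B, fun X hX => ?_⟩
  have key : ∀ d ∈ (Finset.Icc (-(X : ℤ)) X).filter
      (fun d => Squarefree d ∧ TwistSelNonempty 2 f d),
      d.natAbs ∈ (Finset.range (X + 1)).filter
        (fun m => Squarefree m ∧ ∃ η, (mdl g N PP en).Bad N (a η) m) := by
    intro d hd
    rw [Finset.mem_filter, Finset.mem_Icc] at hd
    obtain ⟨⟨h1, h2⟩, h3, h4⟩ := hd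
    rw [Finset.mem_filter, Finset.mem_range]
    refine ⟨by omega, Int.squarefree_natAbs.mpr h3, ?_⟩
    obtain ⟨η, ρ, hρ⟩ := hbad d h3 h4
    refine ⟨η, ?_⟩
    have h5 : ∀ p : ℕ, ∃ j : Fin n, p ∈ d.natAbs.primeFactors → ¬ p ∣ N →
        (j : ℕ) < (Rts g N p).card ∧ en p j = ρ p := by
      intro p
      by_cases hp : p ∈ d.natAbs.primeFactors ∧ ¬ p ∣ N
      · obtain ⟨j, hj⟩ := ((hen p).2 (ρ p)).1 (hρ p hp.1 hp.2).1
        exact ⟨j, fun _ _ => hj⟩
      · refine ⟨⟨0, by omega⟩, fun h6 h7 => absurd ⟨h6, h7⟩ hp⟩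
    choose r hr using h5
    refine ⟨r, fun p hp hpN => ⟨(hr p hp hpN).1, fun j hj hjr => ?_⟩⟩
    have h6 := (hρ p hp hpN).2 (en p j) (((hen p).2 _).2 ⟨j, hj, rfl⟩) (by
      rw [← (hr p hp hpN).2]
      intro h7
      exact hjr ((hen p).1 j (r p) hj (hr p hp hpN).1 h7))
    simp only [ha, mdl]
    rw [(hr p hp hpN).2]
    have h7 : ∏ q ∈ d.natAbs.primeFactors.filter (fun q => ¬ q ∣ N ∧ q ≠ p),
        ((sg PP p (ρ p) (en p j) q (en q (r q)) : ℤ) : ℝ) =
        ((∏ q ∈ d.natAbs.primeFactors.filter (fun q => ¬ q ∣ N ∧ q ≠ p),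
          sg PP p (ρ p) (en p j) q (ρ q) : ℤ) : ℝ) := by
      push_cast
      refine Finset.prod_congr rfl fun q hq => ?_
      rw [Finset.mem_filter] at hq
      rw [(hr q hq.1 hq.2.1).2]
    rw [h7]
    exact_mod_cast h6
  have hcard2 : ((Finset.Icc (-(X : ℤ)) X).filter
      (fun d => Squarefree d ∧ TwistSelNonempty 2 f d)).card ≤
      2 * ((Finset.range (X + 1)).filter
        (fun m => Squarefree m ∧ ∃ η, (mdl g N PP en).Bad N (a η) m)).card := by
    refine Finset.card_le_mul_card_image_of_maps_to key 2 ?_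
    intro m _
    refine le_trans (Finset.card_le_card (t := {(m : ℤ), -(m : ℤ)}) ?_) Finset.card_le_two
    intro d hd
    rw [Finset.mem_filter] at hd
    rw [Finset.mem_insert, Finset.mem_singleton]
    omega
  calc (((Finset.Icc (-(X : ℤ)) X).filter
        (fun d => Squarefree d ∧ TwistSelNonempty 2 f d)).card : ℝ)
      ≤ ((2 * ((Finset.range (X + 1)).filter
        (fun m => Squarefree m ∧ ∃ η, (mdl g N PP en).Bad N (a η) m)).card : ℕ) : ℝ) := by
          exact_mod_cast hcard2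
    _ = 2 * (((Finset.range (X + 1)).filter
        (fun m => Squarefree m ∧ ∃ η, (mdl g N PP en).Bad N (a η) m)).card : ℝ) := by
          push_cast; ring
    _ ≤ 2 * (B * X / (Real.log X) ^ e) := by
        have := hcount X hX
        linarith
    _ = 2 * B * X / (Real.log X) ^ e := by ring

namespace MAIN_

/-- a polynomial of degree one over `ℚ` has a root -/
theorem root_of_one {h : ℚ[X]} (hd : h.natDegree = 1) : ∃ r : ℚ, h.eval r = 0 := by
  have h1 : h.degree = 1 := by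
    rw [degree_eq_natDegree (by rintro rfl; simp at hd), hd]
    rfl
  obtain ⟨r, hr⟩ := exists_root_of_degree_eq_one h1
  exact ⟨r, hr⟩

/-- in degree at most four, without rational roots and with even degree, all irreducible factors
have even degree -/
theorem even_factors {f : ℤ[X]} (h4 : f.natDegree ≤ 4) (he : Even f.natDegree)
    (hf0 : 0 < f.natDegree) (hr : ∀ r : ℚ, aeval r f ≠ 0) :
    ∀ h : ℚ[X], Irreducible h → h ∣ f.map (Int.castRingHom ℚ) → Even h.natDegree := by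
  intro h hh hd
  by_contra ho
  rw [Nat.not_even_iff_odd] at ho
  have hroot : ∀ q : ℚ[X], q ∣ f.map (Int.castRingHom ℚ) → q.natDegree ≠ 1 := by
    intro q hq h1
    obtain ⟨r, hr0⟩ := root_of_one h1
    apply hr r
    have : aeval r f = (f.map (Int.castRingHom ℚ)).eval r := by
      rw [eval_map, aeval_def]
      congr 1
    rw [this]
    obtain ⟨s, hs⟩ := hq
    rw [hs, eval_mul, hr0, zero_mul]
  have hinj : Function.Injective (Int.castRingHom ℚ) := Int.cast_injective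
  have hfd : (f.map (Int.castRingHom ℚ)).natDegree = f.natDegree :=
    natDegree_map_eq_of_injective hinj f
  obtain ⟨s, hs⟩ := hd
  have hne : f.map (Int.castRingHom ℚ) ≠ 0 := by
    intro h0
    rw [h0, natDegree_zero] at hfd
    omega
  have hs0 : s ≠ 0 := by
    rintro rfl
    exact hne (by rw [hs, mul_zero])
  have hsum : h.natDegree + s.natDegree = f.natDegree := by
    rw [← hfd, hs, natDegree_mul hh.ne_zero hs0]
  have h1 := hroot h ⟨s, hs⟩
  have h2 := hroot s ⟨h, by rw [hs, mul_comm]⟩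
  obtain ⟨a, ha⟩ := ho
  obtain ⟨b, hb⟩ := he
  omega

end MAIN_

open Classical in
/-- the final statement -/
def T_MAIN : Prop :=
  (∀ f : ℤ[X], 0 < f.natDegree → Squarefree (f.map (Int.castRingHom ℚ)) →
    ((Odd f.natDegree ∨ ∃ r : ℚ, aeval r f = 0) → ∀ d : ℤ, d ≠ 0 → TwistHasPoint f d) ∧
    (¬ (Odd f.natDegree ∨ ∃ r : ℚ, aeval r f = 0) →
      ∃ c : ℝ, 0 < c ∧ ∃ B : ℝ, ∀ X : ℕ, 2 ≤ X →
        (((Finset.Icc (-(X : ℤ)) X).filter
          (fun d => Squarefree d ∧ TwistSelNonempty 2 f d)).card : ℝ) ≤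
          B * X / (Real.log X) ^ c)) ∧
  ∀ g : ℕ, 2 ≤ g → ∃ f : ℤ[X], f.natDegree = 2 * g + 2 ∧
    Squarefree (f.map (Int.castRingHom ℚ)) ∧ (∀ r : ℚ, aeval r f ≠ 0) ∧
    ∀ d : ℤ, d ≠ 0 → TwistEverywhereLocal f d

open MAIN_ in
open Classical in
theorem main (hR : T_RATPT) (hCo : T_CORE) (hV : QTw.T_MAIN) : T_MAIN := by
  refine ⟨fun f hf0 hfs => ⟨fun hcase d hd => hR f d hd hf0 hfs hcase, fun hcase => ?_⟩, ?_⟩
  · push Not at hcase
    obtain ⟨hodd, hroot⟩ := hcase
    have heven : Even f.natDegree := Nat.not_odd_iff_even.mp hodd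
    rcases Nat.lt_or_ge f.natDegree 5 with h5 | h5
    · exact hV.1 f hf0 hfs (even_factors (by omega) heven hf0 hroot)
    · exact hCo f h5 hfs heven hroot
  · intro g hg
    obtain ⟨f, h1, h2, h3, h4⟩ := hV.2 g hg
    refine ⟨f, h1, h2, fun r hr => ?_, h4⟩
    have h5 : (X - C r) ∣ f.map (Int.castRingHom ℚ) := by
      rw [dvd_iff_isRoot, IsRoot.def, eval_map]
      rw [aeval_def] at hr
      exact hr
    have h6 := h3 (X - C r) (irreducible_X_sub_C r) h5
    rw [natDegree_X_sub_C] at h6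
    exact absurd h6 (by decide)

end Pool.Agent.QTx
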