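import Pool.Agent.QTx.Targets

open Polynomial NumberField
open Pool.Agent.QTw (IsFunctionField IsCovering HasPoint TwistSelNonempty geomField primesTo cfgs
  idealCount rootCount)

namespace Pool.Agent.QTx

namespace CRTX_

theorem per_mod {n p : ℕ} {Φ : (Fin n → ℤ) → ℝ}
    (hper : ∀ v w : Fin n → ℤ, Φ (v + (p : ℤ) • w) = Φ v) (v : Fin n → ℤ) :
    Φ (fun i => v i % (p : ℤ)) = Φ v := by
  have h := hper (fun i => v i % (p : ℤ)) (fun i => v i / (p : ℤ))
  rw [← h]
  congr 1
  funext i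
  simp only [Pi.add_apply, Pi.smul_apply, smul_eq_mul]
  rw [Int.emod_add_mul_ediv]

end CRTX_

open CRTX_

theorem p_CRTX : T_CRTX := by
  intro n p q Φ Ψ hp hq hpq hΦ hΨ
  have hp' : (0 : ℤ) < p := by exact_mod_cast hp
  have hq' : (0 : ℤ) < q := by exact_mod_cast hq
  have hpq' : (0 : ℤ) < ((p * q : ℕ) : ℤ) := by push_cast; positivity
  refine ⟨?_, ?_, ?_⟩
  · intro v
    rw [abs_mul]
    exact mul_le_one₀ (hΦ.le v) (abs_nonneg _) (hΨ.le v)
  · intro v w
    have h1 : v + ((p * q : ℕ) : ℤ) • w = v + (p : ℤ) • ((q : ℤ) • w) := by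
      rw [smul_smul]; push_cast; rfl
    have h2 : v + ((p * q : ℕ) : ℤ) • w = v + (q : ℤ) • ((p : ℤ) • w) := by
      rw [smul_smul]; push_cast; rw [mul_comm]
    show Φ _ * Ψ _ = _
    conv_lhs => rw [h1, hΦ.per, ← h1, h2, hΨ.per]
  · obtain ⟨u, v, huv⟩ : ∃ u v : ℤ, u * p + v * q = 1 := by
      have h := Nat.isCoprime_iff_coprime.mpr hpq
      obtain ⟨a, b, h⟩ := h
      exact ⟨a, b, h⟩
    set crt : ℤ → ℤ → ℤ := fun a b => (a * (v * q) + b * (u * p)) % ((p * q : ℕ) : ℤ) with hcrt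
    have hcp : ∀ a b, crt a b % (p : ℤ) = a % p := by
      intro a b
      rw [hcrt]
      simp only
      rw [Int.emod_emod_of_dvd _ (by push_cast; exact Dvd.intro _ rfl)]
      have : a * (v * q) + b * (u * p) = a + p * (b * u - a * u) := by
        have : v * q = 1 - u * p := by linarith
        rw [this]; ring
      rw [this, Int.add_mul_emod_self_left]
    have hcq : ∀ a b, crt a b % (q : ℤ) = b % q := by
      intro a b
      rw [hcrt]
      simp only
      rw [Int.emod_emod_of_dvd _ (by push_cast; exact Dvd.intro_left _ rfl)]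
      have : a * (v * q) + b * (u * p) = b + q * (a * v - b * v) := by
        have : u * p = 1 - v * q := by linarith
        rw [this]; ring
      rw [this, Int.add_mul_emod_self_left]
    have huniq : ∀ x y : ℤ, 0 ≤ x → x < ((p * q : ℕ) : ℤ) → 0 ≤ y → y < ((p * q : ℕ) : ℤ) →
        x % p = y % p → x % q = y % q → x = y := by
      intro x y hx hx' hy hy' h1 h2
      have hd1 : (p : ℤ) ∣ x - y := Int.ModEq.dvd (Int.ModEq.symm h1)
      have hd2 : (q : ℤ) ∣ x - y := Int.ModEq.dvd (Int.ModEq.symm h2)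
      have hd : ((p * q : ℕ) : ℤ) ∣ x - y := by
        push_cast
        exact IsCoprime.mul_dvd (Nat.isCoprime_iff_coprime.mpr hpq) hd1 hd2
      have := Int.emod_eq_emod_iff_emod_sub_eq_zero.mpr (Int.emod_eq_zero_of_dvd hd)
      rwa [Int.emod_eq_of_lt hx hx', Int.emod_eq_of_lt hy hy'] at this
    have key : ∑ w ∈ Fintype.piFinset (fun _ : Fin n => Finset.Ico (0 : ℤ) ((p * q : ℕ) : ℤ)),
        Φ w * Ψ w =
        ∑ x ∈ (Fintype.piFinset (fun _ : Fin n => Finset.Ico (0 : ℤ) p)) ×ˢ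
          (Fintype.piFinset (fun _ : Fin n => Finset.Ico (0 : ℤ) q)), Φ x.1 * Ψ x.2 := by
      refine Finset.sum_bij' (fun w _ => (fun i => w i % (p : ℤ), fun i => w i % (q : ℤ)))
        (fun x _ => fun i => crt (x.1 i) (x.2 i)) ?_ ?_ ?_ ?_ ?_
      · intro w _
        simp only [Finset.mem_product, Fintype.mem_piFinset, Finset.mem_Ico]
        exact ⟨fun i => ⟨Int.emod_nonneg _ hp'.ne', Int.emod_lt_of_pos _ hp'⟩,
          fun i => ⟨Int.emod_nonneg _ hq'.ne', Int.emod_lt_of_pos _ hq'⟩⟩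
      · intro x _
        simp only [Fintype.mem_piFinset, Finset.mem_Ico]
        exact fun i => ⟨Int.emod_nonneg _ hpq'.ne', Int.emod_lt_of_pos _ hpq'⟩
      · intro w hw
        simp only [Fintype.mem_piFinset, Finset.mem_Ico] at hw
        funext i
        refine huniq _ _ (Int.emod_nonneg _ hpq'.ne') (Int.emod_lt_of_pos _ hpq') (hw i).1 (hw i).2
          ?_ ?_
        · rw [hcp, Int.emod_emod_of_dvd _ dvd_rfl]
        · rw [hcq, Int.emod_emod_of_dvd _ dvd_rfl]
      · intro x hx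
        simp only [Finset.mem_product, Fintype.mem_piFinset, Finset.mem_Ico] at hx
        refine Prod.ext ?_ ?_
        · funext i
          show crt _ _ % _ = _
          rw [hcp, Int.emod_eq_of_lt (hx.1 i).1 (hx.1 i).2]
        · funext i
          show crt _ _ % _ = _
          rw [hcq, Int.emod_eq_of_lt (hx.2 i).1 (hx.2 i).2]
      · intro w _
        show _ = Φ (fun i => w i % (p : ℤ)) * Ψ (fun i => w i % (q : ℤ))
        rw [per_mod hΦ.per, per_mod hΨ.per]
    show ∑ w ∈ Fintype.piFinset (fun _ : Fin n => Finset.Ico (0 : ℤ) ((p * q : ℕ) : ℤ)),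
        Φ w * Ψ w = 0
    rw [key, Finset.sum_product]
    simp only
    rw [Finset.sum_congr rfl fun x _ => (Finset.mul_sum _ _ _).symm, hΨ.zero]
    simp

end Pool.Agent.QTx
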