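import Pool.Agent.QTw.Defs

/-!
# Quadratic twists of hyperelliptic curves: rational points
-/

open Polynomial

namespace Pool.Agent.QTx

/-- The quadratic twist `C_d : d y² = f(x)` has a rational point. -/
def TwistHasPoint (f : ℤ[X]) (d : ℤ) : Prop :=
  ∃ (F : Type) (_ : Field F) (_ : CharZero F) (x y : F),
    QTw.IsFunctionField f d x y ∧ QTw.HasPoint F ℚ

end Pool.Agent.QTx
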