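import Pool.Agent.QTx.Targets

set_option autoImplicit false

/-!
# SQPS: a power series with constant term 1 is a square
-/

namespace Pool.Agent.QTx

namespace SQPS_

/-- the coefficients of the square root -/
noncomputable def q (P : PowerSeries ℚ) : ℕ → ℚ
  | 0 => 1
  | n + 1 => (PowerSeries.coeff (n + 1) P -
      ∑ k : Fin n, q P ((k : ℕ) + 1) * q P (n - (k : ℕ))) / 2
  termination_by n => n
  decreasing_by
    · have := k.isLt
      omega
    · have := k.isLt
      omega

theorem q_zero (P : PowerSeries ℚ) : q P 0 = 1 := by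
  rw [q]

theorem q_succ (P : PowerSeries ℚ) (n : ℕ) : q P (n + 1) = (PowerSeries.coeff (n + 1) P -
    ∑ k ∈ Finset.range n, q P (k + 1) * q P (n - k)) / 2 := by
  rw [q, Finset.sum_range (fun k => q P (k + 1) * q P (n - k))]

end SQPS_

open SQPS_ in
/-- SQPS -/
theorem p_SQPS : T_SQPS := by
  intro P hP
  refine ⟨PowerSeries.mk (q P), ?_, ?_⟩
  · rw [← PowerSeries.coeff_zero_eq_constantCoeff_apply, PowerSeries.coeff_mk, q_zero]
  · ext n
    rw [pow_two, PowerSeries.coeff_mul]
    simp only [PowerSeries.coeff_mk]
    rw [Finset.Nat.sum_antidiagonal_eq_sum_range_succ (fun i j => q P i * q P j)]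
    cases n with
    | zero =>
      rw [PowerSeries.coeff_zero_eq_constantCoeff_apply, hP]
      simp [q_zero]
    | succ n =>
      rw [Finset.sum_range_succ, Finset.sum_range_succ']
      simp only [Nat.sub_self, Nat.sub_zero, q_zero]
      have h : ∀ k, n + 1 - (k + 1) = n - k := fun k => by omega
      simp only [h]
      have h2 := q_succ P n
      linarith

end Pool.Agent.QTx
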